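import Pool.Agent.Lib.FlA.Def4

/-!
# Internal definitions: hypotheses of the positivity lemma
-/

set_option autoImplicit false

namespace Pool.Agent.Flop

open Finset

variable {V E : Type} [Fintype V] [DecidableEq V] [DecidableEq E] {Q : Qv V E}

/-- There is at most one arrow between different vertices, and there are no simple cycles of
length at least 4. -/
structure Thin {V E : Type} (Q : Qv V E) : Prop where
  single : ∀ a b, Q.src a ≠ Q.tgt a → Q.src b = Q.src a → Q.tgt b = Q.tgt a → a = b
  cycles : ∀ k : ℕ, 4 ≤ k → ∀ v : ZMod k → V, Function.Injective v →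
    ¬ ∀ i, ∃ a, Q.src a = v i ∧ Q.tgt a = v (i + 1)

/-- Homogeneous potentials of positive weight, with a finite-dimensional Jacobi algebra, on a thin
quiver. -/
structure PHyp (Φ : Hat Q) (lam : E → ℚ) (w : ℚ) : Prop where
  three : Φ ∈ Fil Q 3
  fin : ∃ K, Fil Q K ≤ jac Φ
  pos : 0 < w
  hom : ∀ i l, Φ.cf i i l ≠ 0 → (l.map lam).sum = w
  thin : Thin Q

end Pool.Agent.Flop
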