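import Pool.Agent.Lib.FlA.Def2

/-!
# Bs1: closed subspaces, the Jacobi ideal, cyclic derivatives of commutators, closed part

ALL ROUTINE. `jac_ml`, `jac_mr`, `cyc_jac` are proved in Pool/Agent/Lib/MP_03045c_ag/EvMod.lean (first 60 lines, as jac_mul_left, jac_mul_right,
cyc_mem_jac): copy (do NOT import EvMod). `jac_min`: `jac W = cl (span {p * cyc a W * q})`, span_induction, then closedness of `S` (`mem_cl`). `jac_Fil`: `cyc_mem_Fil`,
and `Fil n` is closed. `cyc_comm`: by continuity (`cycL`, `cyc_mem_Fil`, `Fil_sep`: cyc a maps Fil (n+1) to Fil n) it is enough to see cyc a (p q) = cyc a (q p). This is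
bilinear, so (exists_words p n, exists_words q n, error terms in Fil) enough for words, `word Q i l * word Q j l'` = `word Q i (l ++ l')` if l is a path from i to j, else 0
(see ncyc_word_mul in NCyc), and cyc a of a closed word is the sum over its rotations starting after a; or directly with coefficients: both sides at the path l from tgt a
to src a are the sum over all v, k <= l.length and all cuttings of the word (l.drop k ++ a :: l.take k) in two pieces: the rotations of (a :: l) cut in two pieces, a
symmetric set: the pair (rotation, cut) is the same as two cuts of the cyclic word. `cpart_sub`: mod Fil n, f is a finite combination of words (exists_words); for a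
word from i to j with i <> j: word = e_i * word - word * e_i, a commutator; word with i = j: cpart word = word.
-/

/-!
# Bs1: closed subspaces, the Jacobi ideal, cyclic derivatives of commutators, closed part

ALL ROUTINE. `jac_ml`, `jac_mr`, `cyc_jac` are proved in Pool/Agent/Lib/MP_03045c_ag/EvMod.lean (first 60 lines, as jac_mul_left, jac_mul_right,
cyc_mem_jac): copy (do NOT import EvMod). `jac_min`: `jac W = cl (span {p * cyc a W * q})`, span_induction, then closedness of `S` (`mem_cl`). `jac_Fil`: `cyc_mem_Fil`,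
and `Fil n` is closed. `cyc_comm`: by continuity (`cycL`, `cyc_mem_Fil`, `Fil_sep`: cyc a maps Fil (n+1) to Fil n) it is enough to see cyc a (p q) = cyc a (q p). This is
bilinear, so (exists_words p n, exists_words q n, error terms in Fil) enough for words, `word Q i l * word Q j l'` = `word Q i (l ++ l')` if l is a path from i to j, else 0
(see ncyc_word_mul in NCyc), and cyc a of a closed word is the sum over its rotations starting after a; or directly with coefficients: both sides at the path l from tgt a
to src a are the sum over all v, k <= l.length and all cuttings of the word (l.drop k ++ a :: l.take k) in two pieces: the rotations of (a :: l) cut in two pieces, a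
symmetric set: the pair (rotation, cut) is the same as two cuts of the cyclic word. `cpart_sub`: mod Fil n, f is a finite combination of words (exists_words); for a
word from i to j with i <> j: word = e_i * word - word * e_i, a commutator; word with i = j: cpart word = word.
-/

set_option autoImplicit false

namespace Pool.Agent.Flop

open Finset

variable {V E : Type} [Fintype V] [DecidableEq V] [DecidableEq E] {Q : Qv V E}


/-! ### auxiliary lemmas: rotations -/

private theorem bs1_rot1 (G : List E → ℂ) (c : List E) :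
    ∑ r ∈ range c.length, G (c.rotate (r + 1)) = ∑ r ∈ range c.length, G (c.rotate r) := by
  have h1 := Finset.sum_range_succ (fun r => G (c.rotate r)) c.length
  have h2 := Finset.sum_range_succ' (fun r => G (c.rotate r)) c.length
  rw [List.rotate_length] at h1
  rw [List.rotate_zero] at h2
  exact add_right_cancel (h2.symm.trans h1)

private theorem bs1_rot (G : List E → ℂ) (c : List E) (m : ℕ) :
    ∑ r ∈ range c.length, G ((c.rotate r).rotate m) = ∑ r ∈ range c.length, G (c.rotate r) := by
  induction m with
  | zero => simp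
  | succ m ih =>
    rw [← ih, ← bs1_rot1 (fun w => G (w.rotate m)) c]
    refine Finset.sum_congr rfl fun r _ => ?_
    rw [List.rotate_rotate, List.rotate_rotate]
    congr 2
    omega

private theorem bs1_flip (P : List E → List E → ℂ) (c : List E) :
    ∑ r ∈ range c.length, ∑ m ∈ range (c.length + 1),
      P ((c.rotate (r + 1)).take m) ((c.rotate (r + 1)).drop m) =
    ∑ r ∈ range c.length, ∑ m ∈ range (c.length + 1),
      P ((c.rotate (r + 1)).drop m) ((c.rotate (r + 1)).take m) := by
  rw [bs1_rot1 (fun w => ∑ m ∈ range (c.length + 1), P (w.take m) (w.drop m)) c,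
    bs1_rot1 (fun w => ∑ m ∈ range (c.length + 1), P (w.drop m) (w.take m)) c,
    Finset.sum_comm, Finset.sum_comm (s := range c.length), ← Finset.sum_flip]
  refine Finset.sum_congr rfl fun m hm => ?_
  have hm' : m ≤ c.length := Nat.lt_succ_iff.1 (Finset.mem_range.1 hm)
  rw [← bs1_rot (fun w => P (w.take (c.length - m)) (w.drop (c.length - m))) c m]
  refine Finset.sum_congr rfl fun r _ => ?_
  have hl : (c.rotate r).length = c.length := List.length_rotate _ _
  generalize c.rotate r = w at hl
  have hd : (w.drop m).length = c.length - m := by rw [List.length_drop, hl]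
  rw [List.rotate_eq_drop_append_take (by omega), List.take_left' hd, List.drop_left' hd]

private theorem bs1_cyc_cf (a : E) (Φ : Hat Q) (i j : V) (l : List E) :
    (cyc a Φ).cf i j l = if i = Q.tgt a ∧ j = Q.src a then
      ∑ v, ∑ k ∈ range (l.length + 1), Φ.cf v v (l.drop k ++ a :: l.take k) else 0 := rfl

private theorem bs1_cyc_mul (a : E) (p q : Hat Q) (l : List E) :
    (∑ v, ∑ k ∈ range (l.length + 1), (p * q).cf v v (l.drop k ++ a :: l.take k)) =
    ∑ r ∈ range (a :: l).length, ∑ m ∈ range ((a :: l).length + 1),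
      (fun x y => ∑ v, ∑ u, p.cf v u x * q.cf u v y)
        (((a :: l).rotate (r + 1)).take m) (((a :: l).rotate (r + 1)).drop m) := by
  rw [Finset.sum_comm, List.length_cons]
  refine Finset.sum_congr rfl fun k hk => ?_
  have hk' : k + 1 ≤ (a :: l).length := by
    rw [List.length_cons]
    exact Finset.mem_range.1 hk
  have e : (a :: l).rotate (k + 1) = l.drop k ++ a :: l.take k := by
    rw [List.rotate_eq_drop_append_take hk', List.drop_succ_cons, List.take_succ_cons]
  have hlen : (l.drop k ++ a :: l.take k).length = l.length + 1 := by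
    rw [← e, List.length_rotate, List.length_cons]
  rw [e]
  beta_reduce
  rw [Finset.sum_comm]
  refine Finset.sum_congr rfl fun v _ => ?_
  rw [Hat.cf_mul, hlen, Finset.sum_comm]

private theorem bs1_comm (a : E) (p q : Hat Q) : cyc a (p * q) = cyc a (q * p) := by
  apply Hat.ext_cf
  intro i j l
  rw [bs1_cyc_cf, bs1_cyc_cf]
  split_ifs with h
  · rw [bs1_cyc_mul, bs1_cyc_mul]
    refine (bs1_flip (fun x y => ∑ v, ∑ u, p.cf v u x * q.cf u v y) (a :: l)).trans ?_
    refine Finset.sum_congr rfl fun r _ => Finset.sum_congr rfl fun m _ => ?_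
    beta_reduce
    rw [Finset.sum_comm]
    exact Finset.sum_congr rfl fun u _ => Finset.sum_congr rfl fun v _ => mul_comm _ _
  · rfl

theorem isCl_cl (S : Submodule ℂ (Hat Q)) : IsCl (cl S) := by
  intro f hf
  rw [← cl_cl]
  exact mem_cl.2 hf

theorem isCl_jac (W : Hat Q) : IsCl (jac W) := isCl_cl _

theorem isCl_Fil (n : ℕ) : IsCl (Fil Q n) := by
  intro f hf
  obtain ⟨s, hs, h⟩ := hf n
  have h1 := Submodule.add_mem _ h hs
  rwa [sub_add_cancel] at h1

theorem jac_ml {W f : Hat Q} (z : Hat Q) (h : f ∈ jac W) : z * f ∈ jac W := by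
  unfold jac at h ⊢
  rw [mem_cl] at h ⊢
  intro n
  obtain ⟨s, hs, h⟩ := h n
  refine ⟨z * s, ?_, by rw [← mul_sub]; exact mul_mem_Fil_left z h⟩
  clear h
  induction hs using Submodule.span_induction with
  | mem x h =>
    obtain ⟨a, p, q, rfl⟩ := h
    exact Submodule.subset_span ⟨a, z * p, q, by simp only [mul_assoc]⟩
  | zero => rw [mul_zero]; exact zero_mem _
  | add x y _ _ h1 h2 => rw [mul_add]; exact add_mem h1 h2
  | smul c x _ h => rw [mul_smul_comm]; exact Submodule.smul_mem _ _ h

theorem jac_mr {W f : Hat Q} (z : Hat Q) (h : f ∈ jac W) : f * z ∈ jac W := by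
  unfold jac at h ⊢
  rw [mem_cl] at h ⊢
  intro n
  obtain ⟨s, hs, h⟩ := h n
  refine ⟨s * z, ?_, by rw [← sub_mul]; exact mul_mem_Fil_right z h⟩
  clear h
  induction hs using Submodule.span_induction with
  | mem x h =>
    obtain ⟨a, p, q, rfl⟩ := h
    exact Submodule.subset_span ⟨a, p, q * z, by simp only [mul_assoc]⟩
  | zero => rw [zero_mul]; exact zero_mem _
  | add x y _ _ h1 h2 => rw [add_mul]; exact add_mem h1 h2
  | smul c x _ h => rw [smul_mul_assoc]; exact Submodule.smul_mem _ _ h

theorem cyc_jac (W : Hat Q) (a : E) : cyc a W ∈ jac W :=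
  le_cl _ (Submodule.subset_span ⟨a, 1, 1, by rw [one_mul, mul_one]⟩)

theorem jac_min {W : Hat Q} {S : Submodule ℂ (Hat Q)} (hS : IsCl S)
    (hl : ∀ z f, f ∈ S → z * f ∈ S) (hr : ∀ z f, f ∈ S → f * z ∈ S) (h : ∀ a, cyc a W ∈ S) :
    jac W ≤ S := by
  intro f hf
  unfold jac at hf
  rw [mem_cl] at hf
  refine hS f fun n => ?_
  obtain ⟨s, hs, h1⟩ := hf n
  refine ⟨s, ?_, h1⟩
  refine (Submodule.span_le.2 ?_) hs
  rintro x ⟨a, p, q, rfl⟩
  exact hr _ _ (hl _ _ (h a))

theorem jac_Fil {W : Hat Q} {n : ℕ} (h : W ∈ Fil Q (n + 1)) : jac W ≤ Fil Q n :=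
  jac_min (isCl_Fil n) (fun z _ hf => mul_mem_Fil_left z hf) (fun z _ hf => mul_mem_Fil_right z hf)
    fun a => cyc_mem_Fil a h

theorem cyc_comm [Finite E] {f : Hat Q} (h : f ∈ cl (Comm Q)) (a : E) : cyc a f = 0 := by
  have h0 : Comm Q ≤ LinearMap.ker (cycL Q a) := by
    refine Comm_le fun p q => ?_
    rw [LinearMap.mem_ker, map_sub, cycL_apply, cycL_apply, bs1_comm, sub_self]
  refine Fil_sep fun n => ?_
  obtain ⟨s, hs, h1⟩ := mem_cl.1 h (n + 1)
  have h2 := cyc_mem_Fil a h1
  rw [← cycL_apply, map_sub, LinearMap.mem_ker.1 (h0 hs), sub_zero, cycL_apply] at h2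
  exact h2

theorem cyc_congr [Finite E] {f g : Hat Q} (h : f - g ∈ cl (Comm Q)) (a : E) :
    cyc a f = cyc a g := by
  have h1 := cyc_comm h a
  rw [← cycL_apply, map_sub, cycL_apply, cycL_apply] at h1
  exact sub_eq_zero.1 h1

theorem jac_congr [Finite E] {f g : Hat Q} (h : f - g ∈ cl (Comm Q)) : jac f = jac g := by
  unfold jac
  simp only [cyc_congr h]

private theorem bs1_nil (p q : Hat Q) (i : V) :
    (p * q).cf i i [] = p.cf i i [] * q.cf i i [] := by
  rw [Hat.cf_mul, Finset.sum_eq_single i]
  · simp
  · intro k _ hk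
    simp [Hat.cf_nil p (Ne.symm hk)]
  · exact fun h' => absurd (Finset.mem_univ i) h'

theorem comm_nil {f : Hat Q} (h : f ∈ cl (Comm Q)) (i : V) : f.cf i i [] = 0 := by
  obtain ⟨s, hs, h1⟩ := mem_cl.1 h 1
  have h2 : s.cf i i [] = 0 := by
    clear h1
    unfold Comm at hs
    induction hs using Submodule.span_induction with
    | mem x h =>
      obtain ⟨p, q, rfl⟩ := h
      rw [Hat.cf_sub, bs1_nil, bs1_nil, mul_comm, sub_self]
    | zero => rw [Hat.cf_zero]
    | add x y _ _ h1 h2 => rw [Hat.cf_add, h1, h2, add_zero]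
    | smul c x _ h => rw [Hat.cf_smul, h, mul_zero]
  have h3 := (mem_Fil.1 h1) i i [] Nat.zero_lt_one
  rw [Hat.cf_sub, h2, sub_zero] at h3
  exact h3

theorem cpart_sub [Finite E] (f : Hat Q) : f - cpart f ∈ cl (Comm Q) := by
  refine le_cl _ ?_
  have h1 : f - cpart f = ∑ i, ∑ j, if i = j then 0 else idem Q i * (f * idem Q j) := by
    apply Hat.ext_cf
    intro p q l
    rw [Hat.cf_sub, cf_cpart, Hat.cf_sum, Finset.sum_eq_single p, Hat.cf_sum,
      Finset.sum_eq_single q]
    · by_cases hpq : p = q
      · rw [if_pos hpq, if_pos hpq, sub_self, Hat.cf_zero]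
      · rw [if_neg hpq, if_neg hpq, sub_zero, cf_idem_mul, if_pos rfl, cf_mul_idem, if_pos rfl]
    · intro j _ hj
      split_ifs with h2
      · rw [Hat.cf_zero]
      · rw [cf_idem_mul, if_pos rfl, cf_mul_idem, if_neg (Ne.symm hj)]
    · exact fun h' => absurd (Finset.mem_univ q) h'
    · intro i _ hi
      rw [Hat.cf_sum]
      refine Finset.sum_eq_zero fun j _ => ?_
      split_ifs with h2
      · rw [Hat.cf_zero]
      · rw [cf_idem_mul, if_neg (Ne.symm hi)]
    · exact fun h' => absurd (Finset.mem_univ p) h'
  rw [h1]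
  refine Submodule.sum_mem _ fun i _ => Submodule.sum_mem _ fun j _ => ?_
  split_ifs with h2
  · exact Submodule.zero_mem _
  · have h3 := comm_mem (idem Q i) (f * idem Q j)
    rwa [mul_assoc f, idem_mul_idem, if_neg (Ne.symm h2), mul_zero, sub_zero] at h3

theorem cpart_Fil {n : ℕ} {f : Hat Q} (h : f ∈ Fil Q n) : cpart f ∈ Fil Q n := by
  rw [mem_Fil] at h ⊢
  intro i j l hl
  rw [cf_cpart, h i j l hl, ite_self]

end Pool.Agent.Flop
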