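import Pool.Agent.Lib.FlA.Def2

/-!
# Nilp: cofinite ideals contain a power of the radical

(1) The subspaces I + Fil n decrease and T/I is finite-dimensional, so I + Fil n = I + Fil (n+1) for some n (dimensions of the images in T/I; `Submodule.finrank` or well-foundedness of Artinian modules: `monotone_stabilizes_iff_artinian`/
`IsArtinian` for Hat Q ⧸ I). So Fil n <= I + Fil (n+1). (2) Let B be the finite set of words of length n (paths) as elements of Hat Q: every f in Fil n is a finite sum f = sum_w w * f_w (iterate exists_decomp, or: induction on n: f = sum_a arr a * c_a, c_a in Fil (n-1)),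
every f in Fil (n+1) is sum_w w * q_w with q_w in Fil 1. So every word w of length n is w = sum_v v * q v w + i_w, q v w in Fil 1, i_w in I. (3) The matrix 1 - q over Hat Q is invertible: q^k has entries in Fil k, the partial sums
of sum_k q^k converge entrywise (Fil_lim), N := the limit satisfies (1 - q) N = 1 (Fil_sep). Then (w)_w (1 - q) = (i_w) gives (w) = (i_w) N, so w in I (right ideal). Hence Fil n <= I. ALTERNATIVE to (3) avoiding matrices: eliminate the words one after the other:
claim: if M = sum of finitely many w_1 T + ... + w_r T (right ideals generated) satisfies w_k in I + sum_l w_l Fil 1 for all k, then w_k in I for all k; induction on r: w_r (1 - q_rr) in I + sum_{l<r} w_l Fil 1, 1 - q_rr is a unit of T (geometric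
series), so w_r in I + sum_{l<r} w_l Fil 1; substitute in the others; induction gives w_l in I for l < r, hence w_r in I.
-/

set_option autoImplicit false

namespace Pool.Agent.Flop

open Finset

variable {V E : Type} [Fintype V] [DecidableEq V] [DecidableEq E] {Q : Qv V E}

private theorem nilp_inv {q : Hat Q} (hq : q ∈ Fil Q 1) : ∃ u : Hat Q, (1 - q) * u = 1 := by
  have hpow : ∀ n : ℕ, q ^ n ∈ Fil Q n := by
    intro n
    induction n with
    | zero => rw [Fil_zero]; trivial
    | succ n ih => rw [pow_succ]; exact mul_mem_Fil ih hq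
  obtain ⟨u, hu⟩ := Fil_lim (fun n => ∑ k ∈ range n, q ^ k) (by
    intro n
    rw [Finset.sum_range_succ, add_sub_cancel_left]
    exact hpow n)
  refine ⟨u, ?_⟩
  rw [← sub_eq_zero]
  refine Fil_sep fun n => ?_
  have h1 : (1 - q) * u - 1 = (1 - q) * (u - ∑ k ∈ range n, q ^ k) - q ^ n := by
    rw [mul_sub, mul_neg_geom_sum]
    abel
  rw [h1]
  exact Submodule.sub_mem _ (mul_mem_Fil_left _ (hu n)) (hpow n)

private theorem nilp_nak {ι : Type} [DecidableEq ι] (I : Submodule ℂ (Hat Q))
    (hr : ∀ z f, f ∈ I → f * z ∈ I) (b : ι → Hat Q) (s : Finset ι) :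
    (∀ k ∈ s, ∃ q : ι → Hat Q, (∀ l, q l ∈ Fil Q 1) ∧ b k - ∑ l ∈ s, b l * q l ∈ I) →
    ∀ k ∈ s, b k ∈ I := by
  induction s using Finset.induction_on with
  | empty => intro _ k hk; exact absurd hk (Finset.notMem_empty k)
  | insert r s hrs ih =>
    intro h
    obtain ⟨p, hp1, hp2⟩ := h r (Finset.mem_insert_self r s)
    obtain ⟨u, hu⟩ := nilp_inv (hp1 r)
    rw [Finset.sum_insert hrs] at hp2
    have h1 : b r - ∑ l ∈ s, b l * (p l * u) ∈ I := by
      have h2 := hr u _ hp2
      have h3 : (b r - (b r * p r + ∑ l ∈ s, b l * p l)) * u =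
          b r * ((1 - p r) * u) - ∑ l ∈ s, b l * (p l * u) := by
        have h4 : ∑ l ∈ s, b l * (p l * u) = (∑ l ∈ s, b l * p l) * u := by
          rw [Finset.sum_mul]
          exact Finset.sum_congr rfl fun l _ => (mul_assoc _ _ _).symm
        rw [h4, sub_mul, add_mul, sub_mul, one_mul, mul_sub, mul_assoc (b r)]
        abel
      rw [h3, hu, mul_one] at h2
      exact h2
    have h5 : ∀ k ∈ s, b k ∈ I := by
      apply ih
      intro k hk
      obtain ⟨q, hq1, hq2⟩ := h k (Finset.mem_insert_of_mem hk)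
      rw [Finset.sum_insert hrs] at hq2
      refine ⟨fun l => q l + p l * u * q r, fun l => ?_, ?_⟩
      · exact Submodule.add_mem _ (hq1 l)
          (mul_mem_Fil_right _ (mul_mem_Fil_right _ (hp1 l)))
      · have h6 := Submodule.add_mem _ hq2 (hr (q r) _ h1)
        have h7 : b k - (b r * q r + ∑ l ∈ s, b l * q l) +
            (b r - ∑ l ∈ s, b l * (p l * u)) * q r =
            b k - ∑ l ∈ s, b l * (q l + p l * u * q r) := by
          have h8 : ∑ l ∈ s, b l * (q l + p l * u * q r) =
              ∑ l ∈ s, b l * q l + (∑ l ∈ s, b l * (p l * u)) * q r := by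
            rw [Finset.sum_mul, ← Finset.sum_add_distrib]
            refine Finset.sum_congr rfl fun l _ => ?_
            rw [mul_add, mul_assoc (b l)]
          rw [h8, sub_mul]
          abel
        rw [h7] at h6
        exact h6
    intro k hk
    rcases Finset.mem_insert.1 hk with rfl | hk
    · have h9 : ∑ l ∈ s, b l * (p l * u) ∈ I :=
        Submodule.sum_mem _ fun l hl' => hr _ _ (h5 l hl')
      have h10 := Submodule.add_mem _ h1 h9
      rwa [sub_add_cancel] at h10
    · exact h5 k hk

private theorem nilp_words [Fintype E] (n : ℕ) :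
    ∃ (ι : Type) (_ : Fintype ι) (b : ι → Hat Q), (∀ k, b k ∈ Fil Q n) ∧
      ∀ (m : ℕ) (f : Hat Q), f ∈ Fil Q (n + m) → ∃ q : ι → Hat Q, (∀ k, q k ∈ Fil Q m) ∧
        f = ∑ k, b k * q k := by
  induction n with
  | zero =>
    refine ⟨Unit, inferInstance, fun _ => 1, fun _ => by rw [Fil_zero]; trivial, ?_⟩
    intro m f hf
    rw [zero_add] at hf
    exact ⟨fun _ => f, fun _ => hf, by simp⟩
  | succ n ih =>
    obtain ⟨ι, hι, b, hb, h⟩ := ih
    refine ⟨E × ι, inferInstance, fun k => arr Q k.1 * b k.2, fun k => ?_, ?_⟩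
    · rw [add_comm]
      exact mul_mem_Fil (arr_mem_Fil k.1) (hb k.2)
    · intro m f hf
      rw [add_right_comm] at hf
      obtain ⟨c, hc1, hc2⟩ := exists_decomp hf
      choose q hq1 hq2 using fun a => h m (c a) (hc1 a)
      refine ⟨fun k => q k.1 k.2, fun k => hq1 k.1 k.2, ?_⟩
      rw [hc2, Fintype.sum_prod_type]
      refine Finset.sum_congr rfl fun a _ => ?_
      conv_lhs => rw [hq2 a, Finset.mul_sum]
      exact Finset.sum_congr rfl fun k _ => (mul_assoc _ _ _).symm

theorem exists_Fil_le [Fintype E] (I : Submodule ℂ (Hat Q)) (hl : ∀ z f, f ∈ I → z * f ∈ I)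
    (hr : ∀ z f, f ∈ I → f * z ∈ I) (hfin : Module.Finite ℂ (Hat Q ⧸ I)) :
    ∃ K, Fil Q K ≤ I := by
  classical
  have hart : IsArtinian ℂ (Hat Q ⧸ I) := inferInstance
  obtain ⟨n, hn⟩ := monotone_stabilizes_iff_artinian.2 hart
    { toFun := fun n => OrderDual.toDual ((Fil Q n).map I.mkQ)
      monotone' := fun m n h => OrderDual.toDual_le_toDual.2 (Submodule.map_mono (Fil_anti h)) }
  have h1 : (Fil Q n).map I.mkQ = (Fil Q (n + 1)).map I.mkQ := hn (n + 1) (Nat.le_succ n)
  have h2 : Fil Q n ≤ I ⊔ Fil Q (n + 1) := by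
    rw [← Submodule.comap_map_mkQ, ← h1]
    exact Submodule.le_comap_map _ _
  obtain ⟨ι, hι, b, hb, h⟩ := nilp_words (Q := Q) n
  have h3 : ∀ k, b k ∈ I := by
    intro k
    refine nilp_nak I hr b Finset.univ ?_ k (Finset.mem_univ k)
    intro k _
    obtain ⟨i, hi, r, hr', hir⟩ := Submodule.mem_sup.1 (h2 (hb k))
    obtain ⟨q, hq1, hq2⟩ := h 1 r hr'
    refine ⟨q, hq1, ?_⟩
    rw [← hq2, ← hir, add_sub_cancel_right]
    exact hi
  refine ⟨n, fun f hf => ?_⟩
  obtain ⟨q, _, hq2⟩ := h 0 f (by rwa [add_zero])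
  rw [hq2]
  exact Submodule.sum_mem _ fun k _ => hr _ _ (h3 k)

end Pool.Agent.Flop
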