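import Pool.Agent.Lib.FlA.Def3
import Pool.Agent.Lib.FlA.Bs1
import Pool.Agent.Lib.FlA.Nilp

/-!
# Krl: topology of the algebra A of a model

`ker_Fil`: h.ker, jac_Fil (W in Fil 3). `idem_not`: π f = π(e_i): e_i - f in jac W <= Fil 2 <= Fil 1, so e_i in Fil 1, but its coefficient at the empty word is 1. `MA_mul_left`, `MA_mul_right`: Submodule.smul_induction_on. `exists_lift_smul`: r • 1 = π ρ by
surjectivity, so r • π f = π (ρ f). `fil_of_MA`: let π f = sum_k r_k • x_k (r_k in m; smul_induction_on or Submodule.mem_smul_span/ideal smul top: prove the statement P(x): for all i, there are u in m and f' in Fil 1 with π(e_i) x π(e_i) = u • π(e_i) + π f'; it is true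
for r • x with r in m: x = π g, e_i g e_i = c e_i + g', g' in Fil 1 (c = constant coefficient), so = (r c) • π(e_i) + π (ρ g'); additive). If f is not in Fil 1, some c = f.cf i i [] is <> 0 (cf_nil for i <> j), e_i f e_i = c e_i + f'', so (algebraMap c - u) • π(e_i) in π(Fil 1), and algebraMap ℂ R c - u is a unit
(c <> 0, u in m), so π(e_i) = π (element of Fil 1) (multiply by the inverse, exists_lift_smul), against idem_not. `MA_of_fil`: I := preimage of MA 1: ℂ-subspace, two-sided ideal (MA_mul_left, MA_mul_right), T/I embeds in A/(MA 1), which is finite-dimensional over ℂ: A is spanned over R by finitely many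
x_k, and r • x_k = c x_k mod MA 1 (resf). So Nilp (exists_Fil_le) gives K with π(Fil K) in MA 1. Then π(Fil (n K)) in MA n by induction: f in Fil (K + m) is a finite sum of products u v, u in Fil K, v in Fil m (iterate exists_decomp: f = sum arr a * c_a), and MA 1 * MA n <= MA (n+1).
`closed`: A/S is a finite R-module: Krull: `Ideal.iInf_pow_smul_eq_bot_of_isLocalRing` (m <> top) for A ⧸ S. `sep`: S = ⊥. `max_pow`: r • 1 = element of m^n A; multiply by π(e_o) on both sides: r • π(e_o) = sum s_k • (π(e_o) x_k π(e_o)) = (sum s_k t_k) • π(e_o) with s_k in m^n (corner),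
so (r - sum s_k t_k) • π(e_o) = 0, and π(e_o) <> 0 (idem_not with f = 0), so r = sum s_k t_k (tf).
-/

set_option autoImplicit false

namespace Pool.Agent.Flop

open Finset

variable {V E : Type} [Fintype V] [DecidableEq V] [DecidableEq E] [Fintype E] {Q : Qv V E}
variable {R A : Type} [CommRing R] [IsLocalRing R] [IsNoetherianRing R] [Algebra ℂ R] [Ring A]
  [Algebra ℂ A] [Algebra R A] [IsScalarTower ℂ R A] {o : V} {W : Hat Q} {π : Hat Q →ₐ[ℂ] A}

theorem MA_mul_left {n : ℕ} {x : A} (y : A) (h : x ∈ MA R A n) : y * x ∈ MA R A n := by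
  unfold MA at h ⊢
  refine Submodule.smul_induction_on h (fun r hr z _ => ?_) (fun a b ha hb => ?_)
  · rw [mul_smul_comm]
    exact Submodule.smul_mem_smul hr Submodule.mem_top
  · rw [mul_add]
    exact Submodule.add_mem _ ha hb

theorem MA_mul_right {n : ℕ} {x : A} (y : A) (h : x ∈ MA R A n) : x * y ∈ MA R A n := by
  unfold MA at h ⊢
  refine Submodule.smul_induction_on h (fun r hr z _ => ?_) (fun a b ha hb => ?_)
  · rw [smul_mul_assoc]
    exact Submodule.smul_mem_smul hr Submodule.mem_top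
  · rw [add_mul]
    exact Submodule.add_mem _ ha hb

theorem MA_anti {m n : ℕ} (h : m ≤ n) : MA R A n ≤ MA R A m := by
  unfold MA
  exact Submodule.smul_mono_left (Ideal.pow_le_pow_right h)

theorem Mdl.ker_Fil (h : Mdl R o W π) {f : Hat Q} (hf : π f = 0) : f ∈ Fil Q 2 :=
  jac_Fil (n := 2) h.pot ((h.ker f).1 hf)

theorem Mdl.idem_not (h : Mdl R o W π) {f : Hat Q} (hf : f ∈ Fil Q 1) (i : V) :
    π f ≠ π (idem Q i) := by
  intro heq
  have h1 : π (idem Q i - f) = 0 := by rw [map_sub, heq, sub_self]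
  have h2 : idem Q i - f ∈ Fil Q 1 := Fil_anti (by omega) (h.ker_Fil h1)
  have h3 : idem Q i ∈ Fil Q 1 := by
    have h4 := Submodule.add_mem _ h2 hf
    rwa [sub_add_cancel] at h4
  have h5 := mem_Fil.1 h3 i i [] (by simp)
  rw [cf_idem, if_pos ⟨rfl, rfl, rfl⟩] at h5
  exact one_ne_zero h5

theorem Mdl.exists_lift_smul (h : Mdl R o W π) (r : R) : ∃ ρ : Hat Q, π ρ = r • (1 : A) ∧
    ∀ f, π (ρ * f) = r • π f := by
  obtain ⟨ρ, hρ⟩ := h.surj (r • (1 : A))
  refine ⟨ρ, hρ, fun f => ?_⟩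
  rw [map_mul, hρ, smul_mul_assoc, one_mul]

omit [Fintype E] in
private theorem krl_corner (g : Hat Q) (i : V) :
    idem Q i * g * idem Q i - g.cf i i [] • idem Q i ∈ Fil Q 1 := by
  rw [mem_Fil]
  intro p q l hl
  have hl0 : l = [] := List.length_eq_zero_iff.1 (by omega)
  subst hl0
  rw [Hat.cf_sub, Hat.cf_smul, cf_mul_idem, cf_idem_mul, cf_idem]
  by_cases hq : q = i
  · by_cases hp : p = i
    · subst hq
      subst hp
      simp
    · rw [if_pos hq, if_neg hp, if_neg (fun h' => hp h'.1), mul_zero, sub_zero]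
  · rw [if_neg hq, if_neg (fun h' => hq h'.2.1), mul_zero, sub_zero]

private theorem krl_corner_pi (π : Hat Q →ₐ[ℂ] A) (g : Hat Q) (i : V) :
    ∃ g' ∈ Fil Q 1, π (idem Q i) * π g * π (idem Q i) =
      algebraMap ℂ R (g.cf i i []) • π (idem Q i) + π g' := by
  refine ⟨_, krl_corner g i, ?_⟩
  rw [map_sub, map_smul, map_mul, map_mul, algebraMap_smul]
  abel

theorem Mdl.fil_of_MA (h : Mdl R o W π) {f : Hat Q} (hf : π f ∈ MA R A 1) : f ∈ Fil Q 1 := by
  have hP : ∀ x ∈ MA R A 1, ∀ i, ∃ u ∈ IsLocalRing.maximalIdeal R, ∃ f' ∈ Fil Q 1,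
      π (idem Q i) * x * π (idem Q i) = u • π (idem Q i) + π f' := by
    intro x hx i
    unfold MA at hx
    rw [pow_one] at hx
    refine Submodule.smul_induction_on hx (fun r hr z _ => ?_) (fun a b ha hb => ?_)
    · obtain ⟨g, rfl⟩ := h.surj z
      obtain ⟨g', hg', hg⟩ := krl_corner_pi (R := R) π g i
      obtain ⟨ρ, -, hρ⟩ := h.exists_lift_smul r
      refine ⟨r * algebraMap ℂ R (g.cf i i []), Ideal.mul_mem_right _ _ hr, ρ * g',
        mul_mem_Fil_left _ hg', ?_⟩
      rw [mul_smul_comm, smul_mul_assoc, hg, hρ, smul_add, smul_smul]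
    · obtain ⟨u1, hu1, f1, hf1, e1⟩ := ha
      obtain ⟨u2, hu2, f2, hf2, e2⟩ := hb
      refine ⟨u1 + u2, Ideal.add_mem _ hu1 hu2, f1 + f2, Submodule.add_mem _ hf1 hf2, ?_⟩
      rw [mul_add, add_mul, e1, e2, add_smul, map_add]
      abel
  rw [mem_Fil]
  intro i j l hl
  have hl0 : l = [] := List.length_eq_zero_iff.1 (by omega)
  subst hl0
  by_cases hij : i = j
  swap
  · exact Hat.cf_nil f hij
  subst hij
  by_contra hc
  obtain ⟨u, hu, f1, hf1, e1⟩ := hP _ hf i
  obtain ⟨f2, hf2, e2⟩ := krl_corner_pi (R := R) π f i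
  have h3 : (algebraMap ℂ R (f.cf i i []) - u) • π (idem Q i) = π (f1 - f2) := by
    rw [sub_smul, map_sub, sub_eq_sub_iff_add_eq_add]
    rw [← e2, e1]
    abel
  have hunit : IsUnit (algebraMap ℂ R (f.cf i i []) - u) := by
    by_contra hnu
    have h4 : algebraMap ℂ R (f.cf i i []) - u ∈ IsLocalRing.maximalIdeal R :=
      (IsLocalRing.mem_maximalIdeal _).2 hnu
    have h5 := Ideal.add_mem _ h4 hu
    rw [sub_add_cancel] at h5
    exact (IsLocalRing.mem_maximalIdeal _).1 h5 ((isUnit_iff_ne_zero.2 hc).map (algebraMap ℂ R))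
  obtain ⟨v, hv⟩ := hunit
  obtain ⟨ρ, -, hρ⟩ := h.exists_lift_smul (↑v⁻¹ : R)
  apply h.idem_not (mul_mem_Fil_left ρ (Submodule.sub_mem _ hf1 hf2)) i
  rw [hρ, ← h3, ← hv, smul_smul, Units.inv_mul, one_smul]

private theorem krl_mul {n : ℕ} {x y : A} (hx : x ∈ MA R A 1) (hy : y ∈ MA R A n) :
    x * y ∈ MA R A (n + 1) := by
  unfold MA at hx
  rw [pow_one] at hx
  refine Submodule.smul_induction_on hx (fun r hr z _ => ?_) (fun a b ha hb => ?_)
  · rw [smul_mul_assoc]
    have h1 : z * y ∈ MA R A n := MA_mul_left z hy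
    have h2 : r • (z * y) ∈ IsLocalRing.maximalIdeal R • MA R A n :=
      Submodule.smul_mem_smul hr h1
    unfold MA at h2 ⊢
    rwa [← Submodule.mul_smul, ← pow_succ'] at h2
  · rw [add_mul]
    exact Submodule.add_mem _ ha hb

private theorem krl_span (K m : ℕ) : ∀ f ∈ Fil Q (K + m),
    f ∈ Submodule.span ℂ {x : Hat Q | ∃ u ∈ Fil Q K, ∃ v ∈ Fil Q m, x = u * v} := by
  induction K with
  | zero =>
    intro f hf
    rw [zero_add] at hf
    refine Submodule.subset_span ⟨1, ?_, f, hf, (one_mul f).symm⟩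
    rw [Fil_zero]
    trivial
  | succ K ih =>
    intro f hf
    have hf' : f ∈ Fil Q (K + m + 1) := by
      have e : K + m + 1 = K + 1 + m := by omega
      rw [e]
      exact hf
    obtain ⟨c, hc, rfl⟩ := exists_decomp hf'
    refine Submodule.sum_mem _ fun a _ => ?_
    have h1 := ih (c a) (hc a)
    have hle : Submodule.span ℂ {x : Hat Q | ∃ u ∈ Fil Q K, ∃ v ∈ Fil Q m, x = u * v} ≤
        (Submodule.span ℂ {x : Hat Q | ∃ u ∈ Fil Q (K + 1), ∃ v ∈ Fil Q m, x = u * v}).comap
          (LinearMap.mulLeft ℂ (arr Q a)) := by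
      rw [Submodule.span_le]
      rintro x ⟨u, hu, v, hv, rfl⟩
      rw [SetLike.mem_coe, Submodule.mem_comap, LinearMap.mulLeft_apply]
      refine Submodule.subset_span ⟨arr Q a * u, ?_, v, hv, (mul_assoc _ _ _).symm⟩
      have h2 := mul_mem_Fil (arr_mem_Fil a) hu
      rwa [add_comm 1 K] at h2
    exact hle h1

theorem Mdl.MA_of_fil (h : Mdl R o W π) (n : ℕ) : ∃ k, ∀ f ∈ Fil Q k, π f ∈ MA R A n := by
  set I : Submodule ℂ (Hat Q) :=
    ((MA R A 1).restrictScalars ℂ).comap π.toLinearMap with hI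
  have hmem : ∀ f, f ∈ I ↔ π f ∈ MA R A 1 := fun f => Iff.rfl
  have hfin : Module.Finite ℂ (Hat Q ⧸ I) := by
    have hRA := h.fin
    obtain ⟨k, s, hs⟩ := Module.Finite.exists_fin (R := R) (M := A)
    have hg : ∀ t, ∃ g, π g = s t := fun t => h.surj (s t)
    choose g hg using hg
    refine Module.Finite.of_surjective (Fintype.linearCombination ℂ fun t => I.mkQ (g t)) ?_
    intro y
    obtain ⟨f, rfl⟩ := I.mkQ_surjective y
    have h1 : π f ∈ Submodule.span R (Set.range s) := by rw [hs]; trivial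
    obtain ⟨r, hr⟩ := (Submodule.mem_span_range_iff_exists_fun R).1 h1
    have hc : ∀ t, ∃ c : ℂ, r t - algebraMap ℂ R c ∈ IsLocalRing.maximalIdeal R :=
      fun t => h.resf (r t)
    choose c hc using hc
    refine ⟨c, ?_⟩
    rw [Fintype.linearCombination_apply]
    have h2 : ∑ t, c t • I.mkQ (g t) = I.mkQ (∑ t, c t • g t) := by
      rw [map_sum]
      exact Finset.sum_congr rfl fun t _ => (map_smul _ _ _).symm
    rw [h2, ← sub_eq_zero, ← map_sub, Submodule.mkQ_apply, Submodule.Quotient.mk_eq_zero, hmem,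
      map_sub, map_sum, ← hr, ← Finset.sum_sub_distrib]
    refine Submodule.sum_mem _ fun t _ => ?_
    rw [map_smul, hg, ← algebraMap_smul R (c t) (s t), ← sub_smul]
    unfold MA
    rw [pow_one]
    refine Submodule.smul_mem_smul ?_ Submodule.mem_top
    rw [← neg_sub]
    exact neg_mem (hc t)
  obtain ⟨K, hK⟩ := exists_Fil_le I (fun z f hf => by
      rw [hmem] at hf ⊢
      rw [map_mul]
      exact MA_mul_left _ hf) (fun z f hf => by
      rw [hmem] at hf ⊢
      rw [map_mul]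
      exact MA_mul_right _ hf) hfin
  induction n with
  | zero =>
    refine ⟨0, fun f _ => ?_⟩
    unfold MA
    rw [pow_zero, Ideal.one_eq_top, Submodule.top_smul]
    trivial
  | succ n ih =>
    obtain ⟨k, hk⟩ := ih
    refine ⟨K + k, fun f hf => ?_⟩
    have h1 := krl_span K k f hf
    have hle : Submodule.span ℂ {x : Hat Q | ∃ u ∈ Fil Q K, ∃ v ∈ Fil Q k, x = u * v} ≤
        ((MA R A (n + 1)).restrictScalars ℂ).comap π.toLinearMap := by
      rw [Submodule.span_le]
      rintro x ⟨u, hu, v, hv, rfl⟩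
      change π (u * v) ∈ MA R A (n + 1)
      rw [map_mul]
      exact krl_mul ((hmem u).1 (hK hu)) (hk v hv)
    exact hle h1

theorem Mdl.closed (h : Mdl R o W π) (S : Submodule R A) {x : A}
    (hx : ∀ n, ∃ y ∈ S, x - y ∈ MA R A n) : x ∈ S := by
  have hRA := h.fin
  have hK := Ideal.iInf_pow_smul_eq_bot_of_isLocalRing (R := R) (M := A ⧸ S)
    (IsLocalRing.maximalIdeal R) (Ideal.IsPrime.ne_top inferInstance)
  have h1 : S.mkQ x ∈ (⨅ i : ℕ, IsLocalRing.maximalIdeal R ^ i • ⊤ : Submodule R (A ⧸ S)) := by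
    rw [Submodule.mem_iInf]
    intro n
    obtain ⟨y, hy, hxy⟩ := hx n
    have h2 : S.mkQ x = S.mkQ (x - y) := by
      rw [map_sub, Submodule.mkQ_apply S y, (Submodule.Quotient.mk_eq_zero S).2 hy, sub_zero]
    rw [h2]
    have h3 : S.mkQ (x - y) ∈ (MA R A n).map S.mkQ := Submodule.mem_map_of_mem hxy
    unfold MA at h3
    rw [Submodule.map_smul''] at h3
    exact Submodule.smul_mono (le_refl _) le_top h3
  rw [hK, Submodule.mem_bot, Submodule.mkQ_apply, Submodule.Quotient.mk_eq_zero] at h1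
  exact h1

theorem Mdl.sep (h : Mdl R o W π) {x : A} (hx : ∀ n, x ∈ MA R A n) : x = 0 := by
  have h1 := h.closed (⊥ : Submodule R A) (x := x) (fun n => ⟨0, Submodule.zero_mem _, by
    rw [sub_zero]
    exact hx n⟩)
  exact (Submodule.mem_bot R).1 h1

theorem Mdl.max_pow (h : Mdl R o W π) {n : ℕ} {r : R} (hr : r • (1 : A) ∈ MA R A n) :
    r ∈ IsLocalRing.maximalIdeal R ^ n := by
  have hP : ∀ x ∈ MA R A n, ∃ s ∈ IsLocalRing.maximalIdeal R ^ n,
      π (idem Q o) * x * π (idem Q o) = s • π (idem Q o) := by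
    intro x hx
    unfold MA at hx
    refine Submodule.smul_induction_on hx (fun r hr z _ => ?_) (fun a b ha hb => ?_)
    · obtain ⟨t, ht⟩ := h.corner z
      refine ⟨r * t, Ideal.mul_mem_right _ _ hr, ?_⟩
      rw [mul_smul_comm, smul_mul_assoc, ht, smul_smul]
    · obtain ⟨s1, hs1, e1⟩ := ha
      obtain ⟨s2, hs2, e2⟩ := hb
      refine ⟨s1 + s2, Ideal.add_mem _ hs1 hs2, ?_⟩
      rw [mul_add, add_mul, e1, e2, add_smul]
  obtain ⟨s, hs, e⟩ := hP _ hr
  rw [mul_smul_comm, smul_mul_assoc, mul_one, ← map_mul, idem_mul_idem, if_pos rfl] at e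
  have h1 : (r - s) • π (idem Q o) = 0 := by rw [sub_smul, e, sub_self]
  rcases h.tf _ _ h1 with h2 | h2
  · rw [sub_eq_zero.1 h2]
    exact hs
  · exact absurd (by rw [map_zero, h2]) (h.idem_not (Submodule.zero_mem (Fil Q 1)) o)

end Pool.Agent.Flop
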