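import Pool.Agent.Lib.FlA.ResI
import Pool.Agent.Lib.FlA.Krl
import Pool.Agent.Lib.FlA.Nilp
import Pool.Agent.Lib.FlA.Def5

/-!
# CtI: the contraction algebra of a flop model

`contr_iff'`: contr_iff (ResI) with π; hcl: S := {x in A | x in TwoSidedIdeal.span {e}} as an R-submodule (closed under multiplication by r • 1); x - y = π f with f in Fil n; for every k there is n with π (Fil n) in MA R A k (MA_of_fil); so x in S by Mdl.closed. `fin_del`: hfin: the quotient ring A/(e) is finite over ℂ; the ℂ-linear map T -> A -> (TwoSidedIdeal.span {e}).ringCon.Quotient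
is surjective with kernel {f | π f in span} = {f | res o f in jac (res o W)}; res o : T -> Hat (Q.del o) is surjective (exists_section) so Hat (Q.del o) / jac (res o W) is a quotient of (isomorphic to) T / {f | res o f in jac}, finite-dimensional. Then exists_Fil_le (Nilp) for Q.del o, I = jac (res o W) (jac_ml, jac_mr).
-/

set_option autoImplicit false

namespace Pool.Agent.Flop

open Finset

variable {V E : Type} [Fintype V] [DecidableEq V] [DecidableEq E] [Fintype E] {Q : Qv V E}
variable {R A : Type} [CommRing R] [IsLocalRing R] [IsNoetherianRing R] [Algebra ℂ R] [Ring A]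
  [Algebra ℂ A] [Algebra R A] [IsScalarTower ℂ R A] {o : V} {W : Hat Q} {π : Hat Q →ₐ[ℂ] A}

theorem Mdl.contr_iff (h : Mdl R o W π) (f : Hat Q) :
    π f ∈ TwoSidedIdeal.span {π (idem Q o)} ↔ res o f ∈ jac (res o W) := by
  refine Pool.Agent.Flop.contr_iff o π h.surj h.ker ?_ f
  intro x hx
  let S : Submodule R A :=
    { carrier := {x | x ∈ TwoSidedIdeal.span {π (idem Q o)}}
      add_mem' := fun {a b} ha hb =>
        (TwoSidedIdeal.span {π (idem Q o)}).add_mem ha hb
      zero_mem' := (TwoSidedIdeal.span {π (idem Q o)}).zero_mem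
      smul_mem' := fun r x hx => by
        have h1 : r • x = (r • (1 : A)) * x := by rw [smul_mul_assoc, one_mul]
        rw [h1]
        exact (TwoSidedIdeal.span {π (idem Q o)}).mul_mem_left _ _ hx }
  have h1 : x ∈ S := h.closed S fun n => by
    obtain ⟨k, hk⟩ := h.MA_of_fil n
    obtain ⟨y, hy, g, hg, he⟩ := hx k
    exact ⟨y, hy, by rw [he]; exact hk g hg⟩
  exact h1

theorem Mdl.fin_del (h : Mdl R o W π)
    (hfin : Module.Finite ℂ (TwoSidedIdeal.span {π (idem Q o)}).ringCon.Quotient) :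
    ∃ K, Fil (Q.del o) K ≤ jac (res o W) := by
  obtain ⟨ι, hι, _⟩ := exists_section (Q := Q) o
  let φ : A →ₗ[ℂ] (TwoSidedIdeal.span {π (idem Q o)}).ringCon.Quotient :=
    { toFun := fun a => ((a : A) : (TwoSidedIdeal.span {π (idem Q o)}).ringCon.Quotient)
      map_add' := fun _ _ => rfl
      map_smul' := fun _ _ => rfl }
  have hφ : ∀ a : A, φ a = 0 ↔ a ∈ TwoSidedIdeal.span {π (idem Q o)} := by
    intro a
    rw [TwoSidedIdeal.mem_iff]
    exact RingCon.eq _
  have hL : ∀ g, (φ ∘ₗ π.toLinearMap ∘ₗ ι) g = 0 ↔ g ∈ jac (res o W) := by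
    intro g
    rw [LinearMap.comp_apply, LinearMap.comp_apply, hφ]
    have h1 := h.contr_iff (ι g)
    rw [hι] at h1
    exact h1
  have hker : LinearMap.ker (φ ∘ₗ π.toLinearMap ∘ₗ ι) ≤ jac (res o W) := fun g hg => (hL g).1 hg
  have hle : jac (res o W) ≤ LinearMap.ker (φ ∘ₗ π.toLinearMap ∘ₗ ι) := fun g hg => (hL g).2 hg
  have hinj : Function.Injective ((jac (res o W)).liftQ (φ ∘ₗ π.toLinearMap ∘ₗ ι) hle) :=
    LinearMap.ker_eq_bot.1 (Submodule.ker_liftQ_eq_bot _ _ _ hker)
  have hf : Module.Finite ℂ (Hat (Q.del o) ⧸ jac (res o W)) := Module.Finite.of_injective _ hinj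
  exact exists_Fil_le (jac (res o W)) (fun z f hf => jac_ml z hf) (fun z f hf => jac_mr z hf) hf

end Pool.Agent.Flop
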