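import Pool.Agent.Lib.FlA.Lc4
import Pool.Agent.Lib.FlA.CtI

/-!
# Anh: consequences of matrix factorizations

For a matrix factorization `(φ, ψ)` of `g` presenting `N`, the identity
`(∂φ) ψ + φ (∂ψ) = (∂g) 1` shows that multiplication by `∂g` on `N` factors through a free module.
So the contraction algebra is finite-dimensional. The module `N` embeds in a free module, so it is
torsion-free.
-/

set_option autoImplicit false

namespace Pool.Agent.Flop

open Finset MvPowerSeries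

variable {R : Type} [CommRing R] [IsLocalRing R] [IsNoetherianRing R] [Algebra ℂ R]
  {g : MvPowerSeries (Fin 4) ℂ} {θ : MvPowerSeries (Fin 4) ℂ →ₐ[ℂ] R}

omit [IsLocalRing R] [IsNoetherianRing R] in
private theorem anh_map_mul {l m n : ℕ}
    (d : Derivation ℂ (MvPowerSeries (Fin 4) ℂ) (MvPowerSeries (Fin 4) ℂ))
    (A : Matrix (Fin l) (Fin m) (MvPowerSeries (Fin 4) ℂ))
    (B : Matrix (Fin m) (Fin n) (MvPowerSeries (Fin 4) ℂ)) :
    (A * B).map d = A.map d * B + A * B.map d := by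
  ext1 i j
  rw [Matrix.map_apply, Matrix.mul_apply, Matrix.add_apply, Matrix.mul_apply, Matrix.mul_apply,
    map_sum, ← Finset.sum_add_distrib]
  refine Finset.sum_congr rfl fun k _ => ?_
  rw [Derivation.leibniz, Matrix.map_apply, Matrix.map_apply, smul_eq_mul, smul_eq_mul]
  ring

private theorem anh_map_one {l : ℕ}
    (d : Derivation ℂ (MvPowerSeries (Fin 4) ℂ) (MvPowerSeries (Fin 4) ℂ))
    (g : MvPowerSeries (Fin 4) ℂ) :
    (g • (1 : Matrix (Fin l) (Fin l) (MvPowerSeries (Fin 4) ℂ))).map d =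
      d g • (1 : Matrix (Fin l) (Fin l) (MvPowerSeries (Fin 4) ℂ)) := by
  ext1 i j
  rw [Matrix.map_apply, Matrix.smul_apply, Matrix.smul_apply, smul_eq_mul, smul_eq_mul]
  by_cases h : i = j
  · rw [h, Matrix.one_apply_eq, mul_one, mul_one]
  · rw [Matrix.one_apply_ne h, mul_zero, mul_zero, map_zero]

theorem exists_factor_of_fact (hp : Prs g θ) {N : Type} [AddCommGroup N] [Module R N] {a b : ℕ}
    {n : Fin a → N} {φ : Matrix (Fin a) (Fin b) (MvPowerSeries (Fin 4) ℂ)}
    {ψ : Matrix (Fin b) (Fin a) (MvPowerSeries (Fin 4) ℂ)}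
    (h1 : ∀ x : N, ∃ u : Fin a → MvPowerSeries (Fin 4) ℂ, x = ∑ k, θ (u k) • n k)
    (h2 : ∀ u : Fin a → MvPowerSeries (Fin 4) ℂ,
      ∑ k, θ (u k) • n k = 0 ↔ ∃ v, u = φ.mulVec v)
    (h3 : φ * ψ = g • (1 : Matrix (Fin a) (Fin a) (MvPowerSeries (Fin 4) ℂ)))
    (h4 : ψ * φ = g • (1 : Matrix (Fin b) (Fin b) (MvPowerSeries (Fin 4) ℂ))) (i : Fin 4) :
    ∃ (α : Fin b → (N →ₗ[R] R)) (β : Fin b → N),
      ∀ x : N, θ (pderiv ℂ i g) • x = ∑ l, α l x • β l := by
  classical
  obtain ⟨pi, hpi⟩ : ∃ pi : (Fin a → MvPowerSeries (Fin 4) ℂ) → N,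
      ∀ u, pi u = ∑ k, θ (u k) • n k := ⟨_, fun u => rfl⟩
  have pi_add : ∀ u v, pi (u + v) = pi u + pi v := by
    intro u v
    rw [hpi, hpi, hpi, ← Finset.sum_add_distrib]
    refine Finset.sum_congr rfl fun k _ => ?_
    rw [Pi.add_apply, map_add, add_smul]
  have pi_smul : ∀ p u, pi (p • u) = θ p • pi u := by
    intro p u
    rw [hpi, hpi, Finset.smul_sum]
    refine Finset.sum_congr rfl fun k _ => ?_
    rw [Pi.smul_apply, smul_eq_mul, map_mul, mul_smul]
  have pi_sub : ∀ u v, pi (u - v) = pi u - pi v := by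
    intro u v
    rw [hpi, hpi, hpi, ← Finset.sum_sub_distrib]
    refine Finset.sum_congr rfl fun k _ => ?_
    rw [Pi.sub_apply, map_sub, sub_smul]
  choose s hs using h1
  have hs' : ∀ x, pi (s x) = x := fun x => by rw [hpi]; exact (hs x).symm
  -- the coordinates of the map to the free module
  have hA : ∀ u l, pi u = 0 → θ (ψ.mulVec u l) = 0 := by
    intro u l hu
    rw [hpi] at hu
    obtain ⟨v, rfl⟩ := (h2 u).1 hu
    rw [Matrix.mulVec_mulVec, h4, Matrix.smul_mulVec, Matrix.one_mulVec, Pi.smul_apply,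
      smul_eq_mul, map_mul, (hp.ker g).2 dvd_rfl, zero_mul]
  have hA' : ∀ u l, θ (ψ.mulVec (s (pi u)) l) = θ (ψ.mulVec u l) := by
    intro u l
    have h5 := hA (s (pi u) - u) l (by rw [pi_sub, hs', sub_self])
    rw [Matrix.mulVec_sub, Pi.sub_apply, map_sub, sub_eq_zero] at h5
    exact h5
  let α : Fin b → (N →ₗ[R] R) := fun l =>
    { toFun := fun x => θ (ψ.mulVec (s x) l)
      map_add' := by
        intro x y
        have h5 := hA' (s x + s y) l
        rw [pi_add, hs', hs', Matrix.mulVec_add, Pi.add_apply, map_add] at h5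
        exact h5
      map_smul' := by
        intro r x
        obtain ⟨p, rfl⟩ := hp.surj r
        have h5 := hA' (p • s x) l
        rw [pi_smul, hs', Matrix.mulVec_smul, Pi.smul_apply, smul_eq_mul, map_mul] at h5
        rw [RingHom.id_apply, smul_eq_mul]
        exact h5 }
  refine ⟨α, fun l => pi fun k => pderiv ℂ i (φ k l), fun x => ?_⟩
  have e1 : φ.map (pderiv ℂ i) * ψ + φ * ψ.map (pderiv ℂ i) =
      pderiv ℂ i g • (1 : Matrix (Fin a) (Fin a) _) := by
    rw [← anh_map_mul, h3, anh_map_one]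
  have e2 : ∑ l, α l x • pi (fun k => pderiv ℂ i (φ k l)) =
      pi ((φ.map (pderiv ℂ i) * ψ).mulVec (s x)) := by
    rw [hpi, ← Matrix.mulVec_mulVec]
    have e3 : ∀ l, α l x • pi (fun k => pderiv ℂ i (φ k l)) =
        ∑ k, (θ (pderiv ℂ i (φ k l)) * θ (ψ.mulVec (s x) l)) • n k := by
      intro l
      change θ (ψ.mulVec (s x) l) • pi (fun k => pderiv ℂ i (φ k l)) = _
      rw [hpi, Finset.smul_sum]
      refine Finset.sum_congr rfl fun k _ => ?_
      rw [smul_smul, mul_comm]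
    simp only [e3]
    rw [Finset.sum_comm]
    refine Finset.sum_congr rfl fun k _ => ?_
    rw [← Finset.sum_smul]
    congr 1
    rw [Matrix.mulVec, dotProduct, map_sum]
    refine Finset.sum_congr rfl fun l _ => ?_
    rw [Matrix.map_apply, map_mul]
  have e4 : pi ((φ * ψ.map (pderiv ℂ i)).mulVec (s x)) = 0 := by
    rw [hpi]
    refine (h2 _).2 ⟨(ψ.map (pderiv ℂ i)).mulVec (s x), ?_⟩
    rw [Matrix.mulVec_mulVec]
  rw [e2, ← add_zero (pi _), ← e4, ← pi_add, ← Matrix.add_mulVec, e1, Matrix.smul_mulVec,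
    Matrix.one_mulVec, pi_smul, hs']

/-- Modules with a matrix factorization over a domain are torsion-free. -/
theorem tf_of_fact [IsDomain R] (hp : Prs g θ) {N : Type} [AddCommGroup N] [Module R N] {a b : ℕ}
    {n : Fin a → N} {φ : Matrix (Fin a) (Fin b) (MvPowerSeries (Fin 4) ℂ)}
    {ψ : Matrix (Fin b) (Fin a) (MvPowerSeries (Fin 4) ℂ)}
    (h1 : ∀ x : N, ∃ u : Fin a → MvPowerSeries (Fin 4) ℂ, x = ∑ k, θ (u k) • n k)
    (h2 : ∀ u : Fin a → MvPowerSeries (Fin 4) ℂ,
      ∑ k, θ (u k) • n k = 0 ↔ ∃ v, u = φ.mulVec v)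
    (h3 : φ * ψ = g • (1 : Matrix (Fin a) (Fin a) (MvPowerSeries (Fin 4) ℂ)))
    (h4 : ψ * φ = g • (1 : Matrix (Fin b) (Fin b) (MvPowerSeries (Fin 4) ℂ))) (r : R) (x : N)
    (h : r • x = 0) : r = 0 ∨ x = 0 := by
  by_cases hr : r = 0
  · exact Or.inl hr
  refine Or.inr ?_
  obtain ⟨p, rfl⟩ := hp.surj r
  obtain ⟨u, rfl⟩ := h1 x
  have h5 : ∑ k, θ ((p • u) k) • n k = 0 := by
    rw [← h, Finset.smul_sum]
    refine Finset.sum_congr rfl fun k _ => ?_
    rw [Pi.smul_apply, smul_eq_mul, map_mul, mul_smul]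
  obtain ⟨v, hv⟩ := (h2 _).1 h5
  have h6 : p • ψ.mulVec u = g • v := by
    rw [← Matrix.mulVec_smul, hv, Matrix.mulVec_mulVec, h4, Matrix.smul_mulVec,
      Matrix.one_mulVec]
  have h7 : ∀ l, g ∣ ψ.mulVec u l := by
    intro l
    rw [← hp.ker]
    have h8 := congrArg θ (congrFun h6 l)
    rw [Pi.smul_apply, Pi.smul_apply, smul_eq_mul, smul_eq_mul, map_mul, map_mul,
      (hp.ker g).2 dvd_rfl, zero_mul] at h8
    exact (mul_eq_zero.1 h8).resolve_left hr
  choose v' hv' using h7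
  have h8 : ψ.mulVec u = g • v' := funext hv'
  have hg0 : g ≠ 0 := by
    intro h0
    obtain ⟨K, hK⟩ := hp.iso
    rw [h0] at hK
    have hle : Ideal.span (insert (0 : MvPowerSeries (Fin 4) ℂ)
        (Set.range fun i => pderiv ℂ i (0 : MvPowerSeries (Fin 4) ℂ))) ≤ ⊥ := by
      rw [Ideal.span_le]
      rintro x (rfl | ⟨i, rfl⟩)
      · exact Ideal.zero_mem _
      · change pderiv ℂ i (0 : MvPowerSeries (Fin 4) ℂ) ∈ (⊥ : Ideal _)
        rw [map_zero]
        exact Ideal.zero_mem _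
    have hX : (X 0 : MvPowerSeries (Fin 4) ℂ) ^ K ∈ Od 4 K := by
      intro d hd
      rw [coeff_X_pow, if_neg]
      rintro rfl
      simp at hd
    have hX0 := (Ideal.mem_bot).1 (hle (hK hX))
    have h9 := congrArg (coeff (Finsupp.single (0 : Fin 4) K)) hX0
    rw [coeff_X_pow, if_pos rfl, map_zero] at h9
    exact one_ne_zero h9
  have h9 : u = φ.mulVec v' := by
    have h10 : g • u = g • φ.mulVec v' := by
      rw [← Matrix.mulVec_smul, ← h8, Matrix.mulVec_mulVec, h3, Matrix.smul_mulVec,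
        Matrix.one_mulVec]
    funext k
    have h11 := congrFun h10 k
    rw [Pi.smul_apply, Pi.smul_apply, smul_eq_mul, smul_eq_mul] at h11
    exact mul_left_cancel₀ hg0 h11
  exact (h2 u).2 ⟨v', h9⟩

variable {V : Type} [Fintype V] [DecidableEq V] (N : V → Type) [∀ i, AddCommGroup (N i)]
  [∀ i, Module R (N i)] [∀ i, Module.Finite R (N i)]

/-- A power of the maximal ideal is in the ideal of the trivial summand. -/
theorem exists_pow_smul_mem (hp : Prs g θ)
    (hX : KEx (fun i : Fin 4 => (X i : MvPowerSeries (Fin 4) ℂ)) (MvPowerSeries (Fin 4) ℂ) 1)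
    {o : V} (e : N o ≃ₗ[R] R)
    (hd : ∃ f₁ f₂ f₃ : R, ¬ IsUnit f₁ ∧ ¬ IsUnit f₂ ∧ ¬ IsUnit f₃ ∧
      RingTheory.Sequence.IsWeaklyRegular (Module.End R (∀ i, N i)) [f₁, f₂, f₃]) :
    ∃ K, ∀ r ∈ IsLocalRing.maximalIdeal R ^ K,
      r • (1 : Module.End R (∀ i, N i)) ∈ TwoSidedIdeal.span {prj R N o} := by
  let I : Ideal R :=
    { carrier := {r | r • (1 : Module.End R (∀ i, N i)) ∈ TwoSidedIdeal.span {prj R N o}}
      add_mem' := by
        intro r s hr hs
        rw [Set.mem_ofPred_eq, add_smul]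
        exact TwoSidedIdeal.add_mem _ hr hs
      zero_mem' := by
        rw [Set.mem_ofPred_eq, zero_smul]
        exact TwoSidedIdeal.zero_mem _
      smul_mem' := by
        intro c r hr
        rw [Set.mem_ofPred_eq, smul_eq_mul, mul_smul]
        have h1 : c • (r • (1 : Module.End R (∀ i, N i))) =
            (c • (1 : Module.End R (∀ i, N i))) * (r • (1 : Module.End R (∀ i, N i))) := by
          rw [smul_mul_assoc, one_mul]
        rw [h1]
        exact TwoSidedIdeal.mul_mem_left _ _ _ hr }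
  obtain ⟨K, hK⟩ := hp.iso_R
  refine ⟨K, fun r hr => ?_⟩
  have hI : Ideal.span (Set.range fun i => θ (pderiv ℂ i g)) ≤ I := by
    rw [Ideal.span_le]
    rintro _ ⟨j, rfl⟩
    change θ (pderiv ℂ j g) • (1 : Module.End R (∀ i, N i)) ∈ TwoSidedIdeal.span {prj R N o}
    have hsum : θ (pderiv ℂ j g) • (1 : Module.End R (∀ i, N i)) =
        ∑ i, θ (pderiv ℂ j g) • prj R N i := by
      rw [← Finset.smul_sum]
      congr 1
      refine LinearMap.ext fun v => ?_
      rw [LinearMap.sum_apply]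
      funext k
      rw [Finset.sum_apply, Finset.sum_eq_single k]
      · change v k = (Pi.single k (v k) : ∀ j, N j) k
        rw [Pi.single_eq_same]
      · intro i _ hi
        change (Pi.single i (v i) : ∀ j, N j) k = 0
        rw [Pi.single_eq_of_ne (Ne.symm hi)]
      · exact fun h' => absurd (Finset.mem_univ k) h'
    rw [hsum]
    refine TwoSidedIdeal.finsetSum_mem _ _ _ fun i _ => ?_
    obtain ⟨a, b, n, φ, ψ, h1, h2, h3, h4⟩ := exists_fact_of_depth N hp hX e hd i
    obtain ⟨α, β, hαβ⟩ := exists_factor_of_fact hp h1 h2 h3 h4 j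
    have h5 : θ (pderiv ℂ j g) • prj R N i = ∑ l,
        ((LinearMap.single R (fun i => N i) i ∘ₗ LinearMap.toSpanSingleton R (N i) (β l) ∘ₗ
          e.toLinearMap ∘ₗ LinearMap.proj o) * prj R N o *
          (LinearMap.single R (fun i => N i) o ∘ₗ e.symm.toLinearMap ∘ₗ α l ∘ₗ
            LinearMap.proj i)) := by
      refine LinearMap.ext fun v => ?_
      rw [LinearMap.sum_apply]
      funext k
      rw [Finset.sum_apply]
      change (θ (pderiv ℂ j g) • (Pi.single i (v i) : ∀ j, N j)) k =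
        ∑ l, (Pi.single i (e ((Pi.single o ((Pi.single o (e.symm (α l (v i))) : ∀ j, N j) o) :
          ∀ j, N j) o) • β l) : ∀ j, N j) k
      simp only [Pi.single_eq_same, LinearEquiv.apply_symm_apply]
      rw [← Pi.single_smul, hαβ]
      by_cases hk : k = i
      · subst hk
        rw [Pi.single_eq_same]
        exact Finset.sum_congr rfl fun l _ => by rw [Pi.single_eq_same]
      · rw [Pi.single_eq_of_ne hk]
        exact (Finset.sum_eq_zero fun l _ => by rw [Pi.single_eq_of_ne hk]).symm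
    rw [h5]
    refine TwoSidedIdeal.finsetSum_mem _ _ _ fun l _ => ?_
    exact TwoSidedIdeal.mul_mem_right _ _ _ (TwoSidedIdeal.mul_mem_left _ _ _
      (TwoSidedIdeal.subset_span (Set.mem_singleton _)))
  exact hI (hK hr)

variable {E : Type} [DecidableEq E] [Fintype E] {Q : Qv V E} {A : Type} [Ring A]
  [Algebra ℂ A] [Algebra R A] [IsScalarTower ℂ R A] {o : V} {W : Hat Q} {π : Hat Q →ₐ[ℂ] A}

/-- The Jacobi algebra of the restricted potential is finite-dimensional. -/
theorem Mdl.fin_del_of_pow (h : Mdl R o W π) {L : ℕ}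
    (hL : ∀ r ∈ IsLocalRing.maximalIdeal R ^ L,
      r • (1 : A) ∈ TwoSidedIdeal.span {π (idem Q o)}) :
    ∃ K, Fil (Q.del o) K ≤ jac (res o W) := by
  obtain ⟨K, hK⟩ := h.MA_of_fil L
  obtain ⟨ι, hι, hF, _⟩ := exists_section (Q := Q) o
  refine ⟨K, fun f hf => ?_⟩
  have h1 := hK _ (hF K f hf)
  have h2 : π (ι f) ∈ TwoSidedIdeal.span {π (idem Q o)} := by
    unfold MA at h1
    refine Submodule.smul_induction_on h1 (fun r hr x _ => ?_) fun x y hx hy =>
      TwoSidedIdeal.add_mem _ hx hy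
    have h3 : r • x = (r • (1 : A)) * x := by rw [smul_mul_assoc, one_mul]
    rw [h3]
    exact TwoSidedIdeal.mul_mem_right _ _ _ (hL r hr)
  have h3 := (h.contr_iff (ι f)).1 h2
  rwa [hι] at h3

end Pool.Agent.Flop
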