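import Pool.Agent.Lib.FlA.OdB

/-!
# CMil3: the trace identity

The trace of the derivative of `M p` is the sum of the traces of `M (∂_i p)` times the derivative of
`M (X i)`, for a continuous matrix representation `M` of a power series ring over `ℂ[[t]]`.
-/

set_option autoImplicit false

namespace Pool.Agent.Flop

open Finset MvPowerSeries

private theorem cMil3_sum_X_mul {n : ℕ} (p : MvPowerSeries (Fin n) ℂ) :
    ∃ q : Fin n → MvPowerSeries (Fin n) ℂ,
      p = MvPowerSeries.C (constantCoeff p) + ∑ i, X i * q i := by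
  have h : p - MvPowerSeries.C (constantCoeff p) ∈
      Ideal.span (Set.range fun i : Fin n => (X i : MvPowerSeries (Fin n) ℂ)) := by
    rw [span_X, mem_Od_one, map_sub, constantCoeff_C, sub_self]
  obtain ⟨c, hc⟩ := Ideal.mem_span_range_iff_exists_fun.1 h
  refine ⟨c, ?_⟩
  rw [← sub_eq_iff_eq_add', ← hc]
  exact Finset.sum_congr rfl fun i _ => mul_comm _ _

/-- Entrywise derivative. -/
private noncomputable def cMil3D {r : ℕ} (A : Matrix (Fin r) (Fin r) (PowerSeries ℂ)) :
    Matrix (Fin r) (Fin r) (PowerSeries ℂ) :=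
  A.map (PowerSeries.derivative ℂ)

private theorem cMil3D_add {r : ℕ} (A B : Matrix (Fin r) (Fin r) (PowerSeries ℂ)) :
    cMil3D (A + B) = cMil3D A + cMil3D B := by
  ext1 i j
  change PowerSeries.derivative ℂ (A i j + B i j) = _
  rw [map_add]
  rfl

private theorem cMil3D_mul {r : ℕ} (A B : Matrix (Fin r) (Fin r) (PowerSeries ℂ)) :
    cMil3D (A * B) = cMil3D A * B + A * cMil3D B := by
  ext1 i j
  rw [Matrix.add_apply, Matrix.mul_apply, Matrix.mul_apply, ← Finset.sum_add_distrib]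
  change PowerSeries.derivative ℂ ((A * B) i j) = _
  rw [Matrix.mul_apply, map_sum]
  refine Finset.sum_congr rfl fun k _ => ?_
  rw [Derivation.leibniz, smul_eq_mul, smul_eq_mul]
  change A i k * PowerSeries.derivative ℂ (B k j) + B k j * PowerSeries.derivative ℂ (A i k) =
    PowerSeries.derivative ℂ (A i k) * B k j + A i k * PowerSeries.derivative ℂ (B k j)
  ring

private theorem cMil3D_C {r : ℕ} (z : ℂ) :
    cMil3D ((PowerSeries.C z : PowerSeries ℂ) • (1 : Matrix (Fin r) (Fin r) (PowerSeries ℂ))) =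
      0 := by
  ext1 i j
  change PowerSeries.derivative ℂ ((PowerSeries.C z : PowerSeries ℂ) *
    (1 : Matrix (Fin r) (Fin r) (PowerSeries ℂ)) i j) = 0
  have hz : PowerSeries.derivative ℂ (PowerSeries.C z : PowerSeries ℂ) = 0 :=
    (PowerSeries.derivative ℂ).map_algebraMap z
  rw [Matrix.one_apply]
  split_ifs
  · rw [mul_one, hz]
  · rw [mul_zero, map_zero]

/-- The difference of both sides of the trace identity. -/
private noncomputable def cMil3F {n r : ℕ}
    (M : MvPowerSeries (Fin n) ℂ →+* Matrix (Fin r) (Fin r) (PowerSeries ℂ))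
    (c p : MvPowerSeries (Fin n) ℂ) : PowerSeries ℂ :=
  (M c * cMil3D (M p)).trace - ∑ i, (M (c * pderiv ℂ i p) * cMil3D (M (X i))).trace

section

variable {n r : ℕ} (M : MvPowerSeries (Fin n) ℂ →+* Matrix (Fin r) (Fin r) (PowerSeries ℂ))

private theorem cMil3F_add (c p q : MvPowerSeries (Fin n) ℂ) :
    cMil3F M c (p + q) = cMil3F M c p + cMil3F M c q := by
  unfold cMil3F
  have h1 : ∀ i, (M (c * pderiv ℂ i (p + q)) * cMil3D (M (X i))).trace =
      (M (c * pderiv ℂ i p) * cMil3D (M (X i))).trace +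
        (M (c * pderiv ℂ i q) * cMil3D (M (X i))).trace := by
    intro i
    rw [map_add (pderiv ℂ i), mul_add, map_add M, add_mul, Matrix.trace_add]
  rw [Finset.sum_congr rfl fun i _ => h1 i, Finset.sum_add_distrib, map_add M p q, cMil3D_add,
    mul_add, Matrix.trace_add]
  ring

private theorem cMil3F_mul (c p q : MvPowerSeries (Fin n) ℂ) :
    cMil3F M c (p * q) = cMil3F M (q * c) p + cMil3F M (c * p) q := by
  unfold cMil3F
  have h1 : ∀ i, (M (c * pderiv ℂ i (p * q)) * cMil3D (M (X i))).trace =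
      (M (q * c * pderiv ℂ i p) * cMil3D (M (X i))).trace +
        (M (c * p * pderiv ℂ i q) * cMil3D (M (X i))).trace := by
    intro i
    rw [← Matrix.trace_add, ← add_mul, ← map_add M, Derivation.leibniz, smul_eq_mul, smul_eq_mul]
    congr 3
    ring
  have h2 : (M c * cMil3D (M (p * q))).trace =
      (M (q * c) * cMil3D (M p)).trace + (M (c * p) * cMil3D (M q)).trace := by
    rw [map_mul M p q, cMil3D_mul, mul_add, Matrix.trace_add, ← mul_assoc, ← mul_assoc,
      Matrix.trace_mul_comm (M c * cMil3D (M p)) (M q), ← mul_assoc, ← map_mul, ← map_mul]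
  rw [Finset.sum_congr rfl fun i _ => h1 i, Finset.sum_add_distrib, h2]
  ring

private theorem cMil3F_C
    (hC : ∀ z : ℂ, M (MvPowerSeries.C z) = (PowerSeries.C z : PowerSeries ℂ) • 1)
    (c : MvPowerSeries (Fin n) ℂ) (z : ℂ) : cMil3F M c (MvPowerSeries.C z) = 0 := by
  unfold cMil3F
  have h1 : ∀ i, pderiv ℂ i (MvPowerSeries.C z : MvPowerSeries (Fin n) ℂ) = 0 :=
    fun i => (pderiv ℂ i).map_algebraMap z
  rw [hC, cMil3D_C, mul_zero, Matrix.trace_zero, zero_sub, neg_eq_zero]
  refine Finset.sum_eq_zero fun i _ => ?_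
  rw [h1, mul_zero, map_zero, zero_mul, Matrix.trace_zero]

private theorem cMil3F_X (c : MvPowerSeries (Fin n) ℂ) (j : Fin n) : cMil3F M c (X j) = 0 := by
  unfold cMil3F
  rw [Finset.sum_eq_single j, sub_eq_zero]
  · have h1 : pderiv ℂ j (X j : MvPowerSeries (Fin n) ℂ) = 1 := by
      rw [pderiv_X_self]
    rw [h1, mul_one]
  · intro i _ hi
    have h1 : pderiv ℂ i (X j : MvPowerSeries (Fin n) ℂ) = 0 := by
      rw [pderiv_X_of_ne (Ne.symm hi)]
    rw [h1, mul_zero, map_zero, zero_mul, Matrix.trace_zero]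
  · intro h
    exact absurd (Finset.mem_univ j) h

private theorem cMil3F_sum {ι : Type} (s : Finset ι) (c : MvPowerSeries (Fin n) ℂ)
    (f : ι → MvPowerSeries (Fin n) ℂ) : cMil3F M c (∑ i ∈ s, f i) = ∑ i ∈ s, cMil3F M c (f i) := by
  classical
  induction s using Finset.induction_on with
  | empty =>
    rw [Finset.sum_empty, Finset.sum_empty]
    have h := cMil3F_add M c 0 0
    rw [add_zero] at h
    exact left_eq_add.1 h
  | insert a s ha ih => rw [Finset.sum_insert ha, Finset.sum_insert ha, cMil3F_add, ih]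

private theorem cMil3_split
    (hC : ∀ z : ℂ, M (MvPowerSeries.C z) = (PowerSeries.C z : PowerSeries ℂ) • 1) (N : ℕ)
    (p : MvPowerSeries (Fin n) ℂ) :
    ∃ s t : MvPowerSeries (Fin n) ℂ, p = s + t ∧ (∀ c, cMil3F M c s = 0) ∧ t ∈ Od n N := by
  induction N generalizing p with
  | zero =>
    refine ⟨0, p, (zero_add p).symm, fun c => ?_, ?_⟩
    · have h := cMil3F_C M hC c 0
      rwa [map_zero] at h
    · rw [Od_zero]
      exact Submodule.mem_top
  | succ N ih =>
    obtain ⟨q, hq⟩ := cMil3_sum_X_mul p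
    choose s t h1 h2 h3 using fun i => ih (q i)
    refine ⟨MvPowerSeries.C (constantCoeff p) + ∑ i, X i * s i, ∑ i, X i * t i, ?_,
      fun c => ?_, ?_⟩
    · conv_lhs => rw [hq]
      rw [add_assoc, ← Finset.sum_add_distrib]
      congr 1
      refine Finset.sum_congr rfl fun i _ => ?_
      rw [← mul_add, ← h1]
    · rw [cMil3F_add, cMil3F_C M hC, zero_add, cMil3F_sum]
      refine Finset.sum_eq_zero fun i _ => ?_
      rw [cMil3F_mul, cMil3F_X, h2, add_zero]
    · refine Ideal.sum_mem _ fun i _ => ?_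
      rw [add_comm N 1]
      refine Od_mul ?_ (h3 i)
      rw [mem_Od_one]
      exact constantCoeff_X i

private theorem cMil3_dvd_der {k : ℕ} {f : PowerSeries ℂ}
    (h : (PowerSeries.X : PowerSeries ℂ) ^ (k + 1) ∣ f) :
    (PowerSeries.X : PowerSeries ℂ) ^ k ∣ PowerSeries.derivative ℂ f := by
  obtain ⟨g, rfl⟩ := h
  rw [Derivation.leibniz, Derivation.leibniz_pow, smul_eq_mul, smul_eq_mul, Nat.add_sub_cancel]
  refine dvd_add ?_ ?_
  · exact Dvd.dvd.mul_right (pow_dvd_pow _ (Nat.le_succ k)) _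
  · refine Dvd.dvd.mul_left ?_ _
    rw [nsmul_eq_mul, smul_eq_mul]
    exact Dvd.dvd.mul_left (Dvd.intro _ rfl) _

private theorem cMil3_cont
    (hM : ∀ k : ℕ, ∃ L : ℕ, ∀ p ∈ Od n L, ∀ i j, (PowerSeries.X : PowerSeries ℂ) ^ k ∣ M p i j)
    (k : ℕ) : ∃ L : ℕ, ∀ t ∈ Od n L, (PowerSeries.X : PowerSeries ℂ) ^ k ∣ cMil3F M 1 t := by
  obtain ⟨L, hL⟩ := hM (k + 1)
  obtain ⟨L', hL'⟩ := hM k
  refine ⟨max L (L' + 1), fun t ht => ?_⟩
  unfold cMil3F
  refine dvd_sub ?_ (Finset.dvd_sum fun i _ => ?_)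
  · rw [map_one, one_mul]
    refine Finset.dvd_sum fun j _ => ?_
    exact cMil3_dvd_der (hL t (Od_anti (le_max_left _ _) ht) j j)
  · rw [one_mul]
    refine Finset.dvd_sum fun j _ => ?_
    change _ ∣ (M (pderiv ℂ i t) * cMil3D (M (X i))) j j
    rw [Matrix.mul_apply]
    refine Finset.dvd_sum fun l _ => ?_
    exact Dvd.dvd.mul_right (hL' _ (pderiv_Od (Od_anti (le_max_right _ _) ht) i) j l) _

end

theorem trace_identity {n r : ℕ}
    (M : MvPowerSeries (Fin n) ℂ →+* Matrix (Fin r) (Fin r) (PowerSeries ℂ))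
    (hC : ∀ z : ℂ, M (MvPowerSeries.C z) = (PowerSeries.C z : PowerSeries ℂ) • 1)
    (hM : ∀ k : ℕ, ∃ L : ℕ, ∀ p ∈ Od n L, ∀ i j, (PowerSeries.X : PowerSeries ℂ) ^ k ∣ M p i j)
    (p : MvPowerSeries (Fin n) ℂ) :
    ((M p).map (PowerSeries.derivative ℂ)).trace =
      ∑ i, (M (pderiv ℂ i p) * (M (X i)).map (PowerSeries.derivative ℂ)).trace := by
  have h0 : cMil3F M 1 p = 0 := by
    ext k
    rw [map_zero]
    obtain ⟨L, hL⟩ := cMil3_cont M hM (k + 1)
    obtain ⟨s, t, h1, h2, h3⟩ := cMil3_split M hC L p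
    have h4 := hL t h3
    have h5 : cMil3F M 1 p = cMil3F M 1 t := by
      rw [h1, cMil3F_add, h2, zero_add]
    rw [← h5] at h4
    exact PowerSeries.X_pow_dvd_iff.1 h4 k (Nat.lt_succ_self k)
  unfold cMil3F at h0
  rw [sub_eq_zero, map_one, one_mul] at h0
  refine Eq.trans h0 ?_
  refine Finset.sum_congr rfl fun i _ => ?_
  rw [one_mul]
  rfl

end Pool.Agent.Flop
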