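import Pool.Agent.Lib.FlA.CMil2
import Pool.Agent.Lib.FlA.CMil3

/-!
# CMil: if the Tjurina algebra is of finite dimension, so is the Milnor algebra

J := Jac f. Ideal.span (insert f (range ∂)) = span {f} ⊔ J (Ideal.span_insert). q := {p | exists k, f^k p in J} (an ideal: addition with max / k1 + k2), J <= q, f p in q implies p in q. exists_rep: r, M. hM for trace_identity: p in Od n (N k): p = f^k a + b, b in q (pow_split, Ideal.mem_span_singleton', Submodule.mem_sup), M p = M f ^ k * M a + 0 = X^k • M a ((X • 1)^k = X^k • 1). trace_identity for p = f: the left side is tr (D (X • 1)) = tr 1 = r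
(derivative of X is 1, off-diagonal 0), the right side is 0 as M (∂_i f) = 0 (∂_i f in J <= q). So (r : PowerSeries ℂ) = 0, r = 0, M 1 = 0 (matrices of size 0), 1 in q: f^k in J. Then Od n (N k) <= span {f^k} ⊔ J <= J (pow_split with q = J).
-/

set_option autoImplicit false

namespace Pool.Agent.Flop

open Finset MvPowerSeries

theorem milnor_of_tjurina {n : ℕ} {f : MvPowerSeries (Fin n) ℂ} (h0 : constantCoeff f = 0)
    (h : ∃ N, Od n N ≤ Ideal.span (insert f (Set.range fun i => pderiv ℂ i f))) :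
    ∃ N, Od n N ≤ Jac f := by
  obtain ⟨N, hN⟩ := h
  have hins : Ideal.span (insert f (Set.range fun i => pderiv ℂ i f)) =
      Ideal.span {f} ⊔ Jac f := by
    rw [Ideal.span_insert]
    rfl
  rw [hins] at hN
  let q : Ideal (MvPowerSeries (Fin n) ℂ) :=
    { carrier := {p | ∃ k : ℕ, f ^ k * p ∈ Jac f}
      add_mem' := by
        rintro a b ⟨k, hk⟩ ⟨l, hl⟩
        refine ⟨k + l, ?_⟩
        have e : f ^ (k + l) * (a + b) = f ^ l * (f ^ k * a) + f ^ k * (f ^ l * b) := by ring
        rw [e]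
        exact Ideal.add_mem _ (Ideal.mul_mem_left _ _ hk) (Ideal.mul_mem_left _ _ hl)
      zero_mem' := ⟨0, by rw [mul_zero]; exact Ideal.zero_mem _⟩
      smul_mem' := by
        rintro c a ⟨k, hk⟩
        refine ⟨k, ?_⟩
        have e : f ^ k * (c • a) = c * (f ^ k * a) := by rw [smul_eq_mul]; ring
        rw [e]
        exact Ideal.mul_mem_left _ _ hk }
  have hJq : Jac f ≤ q := fun p hp => ⟨0, by rw [pow_zero, one_mul]; exact hp⟩
  have hq : ∀ p, f * p ∈ q → p ∈ q := by
    rintro p ⟨k, hk⟩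
    refine ⟨k + 1, ?_⟩
    rw [pow_succ, mul_assoc]
    exact hk
  have hN' : Od n N ≤ Ideal.span {f} ⊔ q := hN.trans (sup_le_sup_left hJq _)
  obtain ⟨r, M, hC, hf, hker⟩ := exists_rep h0 hq hN'
  have hM : ∀ k : ℕ, ∃ L : ℕ, ∀ p ∈ Od n L, ∀ i j, (PowerSeries.X : PowerSeries ℂ) ^ k ∣ M p i j := by
    intro k
    refine ⟨N * k, fun p hp i j => ?_⟩
    obtain ⟨a, ha, b, hb, rfl⟩ := Submodule.mem_sup.1 (pow_split hN' k hp)
    obtain ⟨c, rfl⟩ := Ideal.mem_span_singleton'.1 ha
    rw [map_add, (hker b).2 hb, add_zero, map_mul, map_pow, hf, smul_pow, one_pow,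
      mul_smul_comm, mul_one, Matrix.smul_apply, smul_eq_mul]
    exact Dvd.intro _ rfl
  have ht := trace_identity M hC hM f
  have hR : ∑ i, (M (pderiv ℂ i f) * (M (X i)).map (PowerSeries.derivative ℂ)).trace = 0 := by
    refine Finset.sum_eq_zero fun i _ => ?_
    rw [(hker _).2 (hJq (Ideal.subset_span ⟨i, rfl⟩)), zero_mul, Matrix.trace_zero]
  have hL : ((M f).map (PowerSeries.derivative ℂ)).trace = (r : PowerSeries ℂ) := by
    rw [hf]
    unfold Matrix.trace
    have e : ∀ i : Fin r, (((PowerSeries.X : PowerSeries ℂ) •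
        (1 : Matrix (Fin r) (Fin r) (PowerSeries ℂ))).map (PowerSeries.derivative ℂ)).diag i =
        1 := by
      intro i
      rw [Matrix.diag_apply, Matrix.map_apply, Matrix.smul_apply, Matrix.one_apply_eq,
        smul_eq_mul, mul_one]
      exact PowerSeries.derivative_X
    rw [Finset.sum_congr rfl fun i _ => e i]
    simp
  rw [hL, hR] at ht
  have hr : r = 0 := by
    have h2 := congrArg (PowerSeries.constantCoeff (R := ℂ)) ht
    rw [map_natCast, map_zero] at h2
    exact_mod_cast h2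
  subst hr
  have h1 : (1 : MvPowerSeries (Fin n) ℂ) ∈ q := by
    rw [← hker]
    exact Subsingleton.elim _ _
  obtain ⟨k, hk⟩ := h1
  rw [mul_one] at hk
  refine ⟨N * k, (pow_split hN k).trans (sup_le ?_ le_rfl)⟩
  rw [Ideal.span_singleton_le_iff_mem]
  exact hk

end Pool.Agent.Flop
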