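import Pool.Agent.Lib.FlA.Def3

/-!
# CReg: powers of the variables form a regular sequence

`mem_span_Xpow`: (=>) generators: X_i^N * q with i < k has no exponent e with all e_j < N for j < k (coeff of monomial * q is 0 unless N • single i <= e); use Submodule.span_induction (sums and multiples: multiples of an element p with the property: coeff e (r * p) = sum over antidiagonal a + b = e of coeff a r * coeff b p, and b <= e has b_j <= e_j < N).
(<=) induction on k <= n. k = 0: the condition gives p = 0. Step k + 1: i0 := the index k. q := the series e ↦ coeff (e + N • single i0) p, r := the series e ↦ if e i0 < N then coeff e p else 0. p = X_{i0}^N * q + r (coefficients), r satisfies the hypothesis for k: if e_j < N for all j < k: either e i0 < N, then e_j < N for all j < k + 1, coeff e p = 0, or r has coefficient 0. Monotonicity of the spans.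
`regular_Xpow`: IsWeaklyRegular M rs: for all i < rs.length, IsSMulRegular (M ⧸ (Ideal.ofList (rs.take i) • ⊤)) rs[i]. For M = P: Ideal.ofList (take i) • ⊤ = span {X_j^N | j < i} (as submodule of P: Ideal.smul_top_eq / `Ideal.mul_top`, smul_eq_mul). The element is X_i^N. X_i^N * p in I_i implies p in I_i: coeff e p = coeff (e + N • single i) (X_i^N * p), and (e + N • single i) j = e j for j < i; mem_span_Xpow.
-/

set_option autoImplicit false

namespace Pool.Agent.Flop

open Finset MvPowerSeries

private theorem coeff_Xpow_mul {n : ℕ} (i : Fin n) (N : ℕ) (q : MvPowerSeries (Fin n) ℂ)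
    (e : Fin n →₀ ℕ) :
    coeff e (X i ^ N * q) = if N ≤ e i then coeff (e - Finsupp.single i N) q else 0 := by
  classical
  rw [X_pow_eq, coeff_monomial_mul]
  simp only [Finsupp.single_le_iff, one_mul]

theorem mem_span_Xpow {n : ℕ} (N k : ℕ) (p : MvPowerSeries (Fin n) ℂ) :
    p ∈ Ideal.span {q : MvPowerSeries (Fin n) ℂ | ∃ i : Fin n, (i : ℕ) < k ∧ q = X i ^ N} ↔
      ∀ e : Fin n →₀ ℕ, (∀ i : Fin n, (i : ℕ) < k → e i < N) → coeff e p = 0 := by
  constructor
  · intro hp
    induction hp using Submodule.span_induction with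
    | mem x hx =>
      obtain ⟨i, hi, rfl⟩ := hx
      intro e he
      have := coeff_Xpow_mul i N 1 e
      rw [mul_one] at this
      rw [this, if_neg (not_le.mpr (he i hi))]
    | zero => intro e _; exact map_zero _
    | add x y _ _ hx hy => intro e he; rw [map_add, hx e he, hy e he, add_zero]
    | smul a x _ hx =>
      intro e he
      rw [smul_eq_mul, coeff_mul]
      refine Finset.sum_eq_zero fun ab hab => ?_
      rw [Finset.HasAntidiagonal.mem_antidiagonal] at hab
      rw [hx ab.2, mul_zero]
      intro i hi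
      refine lt_of_le_of_lt ?_ (he i hi)
      rw [← hab]
      simp
  · induction k generalizing p with
    | zero =>
      intro h
      have : p = 0 := by
        ext e
        rw [h e (fun i hi => absurd hi (Nat.not_lt_zero _)), map_zero]
      rw [this]
      exact Submodule.zero_mem _
    | succ k ih =>
      intro h
      have hmono : ∀ q : MvPowerSeries (Fin n) ℂ,
          q ∈ Ideal.span {q : MvPowerSeries (Fin n) ℂ | ∃ i : Fin n, (i : ℕ) < k ∧ q = X i ^ N} →
          q ∈ Ideal.span {q : MvPowerSeries (Fin n) ℂ |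
            ∃ i : Fin n, (i : ℕ) < k + 1 ∧ q = X i ^ N} := by
        intro q hq
        refine Ideal.span_mono ?_ hq
        rintro _ ⟨i, hi, rfl⟩
        exact ⟨i, by omega, rfl⟩
      by_cases hk : k < n
      · obtain ⟨i0, hi0⟩ : ∃ i0 : Fin n, (i0 : ℕ) = k := ⟨⟨k, hk⟩, rfl⟩
        obtain ⟨q, hq⟩ : ∃ q : MvPowerSeries (Fin n) ℂ,
            ∀ e, coeff e q = coeff (e + Finsupp.single i0 N) p :=
          ⟨fun e => coeff (e + Finsupp.single i0 N) p, fun _ => rfl⟩
        obtain ⟨r, hr⟩ : ∃ r : MvPowerSeries (Fin n) ℂ,
            ∀ e, coeff e r = if e i0 < N then coeff e p else 0 :=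
          ⟨fun e => if e i0 < N then coeff e p else 0, fun _ => rfl⟩
        have hp : p = X i0 ^ N * q + r := by
          ext e
          rw [map_add, coeff_Xpow_mul, hq, hr]
          by_cases he : N ≤ e i0
          · rw [if_pos he, if_neg (not_lt.mpr he), add_zero,
              tsub_add_cancel_of_le (Finsupp.single_le_iff.mpr he)]
          · rw [if_neg he, if_pos (not_le.mp he), zero_add]
        rw [hp]
        refine Ideal.add_mem _ (Ideal.mul_mem_right _ _
          (Ideal.subset_span ⟨i0, by omega, rfl⟩)) (hmono r (ih r ?_))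
        intro e he
        rw [hr]
        split_ifs with h0
        · refine h e fun i hi => ?_
          rcases Nat.lt_or_ge (i : ℕ) k with hlt | hge
          · exact he i hlt
          · have : i = i0 := Fin.ext (by omega)
            rw [this]
            exact h0
        · rfl
      · exact hmono p (ih p (fun e he => h e (fun i _ =>
          he i (lt_of_lt_of_le i.2 (not_lt.mp hk)))))

theorem regular_Xpow (n N : ℕ) : RingTheory.Sequence.IsWeaklyRegular (MvPowerSeries (Fin n) ℂ)
    (List.ofFn fun i : Fin n => (X i : MvPowerSeries (Fin n) ℂ) ^ N) := by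
  classical
  refine ⟨fun i h => ?_⟩
  have hi : i < n := by simpa using h
  obtain ⟨i0, hi0⟩ : ∃ i0 : Fin n, (i0 : ℕ) = i := ⟨⟨i, hi⟩, rfl⟩
  have hget : (List.ofFn fun i : Fin n => (X i : MvPowerSeries (Fin n) ℂ) ^ N)[i] = X i0 ^ N := by
    rw [List.getElem_ofFn]
    congr 2
    exact Fin.ext hi0.symm
  have hI : (Ideal.ofList ((List.ofFn fun i : Fin n =>
      (X i : MvPowerSeries (Fin n) ℂ) ^ N).take i) • ⊤ :
        Submodule (MvPowerSeries (Fin n) ℂ) (MvPowerSeries (Fin n) ℂ)) =
      Ideal.span {q : MvPowerSeries (Fin n) ℂ | ∃ j : Fin n, (j : ℕ) < i ∧ q = X j ^ N} := by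
    rw [smul_eq_mul, Ideal.mul_top, Ideal.ofList]
    congr 1
    ext q
    simp only [Set.mem_ofPred_eq, List.mem_take_iff_getElem, List.getElem_ofFn, List.length_ofFn]
    constructor
    · rintro ⟨j, hj, rfl⟩
      exact ⟨⟨j, by omega⟩, by simp; omega, rfl⟩
    · rintro ⟨j, hj, rfl⟩
      exact ⟨j, by simp; omega, rfl⟩
  rw [hget, hI, isSMulRegular_iff_right_eq_zero_of_smul]
  intro x
  obtain ⟨p, rfl⟩ := Submodule.Quotient.mk_surjective _ x
  intro hx
  rw [← Submodule.Quotient.mk_smul, Submodule.Quotient.mk_eq_zero, mem_span_Xpow] at hx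
  rw [Submodule.Quotient.mk_eq_zero, mem_span_Xpow]
  intro e he
  have := hx (e + Finsupp.single i0 N) (fun j hj => by
    have hne : i0 ≠ j := fun h => by rw [h] at hi0; omega
    rw [Finsupp.add_apply, Finsupp.single_eq_of_ne' hne, add_zero]
    exact he j hj)
  rw [smul_eq_mul, coeff_Xpow_mul, if_pos (by simp)] at this
  rwa [add_tsub_cancel_right] at this

end Pool.Agent.Flop
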