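import Pool.Agent.Lib.FlA.Ksz

/-!
# KszL: acyclicity of the Koszul complex from regular sequences

`kex_of_regular`: induction on the list ys (all modules M). ys = []: p > n, so there is no S with card p (Finset.card_le_univ, card = p > n): b = 0. ys = y :: ys': (`RingTheory.Sequence.isWeaklyRegular_cons_iff`: IsSMulRegular M y and IsWeaklyRegular (QuotSMulTop y M) ys'). y = sum_i c' i * x i (Ideal.mem_span_range_iff_exists_fun). Let c with
kd x c S = 0 for card S + 1 = p. Put g = kh c' c. For card S = p: kd x g S = (sum c' i x i) • c S - kh c' (kd x c) S = y • c S (kd_kh; kh c' (kd x c) S involves kd x c (S.erase i), card p - 1: zero). In M' = QuotSMulTop y M (quotient map mk): the function T ↦ mk (g T) satisfies: kd x of it at S with card S = p (i.e. card S + 1 = p + 1) is mk (y • c S) = 0.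
Induction hypothesis (p + 1 + |ys'| > n): b' : subsets -> M' with mk (g T) = kd x b' T for card T = p + 1. Lift b' to b : subsets -> M (surjectivity of mk, choice). g T - kd x b T is in y M for card T = p + 1: = y • c1 T (c1 T := 0 for other T). Then for card S = p: y • c S = kd x g S = kd x (kd x b) S + y • kd x c1 S = y • kd x c1 S (kd_congr, kd_kd), so
c S = kd x c1 S by regularity. b := c1. `kex_pi`: componentwise. `kex_retract`: push c to M by i, take b, pull back by ρ (kd_map).
-/

set_option autoImplicit false

namespace Pool.Agent.Flop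

open Finset

variable {R M M' : Type} [CommRing R] [AddCommGroup M] [Module R M] [AddCommGroup M'] [Module R M']
  {n : ℕ}

open scoped Pointwise in
private theorem KszL_q (y : R) : ∃ q : M →ₗ[R] QuotSMulTop y M, Function.Surjective q ∧
    (∀ m, q (y • m) = 0) ∧ ∀ m, q m = 0 → ∃ m', y • m' = m := by
  refine ⟨Submodule.mkQ (y • (⊤ : Submodule R M)),
    Submodule.mkQ_surjective (y • (⊤ : Submodule R M)), fun m => ?_, fun m hm => ?_⟩
  · rw [Submodule.mkQ_apply, Submodule.Quotient.mk_eq_zero]
    exact Submodule.smul_mem_pointwise_smul _ _ _ Submodule.mem_top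
  · rw [Submodule.mkQ_apply, Submodule.Quotient.mk_eq_zero,
      Submodule.mem_smul_pointwise_iff_exists] at hm
    obtain ⟨m', -, hm'⟩ := hm
    exact ⟨m', hm'⟩

theorem kex_of_regular (x : Fin n → R) (ys : List R)
    (hr : RingTheory.Sequence.IsWeaklyRegular M ys) (hy : ∀ y ∈ ys, y ∈ Ideal.span (Set.range x))
    {p : ℕ} (hp : n < p + ys.length) : KEx x M p := by
  induction ys generalizing M p with
  | nil =>
    intro c _
    refine ⟨fun _ => 0, fun S hS => ?_⟩
    exfalso
    have h1 := Finset.card_le_univ S
    rw [Fintype.card_fin] at h1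
    simp only [List.length_nil, add_zero] at hp
    omega
  | cons y ys ih =>
    rw [RingTheory.Sequence.isWeaklyRegular_cons_iff] at hr
    obtain ⟨hr1, hr2⟩ := hr
    obtain ⟨c', hc'⟩ := (Ideal.mem_span_range_iff_exists_fun).1 (hy y (by simp))
    intro c hc
    set g := kh c' c with hg
    have hkdg : ∀ S : Finset (Fin n), S.card = p → kd x g S = y • c S := by
      intro S hS
      have h1 := kd_kh x c' c S
      rw [hc'] at h1
      have h2 : kh c' (kd x c) S = 0 := by
        unfold kh
        refine Finset.sum_eq_zero fun i hi => ?_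
        rw [hc (S.erase i) (by rw [Finset.card_erase_add_one hi, hS])]
        simp
      rw [h2, add_zero] at h1
      exact h1
    have hp' : n < p + 1 + ys.length := by
      simp only [List.length_cons] at hp
      omega
    obtain ⟨q, hqs, hq1, hq2⟩ := KszL_q (M := M) y
    obtain ⟨b', hb'⟩ := ih hr2 (fun z hz => hy z (by simp [hz])) hp'
      (fun T => q (g T)) (by
        intro S hS
        rw [kd_map x q g S, hkdg S (by omega)]
        exact hq1 _)
    choose b hb using fun T => hqs (b' T)
    have hex : ∀ T : Finset (Fin n), ∃ m : M, T.card = p + 1 → y • m = g T - kd x b T := by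
      intro T
      by_cases hT : T.card = p + 1
      · have h1 : q (g T - kd x b T) = 0 := by
          have h3 := hb' T hT
          rw [map_sub, sub_eq_zero, h3, ← kd_map]
          congr 1
          funext S
          exact (hb S).symm
        obtain ⟨m, hm⟩ := hq2 _ h1
        exact ⟨m, fun _ => hm⟩
      · exact ⟨0, fun h => absurd h hT⟩
    choose c1 hc1 using hex
    refine ⟨c1, fun S hS => ?_⟩
    apply hr1
    show y • c S = y • kd x c1 S
    rw [← hkdg S hS]
    have h1 : kd x g S = kd x (fun T => kd x b T + y • c1 T) S := by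
      apply kd_congr
      intro T hT
      rw [hc1 T (by omega)]
      abel
    rw [h1, kd_add, kd_smul]
    have h2 : kd x (fun T => kd x b T) S = 0 := congrFun (kd_kd x b) S
    rw [h2, zero_add]

theorem kex_pi {ι : Type} (x : Fin n → R) {p : ℕ} (h : KEx x M p) : KEx x (ι → M) p := by
  intro c hc
  have h1 : ∀ k : ι, ∃ b : Finset (Fin n) → M, ∀ S, S.card = p → c S k = kd x b S := by
    intro k
    refine h (fun T => c T k) fun S hS => ?_
    have h2 := kd_map x (LinearMap.proj k : (ι → M) →ₗ[R] M) c S
    simp only [LinearMap.proj_apply] at h2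
    rw [h2, hc S hS]
    rfl
  choose b hb using h1
  refine ⟨fun T k => b k T, fun S hS => ?_⟩
  funext k
  have h2 := kd_map x (LinearMap.proj k : (ι → M) →ₗ[R] M) (fun T k => b k T) S
  simp only [LinearMap.proj_apply] at h2
  rw [hb k S hS, h2]

theorem kex_retract (x : Fin n → R) {p : ℕ} (i : M' →ₗ[R] M) (ρ : M →ₗ[R] M')
    (hi : ∀ m, ρ (i m) = m) (h : KEx x M p) : KEx x M' p := by
  intro c hc
  obtain ⟨b, hb⟩ := h (fun T => i (c T)) (fun S hS => by
    rw [kd_map, hc S hS, map_zero])
  refine ⟨fun T => ρ (b T), fun S hS => ?_⟩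
  rw [kd_map, ← hb S hS, hi]

end Pool.Agent.Flop
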