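import Pool.Agent.Lib.FlA.Def4

/-!
# OdB: the ideals of power series of order at least N

`Od_one`, `Od_zero`: unfold. `Od_mul`: coefficient of a product. `Od_eq`: (<=) by induction on N every p in Od n (N+1) is sum_i X_i q_i with q_i in Od n N (compare exists_sum_X_mul in Pool/Agent/Lib/MP_03045c_ag/QuotDer.lean: choose for every exponent d <> 0 an index i with d i <> 0 and put the
coefficient there), X_i in the maximal ideal. (>=) Od_mul and Od_one. The maximal ideal: p is a unit iff its constant coefficient is <> 0 (`MvPowerSeries.isUnit_iff_constantCoeff`), `IsLocalRing.mem_maximalIdeal`. `span_X`: the maximal ideal is generated by the X_i. `pderiv_Od`: coeff_pderiv. `Od_sep`: all coefficients are zero.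
`dvd_of_closed`: P/(g) is a Noetherian local ring (or trivial): Krull `Ideal.iInf_pow_eq_bot_of_isLocalRing`, or `Ideal.iInf_pow_smul_eq_bot_of_isLocalRing` for the P-module P/(g), with Od_eq.
-/

set_option autoImplicit false

namespace Pool.Agent.Flop

open Finset MvPowerSeries

variable {n : ℕ}

private theorem odb_deg_single (i : Fin n) : (Finsupp.single i 1 : Fin n →₀ ℕ).degree = 1 := by
  rw [Finsupp.degree_single]

private theorem odb_dec {N : ℕ} {p : MvPowerSeries (Fin n) ℂ} (hp : p ∈ Od n (N + 1)) :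
    ∃ q : Fin n → MvPowerSeries (Fin n) ℂ, (∀ i, q i ∈ Od n N) ∧ p = ∑ i, X i * q i := by
  classical
  rcases isEmpty_or_nonempty (Fin n) with he | hne
  · refine ⟨fun _ => 0, fun i => (Od n N).zero_mem, ?_⟩
    ext d
    have hd : d = 0 := Subsingleton.elim _ _
    subst hd
    rw [hp 0 (by rw [map_zero]; exact Nat.succ_pos N),
      Finset.sum_eq_zero (fun i _ => mul_zero _), map_zero]
  have hch : ∀ d : Fin n →₀ ℕ, ∃ i, d ≠ 0 → d i ≠ 0 := fun d => by
    by_cases hd : d = 0
    · exact ⟨Classical.arbitrary _, fun h => absurd hd h⟩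
    · obtain ⟨i, hi⟩ := Finsupp.ne_iff.mp hd
      exact ⟨i, fun _ => hi⟩
  choose ix hix using hch
  refine ⟨fun i e => if ix (e + Finsupp.single i 1) = i then
    coeff (e + Finsupp.single i 1) p else 0, ?_, ?_⟩
  · intro i d hd
    change (if ix (d + Finsupp.single i 1) = i then coeff (d + Finsupp.single i 1) p else 0) = 0
    split_ifs
    · refine hp _ ?_
      rw [map_add, odb_deg_single]
      exact Nat.add_lt_add_right hd 1
    · rfl
  ext d
  rw [map_sum]
  by_cases hd : d = 0
  · subst hd
    rw [hp 0 (by rw [map_zero]; exact Nat.succ_pos N), Finset.sum_eq_zero]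
    intro i _
    rw [X, coeff_monomial_mul, if_neg]
    intro h
    have := h i
    simp at this
  · rw [Finset.sum_eq_single (ix d)]
    · have hle : Finsupp.single (ix d) 1 ≤ d := by
        intro j
        by_cases hj : j = ix d
        · subst hj
          rw [Finsupp.single_eq_same]
          exact Nat.one_le_iff_ne_zero.mpr (hix d hd)
        · rw [Finsupp.single_eq_of_ne hj]
          exact Nat.zero_le _
      rw [X, coeff_monomial_mul, if_pos hle, one_mul]
      change _ = (if ix (d - Finsupp.single (ix d) 1 + Finsupp.single (ix d) 1) = ix d then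
        coeff (d - Finsupp.single (ix d) 1 + Finsupp.single (ix d) 1) p else 0)
      rw [tsub_add_cancel_of_le hle, if_pos rfl]
    · intro i _ hi
      rw [X, coeff_monomial_mul]
      split_ifs with h
      · rw [one_mul]
        change (if ix (d - Finsupp.single i 1 + Finsupp.single i 1) = i then
          coeff (d - Finsupp.single i 1 + Finsupp.single i 1) p else 0) = 0
        rw [tsub_add_cancel_of_le h, if_neg (Ne.symm hi)]
      · rfl
    · intro h
      exact absurd (Finset.mem_univ _) h

theorem Od_zero (n : ℕ) : Od n 0 = ⊤ := by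
  rw [eq_top_iff]
  intro p _ d hd
  exact absurd hd (Nat.not_lt_zero _)

theorem mem_Od_one {p : MvPowerSeries (Fin n) ℂ} : p ∈ Od n 1 ↔ constantCoeff p = 0 := by
  constructor
  · intro h
    exact h 0 (by rw [map_zero]; exact Nat.one_pos)
  · intro h d hd
    have hd0 : d = 0 := (Finsupp.degree_eq_zero_iff d).mp (Nat.lt_one_iff.mp hd)
    subst hd0
    exact h

theorem Od_anti {M N : ℕ} (h : M ≤ N) : Od n N ≤ Od n M := by
  intro p hp d hd
  exact hp d (lt_of_lt_of_le hd h)

theorem Od_mul {M N : ℕ} {p q : MvPowerSeries (Fin n) ℂ} (hp : p ∈ Od n M) (hq : q ∈ Od n N) :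
    p * q ∈ Od n (M + N) := by
  intro d hd
  rw [MvPowerSeries.coeff_mul]
  refine Finset.sum_eq_zero fun x hx => ?_
  rw [Finset.HasAntidiagonal.mem_antidiagonal] at hx
  by_cases h1 : x.1.degree < M
  · rw [hp x.1 h1, zero_mul]
  · by_cases h2 : x.2.degree < N
    · rw [hq x.2 h2, mul_zero]
    · exfalso
      rw [← hx, map_add] at hd
      omega

private theorem odb_max {p : MvPowerSeries (Fin n) ℂ} :
    p ∈ IsLocalRing.maximalIdeal (MvPowerSeries (Fin n) ℂ) ↔ constantCoeff p = 0 := by
  rw [IsLocalRing.mem_maximalIdeal, mem_nonunits_iff, MvPowerSeries.isUnit_iff_constantCoeff,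
    isUnit_iff_ne_zero, not_not]

theorem Od_eq (n N : ℕ) :
    Od n N = (IsLocalRing.maximalIdeal (MvPowerSeries (Fin n) ℂ)) ^ N := by
  induction N with
  | zero => rw [Od_zero, pow_zero, Ideal.one_eq_top]
  | succ N ih =>
    apply le_antisymm
    · intro p hp
      obtain ⟨q, hq, rfl⟩ := odb_dec hp
      refine Ideal.sum_mem _ fun i _ => ?_
      rw [pow_succ']
      refine Ideal.mul_mem_mul ?_ ?_
      · rw [odb_max]
        simp
      · rw [← ih]
        exact hq i
    · rw [pow_succ', Ideal.mul_le]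
      intro r hr s hs
      rw [← ih] at hs
      rw [odb_max] at hr
      rw [add_comm N 1]
      exact Od_mul (mem_Od_one.mpr hr) hs

theorem span_X (n : ℕ) : Ideal.span (Set.range fun i : Fin n => (X i : MvPowerSeries (Fin n) ℂ)) =
    Od n 1 := by
  apply le_antisymm
  · rw [Ideal.span_le]
    rintro _ ⟨i, rfl⟩
    exact mem_Od_one.mpr (by simp)
  · intro p hp
    obtain ⟨q, _, rfl⟩ := odb_dec (N := 0) hp
    exact Ideal.sum_mem _ fun i _ => Ideal.mul_mem_right _ _ (Ideal.subset_span ⟨i, rfl⟩)

theorem pderiv_Od {N : ℕ} {p : MvPowerSeries (Fin n) ℂ} (h : p ∈ Od n (N + 1)) (i : Fin n) :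
    pderiv ℂ i p ∈ Od n N := by
  intro d hd
  rw [coeff_pderiv, h (d + Finsupp.single i 1), zero_mul]
  rw [map_add, odb_deg_single]
  exact Nat.add_lt_add_right hd 1

theorem Od_of_pderiv {N : ℕ} {p : MvPowerSeries (Fin n) ℂ} (h0 : constantCoeff p = 0)
    (h : ∀ i, pderiv ℂ i p ∈ Od n N) : p ∈ Od n (N + 1) := by
  intro d hd
  by_cases hd0 : d = 0
  · subst hd0
    exact h0
  · obtain ⟨i, hi⟩ := Finsupp.ne_iff.mp hd0
    have hle : Finsupp.single i 1 ≤ d := by
      intro j
      by_cases hj : j = i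
      · subst hj
        rw [Finsupp.single_eq_same]
        exact Nat.one_le_iff_ne_zero.mpr hi
      · rw [Finsupp.single_eq_of_ne hj]
        exact Nat.zero_le _
    have hde : d - Finsupp.single i 1 + Finsupp.single i 1 = d := tsub_add_cancel_of_le hle
    have hdeg : (d - Finsupp.single i 1).degree < N := by
      have h1 : (d - Finsupp.single i 1).degree + 1 = d.degree := by
        conv_rhs => rw [← hde]
        rw [map_add, odb_deg_single]
      omega
    have h2 := h i (d - Finsupp.single i 1) hdeg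
    rw [coeff_pderiv, hde] at h2
    rcases mul_eq_zero.mp h2 with h3 | h3
    · exact h3
    · exact absurd h3 (Nat.cast_add_one_ne_zero _)

theorem Od_sep {p : MvPowerSeries (Fin n) ℂ} (h : ∀ N, p ∈ Od n N) : p = 0 := by
  ext d
  rw [h (d.degree + 1) d (Nat.lt_succ_self _), map_zero]

theorem ideal_closed (I : Ideal (MvPowerSeries (Fin n) ℂ)) {p : MvPowerSeries (Fin n) ℂ}
    (h : ∀ N, ∃ q ∈ I, p - q ∈ Od n N) : p ∈ I := by
  have hbot := Ideal.iInf_pow_smul_eq_bot_of_isLocalRing (R := MvPowerSeries (Fin n) ℂ)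
    (M := MvPowerSeries (Fin n) ℂ ⧸ I) (I := IsLocalRing.maximalIdeal (MvPowerSeries (Fin n) ℂ))
    Ideal.IsPrime.ne_top'
  rw [← Ideal.Quotient.eq_zero_iff_mem]
  have hm : Ideal.Quotient.mk I p ∈
      (⨅ i : ℕ, (IsLocalRing.maximalIdeal (MvPowerSeries (Fin n) ℂ)) ^ i •
        (⊤ : Submodule (MvPowerSeries (Fin n) ℂ) (MvPowerSeries (Fin n) ℂ ⧸ I))) := by
    refine (Submodule.mem_iInf _).mpr fun N => ?_
    obtain ⟨q, hq, hr⟩ := h N
    have e1 : Ideal.Quotient.mk I p = (p - q) • (Ideal.Quotient.mk I 1) := by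
      have e2 : (p - q) • (Ideal.Quotient.mk I 1) = Ideal.Quotient.mk I ((p - q) * 1) := rfl
      rw [e2, mul_one, map_sub, Ideal.Quotient.eq_zero_iff_mem.mpr hq, sub_zero]
    rw [e1]
    rw [Od_eq] at hr
    exact Submodule.smul_mem_smul hr Submodule.mem_top
  rw [hbot] at hm
  simpa using hm

end Pool.Agent.Flop
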