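import Pool.Agent.Lib.FlA.CEul
import Pool.Agent.Lib.FlA.CReg
import Pool.Agent.Lib.FlA.KszL
import Pool.Agent.Lib.FlA.OdB

/-!
# CTr: isolated singularities which are homogeneous of weight zero; the Koszul complex of the variables

`kex_X`: kex_of_regular with ys = List.ofFn (fun i => X i ^ 1) (length n, n < 1 + n), regular_Xpow n 1.
`trace_zero`: x i := pderiv ℂ i f. KEx x P 1 by kex_of_regular with ys = List.ofFn (fun i => X i ^ N) (X i ^ N in Od n N <= Jac f = Ideal.span (Set.range x)). c : Finset (Fin n) → P, c S := sum_{i in S} C (l i) * X i. For S with card S + 1 = 1 (S = ∅): kd x c ∅ = sum_i ksgn i ∅ • x i • c {i} = sum_i C (l i) X i * ∂_i f = 0 (euler_formula with h = 0; ksgn i ∅ = 1: filter of ∅).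
So there is b with c {i} = kd x b {i} = sum_{j <> i} ksgn j {i} • ∂_j f • b {j, i}. Take the coefficient at single i 1: l_i = sum_{j <> i} ksgn j {i} * H j i * β {j, i}, H j i := coeff (single i 1) (∂_j f), β S := constantCoeff (b S) (coefficient at single i 1 of a product with constantCoeff (∂_j f) = 0: antidiagonal of single i 1 is {(0, single i 1), (single i 1, 0)}; f in Od n 2). H j i = H i j
(coeff_pderiv: both are coeff (single i 1 + single j 1) f for i <> j), {j, i} = {i, j}, ksgn j {i} = - ksgn i {j} for i <> j (ksgn j {i} = -1 if i < j, 1 if j < i). So sum_i l_i = sum over pairs i <> j of an antisymmetric function = 0 (swap: s = - s; `Finset.sum_comm`). The equality is in ℂ; cast back to ℚ (`Rat.cast_injective`, `Rat.cast_sum`).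
-/

set_option autoImplicit false

namespace Pool.Agent.Flop

open Finset MvPowerSeries

theorem kex_X {n : ℕ} :
    KEx (fun i => (X i : MvPowerSeries (Fin n) ℂ)) (MvPowerSeries (Fin n) ℂ) 1 := by
  refine kex_of_regular _ (List.ofFn fun i : Fin n => (X i : MvPowerSeries (Fin n) ℂ) ^ 1)
    (regular_Xpow n 1) ?_ ?_
  · intro y hy
    rw [List.mem_ofFn] at hy
    obtain ⟨i, rfl⟩ := hy
    rw [pow_one]
    exact Ideal.subset_span ⟨i, rfl⟩
  · rw [List.length_ofFn]
    omega

private theorem ctr_pow_mem {n : ℕ} (i : Fin n) (N : ℕ) :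
    (X i : MvPowerSeries (Fin n) ℂ) ^ N ∈ Od n N := by
  classical
  rw [mem_Od]
  intro d hd
  rw [coeff_X_pow, if_neg]
  rintro rfl
  rw [Finsupp.degree_single] at hd
  exact lt_irrefl _ hd

private theorem ctr_ksgn {n : ℕ} (i j : Fin n) :
    ksgn j {i} = if i < j then -1 else 1 := by
  unfold ksgn
  rw [Finset.filter_singleton]
  split_ifs
  · rw [Finset.card_singleton, pow_one]
  · rw [Finset.card_empty, pow_zero]

private theorem ctr_coeff {n : ℕ} (i : Fin n) (p q : MvPowerSeries (Fin n) ℂ)
    (hp : constantCoeff p = 0) :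
    coeff (Finsupp.single i 1) (p * q) = coeff (Finsupp.single i 1) p * constantCoeff q := by
  classical
  rw [coeff_mul, Finset.sum_eq_single (Finsupp.single i 1, 0)]
  · rw [coeff_zero_eq_constantCoeff_apply]
  · rintro ⟨a, b⟩ hab hne
    rw [Finset.HasAntidiagonal.mem_antidiagonal] at hab
    dsimp only at hab
    have ha : a = 0 := by
      by_contra ha
      apply hne
      have h1 : a.degree + b.degree = 1 := by
        rw [← map_add, hab, Finsupp.degree_single]
      have h2 : a.degree ≠ 0 := fun h => ha ((Finsupp.degree_eq_zero_iff a).1 h)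
      have h3 : b.degree = 0 := by omega
      have h4 : b = 0 := (Finsupp.degree_eq_zero_iff b).1 h3
      rw [h4, add_zero] at hab
      rw [hab, h4]
    dsimp only
    rw [ha, coeff_zero_eq_constantCoeff_apply, hp, zero_mul]
  · intro h
    exfalso
    apply h
    rw [Finset.HasAntidiagonal.mem_antidiagonal]
    dsimp only
    rw [add_zero]

theorem trace_zero {n : ℕ} {f : MvPowerSeries (Fin n) ℂ} (h2 : f ∈ Od n 2)
    (hM : ∃ N, Od n N ≤ Jac f) (l : Fin n → ℚ) (hl : IsHg l 0 f) : ∑ i, l i = 0 := by
  classical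
  obtain ⟨N, hN⟩ := hM
  have hK : KEx (fun i => pderiv ℂ i f) (MvPowerSeries (Fin n) ℂ) 1 := by
    refine kex_of_regular _ (List.ofFn fun i : Fin n => (X i : MvPowerSeries (Fin n) ℂ) ^ N)
      (regular_Xpow n N) ?_ ?_
    · intro y hy
      rw [List.mem_ofFn] at hy
      obtain ⟨i, rfl⟩ := hy
      exact hN (ctr_pow_mem i N)
    · rw [List.length_ofFn]
      omega
  have hcc : ∀ j, constantCoeff (pderiv ℂ j f) = 0 := by
    intro j
    rw [← coeff_zero_eq_constantCoeff_apply, coeff_pderiv]
    rw [zero_add, h2 (Finsupp.single j 1) (by rw [Finsupp.degree_single]; exact one_lt_two),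
      zero_mul]
  obtain ⟨b, hb⟩ := hK (fun S => ∑ i ∈ S, MvPowerSeries.C (l i : ℂ) * X i) (by
    intro S hS
    have hS0 : S = ∅ := by
      rw [← Finset.card_eq_zero]
      omega
    subst hS0
    have h1 := euler_formula l 0 hl
    rw [Rat.cast_zero, map_zero, zero_mul] at h1
    rw [← h1]
    unfold kd
    rw [Finset.compl_empty]
    refine Finset.sum_congr rfl fun i _ => ?_
    have h3 : ksgn i (∅ : Finset (Fin n)) = 1 := by
      unfold ksgn
      rw [Finset.filter_empty, Finset.card_empty, pow_zero]
    rw [h3, one_smul, smul_eq_mul]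
    beta_reduce
    rw [Finset.sum_insert (Finset.notMem_empty i), Finset.sum_empty, add_zero, mul_comm])
  have hi : ∀ i, (l i : ℂ) = ∑ j, if j = i then 0 else
      (ksgn j {i} : ℂ) * (coeff (Finsupp.single i 1 + Finsupp.single j 1) f *
        constantCoeff (b (insert j {i}))) := by
    intro i
    have h1 := hb {i} (Finset.card_singleton i)
    rw [Finset.sum_singleton] at h1
    have h3 := congrArg (coeff (Finsupp.single i 1)) h1
    rw [coeff_C_mul, coeff_X, if_pos rfl, mul_one] at h3
    rw [h3]
    unfold kd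
    rw [map_sum]
    have h4 : ({i} : Finset (Fin n))ᶜ = Finset.univ.filter (fun j => j ≠ i) := by
      ext j
      simp
    rw [h4, Finset.sum_filter]
    refine Finset.sum_congr rfl fun j _ => ?_
    by_cases hj : j = i
    · rw [if_neg (not_not.2 hj), if_pos hj]
    · rw [if_pos hj, if_neg hj, map_zsmul, smul_eq_mul, ctr_coeff i _ _ (hcc j), coeff_pderiv,
        Finsupp.single_eq_of_ne hj, Nat.cast_zero, zero_add, mul_one, zsmul_eq_mul]
  have hanti : ∀ i j : Fin n, (if j = i then 0 else
      (ksgn j {i} : ℂ) * (coeff (Finsupp.single i 1 + Finsupp.single j 1) f *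
        constantCoeff (b (insert j {i})))) = - (if i = j then 0 else
      (ksgn i {j} : ℂ) * (coeff (Finsupp.single j 1 + Finsupp.single i 1) f *
        constantCoeff (b (insert i {j})))) := by
    intro i j
    by_cases hij : i = j
    · subst hij
      rw [if_pos rfl, neg_zero]
    · rw [if_neg (fun h => hij h.symm), if_neg hij, ctr_ksgn, ctr_ksgn,
        add_comm (Finsupp.single i 1), Finset.pair_comm j i]
      rcases lt_or_gt_of_ne hij with h | h
      · rw [if_pos h, if_neg (not_lt.2 h.le)]
        push_cast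
        ring
      · rw [if_neg (not_lt.2 h.le), if_pos h]
        push_cast
        ring
  have hT : (∑ i, (l i : ℂ)) = - ∑ i, (l i : ℂ) := by
    have h5 : (∑ i, (l i : ℂ)) = ∑ i, ∑ j, if j = i then 0 else
      (ksgn j {i} : ℂ) * (coeff (Finsupp.single i 1 + Finsupp.single j 1) f *
        constantCoeff (b (insert j {i}))) := Finset.sum_congr rfl fun i _ => hi i
    rw [h5]
    conv_lhs => rw [Finset.sum_comm]
    rw [← Finset.sum_neg_distrib]
    refine Finset.sum_congr rfl fun i _ => ?_
    rw [← Finset.sum_neg_distrib]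
    refine Finset.sum_congr rfl fun j _ => ?_
    exact hanti j i
  have h0 : (∑ i, (l i : ℂ)) = 0 := by
    have h6 : (2 : ℂ) * ∑ i, (l i : ℂ) = 0 := by
      rw [two_mul]
      nth_rewrite 2 [hT]
      exact add_neg_cancel _
    exact (mul_eq_zero.1 h6).resolve_left two_ne_zero
  have h7 : ((∑ i, l i : ℚ) : ℂ) = 0 := by
    rw [Rat.cast_sum]
    exact h0
  exact_mod_cast h7

end Pool.Agent.Flop
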