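import Pool.Agent.Lib.FlA.PrsB

/-!
# EulR: the Euler derivation

Δ on P: Δ p = sum_i (w i) X_i ∂_i p, Δ f = d f (IsHg: coefficients: coeff e (X_i ∂_i f) = e_i coeff e f). Δ maps (f) into (f), so it induces a derivation δ of R: δ (θ p) = θ (Δ p) (well defined by hp.ker; choose preimages). δ (θ (X i)) = w i θ (X i).
-/

set_option autoImplicit false

namespace Pool.Agent.Flop

open Finset MvPowerSeries

variable {R : Type} [CommRing R] [IsLocalRing R] [IsNoetherianRing R] [Algebra ℂ R]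
  {f : MvPowerSeries (Fin 4) ℂ} {θ : MvPowerSeries (Fin 4) ℂ →ₐ[ℂ] R}

private theorem eulR_coeff (i : Fin 4) (p : MvPowerSeries (Fin 4) ℂ) (e : Fin 4 →₀ ℕ) :
    coeff e (X i * pderiv ℂ i p) = (e i : ℂ) * coeff e p := by
  classical
  rw [X, coeff_monomial_mul]
  split_ifs with h
  · rw [coeff_pderiv, tsub_add_cancel_of_le h, one_mul]
    have h1 : 1 ≤ e i := by
      have := h i
      rwa [Finsupp.single_eq_same] at this
    have h2 : (e - Finsupp.single i 1 : Fin 4 →₀ ℕ) i = e i - 1 := by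
      rw [Finsupp.tsub_apply, Finsupp.single_eq_same]
    rw [h2]
    push_cast [Nat.cast_sub h1]
    ring
  · have h1 : e i = 0 := by
      by_contra h0
      apply h
      rw [Finsupp.single_le_iff]
      exact Nat.one_le_iff_ne_zero.mpr h0
    rw [h1]
    simp

theorem Prs.exists_euler (hp : Prs f θ) (w : Fin 4 → ℕ) (d : ℕ) (hf : IsHg w d f) :
    ∃ δ : Derivation ℂ R R, ∀ i, δ (θ (X i)) = (w i : ℂ) • θ (X i) := by
  classical
  let Δ : Derivation ℂ (MvPowerSeries (Fin 4) ℂ) (MvPowerSeries (Fin 4) ℂ) :=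
    ∑ i, (((w i : ℂ) • (X i : MvPowerSeries (Fin 4) ℂ)) •
      (pderiv ℂ i : Derivation ℂ (MvPowerSeries (Fin 4) ℂ) (MvPowerSeries (Fin 4) ℂ)))
  have hΔ : ∀ p, Δ p = ∑ i, (w i : ℂ) • (X i * pderiv ℂ i p) := by
    intro p
    change (∑ i, (((w i : ℂ) • (X i : MvPowerSeries (Fin 4) ℂ)) •
      (pderiv ℂ i : Derivation ℂ (MvPowerSeries (Fin 4) ℂ) (MvPowerSeries (Fin 4) ℂ)))) p = _
    simp only [Fin.sum_univ_four, Derivation.add_apply, Derivation.smul_apply, smul_eq_mul,
      smul_mul_assoc]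
  have hΔc : ∀ p e, coeff e (Δ p) = (∑ i, (e i : ℂ) * (w i : ℂ)) * coeff e p := by
    intro p e
    rw [hΔ, map_sum, Finset.sum_mul]
    refine Finset.sum_congr rfl fun i _ => ?_
    rw [map_smul, eulR_coeff, smul_eq_mul]
    ring
  have hΔf : Δ f = (d : ℂ) • f := by
    ext e
    rw [hΔc, map_smul, smul_eq_mul]
    by_cases h0 : coeff e f = 0
    · rw [h0, mul_zero, mul_zero]
    · have h1 := hf e h0
      congr 1
      rw [← h1]
      push_cast [smul_eq_mul]
      rfl
  have hΔX : ∀ i, Δ (X i) = (w i : ℂ) • X i := by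
    intro i
    ext e
    rw [hΔc, map_smul, smul_eq_mul]
    by_cases h0 : e = Finsupp.single i 1
    · subst h0
      congr 1
      rw [Finset.sum_eq_single i]
      · rw [Finsupp.single_eq_same]
        simp
      · intro j _ hj
        rw [Finsupp.single_eq_of_ne hj]
        simp
      · intro h
        exact absurd (Finset.mem_univ i) h
    · rw [coeff_X, if_neg h0, mul_zero, mul_zero]
  let F : MvPowerSeries (Fin 4) ℂ →ₗ[ℂ] R := θ.toLinearMap ∘ₗ Δ.toLinearMap
  have hF : ∀ p, F p = θ (Δ p) := fun p => rfl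
  have hF0 : ∀ p, θ p = 0 → F p = 0 := by
    intro p h
    obtain ⟨q, rfl⟩ := (hp.ker p).mp h
    rw [hF, Derivation.leibniz, hΔf, smul_eq_mul, smul_eq_mul]
    refine (hp.ker _).mpr ?_
    refine dvd_add (dvd_mul_right _ _) ?_
    rw [mul_smul_comm]
    refine ⟨(d : ℂ) • q, ?_⟩
    rw [mul_smul_comm, mul_comm]
  obtain ⟨s, hs⟩ := LinearMap.exists_rightInverse_of_surjective θ.toLinearMap
    (LinearMap.range_eq_top.mpr hp.surj)
  have hs' : ∀ r, θ (s r) = r := fun r => LinearMap.congr_fun hs r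
  have key : ∀ p, F (s (θ p)) = F p := by
    intro p
    rw [← sub_eq_zero, ← map_sub]
    apply hF0
    rw [map_sub, hs', sub_self]
  refine ⟨Derivation.mk' (F ∘ₗ s) fun a b => ?_, fun i => ?_⟩
  · obtain ⟨p, rfl⟩ := hp.surj a
    obtain ⟨q, rfl⟩ := hp.surj b
    rw [← map_mul]
    change F (s (θ (p * q))) = θ p * F (s (θ q)) + θ q * F (s (θ p))
    rw [key, key, key, hF, hF, hF, ← map_mul, ← map_mul, ← map_add, Derivation.leibniz,
      smul_eq_mul, smul_eq_mul]
  · change F (s (θ (X i))) = _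
    rw [key, hF, hΔX, map_smul]

end Pool.Agent.Flop
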