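import Pool.Agent.Lib.FlA.PartB

/-!
# GrC: closed stable subspaces are graded

(1) For μ : ℂ let P be the projection IsProj (Fil Q) D μ (exists_isProj, lcF, hD.fil). Then P f = part κ μ f (weights in ℂ): both sides are linear and preserve Fil n (fil), so by exists_words it is enough to take words: word Q i l in Gen (Fil Q) D (weight):
Gen.mul (hmul: mul_mem_Fil_left/right; hD.leib), idempotents are in Gen D 0 (D e = 0); see the proof of exists_part in Pool/Agent/Lib/MP_03045c_ag/NEig2.lean, which does exactly this. Then fix, kill. (2) X closed, D-stable: IsProj.inv gives P f in X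
(closedness) for f in X. (3) for q : ℚ: part (ℓ ∘ κ) q f in X: mod Fil n, part (ℓ ∘ κ) q f is the sum over the finite set of the weights μ (of words of length < n) with ℓ μ = q of part κ μ f, all in X; closedness. (ℓ additive: ℓ (sum of κ over l) = sum of ℓ κ:
map_list_sum.) (4) D f - c f in X: IsProj.eig: f - P_c f in X. part (ℓ κ) (ℓ c) (f - P_c f) in X by (3), and part (ℓ κ) (ℓ c) (P_c f) = P_c f (words of κ-weight c have ℓ-weight ℓ c); so f - part (ℓ κ) (ℓ c) f = (f - P_c f) - part(..)(f - P_c f) in X.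
-/

set_option autoImplicit false

namespace Pool.Agent.Flop

open Finset

variable {V E : Type} [Fintype V] [DecidableEq V] [DecidableEq E] {Q : Qv V E}

private theorem grc_cf {G : Type} [AddCommMonoid G] (lam : E → G) (μ : G) (f : Hat Q) (i j : V)
    (l : List E) (h : (l.map lam).sum = μ) : (part lam μ f).cf i j l = f.cf i j l := by
  rw [cf_part]
  exact if_pos h

private theorem grc_cf0 {G : Type} [AddCommMonoid G] (lam : E → G) (μ : G) (f : Hat Q) (i j : V)
    (l : List E) (h : (l.map lam).sum ≠ μ) : (part lam μ f).cf i j l = 0 := by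
  rw [cf_part]
  exact if_neg h

private theorem grc_Fil {G : Type} [AddCommMonoid G] (lam : E → G) (μ : G) {n : ℕ} {f : Hat Q}
    (hf : f ∈ Fil Q n) : part lam μ f ∈ Fil Q n := by
  rw [mem_Fil] at hf ⊢
  intro i j l hl
  by_cases h : (l.map lam).sum = μ
  · rw [grc_cf lam μ f i j l h]
    exact hf i j l hl
  · exact grc_cf0 lam μ f i j l h

private theorem grc_word_pos {G : Type} [AddCommMonoid G] (lam : E → G) (μ : G) (i : V)
    (l : List E) (h : (l.map lam).sum = μ) : part lam μ (word Q i l) = word Q i l := by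
  apply Hat.ext_cf
  intro p q l'
  by_cases h1 : (l'.map lam).sum = μ
  · exact grc_cf lam μ _ p q l' h1
  · rw [grc_cf0 lam μ _ p q l' h1, cf_word, if_neg]
    rintro ⟨_, h2, _⟩
    rw [h2] at h1
    exact h1 h

private theorem grc_word_neg {G : Type} [AddCommMonoid G] (lam : E → G) (μ : G) (i : V)
    (l : List E) (h : (l.map lam).sum ≠ μ) : part lam μ (word Q i l) = 0 := by
  apply Hat.ext_cf
  intro p q l'
  rw [Hat.cf_zero]
  by_cases h1 : (l'.map lam).sum = μ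
  · rw [grc_cf lam μ _ p q l' h1, cf_word, if_neg]
    rintro ⟨_, h2, _⟩
    rw [h2] at h1
    exact h h1
  · exact grc_cf0 lam μ _ p q l' h1

omit [DecidableEq E] in
private theorem grc_one {D : Hat Q →ₗ[ℂ] Hat Q} {x : Hat Q} (h : D x = 0) :
    x ∈ Gen (Fil Q) D 0 := by
  intro n
  refine ⟨1, ?_⟩
  have h1 : ((D - (0 : ℂ) • (1 : Module.End ℂ (Hat Q))) ^ 1) x = 0 := by
    rw [pow_one, zero_smul]
    show D x - (0 : Hat Q) = 0
    rw [h, sub_zero]
  rw [h1]
  exact (Fil Q n).zero_mem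

private theorem grc_hmul : ∀ (n : ℕ) (x y : Hat Q), x ∈ Fil Q n ∨ y ∈ Fil Q n →
    x * y ∈ Fil Q n := by
  rintro n x y (h | h)
  · exact mul_mem_Fil_right y h
  · exact mul_mem_Fil_left x h

private theorem grc_mul {D : Hat Q →ₗ[ℂ] Hat Q} (hD : IsDer D) {κ μ : ℂ} {x y : Hat Q}
    (hx : x ∈ Gen (Fil Q) D κ) (hy : y ∈ Gen (Fil Q) D μ) : x * y ∈ Gen (Fil Q) D (κ + μ) :=
  Gen.mul (B := Hat Q) (F := Fil Q) (D := D) grc_hmul hD.fil hD.leib hx hy

private theorem grc_prod {D : Hat Q →ₗ[ℂ] Hat Q} (hD : IsDer D) (κ : E → ℂ)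
    (h : ∀ a, arr Q a ∈ Gen (Fil Q) D (κ a)) (l : List E) :
    (l.map (arr Q)).prod ∈ Gen (Fil Q) D ((l.map κ).sum) := by
  induction l with
  | nil =>
    rw [List.map_nil, List.map_nil, List.prod_nil, List.sum_nil]
    exact grc_one hD.one
  | cons a l ih =>
    rw [List.map_cons, List.map_cons, List.prod_cons, List.sum_cons]
    exact grc_mul hD (h a) ih

private theorem grc_word {D : Hat Q →ₗ[ℂ] Hat Q} (hD : IsDer D) (κ : E → ℂ)
    (h : ∀ a, arr Q a ∈ Gen (Fil Q) D (κ a)) (i : V) (l : List E) :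
    word Q i l ∈ Gen (Fil Q) D ((l.map κ).sum) := by
  have h1 := grc_mul hD (grc_one (D := D) (hD.idem i)) (grc_prod hD κ h l)
  rwa [zero_add] at h1

private theorem grc_proj [Fintype E] {D : Hat Q →ₗ[ℂ] Hat Q} (hD : IsDer D) {κ : E → ℂ}
    (h : ∀ a, arr Q a ∈ Gen (Fil Q) D (κ a)) {μ : ℂ} {P : Hat Q →ₗ[ℂ] Hat Q}
    (hP : IsProj (Fil Q) D μ P) (f : Hat Q) : P f = part κ μ f := by
  rw [← sub_eq_zero]
  refine Fil_sep fun n => ?_
  obtain ⟨s, _, hs1⟩ := exists_words f n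
  have hw : ∀ t ∈ s, f.cf t.1 t.2.1 t.2.2 • (P (word Q t.1 t.2.2) -
      part κ μ (word Q t.1 t.2.2)) = 0 := by
    rintro ⟨i, j, l⟩ _
    show f.cf i j l • (P (word Q i l) - part κ μ (word Q i l)) = 0
    by_cases hk : (l.map κ).sum = μ
    · have h1 : P (word Q i l) = word Q i l := by
        apply hP.fix
        rw [← hk]
        exact grc_word hD κ h i l
      rw [h1, grc_word_pos κ μ i l hk, sub_self, smul_zero]
    · have h1 : P (word Q i l) = 0 := hP.kill _ hk _ (grc_word hD κ h i l)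
      rw [h1, grc_word_neg κ μ i l hk, sub_self, smul_zero]
  have h2 : P f - part κ μ f = (P (f - ∑ t ∈ s, f.cf t.1 t.2.1 t.2.2 • word Q t.1 t.2.2) -
      part κ μ (f - ∑ t ∈ s, f.cf t.1 t.2.1 t.2.2 • word Q t.1 t.2.2)) +
      ∑ t ∈ s, f.cf t.1 t.2.1 t.2.2 • (P (word Q t.1 t.2.2) -
        part κ μ (word Q t.1 t.2.2)) := by
    simp only [map_sub, map_sum, map_smul, smul_sub, Finset.sum_sub_distrib]
    abel
  rw [h2, Finset.sum_eq_zero hw, add_zero]
  exact (Fil Q n).sub_mem (hP.fil n _ hs1) (grc_Fil κ μ hs1)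

theorem part_mem_of_der [Fintype E] {D : Hat Q →ₗ[ℂ] Hat Q} (hD : IsDer D) {κ : E → ℂ}
    (hκ : ∀ a, arr Q a ∈ Gen (Fil Q) D (κ a)) (ℓ : ℂ →ₗ[ℚ] ℚ) {X : Submodule ℂ (Hat Q)}
    (hX : IsCl X) (hDX : ∀ f ∈ X, D f ∈ X) :
    (∀ f ∈ X, ∀ μ : ℚ, part (fun a => ℓ (κ a)) μ f ∈ X) ∧
      ∀ (c : ℂ) (f : Hat Q), D f - c • f ∈ X →
        f - part (fun a => ℓ (κ a)) (ℓ c) f ∈ X := by
  classical
  have hsum : ∀ l : List E, (l.map fun a => ℓ (κ a)).sum = ℓ ((l.map κ).sum) := by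
    intro l
    rw [map_list_sum, List.map_map]
    rfl
  have hc : ∀ (μ : ℂ), ∀ f ∈ X, part κ μ f ∈ X := by
    intro μ f hf
    obtain ⟨P, hP⟩ := exists_isProj (lcF (Q := Q)) D hD.fil μ
    refine hX _ fun n => ?_
    obtain ⟨y, hy, hy1⟩ := hP.inv X hDX f hf n
    rw [grc_proj hD hκ hP] at hy1
    exact ⟨y, hy, hy1⟩
  have hq : ∀ f ∈ X, ∀ μ : ℚ, part (fun a => ℓ (κ a)) μ f ∈ X := by
    intro f hf q
    refine hX _ fun n => ?_
    have hfin : {l : List E | l.length < n}.Finite := List.finite_length_lt E n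
    refine ⟨∑ μ ∈ (hfin.toFinset.image fun l => (l.map κ).sum).filter (fun μ => ℓ μ = q),
      part κ μ f, X.sum_mem fun μ _ => hc μ f hf, ?_⟩
    rw [mem_Fil]
    intro i j l hl
    rw [Hat.cf_sub, Hat.cf_sum, sub_eq_zero]
    have hmem : (l.map κ).sum ∈ hfin.toFinset.image fun l => (l.map κ).sum :=
      Finset.mem_image.2 ⟨l, hfin.mem_toFinset.2 hl, rfl⟩
    by_cases hw : ℓ ((l.map κ).sum) = q
    · rw [grc_cf _ _ _ _ _ _ ((hsum l).trans hw), Finset.sum_eq_single ((l.map κ).sum)]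
      · rw [grc_cf _ _ _ _ _ _ rfl]
      · intro ν _ hν
        exact grc_cf0 _ _ _ _ _ _ fun h => hν h.symm
      · intro h
        exact absurd (Finset.mem_filter.2 ⟨hmem, hw⟩) h
    · rw [grc_cf0 _ _ _ _ _ _ (fun h => hw ((hsum l).symm.trans h)), Finset.sum_eq_zero]
      intro ν hν
      refine grc_cf0 _ _ _ _ _ _ fun h => hw ?_
      rw [h]
      exact (Finset.mem_filter.1 hν).2
  refine ⟨hq, fun c f hf => ?_⟩
  have h1 : f - part κ c f ∈ X := by
    obtain ⟨P, hP⟩ := exists_isProj (lcF (Q := Q)) D hD.fil c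
    refine hX _ fun n => ?_
    obtain ⟨y, hy, hy1⟩ := hP.eig X hDX f hf n
    rw [grc_proj hD hκ hP] at hy1
    exact ⟨y, hy, hy1⟩
  have h2 := hq _ h1 (ℓ c)
  have h3 : part (fun a => ℓ (κ a)) (ℓ c) (part κ c f) = part κ c f := by
    apply Hat.ext_cf
    intro i j l
    by_cases hw : (l.map κ).sum = c
    · exact grc_cf _ _ _ _ _ _ ((hsum l).trans (congrArg ℓ hw))
    · rw [grc_cf0 κ c f i j l hw]
      by_cases hw' : (l.map fun a => ℓ (κ a)).sum = ℓ c
      · rw [grc_cf _ _ _ _ _ _ hw', grc_cf0 κ c f i j l hw]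
      · exact grc_cf0 _ _ _ _ _ _ hw'
  have h4 : f - part (fun a => ℓ (κ a)) (ℓ c) f = (f - part κ c f) -
      part (fun a => ℓ (κ a)) (ℓ c) (f - part κ c f) := by
    rw [map_sub, h3]
    abel
  rw [h4]
  exact X.sub_mem h1 h2

theorem exists_ell : ∃ ℓ : ℂ →ₗ[ℚ] ℚ, ∀ q : ℚ, ℓ (q : ℂ) = q := by
  have hk : LinearMap.ker (Algebra.linearMap ℚ ℂ) = ⊥ := by
    rw [LinearMap.ker_eq_bot]
    exact (algebraMap ℚ ℂ).injective
  obtain ⟨g, hg⟩ := LinearMap.exists_leftInverse_of_injective (Algebra.linearMap ℚ ℂ) hk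
  refine ⟨g, fun q => ?_⟩
  have h1 := LinearMap.congr_fun hg q
  exact h1

end Pool.Agent.Flop
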