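import Pool.Agent.Lib.FlA.Bs1

/-!
# PartB: graded parts: basic properties

ALL by coefficients (`cf_part`, with `open scoped Classical in` where needed) or continuity. `part_mul_left`: coefficient at l of f * g is the sum over cuts u v = l of f_u g_v, f_u <> 0 only for weight ν; weight u + weight v = weight l (List.map_append, sum_append).
`part_cyc`: the rotations of a word have the same weight (List.Perm.sum_eq or map/append): (cyc a F).cf (tgt a) (src a) l = sum F.cf v v (l.drop k ++ a :: l.take k), weight lam a + weight l. `part_comm`: part μ (f g - g f) for words; by continuity: part μ maps Fil n to Fil n;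
mod Fil n f and g are combinations of words (exists_words), and part μ of a commutator of two words is 0 or the commutator. (map_cl.) `part_conv`: S = the finite set of the weights of the words of length < n (E finite: `List` of length < n is a finite type;
or use exists_words f n: S = weights of the words in s, and part μ f in Fil n for μ not in S since every word of length < n with non-zero coefficient is in s: prefer the first). `mem_of_parts`: f is mod Fil n the sum of its parts for μ in S. `part_jac`: jac F is homogeneous if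
F is homogeneous on closed words: {f | ∀ μ, part μ f in jac F}: closed, two-sided ideal (mod Fil n the factor z is a combination of words: part μ (word * f) = word * part (μ - weight) f by part_mul_left), contains cyc a F (part_cyc: cyc a F is homogeneous).
-/

set_option autoImplicit false

namespace Pool.Agent.Flop

open Finset

variable {V E : Type} [Fintype V] [DecidableEq V] [DecidableEq E] {Q : Qv V E}

private theorem cfp (lam : E → ℚ) (μ : ℚ) (f : Hat Q) (i j : V) (l : List E) :
    (part lam μ f).cf i j l = if (l.map lam).sum = μ then f.cf i j l else 0 := by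
  rw [cf_part]
  split_ifs <;> rfl

omit [DecidableEq E] in
private theorem pb_cyc (a : E) (Φ : Hat Q) (i j : V) (l : List E) :
    (cyc a Φ).cf i j l = if i = Q.tgt a ∧ j = Q.src a then
      ∑ v, ∑ k ∈ range (l.length + 1), Φ.cf v v (l.drop k ++ a :: l.take k) else 0 := rfl

omit [Fintype V] [DecidableEq V] [DecidableEq E] in
private theorem wt_rot (lam : E → ℚ) (a : E) (l : List E) (k : ℕ) :
    ((l.drop k ++ a :: l.take k).map lam).sum = (l.map lam).sum + lam a := by
  have h : (l.map lam).sum = ((l.take k).map lam).sum + ((l.drop k).map lam).sum := by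
    rw [← List.sum_append, ← List.map_append, List.take_append_drop]
  rw [List.map_append, List.sum_append, List.map_cons, List.sum_cons, h]
  ring

private theorem wt_of_part {lam : E → ℚ} {ν : ℚ} {f : Hat Q} (h : part lam ν f = f) {i j : V}
    {l : List E} (hl : f.cf i j l ≠ 0) : (l.map lam).sum = ν := by
  by_contra hne
  apply hl
  rw [← h, cfp, if_neg hne]

theorem part_Fil {lam : E → ℚ} {μ : ℚ} {n : ℕ} {f : Hat Q} (h : f ∈ Fil Q n) :
    part lam μ f ∈ Fil Q n := by
  rw [mem_Fil] at h ⊢
  intro i j l hl
  rw [cfp, h i j l hl, ite_self]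

theorem part_part (lam : E → ℚ) (μ ν : ℚ) (f : Hat Q) :
    part lam μ (part lam ν f) = if μ = ν then part lam ν f else 0 := by
  apply Hat.ext_cf
  intro i j l
  by_cases hμ : μ = ν
  · subst hμ
    rw [if_pos rfl, cfp, cfp]
    split_ifs <;> rfl
  · rw [if_neg hμ, cfp, cfp, Hat.cf_zero]
    split_ifs with h1 h2
    · exact absurd (h1.symm.trans h2) hμ
    · rfl
    · rfl

theorem part_mul_left {lam : E → ℚ} {ν : ℚ} {f : Hat Q} (h : part lam ν f = f) (μ : ℚ)
    (g : Hat Q) : part lam μ (f * g) = f * part lam (μ - ν) g := by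
  apply Hat.ext_cf
  intro i j l
  rw [cfp, Hat.cf_mul, Hat.cf_mul]
  have key : ∀ (k : V) (n : ℕ), f.cf i k (l.take n) * (part lam (μ - ν) g).cf k j (l.drop n) =
      if (l.map lam).sum = μ then f.cf i k (l.take n) * g.cf k j (l.drop n) else 0 := by
    intro k n
    by_cases h0 : f.cf i k (l.take n) = 0
    · rw [h0, zero_mul, zero_mul, ite_self]
    · have h1 := wt_of_part h h0
      have h2 : (l.map lam).sum = ((l.take n).map lam).sum + ((l.drop n).map lam).sum := by
        rw [← List.sum_append, ← List.map_append, List.take_append_drop]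
      rw [cfp]
      by_cases h3 : (l.map lam).sum = μ
      · rw [if_pos h3, if_pos (by linarith)]
      · rw [if_neg h3, if_neg (by intro h4; apply h3; linarith), mul_zero]
  simp only [key]
  split_ifs with h3
  · rfl
  · simp

theorem part_mul_right {lam : E → ℚ} {ν : ℚ} {g : Hat Q} (h : part lam ν g = g) (μ : ℚ)
    (f : Hat Q) : part lam μ (f * g) = part lam (μ - ν) f * g := by
  apply Hat.ext_cf
  intro i j l
  rw [cfp, Hat.cf_mul, Hat.cf_mul]
  have key : ∀ (k : V) (n : ℕ), (part lam (μ - ν) f).cf i k (l.take n) * g.cf k j (l.drop n) =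
      if (l.map lam).sum = μ then f.cf i k (l.take n) * g.cf k j (l.drop n) else 0 := by
    intro k n
    by_cases h0 : g.cf k j (l.drop n) = 0
    · rw [h0, mul_zero, mul_zero, ite_self]
    · have h1 := wt_of_part h h0
      have h2 : (l.map lam).sum = ((l.take n).map lam).sum + ((l.drop n).map lam).sum := by
        rw [← List.sum_append, ← List.map_append, List.take_append_drop]
      rw [cfp]
      by_cases h3 : (l.map lam).sum = μ
      · rw [if_pos h3, if_pos (by linarith)]
      · rw [if_neg h3, if_neg (by intro h4; apply h3; linarith), zero_mul]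
  simp only [key]
  split_ifs with h3
  · rfl
  · simp

theorem part_idem (lam : E → ℚ) (v : V) : part lam 0 (idem Q v) = idem Q v := by
  apply Hat.ext_cf
  intro i j l
  rw [cfp, cf_idem]
  by_cases h : l = []
  · subst h
    rw [if_pos (by simp)]
  · have h1 : ¬ (i = v ∧ j = v ∧ l = []) := fun h' => h h'.2.2
    rw [if_neg h1, ite_self]

theorem part_arr (lam : E → ℚ) (a : E) : part lam (lam a) (arr Q a) = arr Q a := by
  apply Hat.ext_cf
  intro i j l
  rw [cfp, cf_arr]
  by_cases h : l = [a]
  · subst h
    rw [if_pos (by simp)]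
  · have h1 : ¬ (i = Q.src a ∧ j = Q.tgt a ∧ l = [a]) := fun h' => h h'.2.2
    rw [if_neg h1, ite_self]

theorem part_cyc (lam : E → ℚ) (μ : ℚ) (a : E) (F : Hat Q) :
    cyc a (part lam μ F) = part lam (μ - lam a) (cyc a F) := by
  apply Hat.ext_cf
  intro i j l
  rw [cfp, pb_cyc, pb_cyc]
  simp only [cfp, wt_rot]
  by_cases h1 : (l.map lam).sum = μ - lam a
  · have h2 : (l.map lam).sum + lam a = μ := by linarith
    simp only [if_pos h1, if_pos h2]
  · have h2 : ¬ ((l.map lam).sum + lam a = μ) := by
      intro h3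
      apply h1
      linarith
    simp only [if_neg h1, if_neg h2, Finset.sum_const_zero, ite_self]

theorem part_rc (lam : E → ℚ) (μ : ℚ) (b : E) (F : Hat Q) :
    rc b (part lam μ F) = part lam (μ - lam b) (rc b F) := by
  apply Hat.ext_cf
  intro i j l
  rw [cfp, cf_rc, cf_rc, cfp, List.map_append, List.sum_append, List.map_singleton,
    List.sum_singleton]
  by_cases h1 : (l.map lam).sum = μ - lam b
  · have h2 : (l.map lam).sum + lam b = μ := by linarith
    rw [if_pos h1, if_pos h2]
  · have h2 : ¬ ((l.map lam).sum + lam b = μ) := by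
      intro h3
      apply h1
      linarith
    rw [if_neg h1, if_neg h2, ite_self]

theorem part_conv [Fintype E] (lam : E → ℚ) (f : Hat Q) (n : ℕ) : ∃ S : Finset ℚ,
    f - ∑ μ ∈ S, part lam μ f ∈ Fil Q n ∧ ∀ μ, μ ∉ S → part lam μ f ∈ Fil Q n := by
  classical
  have hfin : {l : List E | l.length < n}.Finite := List.finite_length_lt E n
  have hmem : ∀ l : List E, l.length < n →
      (l.map lam).sum ∈ hfin.toFinset.image fun l => (l.map lam).sum := by
    intro l hl
    exact Finset.mem_image.2 ⟨l, hfin.mem_toFinset.2 hl, rfl⟩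
  refine ⟨hfin.toFinset.image fun l => (l.map lam).sum, ?_, ?_⟩
  · rw [mem_Fil]
    intro i j l hl
    rw [Hat.cf_sub, Hat.cf_sum, sub_eq_zero, Finset.sum_eq_single ((l.map lam).sum)]
    · rw [cfp, if_pos rfl]
    · intro ν _ hν
      rw [cfp, if_neg (fun h => hν h.symm)]
    · intro h
      exact absurd (hmem l hl) h
  · intro μ hμ
    rw [mem_Fil]
    intro i j l hl
    rw [cfp, if_neg]
    intro h
    apply hμ
    rw [← h]
    exact hmem l hl

theorem part_comm [Fintype E] (lam : E → ℚ) (μ : ℚ) {f : Hat Q} (h : f ∈ cl (Comm Q)) :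
    part lam μ f ∈ cl (Comm Q) := by
  refine map_cl (part lam μ) (fun n f hf => part_Fil hf) ?_ h
  intro g hg
  have hle : Comm Q ≤ (cl (Comm Q)).comap (part lam μ) := by
    refine Comm_le fun p q => ?_
    rw [Submodule.mem_comap, mem_cl]
    intro n
    obtain ⟨S, hS, -⟩ := part_conv lam p n
    refine ⟨∑ ν ∈ S, (part lam ν p * part lam (μ - ν) q - part lam (μ - ν) q * part lam ν p),
      Submodule.sum_mem _ fun ν _ => comm_mem _ _, ?_⟩
    have hνν : ∀ ν, part lam ν (part lam ν p) = part lam ν p := by
      intro ν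
      rw [part_part, if_pos rfl]
    have h1 : part lam μ ((∑ ν ∈ S, part lam ν p) * q - q * ∑ ν ∈ S, part lam ν p) =
        ∑ ν ∈ S, (part lam ν p * part lam (μ - ν) q - part lam (μ - ν) q * part lam ν p) := by
      rw [Finset.sum_mul, Finset.mul_sum, ← Finset.sum_sub_distrib, map_sum]
      refine Finset.sum_congr rfl fun ν _ => ?_
      rw [map_sub, part_mul_left (hνν ν), part_mul_right (hνν ν)]
    rw [← h1, ← map_sub]
    refine part_Fil ?_
    have h2 : p * q - q * p - ((∑ ν ∈ S, part lam ν p) * q - q * ∑ ν ∈ S, part lam ν p) =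
        (p - ∑ ν ∈ S, part lam ν p) * q - q * (p - ∑ ν ∈ S, part lam ν p) := by
      rw [sub_mul, mul_sub]
      abel
    rw [h2]
    exact Submodule.sub_mem _ (mul_mem_Fil_right q hS) (mul_mem_Fil_left q hS)
  exact hle hg

theorem mem_of_parts [Fintype E] {lam : E → ℚ} {X : Submodule ℂ (Hat Q)} (hX : IsCl X)
    {f : Hat Q} (h : ∀ μ, part lam μ f ∈ X) : f ∈ X := by
  refine hX f fun n => ?_
  obtain ⟨S, hS, -⟩ := part_conv lam f n
  exact ⟨_, Submodule.sum_mem _ fun μ _ => h μ, hS⟩

private theorem part_cyc_hom {lam : E → ℚ} {w : ℚ} {F : Hat Q}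
    (h : ∀ i l, F.cf i i l ≠ 0 → (l.map lam).sum = w) (a : E) (μ : ℚ) :
    part lam μ (cyc a F) = if μ = w - lam a then cyc a F else 0 := by
  have h0 : ∀ (i j : V) (l : List E), (l.map lam).sum ≠ w - lam a →
      (cyc a F).cf i j l = 0 := by
    intro i j l hl
    rw [pb_cyc]
    split_ifs with hij
    · refine Finset.sum_eq_zero fun v _ => Finset.sum_eq_zero fun k _ => ?_
      by_contra hne
      apply hl
      have h1 := h v _ hne
      rw [wt_rot] at h1
      linarith
    · rfl
  apply Hat.ext_cf
  intro i j l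
  rw [cfp]
  by_cases hμ : μ = w - lam a
  · rw [if_pos hμ]
    by_cases hw : (l.map lam).sum = μ
    · rw [if_pos hw]
    · rw [if_neg hw, h0 i j l (by rw [← hμ]; exact hw)]
  · rw [if_neg hμ, Hat.cf_zero]
    by_cases hw : (l.map lam).sum = μ
    · rw [if_pos hw, h0 i j l (by rw [hw]; exact hμ)]
    · rw [if_neg hw]

theorem part_jac [Fintype E] {lam : E → ℚ} {w : ℚ} {F : Hat Q}
    (h : ∀ i l, F.cf i i l ≠ 0 → (l.map lam).sum = w) :
    ∀ f ∈ jac F, ∀ μ, part lam μ f ∈ jac F := by
  set S : Submodule ℂ (Hat Q) := ⨅ μ, (jac F).comap (part lam μ) with hSdef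
  have hS : ∀ f, f ∈ S ↔ ∀ μ, part lam μ f ∈ jac F := by
    intro f
    rw [hSdef, Submodule.mem_iInf]
    rfl
  have hνν : ∀ (z : Hat Q) (ν : ℚ), part lam ν (part lam ν z) = part lam ν z := by
    intro z ν
    rw [part_part, if_pos rfl]
  have hmain : jac F ≤ S := by
    refine jac_min ?_ ?_ ?_ ?_
    · intro f hf
      rw [hS]
      intro μ
      refine isCl_jac F _ fun n => ?_
      obtain ⟨s, hs, hfs⟩ := hf n
      refine ⟨part lam μ s, (hS s).1 hs μ, ?_⟩
      rw [← map_sub]
      exact part_Fil hfs
    · intro z f hf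
      rw [hS] at hf ⊢
      intro μ
      refine isCl_jac F _ fun n => ?_
      obtain ⟨T, hT, -⟩ := part_conv lam z n
      refine ⟨∑ ν ∈ T, part lam ν z * part lam (μ - ν) f,
        Submodule.sum_mem _ fun ν _ => jac_ml _ (hf _), ?_⟩
      have h1 : part lam μ ((∑ ν ∈ T, part lam ν z) * f) =
          ∑ ν ∈ T, part lam ν z * part lam (μ - ν) f := by
        rw [Finset.sum_mul, map_sum]
        exact Finset.sum_congr rfl fun ν _ => part_mul_left (hνν z ν) _ _
      rw [← h1, ← map_sub, ← sub_mul]
      exact part_Fil (mul_mem_Fil_right f hT)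
    · intro z f hf
      rw [hS] at hf ⊢
      intro μ
      refine isCl_jac F _ fun n => ?_
      obtain ⟨T, hT, -⟩ := part_conv lam z n
      refine ⟨∑ ν ∈ T, part lam (μ - ν) f * part lam ν z,
        Submodule.sum_mem _ fun ν _ => jac_mr _ (hf _), ?_⟩
      have h1 : part lam μ (f * ∑ ν ∈ T, part lam ν z) =
          ∑ ν ∈ T, part lam (μ - ν) f * part lam ν z := by
        rw [Finset.mul_sum, map_sum]
        exact Finset.sum_congr rfl fun ν _ => part_mul_right (hνν z ν) _ _
      rw [← h1, ← map_sub, ← mul_sub]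
      exact part_Fil (mul_mem_Fil_left f hT)
    · intro a
      rw [hS]
      intro μ
      rw [part_cyc_hom h]
      split_ifs
      · exact cyc_jac F a
      · exact Submodule.zero_mem _
  intro f hf
  exact (hS f).1 (hmain hf)

end Pool.Agent.Flop
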