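import Pool.Agent.Lib.FlA.Krl
import Pool.Agent.Lib.FlA.PartB

/-!
# GrA: the gradings of A and of R

cA μ: A -> A, the map induced by part lam μ on A = T / jac W: well defined by hJ and h.ker, h.surj (choose preimages: `Function.surjInv`; linearity from uniqueness modulo jac W). `Grd.pi` holds by construction. CENTRE: for z = r • 1 = π f and a word g (homogeneous of weight ν, part_mul_left/right):
f g - g f in jac W, so part (μ + ν) of it: part μ f * g - g * part μ f in jac W (hJ): cA μ z commutes with π g for all words g; for a general g: mod Fil k a combination of words, and π (Fil k) in MA n: cA μ z * π g - π g * cA μ z in MA n for all n, so 0 (Mdl.sep). By h.cen: cA μ (r • 1) = r' • 1,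
cR μ r := r' (unique: tf with x = 1; 1 <> 0 as π(e_o) <> 0), ℂ-linear (IsScalarTower). `smul`: r • 1 = π f with part ν f = f mod jac W (cR ν r = r: π (part ν f) = π f, replace f by part ν f): r • π g = π (f g), part μ (f g) = f * part (μ - ν) g. `mul`: apply smul to x = s • 1 and compare: (cR μ (r s)) • 1 =
cA μ (r • (s • 1)) = r • cA (μ - ν) (s • 1). `max`: r in m: r • 1 in MA 1, so f in Fil 1 (fil_of_MA), part μ f in Fil 1; if cR μ r were a unit u: π (part μ f * e_o) = u • π(e_o), so π(e_o) in π(Fil 1) (exists_lift_smul with u⁻¹), against idem_not. `conv`: part_conv for f and k with π(Fil k) in MA n: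
(r - sum cR μ r) • 1 in MA n: max_pow. `idm`: part_part. `unit`: 1 = sum of idempotents, part_idem (part 0 of 1 is 1): cA 0 1 = 1.
-/

set_option autoImplicit false

namespace Pool.Agent.Flop

open Finset

variable {V E : Type} [Fintype V] [DecidableEq V] [DecidableEq E] [Fintype E] {Q : Qv V E}
variable {R A : Type} [CommRing R] [IsLocalRing R] [IsNoetherianRing R] [Algebra ℂ R] [Ring A]
  [Algebra ℂ A] [Algebra R A] [IsScalarTower ℂ R A] {o : V} {W : Hat Q} {π : Hat Q →ₐ[ℂ] A}

private theorem gra_L0 (h : Mdl R o W π) {lam : E → ℚ}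
    (hJ : ∀ f ∈ jac W, ∀ μ, part lam μ f ∈ jac W) (μ : ℚ) {f g : Hat Q} (hfg : π f = π g) :
    π (part lam μ f) = π (part lam μ g) := by
  have h1 : f - g ∈ jac W := (h.ker _).1 (by rw [map_sub, hfg, sub_self])
  have h2 := (h.ker _).2 (hJ _ h1 μ)
  rw [map_sub (part lam μ), map_sub π, sub_eq_zero] at h2
  exact h2

private theorem gra_one (h : Mdl R o W π) : (1 : A) ≠ 0 := by
  intro h1
  apply h.idem_not (Submodule.zero_mem _ : (0 : Hat Q) ∈ Fil Q 1) o
  rw [← one_mul (π 0), ← one_mul (π (idem Q o)), h1, zero_mul, zero_mul]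

private theorem gra_inj (h : Mdl R o W π) {r s : R} (hrs : r • (1 : A) = s • (1 : A)) :
    r = s := by
  have h1 : (r - s) • (1 : A) = 0 := by rw [sub_smul, hrs, sub_self]
  rcases h.tf _ _ h1 with h2 | h2
  · exact sub_eq_zero.1 h2
  · exact absurd h2 (gra_one h)

private theorem gra_cen (h : Mdl R o W π) {lam : E → ℚ}
    (hJ : ∀ f ∈ jac W, ∀ μ, part lam μ f ∈ jac W) (μ : ℚ) {r : R} {ρ : Hat Q}
    (hρ : π ρ = r • (1 : A)) (x : A) :
    π (part lam μ ρ) * x = x * π (part lam μ ρ) := by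
  obtain ⟨f, rfl⟩ := h.surj x
  rw [← sub_eq_zero]
  apply h.sep
  intro n
  obtain ⟨k, hk⟩ := h.MA_of_fil n
  obtain ⟨S, hS, -⟩ := part_conv lam f k
  have hhom : ∀ ν, π (part lam μ ρ) * π (part lam ν f) =
      π (part lam ν f) * π (part lam μ ρ) := by
    intro ν
    have hg : part lam ν (part lam ν f) = part lam ν f := by rw [part_part, if_pos rfl]
    have e1 := part_mul_right hg (μ + ν) ρ
    have e2 := part_mul_left hg (μ + ν) ρ
    rw [add_sub_cancel_right] at e1 e2
    rw [← map_mul, ← map_mul, ← e1, ← e2]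
    apply gra_L0 h hJ
    rw [map_mul, map_mul, hρ, smul_mul_assoc, one_mul, mul_smul_comm, mul_one]
  have h3 : π (part lam μ ρ) * π f - π f * π (part lam μ ρ) =
      π (part lam μ ρ) * π (f - ∑ ν ∈ S, part lam ν f) -
        π (f - ∑ ν ∈ S, part lam ν f) * π (part lam μ ρ) := by
    have h4 : π (part lam μ ρ) * π (∑ ν ∈ S, part lam ν f) =
        π (∑ ν ∈ S, part lam ν f) * π (part lam μ ρ) := by
      rw [map_sum, Finset.mul_sum, Finset.sum_mul]
      exact Finset.sum_congr rfl fun ν _ => hhom ν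
    rw [map_sub, mul_sub, sub_mul, h4]
    abel
  rw [h3]
  exact (MA R A n).sub_mem (MA_mul_left _ (hk _ hS)) (MA_mul_right _ (hk _ hS))

theorem Mdl.exists_grd (h : Mdl R o W π) (lam : E → ℚ)
    (hJ : ∀ f ∈ jac W, ∀ μ, part lam μ f ∈ jac W) :
    ∃ (cA : ℚ → A →ₗ[ℂ] A) (cR : ℚ → R →ₗ[ℂ] R), Grd π lam cA cR := by
  classical
  let s : A → Hat Q := Function.surjInv h.surj
  have hs : ∀ x, π (s x) = x := Function.surjInv_eq h.surj
  let cA : ℚ → A →ₗ[ℂ] A := fun μ =>
    { toFun := fun x => π (part lam μ (s x))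
      map_add' := by
        intro x y
        rw [← map_add π, ← map_add (part lam μ)]
        exact gra_L0 h hJ μ (by rw [hs, map_add, hs, hs])
      map_smul' := by
        intro c x
        rw [RingHom.id_apply, ← map_smul π, ← map_smul (part lam μ)]
        exact gra_L0 h hJ μ (by rw [hs, map_smul, hs]) }
  have hcA : ∀ μ f, cA μ (π f) = π (part lam μ f) := fun μ f => gra_L0 h hJ μ (hs (π f))
  have hex : ∀ (μ : ℚ) (r : R), ∃ r' : R, cA μ (r • (1 : A)) = r' • (1 : A) := by
    intro μ r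
    obtain ⟨ρ, hρ⟩ := h.surj (r • (1 : A))
    apply h.cen
    intro x
    rw [← hρ, hcA]
    exact gra_cen h hJ μ hρ x
  choose cR0 hcR0 using hex
  let cR : ℚ → R →ₗ[ℂ] R := fun μ =>
    { toFun := cR0 μ
      map_add' := by
        intro a b
        apply gra_inj h
        rw [← hcR0, add_smul, map_add, hcR0, hcR0, add_smul]
      map_smul' := by
        intro c r
        apply gra_inj h
        rw [RingHom.id_apply, ← hcR0, smul_assoc, map_smul, hcR0, smul_assoc] }
  have hcR : ∀ (μ : ℚ) (r : R), cA μ (r • (1 : A)) = cR μ r • (1 : A) := hcR0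
  have hsmul : ∀ (μ ν : ℚ) (r : R) (x : A), cR ν r = r →
      cA μ (r • x) = r • cA (μ - ν) x := by
    intro μ ν r x hr
    obtain ⟨ρ, hρ⟩ := h.surj (r • (1 : A))
    obtain ⟨g, rfl⟩ := h.surj x
    have h1 : π (part lam ν ρ) = r • (1 : A) := by rw [← hcA, hρ, hcR, hr]
    have h2 : part lam ν (part lam ν ρ) = part lam ν ρ := by rw [part_part, if_pos rfl]
    have h3 : r • π g = π (part lam ν ρ * g) := by rw [map_mul, h1, smul_mul_assoc, one_mul]
    rw [h3, hcA, part_mul_left h2, map_mul, h1, smul_mul_assoc, one_mul, hcA]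
  refine ⟨cA, cR, hcA, hcR, hsmul, ?_, ?_, ?_, ?_, ?_⟩
  · intro μ r hr
    obtain ⟨f, hf⟩ := h.surj (r • (1 : A))
    have h1 : π f ∈ MA R A 1 := by
      rw [hf]
      unfold MA
      rw [pow_one]
      exact Submodule.smul_mem_smul hr Submodule.mem_top
    have h2 := h.fil_of_MA h1
    have h3 : part lam μ f ∈ Fil Q 1 := part_Fil h2
    by_contra hc
    have hu : IsUnit (cR μ r) := by
      by_contra hu
      exact hc ((IsLocalRing.mem_maximalIdeal _).2 hu)
    obtain ⟨u, hu⟩ := hu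
    obtain ⟨ρ, hρ, hρ2⟩ := h.exists_lift_smul ((u⁻¹ : Rˣ) : R)
    apply h.idem_not (mul_mem_Fil_right (idem Q o) (mul_mem_Fil_left ρ h3)) o
    rw [map_mul, hρ2, ← hcA, hf, hcR, ← hu, smul_smul, Units.inv_mul, one_smul, one_mul]
  · intro n r
    obtain ⟨f, hf⟩ := h.surj (r • (1 : A))
    obtain ⟨k, hk⟩ := h.MA_of_fil n
    obtain ⟨S, hS, hS2⟩ := part_conv lam f k
    refine ⟨S, ?_, fun μ hμ => ?_⟩
    · apply h.max_pow
      have h1 : (r - ∑ μ ∈ S, cR μ r) • (1 : A) = π (f - ∑ μ ∈ S, part lam μ f) := by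
        rw [sub_smul, Finset.sum_smul, map_sub, map_sum, hf]
        congr 1
        exact Finset.sum_congr rfl fun μ _ => by rw [← hcA, hf, hcR]
      rw [h1]
      exact hk _ hS
    · apply h.max_pow
      rw [← hcR, ← hf, hcA]
      exact hk _ (hS2 μ hμ)
  · intro μ ν r
    apply gra_inj h
    obtain ⟨f, hf⟩ := h.surj (r • (1 : A))
    rw [← hcR, ← hcR, ← hf, hcA, hcA, part_part]
    split_ifs
    · rw [← hcA, hf, hcR]
    · rw [map_zero, zero_smul]
  · intro μ ν r s hr
    apply gra_inj h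
    rw [← hcR, mul_smul, hsmul μ ν r _ hr, hcR, mul_smul]
  · apply gra_inj h
    have h1 : part lam 0 (1 : Hat Q) = 1 := by
      rw [← sum_idem, map_sum]
      exact Finset.sum_congr rfl fun v _ => part_idem lam v
    rw [← hcR, one_smul, ← map_one π, hcA, h1]

/-- products with homogeneous elements of `A` -/
theorem Grd.mul_right (h : Mdl R o W π) {lam : E → ℚ} {cA : ℚ → A →ₗ[ℂ] A} {cR : ℚ → R →ₗ[ℂ] R}
    (hG : Grd π lam cA cR) {ν : ℚ} {g : Hat Q} (hg : part lam ν g = g) (μ : ℚ) (x : A) :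
    cA μ (x * π g) = cA (μ - ν) x * π g := by
  obtain ⟨f, rfl⟩ := h.surj x
  rw [← map_mul, hG.pi, hG.pi, part_mul_right hg, map_mul]

theorem Grd.mul_left (h : Mdl R o W π) {lam : E → ℚ} {cA : ℚ → A →ₗ[ℂ] A} {cR : ℚ → R →ₗ[ℂ] R}
    (hG : Grd π lam cA cR) {ν : ℚ} {g : Hat Q} (hg : part lam ν g = g) (μ : ℚ) (x : A) :
    cA μ (π g * x) = π g * cA (μ - ν) x := by
  obtain ⟨f, rfl⟩ := h.surj x
  rw [← map_mul, hG.pi, hG.pi, part_mul_left hg, map_mul]

theorem Grd.smul_idem (h : Mdl R o W π) {lam : E → ℚ} {cA : ℚ → A →ₗ[ℂ] A} {cR : ℚ → R →ₗ[ℂ] R}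
    (hG : Grd π lam cA cR) (μ : ℚ) (r : R) (i : V) :
    cA μ (r • π (idem Q i)) = cR μ r • π (idem Q i) := by
  have h1 : r • π (idem Q i) = (r • (1 : A)) * π (idem Q i) := by
    rw [smul_mul_assoc, one_mul]
  rw [h1, Grd.mul_right h hG (part_idem lam i), sub_zero, hG.one, smul_mul_assoc, one_mul]

end Pool.Agent.Flop
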