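import Pool.Agent.Lib.FlA.CtI
import Pool.Agent.Lib.FlA.GrA

/-!
# GrZ: central elements of positive weight are in the ideal of the trivial vertex if all closed paths have weight at most zero

Take t with π t = r • 1 (h.surj). t' := part lam μ t: π t' = cA μ (π t) = cA μ (r • 1) = cR μ r • 1 = r • 1 (hG.pi, hG.one, hr). For i ≠ j: π (idem i * t' * idem j) = r • π (idem i * idem j) = 0; so with t'' := cpart t' = ∑ i, idem i * t' * idem i: π t'' = r • 1 (1 = ∑ idem i; there are lemmas sum_idem / one_eq_sum in the library; Hat.ext_cf and cf_cpart, cf_mul_idem, cf_idem_mul for the formula of cpart). res o t'' = 0: its coefficient at (i, j, l) is t''.cf i.1 j.1 (l.map val), zero unless i = j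
and (t ≠ 0 coefficient and) the sum of lam over l.map val is μ > 0 (cf_part) and l.map val is a path from i to i (Hat.cf_path): for l = [] the sum is 0 ≠ μ, for l ≠ [] hcl gives sum ≤ 0 < μ. So h.contr_iff: res o t'' = 0 ∈ jac gives π t'' ∈ span.
-/

set_option autoImplicit false

namespace Pool.Agent.Flop

open Finset

variable {V E : Type} [Fintype V] [DecidableEq V] [DecidableEq E] [Fintype E] {Q : Qv V E}
variable {R A : Type} [CommRing R] [IsLocalRing R] [IsNoetherianRing R] [Algebra ℂ R] [Ring A]
  [Algebra ℂ A] [Algebra R A] [IsScalarTower ℂ R A] {o : V} {W : Hat Q} {π : Hat Q →ₐ[ℂ] A}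

omit [Fintype E] in
private theorem grz_idem (v : V) : idem Q v * idem Q v = idem Q v := by
  apply Hat.ext_cf
  intro i j l
  rw [cf_idem_mul]
  by_cases h : i = v
  · rw [if_pos h]
  · rw [if_neg h, cf_idem, if_neg (fun h' => h h'.1)]

omit [Fintype E] in
private theorem grz_cpart (f : Hat Q) : cpart f = ∑ i, idem Q i * f * idem Q i := by
  apply Hat.ext_cf
  intro p q l
  rw [cf_cpart, Hat.cf_sum]
  simp only [cf_mul_idem, cf_idem_mul]
  rw [Finset.sum_eq_single p]
  · rw [if_pos rfl]
    by_cases h : p = q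
    · rw [if_pos h, if_pos h.symm]
    · rw [if_neg h, if_neg (fun h' => h h'.symm)]
  · intro i _ hi
    rw [if_neg (fun h' : p = i => hi h'.symm), ite_self]
  · intro h
    exact absurd (Finset.mem_univ p) h

theorem Mdl.smul_mem_span (h : Mdl R o W π) {lam : E → ℚ} {cA : ℚ → A →ₗ[ℂ] A}
    {cR : ℚ → R →ₗ[ℂ] R} (hG : Grd π lam cA cR)
    (hcl : ∀ (i : V) (l : List E), l ≠ [] → (∀ a ∈ l, Q.src a ≠ o ∧ Q.tgt a ≠ o) →
      Q.IsPath i l i → (l.map lam).sum ≤ 0) {r : R} {μ : ℚ} (hμ : 0 < μ) (hr : cR μ r = r) :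
    r • (1 : A) ∈ TwoSidedIdeal.span {π (idem Q o)} := by
  obtain ⟨t, ht⟩ := h.surj (r • (1 : A))
  have h1 : π (part lam μ t) = r • (1 : A) := by rw [← hG.pi, ht, hG.one, hr]
  have h2 : π (cpart (part lam μ t)) = r • (1 : A) := by
    rw [grz_cpart, map_sum]
    have h3 : ∀ i : V, π (idem Q i * part lam μ t * idem Q i) = r • π (idem Q i) := by
      intro i
      rw [map_mul, map_mul, h1, mul_smul_comm, mul_one, smul_mul_assoc, ← map_mul, grz_idem]
    rw [Finset.sum_congr rfl fun i _ => h3 i, ← Finset.smul_sum, ← map_sum, sum_idem, map_one]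
  rw [← h2, h.contr_iff]
  have h4 : res o (cpart (part lam μ t)) = 0 := by
    apply Hat.ext_cf
    intro i j l
    rw [cf_res, cf_cpart]
    by_contra hc
    have hc' : (if i.1 = j.1 then (part lam μ t).cf i.1 j.1 (l.map Subtype.val) else 0) ≠ 0 :=
      fun h' => hc (by rw [h']; rfl)
    split_ifs at hc' with hij
    · rw [cf_part] at hc'
      split_ifs at hc' with hs
      · have hp := t.cf_path hc'
        rw [← hij] at hp
        by_cases hl : l = []
        · rw [hl] at hs
          simp at hs
          exact hμ.ne hs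
        · have h5 := hcl i.1 (l.map Subtype.val) (fun h' => hl (List.map_eq_nil_iff.1 h')) (by
            intro a ha
            obtain ⟨b, _, rfl⟩ := List.mem_map.1 ha
            exact b.2) hp
          rw [hs] at h5
          exact absurd h5 (not_le.2 hμ)
      · exact hc' rfl
    · exact hc' rfl
  rw [h4]
  exact Submodule.zero_mem _

end Pool.Agent.Flop
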