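import Pool.Agent.Lib.FlA.Jor2
import Pool.Agent.Lib.MP_03045c_ag.NEig1
import Pool.Agent.Lib.MP_03045c_ag.NLoc

/-!
# Jor3: arrows which are generalized eigenvectors

Replace D by D' = σ.symm ∘ D ∘ σ (IsDer.conj with aut_Fil) for σ = σ1 of exists_lin_gen: (D' - κ a)^N (arr a) in Fil 2. Now follow the proof of `exists_eigen_arrows` (Pool/Agent/Lib/MP_03045c_ag/NEig1.lean): P a = projection of exists_isProj (Proj2; lcF) for D' and κ a;
c a := P_{κ a} (arr a): c a in Gen (κ a) (mem), e_{src a} c a e_{tgt a} = c a (P commutes with the continuous operators x ↦ e_i x e_j which commute with D': `comm`), and c a - arr a in Fil 2: apply `eig`/`inv`-type facts to the closed D'-stable subspace Fil 2: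
arr a is in the generalized eigenspace modulo Fil 2: P (arr a) - arr a in Fil 2: [IsProj.pol and the following: let y = arr a, (D' - κ)^N y in Fil 2 =: X. By induction on N: the claim for all y with (D' - κ)^N y in X: P y - y in X. N = 0: y in X, P y in X (inv, X closed). Step: y' = (D' - κ) y
has (D' - κ)^(N-1) y' in X, so z := y - P y satisfies (D' - κ) z = y' - P y' in X (P commutes with D'), so D' z - κ z in X, and by eig z - P z in X, P z = P y - P (P y) = 0 (fix, mem).] exists_aut (NAut) gives σ2 with σ2 (arr a) = c a. σ = σ1 * σ2 (first σ2 then σ1: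
σ x = σ1 (σ2 x)); σ.symm D σ = σ2.symm D' σ2, and arr a in Gen for it since σ2 (arr a) = c a in Gen (Fil Q) D' (κ a) and σ2.symm preserves Fil (as in NEig1).
-/

set_option autoImplicit false

namespace Pool.Agent.Flop

open Finset

variable {V E : Type} [Fintype V] [DecidableEq V] [DecidableEq E] {Q : Qv V E}

/-- A variant of `exists_eigen_arrows` (NEig1): the arrows are generalized eigenvectors modulo
`Fil Q 2`. -/
private theorem jor_gen_aux [Fintype E] {D : Hat Q →ₗ[ℂ] Hat Q} (hD : IsDer D) (κ : E → ℂ)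
    (h : ∀ a, ∃ N : ℕ, (((D : Module.End ℂ (Hat Q)) -
        κ a • (1 : Module.End ℂ (Hat Q))) ^ N) (arr Q a) ∈ Fil Q 2) :
    ∃ σ : Hat Q ≃ₐ[ℂ] Hat Q, (∀ v, σ (idem Q v) = idem Q v) ∧
      ∀ a, arr Q a ∈ Gen (Fil Q) (σ.symm.toLinearMap ∘ₗ D ∘ₗ σ.toLinearMap) (κ a) := by
  have hP : ∀ a, ∃ P : Hat Q →ₗ[ℂ] Hat Q, IsProj (Fil Q) D (κ a) P := fun a =>
    exists_isProj lcFil_Fil D hD.fil (κ a)
  choose P hP using hP
  have hgen : ∀ (a : E) (N : ℕ) (y : Hat Q), (((D : Module.End ℂ (Hat Q)) -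
      κ a • (1 : Module.End ℂ (Hat Q))) ^ N) y ∈ Fil Q 2 → P a y - y ∈ Fil Q 2 := by
    intro a N
    induction N with
    | zero =>
      intro y hy
      rw [pow_zero, Module.End.one_apply] at hy
      exact (Fil Q 2).sub_mem ((hP a).fil 2 y hy) hy
    | succ N ih =>
      intro y hy
      rw [pow_succ, Module.End.mul_apply] at hy
      have h1 := ih _ hy
      have hcomm : P a (D y) = D (P a y) :=
        (hP a).comm D hD.fil (fun x => rfl) y
      have h2 : ((D : Module.End ℂ (Hat Q)) - κ a • (1 : Module.End ℂ (Hat Q))) y =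
          D y - κ a • y := rfl
      rw [h2, map_sub, map_smul, hcomm] at h1
      have h3 : D (y - P a y) - κ a • (y - P a y) ∈ Fil Q 2 := by
        have e : D (y - P a y) - κ a • (y - P a y) =
            -(D (P a y) - κ a • P a y - (D y - κ a • y)) := by
          rw [map_sub, smul_sub]
          abel
        rw [e]
        exact (Fil Q 2).neg_mem h1
      obtain ⟨w, hw, hw2⟩ := (hP a).eig (Fil Q 2) (hD.fil 2) _ h3 2
      have h4 : P a (y - P a y) = 0 := by
        rw [map_sub, (hP a).fix _ ((hP a).mem y), sub_self]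
      rw [h4, sub_zero] at hw2
      have h5 := (Fil Q 2).add_mem hw2 hw
      have h6 := (Fil Q 2).neg_mem h5
      have e : -(y - P a y - w + w) = P a y - y := by abel
      rwa [e] at h6
  have hc : ∀ a, P a (arr Q a) - arr Q a ∈ Fil Q 2 := by
    intro a
    obtain ⟨N, hN⟩ := h a
    exact hgen a N _ hN
  have hp : ∀ a, idem Q (Q.src a) * P a (arr Q a) * idem Q (Q.tgt a) = P a (arr Q a) := by
    intro a
    let T : Hat Q →ₗ[ℂ] Hat Q :=
      (LinearMap.mulRight ℂ (idem Q (Q.tgt a))) ∘ₗ (LinearMap.mulLeft ℂ (idem Q (Q.src a)))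
    have hT : ∀ x, T x = idem Q (Q.src a) * x * idem Q (Q.tgt a) := fun x => rfl
    have h1 := (hP a).comm T (fun n x hx => by
      rw [hT]
      exact mul_mem_Fil_right _ (mul_mem_Fil_left _ hx)) (fun x => by
      rw [hT, hT, hD.leib, hD.leib, hD.idem, hD.idem]
      simp) (arr Q a)
    rw [hT, idem_mul_arr, arr_mul_idem, hT] at h1
    exact h1.symm
  obtain ⟨σ, h1, h2, h3, h4⟩ := exists_aut (fun a => P a (arr Q a)) hp hc
  refine ⟨σ, h1, fun a n => ?_⟩
  obtain ⟨N, hN⟩ := (hP a).mem (arr Q a) n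
  refine ⟨N, ?_⟩
  have key : ∀ (N : ℕ) (y : Hat Q),
      (((σ.symm.toLinearMap ∘ₗ D ∘ₗ σ.toLinearMap) - κ a • (1 : Module.End ℂ (Hat Q))) ^ N) y =
        σ.symm (((D - κ a • (1 : Module.End ℂ (Hat Q))) ^ N) (σ y)) := by
    intro N y
    induction N with
    | zero => simp
    | succ N ih =>
      rw [pow_succ', pow_succ', Module.End.mul_apply, ih, Module.End.mul_apply]
      simp
  rw [key, h2]
  exact h4 n _ hN

theorem exists_gen_arrows [Fintype E] {D : Hat Q →ₗ[ℂ] Hat Q} (hD : IsDer D) :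
    ∃ (σ : Hat Q ≃ₐ[ℂ] Hat Q) (κ : E → ℂ), (∀ v, σ (idem Q v) = idem Q v) ∧
      ∀ a, arr Q a ∈ Gen (Fil Q) (σ.symm.toLinearMap ∘ₗ D ∘ₗ σ.toLinearMap) (κ a) := by
  obtain ⟨σ1, κ, hσ1, hN⟩ := exists_lin_gen hD
  have hσ1' : ∀ v, σ1.symm (idem Q v) = idem Q v := fun v => by
    rw [AlgEquiv.symm_apply_eq, hσ1]
  have hF : ∀ n, ∀ f ∈ Fil Q n, σ1 f ∈ Fil Q n := fun n f hf => aut_Fil σ1 hσ1 n f hf
  have hF' : ∀ n, ∀ f ∈ Fil Q n, σ1.symm f ∈ Fil Q n := fun n f hf =>
    aut_Fil σ1.symm hσ1' n f hf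
  have hD' : IsDer (σ1.symm.toLinearMap ∘ₗ D ∘ₗ σ1.toLinearMap) := IsDer.conj hD σ1 hσ1 hF hF'
  obtain ⟨σ2, hσ2, h2⟩ := jor_gen_aux hD' κ hN
  refine ⟨σ2.trans σ1, κ, fun v => ?_, fun a => ?_⟩
  · rw [AlgEquiv.trans_apply, hσ2, hσ1]
  · exact h2 a

end Pool.Agent.Flop
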