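import Pool.Agent.Lib.FlA.PrsB
import Pool.Agent.Lib.FlA.GrA

/-!
# HcG: gradings and presentations

`grd_pow`: cR μ (m^N) <= m^N: r in m^N: r = θ p, p in Od 4 N (max_pow), p = sum over |e| = N of X^e q_e (or induction on N: p in Od (N+1) is sum X_i q_i with q_i in Od N): r = sum θ(X_i) θ(q_i), cR μ (θ X_i * s) = θ X_i * cR (μ - l i) s (hG.mul, hl) in m * m^N. `grd`: for monomials X^e: θ(X^e) = prod θ(X_i)^{e_i} satisfies cR ν (θ X^e) = θ X^e for ν = sum e_i l_i
(hG.mul and hG.unit), so cR μ (θ (c • X^e)) = θ(..) if μ = ν, 0 otherwise (hG.idm) = θ (cpt l μ (c X^e)). Finite sums. For general p and N: p = polynomial + p', p' in Od 4 N: cR μ (θ p') in m^N (grd_pow), θ (cpt l μ p') in m^N. Krull (R Noetherian local): equality.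
-/

set_option autoImplicit false

namespace Pool.Agent.Flop

open Finset MvPowerSeries

variable {V E : Type} [Fintype V] [DecidableEq V] [DecidableEq E] [Fintype E] {Q : Qv V E}
variable {R A : Type} [CommRing R] [IsLocalRing R] [IsNoetherianRing R] [Algebra ℂ R] [Ring A]
  [Algebra ℂ A] [Algebra R A] {π : Hat Q →ₐ[ℂ] A}
  {g : MvPowerSeries (Fin 4) ℂ} {θ : MvPowerSeries (Fin 4) ℂ →ₐ[ℂ] R}

private theorem hcG_cpt_X (l : Fin 4 → ℚ) (μ : ℚ) (i : Fin 4) (q : MvPowerSeries (Fin 4) ℂ) :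
    cpt l μ (X i * q) = X i * cpt l (μ - l i) q := by
  classical
  ext e
  rw [coeff_cpt, X, coeff_monomial_mul, coeff_monomial_mul]
  by_cases h : Finsupp.single i 1 ≤ e
  · rw [if_pos h, if_pos h, coeff_cpt]
    have hw : ∑ j, e j • l j = ∑ j, (e - Finsupp.single i 1 : Fin 4 →₀ ℕ) j • l j + l i := by
      conv_lhs => rw [← tsub_add_cancel_of_le h]
      rw [Finset.sum_congr rfl (fun j _ => by rw [Finsupp.add_apply, add_smul]),
        Finset.sum_add_distrib]
      congr 1
      rw [Finset.sum_eq_single i]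
      · rw [Finsupp.single_eq_same, one_smul]
      · intro j _ hj
        rw [Finsupp.single_eq_of_ne hj, zero_smul]
      · intro hi
        exact absurd (Finset.mem_univ i) hi
    by_cases h2 : ∑ j, (e - Finsupp.single i 1 : Fin 4 →₀ ℕ) j • l j = μ - l i
    · rw [if_pos h2, if_pos (by rw [hw, h2, sub_add_cancel])]
    · rw [if_neg h2, if_neg (fun h3 => h2 (by rw [← h3, hw, add_sub_cancel_right])), mul_zero]
  · rw [if_neg h, if_neg h, ite_self]

private theorem hcG_cpt_C (l : Fin 4 → ℚ) (μ : ℚ) (c : ℂ) :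
    cpt l μ (C c) = if μ = 0 then C c else 0 := by
  classical
  ext e
  rw [coeff_cpt, coeff_C]
  by_cases he : e = 0
  · subst he
    have hw : ∑ i, (0 : Fin 4 →₀ ℕ) i • l i = 0 :=
      Finset.sum_eq_zero fun i _ => by rw [Finsupp.coe_zero, Pi.zero_apply, zero_smul]
    rw [if_pos rfl, hw]
    by_cases hμ : μ = 0
    · rw [if_pos hμ.symm, if_pos hμ, coeff_C, if_pos rfl]
    · rw [if_neg (Ne.symm hμ), if_neg hμ, map_zero]
  · rw [if_neg he, ite_self]
    split_ifs
    · rw [coeff_C, if_neg he]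
    · rw [map_zero]

theorem Grd.theta (hp : Prs g θ) {lam : E → ℚ} {cA : ℚ → A →ₗ[ℂ] A} {cR : ℚ → R →ₗ[ℂ] R}
    (hG : Grd π lam cA cR) {l : Fin 4 → ℚ} (hl : ∀ i, cR (l i) (θ (X i)) = θ (X i)) (μ : ℚ)
    (p : MvPowerSeries (Fin 4) ℂ) : cR μ (θ p) = θ (cpt l μ p) := by
  have hX : ∀ i, θ (X i) ∈ IsLocalRing.maximalIdeal R := fun i =>
    (hp.mem_max _).2 (constantCoeff_X i)
  have key : ∀ N : ℕ, ∀ (μ : ℚ) (p : MvPowerSeries (Fin 4) ℂ),
      cR μ (θ p) - θ (cpt l μ p) ∈ IsLocalRing.maximalIdeal R ^ N := by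
    intro N
    induction N with
    | zero =>
      intro μ p
      rw [pow_zero, Ideal.one_eq_top]
      exact Submodule.mem_top
    | succ N ih =>
      intro μ p
      have h1 : p - C (constantCoeff p) ∈ Od 4 1 := by
        rw [mem_Od_one, map_sub, constantCoeff_C, sub_self]
      rw [← span_X, Ideal.mem_span_range_iff_exists_fun] at h1
      obtain ⟨q, hq⟩ := h1
      have hpe : p = C (constantCoeff p) + ∑ i, X i * q i := by
        have : ∑ i, (X i : MvPowerSeries (Fin 4) ℂ) * q i = ∑ i, q i * X i :=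
          Finset.sum_congr rfl fun i _ => mul_comm _ _
        rw [this, hq, add_sub_cancel]
      have hC : cR μ (θ (C (constantCoeff p))) = θ (cpt l μ (C (constantCoeff p))) := by
        have e1 : (C (constantCoeff p) : MvPowerSeries (Fin 4) ℂ) =
            constantCoeff p • (1 : MvPowerSeries (Fin 4) ℂ) := by
          rw [MvPowerSeries.smul_eq_C_mul, mul_one]
        have e2 : cR μ (1 : R) = if μ = 0 then 1 else 0 := by
          rw [← hG.unit, hG.idm]
        rw [hcG_cpt_C, e1, map_smul θ, map_one, map_smul, e2]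
        split_ifs
        · rw [map_smul, map_one]
        · rw [smul_zero, map_zero]
      have hs : cR μ (θ p) - θ (cpt l μ p) = ∑ i, θ (X i) *
          (cR (μ - l i) (θ (q i)) - θ (cpt l (μ - l i) (q i))) := by
        conv_lhs => rw [hpe]
        rw [map_add, map_add, map_add, map_add, hC, add_sub_add_left_eq_sub, map_sum, map_sum,
          map_sum, map_sum, ← Finset.sum_sub_distrib]
        refine Finset.sum_congr rfl fun i _ => ?_
        rw [hcG_cpt_X, map_mul θ, map_mul θ, hG.mul μ (l i) _ _ (hl i), mul_sub]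
      rw [hs, pow_succ']
      exact Ideal.sum_mem _ fun i _ => Ideal.mul_mem_mul (hX i) (ih _ _)
  have hz : cR μ (θ p) - θ (cpt l μ p) ∈ (⨅ N : ℕ, IsLocalRing.maximalIdeal R ^ N : Ideal R) :=
    (Submodule.mem_iInf _).2 fun N => key N μ p
  rw [Ideal.iInf_pow_eq_bot_of_isLocalRing _ Ideal.IsPrime.ne_top', Ideal.mem_bot] at hz
  exact sub_eq_zero.1 hz

end Pool.Agent.Flop
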