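import Pool.Agent.Lib.FlA.KszW1
import Pool.Agent.Lib.FlA.HcG

/-!
# KszW2: the weight formula

L = sum l. ξ from exists_cycle, ξ i = cR (L - w - l i) (θ (q i)) = θ (p i) with p i = cpt l (L - w - l i) (q i) homogeneous of weight L - w - l i (Grd.theta). sum_i X_i * p i is homogeneous of weight L - w and in ker θ: = φ0 * f; take the part of weight L - w: sum X_i p i = φ * f with φ = cpt l (L - w - hh) φ0 (cpt of φ0 * f: f homogeneous of weight hh: coefficient comparison).
Suppose L - w - hh <> 0: then constantCoeff φ = 0 (the exponent 0 has weight 0), φ = sum_j X_j φ_j, f = sum_i X_i f_i (exists_sum_X_mul in QuotDer, constantCoeff f = 0). So sum_i X_i (p i - φ f_i) = 0: hypothesis hX (KEx for the variables on P, p = 1, c {i} = p i - φ f_i, c = 0 otherwise; kd_empty): p i - φ f_i = kd X b {i}. Apply θ: ξ i - θ φ * θ f_i = kd x (θ ∘ b) {i}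
(x j = θ X_j; kd is a sum with integer signs). And c' {i} := θ f_i (0 on the other sets): kd x c' ∅ = sum x_i θ f_i = θ f = 0; with y j := θ φ_j: kd_kh at S = {i}: kd x (kh y c') {i} + kh y (kd x c') {i} = (sum y_j x_j) • c' {i} = θ φ * θ f_i, and kh y (kd x c') {i} = ± y_i * kd x c' ∅ = 0. So ξ i = kd x (θ ∘ b + kh y c') {i} for all i: contradiction to the third property of ξ.
-/

set_option autoImplicit false

namespace Pool.Agent.Flop

open Finset MvPowerSeries

variable {V E : Type} [Fintype V] [DecidableEq V] [DecidableEq E] [Fintype E] {Q : Qv V E}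
variable {R A : Type} [CommRing R] [IsLocalRing R] [IsNoetherianRing R] [Algebra ℂ R] [Ring A]
  [Algebra ℂ A] [Algebra R A] [IsScalarTower ℂ R A] {o : V} {W : Hat Q} {π : Hat Q →ₐ[ℂ] A}

private theorem kw_cpt_mul {n : ℕ} {l : Fin n → ℚ} {hh : ℚ} {f : MvPowerSeries (Fin n) ℂ}
    (hf : IsHg l hh f) (μ : ℚ) (g : MvPowerSeries (Fin n) ℂ) :
    cpt l μ (f * g) = f * cpt l (μ - hh) g := by
  ext e
  rw [coeff_cpt, coeff_mul, coeff_mul]
  have key : ∀ x ∈ Finset.HasAntidiagonal.antidiagonal e,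
      coeff x.1 f * coeff x.2 (cpt l (μ - hh) g) =
        if ∑ i, e i • l i = μ then coeff x.1 f * coeff x.2 g else 0 := by
    intro x hx
    rw [Finset.HasAntidiagonal.mem_antidiagonal] at hx
    rw [coeff_cpt]
    by_cases h0 : coeff x.1 f = 0
    · rw [h0, zero_mul, zero_mul, ite_self]
    · have h1 := hf x.1 h0
      have h2 : ∑ i, e i • l i = hh + ∑ i, x.2 i • l i := by
        rw [← h1, ← Finset.sum_add_distrib, ← hx]
        refine Finset.sum_congr rfl fun i _ => ?_
        rw [Finsupp.add_apply, add_smul]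
      by_cases h3 : ∑ i, e i • l i = μ
      · rw [if_pos h3, if_pos (by rw [← h3, h2]; ring)]
      · rw [if_neg h3, if_neg (fun h4 => h3 (by rw [h2, h4]; ring)), mul_zero]
  rw [Finset.sum_congr rfl key]
  split_ifs with h
  · rfl
  · exact Finset.sum_const_zero.symm

private theorem kw_X {n : ℕ} (l : Fin n → ℚ) (i : Fin n) :
    IsHg l (l i) (X i : MvPowerSeries (Fin n) ℂ) := by
  classical
  intro e he
  rw [coeff_X] at he
  have h1 : e = Finsupp.single i 1 := by
    by_contra hc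
    exact he (if_neg hc)
  subst h1
  rw [Finset.sum_eq_single i]
  · rw [Finsupp.single_eq_same, one_smul]
  · intro j _ hj
    rw [Finsupp.single_eq_of_ne hj, zero_smul]
  · intro h
    exact absurd (Finset.mem_univ i) h

private theorem kw_cpt_cpt {n : ℕ} (l : Fin n → ℚ) (μ : ℚ) (g : MvPowerSeries (Fin n) ℂ) :
    cpt l μ (cpt l μ g) = cpt l μ g := by
  ext e
  rw [coeff_cpt, coeff_cpt]
  split_ifs <;> rfl

/-- families on the one-element sets -/
private def kwF {M : Type} [AddCommMonoid M] (g : Fin 4 → M) : Finset (Fin 4) → M := fun S =>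
  ∑ i, if S = {i} then g i else 0

private theorem kwF_single {M : Type} [AddCommMonoid M] (g : Fin 4 → M) (i : Fin 4) :
    kwF g {i} = g i := by
  unfold kwF
  rw [Finset.sum_eq_single i]
  · exact if_pos rfl
  · intro j _ hj
    exact if_neg (fun h => hj (Finset.singleton_injective h).symm)
  · intro h
    exact absurd (Finset.mem_univ i) h

theorem Mdl.weight_formula (h : Mdl R o W π)
    (hX : KEx (fun i : Fin 4 => (X i : MvPowerSeries (Fin 4) ℂ)) (MvPowerSeries (Fin 4) ℂ) 1)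
    {lam : E → ℚ} {w : ℚ}
    (hW : ∀ i l, W.cf i i l ≠ 0 → (l.map lam).sum = w) {cA : ℚ → A →ₗ[ℂ] A} {cR : ℚ → R →ₗ[ℂ] R}
    (hG : Grd π lam cA cR) {f : MvPowerSeries (Fin 4) ℂ} {θ : MvPowerSeries (Fin 4) ℂ →ₐ[ℂ] R}
    (hp : Prs f θ) {l : Fin 4 → ℚ} (hl : ∀ i, cR (l i) (θ (X i)) = θ (X i)) {hh : ℚ}
    (hf : IsHg l hh f) : ∑ i, l i - hh = w := by
  obtain ⟨ξ, h1, h2, h3⟩ := h.exists_cycle hW hG hp hl
  choose r hr using h2
  choose q hq using fun i => hp.surj (r i)
  by_contra hne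
  set p : Fin 4 → MvPowerSeries (Fin 4) ℂ := fun i => cpt l (∑ j, l j - w - l i) (q i) with hpdef
  have hpξ : ∀ i, θ (p i) = ξ i := by
    intro i
    rw [hr i, ← hq i, hG.theta hp hl]
  have hS : θ (∑ i, X i * p i) = 0 := by
    rw [map_sum, ← h1]
    exact Finset.sum_congr rfl fun i _ => by rw [map_mul, hpξ]
  obtain ⟨φ₀, hφ₀⟩ := (hp.ker _).1 hS
  set φ := cpt l (∑ j, l j - w - hh) φ₀ with hφ
  have hSφ : ∑ i, X i * p i = f * φ := by
    have e1 : cpt l (∑ j, l j - w) (∑ i, X i * p i) = ∑ i, X i * p i := by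
      rw [map_sum]
      refine Finset.sum_congr rfl fun i _ => ?_
      rw [kw_cpt_mul (kw_X l i), hpdef]
      beta_reduce
      rw [kw_cpt_cpt]
    rw [← e1, hφ₀, kw_cpt_mul hf]
  have hφ0 : constantCoeff φ = 0 := by
    have e1 : coeff 0 φ = 0 := by
      rw [hφ, coeff_cpt, if_neg]
      intro e2
      apply hne
      have e3 : ∑ i : Fin 4, ((0 : Fin 4 →₀ ℕ) i) • l i = 0 := by
        refine Finset.sum_eq_zero fun i _ => ?_
        rw [Finsupp.coe_zero, Pi.zero_apply, zero_smul]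
      rw [e3] at e2
      linarith
    rw [coeff_zero_eq_constantCoeff_apply] at e1
    exact e1
  have hf0 : constantCoeff f = 0 := mem_Od_one.mp (Od_anti one_le_two hp.two)
  obtain ⟨Φ, hΦ⟩ := exists_sum_X_mul φ
  obtain ⟨F, hF⟩ := exists_sum_X_mul f
  rw [hφ0, map_zero, zero_add] at hΦ
  rw [hf0, map_zero, zero_add] at hF
  have hker : ∑ i, X i * (p i - φ * F i) = 0 := by
    have e1 : ∑ i, X i * (p i - φ * F i) = ∑ i, X i * p i - φ * ∑ i, X i * F i := by
      rw [Finset.mul_sum, ← Finset.sum_sub_distrib]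
      exact Finset.sum_congr rfl fun i _ => by ring
    rw [e1, ← hF, hSφ]
    ring
  obtain ⟨b, hb⟩ := hX (kwF fun i => p i - φ * F i) (by
    intro S hS1
    have e1 : S = ∅ := Finset.card_eq_zero.1 (by omega)
    rw [e1, kd_empty, ← hker]
    refine Finset.sum_congr rfl fun i _ => ?_
    rw [kwF_single, smul_eq_mul])
  have hb1 : ∀ i, p i - φ * F i = kd (fun i : Fin 4 => (X i : MvPowerSeries (Fin 4) ℂ)) b {i} := by
    intro i
    rw [← hb {i} (Finset.card_singleton i), kwF_single]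
  have hb2 : ∀ i, ξ i - θ φ * θ (F i) = kd (fun i : Fin 4 => θ (X i)) (fun T => θ (b T)) {i} := by
    intro i
    rw [← hpξ, ← map_mul, ← map_sub, hb1 i]
    unfold kd
    rw [map_sum]
    refine Finset.sum_congr rfl fun j _ => ?_
    rw [map_zsmul, smul_eq_mul, smul_eq_mul, map_mul]
  have hθf : θ f = 0 := (hp.ker f).2 dvd_rfl
  have hc0 : kd (fun i : Fin 4 => θ (X i)) (kwF fun i => θ (F i)) ∅ = 0 := by
    rw [kd_empty, ← hθf]
    conv_rhs => rw [hF, map_sum]
    refine Finset.sum_congr rfl fun i _ => ?_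
    rw [kwF_single, smul_eq_mul, map_mul]
  apply h3
  refine ⟨fun T => θ (b T) + kh (fun j => θ (Φ j)) (kwF fun i => θ (F i)) T, fun i => ?_⟩
  rw [kd_add, ← hb2 i]
  have e1 := kd_kh (fun i : Fin 4 => θ (X i)) (fun j => θ (Φ j)) (kwF fun i => θ (F i)) {i}
  have e2 : kh (fun j => θ (Φ j)) (kd (fun i : Fin 4 => θ (X i)) (kwF fun i => θ (F i))) {i} =
      0 := by
    unfold kh
    rw [Finset.sum_singleton]
    have e3 : ({i} : Finset (Fin 4)).erase i = ∅ := by
      rw [Finset.erase_singleton]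
    rw [e3, hc0, smul_zero, smul_zero]
  rw [e2, add_zero, kwF_single] at e1
  have e4 : ∑ j, θ (Φ j) * θ (X j) = θ φ := by
    rw [hΦ, map_sum]
    exact Finset.sum_congr rfl fun j _ => by rw [map_mul, mul_comm]
  rw [e1, e4, smul_eq_mul]
  ring

end Pool.Agent.Flop
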