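import Pool.Agent.Lib.FlA.Def2

/-!
# SDer: existence of shift derivations

`exists_hom` (NHom) for B = TrivSqZeroExt (Hat Q) (Hat Q) with the filtration F n = Fil n x Fil (n - 1) (natural subtraction), exactly as in the proof of `exists_der` in Pool/Agent/Lib/MP_03045c_ag/NDer.lean (copy and adapt; there the filtration is Fil n x Fil n).
CFilt: anti ok; mul: (x, y) in F m, (x', y') in F n: x x' in Fil (m + n), x y' + y x' in Fil (m + n - 1): x in Fil m, y' in Fil (n - 1): product in Fil (m + (n - 1)), m + (n - 1) >= m + n - 1; and for y x' in Fil ((m - 1) + n). sep: shift the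
index. lim: first component Fil_lim; second: the sequence s' n = (s (n + 1)).snd satisfies s' (n+1) - s' n in Fil n; limit y with y - s' n in Fil n, and (s (n)).snd: y - (s n).snd in Fil (n - 1) (n = 0: Fil 0 = top;
n = k + 1: s' k). ε v = inl (idem v), c a ↦ (arr a, c a) in F 1. The second component of the resulting hom is D: D (fg) = D f * g + f * D g, D maps Fil (n+1) to Fil n. Linear since the hom is ℂ-linear.
-/

/-!
# SDer: existence of shift derivations

`exists_hom` (NHom) for B = TrivSqZeroExt (Hat Q) (Hat Q) with the filtration F n = Fil n x Fil (n - 1) (natural subtraction), exactly as in the proof of `exists_der` in Pool/Agent/Lib/MP_03045c_ag/NDer.lean (copy and adapt; there the filtration is Fil n x Fil n).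
CFilt: anti ok; mul: (x, y) in F m, (x', y') in F n: x x' in Fil (m + n), x y' + y x' in Fil (m + n - 1): x in Fil m, y' in Fil (n - 1): product in Fil (m + (n - 1)), m + (n - 1) >= m + n - 1; and for y x' in Fil ((m - 1) + n). sep: shift the
index. lim: first component Fil_lim; second: the sequence s' n = (s (n + 1)).snd satisfies s' (n+1) - s' n in Fil n; limit y with y - s' n in Fil n, and (s (n)).snd: y - (s n).snd in Fil (n - 1) (n = 0: Fil 0 = top;
n = k + 1: s' k). ε v = inl (idem v), c a ↦ (arr a, c a) in F 1. The second component of the resulting hom is D: D (fg) = D f * g + f * D g, D maps Fil (n+1) to Fil n. Linear since the hom is ℂ-linear.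
-/

set_option autoImplicit false

namespace Pool.Agent.Flop

open Finset

variable {V E : Type} [Fintype V] [DecidableEq V] [DecidableEq E] {Q : Qv V E}

private theorem sder_filt : CFilt (B := TrivSqZeroExt (Hat Q) (Hat Q))
    (fun n => Submodule.prod (Fil Q n) (Fil Q (n - 1))) where
  anti := fun n x hx => ⟨Fil_anti (Nat.le_succ n) hx.1, Fil_anti (by omega) hx.2⟩
  mul := by
    intro m n x y hx hy
    refine ⟨?_, ?_⟩
    · exact mul_mem_Fil hx.1 hy.1
    · have : (x * y).snd ∈ Fil Q (m + n - 1) := by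
        rw [TrivSqZeroExt.snd_mul, smul_eq_mul, MulOpposite.smul_eq_mul_unop,
          MulOpposite.unop_op]
        exact Submodule.add_mem _ (Fil_anti (by omega) (mul_mem_Fil hx.1 hy.2))
          (Fil_anti (by omega) (mul_mem_Fil hx.2 hy.1))
      exact this
  sep := by
    intro x hx
    have h1 : x.fst = 0 := Fil_sep fun n => (hx n).1
    have h2 : x.snd = 0 := Fil_sep fun n => (hx (n + 1)).2
    exact TrivSqZeroExt.ext h1 h2
  lim := by
    intro s hs
    obtain ⟨f, hf⟩ := Fil_lim (fun n => (s n).fst) fun n => (hs n).1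
    obtain ⟨g, hg⟩ := Fil_lim (fun n => (s (n + 1)).snd) fun n => (hs (n + 1)).2
    refine ⟨(f, g), fun n => ⟨hf n, ?_⟩⟩
    cases n with
    | zero => rw [show 0 - 1 = 0 from rfl, Fil_zero]; exact Submodule.mem_top
    | succ n => exact hg n

theorem exists_sder [Fintype E] (c : E → Hat Q)
    (hp : ∀ a, idem Q (Q.src a) * c a * idem Q (Q.tgt a) = c a) :
    ∃ D : Hat Q →ₗ[ℂ] Hat Q, IsSDer D ∧ ∀ a, D (arr Q a) = c a := by
  have hee : ∀ v, idem Q v * idem Q v = idem Q v := fun v => by
    rw [idem_mul_idem, if_pos rfl]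
  have hs : ∀ a, idem Q (Q.src a) * c a = c a := fun a => by
    conv_lhs => rw [← hp a]
    rw [← mul_assoc, ← mul_assoc, hee]
    exact hp a
  have ht : ∀ a, c a * idem Q (Q.tgt a) = c a := fun a => by
    conv_lhs => rw [← hp a]
    rw [mul_assoc, hee]
    exact hp a
  obtain ⟨φ, h1, h2, h3⟩ := exists_hom (Q := Q) (sder_filt (Q := Q))
    (fun v => TrivSqZeroExt.inl (idem Q v))
    (fun v => ⟨by rw [Fil_zero]; exact Submodule.mem_top, by
      rw [show 0 - 1 = 0 from rfl, Fil_zero]; exact Submodule.mem_top⟩)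
    (by
      rw [← TrivSqZeroExt.inl_sum, sum_idem]
      rfl)
    (by
      intro v w
      rw [← TrivSqZeroExt.inl_mul, idem_mul_idem]
      split_ifs
      · rfl
      · exact TrivSqZeroExt.inl_zero _)
    (fun a => TrivSqZeroExt.inl (arr Q a) + TrivSqZeroExt.inr (c a))
    (by
      intro a
      refine TrivSqZeroExt.ext ?_ ?_
      · simp [idem_mul_arr]
      · simp [hs])
    (by
      intro a
      refine TrivSqZeroExt.ext ?_ ?_
      · simp [arr_mul_idem]
      · simp [ht])
    (by
      intro a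
      refine ⟨?_, ?_⟩
      · have : (TrivSqZeroExt.inl (arr Q a) + TrivSqZeroExt.inr (c a) :
            TrivSqZeroExt (Hat Q) (Hat Q)).fst ∈ Fil Q 1 := by
          simpa using arr_mem_Fil a
        exact this
      · rw [show 1 - 1 = 0 from rfl, Fil_zero]
        exact Submodule.mem_top)
  have hfst : ∀ f, (φ f).fst = f := by
    have := hom_ext (Q := Q) (cFilt_Fil (Q := Q))
      (φ := (TrivSqZeroExt.fstHom ℂ (Hat Q) (Hat Q)).comp φ) (ψ := AlgHom.id ℂ (Hat Q))
      (fun v => by simp [h1]) (fun a => by simp [h2]) (fun n f hf => (h3 n f hf).1)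
      (fun n f hf => hf)
    intro f
    exact DFunLike.congr_fun this f
  refine ⟨(TrivSqZeroExt.sndHom (Hat Q) (Hat Q)).restrictScalars ℂ ∘ₗ φ.toLinearMap, ?_, ?_⟩
  · refine ⟨?_, ?_, ?_⟩
    · intro f g
      change (φ (f * g)).snd = (φ f).snd * g + f * (φ g).snd
      rw [map_mul, TrivSqZeroExt.snd_mul, smul_eq_mul, MulOpposite.smul_eq_mul_unop,
        MulOpposite.unop_op, hfst, hfst, add_comm]
    · intro v
      change (φ (idem Q v)).snd = 0
      rw [h1]
      rfl
    · intro n f hf
      exact (h3 (n + 1) f hf).2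
  · intro a
    change (φ (arr Q a)).snd = c a
    rw [h2]
    simp

theorem IsDer.isSDer {D : Hat Q →ₗ[ℂ] Hat Q} (hD : IsDer D) : IsSDer D :=
  ⟨hD.leib, hD.idem, fun n f hf => Fil_anti (Nat.le_succ n) (hD.fil _ f hf)⟩

/-- a shift derivation which preserves `Fil 1` is a derivation in the sense of `IsDer` -/
theorem IsSDer.isDer [Fintype E] {D : Hat Q →ₗ[ℂ] Hat Q} (hD : IsSDer D)
    (h : ∀ f ∈ Fil Q 1, D f ∈ Fil Q 1) : IsDer D := by
  refine ⟨hD.leib, hD.idem, ?_⟩
  intro n
  induction n with
  | zero => intro f _; rw [Fil_zero]; exact Submodule.mem_top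
  | succ n ih =>
    intro f hf
    obtain ⟨g, hg, rfl⟩ := exists_decomp hf
    rw [map_sum]
    refine Submodule.sum_mem _ fun a _ => ?_
    rw [hD.leib]
    refine Submodule.add_mem _ ?_ ?_
    · have h1 := mul_mem_Fil (h _ (arr_mem_Fil a)) (hg a)
      rwa [add_comm] at h1
    · have h1 := mul_mem_Fil (arr_mem_Fil a) (ih _ (hg a))
      rwa [add_comm] at h1

theorem IsSDer.one {D : Hat Q →ₗ[ℂ] Hat Q} (hD : IsSDer D) : D 1 = 0 := by
  have := hD.leib 1 1
  rw [mul_one, mul_one, one_mul] at this
  exact left_eq_add.mp this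

theorem IsSDer.cl_comm {D : Hat Q →ₗ[ℂ] Hat Q} (hD : IsSDer D) {f : Hat Q}
    (hf : f ∈ cl (Comm Q)) : D f ∈ cl (Comm Q) := by
  have h : Comm Q ≤ (cl (Comm Q)).comap D := by
    refine Comm_le fun f g => ?_
    rw [Submodule.mem_comap]
    have : D (f * g - g * f) = (D f * g - g * D f) + (f * D g - D g * f) := by
      rw [map_sub, hD.leib, hD.leib]
      abel
    rw [this]
    exact Submodule.add_mem _ (le_cl _ (comm_mem _ _)) (le_cl _ (comm_mem _ _))
  rw [← cl_cl, mem_cl]
  intro n
  obtain ⟨s, hs, h1⟩ := mem_cl.1 hf (n + 1)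
  refine ⟨D s, h hs, ?_⟩
  rw [← map_sub]
  exact hD.fil n _ h1

end Pool.Agent.Flop
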