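import Pool.Agent.Lib.FlA.Krl
import Pool.Agent.Lib.FlA.SDer

/-!
# Lft: lifting a derivation of A to the path algebra

c a := e_{src a} * t a * e_{tgt a} with π (t a) = Δ (π (arr a)) (h.surj); Δ (π (arr a)) = π(e_{src a}) Δ(π arr a) π(e_{tgt a}) (apply Δ to idem_mul_arr, arr_mul_idem, h1, h2), so π (c a) = Δ (π (arr a)). D := exists_sder c. Claim π (D f) = Δ (π f): L f = π (D f) - Δ (π f) is additive,
ℂ-linear, L (f g) = L f * π g + π f * L g, L (e_i) = 0, L (arr a) = 0, so L = 0 on words (word Q i (a :: l) = arr a * word or 0) and on finite combinations. Continuity: Δ (MA n) <= MA n (induction on n or: Δ (s • x) = δ s • x + s • Δ x and δ (m^n) <= m^n by hδ and Leibniz: Submodule.pow_induction_on_left or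
Ideal power induction), π(Fil k) in MA n (MA_of_fil), D (Fil (k+1)) <= Fil k: so for f in Fil (k+1): L f in MA n. Hence L f in MA n for all n and all f (exists_words f (k+1)), L f = 0 (Mdl.sep).
-/

set_option autoImplicit false

namespace Pool.Agent.Flop

open Finset

variable {V E : Type} [Fintype V] [DecidableEq V] [DecidableEq E] [Fintype E] {Q : Qv V E}
variable {R A : Type} [CommRing R] [IsLocalRing R] [IsNoetherianRing R] [Algebra ℂ R] [Ring A]
  [Algebra ℂ A] [Algebra R A] [IsScalarTower ℂ R A] {o : V} {W : Hat Q} {π : Hat Q →ₐ[ℂ] A}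

omit [IsNoetherianRing R] in
private theorem lft_pow (δ : Derivation ℂ R R)
    (hδ : ∀ r ∈ IsLocalRing.maximalIdeal R, δ r ∈ IsLocalRing.maximalIdeal R) (n : ℕ) :
    ∀ r ∈ IsLocalRing.maximalIdeal R ^ n, δ r ∈ IsLocalRing.maximalIdeal R ^ n := by
  induction n with
  | zero =>
    intro r _
    rw [pow_zero, Ideal.one_eq_top]
    exact Submodule.mem_top
  | succ n ih =>
    intro r hr
    rw [pow_succ] at hr ⊢
    refine Submodule.mul_induction_on hr ?_ ?_
    · intro a ha b hb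
      rw [Derivation.leibniz, smul_eq_mul, smul_eq_mul]
      refine Ideal.add_mem _ (Ideal.mul_mem_mul ha (hδ b hb)) ?_
      rw [mul_comm b]
      exact Ideal.mul_mem_mul (ih a ha) hb
    · intro a b ha hb
      rw [map_add]
      exact Ideal.add_mem _ ha hb

omit [IsNoetherianRing R] [IsScalarTower ℂ R A] in
private theorem lft_MA (δ : Derivation ℂ R R)
    (hδ : ∀ r ∈ IsLocalRing.maximalIdeal R, δ r ∈ IsLocalRing.maximalIdeal R) (Δ : A →ₗ[ℂ] A)
    (h1 : ∀ x y, Δ (x * y) = Δ x * y + x * Δ y)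
    (h3 : ∀ r : R, Δ (r • (1 : A)) = δ r • (1 : A)) {n : ℕ} {x : A} (hx : x ∈ MA R A n) :
    Δ x ∈ MA R A n := by
  unfold MA at hx ⊢
  refine Submodule.smul_induction_on hx ?_ ?_
  · intro r hr y _
    have h4 : Δ (r • y) = δ r • y + r • Δ y := by
      have h5 : r • y = (r • (1 : A)) * y := by rw [smul_mul_assoc, one_mul]
      rw [h5, h1, h3, smul_mul_assoc, one_mul, smul_mul_assoc, one_mul]
    rw [h4]
    exact Submodule.add_mem _ (Submodule.smul_mem_smul (lft_pow δ hδ n r hr) Submodule.mem_top)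
      (Submodule.smul_mem_smul hr Submodule.mem_top)
  · intro y z hy hz
    rw [map_add]
    exact Submodule.add_mem _ hy hz

theorem Mdl.exists_lift_der (h : Mdl R o W π) (δ : Derivation ℂ R R)
    (hδ : ∀ r ∈ IsLocalRing.maximalIdeal R, δ r ∈ IsLocalRing.maximalIdeal R) (Δ : A →ₗ[ℂ] A)
    (h1 : ∀ x y, Δ (x * y) = Δ x * y + x * Δ y) (h2 : ∀ i, Δ (π (idem Q i)) = 0)
    (h3 : ∀ r : R, Δ (r • (1 : A)) = δ r • (1 : A)) :
    ∃ D : Hat Q →ₗ[ℂ] Hat Q, IsSDer D ∧ ∀ f, π (D f) = Δ (π f) := by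
  choose t ht using fun a : E => h.surj (Δ (π (arr Q a)))
  have hee : ∀ v, idem Q v * idem Q v = idem Q v := fun v => by
    rw [idem_mul_idem, if_pos rfl]
  obtain ⟨D, hD, hDa⟩ := exists_sder (Q := Q)
    (fun a => idem Q (Q.src a) * t a * idem Q (Q.tgt a)) (fun a => by
      rw [← mul_assoc, ← mul_assoc, hee, mul_assoc (idem Q (Q.src a) * t a), hee])
  refine ⟨D, hD, fun f => ?_⟩
  have hc : ∀ a, π (D (arr Q a)) = Δ (π (arr Q a)) := by
    intro a
    rw [hDa, map_mul, map_mul, ht]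
    have h4 : Δ (π (arr Q a)) = π (idem Q (Q.src a)) * Δ (π (arr Q a)) := by
      conv_lhs => rw [← idem_mul_arr a, map_mul, h1, h2, zero_mul, zero_add]
    have h5 : Δ (π (arr Q a)) = Δ (π (arr Q a)) * π (idem Q (Q.tgt a)) := by
      conv_lhs => rw [← arr_mul_idem a, map_mul, h1, h2, mul_zero, add_zero]
    rw [← h4, ← h5]
  set L : Hat Q →ₗ[ℂ] A := π.toLinearMap ∘ₗ D - Δ ∘ₗ π.toLinearMap with hL
  have hLa : ∀ g, L g = π (D g) - Δ (π g) := fun g => rfl
  have hLm : ∀ f g, L (f * g) = L f * π g + π f * L g := by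
    intro f g
    rw [hLa, hLa, hLa, hD.leib, map_add, map_mul, map_mul, map_mul, h1, sub_mul, mul_sub]
    abel
  have hLi : ∀ i, L (idem Q i) = 0 := fun i => by rw [hLa, hD.idem, map_zero, h2, sub_zero]
  have hL1 : L 1 = 0 := by
    have h4 := h1 1 1
    rw [mul_one, mul_one, one_mul] at h4
    rw [hLa, hD.one, map_zero, map_one, left_eq_add.mp h4, sub_zero]
  have hLarr : ∀ a, L (arr Q a) = 0 := fun a => by rw [hLa, hc, sub_self]
  have hLp : ∀ l : List E, L (l.map (arr Q)).prod = 0 := by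
    intro l
    induction l with
    | nil => rw [List.map_nil, List.prod_nil, hL1]
    | cons a l ih => rw [List.map_cons, List.prod_cons, hLm, hLarr, ih, zero_mul, mul_zero,
        add_zero]
  have hLw : ∀ i l, L (word Q i l) = 0 := by
    intro i l
    unfold word
    rw [hLm, hLi, hLp, zero_mul, mul_zero, add_zero]
  have hL0 : L f = 0 := by
    refine h.sep fun n => ?_
    obtain ⟨k, hk⟩ := h.MA_of_fil n
    obtain ⟨s, -, hs⟩ := exists_words f (k + 1)
    set w := ∑ t ∈ s, f.cf t.1 t.2.1 t.2.2 • word Q t.1 t.2.2 with hw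
    have h4 : L w = 0 := by
      rw [hw, map_sum]
      refine Finset.sum_eq_zero fun t _ => ?_
      rw [map_smul, hLw, smul_zero]
    have h5 : L f = L (f - w) := by rw [map_sub, h4, sub_zero]
    rw [h5, hLa]
    exact Submodule.sub_mem _ (hk _ (hD.fil k _ hs))
      (lft_MA δ hδ Δ h1 h3 (hk _ (Fil_anti (Nat.le_succ k) hs)))
  rw [hLa, sub_eq_zero] at hL0
  exact hL0

end Pool.Agent.Flop
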