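import Pool.Agent.Lib.FlA.JacAut

/-!
# SyzAut: the second syzygy condition under automorphisms

Put W' = σ W, J' = jac W' (= σ (jac W): jac_aut). Given j, y, z as in Syz for W'. u a b := lc a (σ (arr b)), zero unless src a = src b (lc_idem_mul: σ (arr b) = e_{src b} σ(arr b)), u a b = u a b * e_{tgt b} (lc_mul, σ(arr b) =
σ(arr b) e_{tgt b}), σ (arr b) = sum_a arr a * u a b (sum_lc; σ(arr b) in Fil 1 by aut_Fil). (1) cyc a W' = sum_b Th a (σ (arr b)) (σ (cyc b W)) (cyc_chain); by th_lc (J = J', x = σ (cyc b W) in J' by jac_aut):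
= sum_b u a b * σ(cyc b W) * e_{src a} + r_a, rc d r_a in J', r_a in Fil 1. (2) So X := sum_b (sum_a y a * u a b) * σ (cyc b W) satisfies rc d X in J' for all d and X in Fil 1: for src a = j: y a * (..) * e_{src a} with
src b = src a, cyc b W e_{src b} = cyc b W (so e_{src a} can be dropped; for src b <> src a u a b = 0), and rc d (sum_c z c * arr c) = z d * e_{src d} (rc_mul_arr) in J', rc d (y a * r_a) = y a * rc d r_a.
(W in Fil 2 gives cyc b W in Fil 1, so X in Fil 1, rc_mul.) (3) Y b := σ.symm (sum_a y a * u a b) for src b = j and 0 otherwise (it is 0 automatically): Y b e_{tgt b} = Y b; sum_b Y b * cyc b W = σ.symm X =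
sum_d σ.symm (rc d X) * σ.symm (arr d) = sum_c Z c * arr c with Z c = sum_d σ.symm (rc d X) * rc c (σ.symm (arr d)) in jac W (sum_rc for X and for σ.symm (arr d) in Fil 1; jac_aut). (4) Syz W gives x with
Y b - x * arr b in jac W for src b = j; apply σ: sum_a y a * u a b - σ x * σ (arr b) = sum_a (y a - σ x * arr a) u a b in J' (sum over a with src a = j; for others y a = 0 and u a b = 0).
(5) t b c := lc b (σ.symm (arr c)): arr c = σ (σ.symm (arr c)) = sum_b σ(arr b) σ(t b c) = sum_a arr a * (sum_b u a b * σ (t b c)); apply lc a: sum_b u a b σ(t b c) = if a = c then e_{tgt c} else 0 (lc_arr_mul; idem_lc: e_{tgt a} u a b = u a b).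
So for src c = j: y c - σ x * arr c = (y c - σ x arr c) e_{tgt c} = sum_b (sum_a (y a - σ x arr a) u a b) σ(t b c) in J'. Answer: σ x.
-/

set_option autoImplicit false

namespace Pool.Agent.Flop

open Finset

variable {V E : Type} [Fintype V] [DecidableEq V] [DecidableEq E] {Q : Qv V E}

theorem syz_aut [Fintype E] (σ : Hat Q ≃ₐ[ℂ] Hat Q) (hσ : ∀ v, σ (idem Q v) = idem Q v)
    {W : Hat Q} (hW : W ∈ Fil Q 2) (h : Syz W) : Syz (σ W) := by
  intro j y z hy hys hz heq
  have hσ' : ∀ v, σ.symm (idem Q v) = idem Q v := fun v => by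
    rw [AlgEquiv.symm_apply_eq]; exact (hσ v).symm
  have hF : ∀ b, σ (arr Q b) ∈ Fil Q 1 := fun b => aut_Fil σ hσ 1 _ (arr_mem_Fil b)
  have hF' : ∀ b, σ.symm (arr Q b) ∈ Fil Q 1 := fun b => aut_Fil σ.symm hσ' 1 _ (arr_mem_Fil b)
  have h1 : ∀ b, idem Q (Q.src b) * σ (arr Q b) = σ (arr Q b) := fun b => by
    rw [← hσ (Q.src b), ← map_mul, idem_mul_arr]
  have h2 : ∀ b, σ (arr Q b) * idem Q (Q.tgt b) = σ (arr Q b) := fun b => by
    rw [← hσ (Q.tgt b), ← map_mul, arr_mul_idem]
  have h1' : ∀ b, idem Q (Q.src b) * σ.symm (arr Q b) = σ.symm (arr Q b) := fun b => by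
    rw [← hσ' (Q.src b), ← map_mul, idem_mul_arr]
  have hu0 : ∀ a b, Q.src a ≠ Q.src b → lc a (σ (arr Q b)) = 0 := fun a b hab => by
    rw [← h1 b, lc_idem_mul, if_neg hab]
  have ht0 : ∀ b c, Q.src b ≠ Q.src c → lc b (σ.symm (arr Q c)) = 0 := fun b c hbc => by
    rw [← h1' c, lc_idem_mul, if_neg hbc]
  have hue : ∀ a b, lc a (σ (arr Q b)) * idem Q (Q.tgt b) = lc a (σ (arr Q b)) := fun a b => by
    rw [← lc_mul a (hF b), h2]
  -- the Jacobi ideal of the image
  have hJ : ∀ b, σ (cyc b W) ∈ jac (σ W) := fun b => (jac_aut σ hσ W _).1 (cyc_jac W b)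
  have hr := fun a b => th_lc (isCl_jac (σ W)) (fun z f hf => jac_ml z hf)
    (fun z f hf => jac_mr z hf) a (σ (arr Q b)) (hJ b)
  obtain ⟨r, hrd⟩ : ∃ r : E → E → Hat Q, ∀ a b, Th a (σ (arr Q b)) (σ (cyc b W)) =
      lc a (σ (arr Q b)) * σ (cyc b W) * idem Q (Q.src a) + r a b :=
    ⟨fun a b => Th a (σ (arr Q b)) (σ (cyc b W)) -
      lc a (σ (arr Q b)) * σ (cyc b W) * idem Q (Q.src a), fun a b => (add_sub_cancel _ _).symm⟩
  have hr1 : ∀ a b, r a b ∈ Fil Q 1 := fun a b => by
    have := (hr a b).1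
    rwa [hrd, add_sub_cancel_left] at this
  have hr2 : ∀ a b d, rc d (r a b) ∈ jac (σ W) := fun a b d => by
    have := (hr a b).2 d
    rwa [hrd, add_sub_cancel_left] at this
  have hcy : ∀ b, σ (cyc b W) * idem Q (Q.src b) = σ (cyc b W) := fun b => by
    rw [← hσ (Q.src b), ← map_mul, cyc_mul_idem]
  have hdrop : ∀ a b, lc a (σ (arr Q b)) * σ (cyc b W) * idem Q (Q.src a) =
      lc a (σ (arr Q b)) * σ (cyc b W) := fun a b => by
    by_cases hab : Q.src a = Q.src b
    · rw [hab, mul_assoc, hcy]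
    · rw [hu0 a b hab, zero_mul, zero_mul]
  obtain ⟨Y', hY'⟩ : ∃ Y' : E → Hat Q, ∀ b, Y' b = ∑ a, y a * lc a (σ (arr Q b)) :=
    ⟨_, fun b => rfl⟩
  obtain ⟨X, hX⟩ : ∃ X : Hat Q, X = ∑ b, Y' b * σ (cyc b W) := ⟨_, rfl⟩
  have hXeq : X = ∑ c, z c * arr Q c - ∑ a, ∑ b, y a * r a b := by
    rw [← heq, eq_sub_iff_add_eq, hX]
    have e1 : ∑ b, Y' b * σ (cyc b W) = ∑ a, ∑ b, y a * (lc a (σ (arr Q b)) * σ (cyc b W)) := by
      rw [Finset.sum_comm]
      refine Finset.sum_congr rfl fun b _ => ?_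
      rw [hY', Finset.sum_mul]
      exact Finset.sum_congr rfl fun a _ => mul_assoc _ _ _
    rw [e1, ← Finset.sum_add_distrib]
    refine Finset.sum_congr rfl fun a _ => ?_
    rw [cyc_chain σ hσ a W, ← Finset.sum_add_distrib, Finset.mul_sum]
    refine Finset.sum_congr rfl fun b _ => ?_
    rw [hrd, hdrop, mul_add]
  have hXF : X ∈ Fil Q 1 := by
    rw [hX]
    exact Submodule.sum_mem _ fun b _ =>
      mul_mem_Fil_left _ (aut_Fil σ hσ 1 _ (cyc_mem_Fil b hW))
  have hXJ : ∀ d, rc d X ∈ jac (σ W) := fun d => by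
    have e0 : ∀ f g : Hat Q, rc d (f - g) = rc d f - rc d g := fun f g => by
      rw [sub_eq_add_neg, rc_add, ← neg_one_smul ℂ g, rc_smul, neg_one_smul, sub_eq_add_neg]
    rw [hXeq, e0]
    refine Submodule.sub_mem _ ?_ ?_
    · rw [rc_sum]
      refine Submodule.sum_mem _ fun c _ => ?_
      rw [rc_mul_arr]
      split_ifs with hdc
      · exact jac_mr _ (hz c)
      · exact Submodule.zero_mem _
    · rw [rc_sum]
      refine Submodule.sum_mem _ fun a _ => ?_
      rw [rc_sum]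
      refine Submodule.sum_mem _ fun b _ => ?_
      rw [rc_mul d (y a) (hr1 a b)]
      exact jac_ml _ (hr2 a b d)
  have hYt : ∀ b, σ.symm (Y' b) * idem Q (Q.tgt b) = σ.symm (Y' b) := fun b => by
    rw [← hσ' (Q.tgt b), ← map_mul]
    congr 1
    rw [hY', Finset.sum_mul]
    exact Finset.sum_congr rfl fun a _ => by rw [mul_assoc, hue]
  have hYs : ∀ b, Q.src b ≠ j → σ.symm (Y' b) = 0 := fun b hb => by
    have : Y' b = 0 := by
      rw [hY']
      refine Finset.sum_eq_zero fun a _ => ?_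
      by_cases ha : Q.src a = j
      · rw [hu0 a b (fun hab => hb (hab.symm.trans ha)), mul_zero]
      · rw [hys a ha, zero_mul]
    rw [this, map_zero]
  obtain ⟨x, hx⟩ := h j (fun b => σ.symm (Y' b))
    (fun c => ∑ d, σ.symm (rc d X) * rc c (σ.symm (arr Q d))) hYt hYs
    (fun c => Submodule.sum_mem _ fun d _ => by
      refine jac_mr _ ?_
      rw [jac_aut σ hσ, AlgEquiv.apply_symm_apply]
      exact hXJ d)
    (by
      have e1 : ∑ b, σ.symm (Y' b) * cyc b W = σ.symm X := by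
        rw [hX, map_sum]
        exact Finset.sum_congr rfl fun b _ => by rw [map_mul, AlgEquiv.symm_apply_apply]
      have e2 : σ.symm X = ∑ d, σ.symm (rc d X) * σ.symm (arr Q d) := by
        conv_lhs => rw [sum_rc hXF]
        rw [map_sum]
        exact Finset.sum_congr rfl fun d _ => map_mul _ _ _
      have e3 : ∀ d, σ.symm (arr Q d) = ∑ c, rc c (σ.symm (arr Q d)) * arr Q c :=
        fun d => sum_rc (hF' d)
      rw [e1, e2]
      have e4 : ∀ d, σ.symm (rc d X) * σ.symm (arr Q d) =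
          ∑ c, σ.symm (rc d X) * rc c (σ.symm (arr Q d)) * arr Q c := fun d => by
        conv_lhs => rw [e3 d]
        rw [Finset.mul_sum]
        exact Finset.sum_congr rfl fun c _ => (mul_assoc _ _ _).symm
      rw [Finset.sum_congr rfl fun d _ => e4 d, Finset.sum_comm]
      exact Finset.sum_congr rfl fun c _ => (Finset.sum_mul _ _ _).symm)
  refine ⟨σ x, fun c hc => ?_⟩
  have hb : ∀ b, Q.src b = j → ∑ a, (y a - σ x * arr Q a) * lc a (σ (arr Q b)) ∈ jac (σ W) :=
    fun b hb => by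
    have e1 := (jac_aut σ hσ W _).1 (hx b hb)
    rw [map_sub, map_mul, AlgEquiv.apply_symm_apply] at e1
    have e2 : ∑ a, (y a - σ x * arr Q a) * lc a (σ (arr Q b)) = Y' b - σ x * σ (arr Q b) := by
      conv_rhs => rw [sum_lc (hF b)]
      rw [hY', Finset.mul_sum, ← Finset.sum_sub_distrib]
      exact Finset.sum_congr rfl fun a _ => by rw [sub_mul, mul_assoc]
    rw [e2]
    exact e1
  have hinv : ∀ a, ∑ b, lc a (σ (arr Q b)) * σ (lc b (σ.symm (arr Q c))) =
      if a = c then idem Q (Q.tgt c) else 0 := fun a => by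
    have e1 : arr Q c = ∑ b, σ (arr Q b) * σ (lc b (σ.symm (arr Q c))) := by
      conv_lhs => rw [← AlgEquiv.apply_symm_apply σ (arr Q c), sum_lc (hF' c), map_sum]
      exact Finset.sum_congr rfl fun b _ => map_mul _ _ _
    have e2 : lc a (arr Q c) = if a = c then idem Q (Q.tgt c) else 0 := by
      rw [← arr_mul_idem c, lc_arr_mul, idem_mul_idem, if_pos rfl]
    rw [← e2]
    conv_rhs => rw [e1]
    rw [lc_sum]
    exact Finset.sum_congr rfl fun b _ => (lc_mul a (hF b) _).symm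
  have hfin : y c - σ x * arr Q c = ∑ b, (∑ a, (y a - σ x * arr Q a) * lc a (σ (arr Q b))) *
      σ (lc b (σ.symm (arr Q c))) := by
    have e1 : y c - σ x * arr Q c =
        ∑ a, (y a - σ x * arr Q a) * (if a = c then idem Q (Q.tgt c) else 0) := by
      rw [Finset.sum_eq_single c]
      · rw [if_pos rfl, sub_mul, mul_assoc, arr_mul_idem, hy]
      · intro a _ hac
        rw [if_neg hac, mul_zero]
      · intro hc
        exact absurd (Finset.mem_univ c) hc
    rw [e1]
    have e2 : ∀ a, (y a - σ x * arr Q a) * (if a = c then idem Q (Q.tgt c) else 0) =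
        ∑ b, (y a - σ x * arr Q a) * lc a (σ (arr Q b)) * σ (lc b (σ.symm (arr Q c))) :=
      fun a => by
        rw [← hinv a, Finset.mul_sum]
        exact Finset.sum_congr rfl fun b _ => (mul_assoc _ _ _).symm
    rw [Finset.sum_congr rfl fun a _ => e2 a, Finset.sum_comm]
    exact Finset.sum_congr rfl fun b _ => (Finset.sum_mul _ _ _).symm
  rw [hfin]
  refine Submodule.sum_mem _ fun b _ => ?_
  by_cases hbj : Q.src b = j
  · exact jac_mr _ (hb b hbj)
  · rw [ht0 b c (fun hbc => hbj (hbc.trans hc)), map_zero, mul_zero]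
    exact Submodule.zero_mem _

theorem syz_congr [Fintype E] {F G : Hat Q} (h : F - G ∈ cl (Comm Q)) (hF : Syz F) : Syz G := by
  intro j y z hy hys hz heq
  rw [← jac_congr h] at hz ⊢
  refine hF j y z hy hys hz ?_
  rw [← heq]
  exact Finset.sum_congr rfl fun a _ => by rw [cyc_congr h a]

end Pool.Agent.Flop
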