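import Pool.Agent.Lib.FlA.Def3
import Pool.Agent.Lib.FlA.SyzAut

/-!
# MdlT: models under automorphisms and changes of the potential

`twist`: all fields which do not mention W are literally the same (σ (idem v) = idem v, so (π ∘ σ)(idem v) = π (idem v)); conn, corner: the same. pot: aut_Fil for σ.symm. surj: composition. ker: π (σ f) = 0 iff σ f in jac W iff f in jac (σ.symm W) (jac_aut for σ.symm: g in jac W iff σ.symm g in jac (σ.symm W)).
syz: syz_aut for σ.symm (W in Fil 2 from Fil 3). `congr`: trivial.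
-/

set_option autoImplicit false

namespace Pool.Agent.Flop

open Finset

variable {V E : Type} [Fintype V] [DecidableEq V] [DecidableEq E] [Fintype E] {Q : Qv V E}
variable {R A : Type} [CommRing R] [IsLocalRing R] [Algebra ℂ R] [Ring A]
  [Algebra ℂ A] [Algebra R A] {o : V} {W : Hat Q} {π : Hat Q →ₐ[ℂ] A}

theorem Mdl.twist (h : Mdl R o W π) (σ : Hat Q ≃ₐ[ℂ] Hat Q) (hσ : ∀ v, σ (idem Q v) = idem Q v) :
    Mdl R o (σ.symm W) (π.comp (σ : Hat Q →ₐ[ℂ] Hat Q)) := by
  have hσ' : ∀ v, σ.symm (idem Q v) = idem Q v := fun v => by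
    rw [AlgEquiv.symm_apply_eq]; exact (hσ v).symm
  have hap : ∀ f, (π.comp (σ : Hat Q →ₐ[ℂ] Hat Q)) f = π (σ f) := fun f => rfl
  refine
    { resf := h.resf
      nfield := h.nfield
      fin := h.fin
      tf := h.tf
      corner := ?_
      cen := h.cen
      conn := ?_
      dep := h.dep
      pot := aut_Fil σ.symm hσ' 3 _ h.pot
      surj := ?_
      ker := ?_
      syz := syz_aut σ.symm hσ' (Fil_anti (by norm_num) h.pot) h.syz }
  · intro x
    rw [hap, hσ]
    exact h.corner x
  · intro i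
    rw [hap, hap, hσ, hσ]
    exact h.conn i
  · intro x
    obtain ⟨f, hf⟩ := h.surj x
    refine ⟨σ.symm f, ?_⟩
    rw [hap, AlgEquiv.apply_symm_apply, hf]
  · intro f
    rw [hap, h.ker]
    have := jac_aut σ.symm hσ' W (σ f)
    rw [AlgEquiv.symm_apply_apply] at this
    exact this

theorem Mdl.congr (h : Mdl R o W π) {W' : Hat Q} (h1 : W' ∈ Fil Q 3) (h2 : jac W' = jac W)
    (h3 : Syz W') : Mdl R o W' π :=
  { h with pot := h1, ker := fun f => by rw [h2]; exact h.ker f, syz := h3 }

end Pool.Agent.Flop
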