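import Pool.Agent.Lib.FlA.Pos3

/-!
# Pos4: positivity of all closed paths

Strong induction on the length n >= 1 of the closed path l at i. The vertices: v_0 = i, v_1, .., v_{n-1} (sources of the letters), v_n = i. If v_r = v_s for some 0 <= r < s < n: l = l1 ++ l2 ++ l3 with l1 path i -> v_r, l2 path v_r -> v_s closed of length s - r in [1, n - 1], l1 ++ l3 closed at i of length n - (s - r) in [1, n-1]: both sums positive, add.
Otherwise the sources are pairwise different. n = 1: a loop (loop). n = 2: two (src a <> tgt a). n = 3: three_cycle. n >= 4: v : ZMod n -> V, v r = source of the letter number r.val; injective; for every r the letter number r.val has source v r and target v (r + 1) (consecutive letters in a path; the last one ends at i = v 0): contradiction to thin.cycles.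
(Sources: `l.map Q.src`; `List.Nodup` or not: `List.nodup_iff_getElem?_ne_getElem?`; a path l from i: tgt (l[r]) = src (l[r+1]).)
-/

set_option autoImplicit false

namespace Pool.Agent.Flop

open Finset

variable {V E : Type} [Fintype V] [DecidableEq V] [DecidableEq E] [Fintype E] {Q : Qv V E}
variable {Φ : Hat Q} {lam : E → ℚ} {w : ℚ}

omit [Fintype V] [DecidableEq V] [DecidableEq E] [Fintype E] in
private theorem Pos4_split {l₁ l₂ : List E} : ∀ {i j : V}, Q.IsPath i (l₁ ++ l₂) j →
    ∃ v, Q.IsPath i l₁ v ∧ Q.IsPath v l₂ j := by
  induction l₁ with
  | nil => intro i j h; exact ⟨i, rfl, h⟩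
  | cons a l ih =>
    intro i j h
    obtain ⟨v, h1, h2⟩ := ih h.2
    exact ⟨v, ⟨h.1, h1⟩, h2⟩

omit [Fintype V] [DecidableEq V] [DecidableEq E] [Fintype E] in
private theorem Pos4_first {i j : V} {l : List E} (h : Q.IsPath i l j) (h0 : 0 < l.length) :
    Q.src l[0] = i := by
  match l, h with
  | a :: l, h => exact h.1

omit [Fintype V] [DecidableEq V] [DecidableEq E] [Fintype E] in
private theorem Pos4_step {l : List E} : ∀ {i j : V}, Q.IsPath i l j →
    ∀ k (hk : k + 1 < l.length), Q.tgt l[k] = Q.src l[k + 1] := by
  induction l with
  | nil => intro i j _ k hk; simp at hk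
  | cons a l ih =>
    intro i j h k hk
    match k, hk with
    | 0, hk =>
      have h0 : 0 < l.length := by simpa using hk
      have := Pos4_first h.2 h0
      simpa using this.symm
    | k + 1, hk =>
      have h1 : k + 1 < l.length := by simpa using hk
      have := ih h.2 k h1
      simpa using this

omit [Fintype V] [DecidableEq V] [DecidableEq E] [Fintype E] in
private theorem Pos4_last {l : List E} : ∀ {i j : V}, Q.IsPath i l j →
    ∀ k (hk : k < l.length), k + 1 = l.length → Q.tgt l[k] = j := by
  induction l with
  | nil => intro i j _ k hk _; simp at hk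
  | cons a l ih =>
    intro i j h k hk he
    match k, hk, he with
    | 0, hk, he =>
      have h0 : l = [] := by
        rw [← List.length_eq_zero_iff]
        simpa using he.symm
      subst h0
      exact h.2
    | k + 1, hk, he =>
      have h1 : k < l.length := by simpa using hk
      have h2 : k + 1 = l.length := by simpa using he
      have := ih h.2 k h1 h2
      simpa using this

private theorem Pos4_dup {α β : Type} (f : α → β) {l : List α} (h : ¬ (l.map f).Nodup) :
    ∃ (l₁ : List α) (a : α) (l₂ : List α) (b : α) (l₃ : List α),
      l = l₁ ++ (a :: l₂) ++ (b :: l₃) ∧ f a = f b := by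
  induction l with
  | nil => exact absurd List.nodup_nil h
  | cons c l ih =>
    rw [List.map_cons, List.nodup_cons, not_and_or, not_not] at h
    rcases h with h | h
    · obtain ⟨b, hb, hbc⟩ := List.mem_map.1 h
      obtain ⟨s, t, hst⟩ := List.append_of_mem hb
      exact ⟨[], c, s, b, t, by simp [hst], hbc.symm⟩
    · obtain ⟨l₁, a, l₂, b, l₃, h1, h2⟩ := ih h
      exact ⟨c :: l₁, a, l₂, b, l₃, by simp [h1], h2⟩

omit [Fintype V] [DecidableEq V] [DecidableEq E] [Fintype E] in
private theorem Pos4_long (ht : Thin Q) {i : V} {l : List E} (h4 : 4 ≤ l.length)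
    (hn : (l.map Q.src).Nodup) (hp : Q.IsPath i l i) : False := by
  have hne : NeZero l.length := ⟨by omega⟩
  have hl : ∀ r : ZMod l.length, r.val < l.length := fun r => ZMod.val_lt r
  refine ht.cycles l.length h4 (fun r => Q.src (l[r.val]'(hl r))) ?_ ?_
  · intro r s hrs
    have h1 : (l.map Q.src)[r.val]'(by rw [List.length_map]; exact hl r) =
        (l.map Q.src)[s.val]'(by rw [List.length_map]; exact hl s) := by
      rw [List.getElem_map, List.getElem_map]
      exact hrs
    exact ZMod.val_injective _ (hn.getElem_inj_iff.1 h1)
  · intro r
    refine ⟨l[r.val]'(hl r), rfl, ?_⟩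
    by_cases hr : r.val + 1 < l.length
    · have h1 : (r + 1).val = r.val + 1 := by
        have h11 : (1 : ZMod l.length).val = 1 := ZMod.val_one'' (by omega)
        rw [ZMod.val_add_of_lt (by rw [h11]; exact hr), h11]
      have h2 := Pos4_step hp r.val hr
      simp only [h1]
      exact h2
    · have he : r.val + 1 = l.length := by have := hl r; omega
      have h1 : (r + 1).val = 0 := by
        have h11 : r + 1 = 0 := by
          have h12 : ((r.val + 1 : ℕ) : ZMod l.length) = 0 := by
            rw [he]
            exact ZMod.natCast_self _
          rw [Nat.cast_add, Nat.cast_one, ZMod.natCast_zmod_val] at h12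
          exact h12
        rw [h11, ZMod.val_zero]
      have h2 := Pos4_last hp r.val (hl r) he
      have h3 := Pos4_first hp (by omega)
      simp only [h1]
      rw [h2, h3]

theorem PHyp.closed_pos (h : PHyp Φ lam w) {i : V} {l : List E} (hl : l ≠ [])
    (hp : Q.IsPath i l i) : 0 < (l.map lam).sum := by
  induction hn : l.length using Nat.strong_induction_on generalizing i l with
  | _ n ih =>
    by_cases hd : (l.map Q.src).Nodup
    · match l, hl, hp, hn, hd with
      | [a], _, hp, _, _ =>
        have h2 : Q.tgt a = i := hp.2
        have h1 := (h.loop (c := a) (hp.1.trans h2.symm)).1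
        simpa using h1
      | [a, b], _, hp, _, hd =>
        have e1 : Q.src a = i := hp.1
        have e2 : Q.src b = Q.tgt a := hp.2.1
        have e3 : Q.tgt b = i := hp.2.2
        have hne : Q.src a ≠ Q.tgt a := by
          rw [← e2]
          simp only [List.map_cons, List.map_nil, List.nodup_cons, List.mem_singleton] at hd
          exact hd.1
        have h1 := h.two e2.symm (e3.trans e1.symm) hne
        simpa using h1
      | [a, b, c], _, hp, _, hd =>
        have e1 : Q.src a = i := hp.1
        have e2 : Q.src b = Q.tgt a := hp.2.1
        have e3 : Q.src c = Q.tgt b := hp.2.2.1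
        have e4 : Q.tgt c = i := hp.2.2.2
        simp only [List.map_cons, List.map_nil, List.nodup_cons, List.mem_cons,
          List.not_mem_nil, or_false, not_or] at hd
        have h1 := h.three_cycle e2.symm e3.symm (e4.trans e1.symm) hd.1.1 hd.2.1
          (fun hh => hd.1.2 hh.symm)
        simp only [List.map_cons, List.map_nil, List.sum_cons, List.sum_nil]
        linarith
      | a :: b :: c :: d :: l', _, hp, _, hd =>
        exact (Pos4_long h.thin (by simp) hd hp).elim
    · obtain ⟨l₁, a, l₂, b, l₃, h1, h2⟩ := Pos4_dup Q.src hd
      subst h1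
      obtain ⟨y, hy1, hy2⟩ := Pos4_split hp
      obtain ⟨x, hx1, hx2⟩ := Pos4_split hy1
      have hxy : x = y := by
        rw [← hx2.1, ← hy2.1]
        exact h2
      subst hxy
      have len1 : (l₁ ++ (a :: l₂) ++ (b :: l₃)).length =
          l₁.length + (l₂.length + 1) + (l₃.length + 1) := by
        simp only [List.length_append, List.length_cons]
      have p1 := ih (a :: l₂).length (by rw [← hn, len1, List.length_cons]; omega)
        (List.cons_ne_nil _ _) hx2 rfl
      have p2 := ih (l₁ ++ (b :: l₃)).length
        (by rw [← hn, len1, List.length_append, List.length_cons]; omega)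
        (by simp) (hx1.append hy2) rfl
      simp only [List.map_append, List.sum_append] at p2 ⊢
      linarith

end Pool.Agent.Flop
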