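import Pool.Agent.Lib.FlA.Pos4

/-!
# PosZ: closed paths have nonnegative weight if the potential has nonnegative weight

The weak form of the positivity lemma.
-/

set_option autoImplicit false

namespace Pool.Agent.Flop

open Finset

variable {V E : Type} [Fintype V] [DecidableEq V] [DecidableEq E] [Fintype E] {Q : Qv V E}

/-- Homogeneous potentials of nonnegative weight, with a finite-dimensional Jacobi algebra, on a
thin quiver. -/
structure ZHyp (Φ : Hat Q) (lam : E → ℚ) (w : ℚ) : Prop where
  three : Φ ∈ Fil Q 3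
  fin : ∃ K, Fil Q K ≤ jac Φ
  pos : 0 ≤ w
  hom : ∀ i l, Φ.cf i i l ≠ 0 → (l.map lam).sum = w
  thin : Thin Q

variable {Φ : Hat Q} {lam : E → ℚ} {w : ℚ}

theorem ZHyp.exists_word (h : ZHyp Φ lam w) (S : Set E) {i : V} {l : List E} (hl : l ≠ [])
    (hp : Q.IsPath i l i) (hS : ∀ a ∈ l, a ∈ S) :
    ∃ (c : E) (p : List E), (∀ a ∈ p, a ∈ S) ∧ 2 ≤ p.length ∧
      Q.IsPath (Q.tgt c) p (Q.src c) ∧ lam c + (p.map lam).sum = w :=
  exists_word_of h.three h.fin h.hom S hl hp hS


omit [Fintype V] [DecidableEq V] [DecidableEq E] [Fintype E] in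
private theorem posZ1_ends {i : V} (p : List E) (hp : ∀ a ∈ p, Q.src a = i ∧ Q.tgt a = i) :
    ∀ x y : V, p ≠ [] → Q.IsPath x p y → x = i ∧ y = i := by
  induction p with
  | nil => intro x y h _; exact absurd rfl h
  | cons a l ih =>
    intro x y _ h
    have ha := hp a List.mem_cons_self
    refine ⟨h.1.symm.trans ha.1, ?_⟩
    by_cases hl : l = []
    · subst hl
      have h2 : Q.tgt a = y := h.2
      exact h2.symm.trans ha.2
    · exact (ih (fun b hb => hp b (List.mem_cons_of_mem a hb)) _ _ hl h.2).2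

omit [Fintype V] [DecidableEq V] [DecidableEq E] [Fintype E] in
private theorem posZ1_sum {m : ℚ} (p : List E) (hp : ∀ a ∈ p, lam a = m) :
    (p.map lam).sum = (p.length : ℚ) * m := by
  induction p with
  | nil => simp
  | cons a l ih =>
    rw [List.map_cons, List.sum_cons, ih (fun b hb => hp b (List.mem_cons_of_mem a hb)),
      hp a List.mem_cons_self, List.length_cons]
    push_cast
    ring

private theorem posZ1_word (h : ZHyp Φ lam w) {i : V} {a : E} (h1 : Q.src a = i)
    (h2 : Q.tgt a = i) :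
    ∃ (c : E) (k : ℕ), Q.src c = i ∧ Q.tgt c = i ∧ 2 ≤ k ∧ lam c + (k : ℚ) * lam a = w := by
  obtain ⟨c, p, hS, hlen, hpath, hsum⟩ :=
    h.exists_word {b | Q.src b = i ∧ Q.tgt b = i ∧ lam b = lam a} (i := i) (l := [a])
      (List.cons_ne_nil _ _) ⟨h1, h2⟩ (by
        intro b hb
        rw [List.mem_singleton] at hb
        subst hb
        exact ⟨h1, h2, rfl⟩)
  have hne : p ≠ [] := by
    intro h0
    rw [h0, List.length_nil] at hlen
    omega
  have hends := posZ1_ends (Q := Q) (i := i) p (fun b hb => ⟨(hS b hb).1, (hS b hb).2.1⟩) _ _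
    hne hpath
  refine ⟨c, p.length, hends.2, hends.1, hlen, ?_⟩
  rw [← hsum, posZ1_sum p (fun b hb => (hS b hb).2.2)]

theorem ZHyp.loop (h : ZHyp Φ lam w) {c : E} (hc : Q.src c = Q.tgt c) : 0 ≤ lam c ∧ lam c ≤ w := by
  classical
  set i := Q.src c with hi
  set L : Finset E := Finset.univ.filter fun a => Q.src a = i ∧ Q.tgt a = i with hL
  have hmem : ∀ a, a ∈ L ↔ Q.src a = i ∧ Q.tgt a = i := fun a => by
    rw [hL, Finset.mem_filter]
    exact ⟨fun h => h.2, fun h => ⟨Finset.mem_univ _, h⟩⟩
  have hcL : c ∈ L := (hmem c).mpr ⟨hi.symm, hc.symm⟩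
  obtain ⟨a0, ha0, hmin⟩ := Finset.exists_min_image L lam ⟨c, hcL⟩
  obtain ⟨a1, ha1, hmax⟩ := Finset.exists_max_image L lam ⟨c, hcL⟩
  have hw := h.pos
  have hpos : 0 ≤ lam a0 := by
    by_contra hle
    rw [not_le] at hle
    obtain ⟨c1, k1, s1, t1, hk1, e1⟩ := posZ1_word h ((hmem a0).mp ha0).1 ((hmem a0).mp ha0).2
    have hk1' : (2 : ℚ) ≤ (k1 : ℚ) := by exact_mod_cast hk1
    have b1 : w - 2 * lam a0 ≤ lam c1 := by nlinarith
    have b2 : lam c1 ≤ lam a1 := hmax c1 ((hmem c1).mpr ⟨s1, t1⟩)
    obtain ⟨c2, k2, s2, t2, hk2, e2⟩ := posZ1_word h ((hmem a1).mp ha1).1 ((hmem a1).mp ha1).2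
    have hk2' : (2 : ℚ) ≤ (k2 : ℚ) := by exact_mod_cast hk2
    have hM : 0 < lam a1 := by linarith
    have b3 : lam c2 ≤ w - 2 * lam a1 := by nlinarith
    have b4 : lam a0 ≤ lam c2 := hmin c2 ((hmem c2).mpr ⟨s2, t2⟩)
    linarith
  refine ⟨le_trans hpos (hmin c hcL), ?_⟩
  by_contra hge
  rw [not_le] at hge
  obtain ⟨c3, k3, s3, t3, hk3, e3⟩ := posZ1_word h hi.symm hc.symm
  have hk3' : (2 : ℚ) ≤ (k3 : ℚ) := by exact_mod_cast hk3
  have b5 : lam c3 ≤ w - 2 * lam c := by nlinarith
  have b6 : lam a0 ≤ lam c3 := hmin c3 ((hmem c3).mpr ⟨s3, t3⟩)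
  linarith


theorem ZHyp.two (h : ZHyp Φ lam w) {a b : E} (h1 : Q.tgt a = Q.src b) (h2 : Q.tgt b = Q.src a)
    (hne : Q.src a ≠ Q.tgt a) : 0 ≤ lam a + lam b := by
  by_contra hs
  push Not at hs
  have hpos := h.pos
  have hpath : Q.IsPath (Q.src a) [a, b] (Q.src a) := ⟨rfl, h1.symm, h2⟩
  obtain ⟨c, p, hpS, hlen, hp, hw⟩ := h.exists_word ({a, b} : Set E) (by simp) hpath
    (by intro e he; simpa using he)
  have hS : ∀ e ∈ p, e = a ∨ e = b := fun e he => by simpa using hpS e he
  have hne' : Q.src b ≠ Q.tgt b := by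
    rw [← h1, h2]
    exact fun h' => hne h'.symm
  have key : ∀ m : ℕ, 1 ≤ m → (m : ℚ) * (lam a + lam b) < 0 := fun m hm =>
    mul_neg_of_pos_of_neg (by exact_mod_cast hm) hs
  have hstart : Q.tgt c = Q.src a ∨ Q.tgt c = Q.src b := by
    match p, hp, hS, hlen with
    | [], _, _, hlen => simp at hlen
    | e :: p, hp, hS, _ =>
      rcases hS e List.mem_cons_self with h3 | h3
      · left; rw [← hp.1, h3]
      · right; rw [← hp.1, h3]
  rcases hstart with h3 | h3
  · rw [h3] at hp
    obtain ⟨m, hm⟩ := alt_path lam h1 h2 hne hp hS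
    rcases hm with ⟨h4, h5, h6⟩ | ⟨h4, h5, h6⟩
    · have h7 := (h.loop (c := c) (by rw [h5, h3])).2
      have := key m (by omega)
      linarith
    · have h7 : b = c := h.thin.single b c hne' (by rw [h5, h1]) (by rw [h3, h2])
      subst h7
      have := key (m + 1) (by omega)
      push_cast at this
      linarith
  · rw [h3] at hp
    obtain ⟨m, hm⟩ := alt_path lam h2 h1 hne' hp (fun e he => (hS e he).symm)
    rcases hm with ⟨h4, h5, h6⟩ | ⟨h4, h5, h6⟩
    · have h7 := (h.loop (c := c) (by rw [h5, h3])).2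
      have := key m (by omega)
      linarith
    · have h7 : a = c := h.thin.single a c hne (by rw [h5, h2]) (by rw [h3, h1])
      subst h7
      have := key (m + 1) (by omega)
      push_cast at this
      linarith



private theorem PosZ3_cyc3 (lam : E → ℚ) {y : V} {p : List E} : ∀ {a b c : E},
    Q.tgt a = Q.src b → Q.tgt b = Q.src c → Q.tgt c = Q.src a → Q.src a ≠ Q.src b →
    Q.src b ≠ Q.src c → Q.src c ≠ Q.src a → Q.IsPath (Q.src a) p y →
    (∀ e ∈ p, e = a ∨ e = b ∨ e = c) → ∃ m : ℕ,
      (p.length = 3 * m ∧ y = Q.src a ∧ (p.map lam).sum = m * (lam a + lam b + lam c)) ∨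
      (p.length = 3 * m + 1 ∧ y = Q.src b ∧
        (p.map lam).sum = m * (lam a + lam b + lam c) + lam a) ∨
      (p.length = 3 * m + 2 ∧ y = Q.src c ∧
        (p.map lam).sum = m * (lam a + lam b + lam c) + lam a + lam b) := by
  induction p with
  | nil =>
    intro a b c _ _ _ _ _ _ hp _
    refine ⟨0, Or.inl ⟨by simp, ?_, by simp⟩⟩
    exact hp.symm
  | cons e p ih =>
    intro a b c h1 h2 h3 hab hbc hca hp hS
    obtain ⟨he, hp'⟩ := hp
    have hea : e = a := by
      rcases hS e (by simp) with h | h | h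
      · exact h
      · exact absurd (h ▸ he).symm hab
      · exact absurd (h ▸ he) hca
    subst hea
    rw [h1] at hp'
    obtain ⟨m, hm⟩ := ih h2 h3 h1 hbc hca hab hp' (fun x hx => by
      rcases hS x (List.mem_cons_of_mem _ hx) with h | h | h
      · exact Or.inr (Or.inr h)
      · exact Or.inl h
      · exact Or.inr (Or.inl h))
    rcases hm with ⟨hl, hy, hs⟩ | ⟨hl, hy, hs⟩ | ⟨hl, hy, hs⟩
    · refine ⟨m, Or.inr (Or.inl ⟨by simp [hl], hy, ?_⟩)⟩
      rw [List.map_cons, List.sum_cons, hs]
      ring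
    · refine ⟨m, Or.inr (Or.inr ⟨by simp [hl], hy, ?_⟩)⟩
      rw [List.map_cons, List.sum_cons, hs]
      ring
    · refine ⟨m + 1, Or.inl ⟨by simp [hl]; ring, hy, ?_⟩⟩
      rw [List.map_cons, List.sum_cons, hs]
      push_cast
      ring

private theorem PosZ3_alt (h : ZHyp Φ lam w) {a d e : E} {q : List E}
    (h1 : Q.tgt a = Q.src d) (h2 : Q.tgt d = Q.src a) (hne : Q.src a ≠ Q.tgt a)
    (hw : w < lam a + lam d) (hS : ∀ c ∈ q, c = a ∨ c = d) (hq : 2 ≤ q.length)
    (hp : Q.IsPath (Q.src a) q (Q.src e)) (he : Q.tgt e = Q.src a)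
    (hs : lam e + (q.map lam).sum = w) : False := by
  have hpos := h.pos
  obtain ⟨m, hm⟩ := alt_path lam h1 h2 hne hp hS
  rcases hm with ⟨hl, hy, hsum⟩ | ⟨hl, hy, hsum⟩
  · have hloop := h.loop (c := e) (by rw [hy, he])
    have hm1 : (1 : ℚ) ≤ m := by
      have : 1 ≤ m := by omega
      exact_mod_cast this
    rw [hsum] at hs
    nlinarith [hloop.1]
  · have hed : e = d := by
      refine (h.thin.single d e ?_ ?_ ?_).symm
      · rw [← h1, h2]; exact fun hh => hne hh.symm
      · rw [hy, h1]
      · rw [he, h2]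
    subst hed
    have hm1 : (1 : ℚ) ≤ m := by
      have : 1 ≤ m := by omega
      exact_mod_cast this
    rw [hsum] at hs
    nlinarith

private theorem PosZ3_main (h : ZHyp Φ lam w) {a b c d : E} {p : List E} (h1 : Q.tgt a = Q.src b)
    (h2 : Q.tgt b = Q.src c) (h3 : Q.tgt c = Q.src a) (hab : Q.src a ≠ Q.src b)
    (hbc : Q.src b ≠ Q.src c) (hca : Q.src c ≠ Q.src a) (hle : lam a + lam b + lam c < 0)
    (hS : ∀ e ∈ p, e = a ∨ e = b ∨ e = c) (hp2 : 2 ≤ p.length)
    (hp : Q.IsPath (Q.src a) p (Q.src d)) (hd : Q.tgt d = Q.src a)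
    (hs : lam d + (p.map lam).sum = w) : False := by
  have hpos := h.pos
  obtain ⟨m, hm⟩ := PosZ3_cyc3 lam h1 h2 h3 hab hbc hca hp hS
  have hm0 : (0 : ℚ) ≤ m := Nat.cast_nonneg m
  rcases hm with ⟨hl, hy, hsum⟩ | ⟨hl, hy, hsum⟩ | ⟨hl, hy, hsum⟩
  · have hloop := h.loop (c := d) (by rw [hy, hd])
    have hm1 : (1 : ℚ) ≤ m := by
      have : 1 ≤ m := by omega
      exact_mod_cast this
    rw [hsum] at hs
    nlinarith [hloop.2]
  · rw [hsum] at hs
    have hm1 : (1 : ℚ) ≤ m := by
      have : 1 ≤ m := by omega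
      exact_mod_cast this
    have hwad : w < lam a + lam d := by nlinarith
    have hne : Q.src a ≠ Q.tgt a := by rw [h1]; exact hab
    have h1' : Q.tgt a = Q.src d := by rw [h1, hy]
    obtain ⟨e, q, hq1, hq2, hq3, hq4⟩ := h.exists_word {x | x = a ∨ x = d} (i := Q.src a)
      (l := [a, d]) (by simp) (by exact ⟨rfl, h1'.symm, hd⟩) (by simp)
    match q, hq2 with
    | x :: q', hq2 =>
      obtain ⟨hx, -⟩ := id hq3
      rcases hq1 x (by simp) with hxa | hxd
      · have he : Q.tgt e = Q.src a := by rw [← hx, hxa]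
        rw [he] at hq3
        exact PosZ3_alt h h1' hd hne hwad (fun c hc => hq1 c hc) hq2 hq3 he hq4
      · have he : Q.tgt e = Q.src d := by rw [← hx, hxd]
        rw [he] at hq3
        refine PosZ3_alt h hd h1' ?_ (by linarith) (fun c hc => (hq1 c hc).symm) hq2 hq3 he hq4
        rw [hd, ← h1']
        exact hne.symm
  · have hdc : d = c := by
      refine (h.thin.single c d ?_ ?_ ?_).symm
      · rw [h3]; exact hca
      · exact hy
      · rw [hd, h3]
    subst hdc
    rw [hsum] at hs
    nlinarith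

theorem ZHyp.three_cycle (h : ZHyp Φ lam w) {a b c : E} (h1 : Q.tgt a = Q.src b)
    (h2 : Q.tgt b = Q.src c) (h3 : Q.tgt c = Q.src a) (hab : Q.src a ≠ Q.src b)
    (hbc : Q.src b ≠ Q.src c) (hca : Q.src c ≠ Q.src a) : 0 ≤ lam a + lam b + lam c := by
  by_contra hcon
  rw [not_le] at hcon
  obtain ⟨d, p, hp1, hp2, hp3, hp4⟩ := h.exists_word {x | x = a ∨ x = b ∨ x = c} (i := Q.src a)
    (l := [a, b, c]) (by simp) (by exact ⟨rfl, h1.symm, h2.symm, h3⟩) (by simp)
  match p, hp2 with
  | x :: p', hp2 =>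
    obtain ⟨hx, -⟩ := id hp3
    rcases hp1 x (by simp) with hxa | hxb | hxc
    · have hd : Q.tgt d = Q.src a := by rw [← hx, hxa]
      rw [hd] at hp3
      exact PosZ3_main h h1 h2 h3 hab hbc hca hcon (fun e he => hp1 e he) hp2 hp3 hd hp4
    · have hd : Q.tgt d = Q.src b := by rw [← hx, hxb]
      rw [hd] at hp3
      exact PosZ3_main h h2 h3 h1 hbc hca hab (by linarith) (fun e he => by
        rcases hp1 e he with h | h | h
        · exact Or.inr (Or.inr h)
        · exact Or.inl h
        · exact Or.inr (Or.inl h)) hp2 hp3 hd hp4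
    · have hd : Q.tgt d = Q.src c := by rw [← hx, hxc]
      rw [hd] at hp3
      exact PosZ3_main h h3 h1 h2 hca hab hbc (by linarith) (fun e he => by
        rcases hp1 e he with h | h | h
        · exact Or.inr (Or.inl h)
        · exact Or.inr (Or.inr h)
        · exact Or.inl h) hp2 hp3 hd hp4



omit [Fintype V] [DecidableEq V] [DecidableEq E] [Fintype E] in
private theorem PosZ4_split {l₁ l₂ : List E} : ∀ {i j : V}, Q.IsPath i (l₁ ++ l₂) j →
    ∃ v, Q.IsPath i l₁ v ∧ Q.IsPath v l₂ j := by
  induction l₁ with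
  | nil => intro i j h; exact ⟨i, rfl, h⟩
  | cons a l ih =>
    intro i j h
    obtain ⟨v, h1, h2⟩ := ih h.2
    exact ⟨v, ⟨h.1, h1⟩, h2⟩

omit [Fintype V] [DecidableEq V] [DecidableEq E] [Fintype E] in
private theorem PosZ4_first {i j : V} {l : List E} (h : Q.IsPath i l j) (h0 : 0 < l.length) :
    Q.src l[0] = i := by
  match l, h with
  | a :: l, h => exact h.1

omit [Fintype V] [DecidableEq V] [DecidableEq E] [Fintype E] in
private theorem PosZ4_step {l : List E} : ∀ {i j : V}, Q.IsPath i l j →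
    ∀ k (hk : k + 1 < l.length), Q.tgt l[k] = Q.src l[k + 1] := by
  induction l with
  | nil => intro i j _ k hk; simp at hk
  | cons a l ih =>
    intro i j h k hk
    match k, hk with
    | 0, hk =>
      have h0 : 0 < l.length := by simpa using hk
      have := PosZ4_first h.2 h0
      simpa using this.symm
    | k + 1, hk =>
      have h1 : k + 1 < l.length := by simpa using hk
      have := ih h.2 k h1
      simpa using this

omit [Fintype V] [DecidableEq V] [DecidableEq E] [Fintype E] in
private theorem PosZ4_last {l : List E} : ∀ {i j : V}, Q.IsPath i l j →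
    ∀ k (hk : k < l.length), k + 1 = l.length → Q.tgt l[k] = j := by
  induction l with
  | nil => intro i j _ k hk _; simp at hk
  | cons a l ih =>
    intro i j h k hk he
    match k, hk, he with
    | 0, hk, he =>
      have h0 : l = [] := by
        rw [← List.length_eq_zero_iff]
        simpa using he.symm
      subst h0
      exact h.2
    | k + 1, hk, he =>
      have h1 : k < l.length := by simpa using hk
      have h2 : k + 1 = l.length := by simpa using he
      have := ih h.2 k h1 h2
      simpa using this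

private theorem PosZ4_dup {α β : Type} (f : α → β) {l : List α} (h : ¬ (l.map f).Nodup) :
    ∃ (l₁ : List α) (a : α) (l₂ : List α) (b : α) (l₃ : List α),
      l = l₁ ++ (a :: l₂) ++ (b :: l₃) ∧ f a = f b := by
  induction l with
  | nil => exact absurd List.nodup_nil h
  | cons c l ih =>
    rw [List.map_cons, List.nodup_cons, not_and_or, not_not] at h
    rcases h with h | h
    · obtain ⟨b, hb, hbc⟩ := List.mem_map.1 h
      obtain ⟨s, t, hst⟩ := List.append_of_mem hb
      exact ⟨[], c, s, b, t, by simp [hst], hbc.symm⟩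
    · obtain ⟨l₁, a, l₂, b, l₃, h1, h2⟩ := ih h
      exact ⟨c :: l₁, a, l₂, b, l₃, by simp [h1], h2⟩

omit [Fintype V] [DecidableEq V] [DecidableEq E] [Fintype E] in
private theorem PosZ4_long (ht : Thin Q) {i : V} {l : List E} (h4 : 4 ≤ l.length)
    (hn : (l.map Q.src).Nodup) (hp : Q.IsPath i l i) : False := by
  have hne : NeZero l.length := ⟨by omega⟩
  have hl : ∀ r : ZMod l.length, r.val < l.length := fun r => ZMod.val_lt r
  refine ht.cycles l.length h4 (fun r => Q.src (l[r.val]'(hl r))) ?_ ?_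
  · intro r s hrs
    have h1 : (l.map Q.src)[r.val]'(by rw [List.length_map]; exact hl r) =
        (l.map Q.src)[s.val]'(by rw [List.length_map]; exact hl s) := by
      rw [List.getElem_map, List.getElem_map]
      exact hrs
    exact ZMod.val_injective _ (hn.getElem_inj_iff.1 h1)
  · intro r
    refine ⟨l[r.val]'(hl r), rfl, ?_⟩
    by_cases hr : r.val + 1 < l.length
    · have h1 : (r + 1).val = r.val + 1 := by
        have h11 : (1 : ZMod l.length).val = 1 := ZMod.val_one'' (by omega)
        rw [ZMod.val_add_of_lt (by rw [h11]; exact hr), h11]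
      have h2 := PosZ4_step hp r.val hr
      simp only [h1]
      exact h2
    · have he : r.val + 1 = l.length := by have := hl r; omega
      have h1 : (r + 1).val = 0 := by
        have h11 : r + 1 = 0 := by
          have h12 : ((r.val + 1 : ℕ) : ZMod l.length) = 0 := by
            rw [he]
            exact ZMod.natCast_self _
          rw [Nat.cast_add, Nat.cast_one, ZMod.natCast_zmod_val] at h12
          exact h12
        rw [h11, ZMod.val_zero]
      have h2 := PosZ4_last hp r.val (hl r) he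
      have h3 := PosZ4_first hp (by omega)
      simp only [h1]
      rw [h2, h3]

theorem ZHyp.closed_nonneg (h : ZHyp Φ lam w) {i : V} {l : List E} (hl : l ≠ [])
    (hp : Q.IsPath i l i) : 0 ≤ (l.map lam).sum := by
  induction hn : l.length using Nat.strong_induction_on generalizing i l with
  | _ n ih =>
    by_cases hd : (l.map Q.src).Nodup
    · match l, hl, hp, hn, hd with
      | [a], _, hp, _, _ =>
        have h2 : Q.tgt a = i := hp.2
        have h1 := (h.loop (c := a) (hp.1.trans h2.symm)).1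
        simpa using h1
      | [a, b], _, hp, _, hd =>
        have e1 : Q.src a = i := hp.1
        have e2 : Q.src b = Q.tgt a := hp.2.1
        have e3 : Q.tgt b = i := hp.2.2
        have hne : Q.src a ≠ Q.tgt a := by
          rw [← e2]
          simp only [List.map_cons, List.map_nil, List.nodup_cons, List.mem_singleton] at hd
          exact hd.1
        have h1 := h.two e2.symm (e3.trans e1.symm) hne
        simpa using h1
      | [a, b, c], _, hp, _, hd =>
        have e1 : Q.src a = i := hp.1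
        have e2 : Q.src b = Q.tgt a := hp.2.1
        have e3 : Q.src c = Q.tgt b := hp.2.2.1
        have e4 : Q.tgt c = i := hp.2.2.2
        simp only [List.map_cons, List.map_nil, List.nodup_cons, List.mem_cons,
          List.not_mem_nil, or_false, not_or] at hd
        have h1 := h.three_cycle e2.symm e3.symm (e4.trans e1.symm) hd.1.1 hd.2.1
          (fun hh => hd.1.2 hh.symm)
        simp only [List.map_cons, List.map_nil, List.sum_cons, List.sum_nil]
        linarith
      | a :: b :: c :: d :: l', _, hp, _, hd =>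
        exact (PosZ4_long h.thin (by simp) hd hp).elim
    · obtain ⟨l₁, a, l₂, b, l₃, h1, h2⟩ := PosZ4_dup Q.src hd
      subst h1
      obtain ⟨y, hy1, hy2⟩ := PosZ4_split hp
      obtain ⟨x, hx1, hx2⟩ := PosZ4_split hy1
      have hxy : x = y := by
        rw [← hx2.1, ← hy2.1]
        exact h2
      subst hxy
      have len1 : (l₁ ++ (a :: l₂) ++ (b :: l₃)).length =
          l₁.length + (l₂.length + 1) + (l₃.length + 1) := by
        simp only [List.length_append, List.length_cons]
      have p1 := ih (a :: l₂).length (by rw [← hn, len1, List.length_cons]; omega)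
        (List.cons_ne_nil _ _) hx2 rfl
      have p2 := ih (l₁ ++ (b :: l₃)).length
        (by rw [← hn, len1, List.length_append, List.length_cons]; omega)
        (by simp) (hx1.append hy2) rfl
      simp only [List.map_append, List.sum_append] at p2 ⊢
      linarith


end Pool.Agent.Flop
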