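import Pool.Agent.Lib.FlA.ResC
import Pool.Agent.Lib.FlA.PartB

/-!
# ResA: restriction of automorphisms and of graded parts

`res_part`: coefficients (cf_res, cf_part; (l.map val).map lam = l.map (fun a => lam a.1)). `exists_res_aut`: ker (res o) is preserved by σ: res o f = 0 implies res o (σ f) = 0: mod Fil n, f is a finite combination of words word Q i l with non-zero coefficient in f, each passing through o (i = o, or j = o, or an arrow with source or target o: otherwise it is a word of the subquiver and its coefficient is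
(res o f).cf), so = u * e_o * v; σ (u e_o v) = σ u * e_o * σ v, killed by res o (res_mul, res_idem_o); continuity: aut_Fil, res_Fil, Fil_sep. So τ g := res o (σ (ι g)) (ι from exists_section) satisfies τ (res o f) = res o (σ f) (ι (res o f) - f in the kernel); it is an algebra homomorphism (surjectivity of res o), the inverse is given by σ.symm. τ (idem v) = res o (σ (idem v.1)) = idem v
(res_idem). AlgEquiv.ofAlgHom or AlgEquiv.ofBijective. (`res_one`, `res_add`, `res_smul` of ResB.)
-/

set_option autoImplicit false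

namespace Pool.Agent.Flop

open Finset

variable {V E : Type} [Fintype V] [DecidableEq V] [DecidableEq E] [Fintype E] {Q : Qv V E}

theorem res_part (o : V) (lam : E → ℚ) (μ : ℚ) (f : Hat Q) :
    res o (part lam μ f) = part (fun a => lam a.1) μ (res o f) := by
  classical
  apply Hat.ext_cf
  intro i j l
  rw [cf_res, cf_part, cf_part, cf_res, List.map_map]
  congr

/-- The restriction as a linear map. -/
private noncomputable def resAL (Q : Qv V E) (o : V) : Hat Q →ₗ[ℂ] Hat (Q.del o) where
  toFun := res o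
  map_add' := res_add o
  map_smul' := res_smul o

private theorem resAL_apply (o : V) (f : Hat Q) : resAL Q o f = res o f := rfl

omit [Fintype V] [DecidableEq V] [DecidableEq E] [Fintype E] in
private theorem resA_not_o {o : V} {k : V} (l : List E) : ∀ (i : V), i ≠ o →
    (∀ a ∈ l, Q.src a ≠ o ∧ Q.tgt a ≠ o) → Q.IsPath i l k → k ≠ o := by
  induction l with
  | nil =>
    intro i hi _ hp hk
    exact hi ((show i = k from hp).trans hk)
  | cons a l ih =>
    intro i _ hl hp
    exact ih (Q.tgt a) (hl a List.mem_cons_self).2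
      (fun b hb => hl b (List.mem_cons_of_mem a hb)) hp.2

private theorem resA_ker (o : V) (σ : Hat Q ≃ₐ[ℂ] Hat Q) (hσ : ∀ v, σ (idem Q v) = idem Q v)
    {f : Hat Q} (hf : res o f = 0) : res o (σ f) = 0 := by
  have hl : ∀ g h : Hat Q, res o (σ g) = 0 → res o (σ (h * g)) = 0 := fun g h hg => by
    rw [map_mul, res_mul, hg, mul_zero]
  have hr : ∀ g h : Hat Q, res o (σ g) = 0 → res o (σ (g * h)) = 0 := fun g h hg => by
    rw [map_mul, res_mul, hg, zero_mul]
  have ho : res o (σ (idem Q o)) = 0 := by rw [hσ, res_idem_o]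
  have harr : ∀ a, ¬ (Q.src a ≠ o ∧ Q.tgt a ≠ o) → res o (σ (arr Q a)) = 0 := by
    intro a ha
    by_cases h1 : Q.src a = o
    · rw [← idem_mul_arr a, h1]
      exact hr _ _ ho
    · by_cases h2 : Q.tgt a = o
      · rw [← arr_mul_idem a, h2]
        exact hl _ _ ho
      · exact absurd ⟨h1, h2⟩ ha
  have hprod : ∀ l : List E, (¬ ∀ a ∈ l, Q.src a ≠ o ∧ Q.tgt a ≠ o) →
      res o (σ ((l.map (arr Q)).prod)) = 0 := by
    intro l
    induction l with
    | nil => intro h; exact absurd (fun a ha => absurd ha List.not_mem_nil) h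
    | cons a l ih =>
      intro h
      rw [List.map_cons, List.prod_cons]
      by_cases ha : Q.src a ≠ o ∧ Q.tgt a ≠ o
      · refine hl _ _ (ih fun h' => h fun b hb => ?_)
        rcases List.mem_cons.1 hb with rfl | hb
        · exact ha
        · exact h' b hb
      · exact hr _ _ (harr a ha)
  refine Fil_sep fun n => ?_
  obtain ⟨s, hs, hn⟩ := exists_words f n
  have h1 : res o (σ (∑ t ∈ s, f.cf t.1 t.2.1 t.2.2 • word Q t.1 t.2.2)) = 0 := by
    rw [map_sum, res_sum]
    refine Finset.sum_eq_zero fun t ht => ?_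
    rw [map_smul, res_smul]
    have hw : res o (σ (word Q t.1 t.2.2)) = 0 := by
      by_cases hi : t.1 = o
      · unfold word
        rw [hi]
        exact hr _ _ ho
      · by_cases hl' : ∀ a ∈ t.2.2, Q.src a ≠ o ∧ Q.tgt a ≠ o
        · exfalso
          have hj := resA_not_o _ _ hi hl' (f.cf_path (hs t ht).1)
          apply (hs t ht).1
          have h2 := congrArg (fun g : Hat (Q.del o) => g.cf ⟨t.1, hi⟩ ⟨t.2.1, hj⟩
            (t.2.2.attachWith _ hl')) hf
          beta_reduce at h2
          rw [cf_res, Hat.cf_zero] at h2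
          rw [← h2]
          congr 1
          simp
        · unfold word
          exact hl _ _ (hprod _ hl')
    rw [hw, smul_zero]
  have h2 : res o (σ f) = res o (σ (f - ∑ t ∈ s, f.cf t.1 t.2.1 t.2.2 • word Q t.1 t.2.2)) := by
    rw [map_sub, ← resAL_apply o (σ f - _), map_sub, resAL_apply, resAL_apply, h1, sub_zero]
  rw [h2]
  exact res_Fil o (aut_Fil σ hσ n _ hn)

private theorem resA_hom (o : V) (σ : Hat Q ≃ₐ[ℂ] Hat Q) (hσ : ∀ v, σ (idem Q v) = idem Q v) :
    ∃ τ : Hat (Q.del o) →ₐ[ℂ] Hat (Q.del o), ∀ f, τ (res o f) = res o (σ f) := by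
  obtain ⟨ι, hι, -, -⟩ := exists_section (Q := Q) o
  have key : ∀ f, res o (σ (ι (res o f))) = res o (σ f) := by
    intro f
    have h1 : res o (ι (res o f) - f) = 0 := by
      rw [← resAL_apply, map_sub, resAL_apply, resAL_apply, hι, sub_self]
    have h2 := resA_ker o σ hσ h1
    rw [map_sub, ← resAL_apply, map_sub, resAL_apply, resAL_apply, sub_eq_zero] at h2
    exact h2
  refine ⟨AlgHom.ofLinearMap (resAL Q o ∘ₗ σ.toLinearMap ∘ₗ ι) ?_ ?_, key⟩
  · change res o (σ (ι 1)) = 1
    rw [← res_one o, key, map_one]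
  · intro g h
    change res o (σ (ι (g * h))) = res o (σ (ι g)) * res o (σ (ι h))
    have h1 : g * h = res o (ι g * ι h) := by rw [res_mul, hι, hι]
    rw [h1, key, map_mul, res_mul]

theorem exists_res_aut (o : V) (σ : Hat Q ≃ₐ[ℂ] Hat Q) (hσ : ∀ v, σ (idem Q v) = idem Q v) :
    ∃ τ : Hat (Q.del o) ≃ₐ[ℂ] Hat (Q.del o), (∀ v, τ (idem (Q.del o) v) = idem (Q.del o) v) ∧
      ∀ f, τ (res o f) = res o (σ f) := by
  have hσ' : ∀ v, σ.symm (idem Q v) = idem Q v := fun v => by
    rw [AlgEquiv.symm_apply_eq]; exact (hσ v).symm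
  obtain ⟨τ, hτ⟩ := resA_hom o σ hσ
  obtain ⟨ρ, hρ⟩ := resA_hom o σ.symm hσ'
  obtain ⟨ι, hι, -, -⟩ := exists_section (Q := Q) o
  refine ⟨AlgEquiv.ofAlgHom τ ρ ?_ ?_, ?_, hτ⟩
  · refine AlgHom.ext fun g => ?_
    rw [AlgHom.comp_apply, AlgHom.id_apply, ← hι g, hρ, hτ, AlgEquiv.apply_symm_apply]
  · refine AlgHom.ext fun g => ?_
    rw [AlgHom.comp_apply, AlgHom.id_apply, ← hι g, hτ, hρ, AlgEquiv.symm_apply_apply]
  · intro v
    change τ (idem (Q.del o) v) = idem (Q.del o) v
    rw [← res_idem, hτ, hσ]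

end Pool.Agent.Flop
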