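import Pool.Agent.Lib.FlA.Krl

/-!
# Conn: connectivity of the quiver of a model

`exists_path`: h.conn i: x = π f, π (e_i f e_o) <> 0, so e_i f e_o <> 0 has a non-zero coefficient: a path from i to o (Hat.cf_path, cf_idem_mul, cf_mul_idem). `exists_out`: for i <> o the path is not empty, its first arrow has source i. For i = o: take 0 <> r in m (nfield: Submodule.ne_bot_iff), r • π(e_o) <> 0 (tf; π(e_o) <> 0 by idem_not with f = 0)
and r • π(e_o) = π f with f = ρ * e_o (exists_lift_smul), π f in MA 1 (Submodule.smul_mem_smul with pow_one), so e_o f e_o in Fil 1 (fil_of_MA; π(e_o f e_o) = r • π(e_o)), non-zero, so a non-empty path from o to o. `const_of_arrows`: induction on the path from i to o.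
-/

set_option autoImplicit false

namespace Pool.Agent.Flop

open Finset

variable {V E : Type} [Fintype V] [DecidableEq V] [DecidableEq E] [Fintype E] {Q : Qv V E}
variable {R A : Type} [CommRing R] [IsLocalRing R] [IsNoetherianRing R] [Algebra ℂ R] [Ring A]
  [Algebra ℂ A] [Algebra R A] [IsScalarTower ℂ R A] {o : V} {W : Hat Q} {π : Hat Q →ₐ[ℂ] A}

omit [Fintype E] in
private theorem conn_path {f : Hat Q} {i j : V} (h : idem Q i * f * idem Q j ≠ 0) :
    ∃ l, (idem Q i * f * idem Q j).cf i j l ≠ 0 ∧ Q.IsPath i l j := by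
  by_contra hc
  push Not at hc
  apply h
  refine Hat.ext_cf fun p q l => ?_
  rw [Hat.cf_zero]
  by_cases hq : q = j
  · by_cases hp : p = i
    · subst hp; subst hq
      by_contra hne
      exact hc l hne (Hat.cf_path _ hne)
    · rw [cf_mul_idem, if_pos hq, cf_idem_mul, if_neg hp]
  · rw [cf_mul_idem, if_neg hq]

theorem Mdl.exists_path (h : Mdl R o W π) (i : V) : ∃ l, Q.IsPath i l o := by
  obtain ⟨x, hx⟩ := h.conn i
  obtain ⟨f, rfl⟩ := h.surj x
  have h1 : idem Q i * f * idem Q o ≠ 0 := by
    intro h0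
    apply hx
    rw [← map_mul, ← map_mul, h0, map_zero]
  obtain ⟨l, _, hl⟩ := conn_path h1
  exact ⟨l, hl⟩

theorem Mdl.exists_out (h : Mdl R o W π) (i : V) : ∃ a, Q.src a = i := by
  by_cases hi : i = o
  · subst hi
    obtain ⟨r, hr, hr0⟩ := (Submodule.ne_bot_iff _).1 h.nfield
    have he : π (idem Q i) ≠ 0 := by
      intro h0
      refine h.idem_not (Submodule.zero_mem _) i ?_
      rw [map_zero, h0]
    have h1 : r • π (idem Q i) ≠ 0 := by
      intro h0
      rcases h.tf r _ h0 with h2 | h2
      · exact hr0 h2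
      · exact he h2
    obtain ⟨ρ, _, hρ⟩ := h.exists_lift_smul r
    have hid : idem Q i * idem Q i = idem Q i := by rw [idem_mul_idem, if_pos rfl]
    have h2 : π (idem Q i * (ρ * idem Q i) * idem Q i) = r • π (idem Q i) := by
      rw [map_mul, map_mul, hρ, mul_smul_comm, smul_mul_assoc, ← map_mul, ← map_mul, hid, hid]
    have h3 : idem Q i * (ρ * idem Q i) * idem Q i ∈ Fil Q 1 := by
      apply h.fil_of_MA
      rw [h2, MA, pow_one]
      exact Submodule.smul_mem_smul hr Submodule.mem_top
    have h4 : idem Q i * (ρ * idem Q i) * idem Q i ≠ 0 := by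
      intro h0
      rw [h0, map_zero] at h2
      exact h1 h2.symm
    obtain ⟨l, hl1, hl2⟩ := conn_path h4
    cases l with
    | nil => exact absurd (mem_Fil.1 h3 i i [] (by simp)) hl1
    | cons a l => exact ⟨a, hl2.1⟩
  · obtain ⟨l, hl⟩ := h.exists_path i
    cases l with
    | nil => exact absurd hl hi
    | cons a l => exact ⟨a, hl.1⟩

theorem Mdl.const_of_arrows (h : Mdl R o W π) {G : Type} (w : V → G)
    (hw : ∀ b, w (Q.src b) = w (Q.tgt b)) (i : V) : w i = w o := by
  obtain ⟨l, hl⟩ := h.exists_path i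
  induction l generalizing i with
  | nil => exact congrArg w hl
  | cons a l ih =>
    obtain ⟨h1, h2⟩ := hl
    rw [← h1, hw a]
    exact ih _ h2

end Pool.Agent.Flop
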