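import Pool.Agent.Lib.FlA.S62

/-!
# JacF: potentials with the same derivatives modulo MM

(1) jac F <= jac W by jac_min. (2) Nakayama: for all n, for all f in jac W there is g in jac F with f - g in Fil n. Induction on n (n = 0: g = 0). Step: mod Fil (n+1), f is a finite sum of p * cyc a W * q; cyc a W = cyc a F + m_a with m_a in MM W, and mod Fil (n+1), m_a is a finite sum of p' * cyc b W * q' with p' in Fil 1 or q' in Fil 1;
by induction cyc b W = g_b + t_b, g_b in jac F, t_b in Fil n, so p' * t_b * q' in Fil (n+1). So jac W <= jac F (isCl_jac): jac F = jac W. (3) Syz F: given j, y, z with sum_a y a * cyc a F = sum_c z c * arr c, z c in jac F = jac W. exists_coef: p, z', x; since cyc a F - cyc a W in MM W and cyc a F - κ_{src a} • cyc a W in MM W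
(κ_i = (x i).cf i i []; last item of exists_coef, mm_of_left, mm_of_right): (1 - κ) • cyc a W in MM W, κ_{src a} = 1 by cyc_not_mem [import S61 facts as hypothesis hn]. sum_b (sum_a y a * p a b) * cyc b W = sum_c (z c - sum_a y a * z' a c) * arr c. Syz W: x' with (sum_a y a * p a b) - x' * arr b in jac W for src b = j.
If no arrow has source j there is nothing to prove. x j has constant coefficient 1 at (j, j): e_j x j e_j is invertible in e_j T e_j (exists_corner_inv, NLoc): u with u * (e_j x_j e_j) = e_j. For src b = j: arr b = u * e_j x_j * arr b and sum_a arr a * p a b - x j * arr b in jac W (multiply by e_j), so arr b = u * sum_a arr a * p a b mod jac W (sum over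
src a = j). So with X := x' * u: sum_a (y a - X * arr a) * p a b in jac W for src b = j (a with src a = j). p = identity modulo Fil 1 on the arrows with source j: v a := y a - X * arr a (v a e_{tgt a} = v a) satisfies v b = (sum_a v a * p a b) - sum_a v a * q a b, q in Fil 1, so v b in jac W + sum_a v a * q a b. Iterate: v b in jac W + Fil n for all n: claim by induction
on n: for all b with src b = j: v b = g + sum_a v a * q' a b with g in jac W, q' a b in Fil n. So v b in jac W (closed). Answer X.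
-/

set_option autoImplicit false

namespace Pool.Agent.Flop

open Finset

variable {V E : Type} [Fintype V] [DecidableEq V] [DecidableEq E] [Fintype E] {Q : Qv V E}

omit [Fintype E] in
private theorem jacF_cl (S : Submodule ℂ (Hat Q)) (n : ℕ) : IsCl (S ⊔ Fil Q n) := by
  intro f hf
  obtain ⟨s, hs, h⟩ := hf n
  have h1 := Submodule.add_mem _ hs (Submodule.mem_sup_right (S := S) h)
  rwa [add_sub_cancel] at h1

omit [Fintype E] in
private theorem jacF_l (F : Hat Q) (n : ℕ) (z f : Hat Q) (h : f ∈ jac F ⊔ Fil Q n) :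
    z * f ∈ jac F ⊔ Fil Q n := by
  obtain ⟨s, hs, t, ht, rfl⟩ := Submodule.mem_sup.1 h
  rw [mul_add]
  exact Submodule.add_mem_sup (jac_ml z hs) (mul_mem_Fil_left z ht)

omit [Fintype E] in
private theorem jacF_r (F : Hat Q) (n : ℕ) (z f : Hat Q) (h : f ∈ jac F ⊔ Fil Q n) :
    f * z ∈ jac F ⊔ Fil Q n := by
  obtain ⟨s, hs, t, ht, rfl⟩ := Submodule.mem_sup.1 h
  rw [add_mul]
  exact Submodule.add_mem_sup (jac_mr z hs) (mul_mem_Fil_right z ht)

omit [Fintype E] in
private theorem jacF_mm {W F : Hat Q} {n : ℕ} (h : jac W ≤ jac F ⊔ Fil Q n) :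
    MM W ≤ jac F ⊔ Fil Q (n + 1) := by
  intro f hf
  unfold MM at hf
  obtain ⟨t, ht, h1⟩ := mem_cl.1 hf (n + 1)
  have h2 : t ∈ jac F ⊔ Fil Q (n + 1) := by
    refine (Submodule.span_le.2 ?_) ht
    rintro _ ⟨a, p, q, rfl, hpq⟩
    obtain ⟨s, hs, r, hr, hsr⟩ := Submodule.mem_sup.1 (h (cyc_jac W a))
    rw [← hsr, mul_add, add_mul]
    refine Submodule.add_mem_sup (jac_mr q (jac_ml p hs)) ?_
    rcases hpq with hp | hq
    · rw [add_comm n 1]
      exact mul_mem_Fil_right q (mul_mem_Fil hp hr)
    · exact mul_mem_Fil (mul_mem_Fil_left p hr) hq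
  have h3 := Submodule.add_mem _ h2 (Submodule.mem_sup_right (S := jac F) h1)
  rwa [add_sub_cancel] at h3

theorem jac_eq_of_mm {W F : Hat Q} (hF : ∀ a, cyc a F ∈ jac W)
    (hM : ∀ a, cyc a F - cyc a W ∈ MM W) : jac F = jac W := by
  have key : ∀ n, jac W ≤ jac F ⊔ Fil Q n := by
    intro n
    induction n with
    | zero =>
      rw [Fil_zero, sup_top_eq]
      exact le_top
    | succ n ih =>
      refine jac_min (jacF_cl (jac F) (n + 1)) (jacF_l F (n + 1)) (jacF_r F (n + 1)) ?_
      intro a
      have h1 := Submodule.sub_mem _ (Submodule.mem_sup_left (T := Fil Q (n + 1)) (cyc_jac F a))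
        (jacF_mm ih (hM a))
      rwa [sub_sub_cancel] at h1
  apply le_antisymm
  · exact jac_min (isCl_jac W) (fun z f hf => jac_ml z hf) (fun z f hf => jac_mr z hf) hF
  · intro f hf
    refine isCl_jac F f fun n => ?_
    obtain ⟨s, hs, t, ht, hst⟩ := Submodule.mem_sup.1 (key n hf)
    refine ⟨s, hs, ?_⟩
    rw [← hst, add_sub_cancel_left]
    exact ht

private theorem jacF_nak {W : Hat Q} {j : V} (v : E → Hat Q) (q : E → E → Hat Q)
    (hq1 : ∀ a b, q a b ∈ Fil Q 1) (hq0 : ∀ a b, Q.src b ≠ Q.src a → q a b = 0)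
    (hG : ∀ b, Q.src b = j → v b + ∑ a, v a * q a b ∈ jac W) :
    ∀ b, Q.src b = j → v b ∈ jac W := by
  classical
  have hit : ∀ n : ℕ, ∀ b, Q.src b = j → ∃ g ∈ jac W, ∃ r : E → Hat Q,
      (∀ a, r a ∈ Fil Q n) ∧ (∀ a, Q.src a ≠ j → r a = 0) ∧ v b = g + ∑ a, v a * r a := by
    intro n
    induction n with
    | zero =>
      intro b hb
      refine ⟨0, Submodule.zero_mem _, fun a => if a = b then 1 else 0,
        fun a => by rw [Fil_zero]; trivial, fun a ha => if_neg fun h => ha (by rw [h, hb]), ?_⟩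
      rw [zero_add]
      have e : ∀ a, v a * (if a = b then 1 else 0) = if a = b then v a else 0 := by
        intro a
        split_ifs
        · rw [mul_one]
        · rw [mul_zero]
      rw [Finset.sum_congr rfl fun a _ => e a, Finset.sum_ite_eq', if_pos (Finset.mem_univ b)]
    | succ n ih =>
      intro b hb
      obtain ⟨g, hg, r, hr1, hr2, hr3⟩ := ih b hb
      refine ⟨g + ∑ a, (v a + ∑ c, v c * q c a) * r a, ?_,
        fun c => 0 - ∑ a, q c a * r a, ?_, ?_, ?_⟩
      · refine Submodule.add_mem _ hg (Submodule.sum_mem _ fun a _ => ?_)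
        by_cases ha : Q.src a = j
        · exact jac_mr (r a) (hG a ha)
        · rw [hr2 a ha, mul_zero]
          exact Submodule.zero_mem _
      · intro c
        refine Submodule.sub_mem _ (Submodule.zero_mem _) (Submodule.sum_mem _ fun a _ => ?_)
        have e0 := mul_mem_Fil (hq1 c a) (hr1 a)
        rwa [add_comm 1 n] at e0
      · intro c hc
        have e0 : ∑ a, q c a * r a = 0 := by
          refine Finset.sum_eq_zero fun a _ => ?_
          by_cases ha : Q.src a = j
          · rw [hq0 c a (fun h => hc (h.symm.trans ha)), zero_mul]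
          · rw [hr2 a ha, mul_zero]
        beta_reduce
        rw [e0, sub_zero]
      · have e1 : ∑ a, (v a + ∑ c, v c * q c a) * r a =
            ∑ a, v a * r a + ∑ c, v c * ∑ a, q c a * r a := by
          have e2 : ∀ a, (v a + ∑ c, v c * q c a) * r a =
              v a * r a + ∑ c, v c * (q c a * r a) := by
            intro a
            rw [add_mul, Finset.sum_mul]
            congr 1
            exact Finset.sum_congr rfl fun c _ => mul_assoc _ _ _
          rw [Finset.sum_congr rfl fun a _ => e2 a, Finset.sum_add_distrib]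
          congr 1
          rw [Finset.sum_comm]
          exact Finset.sum_congr rfl fun c _ => (Finset.mul_sum _ _ _).symm
        obtain ⟨R, hR⟩ : ∃ R : E → Hat Q, ∀ c, R c = ∑ a, q c a * r a := ⟨_, fun c => rfl⟩
        have e3 : ∑ c, v c * (0 - R c) = 0 - ∑ c, v c * R c := by
          simp only [mul_sub, mul_zero, Finset.sum_sub_distrib, Finset.sum_const_zero]
        simp only [← hR] at e1 ⊢
        rw [e1, e3, hr3]
        abel
  intro b hb
  refine isCl_jac W _ fun n => ?_
  obtain ⟨g, hg, r, hr1, _, hr3⟩ := hit n b hb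
  refine ⟨g, hg, ?_⟩
  rw [hr3, add_sub_cancel_left]
  exact Submodule.sum_mem _ fun c _ => mul_mem_Fil_left _ (hr1 c)

private theorem jacF_idem (j : V) : idem Q j * idem Q j = idem Q j := by
  refine Hat.ext_cf fun i k l => ?_
  rw [cf_idem_mul, cf_idem]
  by_cases hi : i = j
  · rw [if_pos hi]
  · rw [if_neg hi, if_neg (fun h => hi h.1)]

private theorem jacF_idarr {j : V} {b : E} (hb : Q.src b = j) :
    idem Q j * arr Q b = arr Q b := by
  refine Hat.ext_cf fun i k l => ?_
  rw [cf_idem_mul, cf_arr]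
  by_cases hi : i = j
  · rw [if_pos hi]
  · rw [if_neg hi, if_neg (fun h => hi (h.1.trans hb))]

private theorem jacF_arrid (b : E) : arr Q b * idem Q (Q.tgt b) = arr Q b := by
  refine Hat.ext_cf fun i k l => ?_
  rw [cf_mul_idem, cf_arr]
  by_cases hi : k = Q.tgt b
  · rw [if_pos hi]
  · rw [if_neg hi, if_neg (fun h => hi h.2.1)]

private theorem jacF_corner {j : V} (x : Hat Q) (h : x.cf j j [] = 1) :
    ∃ u : Hat Q, ∀ b, Q.src b = j → u * (x * arr Q b) = arr Q b := by
  obtain ⟨u, hu1, _, hu3⟩ := exists_corner_inv j (idem Q j * x * idem Q j)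
    (by
      calc idem Q j * (idem Q j * x * idem Q j) * idem Q j =
          (idem Q j * idem Q j) * x * (idem Q j * idem Q j) := by simp only [mul_assoc]
        _ = idem Q j * x * idem Q j := by rw [jacF_idem])
    (by
      rw [cf_mul_idem, if_pos rfl, cf_idem_mul, if_pos rfl, h]
      exact one_ne_zero)
  refine ⟨u, fun b hb => ?_⟩
  have huj : u * idem Q j = u := by
    rw [← hu1, mul_assoc (idem Q j * u), jacF_idem]
  calc u * (x * arr Q b) = (u * idem Q j) * (x * (idem Q j * arr Q b)) := by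
        rw [huj, jacF_idarr hb]
    _ = u * (idem Q j * x * idem Q j) * arr Q b := by simp only [mul_assoc]
    _ = arr Q b := by rw [hu3, jacF_idarr hb]

private theorem jacF_const {W F : Hat Q} (k : ℂ) (a : E) (p q z' : E → Hat Q)
    (h7 : cyc a F = ∑ b, p b * cyc b W + ∑ c, z' c * arr Q c)
    (hpq : ∀ b, p b = q b + (if a = b then k • idem Q (Q.tgt a) else 0))
    (hq1 : ∀ b, q b ∈ Fil Q 1) (h4 : ∀ c, z' c ∈ jac W)
    (hM : cyc a F - cyc a W ∈ MM W) (hn : cyc a W ∉ MM W) : k = 1 := by
  have e1 : cyc a F - k • cyc a W = ∑ b, q b * cyc b W + ∑ c, z' c * arr Q c := by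
    rw [h7]
    have e2 : ∑ b, p b * cyc b W = ∑ b, q b * cyc b W + k • cyc a W := by
      have e3 : ∀ b, p b * cyc b W = q b * cyc b W + (if a = b then k • cyc b W else 0) := by
        intro b
        rw [hpq b, add_mul]
        congr 1
        by_cases hab : a = b
        · rw [if_pos hab, if_pos hab, smul_mul_assoc, hab, idem_mul_cyc]
        · rw [if_neg hab, if_neg hab, zero_mul]
      rw [Finset.sum_congr rfl fun b _ => e3 b, Finset.sum_add_distrib, Finset.sum_ite_eq,
        if_pos (Finset.mem_univ a)]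
    rw [e2, add_right_comm, add_sub_cancel_right]
  have e4 : cyc a F - k • cyc a W ∈ MM W := by
    rw [e1]
    refine Submodule.add_mem _ (Submodule.sum_mem _ fun b _ => ?_)
      (Submodule.sum_mem _ fun c _ => ?_)
    · exact mm_of_left (hq1 b) (cyc_jac W b)
    · exact mm_of_right (arr_mem_Fil c) (h4 c)
  have e5 := Submodule.sub_mem _ hM e4
  have e6 : cyc a F - cyc a W - (cyc a F - k • cyc a W) = (k - 1) • cyc a W := by
    rw [sub_smul, one_smul, sub_sub_sub_cancel_left]
  rw [e6] at e5
  by_contra hne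
  have e7 := Submodule.smul_mem _ (k - 1)⁻¹ e5
  rw [smul_smul, inv_mul_cancel₀ (sub_ne_zero.2 hne), one_smul] at e7
  exact hn e7

private theorem jacF_sum {W F : Hat Q} {y z : E → Hat Q} {p z' : E → E → Hat Q}
    (heq : ∑ a, y a * cyc a F = ∑ c, z c * arr Q c)
    (h7 : ∀ a, cyc a F = ∑ b, p a b * cyc b W + ∑ c, z' a c * arr Q c) :
    ∑ b, (∑ a, y a * p a b) * cyc b W = ∑ c, (z c - ∑ a, y a * z' a c) * arr Q c := by
  have e1 : ∑ a, y a * cyc a F = ∑ b, (∑ a, y a * p a b) * cyc b W +
      ∑ c, (∑ a, y a * z' a c) * arr Q c := by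
    have e2 : ∀ a, y a * cyc a F = ∑ b, y a * p a b * cyc b W +
        ∑ c, y a * z' a c * arr Q c := by
      intro a
      rw [h7 a, mul_add, Finset.mul_sum, Finset.mul_sum]
      congr 1
      · exact Finset.sum_congr rfl fun b _ => (mul_assoc _ _ _).symm
      · exact Finset.sum_congr rfl fun c _ => (mul_assoc _ _ _).symm
    rw [Finset.sum_congr rfl fun a _ => e2 a, Finset.sum_add_distrib, Finset.sum_comm]
    congr 1
    · exact Finset.sum_congr rfl fun b _ => (Finset.sum_mul _ _ _).symm
    · rw [Finset.sum_comm]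
      exact Finset.sum_congr rfl fun c _ => (Finset.sum_mul _ _ _).symm
  have e3 : ∑ c, (z c - ∑ a, y a * z' a c) * arr Q c =
      ∑ c, z c * arr Q c - ∑ c, (∑ a, y a * z' a c) * arr Q c := by
    rw [← Finset.sum_sub_distrib]
    exact Finset.sum_congr rfl fun c _ => sub_mul _ _ _
  rw [e3, ← heq, e1, add_sub_cancel_right]

private theorem jacF_key {W : Hat Q} {y v : E → Hat Q} {p q : E → E → Hat Q} {x' u : Hat Q}
    (b : E) (hv : ∀ a, v a = y a - x' * u * arr Q a)
    (hvt : v b * idem Q (Q.tgt b) = v b)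
    (hpq : ∀ a, p a b = q a b + (if a = b then idem Q (Q.tgt a) else 0))
    (h1 : ∑ a, y a * p a b - x' * arr Q b ∈ jac W)
    (h2 : u * (∑ a, arr Q a * p a b) - arr Q b ∈ jac W) :
    v b + ∑ a, v a * q a b ∈ jac W := by
  have e4 : ∑ a, v a * p a b = (∑ a, y a * p a b - x' * arr Q b) -
      x' * (u * (∑ a, arr Q a * p a b) - arr Q b) := by
    have e5 : ∑ a, v a * p a b = ∑ a, y a * p a b -
        x' * (u * ∑ a, arr Q a * p a b) := by
      rw [Finset.mul_sum, Finset.mul_sum, ← Finset.sum_sub_distrib]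
      refine Finset.sum_congr rfl fun a _ => ?_
      rw [hv, sub_mul]
      simp only [mul_assoc]
    rw [e5, mul_sub, sub_sub_sub_cancel_right]
  have e6 : ∑ a, v a * p a b = v b + ∑ a, v a * q a b := by
    have e7 : ∀ a, v a * p a b = v a * q a b + (if a = b then v a else 0) := by
      intro a
      rw [hpq a, mul_add]
      congr 1
      by_cases hab : a = b
      · rw [if_pos hab, if_pos hab, hab, hvt]
      · rw [if_neg hab, if_neg hab, mul_zero]
    rw [Finset.sum_congr rfl fun a _ => e7 a, Finset.sum_add_distrib, Finset.sum_ite_eq',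
      if_pos (Finset.mem_univ b), add_comm]
  rw [← e6, e4]
  exact Submodule.sub_mem _ h1 (jac_ml x' h2)

theorem syz_of_mm {W F : Hat Q} (hW : W ∈ Fil Q 3) (hs : Syz W)
    (hn : ∀ a, cyc a W ∉ MM W) (hF : ∀ a, cyc a F ∈ jac W)
    (hM : ∀ a, cyc a F - cyc a W ∈ MM W) : Syz F := by
  have hJ : jac F = jac W := jac_eq_of_mm hF hM
  intro j y z hy1 hy2 hz heq
  rw [hJ] at hz ⊢
  by_cases ha0 : ∃ a, Q.src a = j
  swap
  · exact ⟨0, fun a ha => absurd ⟨a, ha⟩ ha0⟩
  obtain ⟨a0, ha0⟩ := ha0
  obtain ⟨p, z', x, h1, _, h3, h4, _, _, h7, h8, h9⟩ := exists_coef hW hs hF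
  have hk : ∀ a, (x (Q.src a)).cf (Q.src a) (Q.src a) [] = 1 := fun a =>
    jacF_const _ a (p a) _ (z' a) (h7 a) (fun b => (sub_add_cancel _ _).symm) (h9 a) (h4 a)
      (hM a) (hn a)
  obtain ⟨q, hq⟩ : ∃ q : E → E → Hat Q, ∀ a b, q a b = p a b -
      (if a = b then idem Q (Q.tgt a) else 0) := ⟨_, fun a b => rfl⟩
  have hq1 : ∀ a b, q a b ∈ Fil Q 1 := fun a b => by
    have e := h9 a b
    rw [hk a, one_smul] at e
    rw [hq]
    exact e
  have hpq : ∀ a b, p a b = q a b + (if a = b then idem Q (Q.tgt a) else 0) :=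
    fun a b => by rw [hq, sub_add_cancel]
  have hq0 : ∀ a b, Q.src b ≠ Q.src a → q a b = 0 := by
    intro a b hab
    rw [hq, h3 a b hab, if_neg (fun h => hab (by rw [h])), sub_zero]
  obtain ⟨x', hx'⟩ := hs j (fun b => ∑ a, y a * p a b) (fun c => z c - ∑ a, y a * z' a c)
    (by
      intro b
      rw [Finset.sum_mul]
      exact Finset.sum_congr rfl fun a _ => by rw [mul_assoc, h1])
    (by
      intro b hb
      refine Finset.sum_eq_zero fun a _ => ?_
      by_cases ha : Q.src a = j
      · rw [h3 a b (fun h => hb (h.trans ha)), mul_zero]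
      · rw [hy2 a ha, zero_mul])
    (fun c => Submodule.sub_mem _ (hz c) (Submodule.sum_mem _ fun a _ => jac_ml _ (h4 a c)))
    (jacF_sum heq h7)
  obtain ⟨u, hu⟩ := jacF_corner (Q := Q) (j := j) (x j) (by
    have e := hk a0
    rwa [ha0] at e)
  obtain ⟨v, hv⟩ : ∃ v : E → Hat Q, ∀ a, v a = y a - x' * u * arr Q a := ⟨_, fun a => rfl⟩
  have hvt : ∀ b, v b * idem Q (Q.tgt b) = v b := by
    intro b
    rw [hv, sub_mul, hy1, mul_assoc, jacF_arrid]
  have hG : ∀ b, Q.src b = j → v b + ∑ a, v a * q a b ∈ jac W := by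
    intro b hb
    refine jacF_key b hv (hvt b) (fun a => hpq a b) (hx' b hb) ?_
    have e1 := jac_ml u (h8 b)
    rw [mul_sub, hb, hu b hb] at e1
    exact e1
  refine ⟨x' * u, fun a ha => ?_⟩
  rw [← hv]
  exact jacF_nak v q hq1 hq0 hG a ha

end Pool.Agent.Flop
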