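import Pool.Agent.Lib.FlA.RcB

/-!
# CycId: the cyclic identity

`cyc_identity`: coefficient of a word l from i to k on both sides. LEFT: only i = k = j and l = a :: l' with src a = j contribute, the value is (with l' of length r)
the sum over v and n <= r of F.cf v v (l'.drop n ++ a :: l'.take n), and l'.drop n ++ a :: l'.take n = l.rotate (n + 1). RIGHT: l = l'' ++ [c], value: sum over v, n <= r of
F.cf v v (l''.drop n ++ c :: l''.take n), and l''.drop n ++ c :: l''.take n = l.rotate n. As l.rotate (r + 1) = l (r + 1 = length of l), both sums over the rotations of l agree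
(`Finset.sum_range_succ'`, `Finset.sum_range_succ`, `List.rotate_length`, `List.rotate_eq_drop_append_take`). The length 0 word has coefficient 0 on both sides. If i <> j or
k <> j both coefficients are 0 (arr a * cyc a F goes from src a to src a, cyc c F * arr c from tgt c to tgt c).
`cyc_eq_sum_rc`: apply rc b to cyc_identity with j = tgt b: left: rc b (arr a * cyc a F) = arr a * rc b (cyc a F) (rc_mul, cyc a F in Fil 1 by cyc_mem_Fil);
right: rc b (cyc c F * arr c) = 0 for c <> b and = cyc b F * idem (src b) = cyc b F for c = b (rc_mul_arr, cyc_mul_idem).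
-/

set_option autoImplicit false

namespace Pool.Agent.Flop

open Finset

variable {V E : Type} [Fintype V] [DecidableEq V] [DecidableEq E] {Q : Qv V E}

omit [Fintype V] [DecidableEq V] [DecidableEq E] in
private theorem path_concat {i k : V} {l : List E} {c : E} (h : Q.IsPath i (l ++ [c]) k) :
    Q.IsPath i l (Q.src c) ∧ Q.tgt c = k := by
  induction l generalizing i with
  | nil => exact ⟨h.1.symm, h.2⟩
  | cons a l ih => exact ⟨⟨h.1, (ih h.2).1⟩, (ih h.2).2⟩

private theorem cf_mul_arr_nil (c : E) (f : Hat Q) (i k : V) :
    (f * arr Q c).cf i k [] = 0 := by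
  rw [Hat.cf_mul]
  refine Finset.sum_eq_zero fun p _ => Finset.sum_eq_zero fun n _ => ?_
  rw [cf_arr, if_neg, mul_zero]
  rintro ⟨-, -, h⟩
  simp at h

private theorem cf_mul_arr_concat (b c : E) (f : Hat Q) (i k : V) (l : List E) :
    (f * arr Q c).cf i k (l ++ [b]) =
      if b = c ∧ k = Q.tgt c then f.cf i (Q.src c) l else 0 := by
  rw [Hat.cf_mul]
  simp only [cf_arr]
  by_cases h : b = c ∧ k = Q.tgt c
  · obtain ⟨rfl, rfl⟩ := h
    rw [if_pos ⟨rfl, rfl⟩, Finset.sum_eq_single (Q.src b), Finset.sum_eq_single l.length]
    · simp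
    · intro n hn hne
      rw [if_neg, mul_zero]
      rintro ⟨-, -, h3⟩
      have h4 := congrArg List.length h3
      simp only [List.length_drop, List.length_append, List.length_singleton] at h4
      omega
    · intro h0
      exfalso
      apply h0
      rw [Finset.mem_range, List.length_append, List.length_singleton]
      omega
    · intro p _ hp
      refine Finset.sum_eq_zero fun n _ => ?_
      rw [if_neg, mul_zero]
      rintro ⟨h3, -, -⟩
      exact hp h3
    · intro h0
      simp at h0
  · rw [if_neg h]
    refine Finset.sum_eq_zero fun p _ => Finset.sum_eq_zero fun n hn => ?_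
    rw [if_neg, mul_zero]
    rintro ⟨-, h2, h3⟩
    apply h
    refine ⟨?_, h2⟩
    have h4 := congrArg List.length h3
    simp only [List.length_drop, List.length_append, List.length_singleton] at h4
    have h5 : n = l.length := by
      omega
    rw [h5, List.drop_left] at h3
    exact (List.cons.inj h3).1

omit [DecidableEq E] in
private theorem cf_cyc' (a : E) (Φ : Hat Q) (i j : V) (l : List E) :
    (cyc a Φ).cf i j l = if i = Q.tgt a ∧ j = Q.src a then
      ∑ v, ∑ k ∈ range (l.length + 1), Φ.cf v v (l.drop k ++ a :: l.take k) else 0 := rfl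

theorem cyc_identity [Fintype E] (F : Hat Q) (j : V) :
    ∑ a, (if Q.src a = j then arr Q a * cyc a F else 0) =
      ∑ c, (if Q.tgt c = j then cyc c F * arr Q c else 0) := by
  refine Hat.ext_cf fun i k l => ?_
  by_cases hp : Q.IsPath i l k
  swap
  · have h0 : ∀ f : Hat Q, f.cf i k l = 0 := fun f => by
      by_contra hc
      exact hp (f.cf_path hc)
    rw [h0, h0]
  rw [Hat.cf_sum, Hat.cf_sum]
  rcases List.eq_nil_or_concat l with rfl | ⟨l'', c, hl0⟩
  · rw [Finset.sum_eq_zero, Finset.sum_eq_zero]
    · intro c _
      split_ifs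
      · exact cf_mul_arr_nil c _ i k
      · rfl
    · intro a _
      split_ifs
      · rw [cf_arr_mul, if_neg]
        simp
      · rfl
  have hl : l = l'' ++ [c] := by rw [hl0, List.concat_eq_append]
  have hR : ∑ c', (if Q.tgt c' = j then cyc c' F * arr Q c' else 0).cf i k l =
      if k = j ∧ i = k then ∑ v, ∑ n ∈ range l.length, F.cf v v (l.rotate n) else 0 := by
    rw [Finset.sum_eq_single c]
    · rw [hl] at hp ⊢
      have hck := (path_concat hp).2
      by_cases h : k = j ∧ i = k
      · obtain ⟨rfl, rfl⟩ := h
        rw [if_pos hck, if_pos ⟨rfl, rfl⟩, cf_mul_arr_concat, if_pos ⟨rfl, hck.symm⟩, cf_cyc',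
          if_pos ⟨hck.symm, rfl⟩]
        refine Finset.sum_congr rfl fun v _ => ?_
        rw [List.length_append, List.length_singleton]
        refine Finset.sum_congr rfl fun n hn => ?_
        rw [Finset.mem_range] at hn
        congr 1
        rw [List.rotate_eq_drop_append_take (by simp; omega),
          List.drop_append_of_le_length (by omega), List.take_append_of_le_length (by omega)]
        simp
      · rw [if_neg h]
        split_ifs with h1
        · rw [cf_mul_arr_concat, if_pos ⟨rfl, hck.symm⟩, cf_cyc', if_neg]
          rintro ⟨h2, -⟩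
          exact h ⟨hck.symm.trans h1, h2.trans hck⟩
        · rfl
    · intro b _ hb
      split_ifs
      · rw [hl, cf_mul_arr_concat, if_neg]
        rintro ⟨h1, -⟩
        exact hb h1.symm
      · rfl
    · intro h0
      simp at h0
  obtain ⟨a, l', hl'⟩ : ∃ a l', l = a :: l' := by
    cases l with
    | nil => simp at hl
    | cons a l' => exact ⟨a, l', rfl⟩
  have hL : ∑ a', (if Q.src a' = j then arr Q a' * cyc a' F else 0).cf i k l =
      if k = j ∧ i = k then ∑ v, ∑ n ∈ range l.length, F.cf v v (l.rotate (n + 1)) else 0 := by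
    rw [Finset.sum_eq_single a]
    · rw [hl'] at hp ⊢
      have hai := hp.1
      by_cases h : k = j ∧ i = k
      · obtain ⟨rfl, rfl⟩ := h
        rw [if_pos hai, if_pos ⟨rfl, rfl⟩, cf_arr_mul, if_pos ⟨hai.symm, rfl⟩, List.tail_cons,
          cf_cyc', if_pos ⟨rfl, hai.symm⟩]
        refine Finset.sum_congr rfl fun v _ => ?_
        rw [List.length_cons]
        refine Finset.sum_congr rfl fun n hn => ?_
        rw [Finset.mem_range] at hn
        congr 1
        rw [List.rotate_eq_drop_append_take (by simp; omega)]
        simp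
      · rw [if_neg h]
        split_ifs with h1
        · rw [cf_arr_mul, if_pos ⟨hai.symm, rfl⟩, cf_cyc', if_neg]
          rintro ⟨-, h2⟩
          exact h ⟨h2.trans h1, hai.symm.trans h2.symm⟩
        · rfl
    · intro b _ hb
      split_ifs
      · rw [cf_arr_mul, if_neg]
        rintro ⟨-, h1⟩
        rw [hl'] at h1
        simp only [List.head?_cons, Option.some.injEq] at h1
        exact hb h1.symm
      · rfl
    · intro h0
      simp at h0
  rw [hL, hR]
  split_ifs
  · refine Finset.sum_congr rfl fun v _ => ?_
    have h1 := Finset.sum_range_succ (fun n => F.cf v v (l.rotate n)) l.length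
    have h2 := Finset.sum_range_succ' (fun n => F.cf v v (l.rotate n)) l.length
    rw [h1, List.rotate_length, List.rotate_zero] at h2
    exact (add_right_cancel h2).symm
  · rfl

theorem cyc_eq_sum_rc [Fintype E] {F : Hat Q} (h : F ∈ Fil Q 2) (b : E) :
    ∑ a, (if Q.src a = Q.tgt b then arr Q a * rc b (cyc a F) else 0) = cyc b F := by
  have h1 := congrArg (rc b) (cyc_identity F (Q.tgt b))
  rw [rc_sum, rc_sum] at h1
  have h0 : rc b (0 : Hat Q) = 0 := by
    have := rc_smul b 0 (0 : Hat Q)
    rwa [zero_smul, zero_smul] at this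
  have hL : ∀ a, rc b (if Q.src a = Q.tgt b then arr Q a * cyc a F else 0) =
      if Q.src a = Q.tgt b then arr Q a * rc b (cyc a F) else 0 := by
    intro a
    split_ifs
    · exact rc_mul b _ (cyc_mem_Fil a h)
    · exact h0
  have hR : ∀ c, rc b (if Q.tgt c = Q.tgt b then cyc c F * arr Q c else 0) =
      if b = c then cyc b F else 0 := by
    intro c
    by_cases hc : b = c
    · subst hc
      rw [if_pos rfl, if_pos rfl, rc_mul_arr, if_pos rfl, cyc_mul_idem]
    · rw [if_neg hc]
      split_ifs
      · rw [rc_mul_arr, if_neg hc]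
      · exact h0
  rw [Finset.sum_congr rfl (fun a _ => hL a), Finset.sum_congr rfl (fun c _ => hR c),
    Finset.sum_ite_eq, if_pos (Finset.mem_univ b)] at h1
  exact h1

end Pool.Agent.Flop
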