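import Pool.Agent.Lib.FlA.Yl
import Pool.Agent.Lib.FlA.CycId

/-!
# S62: potentials with derivatives in the Jacobi ideal

If all cyclic derivatives of `F` lie in the Jacobi ideal of `W`, they are up to `MM W` multiples of
the cyclic derivatives of `W` by constants which depend only on the source of the arrow.
-/

set_option autoImplicit false

namespace Pool.Agent.Flop

open Finset

variable {V E : Type} [Fintype V] [DecidableEq V] [DecidableEq E] [Fintype E] {Q : Qv V E}

theorem exists_coef {W F : Hat Q} (hW : W ∈ Fil Q 3) (hs : Syz W)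
    (hF : ∀ a, cyc a F ∈ jac W) : ∃ (p z : E → E → Hat Q) (x : V → Hat Q),
      (∀ a b, p a b * idem Q (Q.tgt b) = p a b) ∧ (∀ a b, idem Q (Q.tgt a) * p a b = p a b) ∧
      (∀ a b, Q.src b ≠ Q.src a → p a b = 0) ∧ (∀ a c, z a c ∈ jac W) ∧
      (∀ a c, Q.tgt c ≠ Q.src a → z a c = 0) ∧ (∀ a c, z a c * idem Q (Q.src c) = z a c) ∧
      (∀ a, cyc a F = ∑ b, p a b * cyc b W + ∑ c, z a c * arr Q c) ∧
      (∀ b, ∑ a, arr Q a * p a b - x (Q.src b) * arr Q b ∈ jac W) ∧
      ∀ a b, p a b - (if a = b then (x (Q.src a)).cf (Q.src a) (Q.src a) [] •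
        idem Q (Q.tgt a) else 0) ∈ Fil Q 1 := by
  choose p0 z0 h1 h2 h3 h4 h5 h6 using fun a : E => y_lemma (hF a) (cyc_mul_idem a F)
  obtain ⟨p, hp⟩ : ∃ p : E → E → Hat Q, ∀ a b, p a b = idem Q (Q.tgt a) * p0 a b :=
    ⟨_, fun _ _ => rfl⟩
  obtain ⟨z, hz⟩ : ∃ z : E → E → Hat Q, ∀ a b, z a b = idem Q (Q.tgt a) * z0 a b :=
    ⟨_, fun _ _ => rfl⟩
  have hee : ∀ v, idem Q v * idem Q v = idem Q v := fun v => by
    rw [idem_mul_idem, if_pos rfl]
  have g1 : ∀ a b, p a b * idem Q (Q.tgt b) = p a b := fun a b => by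
    rw [hp, mul_assoc, h1]
  have g2 : ∀ a b, idem Q (Q.tgt a) * p a b = p a b := fun a b => by
    rw [hp, ← mul_assoc, hee]
  have g3 : ∀ a b, Q.src b ≠ Q.src a → p a b = 0 := fun a b h => by
    rw [hp, h2 a b h, mul_zero]
  have g4 : ∀ a c, z a c ∈ jac W := fun a c => by
    rw [hz]
    exact jac_ml _ (h3 a c)
  have g5 : ∀ a c, Q.tgt c ≠ Q.src a → z a c = 0 := fun a c h => by
    rw [hz, h5 a c h, mul_zero]
  have g6 : ∀ a c, z a c * idem Q (Q.src c) = z a c := fun a c => by
    rw [hz, mul_assoc, h4]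
  have g7 : ∀ a, cyc a F = ∑ b, p a b * cyc b W + ∑ c, z a c * arr Q c := fun a => by
    have e1 : cyc a F = idem Q (Q.tgt a) * cyc a F := (idem_mul_cyc a F).symm
    rw [h6 a, mul_add, Finset.mul_sum, Finset.mul_sum] at e1
    rw [h6 a, e1]
    refine congrArg₂ (· + ·) (Finset.sum_congr rfl fun b _ => ?_)
      (Finset.sum_congr rfl fun c _ => ?_)
    · rw [hp, mul_assoc]
    · rw [hz, mul_assoc]
  have hx : ∀ j : V, ∃ x : Hat Q, ∀ b, Q.src b = j →
      (∑ a, if Q.src a = j then arr Q a * p a b else 0) - x * arr Q b ∈ jac W := by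
    intro j
    refine hs j (fun b => ∑ a, if Q.src a = j then arr Q a * p a b else 0)
      (fun c => (if Q.tgt c = j then cyc c F else 0) -
        ∑ a, if Q.src a = j then arr Q a * z a c else 0) ?_ ?_ ?_ ?_
    · intro b
      rw [Finset.sum_mul]
      refine Finset.sum_congr rfl fun a _ => ?_
      split_ifs
      · rw [mul_assoc, g1]
      · rw [zero_mul]
    · intro b hb
      refine Finset.sum_eq_zero fun a _ => ?_
      split_ifs with h
      · rw [g3 a b (by rw [h]; exact hb), mul_zero]
      · rfl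
    · intro c
      refine Submodule.sub_mem _ ?_ (Submodule.sum_mem _ fun a _ => ?_)
      · split_ifs
        · exact hF c
        · exact Submodule.zero_mem _
      · split_ifs
        · exact jac_ml _ (g4 a c)
        · exact Submodule.zero_mem _
    · have e1 : ∑ b, (∑ a, if Q.src a = j then arr Q a * p a b else 0) * cyc b W =
          ∑ a, if Q.src a = j then arr Q a * ∑ b, p a b * cyc b W else 0 := by
        simp only [Finset.sum_mul]
        rw [Finset.sum_comm]
        refine Finset.sum_congr rfl fun a _ => ?_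
        by_cases h : Q.src a = j
        · simp only [if_pos h]
          rw [Finset.mul_sum]
          exact Finset.sum_congr rfl fun b _ => mul_assoc _ _ _
        · simp only [if_neg h, zero_mul, Finset.sum_const_zero]
      have e2 : ∑ c, ((if Q.tgt c = j then cyc c F else 0) -
          ∑ a, if Q.src a = j then arr Q a * z a c else 0) * arr Q c =
          (∑ c, if Q.tgt c = j then cyc c F * arr Q c else 0) -
            ∑ a, if Q.src a = j then arr Q a * ∑ c, z a c * arr Q c else 0 := by
        have e3 : ∑ c, (∑ a, if Q.src a = j then arr Q a * z a c else 0) * arr Q c =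
            ∑ a, if Q.src a = j then arr Q a * ∑ c, z a c * arr Q c else 0 := by
          simp only [Finset.sum_mul]
          rw [Finset.sum_comm]
          refine Finset.sum_congr rfl fun a _ => ?_
          by_cases h : Q.src a = j
          · simp only [if_pos h]
            rw [Finset.mul_sum]
            exact Finset.sum_congr rfl fun b _ => mul_assoc _ _ _
          · simp only [if_neg h, zero_mul, Finset.sum_const_zero]
        rw [← e3, ← Finset.sum_sub_distrib]
        refine Finset.sum_congr rfl fun c _ => ?_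
        rw [sub_mul]
        congr 1
        split_ifs
        · rfl
        · rw [zero_mul]
      rw [e1, e2, ← cyc_identity, ← Finset.sum_sub_distrib]
      refine Finset.sum_congr rfl fun a _ => ?_
      by_cases h : Q.src a = j
      · rw [if_pos h, if_pos h, if_pos h, g7 a, mul_add, add_sub_cancel_right]
      · rw [if_neg h, if_neg h, if_neg h, sub_zero]
  choose x hx using hx
  have hsum : ∀ b, (∑ a, if Q.src a = Q.src b then arr Q a * p a b else 0) =
      ∑ a, arr Q a * p a b := by
    intro b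
    refine Finset.sum_congr rfl fun a _ => ?_
    split_ifs with h
    · rfl
    · rw [g3 a b fun h' => h h'.symm, mul_zero]
  have g8 : ∀ b, ∑ a, arr Q a * p a b - x (Q.src b) * arr Q b ∈ jac W := by
    intro b
    rw [← hsum b]
    exact hx (Q.src b) b rfl
  refine ⟨p, z, x, g1, g2, g3, g4, g5, g6, g7, g8, fun a b => ?_⟩
  by_cases hab : Q.src b = Q.src a
  swap
  · rw [g3 a b hab, if_neg fun h => hab (by rw [h]), sub_zero]
    exact Submodule.zero_mem _
  have hkey : (p a b).cf (Q.tgt a) (Q.tgt a) [] =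
      if a = b then (x (Q.src a)).cf (Q.src a) (Q.src a) [] else 0 := by
    have h7 := jac_Fil (n := 2) hW (g8 b)
    have h8 := mem_Fil.1 h7 (Q.src a) (Q.tgt a) [a] (by simp)
    rw [Hat.cf_sub, Hat.cf_sum, sub_eq_zero, Finset.sum_eq_single a] at h8
    · rw [cf_arr_mul, if_pos ⟨rfl, rfl⟩] at h8
      have h9 : (x (Q.src b) * arr Q b).cf (Q.src a) (Q.tgt a) [a] =
          (rc a (x (Q.src b) * arr Q b)).cf (Q.src a) (Q.src a) [] := by
        rw [cf_rc, if_pos rfl]
        rfl
      rw [h9, rc_mul_arr] at h8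
      refine (show (p a b).cf (Q.tgt a) (Q.tgt a) [] = _ from h8).trans ?_
      by_cases h : a = b
      · rw [if_pos h, if_pos h, cf_mul_idem, if_pos hab.symm, hab]
      · rw [if_neg h, if_neg h]
        rfl
    · intro c _ hc
      rw [cf_arr_mul, if_neg]
      rintro ⟨-, h⟩
      rw [List.head?_cons, Option.some.injEq] at h
      exact hc h.symm
    · intro h
      exact absurd (Finset.mem_univ a) h
  rw [mem_Fil]
  intro i k l hl
  have hl0 : l = [] := List.length_eq_zero_iff.1 (by omega)
  subst hl0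
  by_cases hik : i = k
  swap
  · exact Hat.cf_nil _ hik
  subst hik
  by_cases hi : i = Q.tgt a
  · subst hi
    rw [Hat.cf_sub, hkey]
    by_cases h : a = b
    · rw [if_pos h, if_pos h, Hat.cf_smul, cf_idem, if_pos ⟨rfl, rfl, rfl⟩, mul_one, sub_self]
    · rw [if_neg h, if_neg h, Hat.cf_zero, sub_zero]
  · rw [Hat.cf_sub, ← g2, cf_idem_mul, if_neg hi, zero_sub, neg_eq_zero]
    split_ifs
    · rw [Hat.cf_smul, cf_idem, if_neg fun h => hi h.1, mul_zero]
    · rfl

theorem exists_const {W F : Hat Q} (hW : W ∈ Fil Q 3) (hs : Syz W)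
    (hF : ∀ a, cyc a F ∈ jac W) : ∃ k : V → ℂ, ∀ a, cyc a F - k (Q.src a) • cyc a W ∈ MM W := by
  obtain ⟨p, z, x, _, _, _, h4, _, _, h7, _, h9⟩ := exists_coef hW hs hF
  refine ⟨fun v => (x v).cf v v [], fun a => ?_⟩
  have e : cyc a F - (x (Q.src a)).cf (Q.src a) (Q.src a) [] • cyc a W =
      ∑ b, (p a b - (if a = b then (x (Q.src a)).cf (Q.src a) (Q.src a) [] •
        idem Q (Q.tgt a) else 0)) * cyc b W + ∑ c, z a c * arr Q c := by
    have e1 : ∑ b, (p a b - (if a = b then (x (Q.src a)).cf (Q.src a) (Q.src a) [] •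
        idem Q (Q.tgt a) else 0)) * cyc b W = ∑ b, p a b * cyc b W -
          (x (Q.src a)).cf (Q.src a) (Q.src a) [] • cyc a W := by
      simp only [sub_mul]
      rw [Finset.sum_sub_distrib]
      congr 1
      rw [Finset.sum_eq_single a]
      · rw [if_pos rfl, smul_mul_assoc, idem_mul_cyc]
      · intro b _ hb
        rw [if_neg (Ne.symm hb), zero_mul]
      · intro h
        exact absurd (Finset.mem_univ a) h
    rw [e1, h7 a]
    abel
  change cyc a F - (x (Q.src a)).cf (Q.src a) (Q.src a) [] • cyc a W ∈ MM W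
  rw [e]
  refine Submodule.add_mem _ (Submodule.sum_mem _ fun b _ => ?_)
    (Submodule.sum_mem _ fun c _ => ?_)
  · exact mm_of_left (h9 a b) (cyc_jac W b)
  · exact mm_of_right (arr_mem_Fil c) (h4 a c)

end Pool.Agent.Flop
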