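import Pool.Agent.Lib.FlA.S61
import Pool.Agent.Lib.FlA.S62
import Pool.Agent.Lib.FlA.PartB

/-!
# S64: the weight is constant along the arrows

Suppose w (src b) <> w (tgt b) =: and put F = part lam (w (src b)) W; cyc a F = part _ (cyc a W) in jac W for all a. exists_coef: p, z, x. Let k = tgt b, κ = (x k).cf k k []. CLAIM κ = 0: take an arrow a with src a = k (hout): by exists_coef (last item) and the formula for cyc a F: cyc a F - κ • cyc a W in MM W (mm_of_left,
mm_of_right), and cyc a F in MM W by hw a (second part, μ = w (src b) <> w k = w (src a)); so κ • cyc a W in MM W, κ = 0 by cyc_not_mem. NOW cyc_eq_sum_rc for F (F in Fil 3: part_Fil) and b: cyc b F = sum_{src a = k} arr a * rc b (cyc a F). rc b (cyc a F) = sum_b' p a b' * rc b (cyc b' W) + z a b (rc_mul: cyc b' W in Fil 1;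
rc_mul_arr, z a b e_{src b} = z a b). So cyc b F = sum_b' (sum_{src a = k} arr a * p a b') * rc b (cyc b' W) + sum_{src a = k} arr a * z a b. The last sum is in MM W (mm_of_left). For src b' = k: sum_{src a = k} arr a * p a b' = sum_a arr a * p a b' (p a b' = 0 if src a <> src b') = x k * arr b' + j_{b'}, j in jac W; for src b' <> k the sum is 0.
j_{b'} * rc b (cyc b' W) in MM W: rc b (cyc b' W) in Fil 1 (rc_Fil: cyc b' W in Fil 2). And sum_{src b' = k} x k * arr b' * rc b (cyc b' W) = x k * cyc b W (cyc_eq_sum_rc for W). x k * cyc b W: x k = (x k) e_k-part: cyc b W = e_k * cyc b W, and (x k) e_k has as constant coefficients only (i, k): replace x k by e_k x k e_k?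
Multiply everything by e_k on the left: cyc b F = e_k cyc b F; so x k may be replaced by e_k * x k * e_k, whose only constant coefficient is κ = 0: it is in Fil 1, so the term is in MM W. Hence cyc b F in MM W, but cyc b F - cyc b W in MM W by hw b (first part), so cyc b W in MM W: contradiction to cyc_not_mem.
-/

set_option autoImplicit false

namespace Pool.Agent.Flop

open Finset

variable {V E : Type} [Fintype V] [DecidableEq V] [DecidableEq E] [Fintype E] {Q : Qv V E}

/-- the common computation: the coefficient at the vertex `k` decides -/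
private theorem s64_kappa {W F : Hat Q} {a : E} {p z : E → Hat Q} {κ : ℂ}
    (hz : ∀ c, z c ∈ jac W)
    (hc : cyc a F = ∑ b, p b * cyc b W + ∑ c, z c * arr Q c)
    (hp : ∀ b, p b - (if a = b then κ • idem Q (Q.tgt a) else 0) ∈ Fil Q 1) :
    cyc a F - κ • cyc a W ∈ MM W := by
  have h1 : κ • cyc a W = ∑ b, (if a = b then κ • idem Q (Q.tgt a) else 0) * cyc b W := by
    rw [Finset.sum_eq_single a]
    · rw [if_pos rfl, smul_mul_assoc, idem_mul_cyc]
    · intro b _ hb
      rw [if_neg (Ne.symm hb), zero_mul]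
    · intro h
      exact absurd (Finset.mem_univ a) h
  have h2 : cyc a F - κ • cyc a W =
      ∑ b, (p b - (if a = b then κ • idem Q (Q.tgt a) else 0)) * cyc b W +
        ∑ c, z c * arr Q c := by
    rw [hc, h1]
    simp only [sub_mul]
    rw [Finset.sum_sub_distrib]
    abel
  rw [h2]
  refine Submodule.add_mem _ (Submodule.sum_mem _ fun b _ => ?_)
    (Submodule.sum_mem _ fun c _ => ?_)
  · exact mm_of_left (hp b) (cyc_jac W b)
  · exact mm_of_right (arr_mem_Fil c) (hz c)

omit [Fintype E] in
private theorem s64_corner {x : Hat Q} {k : V} (h : x.cf k k [] = 0) :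
    idem Q k * (x * idem Q k) ∈ Fil Q 1 := by
  rw [mem_Fil]
  intro i j l hl
  have hl0 : l = [] := List.length_eq_zero_iff.1 (by omega)
  subst hl0
  rw [cf_idem_mul, cf_mul_idem]
  by_cases hi : i = k
  · by_cases hj : j = k
    · rw [if_pos hi, if_pos hj, hi, hj, h]
    · rw [if_pos hi, if_neg hj]
  · rw [if_neg hi]

private theorem s64_rc {W F : Hat Q} (hW : W ∈ Fil Q 2) {a : E} {p z : E → Hat Q} (b : E)
    (hz : ∀ c, z c * idem Q (Q.src c) = z c)
    (hc : cyc a F = ∑ b, p b * cyc b W + ∑ c, z c * arr Q c) :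
    rc b (cyc a F) = ∑ b', p b' * rc b (cyc b' W) + z b := by
  rw [hc, rc_add, rc_sum, rc_sum]
  congr 1
  · exact Finset.sum_congr rfl fun b' _ => rc_mul b _ (cyc_mem_Fil b' hW)
  · rw [Finset.sum_eq_single b]
    · rw [rc_mul_arr, if_pos rfl, hz]
    · intro c _ hcb
      rw [rc_mul_arr, if_neg (Ne.symm hcb)]
    · intro h
      exact absurd (Finset.mem_univ b) h

theorem weight_const {W : Hat Q} (hW : W ∈ Fil Q 3) (hs : Syz W) (lam : E → ℚ)
    (hJ : ∀ f ∈ jac W, ∀ μ, part lam μ f ∈ jac W) (hout : ∀ i, ∃ a, Q.src a = i) (w : V → ℚ)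
    (hw : ∀ a, cyc a (part lam (w (Q.src a)) W) - cyc a W ∈ MM W ∧
      ∀ μ, μ ≠ w (Q.src a) → cyc a (part lam μ W) ∈ MM W) (b : E) :
    w (Q.src b) = w (Q.tgt b) := by
  by_contra hne
  have hW2 : W ∈ Fil Q 2 := Fil_anti (by norm_num) hW
  set F : Hat Q := part lam (w (Q.src b)) W with hFdef
  have hF : ∀ a, cyc a F ∈ jac W := by
    intro a
    rw [hFdef, part_cyc]
    exact hJ _ (cyc_jac W a) _
  obtain ⟨p, z, x, hp1, hp2, hp3, hz1, hz2, hz3, hcyc, hx, hpc⟩ := exists_coef hW hs hF
  -- the constant coefficient at `tgt b` is zero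
  have hκ : (x (Q.tgt b)).cf (Q.tgt b) (Q.tgt b) [] = 0 := by
    obtain ⟨a, ha⟩ := hout (Q.tgt b)
    have h1 := s64_kappa (hz1 a) (hcyc a) (hpc a)
    rw [ha] at h1
    have h2 : cyc a F ∈ MM W := by
      refine (hw a).2 _ ?_
      rw [ha]
      exact hne
    have h3 : (x (Q.tgt b)).cf (Q.tgt b) (Q.tgt b) [] • cyc a W ∈ MM W := by
      have h4 := Submodule.sub_mem _ h2 h1
      rwa [sub_sub_cancel] at h4
    by_contra hk
    exact cyc_not_mem hW2 hs a ((Submodule.smul_mem_iff _ hk).1 h3)
  have hFF : F ∈ Fil Q 2 := Fil_anti (by norm_num) (part_Fil hW)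
  have hsum := cyc_eq_sum_rc hFF b
  have hsumW := cyc_eq_sum_rc hW2 b
  -- the coefficients of the derivatives of `W`
  have hco : ∀ b', (∑ a, if Q.src a = Q.tgt b then arr Q a * p a b' else 0) =
      if Q.src b' = Q.tgt b then x (Q.tgt b) * arr Q b' +
        (∑ a, arr Q a * p a b' - x (Q.src b') * arr Q b') else 0 := by
    intro b'
    by_cases hb' : Q.src b' = Q.tgt b
    · rw [if_pos hb', ← hb', add_sub_cancel]
      refine Finset.sum_congr rfl fun a _ => ?_
      by_cases ha : Q.src a = Q.src b'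
      · rw [if_pos ha]
      · rw [if_neg ha, hp3 a b' (Ne.symm ha), mul_zero]
    · rw [if_neg hb']
      refine Finset.sum_eq_zero fun a _ => ?_
      by_cases ha : Q.src a = Q.tgt b
      · rw [if_pos ha, hp3 a b' (by rw [ha]; exact hb'), mul_zero]
      · rw [if_neg ha]
  have hmain : cyc b F = x (Q.tgt b) * cyc b W +
      (∑ b', (if Q.src b' = Q.tgt b then
        (∑ a, arr Q a * p a b' - x (Q.src b') * arr Q b') * rc b (cyc b' W) else 0) +
      ∑ a, if Q.src a = Q.tgt b then arr Q a * z a b else 0) := by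
    have h1 : ∀ a, (if Q.src a = Q.tgt b then arr Q a * rc b (cyc a F) else 0) =
        ∑ b', (if Q.src a = Q.tgt b then arr Q a * p a b' else 0) * rc b (cyc b' W) +
          (if Q.src a = Q.tgt b then arr Q a * z a b else 0) := by
      intro a
      split_ifs with ha
      · rw [s64_rc hW2 b (hz3 a) (hcyc a), mul_add, Finset.mul_sum]
        congr 1
        exact Finset.sum_congr rfl fun b' _ => by rw [mul_assoc]
      · simp
    rw [← hsum, Finset.sum_congr rfl (fun a _ => h1 a), Finset.sum_add_distrib, ← add_assoc]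
    congr 1
    rw [Finset.sum_comm]
    have h2 : ∀ b', ∑ a, (if Q.src a = Q.tgt b then arr Q a * p a b' else 0) *
        rc b (cyc b' W) = x (Q.tgt b) * (if Q.src b' = Q.tgt b then
          arr Q b' * rc b (cyc b' W) else 0) + (if Q.src b' = Q.tgt b then
        (∑ a, arr Q a * p a b' - x (Q.src b') * arr Q b') * rc b (cyc b' W) else 0) := by
      intro b'
      rw [← Finset.sum_mul, hco b']
      split_ifs with hb'
      · rw [add_mul, mul_assoc]
      · rw [zero_mul, mul_zero, add_zero]
    rw [Finset.sum_congr rfl (fun b' _ => h2 b'), Finset.sum_add_distrib, ← Finset.mul_sum, hsumW]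
  have hrest : (∑ b', (if Q.src b' = Q.tgt b then
        (∑ a, arr Q a * p a b' - x (Q.src b') * arr Q b') * rc b (cyc b' W) else 0) +
      ∑ a, if Q.src a = Q.tgt b then arr Q a * z a b else 0) ∈ MM W := by
    refine Submodule.add_mem _ (Submodule.sum_mem _ fun b' _ => ?_)
      (Submodule.sum_mem _ fun a _ => ?_)
    · split_ifs
      · exact mm_of_right (rc_Fil b (cyc_mem_Fil b' hW)) (hx b')
      · exact Submodule.zero_mem _
    · split_ifs
      · exact mm_of_left (arr_mem_Fil a) (hz1 a b)
      · exact Submodule.zero_mem _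
  have hxk : idem Q (Q.tgt b) * (x (Q.tgt b) * cyc b W) ∈ MM W := by
    have h1 : idem Q (Q.tgt b) * (x (Q.tgt b) * cyc b W) =
        (idem Q (Q.tgt b) * (x (Q.tgt b) * idem Q (Q.tgt b))) * cyc b W := by
      rw [mul_assoc, mul_assoc, idem_mul_cyc]
    rw [h1]
    exact mm_of_left (s64_corner hκ) (cyc_jac W b)
  have hFin : cyc b F ∈ MM W := by
    have h1 : cyc b F = idem Q (Q.tgt b) * cyc b F := (idem_mul_cyc b F).symm
    rw [h1, hmain, mul_add]
    exact Submodule.add_mem _ hxk (mm_left _ hrest)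
  have h5 := Submodule.sub_mem _ hFin (hw b).1
  rw [sub_sub_cancel] at h5
  exact cyc_not_mem hW2 hs b h5

end Pool.Agent.Flop
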