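import Pool.Agent.Lib.FlA.S63
import Pool.Agent.Lib.FlA.S64
import Pool.Agent.Lib.FlA.JacF
import Pool.Agent.Lib.FlA.Conn
import Pool.Agent.Lib.FlA.MdlT

/-!
# S65: the homogeneous part of the potential of a model

hout from exists_out. w : V -> ℚ from exists_weight (h.pot, h.syz, hJ), constant by weight_const and const_of_arrows: w i = w o =: w0. F := part lam w0 W: for all a: cyc a F - cyc a W in MM W (exists_weight with w (src a) = w0), cyc a F = part _ (cyc a W) in jac W (part_cyc, hJ, cyc_jac). jac F = jac W (jac_eq_of_mm), Syz F (syz_of_mm with cyc_not_mem), F in Fil 3 (part_Fil):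
Mdl.congr. The closed words of F have weight w0 (cf_part).
-/

set_option autoImplicit false

namespace Pool.Agent.Flop

open Finset

variable {V E : Type} [Fintype V] [DecidableEq V] [DecidableEq E] [Fintype E] {Q : Qv V E}
variable {R A : Type} [CommRing R] [IsLocalRing R] [IsNoetherianRing R] [Algebra ℂ R] [Ring A]
  [Algebra ℂ A] [Algebra R A] [IsScalarTower ℂ R A] {o : V} {W : Hat Q} {π : Hat Q →ₐ[ℂ] A}

theorem Mdl.exists_homog (h : Mdl R o W π) (lam : E → ℚ)
    (hJ : ∀ f ∈ jac W, ∀ μ, part lam μ f ∈ jac W) :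
    ∃ w : ℚ, Mdl R o (part lam w W) π ∧ jac (part lam w W) = jac W := by
  obtain ⟨w, hw⟩ := exists_weight h.pot h.syz lam hJ h.exists_out
  have hc : ∀ i, w i = w o :=
    h.const_of_arrows w fun b => weight_const h.pot h.syz lam hJ h.exists_out w hw b
  have hF : ∀ a, cyc a (part lam (w o) W) ∈ jac W := by
    intro a
    rw [part_cyc]
    exact hJ _ (cyc_jac W a) _
  have hM : ∀ a, cyc a (part lam (w o) W) - cyc a W ∈ MM W := by
    intro a
    have h1 := (hw a).1
    rwa [hc] at h1
  have hj : jac (part lam (w o) W) = jac W := jac_eq_of_mm hF hM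
  exact ⟨w o, h.congr (part_Fil h.pot) hj (syz_of_mm h.pot h.syz
    (fun a => cyc_not_mem (Fil_anti (by norm_num) h.pot) h.syz a) hF hM), hj⟩

end Pool.Agent.Flop
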