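import Pool.Agent.Lib.FlA.PrC
import Pool.Agent.Lib.MP_03045c_ag.SubstAut

/-!
# SaiR: quasi-homogeneous rings from quasi-homogeneous equations

`isQHRing_of_subst`: subst c is an algebra automorphism of P (subst_bijective, substAlgHom), f = subst c f'. R ≃ P/(f) (θ: quotient by the kernel, hp.ker) ≃ P/(f') via subst c (p in (f') iff subst c p in (f)). So IsQHRing R with w, d, f' (IsHg: e i • w i; IsQHRing: w i * e i: smul_eq_mul, mul_comm). `exists_of_isQHRing`: from R ≃ₐ P/(f): θ₁ = e.symm ∘ mk, surjective with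
kernel (f): Prs f θ₁ by Prs.of_surj; IsHg w d f.
-/

set_option autoImplicit false

namespace Pool.Agent.Flop

open Finset MvPowerSeries

variable {R : Type} [CommRing R] [IsLocalRing R] [IsNoetherianRing R] [Algebra ℂ R]
  {g : MvPowerSeries (Fin 4) ℂ} {θ : MvPowerSeries (Fin 4) ℂ →ₐ[ℂ] R}

theorem isQHRing_of_subst (hp : Prs g θ) {c : Fin 4 → MvPowerSeries (Fin 4) ℂ} (hc : IsCoord c)
    {w : Fin 4 → ℕ} {d : ℕ} {f' : MvPowerSeries (Fin 4) ℂ} (hw : ∀ i, 0 < w i)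
    (hf : IsHg w d f') (he : g = subst c f') : IsQHRing R := by
  have hC : HasSubst c := hasSubst_of_constantCoeff_zero hc.1
  let Θ : MvPowerSeries (Fin 4) ℂ →ₐ[ℂ] MvPowerSeries (Fin 4) ℂ := substAlgHom hC
  have hΘ : Function.Bijective Θ := by
    have h1 := subst_bijective c hc.1 hc.2
    rwa [← coe_substAlgHom hC] at h1
  let Θe : MvPowerSeries (Fin 4) ℂ ≃ₐ[ℂ] MvPowerSeries (Fin 4) ℂ := AlgEquiv.ofBijective Θ hΘ
  have hf2 : Θ f' = g := by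
    rw [he]
    exact substAlgHom_apply hC f'
  have hI : Ideal.span {g} =
      (Ideal.span {f'}).map (Θe : MvPowerSeries (Fin 4) ℂ →+* MvPowerSeries (Fin 4) ℂ) := by
    rw [Ideal.map_span, Set.image_singleton]
    change _ = Ideal.span {Θ f'}
    rw [hf2]
  have hker : RingHom.ker θ = Ideal.span {g} := by
    ext p
    rw [RingHom.mem_ker, Ideal.mem_span_singleton]
    exact hp.ker p
  let e1 : (MvPowerSeries (Fin 4) ℂ ⧸ RingHom.ker θ) ≃ₐ[ℂ] R :=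
    Ideal.quotientKerAlgEquivOfSurjective hp.surj
  let e2 : (MvPowerSeries (Fin 4) ℂ ⧸ RingHom.ker θ) ≃ₐ[ℂ]
      (MvPowerSeries (Fin 4) ℂ ⧸ Ideal.span {g}) := Ideal.quotientEquivAlgOfEq ℂ hker
  let e3 : (MvPowerSeries (Fin 4) ℂ ⧸ Ideal.span {f'}) ≃ₐ[ℂ]
      (MvPowerSeries (Fin 4) ℂ ⧸ Ideal.span {g}) := Ideal.quotientEquivAlg _ _ Θe hI
  refine ⟨w, d, f', hw, fun e h => ?_, ⟨(e1.symm.trans e2).trans e3.symm⟩⟩
  rw [← hf e h]
  exact Finset.sum_congr rfl fun i _ => by rw [smul_eq_mul, mul_comm]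

theorem exists_of_isQHRing (hp : Prs g θ) (hq : IsQHRing R) :
    ∃ (w : Fin 4 → ℕ) (d : ℕ) (f : MvPowerSeries (Fin 4) ℂ)
      (θ₁ : MvPowerSeries (Fin 4) ℂ →ₐ[ℂ] R), (∀ i, 0 < w i) ∧ IsHg w d f ∧ Prs f θ₁ ∧
      Nonempty (R ≃ₐ[ℂ] MvPowerSeries (Fin 4) ℂ ⧸ Ideal.span {f}) := by
  obtain ⟨w, d, f, hw, hf, ⟨e⟩⟩ := hq
  let θ₁ : MvPowerSeries (Fin 4) ℂ →ₐ[ℂ] R :=
    (e.symm : (MvPowerSeries (Fin 4) ℂ ⧸ Ideal.span {f}) →ₐ[ℂ] R).comp
      (Ideal.Quotient.mkₐ ℂ (Ideal.span {f}))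
  have hθ : ∀ p, θ₁ p = e.symm (Ideal.Quotient.mk (Ideal.span {f}) p) := fun p => rfl
  refine ⟨w, d, f, θ₁, hw, fun x h => ?_, hp.of_surj ?_ ?_, ⟨e⟩⟩
  · rw [← hf x h]
    exact Finset.sum_congr rfl fun i _ => by rw [smul_eq_mul, mul_comm]
  · intro r
    obtain ⟨p, hp2⟩ := Ideal.Quotient.mk_surjective (e r)
    exact ⟨p, by rw [hθ, hp2, AlgEquiv.symm_apply_apply]⟩
  · intro p
    rw [hθ, EmbeddingLike.map_eq_zero_iff, Ideal.Quotient.eq_zero_iff_mem,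
      Ideal.mem_span_singleton]

end Pool.Agent.Flop
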