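import Pool.Agent.Lib.FlA.PartB

/-!
# Wei: graded Jacobi ideals and positive closed paths: the class vanishes

Ψ.cf i j l := if i = j then ((l.map lam).sum : ℂ)⁻¹ * Φ.cf i j l else 0 (a series of paths). D from exists_weightDer (NDer) with the weights (lam a : ℂ): IsDer D and (D f).cf i j l = (sum lam) * f.cf i j l. Then D Ψ = cpart Φ: for a closed path l <> [] the weight is positive (hpos), for l = [] both are 0 (Φ in Fil 1). D (arr a) = (lam a : ℂ) • arr a. der_sub_mem: D Ψ - sum_a D (arr a) * cyc a Ψ in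
cl Comm. CLAIM cyc a Ψ in jac Φ: mem_of_parts (isCl_jac): part ν (cyc a Ψ) = cyc a (part (ν + lam a) Ψ) (part_cyc). With μ = ν + lam a: if μ <> 0: part μ Ψ = μ⁻¹ • cpart (part μ Φ) so cyc a (part μ Ψ) = μ⁻¹ • cyc a (part μ Φ) (cyc only sees closed paths: cyc_congr with cpart_sub) = μ⁻¹ • part ν (cyc a Φ) in jac Φ (hJ, cyc_jac). If μ = 0: part 0 Ψ = 0 (closed paths
l <> [] have positive weight; l = []: coefficient 0). So cpart Φ = D Ψ in cl (jac Φ + Comm), and Φ - cpart Φ in cl Comm (cpart_sub).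
-/

set_option autoImplicit false

namespace Pool.Agent.Flop

open Finset

variable {V E : Type} [Fintype V] [DecidableEq V] [DecidableEq E] [Fintype E] {Q : Qv V E}

omit [Fintype E] in
private theorem wei_cfp (lam : E → ℚ) (μ : ℚ) (f : Hat Q) (i j : V) (l : List E) :
    (part lam μ f).cf i j l = if (l.map lam).sum = μ then f.cf i j l else 0 := by
  rw [cf_part]
  split_ifs <;> rfl

omit [Fintype E] [Fintype V] [DecidableEq V] [DecidableEq E] in
private theorem wei_cast (lam : E → ℚ) (l : List E) :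
    (l.map fun a => ((lam a : ℚ) : ℂ)).sum = (((l.map lam).sum : ℚ) : ℂ) := by
  induction l with
  | nil => simp
  | cons a l ih => rw [List.map_cons, List.sum_cons, ih, List.map_cons, List.sum_cons,
      Rat.cast_add]

omit [Fintype E] in
private theorem wei_cyc_cpart (a : E) (f : Hat Q) : cyc a (cpart f) = cyc a f := by
  apply Hat.ext_cf
  intro i j l
  change (if i = Q.tgt a ∧ j = Q.src a then
      ∑ v, ∑ k ∈ range (l.length + 1), (cpart f).cf v v (l.drop k ++ a :: l.take k) else 0) =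
    if i = Q.tgt a ∧ j = Q.src a then
      ∑ v, ∑ k ∈ range (l.length + 1), f.cf v v (l.drop k ++ a :: l.take k) else 0
  simp only [cf_cpart, if_true]

theorem classZero_of_pos {Φ : Hat Q} (h1 : Φ ∈ Fil Q 1) (lam : E → ℚ)
    (hJ : ∀ f ∈ jac Φ, ∀ μ, part lam μ f ∈ jac Φ)
    (hpos : ∀ (i : V) (l : List E), l ≠ [] → Q.IsPath i l i → 0 < (l.map lam).sum) :
    ClassZero Φ := by
  obtain ⟨Ψ, hΨ⟩ : ∃ Ψ : Hat Q, ∀ i j l, Ψ.cf i j l =
      if i = j then (((l.map lam).sum : ℚ) : ℂ)⁻¹ * Φ.cf i j l else 0 := by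
    refine ⟨⟨fun i j l => if i = j then (((l.map lam).sum : ℚ) : ℂ)⁻¹ * Φ.cf i j l else 0, ?_⟩,
      fun i j l => rfl⟩
    intro i j l hl
    beta_reduce at hl
    split_ifs at hl with h
    · exact Φ.2 i j l (right_ne_zero_of_mul hl)
    · exact absurd rfl hl
  obtain ⟨D, hD, hDw⟩ := exists_weightDer (Q := Q) fun a => ((lam a : ℚ) : ℂ)
  have hDΨ : D Ψ = cpart Φ := by
    apply Hat.ext_cf
    intro i j l
    rw [hDw, wei_cast, hΨ, cf_cpart]
    by_cases hij : i = j
    · subst hij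
      rw [if_pos rfl, if_pos rfl]
      by_cases hz : Φ.cf i i l = 0
      · rw [hz, mul_zero, mul_zero]
      · have hl : l ≠ [] := by
          intro h0
          subst h0
          exact hz (mem_Fil.1 h1 i i [] (by simp))
        have hw := hpos i l hl (Hat.cf_path Φ hz)
        have hw' : (((l.map lam).sum : ℚ) : ℂ) ≠ 0 := by
          exact_mod_cast hw.ne'
        rw [← mul_assoc, mul_inv_cancel₀ hw', one_mul]
    · rw [if_neg hij, if_neg hij, mul_zero]
  have hpart : ∀ μ, part lam μ Ψ = ((μ : ℚ) : ℂ)⁻¹ • cpart (part lam μ Φ) := by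
    intro μ
    apply Hat.ext_cf
    intro i j l
    rw [wei_cfp, hΨ, Hat.cf_smul, cf_cpart, wei_cfp]
    by_cases hij : i = j
    · rw [if_pos hij, if_pos hij]
      by_cases hw : (l.map lam).sum = μ
      · rw [if_pos hw, if_pos hw, hw]
      · rw [if_neg hw, if_neg hw, mul_zero]
    · rw [if_neg hij, if_neg hij, mul_zero, ite_self]
  have hcyc : ∀ a, cyc a Ψ ∈ jac Φ := by
    intro a
    refine mem_of_parts (lam := lam) (isCl_jac Φ) fun ν => ?_
    have e1 : part lam ν (cyc a Ψ) = cyc a (part lam (ν + lam a) Ψ) := by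
      rw [part_cyc, add_sub_cancel_right]
    have e2 : cyc a (((ν + lam a : ℚ) : ℂ)⁻¹ • cpart (part lam (ν + lam a) Φ)) =
        ((ν + lam a : ℚ) : ℂ)⁻¹ • cyc a (part lam (ν + lam a) Φ) := by
      rw [← cycL_apply, map_smul, cycL_apply, wei_cyc_cpart]
    rw [e1, hpart, e2, part_cyc]
    exact Submodule.smul_mem _ _ (hJ _ (cyc_jac Φ a) _)
  have hsub : cl (Comm Q) ≤ cl (jac Φ ⊔ Comm Q) := cl_mono le_sup_right
  have h2 := der_sub_mem hD Ψ
  rw [hDΨ] at h2
  have h3 := cpart_sub Φ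
  have h4 : (∑ a, D (arr Q a) * cyc a Ψ) ∈ jac Φ :=
    Submodule.sum_mem _ fun a _ => jac_ml _ (hcyc a)
  have h5 : Φ = (Φ - cpart Φ) + (cpart Φ - ∑ a, D (arr Q a) * cyc a Ψ) +
      ∑ a, D (arr Q a) * cyc a Ψ := by abel
  unfold ClassZero
  have h6 := Submodule.add_mem _ (Submodule.add_mem _ (hsub h3) (hsub h2))
    (le_cl _ (Submodule.mem_sup_left (T := Comm Q) h4))
  rwa [← h5] at h6

end Pool.Agent.Flop
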