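import Pool.Agent.Lib.FlA.DerA
import Pool.Agent.Lib.FlA.Lft
import Pool.Agent.Lib.FlA.Jor3
import Pool.Agent.Lib.FlA.GrC
import Pool.Agent.Lib.FlA.MdlT
import Pool.Agent.Lib.FlA.KszW2
import Pool.Agent.Lib.FlA.SaiR
import Pool.Agent.Lib.FlA.EulR
import Pool.Agent.Lib.FlA.S65
import Pool.Agent.Lib.FlA.Pos4
import Pool.Agent.Lib.FlA.PosZ
import Pool.Agent.Lib.FlA.GrZ
import Pool.Agent.Lib.FlA.ResA
import Pool.Agent.Lib.FlA.Wei
import Pool.Agent.Lib.FlA.CSaito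
import Pool.Agent.Lib.FlA.CMil
import Pool.Agent.Lib.FlA.CTr

/-!
# From the quasi-homogeneity of the singularity to the vanishing of the class of the potential
-/

set_option autoImplicit false

namespace Pool.Agent.Flop

open Finset MvPowerSeries

variable {V E : Type} [Fintype V] [DecidableEq V] [DecidableEq E] [Fintype E] {Q : Qv V E}

private theorem bwd_jac {o : V} {W : Hat Q} {σ : Hat Q ≃ₐ[ℂ] Hat Q} {lam : E → ℚ} {w : ℚ}
    (hjac : jac (part lam w (σ.symm W)) = jac (σ.symm W)) :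
    jac (res o (part lam w (σ.symm W))) = jac (res o (σ.symm W)) := by
  apply le_antisymm
  · intro f hf
    obtain ⟨f', hf', rfl⟩ := exists_lift_jac o hf
    rw [hjac] at hf'
    exact res_jac o hf'
  · intro f hf
    obtain ⟨f', hf', rfl⟩ := exists_lift_jac o hf
    rw [← hjac] at hf'
    exact res_jac o hf'

/-- If the weight of the potential is not positive, then no closed path has positive weight. -/
private theorem bwd_closed {o : V} {W : Hat Q} {σ : Hat Q ≃ₐ[ℂ] Hat Q}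
    (hσ : ∀ v, σ (idem Q v) = idem Q v) {lam : E → ℚ} {w : ℚ}
    (hW3 : W ∈ Fil Q 3)
    (hfin : ∃ K, Fil (Q.del o) K ≤ jac (res o W)) (ht : Thin (Q.del o))
    (hjac : jac (part lam w (σ.symm W)) = jac (σ.symm W)) (hw : w ≤ 0) :
    ∀ (i : V) (l : List E), l ≠ [] → (∀ a ∈ l, Q.src a ≠ o ∧ Q.tgt a ≠ o) →
      Q.IsPath i l i → (l.map lam).sum ≤ 0 := by
  have hs : ∀ v, σ.symm (idem Q v) = idem Q v := fun v => by
    rw [AlgEquiv.symm_apply_eq, hσ]
  obtain ⟨τ, hτ, hτσ⟩ := exists_res_aut o σ hσ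
  have hWτ : res o W = τ (res o (σ.symm W)) := by
    rw [hτσ, AlgEquiv.apply_symm_apply]
  have h3 : σ.symm W ∈ Fil Q 3 := aut_Fil σ.symm hs 3 W hW3
  have hjr := bwd_jac (o := o) hjac
  have hsum : ∀ {α : Type} (l : List α) (f : α → ℚ),
      (l.map fun a => - f a).sum = - (l.map f).sum := by
    intro α l f
    induction l with
    | nil => simp
    | cons a l ih =>
      rw [List.map_cons, List.map_cons, List.sum_cons, List.sum_cons, ih]
      ring
  have hP : ZHyp (res o (part lam w (σ.symm W))) (fun a => - lam a.1) (- w) := by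
    refine ⟨res_Fil o (part_Fil h3), ?_, neg_nonneg.2 hw, ?_, ht⟩
    · obtain ⟨K, hK⟩ := hfin
      refine ⟨K, fun f hf => ?_⟩
      rw [hjr, jac_aut τ hτ, ← hWτ]
      exact hK (aut_Fil τ hτ K f hf)
    · intro i l hl
      rw [res_part, cf_part] at hl
      rw [hsum l (fun a => lam a.1)]
      by_contra hne
      exact hl (if_neg fun h' => hne (congrArg Neg.neg h'))
  intro i l hl ha hp
  have hi : i ≠ o := by
    match l, hl, hp, ha with
    | a :: l, _, hp, ha => exact hp.1 ▸ (ha a List.mem_cons_self).1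
  obtain ⟨l', rfl⟩ : ∃ l' : List {a : E // Q.src a ≠ o ∧ Q.tgt a ≠ o},
      l = l'.map Subtype.val := by
    exact ⟨l.attachWith _ ha, (List.attachWith_map_subtype_val ha).symm⟩
  have h1 := hP.closed_nonneg (i := ⟨i, hi⟩) (l := l') (fun h' => hl (by rw [h']; rfl))
    (Qv.isPath_del.2 hp)
  rw [hsum l' (fun a => lam a.1)] at h1
  rw [List.map_map]
  exact neg_nonneg.1 h1

private theorem bwd_section {o : V} {W : Hat Q} {σ : Hat Q ≃ₐ[ℂ] Hat Q}
    (hσ : ∀ v, σ (idem Q v) = idem Q v) {lam : E → ℚ} {w : ℚ}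
    (hW3 : W ∈ Fil Q 3)
    (hfin : ∃ K, Fil (Q.del o) K ≤ jac (res o W)) (ht : Thin (Q.del o))
    (hJ : ∀ f ∈ jac (σ.symm W), ∀ μ, part lam μ f ∈ jac (σ.symm W))
    (hjac : jac (part lam w (σ.symm W)) = jac (σ.symm W)) (hw : 0 < w) :
    ClassZero (res o W) := by
  have hs : ∀ v, σ.symm (idem Q v) = idem Q v := fun v => by
    rw [AlgEquiv.symm_apply_eq, hσ]
  obtain ⟨τ, hτ, hτσ⟩ := exists_res_aut o σ hσ
  have hWτ : res o W = τ (res o (σ.symm W)) := by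
    rw [hτσ, AlgEquiv.apply_symm_apply]
  have h3 : σ.symm W ∈ Fil Q 3 := aut_Fil σ.symm hs 3 W hW3
  have hjr := bwd_jac (o := o) hjac
  have hP : PHyp (res o (part lam w (σ.symm W))) (fun a => lam a.1) w := by
    refine ⟨res_Fil o (part_Fil h3), ?_, hw, ?_, ht⟩
    · obtain ⟨K, hK⟩ := hfin
      refine ⟨K, fun f hf => ?_⟩
      rw [hjr, jac_aut τ hτ, ← hWτ]
      exact hK (aut_Fil τ hτ K f hf)
    · intro i l hl
      rw [res_part, cf_part] at hl
      by_contra hne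
      exact hl (if_neg hne)
  rw [hWτ, ← classZero_aut τ hτ]
  refine classZero_of_pos (res_Fil o (Fil_anti (by norm_num) h3)) (fun a => lam a.1) ?_
    fun i l hl hp => hP.closed_pos hl hp
  intro f hf μ
  obtain ⟨f', hf', rfl⟩ := exists_lift_jac o hf
  rw [← res_part]
  exact res_jac o (hJ f' hf' μ)

variable {R A : Type} [CommRing R] [IsDomain R] [IsLocalRing R] [IsNoetherianRing R] [Algebra ℂ R]
  [Ring A] [Algebra ℂ A] [Algebra R A] [IsScalarTower ℂ R A] {o : V} {W : Hat Q}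
  {π : Hat Q →ₐ[ℂ] A}

theorem Mdl.classZero_of_isQHRing (h : Mdl R o W π) {g : MvPowerSeries (Fin 4) ℂ}
    {θ : MvPowerSeries (Fin 4) ℂ →ₐ[ℂ] R} (hp : Prs g θ)
    (hlift : ∀ δ : Derivation ℂ R R, ∃ Δ : A →ₗ[ℂ] A,
      (∀ x y, Δ (x * y) = Δ x * y + x * Δ y) ∧ (∀ i, Δ (π (idem Q i)) = 0) ∧
      ∀ r : R, Δ (r • (1 : A)) = δ r • (1 : A))
    (hcan : ∀ (w : Fin 4 → ℕ) (d : ℕ) (f : MvPowerSeries (Fin 4) ℂ)
      (θ₁ : MvPowerSeries (Fin 4) ℂ →ₐ[ℂ] R), (∀ i, 0 < w i) → IsHg w d f → Prs f θ₁ →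
      (∀ i, θ₁ (X i) • (1 : A) ∈ TwoSidedIdeal.span {π (idem Q o)}) → d < ∑ i, w i)
    (hfin : ∃ K, Fil (Q.del o) K ≤ jac (res o W)) (ht : Thin (Q.del o)) (hq : IsQHRing R) :
    ClassZero (res o W) := by
  obtain ⟨w, d, f, θ₁, hw, hf, hpf, hiso⟩ := exists_of_isQHRing hp hq
  obtain ⟨δ, hδ⟩ := hpf.exists_euler w d hf
  obtain ⟨Δ, hΔ1, hΔ2, hΔ3⟩ := hlift δ
  obtain ⟨D, hD, hDπ⟩ := h.exists_lift_der δ (hp.der_max δ) Δ hΔ1 hΔ2 hΔ3
  have hDJ : ∀ f ∈ jac W, D f ∈ jac W := by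
    intro f hf
    rw [← h.ker] at hf ⊢
    rw [hDπ, hf, map_zero]
  have hDer : IsDer D := h.isDer hp.der_max hD hDJ
  obtain ⟨σ, κ, hσ, hκ⟩ := exists_gen_arrows hDer
  obtain ⟨ℓ, hℓ⟩ := exists_ell
  have hs : ∀ v, σ.symm (idem Q v) = idem Q v := fun v => by
    rw [AlgEquiv.symm_apply_eq, hσ]
  have hF : ∀ n, ∀ f ∈ Fil Q n, σ f ∈ Fil Q n := fun n f hf => aut_Fil σ hσ n f hf
  have hF' : ∀ n, ∀ f ∈ Fil Q n, σ.symm f ∈ Fil Q n := fun n f hf => aut_Fil σ.symm hs n f hf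
  have hD' := hDer.conj σ hσ hF hF'
  have hDJ' : ∀ f ∈ jac (σ.symm W), (σ.symm.toLinearMap ∘ₗ D ∘ₗ σ.toLinearMap) f ∈
      jac (σ.symm W) := by
    intro f hf
    have h1 : σ f ∈ jac W := by
      have := (jac_aut σ hσ (σ.symm W) f).1 hf
      rwa [AlgEquiv.apply_symm_apply] at this
    exact (jac_aut σ.symm hs W _).1 (hDJ _ h1)
  have hpart := part_mem_of_der hD' hκ ℓ (isCl_jac (σ.symm W)) hDJ'
  have h' := h.twist σ hσ
  obtain ⟨w₀, h'', hjac⟩ := h'.exists_homog (fun a => ℓ (κ a)) hpart.1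
  obtain ⟨cA, cR, hG⟩ := h''.exists_grd (fun a => ℓ (κ a)) (by rw [hjac]; exact hpart.1)
  have hone : (1 : A) ≠ 0 := by
    intro h0
    refine h''.idem_not (Submodule.zero_mem _) o ?_
    rw [map_zero, ← mul_one ((π.comp (σ : Hat Q →ₐ[ℂ] Hat Q)) (idem Q o)), h0, mul_zero]
  have hl : ∀ i, cR (w i : ℚ) (θ₁ (X i)) = θ₁ (X i) := by
    intro i
    obtain ⟨t, ht⟩ := h''.surj (θ₁ (X i) • (1 : A))
    have h1 : (σ.symm.toLinearMap ∘ₗ D ∘ₗ σ.toLinearMap) t - (w i : ℂ) • t ∈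
        jac (σ.symm W) := by
      rw [← h'.ker, map_sub, map_smul, ht]
      have h2 : (π.comp (σ : Hat Q →ₐ[ℂ] Hat Q))
          ((σ.symm.toLinearMap ∘ₗ D ∘ₗ σ.toLinearMap) t) = Δ (π (σ t)) := by
        rw [← hDπ]
        change π (σ (σ.symm (D (σ t)))) = _
        rw [AlgEquiv.apply_symm_apply]
      have h3 : π (σ t) = θ₁ (X i) • (1 : A) := ht
      rw [h2, h3, hΔ3, hδ, smul_assoc, sub_self]
    have h2 := hpart.2 _ _ h1
    have hℓw : ℓ (w i : ℂ) = (w i : ℚ) := by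
      have := hℓ (w i : ℚ)
      rwa [Rat.cast_natCast] at this
    rw [hℓw, ← h'.ker, map_sub, sub_eq_zero, ← hG.pi, ht, hG.one] at h2
    have h3 : (θ₁ (X i) - cR (w i : ℚ) (θ₁ (X i))) • (1 : A) = 0 := by
      rw [sub_smul, sub_eq_zero]
      exact h2
    rcases h.tf _ _ h3 with h4 | h4
    · exact (sub_eq_zero.1 h4).symm
    · exact absurd h4 hone
  have hfQ : IsHg (fun i => (w i : ℚ)) (d : ℚ) f := by
    intro e he
    rw [← hf e he]
    push_cast
    refine Finset.sum_congr rfl fun i _ => ?_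
    simp
  have hom : ∀ i l, (part (fun a => ℓ (κ a)) w₀ (σ.symm W)).cf i i l ≠ 0 →
      (l.map (fun a => ℓ (κ a))).sum = w₀ := by
    intro i l hl
    rw [cf_part] at hl
    by_contra hne
    exact hl (if_neg hne)
  have hwt := h''.weight_formula kex_X hom hG hpf hl hfQ
  have hpos : 0 < w₀ := by
    by_contra hneg
    have hcl := bwd_closed hσ h.pot hfin ht hjac (not_lt.1 hneg)
    refine hneg ?_
    rw [← hwt, sub_pos]
    have h5 := hcan w d f θ₁ hw hf hpf fun i => by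
      have h6 := h''.smul_mem_span hG hcl (μ := (w i : ℚ)) (by exact_mod_cast hw i) (hl i)
      have h7 : (π.comp (σ : Hat Q →ₐ[ℂ] Hat Q)) (idem Q o) = π (idem Q o) := by
        change π (σ (idem Q o)) = _
        rw [hσ]
      rwa [h7] at h6
    exact_mod_cast h5
  exact bwd_section hσ h.pot hfin ht hpart.1 hjac hpos

end Pool.Agent.Flop
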