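import Pool.Agent.Lib.FlA.CDef
import Pool.Agent.Lib.MP_03045c_ag.SubstAut

/-!
# CCo1: coordinate changes of power series

HasSubst c: `hasSubst_of_constantCoeff_zero hc`. `subst_Od`: subst_order in SubstAut.lean. `constantCoeff_subst0`: p - C (constantCoeff p) in Od n 1, subst_Od, `subst_C`. `coeff_single_subst`: both sides are additive in p; write p = C (p(0)) + sum_i C (coeff (single i 1) p) * X i + r, r in Od n 2 (compare coefficients of degree 0, 1), subst c r in Od k 2; subst_add / subst_mul / subst_X / subst_C (or substAlgHom, `coe_substAlgHom`).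
`subst_subst0`: `subst_comp_subst_apply`. `subst_X0`: `subst_self`. `isCoord_of`: coefficient of subst c (q j) at single k 1 is sum_i coeff (single i 1) (q j) * LinP c i k = (1 : Matrix) j k (coeff_single_subst; coeff_X), i.e. LinP q * LinP c = 1, so det (LinP c) <> 0. `IsCoord.bij`: subst_bijective. `mem_Od`: subst_Od and subst_order_inv. `symm`: c' i := the preimage of X i; constantCoeff (mem_Od with N = 1);
subst c (subst c' p) = subst (fun i => subst c (c' i)) p = subst X p = p; the other equation by injectivity of subst c; IsCoord c' by isCoord_of with q := c (subst c' (c j) = X j: c j = subst c (X j)). `comp`: constant coefficients: constantCoeff_subst0; isCoord_of with q := the preimages: IsCoord c has inverse d, IsCoord c' has inverse d', q j := subst d' (d j)... or directly: coefficient of subst c (c' i) at single k 1 = sum_j LinP c' i j * LinP c j k (coeff_single_subst):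
LinP (fun i => subst c (c' i)) = LinP c' * LinP c, Matrix.det_mul.
-/

set_option autoImplicit false

namespace Pool.Agent.Flop

open Finset MvPowerSeries

private theorem cco1_dec {n : ℕ} (p : MvPowerSeries (Fin n) ℂ) :
    p - (C (constantCoeff p) + ∑ i, C (coeff (Finsupp.single i 1) p) * X i) ∈ Od n 2 := by
  intro d hd
  have h1 : d.degree = 0 ∨ d.degree = 1 := by omega
  rw [map_sub, map_add, map_sum]
  rcases h1 with h1 | h1
  · have h2 : d = 0 := (Finsupp.degree_eq_zero_iff d).1 h1
    subst h2
    simp only [coeff_zero_eq_constantCoeff_apply, constantCoeff_C, map_mul, constantCoeff_X,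
      mul_zero, Finset.sum_const_zero, add_zero, sub_self]
  · obtain ⟨k, rfl⟩ : ∃ k, d = Finsupp.single k 1 := by
      have h3 : d ∈ {d : Fin n →₀ ℕ | d.degree = 1} := h1
      rw [← Finsupp.range_single_one] at h3
      obtain ⟨k, hk⟩ := h3
      exact ⟨k, hk.symm⟩
    have h4 : coeff (Finsupp.single k 1) (C (constantCoeff p) : MvPowerSeries (Fin n) ℂ) = 0 := by
      classical
      rw [coeff_C, if_neg]
      intro h
      have := DFunLike.congr_fun h k
      simp at this
    have h5 : ∀ i : Fin n, coeff (Finsupp.single k 1)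
        (C (coeff (Finsupp.single i 1) p) * X i : MvPowerSeries (Fin n) ℂ) =
        if i = k then coeff (Finsupp.single i 1) p else 0 := by
      classical
      intro i
      rw [coeff_C_mul, coeff_X]
      by_cases hik : i = k
      · subst hik
        simp
      · have h6 : (Finsupp.single k 1 : Fin n →₀ ℕ) ≠ Finsupp.single i 1 := by
          intro h7
          exact hik (Finsupp.single_left_injective one_ne_zero h7).symm
        simp [hik, h6]
    rw [h4, zero_add, Finset.sum_congr rfl fun i _ => h5 i, Finset.sum_ite_eq' univ k,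
      if_pos (Finset.mem_univ k), sub_self]

theorem subst_Od {n k N : ℕ} {c : Fin n → MvPowerSeries (Fin k) ℂ}
    (hc : ∀ i, constantCoeff (c i) = 0) {p : MvPowerSeries (Fin n) ℂ} (hp : p ∈ Od n N) :
    subst c p ∈ Od k N :=
  subst_order c hc hp

theorem constantCoeff_subst0 {n k : ℕ} {c : Fin n → MvPowerSeries (Fin k) ℂ}
    (hc : ∀ i, constantCoeff (c i) = 0) (p : MvPowerSeries (Fin n) ℂ) :
    constantCoeff (subst c p) = constantCoeff p := by
  have hs := hasSubst_of_constantCoeff_zero hc
  have h1 : p - C (constantCoeff p) ∈ Od n 1 := by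
    rw [mem_Od_one, map_sub, constantCoeff_C, sub_self]
  have h2 := subst_Od hc h1
  rw [mem_Od_one, subst_sub hs, subst_C, map_sub, constantCoeff_C, sub_eq_zero] at h2
  exact h2

theorem coeff_single_subst {n k : ℕ} {c : Fin n → MvPowerSeries (Fin k) ℂ}
    (hc : ∀ i, constantCoeff (c i) = 0) (p : MvPowerSeries (Fin n) ℂ) (j : Fin k) :
    coeff (Finsupp.single j 1) (subst c p) =
      ∑ i, coeff (Finsupp.single i 1) p * coeff (Finsupp.single j 1) (c i) := by
  have hs := hasSubst_of_constantCoeff_zero hc
  have h1 := subst_Od hc (cco1_dec p) (Finsupp.single j 1) (by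
    rw [Finsupp.degree_single]
    exact Nat.one_lt_two)
  rw [subst_sub hs, map_sub, sub_eq_zero] at h1
  rw [h1, subst_add hs, subst_C, map_add]
  have h4 : coeff (Finsupp.single j 1) (C (constantCoeff p) : MvPowerSeries (Fin k) ℂ) = 0 := by
    classical
    rw [coeff_C, if_neg]
    intro h
    have := DFunLike.congr_fun h j
    simp at this
  rw [h4, zero_add, ← coe_substAlgHom hs, map_sum, map_sum]
  refine Finset.sum_congr rfl fun i _ => ?_
  rw [map_mul, substAlgHom_X, coe_substAlgHom hs, subst_C, coeff_C_mul]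

theorem subst_subst0 {n k m : ℕ} {c : Fin n → MvPowerSeries (Fin k) ℂ}
    (hc : ∀ i, constantCoeff (c i) = 0) {c' : Fin m → MvPowerSeries (Fin n) ℂ}
    (hc' : ∀ i, constantCoeff (c' i) = 0) (p : MvPowerSeries (Fin m) ℂ) :
    subst c (subst c' p) = subst (fun i => subst c (c' i)) p :=
  subst_comp_subst_apply (hasSubst_of_constantCoeff_zero hc')
    (hasSubst_of_constantCoeff_zero hc) p

theorem subst_X0 {n : ℕ} (p : MvPowerSeries (Fin n) ℂ) :
    subst (fun i : Fin n => (X i : MvPowerSeries (Fin n) ℂ)) p = p := by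
  have h := congrFun (subst_self (σ := Fin n) (R := ℂ)) p
  exact h

theorem isCoord_of {n : ℕ} {c : Fin n → MvPowerSeries (Fin n) ℂ}
    (hc : ∀ i, constantCoeff (c i) = 0) (q : Fin n → MvPowerSeries (Fin n) ℂ)
    (h : ∀ j, subst c (q j) - X j ∈ Od n 2) : IsCoord c := by
  classical
  refine ⟨hc, ?_⟩
  have h1 : LinP q * LinP c = 1 := by
    ext j k
    have h2 := h j (Finsupp.single k 1) (by
      rw [Finsupp.degree_single]
      exact Nat.one_lt_two)
    rw [map_sub, coeff_single_subst hc, sub_eq_zero] at h2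
    rw [Matrix.mul_apply]
    refine Eq.trans ?_ (h2.trans ?_)
    · rfl
    · rw [coeff_X, Matrix.one_apply]
      by_cases hjk : j = k
      · subst hjk
        simp
      · have h6 : (Finsupp.single k 1 : Fin n →₀ ℕ) ≠ Finsupp.single j 1 := by
          intro h7
          exact hjk (Finsupp.single_left_injective one_ne_zero h7).symm
        simp [hjk, h6]
  intro h0
  have h3 := congrArg Matrix.det h1
  rw [Matrix.det_mul, h0, mul_zero, Matrix.det_one] at h3
  exact zero_ne_one h3

theorem IsCoord.bij {n : ℕ} {c : Fin n → MvPowerSeries (Fin n) ℂ} (hc : IsCoord c) :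
    Function.Bijective (subst c : MvPowerSeries (Fin n) ℂ → MvPowerSeries (Fin n) ℂ) :=
  subst_bijective c hc.1 hc.2

theorem IsCoord.mem_Od {n N : ℕ} {c : Fin n → MvPowerSeries (Fin n) ℂ} (hc : IsCoord c)
    {p : MvPowerSeries (Fin n) ℂ} : subst c p ∈ Od n N ↔ p ∈ Od n N :=
  ⟨fun h => subst_order_inv c hc.1 hc.2 h, fun h => subst_Od hc.1 h⟩

theorem IsCoord.symm {n : ℕ} {c : Fin n → MvPowerSeries (Fin n) ℂ} (hc : IsCoord c) :
    ∃ c' : Fin n → MvPowerSeries (Fin n) ℂ, IsCoord c' ∧ (∀ p, subst c (subst c' p) = p) ∧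
      ∀ p, subst c' (subst c p) = p := by
  choose c' hc' using fun i => hc.bij.2 (X i)
  have h0 : ∀ i, constantCoeff (c' i) = 0 := fun i => by
    rw [← constantCoeff_subst0 hc.1 (c' i), hc' i, constantCoeff_X]
  have h1 : ∀ p, subst c (subst c' p) = (p : MvPowerSeries (Fin n) ℂ) := fun p => by
    rw [subst_subst0 hc.1 h0, funext hc']
    exact subst_X0 p
  have h2 : ∀ p, subst c' (subst c p) = (p : MvPowerSeries (Fin n) ℂ) := fun p =>
    hc.bij.1 (h1 (subst c p))
  refine ⟨c', isCoord_of h0 c fun j => ?_, h1, h2⟩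
  have h3 := h2 (X j)
  rw [subst_X (hasSubst_of_constantCoeff_zero hc.1)] at h3
  rw [h3, sub_self]
  exact (Od n 2).zero_mem

theorem IsCoord.comp {n : ℕ} {c c' : Fin n → MvPowerSeries (Fin n) ℂ} (hc : IsCoord c)
    (hc' : IsCoord c') : IsCoord (fun i => subst c (c' i)) := by
  refine ⟨fun i => by rw [constantCoeff_subst0 hc.1, hc'.1], ?_⟩
  have h1 : LinP (fun i => subst c (c' i)) = LinP c' * LinP c := by
    ext j k
    rw [Matrix.mul_apply]
    exact coeff_single_subst hc.1 (c' j) k
  rw [h1, Matrix.det_mul]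
  exact mul_ne_zero hc'.2 hc.2

end Pool.Agent.Flop
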