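import Pool.Agent.Lib.FlA.OdB

/-!
# ChR: the chain rule for substitutions

Both sides are additive in p, and for p in Od n (N + 1) both are in Od k N (subst_order in Pool/Agent/Lib/MP_03045c_ag/SubstAut.lean; pderiv_Od). Fix N: p = finite sum of monomials of degree <= N + (element of Od n (N+1)); so enough for monomials C a * prod X_i^e_i: subst_mul, subst_pow, subst_X, Leibniz; i.e. both sides are derivations over subst c agreeing on the X_i:
D1 (p q) = D1 p * subst c q + subst c p * D1 q for D1 p = pderiv (subst c p) and for D2 p = sum_i subst c (pderiv i p) * pderiv (c i). Then Od_sep. (HasSubst: hasSubst_of_constantCoeff_zero.)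
-/

set_option autoImplicit false

namespace Pool.Agent.Flop

open Finset MvPowerSeries

private theorem chr_zero {n k : ℕ} {c : Fin n → MvPowerSeries (Fin k) ℂ} (hs : HasSubst c) :
    subst c (0 : MvPowerSeries (Fin n) ℂ) = 0 := by
  rw [← coe_substAlgHom hs, map_zero]

private theorem chr_poly {n k : ℕ} {c : Fin n → MvPowerSeries (Fin k) ℂ}
    (hc : ∀ i, constantCoeff (c i) = 0) (j : Fin k) (p : MvPolynomial (Fin n) ℂ) :
    pderiv ℂ j (subst c (p : MvPowerSeries (Fin n) ℂ)) =
      ∑ i, subst c (pderiv ℂ i (p : MvPowerSeries (Fin n) ℂ)) * pderiv ℂ j (c i) := by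
  classical
  have hs : HasSubst c := hasSubst_of_constantCoeff_zero hc
  induction p using MvPolynomial.induction_on with
  | C a =>
    rw [MvPolynomial.coe_C, subst_C, pderiv_C]
    symm
    refine Finset.sum_eq_zero fun i _ => ?_
    rw [pderiv_C, chr_zero hs, zero_mul]
  | add p q hp hq =>
    rw [MvPolynomial.coe_add, subst_add hs, map_add, hp, hq, ← Finset.sum_add_distrib]
    refine Finset.sum_congr rfl fun i _ => ?_
    rw [map_add, subst_add hs, add_mul]
  | mul_X p i hp =>
    rw [MvPolynomial.coe_mul, MvPolynomial.coe_X, subst_mul hs, subst_X hs, Derivation.leibniz, hp,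
      smul_eq_mul, smul_eq_mul]
    have e : ∀ l : Fin n, subst c (pderiv ℂ l ((p : MvPowerSeries (Fin n) ℂ) * X i)) *
        pderiv ℂ j (c l) = c i * (subst c (pderiv ℂ l (p : MvPowerSeries (Fin n) ℂ)) *
          pderiv ℂ j (c l)) + (if l = i then subst c (p : MvPowerSeries (Fin n) ℂ) *
            pderiv ℂ j (c l) else 0) := by
      intro l
      rw [Derivation.leibniz, smul_eq_mul, smul_eq_mul, subst_add hs, subst_mul hs, subst_mul hs,
        subst_X hs]
      split_ifs with h
      · subst h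
        have h1 : subst c (1 : MvPowerSeries (Fin n) ℂ) = 1 := by
          rw [← coe_substAlgHom hs, map_one]
        rw [pderiv_X_self, h1]
        ring
      · rw [pderiv_X_of_ne (Ne.symm h), chr_zero hs]
        ring
    rw [Finset.sum_congr rfl fun l _ => e l, Finset.sum_add_distrib, ← Finset.mul_sum,
      Finset.sum_ite_eq' Finset.univ i, if_pos (Finset.mem_univ i)]
    ring

private theorem chr_od {n k : ℕ} {c : Fin n → MvPowerSeries (Fin k) ℂ}
    (hc : ∀ i, constantCoeff (c i) = 0) {p : MvPowerSeries (Fin n) ℂ} {N : ℕ} (hp : p ∈ Od n N) :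
    subst c p ∈ Od k N := by
  have h1 := le_order_subst (hasSubst_of_constantCoeff_zero hc) p
  have h2 : (1 : ℕ∞) ≤ ⨅ i, (c i).order :=
    le_iInf fun i => one_le_order_iff_constCoeff_eq_zero.2 (hc i)
  have h3 : (N : ℕ∞) ≤ p.order := nat_le_order hp
  have h4 : (N : ℕ∞) ≤ (subst c p).order := by
    refine le_trans (le_trans h3 ?_) h1
    calc p.order = 1 * p.order := (one_mul _).symm
      _ ≤ (⨅ i, (c i).order) * p.order := mul_le_mul_left h2 _
  intro d hd
  exact coeff_of_lt_order (lt_of_lt_of_le (by exact_mod_cast hd) h4)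

theorem pderiv_subst {n k : ℕ} {c : Fin n → MvPowerSeries (Fin k) ℂ}
    (hc : ∀ i, constantCoeff (c i) = 0) (j : Fin k) (p : MvPowerSeries (Fin n) ℂ) :
    pderiv ℂ j (subst c p) = ∑ i, subst c (pderiv ℂ i p) * pderiv ℂ j (c i) := by
  have hs : HasSubst c := hasSubst_of_constantCoeff_zero hc
  rw [← sub_eq_zero]
  refine Od_sep fun N => ?_
  obtain ⟨q, hq⟩ : ∃ q : MvPolynomial (Fin n) ℂ, p - (q : MvPowerSeries (Fin n) ℂ) ∈
      Od n (N + 1) := by
    refine ⟨truncTotal (N + 1) p, fun d hd => ?_⟩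
    rw [map_sub, MvPolynomial.coeff_coe, coeff_truncTotal _ hd, sub_self]
  set r : MvPowerSeries (Fin n) ℂ := p - (q : MvPowerSeries (Fin n) ℂ) with hr
  have hp : p = (q : MvPowerSeries (Fin n) ℂ) + r := by rw [hr]; ring
  have e : pderiv ℂ j (subst c p) - ∑ i, subst c (pderiv ℂ i p) * pderiv ℂ j (c i) =
      pderiv ℂ j (subst c r) - ∑ i, subst c (pderiv ℂ i r) * pderiv ℂ j (c i) := by
    have e2 : ∑ i, subst c (pderiv ℂ i p) * pderiv ℂ j (c i) =
        ∑ i, subst c (pderiv ℂ i (q : MvPowerSeries (Fin n) ℂ)) * pderiv ℂ j (c i) +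
          ∑ i, subst c (pderiv ℂ i r) * pderiv ℂ j (c i) := by
      rw [← Finset.sum_add_distrib]
      refine Finset.sum_congr rfl fun i _ => ?_
      rw [hp, map_add, subst_add hs, add_mul]
    rw [e2, hp, subst_add hs, map_add, chr_poly hc j q]
    ring
  rw [e]
  refine sub_mem (pderiv_Od (chr_od hc hq) j) (sum_mem fun i _ => ?_)
  exact Ideal.mul_mem_right _ _ (chr_od hc (pderiv_Od hq i))

end Pool.Agent.Flop
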