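import Pool.Agent.Lib.FlA.CCo1
import Pool.Agent.Lib.FlA.ChR

/-!
# CCo2: coordinate changes and the hypotheses of the theorem of Saito

`Jac_subst`: chain rule (pderiv_subst): ∂_j (subst c g) = sum_i subst c (∂_i g) * ∂_j (c i). p in Od n N: subst c p in Od n N <= Jac (subst c g): subst c p = sum_j b_j * ∂_j (subst c g) (Ideal.mem_span_range_iff_exists_fun) = sum_i B_i * subst c (∂_i g), B_i = sum_j b_j ∂_j (c i) = subst c (B' i) (surjectivity), so subst c p = subst c (sum_i B' i * ∂_i g) (substAlgHom is an algebra homomorphism), injectivity: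
p = sum_i B' i * ∂_i g in Jac g. `QI.of_subst`: two: IsCoord.mem_Od. iso: Jac_subst. eul: the same computation with p = g, b = a: constantCoeff (B i) = 0 since constantCoeff (a j) = 0, constantCoeff (B' i) = 0 by constantCoeff_subst0. `SC.of_subst`: g = subst c' g', subst c g = subst (fun i => subst c (c' i)) g' (subst_subst0), IsCoord.comp.
`Jac_square`, `QI.of_square`: ε i := X i.succ : Fin m → P_{m+1}, ρ := Fin.cons 0 (fun i => X i) : Fin (m+1) → P_m; subst ρ (subst ε p) = p (subst_subst0, subst_X, subst_X0). g := X 0 * X 0 + subst ε f: subst ρ g = f; ∂_0 g = 2 X 0 (pderiv_subst: ∂_0 (X i.succ) = 0), ∂_{i.succ} g = subst ε (∂_i f); subst ρ of them: 0 and ∂_i f. two: subst_Od for ρ. iso: p in Od m N: subst ε p in Od (m+1) N <= Jac g: = sum_j b_j ∂_j g; apply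
subst ρ: p = sum_i subst ρ (b i.succ) * ∂_i f (Fin.sum_univ_succ). eul: apply subst ρ to g = sum_j a_j ∂_j g; constantCoeff_subst0.
-/

set_option autoImplicit false

namespace Pool.Agent.Flop

open Finset MvPowerSeries

private theorem cco2_sum {n k : ℕ} {c : Fin n → MvPowerSeries (Fin k) ℂ}
    (hc : ∀ i, constantCoeff (c i) = 0) {ι : Type} (s : Finset ι)
    (f : ι → MvPowerSeries (Fin n) ℂ) : subst c (∑ i ∈ s, f i) = ∑ i ∈ s, subst c (f i) := by
  have hs := hasSubst_of_constantCoeff_zero hc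
  rw [← coe_substAlgHom hs, map_sum]

private theorem cco2_mul {n k : ℕ} {c : Fin n → MvPowerSeries (Fin k) ℂ}
    (hc : ∀ i, constantCoeff (c i) = 0) (f g : MvPowerSeries (Fin n) ℂ) :
    subst c (f * g) = subst c f * subst c g :=
  subst_mul (hasSubst_of_constantCoeff_zero hc) f g

private theorem cco2_X {n k : ℕ} {c : Fin n → MvPowerSeries (Fin k) ℂ}
    (hc : ∀ i, constantCoeff (c i) = 0) (i : Fin n) :
    subst c (X i : MvPowerSeries (Fin n) ℂ) = c i :=
  subst_X (hasSubst_of_constantCoeff_zero hc) i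

private theorem cco2_pull {n : ℕ} {c : Fin n → MvPowerSeries (Fin n) ℂ} (hc : IsCoord c)
    {g p : MvPowerSeries (Fin n) ℂ} {b : Fin n → MvPowerSeries (Fin n) ℂ}
    (h : subst c p = ∑ j, b j * pderiv ℂ j (subst c g)) :
    ∃ B : Fin n → MvPowerSeries (Fin n) ℂ,
      (∀ i, subst c (B i) = ∑ j, b j * pderiv ℂ j (c i)) ∧ p = ∑ i, B i * pderiv ℂ i g := by
  choose B hB using fun i => hc.bij.2 (∑ j, b j * pderiv ℂ j (c i))
  refine ⟨B, hB, hc.bij.1 ?_⟩
  rw [cco2_sum hc.1, h]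
  rw [Finset.sum_congr rfl (fun i _ => by rw [cco2_mul hc.1, hB i, Finset.sum_mul] :
    ∀ i ∈ Finset.univ, subst c (B i * pderiv ℂ i g) =
      ∑ j, b j * pderiv ℂ j (c i) * subst c (pderiv ℂ i g))]
  rw [Finset.sum_comm]
  refine Finset.sum_congr rfl fun j _ => ?_
  rw [pderiv_subst hc.1, Finset.mul_sum]
  refine Finset.sum_congr rfl fun i _ => ?_
  ring

theorem Jac_subst {n N : ℕ} {c : Fin n → MvPowerSeries (Fin n) ℂ} (hc : IsCoord c)
    {g : MvPowerSeries (Fin n) ℂ} (h : Od n N ≤ Jac (subst c g)) : Od n N ≤ Jac g := by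
  intro p hp
  have h1 := h (subst_Od hc.1 hp)
  rw [Jac, Ideal.mem_span_range_iff_exists_fun] at h1
  obtain ⟨b, hb⟩ := h1
  obtain ⟨B, _, hB⟩ := cco2_pull hc hb.symm
  rw [Jac, Ideal.mem_span_range_iff_exists_fun]
  exact ⟨B, hB.symm⟩

theorem QI.of_subst {n : ℕ} {c : Fin n → MvPowerSeries (Fin n) ℂ} (hc : IsCoord c)
    {g : MvPowerSeries (Fin n) ℂ} (h : QI (subst c g)) : QI g := by
  obtain ⟨a, ha0, ha⟩ := h.eul
  obtain ⟨N, hN⟩ := h.iso
  obtain ⟨B, hB, hg⟩ := cco2_pull hc ha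
  refine ⟨hc.mem_Od.mp h.two, ⟨N, Jac_subst hc hN⟩, ⟨B, fun i => ?_, hg⟩⟩
  rw [← constantCoeff_subst0 hc.1 (B i), hB i, map_sum]
  refine Finset.sum_eq_zero fun j _ => ?_
  rw [map_mul, ha0 j, zero_mul]

theorem SC.of_subst {n : ℕ} {c : Fin n → MvPowerSeries (Fin n) ℂ} (hc : IsCoord c)
    {g : MvPowerSeries (Fin n) ℂ} (h : SC g) : SC (subst c g) := by
  obtain ⟨c', w, d, f', hc', hw, hf, rfl⟩ := h
  exact ⟨fun i => subst c (c' i), w, d, f', hc.comp hc', hw, hf, subst_subst0 hc.1 hc'.1 f'⟩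

private theorem cco2_eps {m : ℕ} (i : Fin m) :
    constantCoeff (X i.succ : MvPowerSeries (Fin (m + 1)) ℂ) = 0 := constantCoeff_X _

private noncomputable def ccoRho (m : ℕ) : Fin (m + 1) → MvPowerSeries (Fin m) ℂ :=
  Fin.cons 0 (fun i => X i)

private theorem cco2_rho {m : ℕ} (i : Fin (m + 1)) : constantCoeff (ccoRho m i) = 0 := by
  refine Fin.cases ?_ (fun j => ?_) i
  · exact map_zero _
  · exact constantCoeff_X _

private theorem cco2_rho_eps {m : ℕ} (p : MvPowerSeries (Fin m) ℂ) :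
    subst (ccoRho m) (subst (fun i : Fin m => (X i.succ : MvPowerSeries (Fin (m + 1)) ℂ)) p) =
      p := by
  rw [subst_subst0 cco2_rho cco2_eps]
  have h : (fun i : Fin m => subst (ccoRho m) (X i.succ : MvPowerSeries (Fin (m + 1)) ℂ)) =
      fun i : Fin m => (X i : MvPowerSeries (Fin m) ℂ) := by
    funext i
    rw [cco2_X cco2_rho]
    rfl
  rw [h]
  exact subst_X0 p

private theorem cco2_rho_G {m : ℕ} (f : MvPowerSeries (Fin m) ℂ) :
    subst (ccoRho m) (X 0 * X 0 +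
      subst (fun i : Fin m => (X i.succ : MvPowerSeries (Fin (m + 1)) ℂ)) f) = f := by
  rw [subst_add (hasSubst_of_constantCoeff_zero cco2_rho), cco2_mul cco2_rho, cco2_X cco2_rho,
    cco2_rho_eps]
  have h : ccoRho m 0 = 0 := rfl
  rw [h, mul_zero, zero_add]

private theorem cco2_d0 {m : ℕ} (f : MvPowerSeries (Fin m) ℂ) :
    subst (ccoRho m) (pderiv ℂ 0 (X 0 * X 0 +
      subst (fun i : Fin m => (X i.succ : MvPowerSeries (Fin (m + 1)) ℂ)) f)) = 0 := by
  have h : ccoRho m 0 = 0 := rfl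
  rw [map_add, Derivation.leibniz, pderiv_X_self, smul_eq_mul, mul_one, pderiv_subst cco2_eps,
    Finset.sum_eq_zero, add_zero, subst_add (hasSubst_of_constantCoeff_zero cco2_rho),
    cco2_X cco2_rho, h, add_zero]
  intro i _
  rw [pderiv_X_of_ne (Fin.succ_ne_zero i), mul_zero]

private theorem cco2_ds {m : ℕ} (f : MvPowerSeries (Fin m) ℂ) (k : Fin m) :
    subst (ccoRho m) (pderiv ℂ k.succ (X 0 * X 0 +
      subst (fun i : Fin m => (X i.succ : MvPowerSeries (Fin (m + 1)) ℂ)) f)) =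
      pderiv ℂ k f := by
  rw [map_add, Derivation.leibniz, pderiv_X_of_ne (Fin.succ_ne_zero k).symm, smul_zero, add_zero,
    zero_add, pderiv_subst cco2_eps, Finset.sum_eq_single k, pderiv_X_self, mul_one, cco2_rho_eps]
  · intro i _ hi
    rw [pderiv_X_of_ne (fun h => hi (Fin.succ_injective _ h)), mul_zero]
  · intro h
    exact absurd (Finset.mem_univ _) h

private theorem cco2_res {m : ℕ} {f : MvPowerSeries (Fin m) ℂ} {p : MvPowerSeries (Fin (m + 1)) ℂ}
    {b : Fin (m + 1) → MvPowerSeries (Fin (m + 1)) ℂ}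
    (h : p = ∑ j, b j * pderiv ℂ j (X 0 * X 0 +
      subst (fun i : Fin m => (X i.succ : MvPowerSeries (Fin (m + 1)) ℂ)) f)) :
    subst (ccoRho m) p = ∑ i, subst (ccoRho m) (b i.succ) * pderiv ℂ i f := by
  rw [h, cco2_sum cco2_rho, Fin.sum_univ_succ, cco2_mul cco2_rho, cco2_d0, mul_zero, zero_add]
  refine Finset.sum_congr rfl fun i _ => ?_
  rw [cco2_mul cco2_rho, cco2_ds]

theorem QI.of_square {m : ℕ} {f : MvPowerSeries (Fin m) ℂ}
    (h : QI (X 0 * X 0 + subst (fun i : Fin m => (X i.succ : MvPowerSeries (Fin (m + 1)) ℂ)) f)) :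
    QI f := by
  obtain ⟨a, ha0, ha⟩ := h.eul
  obtain ⟨N, hN⟩ := h.iso
  refine ⟨?_, ⟨N, fun p hp => ?_⟩, ⟨fun i => subst (ccoRho m) (a i.succ), fun i => ?_, ?_⟩⟩
  · have h1 := subst_Od cco2_rho h.two
    rwa [cco2_rho_G] at h1
  · have h1 := hN (subst_Od cco2_eps hp)
    rw [Jac, Ideal.mem_span_range_iff_exists_fun] at h1
    obtain ⟨b, hb⟩ := h1
    have h2 := cco2_res hb.symm
    rw [cco2_rho_eps] at h2
    rw [Jac, Ideal.mem_span_range_iff_exists_fun]
    exact ⟨_, h2.symm⟩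
  · show constantCoeff (subst (ccoRho m) (a i.succ)) = 0
    rw [constantCoeff_subst0 cco2_rho, ha0]
  · have h2 := cco2_res ha
    rw [cco2_rho_G] at h2
    exact h2

end Pool.Agent.Flop
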