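import Pool.Agent.Lib.FlA.CCo1

/-!
# CCo3: adding a square to a quasi-homogeneous power series

f = subst c f', weights w, degree d. constantCoeff f' = 0 (constantCoeff_subst0). If f' <> 0 there is e with coeff e f' <> 0, e <> 0, so d = sum e_i w_i > 0; if f' = 0 replace d by 1 (IsHg w 1 0 is trivial): so we may assume 0 < d. ε i := X i.succ. New coordinates C := Fin.cons (X 0) (fun i => subst ε (c i)); constant coefficients 0. IsCoord C: isCoord_of with q := Fin.cons (X 0) (fun i => subst ε (c'' i)), c'' the inverse coordinates (IsCoord.symm):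
subst C (subst ε p) = subst (fun i => subst C (X i.succ)) p = subst (fun i => subst ε (c i)) p = subst ε (subst c p) (subst_subst0 twice), so subst C (subst ε (c'' i)) = subst ε (subst c (c'' i)) = subst ε (X i) = X i.succ (c'' i = subst c'' (X i)). New series F := X 0 * X 0 + subst ε f', subst C F = X 0 * X 0 + subst ε (subst c f'). Weights W := Fin.cons d (fun i => 2 * w i) (positive), degree 2 d.
IsHg W (2 d) F: coeff e (X 0 * X 0): nonzero only for e = single 0 2 (weight 2 d); coeff e (subst ε f') : = coeff (e ∘ succ) f' if e 0 = 0, and 0 if e 0 <> 0: `subst_embed` below: both sides are additive and compatible with the order: compare the linear maps on monomials (subst_monomial: product of X i.succ ^ e_i = monomial of the exponent shifted), or use `MvPowerSeries.rename` (Mathlib Rename.lean: rename and its coefficients, relation to subst), or directly `coeff_subst` (finsum with one nonzero term).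
-/

set_option autoImplicit false

namespace Pool.Agent.Flop

open Finset MvPowerSeries

theorem subst_embed {m : ℕ} (f : MvPowerSeries (Fin m) ℂ) (e : Fin (m + 1) →₀ ℕ) :
    coeff e (subst (fun i : Fin m => (X i.succ : MvPowerSeries (Fin (m + 1)) ℂ)) f) =
      if e 0 = 0 then coeff (Finsupp.equivFunOnFinite.symm fun i : Fin m => e i.succ) f else 0 := by
  have h1 : subst (fun i : Fin m => (X i.succ : MvPowerSeries (Fin (m + 1)) ℂ)) f =
      rename (Fin.succEmb m) f := by
    rw [rename_eq_subst]
    rfl
  rw [h1]
  split_ifs with he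
  · have h2 : e = Finsupp.embDomain (Fin.succEmb m)
        (Finsupp.equivFunOnFinite.symm fun i : Fin m => e i.succ) := by
      ext j
      refine Fin.cases ?_ (fun i => ?_) j
      · rw [Finsupp.embDomain_of_notMem_range, he]
        rintro ⟨i, hi⟩
        exact Fin.succ_ne_zero i hi
      · have h3 := Finsupp.embDomain_apply_self (Fin.succEmb m)
          (Finsupp.equivFunOnFinite.symm fun i : Fin m => e i.succ) i
        rw [Fin.coe_succEmb] at h3
        rw [h3]
        rfl
    conv_lhs => rw [h2]
    rw [coeff_embDomain_rename]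
  · refine coeff_rename_eq_zero (Fin.succEmb m) f ?_
    rintro ⟨x, hx⟩
    apply he
    rw [← hx, Finsupp.mapDomain_of_notMem_range]
    rintro ⟨i, hi⟩
    exact Fin.succ_ne_zero i hi

theorem SC.add_square {m : ℕ} {f : MvPowerSeries (Fin m) ℂ} (h0 : constantCoeff f = 0)
    (h : SC f) :
    SC (X 0 * X 0 + subst (fun i : Fin m => (X i.succ : MvPowerSeries (Fin (m + 1)) ℂ)) f) := by
  obtain ⟨c, w, d, f', hc, hw, hf', rfl⟩ := h
  have hε : ∀ i : Fin m, constantCoeff (X i.succ : MvPowerSeries (Fin (m + 1)) ℂ) = 0 :=
    fun i => constantCoeff_X _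
  rw [constantCoeff_subst0 hc.1] at h0
  obtain ⟨d', hd', hfd⟩ : ∃ d', 0 < d' ∧ IsHg w d' f' := by
    by_cases hf : f' = 0
    · subst hf
      exact ⟨1, one_pos, fun e he => absurd (map_zero _) he⟩
    · obtain ⟨e, he⟩ : ∃ e, coeff e f' ≠ 0 := by
        by_contra hcon
        push Not at hcon
        exact hf (MvPowerSeries.ext fun e => by rw [hcon e, map_zero])
      have he0 : e ≠ 0 := by
        rintro rfl
        exact he (by rw [coeff_zero_eq_constantCoeff_apply, h0])
      refine ⟨d, ?_, hf'⟩
      rw [← hf' e he]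
      obtain ⟨i, hi⟩ := Finsupp.ne_iff.1 he0
      rw [Finsupp.coe_zero, Pi.zero_apply] at hi
      refine lt_of_lt_of_le ?_ (Finset.single_le_sum (f := fun i => e i • w i)
        (fun j _ => Nat.zero_le _) (Finset.mem_univ i))
      rw [smul_eq_mul]
      exact Nat.mul_pos (Nat.pos_of_ne_zero hi) (hw i)
  obtain ⟨c'', hc'', h1, h2⟩ := hc.symm
  let C : Fin (m + 1) → MvPowerSeries (Fin (m + 1)) ℂ := Fin.cons (X 0)
    (fun i => subst (fun i : Fin m => (X i.succ : MvPowerSeries (Fin (m + 1)) ℂ)) (c i))
  have hCz : C 0 = X 0 := rfl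
  have hCs : ∀ i : Fin m, C i.succ =
      subst (fun i : Fin m => (X i.succ : MvPowerSeries (Fin (m + 1)) ℂ)) (c i) := fun i => rfl
  have hC0 : ∀ i, constantCoeff (C i) = 0 := by
    intro i
    refine Fin.cases ?_ (fun i => ?_) i
    · rw [hCz]
      exact constantCoeff_X _
    · rw [hCs, constantCoeff_subst0 hε]
      exact hc.1 i
  have hCS : HasSubst C := hasSubst_of_constantCoeff_zero hC0
  have key : ∀ p : MvPowerSeries (Fin m) ℂ,
      subst C (subst (fun i : Fin m => (X i.succ : MvPowerSeries (Fin (m + 1)) ℂ)) p) =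
        subst (fun i : Fin m => (X i.succ : MvPowerSeries (Fin (m + 1)) ℂ)) (subst c p) := by
    intro p
    rw [subst_subst0 hC0 hε, subst_subst0 hε hc.1]
    have e1 : (fun i : Fin m => subst C (X i.succ : MvPowerSeries (Fin (m + 1)) ℂ)) =
        fun i : Fin m => subst (fun i : Fin m => (X i.succ : MvPowerSeries (Fin (m + 1)) ℂ))
          (c i) := by
      funext i
      rw [subst_X hCS, hCs]
    rw [e1]
  have hcc : ∀ i, subst c (c'' i) = X i := by
    intro i
    have hcS : HasSubst c'' := hasSubst_of_constantCoeff_zero hc''.1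
    have e1 : c'' i = subst c'' (X i : MvPowerSeries (Fin m) ℂ) := (subst_X hcS i).symm
    rw [e1, h1]
  have hεS : HasSubst (fun i : Fin m => (X i.succ : MvPowerSeries (Fin (m + 1)) ℂ)) :=
    hasSubst_of_constantCoeff_zero hε
  have hcoord : IsCoord C := by
    refine isCoord_of hC0 (Fin.cons (X 0)
      (fun i => subst (fun i : Fin m => (X i.succ : MvPowerSeries (Fin (m + 1)) ℂ)) (c'' i)))
      fun j => ?_
    refine Fin.cases ?_ (fun i => ?_) j
    · rw [Fin.cons_zero, subst_X hCS, hCz, sub_self]
      exact Ideal.zero_mem _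
    · rw [Fin.cons_succ, key, hcc, subst_X hεS, sub_self]
      exact Ideal.zero_mem _
  refine ⟨C, Fin.cons d' (fun i => 2 * w i), 2 * d', X 0 * X 0 +
    subst (fun i : Fin m => (X i.succ : MvPowerSeries (Fin (m + 1)) ℂ)) f', hcoord, ?_, ?_, ?_⟩
  · intro i
    refine Fin.cases ?_ (fun i => ?_) i
    · rw [Fin.cons_zero]
      exact hd'
    · rw [Fin.cons_succ]
      exact Nat.mul_pos two_pos (hw i)
  · intro e he
    rw [Fin.sum_univ_succ]
    simp only [Fin.cons_zero, Fin.cons_succ, smul_eq_mul]
    rw [map_add] at he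
    by_cases h3 : coeff e (subst (fun i : Fin m =>
        (X i.succ : MvPowerSeries (Fin (m + 1)) ℂ)) f') = 0
    · rw [h3, add_zero, ← pow_two, coeff_X_pow] at he
      have h4 : e = Finsupp.single 0 2 := by
        by_contra hcon
        rw [if_neg hcon] at he
        exact he rfl
      rw [h4, Finsupp.single_eq_same, Finset.sum_eq_zero, add_zero]
      intro i _
      rw [Finsupp.single_apply, if_neg (Fin.succ_ne_zero i).symm, zero_mul]
    · rw [subst_embed] at h3
      split_ifs at h3 with h4
      · have h5 := hfd _ h3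
        rw [h4, zero_mul, zero_add, ← h5, Finset.mul_sum]
        refine Finset.sum_congr rfl fun i _ => ?_
        rw [smul_eq_mul]
        change e i.succ * (2 * w i) = 2 * (e i.succ * w i)
        ring
      · exact absurd rfl h3
  · rw [subst_add hCS, subst_mul hCS, subst_X hCS, hCz, key]

end Pool.Agent.Flop
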