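import Pool.Agent.Lib.FlA.OdB
import Pool.Agent.Lib.MP_03045c_ag.Proj2

/-!
# Internal definitions: quasi-homogeneous isolated singularities
-/

set_option autoImplicit false

namespace Pool.Agent.Flop

open Finset MvPowerSeries

/-- Isolated singularities contained in the ideal of their derivatives. -/
structure QI {n : ℕ} (f : MvPowerSeries (Fin n) ℂ) : Prop where
  two : f ∈ Od n 2
  iso : ∃ N, Od n N ≤ Jac f
  eul : ∃ a : Fin n → MvPowerSeries (Fin n) ℂ, (∀ i, constantCoeff (a i) = 0) ∧
    f = ∑ i, a i * pderiv ℂ i f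

/-- Power series which are quasi-homogeneous in suitable coordinates. -/
def SC {n : ℕ} (f : MvPowerSeries (Fin n) ℂ) : Prop :=
  ∃ (c : Fin n → MvPowerSeries (Fin n) ℂ) (w : Fin n → ℕ) (d : ℕ) (f' : MvPowerSeries (Fin n) ℂ),
    IsCoord c ∧ (∀ i, 0 < w i) ∧ IsHg w d f' ∧ f = subst c f'

/-- The filtration of the ring of power series by the subspaces of series of order at least `N`. -/
noncomputable def OdS (n N : ℕ) : Submodule ℂ (MvPowerSeries (Fin n) ℂ) := (Od n N).restrictScalars ℂ

theorem mem_OdS {n N : ℕ} {p : MvPowerSeries (Fin n) ℂ} : p ∈ OdS n N ↔ p ∈ Od n N := Iff.rfl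

end Pool.Agent.Flop
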