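import Pool.Agent.Lib.FlA.Def3

/-!
# CEul: the Euler formula for homogeneous power series

`coeff_X_mul_pderiv`: (X i * ∂_i p) at e: if e i = 0 it is 0 (`coeff_X_mul`-type lemmas / `MvPowerSeries.coeff_mul` with X i = monomial (single i 1) 1: `X_def`, `coeff_monomial_mul`: coeff e (monomial m a * p) = if m <= e then a * coeff (e - m) p else 0), otherwise coeff (e - single i 1) (∂_i p) = coeff e p * e i (`coeff_pderiv`, e - single i 1 + single i 1 = e).
`euler_formula`: coefficient at e: sum_i l i * (e i * coeff e f) = h * coeff e f: if coeff e f = 0 both are 0, otherwise sum_i e_i • l_i = h, cast to ℂ (push_cast / `Rat.cast_sum`).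
-/

set_option autoImplicit false

namespace Pool.Agent.Flop

open Finset MvPowerSeries

theorem coeff_X_mul_pderiv {n : ℕ} (i : Fin n) (p : MvPowerSeries (Fin n) ℂ) (e : Fin n →₀ ℕ) :
    coeff e (X i * pderiv ℂ i p) = (e i : ℂ) * coeff e p := by
  classical
  rw [X_def, coeff_monomial_mul]
  by_cases h : Finsupp.single i 1 ≤ e
  · rw [if_pos h, one_mul, coeff_pderiv]
    have h1 : e - Finsupp.single i 1 + Finsupp.single i 1 = e := tsub_add_cancel_of_le h
    have h2 : 1 ≤ e i := by
      have := h i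
      simpa using this
    have h3 : (((e - Finsupp.single i 1 : Fin n →₀ ℕ) i : ℕ) : ℂ) + 1 = (e i : ℂ) := by
      have h4 : (e - Finsupp.single i 1 : Fin n →₀ ℕ) i + 1 = e i := by
        rw [Finsupp.tsub_apply, Finsupp.single_eq_same]
        omega
      exact_mod_cast h4
    rw [h1, h3]
    ring
  · rw [if_neg h]
    have h2 : e i = 0 := by
      by_contra h3
      apply h
      rw [Finsupp.single_le_iff]
      omega
    rw [h2]
    simp

theorem euler_formula {n : ℕ} {f : MvPowerSeries (Fin n) ℂ} (l : Fin n → ℚ) (h : ℚ)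
    (hl : IsHg l h f) : ∑ i, MvPowerSeries.C (l i : ℂ) * X i * pderiv ℂ i f =
      MvPowerSeries.C (h : ℂ) * f := by
  ext e
  rw [map_sum]
  have h1 : ∀ i : Fin n, coeff e (MvPowerSeries.C (l i : ℂ) * X i * pderiv ℂ i f) =
      ((e i • l i : ℚ) : ℂ) * coeff e f := by
    intro i
    rw [mul_assoc, MvPowerSeries.coeff_C_mul, coeff_X_mul_pderiv]
    rw [nsmul_eq_mul, Rat.cast_mul, Rat.cast_natCast]
    ring
  rw [Finset.sum_congr rfl fun i _ => h1 i, ← Finset.sum_mul, MvPowerSeries.coeff_C_mul]
  by_cases h2 : coeff e f = 0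
  · rw [h2, mul_zero, mul_zero]
  · have h3 := hl e h2
    rw [← h3]
    push_cast
    rfl

end Pool.Agent.Flop
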