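import Mathlib

/-!
# CGb: a basis of generalized eigenvectors

S := {v | exists κ, ((T - κ • 1)^n) v = 0}. span S = ⊤: `Module.End.iSup_maxGenEigenspace_eq_top T` (ℂ algebraically closed), maxGenEigenspace T κ = genEigenspace T κ (finrank = n) (`Module.End.maxGenEigenspace_eq_genEigenspace_finrank`), `Module.End.mem_genEigenspace_nat`-type unfolding, so every generalized eigenspace is contained in S and ⊤ = iSup <= span S. Choose a basis in S: `exists_linearIndependent ℂ S`: b ⊆ S, span b = span S, linearly independent;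
Basis.mk; its cardinality is n = finrank (index set b: equiv to Fin n: `Module.finrank_eq_card_basis`, b finite by `LinearIndependent.setFinite`), reindex. v : Fin n → (Fin n → ℂ) linearly independent, so det (Matrix.of v) <> 0 (`Matrix.linearIndependent_rows_iff_isUnit`, Matrix.isUnit_iff_isUnit_det; or `LinearIndependent` and Basis.det).
-/

set_option autoImplicit false

namespace Pool.Agent.Flop

theorem exists_gen_basis {n : ℕ} (T : Module.End ℂ (Fin n → ℂ)) :
    ∃ (v : Fin n → Fin n → ℂ) (κ : Fin n → ℂ), (Matrix.of v).det ≠ 0 ∧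
      ∀ i, ((T - κ i • (1 : Module.End ℂ (Fin n → ℂ))) ^ n) (v i) = 0 := by
  classical
  obtain ⟨S, hSdef⟩ : ∃ S : Set (Fin n → ℂ),
    S = {v | ∃ κ : ℂ, ((T - κ • (1 : Module.End ℂ (Fin n → ℂ))) ^ n) v = 0} := ⟨_, rfl⟩
  have hS : Submodule.span ℂ S = ⊤ := by
    rw [eq_top_iff, ← Module.End.iSup_maxGenEigenspace_eq_top T]
    refine iSup_le fun κ => ?_
    intro v hv
    apply Submodule.subset_span
    rw [hSdef]
    refine ⟨κ, ?_⟩
    rw [Module.End.maxGenEigenspace_eq_genEigenspace_finrank, Module.finrank_fin_fun,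
      Module.End.mem_genEigenspace_nat, LinearMap.mem_ker] at hv
    exact hv
  obtain ⟨b, hb1, hb2, hb3⟩ := exists_linearIndependent ℂ S
  have hfin : Finite b := hb3.setFinite
  have hft : Fintype b := Fintype.ofFinite b
  let B : Module.Basis b ℂ (Fin n → ℂ) := Module.Basis.mk hb3 (by rw [Subtype.range_coe, hb2, hS])
  have hc : Fintype.card b = n := by
    rw [← Module.finrank_eq_card_basis B, Module.finrank_fin_fun]
  have e : Fin n ≃ b := (Fintype.equivFinOfCardEq hc).symm
  have hS' : ∀ i : Fin n, ∃ κ : ℂ,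
      ((T - κ • (1 : Module.End ℂ (Fin n → ℂ))) ^ n) (e i : Fin n → ℂ) = 0 := by
    intro i
    have h := hb1 (e i).2
    rw [hSdef] at h
    exact h
  choose κ hκ using hS'
  refine ⟨fun i => (e i : Fin n → ℂ), κ, ?_, hκ⟩
  have h1 : LinearIndependent ℂ (Matrix.of fun i => (e i : Fin n → ℂ)).row :=
    hb3.comp e e.injective
  rw [Matrix.linearIndependent_rows_iff_isUnit, Matrix.isUnit_iff_isUnit_det] at h1
  exact h1.ne_zero

end Pool.Agent.Flop
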