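import Pool.Agent.Lib.FlA.CDef
import Pool.Agent.Lib.FlA.CGb

/-!
# CJo1: coordinates which are generalized eigenvectors of a vector field

`lcf_Od`: as lcFil_Ord in Pool/Agent/Lib/MP_03045c_ag/Poinc1.lean (proved there for two variables; the proof for n variables is the same: lim: the series with coefficient coeff d (s (d.degree + 1)) at d; fin: the quotient embeds into the functions on the finite set of exponents of degree < N, or: Module.Finite via the linear map p ↦ (coeff d p)_d with kernel OdS). `der_Od`: a i in Od n 1, ∂_i x in Od n (N-1): Od_mul, pderiv_Od; N = 0 trivial.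
`exists_eig_coord`: L v := sum_i C (v i) * X i (or v i • X i), T v := fun j => sum_i v i * coeff (single j 1) (a i): linear. D (L v) = sum_i v_i • a i (∂_i (X j)), so D (L v) - L (T v) in Od 2 (compare coefficients of degree 0 and 1; exponents of degree 1 are single j 1: `Finsupp.degree_eq_one_iff`-type), D maps Od 2 to Od 2, so by induction (D - κ)^N (L v) - L ((T - κ)^N v) in Od 2. exists_gen_basis: v i, κ i. Projection P_i := P of exists_proj lcf_Od D der_Od (κ i) (Proj.lean) and c i := P_i (L (v i)).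
c i in Gen: second item of exists_proj. x - P x in OdS n 2 for x = L (v i): y := x - P x: (D - κ)^N y in OdS 2 for N large ((D-κ)^n x in Od 2 and the second item; both stable under further powers), aeval D q y in OdS 2, q(κ) <> 0 (third item with n := 2), q and (X - κ)^N are coprime: 1 = a (X-κ)^N + b q, y = aeval D (..) y in OdS 2 (polynomials in D preserve OdS 2): this is the private lemma `cop` in Pool/Agent/Lib/MP_03045c_ag/Proj2.lean. So c i = L (v i) modulo Od 2:
constantCoeff 0, LinP c = Matrix.of v, det <> 0.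
-/

set_option autoImplicit false

namespace Pool.Agent.Flop

open Finset MvPowerSeries

theorem lcf_Od (n : ℕ) : LCFil (OdS n) := by
  refine ⟨?_, ?_, ?_, ?_, ?_⟩
  · rw [eq_top_iff]
    intro p _ d hd
    exact absurd hd (Nat.not_lt_zero _)
  · intro m p hp
    exact Od_anti (Nat.le_succ m) hp
  · intro x hx
    ext d
    rw [map_zero]
    exact mem_Od.1 (hx (d.degree + 1)) d (Nat.lt_succ_self _)
  · intro s hs
    have key : ∀ (d : Fin n →₀ ℕ) (k : ℕ),
        coeff d (s (d.degree + 1 + k)) = coeff d (s (d.degree + 1)) := by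
      intro d k
      induction k with
      | zero => rfl
      | succ k ih =>
        rw [← ih]
        have h1 := mem_Od.1 (hs (d.degree + 1 + k)) d (by omega)
        rw [map_sub, sub_eq_zero] at h1
        exact h1
    obtain ⟨x, hx⟩ : ∃ x : MvPowerSeries (Fin n) ℂ, ∀ d, coeff d x = coeff d (s (d.degree + 1)) :=
      ⟨fun d => coeff d (s (d.degree + 1)), fun d => rfl⟩
    refine ⟨x, ?_⟩
    intro m
    rw [mem_OdS, mem_Od]
    intro d hd
    rw [map_sub, sub_eq_zero, hx]
    obtain ⟨k, rfl⟩ := Nat.exists_eq_add_of_le (Nat.succ_le_of_lt hd)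
    exact (key d k).symm
  · intro m
    have hfin : Finite {d : Fin n →₀ ℕ // d.degree < m} :=
      (Finsupp.finite_of_degree_lt (σ := Fin n) m).to_subtype
    let T : MvPowerSeries (Fin n) ℂ →ₗ[ℂ] ({d : Fin n →₀ ℕ // d.degree < m} → ℂ) :=
      LinearMap.pi fun d => coeff (R := ℂ) d.1
    have hT : OdS n m = LinearMap.ker T := by
      ext p
      rw [mem_OdS, mem_Od, LinearMap.mem_ker]
      constructor
      · intro h
        funext d
        exact h d.1 d.2
      · intro h d hd
        exact congrFun h ⟨d, hd⟩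
    rw [hT]
    exact Module.Finite.equiv T.quotKerEquivRange.symm

theorem der_Od {n : ℕ} {a : Fin n → MvPowerSeries (Fin n) ℂ} (ha : ∀ i, constantCoeff (a i) = 0)
    {D : Module.End ℂ (MvPowerSeries (Fin n) ℂ)} (hD : ∀ p, D p = ∑ i, a i * pderiv ℂ i p) :
    ∀ N, ∀ x ∈ OdS n N, D x ∈ OdS n N := by
  intro N x hx
  rw [hD]
  refine Submodule.sum_mem _ fun i _ => ?_
  rw [mem_OdS] at hx ⊢
  cases N with
  | zero => rw [Od_zero]; exact Submodule.mem_top
  | succ N =>
    have h1 := Od_mul (mem_Od_one.2 (ha i)) (pderiv_Od hx i)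
    rwa [add_comm] at h1

section alg

variable {B : Type} [AddCommGroup B] [Module ℂ B]

private theorem cj_aeval_mem {W : Submodule ℂ B} {D : Module.End ℂ B} (hW : ∀ x ∈ W, D x ∈ W)
    (p : Polynomial ℂ) : ∀ x ∈ W, Polynomial.aeval D p x ∈ W := by
  induction p using Polynomial.induction_on' with
  | add p q hp hq =>
    intro x hx
    rw [map_add, LinearMap.add_apply]
    exact W.add_mem (hp x hx) (hq x hx)
  | monomial n a =>
    intro x hx
    rw [Polynomial.aeval_monomial, Algebra.algebraMap_eq_smul_one]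
    have h : ∀ n : ℕ, (D ^ n) x ∈ W := by
      intro n
      induction n with
      | zero => simpa using hx
      | succ n ih =>
        rw [pow_succ']
        exact hW _ ih
    have h2 : ((a • (1 : Module.End ℂ B)) * D ^ n) x = a • (D ^ n) x := by
      rw [Module.End.mul_apply]
      rfl
    rw [h2]
    exact W.smul_mem a (h n)

private theorem cj_aeval_sub_C (D : Module.End ℂ B) (κ : ℂ) :
    Polynomial.aeval D (Polynomial.X - Polynomial.C κ) = D - κ • (1 : Module.End ℂ B) := by
  rw [map_sub, Polynomial.aeval_X, Polynomial.aeval_C, Algebra.algebraMap_eq_smul_one]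

private theorem cj_pow_mem {W : Submodule ℂ B} {D : Module.End ℂ B} (hW : ∀ x ∈ W, D x ∈ W)
    (κ : ℂ) (N : ℕ) {x : B} (hx : x ∈ W) : ((D - κ • (1 : Module.End ℂ B)) ^ N) x ∈ W := by
  have h := cj_aeval_mem hW ((Polynomial.X - Polynomial.C κ) ^ N) x hx
  rwa [map_pow, cj_aeval_sub_C] at h

private theorem cj_pow_mem_ge {W : Submodule ℂ B} {D : Module.End ℂ B} (hW : ∀ x ∈ W, D x ∈ W)
    (κ : ℂ) {N M : ℕ} (hNM : N ≤ M) {x : B}
    (hx : ((D - κ • (1 : Module.End ℂ B)) ^ N) x ∈ W) :
    ((D - κ • (1 : Module.End ℂ B)) ^ M) x ∈ W := by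
  obtain ⟨k, rfl⟩ := Nat.exists_eq_add_of_le hNM
  rw [add_comm, pow_add, Module.End.mul_apply]
  exact cj_pow_mem hW κ k hx

private theorem cj_cop {W : Submodule ℂ B} {D : Module.End ℂ B} (hW : ∀ x ∈ W, D x ∈ W) {κ : ℂ}
    {N : ℕ} {q : Polynomial ℂ} (hq : q.eval κ ≠ 0) {x : B}
    (h1 : ((D - κ • (1 : Module.End ℂ B)) ^ N) x ∈ W) (h2 : Polynomial.aeval D q x ∈ W) :
    x ∈ W := by
  have hc : IsCoprime ((Polynomial.X - Polynomial.C κ) ^ N) q := by
    apply IsCoprime.pow_left
    refine ((Polynomial.irreducible_X_sub_C κ).coprime_iff_not_dvd).2 ?_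
    rw [Polynomial.dvd_iff_isRoot]
    exact hq
  obtain ⟨a, b, hab⟩ := hc
  have h3 : Polynomial.aeval D (a * (Polynomial.X - Polynomial.C κ) ^ N + b * q) x = x := by
    rw [hab, map_one]
    rfl
  rw [← h3, map_add, LinearMap.add_apply, map_mul, map_mul, Module.End.mul_apply,
    Module.End.mul_apply, map_pow, cj_aeval_sub_C]
  exact W.add_mem (cj_aeval_mem hW a _ h1) (cj_aeval_mem hW b _ h2)

end alg

private theorem cj_deg {n : ℕ} {d : Fin n →₀ ℕ} (hd : d.degree < 2) :
    d = 0 ∨ ∃ j, d = Finsupp.single j 1 := by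
  by_cases h0 : d = 0
  · exact Or.inl h0
  right
  obtain ⟨j, hj⟩ : ∃ j, d j ≠ 0 := by
    by_contra hcon
    simp only [not_exists, not_not] at hcon
    exact h0 (Finsupp.ext hcon)
  refine ⟨j, ?_⟩
  have hle : Finsupp.single j 1 ≤ d := by
    rw [Finsupp.single_le_iff]
    omega
  obtain ⟨e, he⟩ := exists_add_of_le hle
  have h1 : d.degree = 1 + e.degree := by
    rw [he, map_add, Finsupp.degree_single]
  have h2 : e.degree = 0 := by omega
  rw [Finsupp.degree_eq_zero_iff] at h2
  rw [he, h2, add_zero]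

theorem exists_eig_coord {n : ℕ} {a : Fin n → MvPowerSeries (Fin n) ℂ}
    (ha : ∀ i, constantCoeff (a i) = 0) {D : Module.End ℂ (MvPowerSeries (Fin n) ℂ)}
    (hD : ∀ p, D p = ∑ i, a i * pderiv ℂ i p) :
    ∃ (c : Fin n → MvPowerSeries (Fin n) ℂ) (κ : Fin n → ℂ), IsCoord c ∧
      ∀ i, c i ∈ Gen (OdS n) D (κ i) := by
  classical
  let L : (Fin n → ℂ) →ₗ[ℂ] MvPowerSeries (Fin n) ℂ :=
    { toFun := fun v => ∑ i, v i • (X i : MvPowerSeries (Fin n) ℂ)
      map_add' := fun v w => by
        rw [← Finset.sum_add_distrib]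
        exact Finset.sum_congr rfl fun i _ => add_smul _ _ _
      map_smul' := fun k v => by
        rw [RingHom.id_apply, Finset.smul_sum]
        exact Finset.sum_congr rfl fun i _ => mul_smul _ _ _ }
  have hL : ∀ v, L v = ∑ i, v i • (X i : MvPowerSeries (Fin n) ℂ) := fun _ => rfl
  let T : Module.End ℂ (Fin n → ℂ) :=
    { toFun := fun v j => ∑ i, v i * coeff (Finsupp.single j 1) (a i)
      map_add' := fun v w => by
        funext j
        change ∑ i, (v i + w i) * _ = (∑ i, _) + ∑ i, _
        rw [← Finset.sum_add_distrib]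
        exact Finset.sum_congr rfl fun i _ => add_mul _ _ _
      map_smul' := fun k v => by
        funext j
        change ∑ i, (k * v i) * _ = k * ∑ i, _
        rw [Finset.mul_sum]
        exact Finset.sum_congr rfl fun i _ => mul_assoc _ _ _ }
  have hT : ∀ v j, T v j = ∑ i, v i * coeff (Finsupp.single j 1) (a i) := fun _ _ => rfl
  have hc0 : ∀ v, coeff 0 (L v) = 0 := by
    intro v
    rw [hL, map_sum]
    refine Finset.sum_eq_zero fun i _ => ?_
    rw [map_smul, coeff_zero_X, smul_zero]
  have hc1 : ∀ v j, coeff (Finsupp.single j 1) (L v) = v j := by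
    intro v j
    rw [hL, map_sum, Finset.sum_eq_single j]
    · rw [map_smul, coeff_X, if_pos rfl, smul_eq_mul, mul_one]
    · intro i _ hij
      rw [map_smul, coeff_X, if_neg, smul_zero]
      intro h
      exact hij (Finsupp.single_left_injective one_ne_zero h).symm
    · intro h
      exact absurd (Finset.mem_univ j) h
  have hDX : ∀ i, D (X i) = a i := by
    intro i
    rw [hD, Finset.sum_eq_single i]
    · rw [pderiv_X_self, mul_one]
    · intro j _ hj
      rw [pderiv_X_of_ne hj.symm, mul_zero]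
    · intro h
      exact absurd (Finset.mem_univ i) h
  have hDL : ∀ v, D (L v) - L (T v) ∈ OdS n 2 := by
    intro v
    rw [mem_OdS, mem_Od]
    intro d hd
    have e1 : D (L v) = ∑ i, v i • a i := by
      rw [hL, map_sum]
      exact Finset.sum_congr rfl fun i _ => by rw [map_smul, hDX]
    rcases cj_deg hd with rfl | ⟨j, rfl⟩
    · rw [map_sub, hc0, sub_zero, e1, map_sum]
      refine Finset.sum_eq_zero fun i _ => ?_
      rw [map_smul, coeff_zero_eq_constantCoeff_apply, ha, smul_zero]
    · rw [map_sub, hc1, hT, e1, map_sum, sub_eq_zero]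
      exact Finset.sum_congr rfl fun i _ => by rw [map_smul, smul_eq_mul]
  have hD2 := der_Od ha hD
  have hpow : ∀ (κ : ℂ) (N : ℕ) (v : Fin n → ℂ),
      ((D - κ • (1 : Module.End ℂ (MvPowerSeries (Fin n) ℂ))) ^ N) (L v) -
        L (((T - κ • (1 : Module.End ℂ (Fin n → ℂ))) ^ N) v) ∈ OdS n 2 := by
    intro κ N
    induction N with
    | zero =>
      intro v
      rw [pow_zero, pow_zero, Module.End.one_apply, Module.End.one_apply, sub_self]
      exact Submodule.zero_mem _
    | succ N ih =>
      intro v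
      rw [pow_succ, pow_succ, Module.End.mul_apply, Module.End.mul_apply]
      have h1 := ih ((T - κ • (1 : Module.End ℂ (Fin n → ℂ))) v)
      have h2 : (D - κ • (1 : Module.End ℂ (MvPowerSeries (Fin n) ℂ))) (L v) -
          L ((T - κ • (1 : Module.End ℂ (Fin n → ℂ))) v) ∈ OdS n 2 := by
        have e : (D - κ • (1 : Module.End ℂ (MvPowerSeries (Fin n) ℂ))) (L v) -
            L ((T - κ • (1 : Module.End ℂ (Fin n → ℂ))) v) = D (L v) - L (T v) := by
          rw [LinearMap.sub_apply, LinearMap.sub_apply, map_sub, LinearMap.smul_apply,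
            LinearMap.smul_apply, Module.End.one_apply, Module.End.one_apply, map_smul]
          abel
        rw [e]
        exact hDL v
      have h3 := cj_pow_mem (hD2 2) κ N h2
      rw [map_sub] at h3
      have h4 := Submodule.add_mem _ h3 h1
      rwa [sub_add_sub_cancel] at h4
  obtain ⟨v, κ, hdet, hgen⟩ := exists_gen_basis T
  have hproj : ∀ i, ∃ c : MvPowerSeries (Fin n) ℂ, c ∈ Gen (OdS n) D (κ i) ∧
      L (v i) - c ∈ OdS n 2 := by
    intro i
    obtain ⟨P, hP⟩ := exists_proj (lcf_Od n) D hD2 (κ i)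
    refine ⟨P (L (v i)), fun m => ?_, ?_⟩
    · obtain ⟨N, hN⟩ := (hP m).2.1
      exact ⟨N, hN _⟩
    · obtain ⟨N, hN⟩ := (hP 2).2.1
      obtain ⟨q, hq, hq2⟩ := (hP 2).2.2
      have h1 : ((D - κ i • (1 : Module.End ℂ (MvPowerSeries (Fin n) ℂ))) ^ n) (L (v i)) ∈
          OdS n 2 := by
        have h2 := hpow (κ i) n (v i)
        rwa [hgen i, map_zero, sub_zero] at h2
      refine cj_cop (hD2 2) (κ := κ i) (N := max n N) hq ?_ (hq2 _)
      rw [map_sub]
      exact Submodule.sub_mem _ (cj_pow_mem_ge (hD2 2) _ (le_max_left _ _) h1)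
        (cj_pow_mem_ge (hD2 2) _ (le_max_right _ _) (hN _))
  choose c hc hc2 using hproj
  have hco : ∀ i (d : Fin n →₀ ℕ), d.degree < 2 → coeff d (c i) = coeff d (L (v i)) := by
    intro i d hd
    have h1 := mem_Od.1 (hc2 i) d hd
    rw [map_sub, sub_eq_zero] at h1
    exact h1.symm
  refine ⟨c, κ, ⟨fun i => ?_, ?_⟩, hc⟩
  · rw [← coeff_zero_eq_constantCoeff_apply, hco i 0 (by rw [map_zero]; norm_num), hc0]
  · have e : LinP c = Matrix.of v := by
      ext i j
      change coeff (Finsupp.single j 1) (c i) = v i j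
      rw [hco i _ (by rw [Finsupp.degree_single]; norm_num), hc1]
    rw [e]
    exact hdet

end Pool.Agent.Flop
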