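import Pool.Agent.Lib.FlA.CCo1
import Pool.Agent.Lib.FlA.CJo1

/-!
# CJo2: eigenvectors are homogeneous in coordinates which are generalized eigenvectors

subst c f' in Gen D μ (N = 1: (D - μ) kills it). Let ν <> μ, P the projection IsProj for ν (exists_isProj (lcf_Od n) D hDo ν). part_ν p := the series e ↦ if sum_i e_i • κ_i = ν then coeff e p else 0. Claim: P (subst c p) = subst c (part_ν p) for all p. Both sides are ℂ-linear in p and map Od n N into Od n N (IsProj.fil, subst_Od): so enough for monomials C z * prod X_i^{e_i} (for every N, p is a finite sum of monomials plus an element of Od n N; conclude with Od_sep). For monomials: subst c (monomial e z) = z • prod (c i)^(e i) (subst_monomial) is in Gen D (sum_i e_i κ_i)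
(Gen.mul, Gen.smul; 1 in Gen D 0 since D 1 = 0: D (1 * 1) = D 1 + D 1; hmul: Od ideals): IsProj.fix if the weight is ν, IsProj.kill otherwise. Now P (subst c f') = 0 (kill), so subst c (part_ν f') = 0, part_ν f' = 0 (injectivity, IsCoord.bij). For e with coeff e f' <> 0 and ν := sum e_i κ_i <> μ this contradicts the coefficient at e.
-/

set_option autoImplicit false

namespace Pool.Agent.Flop

open Finset MvPowerSeries

private theorem cjo2_mul_OdS {n : ℕ} : ∀ N (x y : MvPowerSeries (Fin n) ℂ),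
    x ∈ OdS n N ∨ y ∈ OdS n N → x * y ∈ OdS n N := by
  intro N x y h
  rcases h with h | h
  · exact (Od n N).mul_mem_right y h
  · exact (Od n N).mul_mem_left x h

private theorem cjo2_one {n : ℕ} {D : Module.End ℂ (MvPowerSeries (Fin n) ℂ)}
    (hl : ∀ p q, D (p * q) = D p * q + p * D q) :
    (1 : MvPowerSeries (Fin n) ℂ) ∈ Gen (OdS n) D 0 := by
  have h1 : D (1 : MvPowerSeries (Fin n) ℂ) = 0 := by
    have h := hl 1 1
    rw [mul_one, mul_one, one_mul] at h
    exact left_eq_add.mp h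
  intro N
  refine ⟨1, ?_⟩
  rw [pow_one, zero_smul, sub_zero, h1]
  exact (OdS n N).zero_mem

private theorem cjo2_pow {n : ℕ} {D : Module.End ℂ (MvPowerSeries (Fin n) ℂ)}
    (hDo : ∀ N, ∀ x ∈ OdS n N, D x ∈ OdS n N) (hl : ∀ p q, D (p * q) = D p * q + p * D q)
    {x : MvPowerSeries (Fin n) ℂ} {a : ℂ} (hx : x ∈ Gen (OdS n) D a) (k : ℕ) :
    x ^ k ∈ Gen (OdS n) D (k • a) := by
  induction k with
  | zero =>
    rw [pow_zero, zero_smul]
    exact cjo2_one hl
  | succ k ih =>
    rw [pow_succ, succ_nsmul]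
    exact Gen.mul cjo2_mul_OdS hDo hl ih hx

private theorem cjo2_prod {n : ℕ} {D : Module.End ℂ (MvPowerSeries (Fin n) ℂ)}
    (hDo : ∀ N, ∀ x ∈ OdS n N, D x ∈ OdS n N) (hl : ∀ p q, D (p * q) = D p * q + p * D q)
    {c : Fin n → MvPowerSeries (Fin n) ℂ} {κ : Fin n → ℂ}
    (hg : ∀ i, c i ∈ Gen (OdS n) D (κ i)) (e : Fin n →₀ ℕ) (s : Finset (Fin n)) :
    ∏ i ∈ s, c i ^ e i ∈ Gen (OdS n) D (∑ i ∈ s, e i • κ i) := by
  classical
  induction s using Finset.induction_on with
  | empty =>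
    rw [Finset.prod_empty, Finset.sum_empty]
    exact cjo2_one hl
  | insert i s hi ih =>
    rw [Finset.prod_insert hi, Finset.sum_insert hi]
    exact Gen.mul cjo2_mul_OdS hDo hl (cjo2_pow hDo hl (hg i) (e i)) ih

private theorem cjo2_subst_mono {n : ℕ} {D : Module.End ℂ (MvPowerSeries (Fin n) ℂ)}
    (hDo : ∀ N, ∀ x ∈ OdS n N, D x ∈ OdS n N) (hl : ∀ p q, D (p * q) = D p * q + p * D q)
    {c : Fin n → MvPowerSeries (Fin n) ℂ} (hs : HasSubst c) {κ : Fin n → ℂ}
    (hg : ∀ i, c i ∈ Gen (OdS n) D (κ i)) (e : Fin n →₀ ℕ) (z : ℂ) :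
    subst c (monomial e z : MvPowerSeries (Fin n) ℂ) ∈ Gen (OdS n) D (∑ i, e i • κ i) := by
  rw [subst_monomial hs, ← Algebra.smul_def, Finsupp.prod_fintype _ _ (fun i => pow_zero _)]
  exact Gen.smul z (cjo2_prod hDo hl hg e Finset.univ)

open scoped Classical in
/-- the part of weight `ν` -/
private noncomputable def cjo2_part {n : ℕ} (κ : Fin n → ℂ) (ν : ℂ) :
    MvPowerSeries (Fin n) ℂ →ₗ[ℂ] MvPowerSeries (Fin n) ℂ where
  toFun p := fun e => if ∑ i, e i • κ i = ν then coeff e p else 0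
  map_add' p q := by
    ext e
    change (if _ then coeff e (p + q) else 0) =
      (if _ then coeff e p else 0) + (if _ then coeff e q else 0)
    split_ifs
    · rw [map_add]
    · rw [add_zero]
  map_smul' c p := by
    ext e
    change (if _ then coeff e (c • p) else 0) = c * (if _ then coeff e p else 0)
    split_ifs
    · rfl
    · rw [mul_zero]

open scoped Classical in
private theorem cjo2_coeff_part {n : ℕ} (κ : Fin n → ℂ) (ν : ℂ) (p : MvPowerSeries (Fin n) ℂ)
    (e : Fin n →₀ ℕ) :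
    coeff e (cjo2_part κ ν p) = if ∑ i, e i • κ i = ν then coeff e p else 0 := rfl

private theorem cjo2_part_mono_pos {n : ℕ} (κ : Fin n → ℂ) (ν : ℂ) (e : Fin n →₀ ℕ) (z : ℂ)
    (h : ∑ i, e i • κ i = ν) : cjo2_part κ ν (monomial e z) = monomial e z := by
  classical
  ext d
  rw [cjo2_coeff_part]
  split_ifs with hd
  · rfl
  · rw [coeff_monomial, if_neg]
    rintro rfl
    exact hd h

private theorem cjo2_part_mono_neg {n : ℕ} (κ : Fin n → ℂ) (ν : ℂ) (e : Fin n →₀ ℕ) (z : ℂ)
    (h : ∑ i, e i • κ i ≠ ν) : cjo2_part κ ν (monomial e z) = 0 := by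
  classical
  ext d
  rw [cjo2_coeff_part, map_zero]
  split_ifs with hd
  · rw [coeff_monomial, if_neg]
    rintro rfl
    exact h hd
  · rfl

private theorem cjo2_claim {n : ℕ} {D : Module.End ℂ (MvPowerSeries (Fin n) ℂ)}
    (hDo : ∀ N, ∀ x ∈ OdS n N, D x ∈ OdS n N) (hl : ∀ p q, D (p * q) = D p * q + p * D q)
    {c : Fin n → MvPowerSeries (Fin n) ℂ} (hc : ∀ i, constantCoeff (c i) = 0) {κ : Fin n → ℂ}
    (hg : ∀ i, c i ∈ Gen (OdS n) D (κ i)) {ν : ℂ}
    {P : MvPowerSeries (Fin n) ℂ →ₗ[ℂ] MvPowerSeries (Fin n) ℂ} (hP : IsProj (OdS n) D ν P)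
    (p : MvPowerSeries (Fin n) ℂ) : P (subst c p) = subst c (cjo2_part κ ν p) := by
  classical
  have hs : HasSubst c := hasSubst_of_constantCoeff_zero hc
  rw [← sub_eq_zero]
  refine Od_sep fun N => ?_
  set S : Finset (Fin n →₀ ℕ) := (Finsupp.finite_of_degree_lt (σ := Fin n) N).toFinset with hS
  set t : MvPowerSeries (Fin n) ℂ := ∑ e ∈ S, monomial e (coeff e p) with ht
  have hr : p - t ∈ Od n N := by
    intro d hd
    have hdS : d ∈ S := by
      rw [hS, Set.Finite.mem_toFinset]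
      exact hd
    rw [map_sub, ht, map_sum, Finset.sum_eq_single d, coeff_monomial_same, sub_self]
    · intro e _ he
      rw [coeff_monomial, if_neg (Ne.symm he)]
    · intro h
      exact absurd hdS h
  have hsub : ∀ q : MvPowerSeries (Fin n) ℂ, subst c q = substAlgHom hs (R := ℂ) q := by
    intro q
    rw [coe_substAlgHom]
  have hpt : P (subst c t) = subst c (cjo2_part κ ν t) := by
    rw [hsub, hsub, ht, map_sum, map_sum, map_sum, map_sum]
    refine Finset.sum_congr rfl fun e _ => ?_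
    have h1 := cjo2_subst_mono hDo hl hs hg e (coeff e p)
    rw [← hsub, ← hsub]
    by_cases h : ∑ i, e i • κ i = ν
    · rw [cjo2_part_mono_pos κ ν e _ h]
      rw [h] at h1
      exact hP.fix _ h1
    · rw [cjo2_part_mono_neg κ ν e _ h, hP.kill _ h _ h1, hsub, map_zero]
  have hpr : cjo2_part κ ν (p - t) ∈ Od n N := by
    intro d hd
    rw [cjo2_coeff_part]
    split_ifs
    · exact hr d hd
    · rfl
  have e1 : P (subst c p) - subst c (cjo2_part κ ν p) =
      P (subst c (p - t)) - subst c (cjo2_part κ ν (p - t)) := by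
    have e2 : subst c (p - t) = subst c p - subst c t := by
      rw [hsub, hsub, hsub, map_sub]
    have e3 : subst c (cjo2_part κ ν (p - t)) =
        subst c (cjo2_part κ ν p) - subst c (cjo2_part κ ν t) := by
      rw [hsub, hsub, hsub, map_sub, map_sub]
    rw [e2, e3, map_sub, hpt]
    abel
  rw [e1]
  exact (Od n N).sub_mem (hP.fil N _ (subst_Od hc hr)) (subst_Od hc hpr)

theorem hg_of_gen {n : ℕ} {D : Module.End ℂ (MvPowerSeries (Fin n) ℂ)}
    (hDo : ∀ N, ∀ x ∈ OdS n N, D x ∈ OdS n N) (hl : ∀ p q, D (p * q) = D p * q + p * D q)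
    {c : Fin n → MvPowerSeries (Fin n) ℂ} (hc : IsCoord c) {κ : Fin n → ℂ}
    (hg : ∀ i, c i ∈ Gen (OdS n) D (κ i)) {f' : MvPowerSeries (Fin n) ℂ} {μ : ℂ}
    (hf : D (subst c f') = μ • subst c f') : IsHg κ μ f' := by
  classical
  intro e he
  by_contra hne
  obtain ⟨P, hP⟩ := exists_isProj (lcf_Od n) D hDo (∑ i, e i • κ i)
  have h1 : subst c f' ∈ Gen (OdS n) D μ := by
    intro N
    refine ⟨1, ?_⟩
    rw [pow_one, LinearMap.sub_apply, LinearMap.smul_apply, Module.End.one_apply, hf, sub_self]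
    exact (OdS n N).zero_mem
  have h2 : P (subst c f') = 0 := hP.kill μ (fun h => hne h.symm) _ h1
  rw [cjo2_claim hDo hl hc.1 hg hP] at h2
  have h3 : subst c (0 : MvPowerSeries (Fin n) ℂ) = (0 : MvPowerSeries (Fin n) ℂ) := by
    rw [← coe_substAlgHom (hasSubst_of_constantCoeff_zero hc.1), map_zero]
  have h4 : cjo2_part κ (∑ i, e i • κ i) f' = 0 := hc.bij.1 (h2.trans h3.symm)
  have h5 := congrArg (coeff e) h4
  rw [cjo2_coeff_part, if_pos rfl, map_zero] at h5
  exact he h5

end Pool.Agent.Flop
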