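import Pool.Agent.Lib.FlA.OdB

/-!
# CMil1: expansion along a power series

`pow_split`: (Od n N)^k = Od n (N k) (Od_eq, pow_mul), and (span {f} ⊔ q)^k <= span {f^k} ⊔ q by induction: membership p = f^k a + b, (f^k a + b)(f c + d) = f^(k+1) a c + (in q). Od n (N * (k+1)) <= Od n (N * k) * Od n N (ideal product, pow_succ).
`exists_expand`: ι := the finite set of exponents e of degree < N (e.g. `{e // e ∈ (finite set).toFinset}`; finite: the set {e | e.degree < N} is finite: in Mathlib or `Finset.Iic`-type argument e <= (N,...,N); or use ι := Fin n → Fin N and m i := product of X_j^{i j}, which is simpler), m e := monomial e 1. Every p is sum of constants times m e plus an element of Od n N (truncate coefficients), and Od n N <= span {f} ⊔ q: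
p = sum_e C (v e) * m e + f * p' + j, j in q. Iterate: sequences p_0 = p, p_{k+1} := p_k', v_k : ι → ℂ; by induction p - sum_{k < K} f^k sum_e C (v_k e) m e - f^K p_K in q. Put c e := PowerSeries.mk (fun k => v_k e). PowerSeries.subst f (c e) - sum_{k<K} C (v_k e) f^k in Od n K: c e = (polynomial trunc K) + X^K * c' (`PowerSeries.eq_X_pow_mul_shift_add_trunc`
or `PowerSeries.X_pow_dvd_iff`), subst is an algebra homomorphism (`PowerSeries.substAlgHom`, `PowerSeries.coe_substAlgHom`, HasSubst.of_constantCoeff_zero), f^K in Od n K. f^K p_K in Od n K too (Od_mul, mem_Od_one). So p - sum_e subst f (c e) * m e in q + Od n K for all K; ideal_closed q (OdB).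
-/

set_option autoImplicit false

namespace Pool.Agent.Flop

open Finset MvPowerSeries

theorem pow_split {n : ℕ} {f : MvPowerSeries (Fin n) ℂ} {q : Ideal (MvPowerSeries (Fin n) ℂ)}
    {N : ℕ} (h : Od n N ≤ Ideal.span {f} ⊔ q) (k : ℕ) :
    Od n (N * k) ≤ Ideal.span {f ^ k} ⊔ q := by
  induction k with
  | zero =>
    rw [pow_zero, Ideal.span_singleton_one, top_sup_eq]
    exact le_top
  | succ k ih =>
    have e : Od n (N * (k + 1)) = Od n (N * k) * Od n N := by
      rw [Od_eq, Od_eq, Od_eq, mul_add, mul_one, pow_add]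
    rw [e]
    refine le_trans (Ideal.mul_mono ih h) ?_
    rw [Ideal.mul_le]
    intro r hr s hs
    obtain ⟨r1, hr1, r2, hr2, rfl⟩ := Submodule.mem_sup.1 hr
    obtain ⟨s1, hs1, s2, hs2, rfl⟩ := Submodule.mem_sup.1 hs
    obtain ⟨a, rfl⟩ := Ideal.mem_span_singleton'.1 hr1
    obtain ⟨b, rfl⟩ := Ideal.mem_span_singleton'.1 hs1
    have e2 : (a * f ^ k + r2) * (b * f + s2) =
        (a * b) * f ^ (k + 1) + (r2 * (b * f + s2) + (a * f ^ k) * s2) := by ring
    rw [e2]
    refine Submodule.add_mem_sup ?_ ?_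
    · exact Ideal.mul_mem_left _ _ (Ideal.mem_span_singleton_self _)
    · exact q.add_mem (q.mul_mem_right _ hr2) (q.mul_mem_left _ hs2)

private theorem CMil1_subst {n : ℕ} {f : MvPowerSeries (Fin n) ℂ} (h0 : constantCoeff f = 0)
    (c : PowerSeries ℂ) (K : ℕ) :
    PowerSeries.subst f c - ∑ k ∈ range K, C (PowerSeries.coeff k c) * f ^ k ∈ Od n K := by
  have hf : PowerSeries.HasSubst f := PowerSeries.HasSubst.of_constantCoeff_zero h0
  have hdvd : (PowerSeries.X : PowerSeries ℂ) ^ K ∣
      c - ∑ k ∈ range K, PowerSeries.C (PowerSeries.coeff k c) * PowerSeries.X ^ k := by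
    rw [PowerSeries.X_pow_dvd_iff]
    intro m hm
    rw [map_sub, map_sum]
    simp only [PowerSeries.coeff_C_mul, PowerSeries.coeff_X_pow]
    rw [Finset.sum_eq_single m]
    · simp
    · intro b _ hb
      rw [if_neg (Ne.symm hb), mul_zero]
    · intro hh
      exact absurd (Finset.mem_range.2 hm) hh
  obtain ⟨g, hg⟩ := hdvd
  have hC : ∀ a : ℂ, PowerSeries.substAlgHom (R := ℂ) hf (PowerSeries.C a) = C a := by
    intro a
    have e1 : (PowerSeries.C a : PowerSeries ℂ) = algebraMap ℂ (PowerSeries ℂ) a := rfl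
    rw [e1, AlgHom.commutes]
    rfl
  have hX : PowerSeries.substAlgHom (R := ℂ) hf (PowerSeries.X) = f := by
    rw [PowerSeries.coe_substAlgHom, PowerSeries.subst_X hf]
  have h1 := congrArg (PowerSeries.substAlgHom (R := ℂ) hf) hg
  rw [map_sub, map_sum, map_mul, map_pow, hX] at h1
  simp only [map_mul, map_pow, hC, hX] at h1
  rw [← PowerSeries.coe_substAlgHom hf, h1]
  have hfK : ∀ K : ℕ, f ^ K ∈ Od n K := by
    intro K
    induction K with
    | zero => rw [Od_zero]; trivial
    | succ K ih =>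
      rw [pow_succ]
      exact Od_mul ih (mem_Od_one.2 h0)
  exact Ideal.mul_mem_right _ _ (hfK K)

private theorem CMil1_trunc {n N : ℕ} (p : MvPowerSeries (Fin n) ℂ) :
    p - ∑ i : Fin n → Fin N, C (coeff (Finsupp.equivFunOnFinite.symm (fun j => (i j : ℕ))) p) *
      monomial (Finsupp.equivFunOnFinite.symm (fun j => (i j : ℕ))) (1 : ℂ) ∈ Od n N := by
  classical
  intro d hd
  have hdj : ∀ j, d j < N := fun j => lt_of_le_of_lt (Finsupp.le_degree j d) hd
  rw [map_sub, map_sum]
  rw [Finset.sum_eq_single (fun j => (⟨d j, hdj j⟩ : Fin N))]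
  · have e : (Finsupp.equivFunOnFinite.symm (fun j => d j) : Fin n →₀ ℕ) = d := by
      ext j
      rfl
    simp only [MvPowerSeries.coeff_C_mul, MvPowerSeries.coeff_monomial]
    rw [e, if_pos rfl, mul_one, sub_self]
  · intro i _ hi
    rw [MvPowerSeries.coeff_C_mul, MvPowerSeries.coeff_monomial, if_neg, mul_zero]
    intro hde
    apply hi
    funext j
    apply Fin.ext
    have := DFunLike.congr_fun hde j
    simpa using this.symm
  · intro hh
    exact absurd (Finset.mem_univ _) hh

theorem exists_expand {n : ℕ} {f : MvPowerSeries (Fin n) ℂ} (h0 : constantCoeff f = 0)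
    {q : Ideal (MvPowerSeries (Fin n) ℂ)} {N : ℕ} (h : Od n N ≤ Ideal.span {f} ⊔ q) :
    ∃ (ι : Type) (_ : Fintype ι) (m : ι → MvPowerSeries (Fin n) ℂ), ∀ p,
      ∃ c : ι → PowerSeries ℂ, p - ∑ i, PowerSeries.subst f (c i) * m i ∈ q := by
  classical
  refine ⟨Fin n → Fin N, inferInstance,
    fun i => monomial (Finsupp.equivFunOnFinite.symm (fun j => (i j : ℕ))) (1 : ℂ), ?_⟩
  have hB : ∀ p : MvPowerSeries (Fin n) ℂ, ∃ (v : (Fin n → Fin N) → ℂ)
      (p' J : MvPowerSeries (Fin n) ℂ), J ∈ q ∧ p = ∑ i, C (v i) *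
        monomial (Finsupp.equivFunOnFinite.symm (fun j => (i j : ℕ))) (1 : ℂ) + f * p' + J := by
    intro p
    obtain ⟨r1, hr1, r2, hr2, hr⟩ := Submodule.mem_sup.1 (h (CMil1_trunc (N := N) p))
    obtain ⟨a, rfl⟩ := Ideal.mem_span_singleton'.1 hr1
    refine ⟨fun i => coeff (Finsupp.equivFunOnFinite.symm (fun j => (i j : ℕ))) p, a, r2, hr2, ?_⟩
    rw [mul_comm f a, add_assoc, hr]
    ring
  choose v D J hJ hv using hB
  intro p
  set m : (Fin n → Fin N) → MvPowerSeries (Fin n) ℂ :=
    fun i => monomial (Finsupp.equivFunOnFinite.symm (fun j => (i j : ℕ))) (1 : ℂ) with hm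
  have hC : ∀ K : ℕ, p - ∑ k ∈ range K, f ^ k * (∑ i, C (v (D^[k] p) i) * m i) -
      f ^ K * D^[K] p ∈ q := by
    intro K
    induction K with
    | zero => simp
    | succ K ih =>
      have e : p - ∑ k ∈ range (K + 1), f ^ k * (∑ i, C (v (D^[k] p) i) * m i) -
          f ^ (K + 1) * D^[K + 1] p =
          (p - ∑ k ∈ range K, f ^ k * (∑ i, C (v (D^[k] p) i) * m i) - f ^ K * D^[K] p) +
            f ^ K * J (D^[K] p) := by
        rw [Finset.sum_range_succ, Function.iterate_succ_apply']
        have h1 := hv (D^[K] p)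
        have h2 : f ^ K * D^[K] p = f ^ K * (∑ i, C (v (D^[K] p) i) * m i +
            f * D (D^[K] p) + J (D^[K] p)) := congrArg (fun x => f ^ K * x) h1
        rw [h2]
        ring
      rw [e]
      exact q.add_mem ih (q.mul_mem_left _ (hJ _))
  refine ⟨fun i => PowerSeries.mk (fun k => v (D^[k] p) i), ?_⟩
  refine ideal_closed q fun K => ⟨_, hC K, ?_⟩
  have e : p - ∑ i, PowerSeries.subst f (PowerSeries.mk (fun k => v (D^[k] p) i)) * m i -
      (p - ∑ k ∈ range K, f ^ k * (∑ i, C (v (D^[k] p) i) * m i) - f ^ K * D^[K] p) =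
      f ^ K * D^[K] p - ∑ i, (PowerSeries.subst f (PowerSeries.mk (fun k => v (D^[k] p) i)) -
        ∑ k ∈ range K, C (PowerSeries.coeff k (PowerSeries.mk (fun k => v (D^[k] p) i))) * f ^ k) *
          m i := by
    have e1 : ∑ k ∈ range K, f ^ k * (∑ i, C (v (D^[k] p) i) * m i) =
        ∑ i, (∑ k ∈ range K,
          C (PowerSeries.coeff k (PowerSeries.mk (fun k => v (D^[k] p) i))) * f ^ k) * m i := by
      simp only [Finset.mul_sum, Finset.sum_mul, PowerSeries.coeff_mk]
      rw [Finset.sum_comm]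
      refine Finset.sum_congr rfl fun i _ => Finset.sum_congr rfl fun k _ => ?_
      ring
    rw [e1]
    simp only [sub_mul, Finset.sum_sub_distrib]
    ring
  rw [e]
  refine (Od n K).sub_mem ?_ (Ideal.sum_mem _ fun i _ => ?_)
  · have hfK : ∀ K : ℕ, f ^ K ∈ Od n K := by
      intro K
      induction K with
      | zero => rw [Od_zero]; trivial
      | succ K ih =>
        rw [pow_succ]
        exact Od_mul ih (mem_Od_one.2 h0)
    exact Ideal.mul_mem_right _ _ (hfK K)
  · exact Ideal.mul_mem_right _ _ (CMil1_subst h0 _ K)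

end Pool.Agent.Flop
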