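import Pool.Agent.Lib.FlA.CMil1

/-!
# CMil2: a matrix representation over the power series in one variable

K := PowerSeries ℂ (a principal ideal domain), P := MvPowerSeries (Fin n) ℂ, B := P ⧸ q, a K-algebra by the ring homomorphism (Ideal.Quotient.mk q).comp (PowerSeries.substAlgHom hf) (let := RingHom.toAlgebra ...), hf : HasSubst f from constantCoeff f = 0. c • mk p = mk (subst f c * p). Module.Finite K B by exists_expand (the classes of m i span: ⟨⟨Finset.univ.image .., _⟩⟩, or Module.Finite.of_surjective from ι → K).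
Torsion-free: c • mk p = 0 with c <> 0: c = X^k * unit (`PowerSeries.eq_unit_mul_..`/ `PowerSeries.Unit_of_divided_by_X_pow_order`, or IsDiscreteValuationRing / associated powers), so f^k * p in q, so p in q (induction with hq). So B is free (`Module.free_of_finite_type_torsion_free'` with Module.IsTorsionFree / NoZeroSMulDivisors): basis b indexed by Fin r (`Module.finBasis`). M := (Algebra.leftMulMatrix b).toRingHom.comp (mk q).
M (C z) = C z • 1: mk (C z) = algebraMap K B (PowerSeries.C z) (`PowerSeries.subst` of a constant), `AlgHom.commutes`, `Algebra.algebraMap_eq_smul_one`. M f = X • 1: mk f = algebraMap X (`PowerSeries.subst_X`). Kernel: `Algebra.leftMulMatrix_injective`, Ideal.Quotient.eq_zero_iff_mem.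
-/

set_option autoImplicit false

namespace Pool.Agent.Flop

open Finset MvPowerSeries

theorem exists_rep {n : ℕ} {f : MvPowerSeries (Fin n) ℂ} (h0 : constantCoeff f = 0)
    {q : Ideal (MvPowerSeries (Fin n) ℂ)} (hq : ∀ p, f * p ∈ q → p ∈ q) {N : ℕ}
    (h : Od n N ≤ Ideal.span {f} ⊔ q) :
    ∃ (r : ℕ) (M : MvPowerSeries (Fin n) ℂ →+* Matrix (Fin r) (Fin r) (PowerSeries ℂ)),
      (∀ z : ℂ, M (MvPowerSeries.C z) = (PowerSeries.C z : PowerSeries ℂ) • 1) ∧
      M f = (PowerSeries.X : PowerSeries ℂ) • 1 ∧ ∀ p, M p = 0 ↔ p ∈ q := by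
  classical
  have hf : PowerSeries.HasSubst f := PowerSeries.HasSubst.of_constantCoeff_zero h0
  obtain ⟨ι, hι, m, hexp⟩ := exists_expand h0 h
  let φ : PowerSeries ℂ →ₐ[ℂ] MvPowerSeries (Fin n) ℂ := PowerSeries.substAlgHom hf
  have hφ : ∀ c, φ c = PowerSeries.subst f c := fun c => by
    rw [← PowerSeries.coe_substAlgHom hf]
  let g : PowerSeries ℂ →+* (MvPowerSeries (Fin n) ℂ ⧸ q) :=
    (Ideal.Quotient.mk q).comp (φ : PowerSeries ℂ →+* MvPowerSeries (Fin n) ℂ)
  let alg : Algebra (PowerSeries ℂ) (MvPowerSeries (Fin n) ℂ ⧸ q) := g.toAlgebra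
  have hsmul : ∀ (c : PowerSeries ℂ) (p : MvPowerSeries (Fin n) ℂ),
      c • (Ideal.Quotient.mk q p) = Ideal.Quotient.mk q (PowerSeries.subst f c * p) := by
    intro c p
    rw [Algebra.smul_def, map_mul, ← hφ]
    rfl
  have hfin : Module.Finite (PowerSeries ℂ) (MvPowerSeries (Fin n) ℂ ⧸ q) := by
    refine Module.Finite.of_surjective
      (Fintype.linearCombination (PowerSeries ℂ) (fun i => Ideal.Quotient.mk q (m i))) ?_
    intro b
    obtain ⟨p, rfl⟩ := Ideal.Quotient.mk_surjective b
    obtain ⟨c, hc⟩ := hexp p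
    refine ⟨c, ?_⟩
    rw [Fintype.linearCombination_apply]
    have h1 : Ideal.Quotient.mk q p = Ideal.Quotient.mk q (∑ i, PowerSeries.subst f (c i) * m i) := by
      rw [Ideal.Quotient.eq]
      exact hc
    rw [h1, map_sum]
    exact Finset.sum_congr rfl fun i _ => hsmul _ _
  have hpow : ∀ (k : ℕ) (p : MvPowerSeries (Fin n) ℂ), f ^ k * p ∈ q → p ∈ q := by
    intro k
    induction k with
    | zero => intro p hp; simpa using hp
    | succ k ih =>
      intro p hp
      apply ih
      apply hq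
      rw [pow_succ] at hp
      have : f * (f ^ k * p) = f ^ k * f * p := by ring
      rw [this]
      exact hp
  have htf : Module.IsTorsionFree (PowerSeries ℂ) (MvPowerSeries (Fin n) ℂ ⧸ q) := by
    constructor
    intro c hc
    have hc0 : c ≠ 0 := hc.ne_zero
    rw [isSMulRegular_iff_right_eq_zero_of_smul]
    intro b hb
    obtain ⟨p, rfl⟩ := Ideal.Quotient.mk_surjective b
    rw [hsmul, Ideal.Quotient.eq_zero_iff_mem] at hb
    rw [Ideal.Quotient.eq_zero_iff_mem]
    have hdec : PowerSeries.X ^ c.order.toNat * (PowerSeries.Unit_of_divided_by_X_pow_order c : PowerSeries ℂ) = c := by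
      rw [PowerSeries.Unit_of_divided_by_X_pow_order_nonzero hc0]
      exact PowerSeries.X_pow_order_mul_divXPowOrder
    set u := PowerSeries.Unit_of_divided_by_X_pow_order c with hu
    set k := c.order.toNat with hk
    have hfc : PowerSeries.subst f c = f ^ k * φ (u : PowerSeries ℂ) := by
      conv_lhs => rw [← hdec]
      rw [← hφ, map_mul, map_pow, hφ PowerSeries.X, PowerSeries.subst_X hf]
    rw [hfc] at hb
    apply hpow k
    have h2 : f ^ k * p = φ ((u⁻¹ : (PowerSeries ℂ)ˣ) : PowerSeries ℂ) * (f ^ k * φ (u : PowerSeries ℂ) * p) := by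
      have h3 : φ ((u⁻¹ : (PowerSeries ℂ)ˣ) : PowerSeries ℂ) * φ (u : PowerSeries ℂ) = 1 := by
        rw [← map_mul, Units.inv_mul, map_one]
      calc f ^ k * p = (φ ((u⁻¹ : (PowerSeries ℂ)ˣ) : PowerSeries ℂ) * φ (u : PowerSeries ℂ)) * (f ^ k * p) := by
            rw [h3, one_mul]
        _ = _ := by ring
    rw [h2]
    exact q.mul_mem_left _ hb
  have hfree : Module.Free (PowerSeries ℂ) (MvPowerSeries (Fin n) ℂ ⧸ q) :=
    Module.free_of_finite_type_torsion_free'
  let b := Module.finBasis (PowerSeries ℂ) (MvPowerSeries (Fin n) ℂ ⧸ q)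
  refine ⟨Module.finrank (PowerSeries ℂ) (MvPowerSeries (Fin n) ℂ ⧸ q),
    ((Algebra.leftMulMatrix b) : (MvPowerSeries (Fin n) ℂ ⧸ q) →+* _).comp (Ideal.Quotient.mk q),
    ?_, ?_, ?_⟩
  · intro z
    have h1 : Ideal.Quotient.mk q (MvPowerSeries.C z)
        = algebraMap (PowerSeries ℂ) (MvPowerSeries (Fin n) ℂ ⧸ q) (PowerSeries.C z) := by
      change _ = Ideal.Quotient.mk q (φ (PowerSeries.C z))
      congr 1
      exact (φ.commutes z).symm
    rw [RingHom.comp_apply, h1]
    change Algebra.leftMulMatrix b _ = _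
    rw [AlgHom.commutes, Algebra.algebraMap_eq_smul_one]
  · have h1 : Ideal.Quotient.mk q f
        = algebraMap (PowerSeries ℂ) (MvPowerSeries (Fin n) ℂ ⧸ q) PowerSeries.X := by
      change _ = Ideal.Quotient.mk q (φ PowerSeries.X)
      rw [hφ, PowerSeries.subst_X hf]
    rw [RingHom.comp_apply, h1]
    change Algebra.leftMulMatrix b _ = _
    rw [AlgHom.commutes, Algebra.algebraMap_eq_smul_one]
  · intro p
    rw [RingHom.comp_apply]
    change Algebra.leftMulMatrix b _ = 0 ↔ _
    rw [← Ideal.Quotient.eq_zero_iff_mem]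
    constructor
    · intro hp
      apply Algebra.leftMulMatrix_injective b
      rw [hp, map_zero]
    · intro hp
      rw [hp, map_zero]

end Pool.Agent.Flop
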