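import Pool.Agent.Lib.FlA.OdB

/-!
# CPos: positivity of the weights, rational and integral weights

A homogeneous power series of order at least 3 with an isolated singularity has positive weights;
complex weights can be replaced by rational ones and positive rational weights by integers.
-/

set_option autoImplicit false

namespace Pool.Agent.Flop

open Finset MvPowerSeries

theorem exists_monomial {n : ℕ} {f : MvPowerSeries (Fin n) ℂ} (hM : ∃ N, Od n N ≤ Jac f)
    (i : Fin n) : ∃ (j : Fin n) (k : ℕ),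
      coeff (Finsupp.single i k + Finsupp.single j 1) f ≠ 0 := by
  classical
  obtain ⟨N, hN⟩ := hM
  have hX : ∀ N : ℕ, (X i : MvPowerSeries (Fin n) ℂ) ^ N ∈ Od n N := by
    intro N
    induction N with
    | zero =>
      rw [Od_zero]
      exact Submodule.mem_top
    | succ N ih =>
      rw [pow_succ]
      refine Od_mul ih ?_
      rw [mem_Od_one]
      exact constantCoeff_X i
  have h1 : (X i : MvPowerSeries (Fin n) ℂ) ^ N ∈
      Ideal.span (Set.range fun j => pderiv ℂ j f) := hN (hX N)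
  obtain ⟨c, hc⟩ := Ideal.mem_span_range_iff_exists_fun.1 h1
  have h2 : coeff (Finsupp.single i N) ((X i : MvPowerSeries (Fin n) ℂ) ^ N) = 1 := by
    rw [coeff_X_pow, if_pos rfl]
  rw [← hc, map_sum] at h2
  have h3 : ∑ j, coeff (Finsupp.single i N) (c j * pderiv ℂ j f) ≠ 0 := by
    rw [h2]
    exact one_ne_zero
  obtain ⟨j, -, hj⟩ := Finset.exists_ne_zero_of_sum_ne_zero h3
  rw [coeff_mul] at hj
  obtain ⟨⟨a, b⟩, hab, hb⟩ := Finset.exists_ne_zero_of_sum_ne_zero hj
  rw [Finset.HasAntidiagonal.mem_antidiagonal] at hab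
  have hb' := right_ne_zero_of_mul hb
  dsimp only at hab hb'
  rw [coeff_pderiv] at hb'
  have hbi : b = Finsupp.single i (b i) := by
    ext t
    by_cases ht : t = i
    · rw [ht, Finsupp.single_eq_same]
    · rw [Finsupp.single_eq_of_ne ht]
      have h4 := DFunLike.congr_fun hab t
      rw [Finsupp.add_apply, Finsupp.single_eq_of_ne ht] at h4
      omega
  refine ⟨j, b i, ?_⟩
  rw [← hbi]
  exact left_ne_zero_of_mul hb'

private theorem cPos_sum {n : ℕ} (l : Fin n → ℚ) (i j : Fin n) (k : ℕ) :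
    ∑ t, (Finsupp.single i k + Finsupp.single j 1 : Fin n →₀ ℕ) t • l t = k * l i + l j := by
  classical
  have h1 : ∀ t, (Finsupp.single i k + Finsupp.single j 1 : Fin n →₀ ℕ) t • l t =
      (if t = i then (k : ℚ) * l t else 0) + (if t = j then l t else 0) := by
    intro t
    rw [Finsupp.add_apply, add_smul, nsmul_eq_mul, nsmul_eq_mul]
    congr 1
    · by_cases h : t = i
      · rw [if_pos h, h, Finsupp.single_eq_same]
      · rw [if_neg h, Finsupp.single_eq_of_ne h, Nat.cast_zero, zero_mul]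
    · by_cases h : t = j
      · rw [if_pos h, h, Finsupp.single_eq_same, Nat.cast_one, one_mul]
      · rw [if_neg h, Finsupp.single_eq_of_ne h, Nat.cast_zero, zero_mul]
  rw [Finset.sum_congr rfl fun t _ => h1 t, Finset.sum_add_distrib, Finset.sum_ite_eq',
    Finset.sum_ite_eq', if_pos (Finset.mem_univ _), if_pos (Finset.mem_univ _)]

theorem pos_weights {n : ℕ} {f : MvPowerSeries (Fin n) ℂ} (h3 : f ∈ Od n 3)
    (hM : ∃ N, Od n N ≤ Jac f) (l : Fin n → ℚ) (hl : IsHg l 1 f) : ∀ i, 0 < l i := by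
  have key : ∀ i, ∃ (j : Fin n) (k : ℕ), 2 ≤ k ∧ (k : ℚ) * l i + l j = 1 := by
    intro i
    obtain ⟨j, k, hjk⟩ := exists_monomial hM i
    refine ⟨j, k, ?_, ?_⟩
    · by_contra hk
      apply hjk
      refine h3 _ ?_
      rw [map_add, Finsupp.degree_single, Finsupp.degree_single]
      omega
    · rw [← cPos_sum]
      exact hl _ hjk
  intro i0
  by_contra hneg
  have : Nonempty (Fin n) := ⟨i0⟩
  obtain ⟨i, hi⟩ := Finite.exists_min l
  obtain ⟨i', hi'⟩ := Finite.exists_max l
  have hli : l i ≤ 0 := (hi i0).trans (not_lt.1 hneg)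
  obtain ⟨j, k, hk, hjk⟩ := key i
  obtain ⟨j', k', hk', hjk'⟩ := key i'
  have hkq : (2 : ℚ) ≤ k := by exact_mod_cast hk
  have hkq' : (2 : ℚ) ≤ k' := by exact_mod_cast hk'
  have e1 : 1 - 2 * l i ≤ l j := by nlinarith
  have e2 := hi' j
  have e3 : 1 ≤ l i' := by linarith
  have e4 : l j' ≤ 1 - 2 * l i' := by nlinarith
  have e5 := hi j'
  linarith

theorem rat_weights {n : ℕ} {f : MvPowerSeries (Fin n) ℂ} {κ : Fin n → ℂ} (h : IsHg κ 1 f) :
    ∃ l : Fin n → ℚ, IsHg l 1 f := by
  obtain ⟨φ, hφ⟩ := LinearMap.exists_leftInverse_of_injective (Algebra.linearMap ℚ ℂ)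
    (LinearMap.ker_eq_bot.2 (algebraMap ℚ ℂ).injective)
  have h1 : φ 1 = 1 := by
    have h2 := LinearMap.congr_fun hφ 1
    rwa [LinearMap.comp_apply, Algebra.linearMap_apply, map_one, LinearMap.id_apply] at h2
  refine ⟨fun i => φ (κ i), fun e he => ?_⟩
  rw [← h1, ← h e he, map_sum]
  exact Finset.sum_congr rfl fun i _ => (map_nsmul φ _ _).symm

theorem nat_weights {n : ℕ} {f : MvPowerSeries (Fin n) ℂ} {l : Fin n → ℚ}
    (hpos : ∀ i, 0 < l i) (h : IsHg l 1 f) :
    ∃ (w : Fin n → ℕ) (d : ℕ), (∀ i, 0 < w i) ∧ IsHg w d f := by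
  obtain ⟨D, hD⟩ : ∃ D : ℕ, D = ∏ i, (l i).den := ⟨_, rfl⟩
  have hD0 : 0 < D := by
    rw [hD]
    exact Finset.prod_pos fun i _ => (l i).den_pos
  have hw : ∀ i, ∃ m : ℕ, (m : ℚ) = D * l i := by
    intro i
    have h1 : (l i).den ∣ D := by
      rw [hD]
      exact Finset.dvd_prod_of_mem (fun i => (l i).den) (Finset.mem_univ i)
    obtain ⟨c, hc⟩ := h1
    refine ⟨c * (l i).num.toNat, ?_⟩
    have h2 : (0 : ℤ) ≤ (l i).num := (Rat.num_pos.2 (hpos i)).le
    have h3 : (((l i).num.toNat : ℕ) : ℚ) = ((l i).num : ℚ) := by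
      exact_mod_cast congrArg (Int.cast : ℤ → ℚ) (Int.toNat_of_nonneg h2)
    have h4 : ((l i).den : ℚ) * l i = (l i).num := by
      rw [mul_comm]
      exact Rat.mul_den_eq_num (l i)
    rw [hc, Nat.cast_mul, Nat.cast_mul, h3, ← h4]
    ring
  choose w hw using hw
  refine ⟨w, D, fun i => ?_, fun e he => ?_⟩
  · have h1 : (0 : ℚ) < w i := by
      rw [hw]
      exact mul_pos (by exact_mod_cast hD0) (hpos i)
    exact_mod_cast h1
  · have h1 := h e he
    have h2 : ((∑ i, e i • w i : ℕ) : ℚ) = (D : ℚ) := by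
      have h3 : ∀ i, ((e i • w i : ℕ) : ℚ) = D * (e i • l i) := by
        intro i
        rw [smul_eq_mul, Nat.cast_mul, hw, nsmul_eq_mul]
        ring
      rw [Nat.cast_sum, Finset.sum_congr rfl fun i _ => h3 i, ← Finset.mul_sum, h1, mul_one]
    exact_mod_cast h2

end Pool.Agent.Flop
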