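import Pool.Agent.Lib.FlA.CCo1
import Pool.Agent.Lib.FlA.ChR

/-!
# CQd: coordinates in which a nonzero quadratic part contains the square of the first variable

(1) There are i, j with constantCoeff (∂_i ∂_j f) <> 0: otherwise ∂_j f in Od 2 for all j (Od_of_pderiv; constantCoeff (∂_j f) = 0 since f in Od 2, pderiv_Od; mem_Od_one), so f in Od 3 (Od_of_pderiv). Derivatives commute (coeff_pderiv). (2) If constantCoeff (∂_i ∂_i f) <> 0: σ := Equiv.swap 0 i, c k := X (σ k), g := subst c f; subst c (c k) = X k, so subst c g = f (subst_subst0, subst_X0); IsCoord c (isCoord_of with q := c).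
∂_0 (subst c p) = sum_k subst c (∂_k p) * ∂_0 (X (σ k)) (pderiv_subst) = subst c (∂_i p) (only k = i = σ 0 contributes: pderiv_X_self, pderiv_X_of_ne); twice: ∂_0 ∂_0 g = subst c (∂_i ∂_i f), constantCoeff_subst0. (3) If constantCoeff (∂_k ∂_k f) = 0 for all k: i <> j. c' k := X k for k <> j, c' j := X j + X i; c k := X k, c j := X j - X i; subst c (c' k) = X k, subst c' (c k) = X k; both IsCoord (isCoord_of).
g1 := subst c' f, f = subst c g1. ∂_i (subst c' p) = subst c' (∂_i p) + subst c' (∂_j p); twice: constantCoeff (∂_i ∂_i g1) = constantCoeff (∂_i∂_i f + ∂_i ∂_j f + ∂_j ∂_i f + ∂_j ∂_j f) = 2 constantCoeff (∂_i ∂_j f) <> 0. Apply (2) to g1: g1 = subst c2 g; f = subst c (subst c2 g) = subst (fun i => subst c (c2 i)) g (subst_subst0), IsCoord.comp.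
-/

set_option autoImplicit false

namespace Pool.Agent.Flop

open Finset MvPowerSeries

private theorem cqd_cc {n : ℕ} (i j : Fin n) (p : MvPowerSeries (Fin n) ℂ) :
    constantCoeff (pderiv ℂ i (pderiv ℂ j p)) =
      coeff (Finsupp.single i 1 + Finsupp.single j 1) p *
        ((Finsupp.single i 1 : Fin n →₀ ℕ) j + 1 : ℕ) := by
  rw [← coeff_zero_eq_constantCoeff_apply, coeff_pderiv, coeff_pderiv, zero_add]
  simp

private theorem cqd_comm {n : ℕ} {i j : Fin n} (hij : i ≠ j) (p : MvPowerSeries (Fin n) ℂ) :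
    constantCoeff (pderiv ℂ i (pderiv ℂ j p)) = constantCoeff (pderiv ℂ j (pderiv ℂ i p)) := by
  rw [cqd_cc, cqd_cc, add_comm (Finsupp.single i 1), Finsupp.single_eq_of_ne (Ne.symm hij),
    Finsupp.single_eq_of_ne hij]

private theorem cqd_swap {m : ℕ} {f : MvPowerSeries (Fin (m + 1)) ℂ} (i : Fin (m + 1))
    (h : constantCoeff (pderiv ℂ i (pderiv ℂ i f)) ≠ 0) :
    ∃ (c : Fin (m + 1) → MvPowerSeries (Fin (m + 1)) ℂ)
      (g : MvPowerSeries (Fin (m + 1)) ℂ), IsCoord c ∧ f = subst c g ∧
        constantCoeff (pderiv ℂ 0 (pderiv ℂ 0 g)) ≠ 0 := by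
  classical
  set σ : Equiv.Perm (Fin (m + 1)) := Equiv.swap 0 i with hσ
  set c : Fin (m + 1) → MvPowerSeries (Fin (m + 1)) ℂ := fun k => X (σ k) with hcdef
  have hc : ∀ k, constantCoeff (c k) = 0 := fun k => constantCoeff_X _
  have hs : HasSubst c := hasSubst_of_constantCoeff_zero hc
  have hcc : ∀ k, subst c (c k) = X k := by
    intro k
    rw [hcdef]
    change subst c (X (σ k)) = X k
    rw [subst_X hs]
    change (X (σ (σ k)) : MvPowerSeries (Fin (m + 1)) ℂ) = X k
    rw [hσ, Equiv.swap_apply_self]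
  have hD : ∀ p, pderiv ℂ 0 (subst c p) = subst c (pderiv ℂ i p) := by
    intro p
    rw [pderiv_subst hc 0 p, Finset.sum_eq_single i]
    · have h1 : c i = X 0 := by
        change (X (σ i) : MvPowerSeries (Fin (m + 1)) ℂ) = X 0
        rw [hσ, Equiv.swap_apply_right]
      rw [h1, pderiv_X_self, mul_one]
    · intro k _ hk
      have h1 : σ k ≠ 0 := by
        intro h0
        apply hk
        apply σ.injective
        rw [h0, hσ, Equiv.swap_apply_right]
      change subst c (pderiv ℂ k p) * pderiv ℂ 0 (X (σ k)) = 0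
      rw [pderiv_X_of_ne h1, mul_zero]
    · intro hk
      exact absurd (Finset.mem_univ i) hk
  refine ⟨c, subst c f, ?_, ?_, ?_⟩
  · refine isCoord_of hc c fun j => ?_
    rw [hcc, sub_self]
    exact (Od (m + 1) 2).zero_mem
  · rw [subst_subst0 hc hc]
    have h1 : (fun k => subst c (c k)) = fun k : Fin (m + 1) =>
        (X k : MvPowerSeries (Fin (m + 1)) ℂ) := funext hcc
    rw [h1, subst_X0]
  · rw [hD, hD, constantCoeff_subst0 hc]
    exact h

theorem exists_shear {m : ℕ} {f : MvPowerSeries (Fin (m + 1)) ℂ} (h2 : f ∈ Od (m + 1) 2)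
    (h3 : f ∉ Od (m + 1) 3) : ∃ (c : Fin (m + 1) → MvPowerSeries (Fin (m + 1)) ℂ)
      (g : MvPowerSeries (Fin (m + 1)) ℂ), IsCoord c ∧ f = subst c g ∧
        constantCoeff (pderiv ℂ 0 (pderiv ℂ 0 g)) ≠ 0 := by
  classical
  have hex : ∃ i j, constantCoeff (pderiv ℂ i (pderiv ℂ j f)) ≠ 0 := by
    by_contra hcon
    push Not at hcon
    apply h3
    refine Od_of_pderiv (mem_Od_one.1 (Od_anti (by omega) h2)) fun j => ?_
    refine Od_of_pderiv (mem_Od_one.1 (pderiv_Od h2 j)) fun i => ?_
    exact mem_Od_one.2 (hcon i j)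
  by_cases hdiag : ∃ k, constantCoeff (pderiv ℂ k (pderiv ℂ k f)) ≠ 0
  · obtain ⟨k, hk⟩ := hdiag
    exact cqd_swap k hk
  · push Not at hdiag
    obtain ⟨i, j, hij⟩ := hex
    have hne : i ≠ j := by
      rintro rfl
      exact hij (hdiag i)
    set c' : Fin (m + 1) → MvPowerSeries (Fin (m + 1)) ℂ :=
      fun k => if k = j then X j + X i else X k with hc'def
    set c : Fin (m + 1) → MvPowerSeries (Fin (m + 1)) ℂ :=
      fun k => if k = j then X j - X i else X k with hcdef
    have hc' : ∀ k, constantCoeff (c' k) = 0 := by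
      intro k
      rw [hc'def]
      beta_reduce
      split_ifs
      · rw [map_add, constantCoeff_X, constantCoeff_X, add_zero]
      · exact constantCoeff_X _
    have hc : ∀ k, constantCoeff (c k) = 0 := by
      intro k
      rw [hcdef]
      beta_reduce
      split_ifs
      · rw [map_sub, constantCoeff_X, constantCoeff_X, sub_zero]
      · exact constantCoeff_X _
    have hs' : HasSubst c' := hasSubst_of_constantCoeff_zero hc'
    have hs : HasSubst c := hasSubst_of_constantCoeff_zero hc
    have hcj : c j = X j - X i := by rw [hcdef]; exact if_pos rfl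
    have hck : ∀ k, k ≠ j → c k = X k := by
      intro k hk
      rw [hcdef]
      exact if_neg hk
    have hcj' : c' j = X j + X i := by rw [hc'def]; exact if_pos rfl
    have hck' : ∀ k, k ≠ j → c' k = X k := by
      intro k hk
      rw [hc'def]
      exact if_neg hk
    have hcc : ∀ k, subst c (c' k) = X k := by
      intro k
      by_cases hk : k = j
      · subst hk
        rw [hcj', subst_add hs, subst_X hs, subst_X hs, hcj, hck i hne, sub_add_cancel]
      · rw [hck' k hk, subst_X hs, hck k hk]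
    have hcoord : IsCoord c := by
      refine isCoord_of hc c' fun k => ?_
      rw [hcc, sub_self]
      exact (Od (m + 1) 2).zero_mem
    have hf : f = subst c (subst c' f) := by
      rw [subst_subst0 hc hc']
      have h1 : (fun k => subst c (c' k)) = fun k : Fin (m + 1) =>
          (X k : MvPowerSeries (Fin (m + 1)) ℂ) := funext hcc
      rw [h1, subst_X0]
    have hD : ∀ p, pderiv ℂ i (subst c' p) =
        subst c' (pderiv ℂ i p) + subst c' (pderiv ℂ j p) := by
      intro p
      rw [pderiv_subst hc' i p]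
      have h1 : ∀ k ∈ (Finset.univ : Finset (Fin (m + 1))), k ∉ ({i, j} : Finset (Fin (m + 1))) →
          subst c' (pderiv ℂ k p) * pderiv ℂ i (c' k) = 0 := by
        intro k _ hk
        rw [Finset.mem_insert, Finset.mem_singleton, not_or] at hk
        rw [hck' k hk.2, pderiv_X_of_ne hk.1, mul_zero]
      rw [← Finset.sum_subset (Finset.subset_univ {i, j}) h1, Finset.sum_pair hne, hck' i hne,
        pderiv_X_self, mul_one, hcj', map_add, pderiv_X_self, pderiv_X_of_ne hne.symm, zero_add,
        mul_one]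
    have hg1 : constantCoeff (pderiv ℂ i (pderiv ℂ i (subst c' f))) ≠ 0 := by
      rw [hD, map_add, hD, hD]
      simp only [map_add, constantCoeff_subst0 hc']
      rw [hdiag i, hdiag j, cqd_comm hne.symm, zero_add, add_zero, ← two_mul]
      exact mul_ne_zero two_ne_zero hij
    obtain ⟨c2, g, h4, h5, h6⟩ := cqd_swap i hg1
    refine ⟨fun k => subst c (c2 k), g, IsCoord.comp hcoord h4, ?_, h6⟩
    rw [← subst_subst0 hc h4.1, ← h5]
    exact hf

end Pool.Agent.Flop
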