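import Mathlib

/-!
# CSqrt: square roots of units

u0 := constantCoeff u, z : ℂ with z * z = u0 (`IsAlgClosed.exists_pow_nat_eq` / Complex.cpow), v := C u0⁻¹ * u - 1, constantCoeff v = 0. b := PowerSeries.binomialSeries ℂ (1/2 : ℂ): b * b = binomialSeries ℂ (1/2 + 1/2) (`PowerSeries.binomialSeries_add`) = binomialSeries ((1 : ℕ) : ℂ) = (1 + X)^1 (`binomialSeries_nat`). s := C z * PowerSeries.subst v b: s * s = C u0 * PowerSeries.subst v (1 + X) = C u0 * (1 + v) = u (PowerSeries.HasSubst.of_constantCoeff_zero, PowerSeries.subst_mul, subst_add, subst_X;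
or PowerSeries.substAlgHom and coe_substAlgHom). (If ℂ is not a BinomialRing by instance, take the instance for ℚ-algebras or define the coefficients by recursion.)
-/

set_option autoImplicit false

namespace Pool.Agent.Flop

open Finset MvPowerSeries

theorem exists_sqrt {n : ℕ} (u : MvPowerSeries (Fin n) ℂ) (hu : constantCoeff u ≠ 0) :
    ∃ s : MvPowerSeries (Fin n) ℂ, s * s = u := by
  obtain ⟨z, hz⟩ := IsAlgClosed.exists_pow_nat_eq (constantCoeff u) (n := 2) (by norm_num)
  set v : MvPowerSeries (Fin n) ℂ := C (constantCoeff u)⁻¹ * u - 1 with hv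
  have hv0 : constantCoeff v = 0 := by
    rw [hv, map_sub, map_mul, constantCoeff_C, map_one, inv_mul_cancel₀ hu, sub_self]
  have hs : PowerSeries.HasSubst v := PowerSeries.HasSubst.of_constantCoeff_zero hv0
  set b : PowerSeries ℂ := PowerSeries.binomialSeries ℂ (1 / 2 : ℂ) with hb
  have hbb : b * b = 1 + PowerSeries.X := by
    rw [hb, ← PowerSeries.binomialSeries_add]
    have h1 : (1 / 2 : ℂ) + 1 / 2 = ((1 : ℕ) : ℂ) := by norm_num
    rw [h1, PowerSeries.binomialSeries_nat, pow_one]
  refine ⟨C z * PowerSeries.subst v b, ?_⟩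
  have h2 : PowerSeries.subst v b * PowerSeries.subst v b = 1 + v := by
    rw [← PowerSeries.subst_mul hs, hbb, PowerSeries.subst_add hs, PowerSeries.subst_X hs,
      ← PowerSeries.coe_substAlgHom hs, map_one]
  calc C z * PowerSeries.subst v b * (C z * PowerSeries.subst v b)
      = C z ^ 2 * (PowerSeries.subst v b * PowerSeries.subst v b) := by ring
    _ = C (constantCoeff u) * (1 + v) := by rw [h2, ← map_pow, hz]
    _ = u := by
      rw [hv, add_sub_cancel, ← mul_assoc, ← map_mul, mul_inv_cancel₀ hu, map_one, one_mul]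

end Pool.Agent.Flop
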