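import Pool.Agent.Lib.FlA.CCo3
import Pool.Agent.Lib.FlA.ChR
import Pool.Agent.Lib.FlA.CSqrt

/-!
# CSpl: the splitting lemma

c := Fin.cons (∂_0 f) (fun i => X i.succ). Constant coefficients 0 (f in Od 2, pderiv_Od). IsCoord c: LinP c is upper triangular (`Matrix.det_of_upperTriangular`: entry (i, j) with j < i is coeff (single j 1) (X i) = 0 as i is a successor) with diagonal (coeff (single 0 1) (∂_0 f), 1, .., 1), and coeff (single 0 1) (∂_0 f) = constantCoeff (∂_0 ∂_0 f) <> 0 (coeff_pderiv). F with subst c F = f (IsCoord.bij). Chain rule (pderiv_subst), ∂_0 (X i.succ) = 0: ∂_0 f = subst c (∂_0 F) * ∂_0 ∂_0 f, and ∂_0 f = c 0 = subst c (X 0).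
a := ∂_0 ∂_0 f is a unit, a⁻¹ = subst c b (bijectivity): so ∂_0 F = X 0 * b (injectivity), constantCoeff b <> 0 (constantCoeff_subst0). u := the series e ↦ coeff (e + single 0 2) F, f1 := the series e ↦ coeff (0, e) F (e.g. Finsupp.cons 0 e). F = X 0 * X 0 * u + subst ε f1 (ε i = X i.succ): coefficient at e: e 0 >= 2: u (the second summand is 0 by subst_embed); e 0 = 0: f1; e 0 = 1: coeff e F = coeff (e - single 0 1) (∂_0 F) (coeff_pderiv, factor e 0 = 1)
= coeff (e - single 0 1) (X 0 * b) = 0. constantCoeff u = coeff (single 0 2) F = (1/2) coeff (single 0 1) (∂_0 F) = (1/2) constantCoeff b <> 0. s * s = u (exists_sqrt), constantCoeff s <> 0. C := Fin.cons (X 0 * s) (fun i => X i.succ): IsCoord (upper triangular, diagonal (constantCoeff s, 1, .., 1)). subst C (X 0 * X 0 + subst ε f1) = X 0 * s * (X 0 * s) + subst (fun i => subst C (X i.succ)) f1 = X 0 * X 0 * u + subst ε f1 = F.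
f = subst c F = subst c (subst C ..) = subst (fun i => subst c (C i)) .. (subst_subst0, IsCoord.comp).
-/

set_option autoImplicit false

namespace Pool.Agent.Flop

open Finset MvPowerSeries

private theorem cspl_coord {m : ℕ} {s : MvPowerSeries (Fin (m + 1)) ℂ}
    (h0 : constantCoeff s = 0) (h1 : coeff (Finsupp.single 0 1) s ≠ 0) :
    IsCoord (Fin.cons s fun i : Fin m => X i.succ) := by
  refine ⟨fun i => ?_, ?_⟩
  · refine Fin.cases ?_ (fun i => ?_) i
    · rw [Fin.cons_zero]
      exact h0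
    · rw [Fin.cons_succ]
      exact constantCoeff_X _
  · rw [Matrix.det_of_isUpperTriangular]
    · rw [Finset.prod_ne_zero_iff]
      intro i _
      refine Fin.cases ?_ (fun i => ?_) i
      · exact h1
      · show coeff (Finsupp.single i.succ 1) (X i.succ : MvPowerSeries (Fin (m + 1)) ℂ) ≠ 0
        rw [coeff_index_single_self_X]
        exact one_ne_zero
    · intro i j hij
      revert hij
      refine Fin.cases ?_ (fun i => ?_) i
      · intro hij
        exact absurd hij (Fin.not_lt_zero j)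
      · intro hij
        show coeff (Finsupp.single j 1) (X i.succ : MvPowerSeries (Fin (m + 1)) ℂ) = 0
        rw [coeff_index_single_X, if_neg]
        rintro rfl
        exact lt_irrefl _ hij

private theorem cspl_X_mul {m : ℕ} (s : MvPowerSeries (Fin (m + 1)) ℂ) :
    coeff (Finsupp.single 0 1) (X 0 * s) = constantCoeff s := by
  classical
  rw [X, coeff_monomial_mul, if_pos le_rfl, one_mul, tsub_self, coeff_zero_eq_constantCoeff_apply]

private theorem cspl_dec {m : ℕ} {F b : MvPowerSeries (Fin (m + 1)) ℂ}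
    (hF : pderiv ℂ 0 F = X 0 * b) (hb : constantCoeff b ≠ 0) :
    ∃ (u : MvPowerSeries (Fin (m + 1)) ℂ) (f₁ : MvPowerSeries (Fin m) ℂ),
      constantCoeff u ≠ 0 ∧ F = X 0 * X 0 * u +
        subst (fun i : Fin m => (X i.succ : MvPowerSeries (Fin (m + 1)) ℂ)) f₁ := by
  classical
  obtain ⟨u, hu⟩ : ∃ u : MvPowerSeries (Fin (m + 1)) ℂ,
      ∀ e, coeff e u = coeff (e + Finsupp.single 0 2) F := ⟨fun e => _, fun e => rfl⟩
  obtain ⟨f₁, hf₁⟩ : ∃ f₁ : MvPowerSeries (Fin m) ℂ,
      ∀ e, coeff e f₁ = coeff (Finsupp.cons 0 e) F := ⟨fun e => _, fun e => rfl⟩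
  refine ⟨u, f₁, ?_, ?_⟩
  · rw [← coeff_zero_eq_constantCoeff_apply, hu, zero_add]
    intro h0
    apply hb
    rw [← cspl_X_mul b, ← hF, coeff_pderiv, ← Finsupp.single_add]
    norm_num
    exact h0
  · have hXX : (X 0 * X 0 : MvPowerSeries (Fin (m + 1)) ℂ) = monomial (Finsupp.single 0 2) 1 := by
      rw [← pow_two, X_pow_eq]
    ext e
    rw [map_add, hXX, coeff_monomial_mul, subst_embed]
    by_cases h0 : e 0 = 0
    · rw [if_neg, if_pos h0, zero_add]
      · rw [hf₁]
        have h1 : Finsupp.cons 0 (Finsupp.equivFunOnFinite.symm fun i : Fin m => e i.succ) = e := by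
          ext j
          refine Fin.cases ?_ (fun i => ?_) j
          · rw [Finsupp.cons_zero, h0]
          · rw [Finsupp.cons_succ]
            rfl
        rw [h1]
      · intro hle
        have h1 := hle 0
        rw [Finsupp.single_eq_same, h0] at h1
        omega
    · rw [if_neg h0, add_zero]
      by_cases h1 : e 0 = 1
      · rw [if_neg]
        · have hle : Finsupp.single 0 1 ≤ e := by
            rw [Finsupp.single_le_iff]
            omega
          have h3 := congrArg (coeff (e - Finsupp.single 0 1)) hF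
          rw [coeff_pderiv, X, coeff_monomial_mul, if_neg, tsub_add_cancel_of_le hle] at h3
          · have h4 : (e - Finsupp.single 0 1 : Fin (m + 1) →₀ ℕ) 0 = 0 := by
              rw [Finsupp.tsub_apply, Finsupp.single_eq_same, h1]
            rw [h4, Nat.cast_zero, zero_add, mul_one] at h3
            exact h3
          · intro hle2
            have h4 := hle2 0
            rw [Finsupp.single_eq_same, Finsupp.tsub_apply, Finsupp.single_eq_same, h1] at h4
            omega
        · intro hle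
          have h3 := hle 0
          rw [Finsupp.single_eq_same, h1] at h3
          omega
      · have hle : Finsupp.single 0 2 ≤ e := by
          rw [Finsupp.single_le_iff]
          omega
        rw [if_pos hle, one_mul, hu, tsub_add_cancel_of_le hle]

theorem splitting {m : ℕ} {f : MvPowerSeries (Fin (m + 1)) ℂ} (h2 : f ∈ Od (m + 1) 2)
    (h : constantCoeff (pderiv ℂ 0 (pderiv ℂ 0 f)) ≠ 0) :
    ∃ (c : Fin (m + 1) → MvPowerSeries (Fin (m + 1)) ℂ) (f₁ : MvPowerSeries (Fin m) ℂ),
      IsCoord c ∧ f = subst c (X 0 * X 0 +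
        subst (fun i : Fin m => (X i.succ : MvPowerSeries (Fin (m + 1)) ℂ)) f₁) := by
  have hd0 : constantCoeff (pderiv ℂ 0 f) = 0 := mem_Od_one.1 (pderiv_Od h2 0)
  have hd1 : coeff (Finsupp.single 0 1) (pderiv ℂ 0 f) ≠ 0 := by
    intro h0
    apply h
    rw [← coeff_zero_eq_constantCoeff_apply, coeff_pderiv, zero_add, h0, zero_mul]
  have hc : IsCoord (Fin.cons (pderiv ℂ 0 f) fun i : Fin m => X i.succ) :=
    cspl_coord hd0 hd1
  obtain ⟨F, hF⟩ := hc.bij.2 f
  have hcS := hasSubst_of_constantCoeff_zero hc.1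
  -- the chain rule
  have hch : pderiv ℂ 0 f = subst (Fin.cons (pderiv ℂ 0 f) fun i : Fin m => X i.succ)
      (pderiv ℂ 0 F) * pderiv ℂ 0 (pderiv ℂ 0 f) := by
    conv_lhs => rw [← hF]
    rw [pderiv_subst hc.1, Fin.sum_univ_succ, Fin.cons_zero, Finset.sum_eq_zero, add_zero]
    intro i _
    rw [Fin.cons_succ, pderiv_X_of_ne (Fin.succ_ne_zero i), mul_zero]
  have hau : IsUnit (pderiv ℂ 0 (pderiv ℂ 0 f)) := by
    rw [MvPowerSeries.isUnit_iff_constantCoeff]
    exact isUnit_iff_ne_zero.mpr h
  obtain ⟨a', ha'⟩ := hau.exists_right_inv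
  obtain ⟨b, hb⟩ := hc.bij.2 a'
  have hFb : pderiv ℂ 0 F = X 0 * b := by
    apply hc.bij.1
    rw [subst_mul hcS, subst_X hcS, hb, Fin.cons_zero]
    conv_rhs => rw [hch]
    rw [mul_assoc, ha', mul_one]
  have hb0 : constantCoeff b ≠ 0 := by
    rw [← constantCoeff_subst0 hc.1 b, hb]
    intro h0
    have h3 := congrArg constantCoeff ha'
    rw [map_mul, h0, mul_zero, map_one] at h3
    exact zero_ne_one h3
  obtain ⟨u, f₁, hu0, hFu⟩ := cspl_dec hFb hb0
  obtain ⟨s, hs⟩ := exists_sqrt u hu0
  have hs0 : constantCoeff s ≠ 0 := by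
    intro h0
    apply hu0
    rw [← hs, map_mul, h0, mul_zero]
  have hC : IsCoord (Fin.cons (X 0 * s) fun i : Fin m => X i.succ) := by
    refine cspl_coord ?_ ?_
    · rw [map_mul, constantCoeff_X, zero_mul]
    · rw [cspl_X_mul]
      exact hs0
  have hCS := hasSubst_of_constantCoeff_zero hC.1
  refine ⟨_, f₁, hc.comp hC, ?_⟩
  rw [← subst_subst0 hc.1 hC.1, subst_add hCS, subst_mul hCS, subst_X hCS,
    subst_subst0 hC.1 (fun i => constantCoeff_X _), Fin.cons_zero]
  have e1 : (fun i : Fin m => subst (Fin.cons (X 0 * s) fun i : Fin m => X i.succ)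
      (X i.succ : MvPowerSeries (Fin (m + 1)) ℂ)) = fun i : Fin m => X i.succ := by
    funext i
    rw [subst_X hCS, Fin.cons_succ]
  have e2 : (X 0 * s) * (X 0 * s) = X 0 * X 0 * u := by
    rw [← hs]
    ring
  rw [e1, e2, ← hFu, hF]

end Pool.Agent.Flop
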