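import Pool.Agent.Lib.FlA.CCo2
import Pool.Agent.Lib.FlA.CCo3
import Pool.Agent.Lib.FlA.CQd
import Pool.Agent.Lib.FlA.CSpl
import Pool.Agent.Lib.FlA.CJo2
import Pool.Agent.Lib.FlA.CPos

/-!
# CSaito: the theorem of Saito

Power series with an isolated singularity which lie in the ideal `m * (∂_1 f, .., ∂_n f)` are
quasi-homogeneous in suitable formal coordinates.
-/

set_option autoImplicit false

namespace Pool.Agent.Flop

open Finset MvPowerSeries

/-- The case of order at least three. -/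
private theorem sc_of_three {n : ℕ} {f : MvPowerSeries (Fin n) ℂ} (h : QI f) (h3 : f ∈ Od n 3) :
    SC f := by
  obtain ⟨a, ha, hf⟩ := h.eul
  set D : Module.End ℂ (MvPowerSeries (Fin n) ℂ) :=
    ∑ i, (LinearMap.mulLeft ℂ (a i)) ∘ₗ (pderiv ℂ i).toLinearMap with hDdef
  have hD : ∀ p, D p = ∑ i, a i * pderiv ℂ i p := by
    intro p
    rw [hDdef, LinearMap.sum_apply]
    rfl
  have hDo := der_Od ha hD
  have hl : ∀ p q, D (p * q) = D p * q + p * D q := by
    intro p q
    rw [hD, hD, hD, Finset.sum_mul, Finset.mul_sum, ← Finset.sum_add_distrib]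
    refine Finset.sum_congr rfl fun i _ => ?_
    rw [Derivation.leibniz, smul_eq_mul, smul_eq_mul]
    ring
  obtain ⟨c, κ, hc, hg⟩ := exists_eig_coord ha hD
  obtain ⟨f', hf'⟩ := hc.bij.2 f
  have h1 : IsHg κ 1 f' := by
    refine hg_of_gen hDo hl hc hg ?_
    rw [hf', one_smul, hD]
    exact hf.symm
  obtain ⟨l, hl1⟩ := rat_weights h1
  have h3' : f' ∈ Od n 3 := by
    rw [← hc.mem_Od, hf']
    exact h3
  have hM : ∃ N, Od n N ≤ Jac f' := by
    obtain ⟨N, hN⟩ := h.iso
    refine ⟨N, Jac_subst hc ?_⟩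
    rw [hf']
    exact hN
  obtain ⟨w, d, hw, hwd⟩ := nat_weights (pos_weights h3' hM l hl1) hl1
  exact ⟨c, w, d, f', hc, hw, hwd, hf'.symm⟩

private theorem sc_of_qi : ∀ (n : ℕ) (f : MvPowerSeries (Fin n) ℂ), QI f → SC f := by
  intro n
  induction n with
  | zero =>
    intro f h
    refine sc_of_three h ?_
    intro d _
    have h0 : constantCoeff f = 0 := mem_Od_one.mp (Od_anti one_le_two h.two)
    have h1 : d = 0 := Subsingleton.elim _ _
    rw [h1, coeff_zero_eq_constantCoeff_apply, h0]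
  | succ m ih =>
    intro f h
    by_cases h3 : f ∈ Od (m + 1) 3
    · exact sc_of_three h h3
    · obtain ⟨c, g, hc, hf, hg⟩ := exists_shear h.two h3
      rw [hf] at h ⊢
      have hQ := QI.of_subst hc h
      refine SC.of_subst hc ?_
      obtain ⟨c', f₁, hc', hg'⟩ := splitting hQ.two hg
      rw [hg'] at hQ ⊢
      have hQ' := QI.of_subst hc' hQ
      refine SC.of_subst hc' ?_
      have hQ1 := QI.of_square hQ'
      exact SC.add_square (mem_Od_one.mp (Od_anti one_le_two hQ1.two)) (ih f₁ hQ1)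

/-- The theorem of Saito for formal power series. -/
theorem saito {n : ℕ} {f : MvPowerSeries (Fin n) ℂ} (h2 : f ∈ Od n 2)
    (hM : ∃ N, Od n N ≤ Jac f) (a : Fin n → MvPowerSeries (Fin n) ℂ)
    (ha : ∀ i, constantCoeff (a i) = 0) (hf : f = ∑ i, a i * pderiv ℂ i f) :
    ∃ (c : Fin n → MvPowerSeries (Fin n) ℂ) (w : Fin n → ℕ) (d : ℕ)
      (f' : MvPowerSeries (Fin n) ℂ), IsCoord c ∧ (∀ i, 0 < w i) ∧ IsHg w d f' ∧
        f = subst c f' :=
  sc_of_qi n f ⟨h2, hM, a, ha, hf⟩

end Pool.Agent.Flop
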