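import Pool.Agent.Lib.FlA.Bs1

/-!
# CZ: vanishing class: coefficients

Copy of the proof of `exists_of_mem_JJ` (Pool/Agent/Lib/MP_03045c_ag/JJ.lean) with Fil 0 instead of Fil 2: mem_of_closure for B = E -> Hat Q (LCFil.pi lcF), T c = sum_a c a * cyc a F, A = {c | ∀ a, e_{src a} c a e_{tgt a} = c a} (closed), target cl (Comm Q).
For every n: F = j + c' + t with j a finite sum of p * cyc a F * q (jac F is the closure of the span, mod Fil n), c' in Comm, t in Fil n; p * cyc a F * q = (q p) * cyc a F + commutator, and (q p) * cyc a F = (e_{src a} q p e_{tgt a}) * cyc a F + commutator: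
cyc a F = e_{tgt a} * cyc a F * e_{src a} (idem_mul_cyc, cyc_mul_idem), so q p cyc a F = q p e_t (cyc a F) e_s = e_s q p e_t cyc a F + commutator.
-/

set_option autoImplicit false

namespace Pool.Agent.Flop

open Finset

variable {V E : Type} [Fintype V] [DecidableEq V] [DecidableEq E] {Q : Qv V E}

/-- the operator of a family of coefficients -/
private noncomputable def czT [Fintype E] (Φ : Hat Q) : (E → Hat Q) →ₗ[ℂ] Hat Q where
  toFun c := ∑ a, c a * cyc a Φ
  map_add' c d := by
    rw [← Finset.sum_add_distrib]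
    exact Finset.sum_congr rfl fun a _ => by rw [Pi.add_apply, add_mul]
  map_smul' r c := by
    rw [RingHom.id_apply, Finset.smul_sum]
    exact Finset.sum_congr rfl fun a _ => by rw [Pi.smul_apply, smul_mul_assoc]

omit [DecidableEq E] in
private theorem czT_apply [Fintype E] (Φ : Hat Q) (c : E → Hat Q) :
    czT Φ c = ∑ a, c a * cyc a Φ := rfl

private theorem czT_single [Fintype E] (Φ : Hat Q) (a : E) (x : Hat Q) :
    czT Φ (Pi.single a x) = x * cyc a Φ := by
  rw [czT_apply, Finset.sum_eq_single a]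
  · rw [Pi.single_eq_same]
  · intro b _ hb
    rw [Pi.single_eq_of_ne hb, zero_mul]
  · intro h
    exact (h (Finset.mem_univ a)).elim

theorem exists_coef_of_classZero [Fintype E] {F : Hat Q} (h : ClassZero F) :
    ∃ c : E → Hat Q, (∀ a, idem Q (Q.src a) * c a * idem Q (Q.tgt a) = c a) ∧
      F - ∑ a, c a * cyc a F ∈ cl (Comm Q) := by
  classical
  have hspan : Submodule.span ℂ {x | ∃ (a : E) (p q : Hat Q), x = p * cyc a F * q} ≤
      (⊤ : Submodule ℂ (E → Hat Q)).map (czT F) ⊔ Comm Q := by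
    refine Submodule.span_le.2 ?_
    rintro z ⟨a, u, v, rfl⟩
    have h2 : u * cyc a F * v = czT F (Pi.single a (v * u)) +
        ((u * cyc a F) * v - v * (u * cyc a F)) := by
      rw [czT_single, mul_assoc v u]
      abel
    rw [SetLike.mem_coe, h2]
    exact Submodule.add_mem_sup (Submodule.mem_map_of_mem Submodule.mem_top) (comm_mem _ _)
  have hz : ∀ n, ∃ x ∈ (⊤ : Submodule ℂ (E → Hat Q)), ∃ y ∈ cl (Comm Q),
      F - czT F x - y ∈ Fil Q n := by
    intro n
    obtain ⟨s, hs, hfs⟩ := mem_cl.1 h n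
    obtain ⟨j, hj, y', hy', hjy⟩ := Submodule.mem_sup.1 hs
    obtain ⟨s', hs', hjs⟩ := mem_cl.1 hj n
    obtain ⟨t, ht, y, hy, hty⟩ := Submodule.mem_sup.1 (hspan hs')
    obtain ⟨x, hx, rfl⟩ := Submodule.mem_map.1 ht
    refine ⟨x, hx, y + y', le_cl _ (Submodule.add_mem _ hy hy'), ?_⟩
    have e : F - czT F x - (y + y') = (F - s) + (j - s') := by
      rw [← hty, ← hjy]
      abel
    rw [e]
    exact Submodule.add_mem _ hfs hjs
  obtain ⟨c, _, hc⟩ := mem_of_closure (LCFil.pi (ι := E) (lcF (Q := Q))) (lcF (Q := Q)) (czT F)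
    (by
      intro n x hx
      rw [Submodule.mem_pi] at hx
      rw [czT_apply]
      exact Submodule.sum_mem _ fun a _ => mul_mem_Fil_right _ (hx a (Set.mem_univ a)))
    ⊤
    (fun _ _ => Submodule.mem_top)
    (cl (Comm Q))
    (by
      intro x hx
      have h1 : x ∈ cl (cl (Comm Q)) := mem_cl.2 hx
      rwa [cl_cl] at h1)
    F hz
  refine ⟨fun a => idem Q (Q.src a) * c a * idem Q (Q.tgt a), ?_, ?_⟩
  · intro a
    have h1 : idem Q (Q.src a) * idem Q (Q.src a) = idem Q (Q.src a) := by
      rw [idem_mul_idem, if_pos rfl]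
    have h2 : idem Q (Q.tgt a) * idem Q (Q.tgt a) = idem Q (Q.tgt a) := by
      rw [idem_mul_idem, if_pos rfl]
    calc idem Q (Q.src a) * (idem Q (Q.src a) * c a * idem Q (Q.tgt a)) * idem Q (Q.tgt a)
        = (idem Q (Q.src a) * idem Q (Q.src a)) * c a *
          (idem Q (Q.tgt a) * idem Q (Q.tgt a)) := by simp only [mul_assoc]
      _ = _ := by rw [h1, h2]
  · have h1 : ∀ a, c a * cyc a F - idem Q (Q.src a) * c a * idem Q (Q.tgt a) * cyc a F ∈
        cl (Comm Q) := by
      intro a
      have h2 : idem Q (Q.src a) * c a * idem Q (Q.tgt a) * cyc a F =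
          idem Q (Q.src a) * (c a * cyc a F) := by
        rw [mul_assoc, idem_mul_cyc, mul_assoc]
      have h3 : c a * cyc a F = (c a * cyc a F) * idem Q (Q.src a) := by
        rw [mul_assoc, cyc_mul_idem]
      have h5 : c a * cyc a F - idem Q (Q.src a) * (c a * cyc a F) =
          (c a * cyc a F) * idem Q (Q.src a) - idem Q (Q.src a) * (c a * cyc a F) := by
        rw [← h3]
      rw [h2, h5]
      exact le_cl _ (comm_mem _ _)
    have h4 : F - ∑ a, idem Q (Q.src a) * c a * idem Q (Q.tgt a) * cyc a F =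
        (F - czT F c) + ∑ a, (c a * cyc a F -
          idem Q (Q.src a) * c a * idem Q (Q.tgt a) * cyc a F) := by
      rw [Finset.sum_sub_distrib, czT_apply]
      abel
    rw [h4]
    exact Submodule.add_mem _ hc (Submodule.sum_mem _ fun a _ => h1 a)

end Pool.Agent.Flop
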