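import Pool.Agent.Lib.FlA.CfDef

/-!
# CfAb: conifold example: the abelianization is an algebra homomorphism

`abl_one`: coefficient at e: the words with cnt l = e and l = []: 1 if e = 0 (mem_words, cnt_nil; NPS.one_def), else 0 (coeff_one). `abl_mul`: coeff e (abl (f * g)) = ∑ l ∈ words e, ∑ k ∈ range (l.length + 1), f (l.take k) * g (l.drop k) (NPS.mul_def); coeff e (abl f * abl g) = ∑ x ∈ antidiagonal e, ∑ l₁ ∈ words x.1, ∑ l₂ ∈ words x.2, f l₁ * g l₂ (coeff_mul, Finset.sum_mul_sum). Bijection (l, k) ↔ (l.take k, l.drop k) (Finset.sum_sigma', Finset.sum_bij' or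
Finset.sum_nbij'); cnt_append, List.take_append_drop, List.take_left', List.drop_left'. (If `rw` complains about implicit transparency because NPS is a def, use `show`/`exact`/`refine` with explicit terms.)
-/

set_option autoImplicit false

namespace Pool.Agent.Flop

namespace Conifold

open Finset MvPowerSeries

theorem abl_one : abl 1 = 1 := by
  classical
  refine MvPowerSeries.ext fun e => ?_
  rw [coeff_abl, coeff_one]
  by_cases h : e = 0
  · rw [if_pos h]
    have h1 : ∑ l ∈ words e, (1 : NPS (Fin 4)) l = (1 : NPS (Fin 4)) [] := by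
      refine Finset.sum_eq_single [] (fun l _ hl => ?_) fun hn => ?_
      · rw [NPS.one_def, if_neg]
        simpa [List.isEmpty_iff] using hl
      · exact absurd (mem_words.2 (by rw [cnt_nil, h])) hn
    rw [h1, NPS.one_def]
    rfl
  · rw [if_neg h]
    refine Finset.sum_eq_zero fun l hl => ?_
    rw [NPS.one_def, if_neg]
    intro hl2
    rw [List.isEmpty_iff] at hl2
    rw [mem_words, hl2, cnt_nil] at hl
    exact h hl.symm

theorem abl_mul (f g : NPS (Fin 4)) : abl (f * g) = abl f * abl g := by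
  classical
  refine MvPowerSeries.ext fun e => ?_
  rw [coeff_abl, coeff_mul]
  have h1 : ∀ x ∈ antidiagonal e, coeff x.1 (abl f) * coeff x.2 (abl g) =
      ∑ y ∈ words x.1 ×ˢ words x.2, f y.1 * g y.2 := by
    intro x _
    rw [coeff_abl, coeff_abl, Finset.sum_mul_sum, Finset.sum_product]
  rw [Finset.sum_congr rfl h1]
  have h2 : ∀ l ∈ words e, (f * g) l = ∑ k ∈ range (l.length + 1), f (l.take k) * g (l.drop k) :=
    fun l _ => NPS.mul_def f g l
  rw [Finset.sum_congr rfl h2, Finset.sum_sigma', Finset.sum_sigma']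
  refine Finset.sum_nbij'
    (fun z : (_ : List (Fin 4)) × ℕ => (⟨(cnt (z.1.take z.2), cnt (z.1.drop z.2)),
      (z.1.take z.2, z.1.drop z.2)⟩ :
        (_ : (Fin 4 →₀ ℕ) × (Fin 4 →₀ ℕ)) × List (Fin 4) × List (Fin 4)))
    (fun y => (⟨y.2.1 ++ y.2.2, y.2.1.length⟩ : (_ : List (Fin 4)) × ℕ)) ?_ ?_ ?_ ?_ ?_
  · rintro ⟨l, k⟩ hz
    rw [Finset.mem_sigma] at hz ⊢
    obtain ⟨h3, h4⟩ := hz
    refine ⟨?_, ?_⟩
    · rw [Finset.HasAntidiagonal.mem_antidiagonal]
      show cnt (l.take k) + cnt (l.drop k) = e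
      rw [← cnt_append, List.take_append_drop]
      exact mem_words.1 h3
    · rw [Finset.mem_product]
      exact ⟨mem_words.2 rfl, mem_words.2 rfl⟩
  · rintro ⟨x, l₁, l₂⟩ hz
    rw [Finset.mem_sigma] at hz ⊢
    obtain ⟨h3, h4⟩ := hz
    rw [Finset.mem_product] at h4
    rw [Finset.HasAntidiagonal.mem_antidiagonal] at h3
    refine ⟨?_, ?_⟩
    · show l₁ ++ l₂ ∈ words e
      rw [mem_words, cnt_append, mem_words.1 h4.1, mem_words.1 h4.2]
      exact h3
    · show l₁.length ∈ range ((l₁ ++ l₂).length + 1)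
      rw [Finset.mem_range, List.length_append]
      omega
  · rintro ⟨l, k⟩ hz
    rw [Finset.mem_sigma] at hz
    have h4 : k < l.length + 1 := Finset.mem_range.1 hz.2
    show (⟨l.take k ++ l.drop k, (l.take k).length⟩ : (_ : List (Fin 4)) × ℕ) = ⟨l, k⟩
    rw [List.take_append_drop, List.length_take, min_eq_left (by omega)]
  · rintro ⟨x, l₁, l₂⟩ hz
    rw [Finset.mem_sigma] at hz
    obtain ⟨h3, h4⟩ := hz
    rw [Finset.mem_product] at h4
    have h5 : cnt l₁ = x.1 := mem_words.1 h4.1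
    have h6 : cnt l₂ = x.2 := mem_words.1 h4.2
    show (⟨(cnt ((l₁ ++ l₂).take l₁.length), cnt ((l₁ ++ l₂).drop l₁.length)),
      ((l₁ ++ l₂).take l₁.length, (l₁ ++ l₂).drop l₁.length)⟩ :
        (_ : (Fin 4 →₀ ℕ) × (Fin 4 →₀ ℕ)) × List (Fin 4) × List (Fin 4)) = ⟨x, l₁, l₂⟩
    rw [List.take_left, List.drop_left, h5, h6]
  · rintro ⟨l, k⟩ _
    rfl

/-- The abelianization of noncommutative power series. -/
noncomputable def abel : NPS (Fin 4) →ₐ[ℂ] MvPowerSeries (Fin 4) ℂ :=
  AlgHom.ofLinearMap abl abl_one abl_mul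

theorem coeff_abel (f : NPS (Fin 4)) (e : Fin 4 →₀ ℕ) :
    coeff e (abel f) = ∑ l ∈ words e, f l := rfl

end Conifold

end Pool.Agent.Flop
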