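import Pool.Agent.Lib.FlA.Defs
import Pool.Agent.Lib.MP_03045c_ag.NABase

/-!
# CfDef: the conifold as a flop model, definitions

`Rc` is the ring of the power series in `a_0, a_1, b_0, b_1` (the variables `X 0, X 1, X 2, X 3`)
which are invariant under the torus with the weights `1, 1, -1, -1`: it is `ℂ[[x, y, u, v]]/(x y - u v)`
with `x = a_0 b_0`, `y = a_1 b_1`, `u = a_0 b_1`, `v = a_1 b_0`. The modules are `N_0 = R` and the
module `N_1` of the series of weight 1.
-/

set_option autoImplicit false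

namespace Pool.Agent.Flop.Conifold

open Finset MvPowerSeries

/-- The weight of an exponent. -/
def wt (e : Fin 4 →₀ ℕ) : ℤ := (e 0 : ℤ) + e 1 - e 2 - e 3

theorem wt_add (e e' : Fin 4 →₀ ℕ) : wt (e + e') = wt e + wt e' := by
  simp only [wt, Finsupp.add_apply]
  push_cast
  ring

theorem wt_zero : wt 0 = 0 := by simp [wt]

/-- The coefficients of `f` are zero outside of the weight `k`. -/
def HasWt (k : ℤ) (f : MvPowerSeries (Fin 4) ℂ) : Prop := ∀ e, coeff e f ≠ 0 → wt e = k

theorem HasWt.mul {k l : ℤ} {f g : MvPowerSeries (Fin 4) ℂ} (hf : HasWt k f) (hg : HasWt l g) :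
    HasWt (k + l) (f * g) := by
  intro e he
  rw [coeff_mul] at he
  obtain ⟨x, hx, hx0⟩ := Finset.exists_ne_zero_of_sum_ne_zero he
  rw [Finset.HasAntidiagonal.mem_antidiagonal] at hx
  rw [← hx, wt_add, hf _ (left_ne_zero_of_mul hx0), hg _ (right_ne_zero_of_mul hx0)]

theorem HasWt.add {k : ℤ} {f g : MvPowerSeries (Fin 4) ℂ} (hf : HasWt k f) (hg : HasWt k g) :
    HasWt k (f + g) := by
  intro e he
  by_cases h : coeff e f = 0
  · refine hg e fun h' => he ?_
    rw [map_add, h, h', add_zero]
  · exact hf e h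

theorem HasWt.zero (k : ℤ) : HasWt k 0 := fun _ he => absurd (map_zero _) he

theorem HasWt.smul {k : ℤ} (c : ℂ) {f : MvPowerSeries (Fin 4) ℂ} (hf : HasWt k f) :
    HasWt k (c • f) := by
  intro e he
  refine hf e fun h' => he ?_
  rw [map_smul, h', smul_zero]

theorem HasWt.neg {k : ℤ} {f : MvPowerSeries (Fin 4) ℂ} (hf : HasWt k f) : HasWt k (-f) := by
  intro e he
  refine hf e fun h' => he ?_
  rw [map_neg, h', neg_zero]

theorem HasWt.sub {k : ℤ} {f g : MvPowerSeries (Fin 4) ℂ} (hf : HasWt k f) (hg : HasWt k g) :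
    HasWt k (f - g) := by
  rw [sub_eq_add_neg]
  exact hf.add hg.neg

theorem HasWt.C (c : ℂ) : HasWt 0 (C c : MvPowerSeries (Fin 4) ℂ) := by
  classical
  intro e he
  rw [coeff_C] at he
  split_ifs at he with h
  · rw [h, wt_zero]
  · exact absurd rfl he

theorem HasWt.X (i : Fin 4) : HasWt (wt (Finsupp.single i 1))
    (X i : MvPowerSeries (Fin 4) ℂ) := by
  classical
  intro e he
  rw [coeff_X] at he
  split_ifs at he with h
  · rw [h]
  · exact absurd rfl he

/-- The invariant ring: the power series of weight zero. -/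
def Rc : Subalgebra ℂ (MvPowerSeries (Fin 4) ℂ) where
  carrier := {f | HasWt 0 f}
  mul_mem' := fun {f g} hf hg => by
    have h := HasWt.mul (show HasWt 0 f from hf) (show HasWt 0 g from hg)
    rwa [add_zero] at h
  add_mem' := fun {f g} hf hg => HasWt.add (show HasWt 0 f from hf) (show HasWt 0 g from hg)
  algebraMap_mem' := fun c => HasWt.C c

theorem mem_Rc {f : MvPowerSeries (Fin 4) ℂ} : f ∈ Rc ↔ HasWt 0 f := Iff.rfl

/-- The module of the power series of weight `k`. -/
def Mk (k : ℤ) : Submodule Rc (MvPowerSeries (Fin 4) ℂ) where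
  carrier := {f | HasWt k f}
  add_mem' := fun {f g} hf hg => HasWt.add (show HasWt k f from hf) (show HasWt k g from hg)
  zero_mem' := HasWt.zero k
  smul_mem' := fun c f hf => by
    have h := HasWt.mul (mem_Rc.1 c.2) (show HasWt k f from hf)
    rwa [zero_add] at h

theorem mem_Mk {k : ℤ} {f : MvPowerSeries (Fin 4) ℂ} : f ∈ Mk k ↔ HasWt k f := Iff.rfl

/-- The weights of the two summands. -/
def sc (i : Fin 2) : ℤ := (i.val : ℤ)

/-- The invariant ring as a type. -/
def Rt : Type := ↥Rc

noncomputable instance : CommRing Rt := inferInstanceAs (CommRing ↥Rc)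

noncomputable instance : Algebra ℂ Rt := inferInstanceAs (Algebra ℂ ↥Rc)

/-- The power series of an element of the invariant ring. -/
noncomputable def Rt.ser : Rt →ₐ[ℂ] MvPowerSeries (Fin 4) ℂ := Rc.val

/-- The element of the invariant ring with the given power series. -/
def Rt.mk (f : MvPowerSeries (Fin 4) ℂ) (hf : HasWt 0 f) : Rt := ⟨f, hf⟩

theorem Rt.ser_mk (f : MvPowerSeries (Fin 4) ℂ) (hf : HasWt 0 f) : Rt.ser (Rt.mk f hf) = f := rfl

theorem Rt.wt (r : Rt) : HasWt 0 (Rt.ser r) := Subtype.property r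

theorem Rt.ser_inj {r r' : Rt} (h : Rt.ser r = Rt.ser r') : r = r' := Subtype.ext h

/-- The summands `N_0 = R` and `N_1`. -/
def Nt (i : Fin 2) : Type := ↥(Mk (sc i))

noncomputable instance (i : Fin 2) : AddCommGroup (Nt i) :=
  inferInstanceAs (AddCommGroup ↥(Mk (sc i)))

noncomputable instance (i : Fin 2) : Module Rt (Nt i) :=
  inferInstanceAs (Module ↥Rc ↥(Mk (sc i)))

/-- The power series of an element of the module. -/
def Nt.ser {i : Fin 2} (x : Nt i) : MvPowerSeries (Fin 4) ℂ := Subtype.val x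

/-- The element of the module with the given power series. -/
def Nt.mk (i : Fin 2) (f : MvPowerSeries (Fin 4) ℂ) (hf : HasWt (sc i) f) : Nt i := ⟨f, hf⟩

theorem Nt.ser_mk (i : Fin 2) (f : MvPowerSeries (Fin 4) ℂ) (hf : HasWt (sc i) f) :
    (Nt.mk i f hf).ser = f := rfl

theorem Nt.wt {i : Fin 2} (x : Nt i) : HasWt (sc i) x.ser := Subtype.property x

theorem Nt.ser_inj {i : Fin 2} {x y : Nt i} (h : x.ser = y.ser) : x = y := Subtype.ext h

theorem Nt.ser_add {i : Fin 2} (x y : Nt i) : (x + y).ser = x.ser + y.ser := rfl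

theorem Nt.ser_zero {i : Fin 2} : (0 : Nt i).ser = 0 := rfl

theorem Nt.ser_smul {i : Fin 2} (r : Rt) (x : Nt i) : (r • x).ser = Rt.ser r * x.ser := rfl

noncomputable instance (i : Fin 2) : Module ℂ (Nt i) := Module.compHom (Nt i) (algebraMap ℂ Rt)

instance (i : Fin 2) : IsScalarTower ℂ Rt (Nt i) where
  smul_assoc c r x := by
    change (c • r) • x = algebraMap ℂ Rt c • (r • x)
    rw [Algebra.smul_def, mul_smul]

instance (i : Fin 2) : SMulCommClass Rt ℂ (Nt i) where
  smul_comm r c x := by
    change r • (algebraMap ℂ Rt c • x) = algebraMap ℂ Rt c • (r • x)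
    rw [smul_smul, smul_smul, mul_comm]

/-- The endomorphism algebra. -/
abbrev At : Type := Module.End Rt (∀ i, Nt i)

/-- The quiver: the arrows `a_0, a_1` (numbers 0, 1) go from the vertex 1 to the vertex 0, and
`b_0, b_1` (numbers 2, 3) go back. -/
def Qc : Qv (Fin 2) (Fin 4) where
  src a := if a.val < 2 then 1 else 0
  tgt a := if a.val < 2 then 0 else 1

/-- The potential `a_0 b_0 a_1 b_1 - a_0 b_1 a_1 b_0`. -/
noncomputable def Wc : Hat Qc :=
  arr Qc 0 * arr Qc 2 * arr Qc 1 * arr Qc 3 - arr Qc 0 * arr Qc 3 * arr Qc 1 * arr Qc 2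

/-- The exponent of a word. -/
noncomputable def cnt (l : List (Fin 4)) : Fin 4 →₀ ℕ :=
  Finsupp.equivFunOnFinite.symm fun i => l.count i

theorem cnt_apply (l : List (Fin 4)) (i : Fin 4) : cnt l i = l.count i := rfl

theorem cnt_append (l l' : List (Fin 4)) : cnt (l ++ l') = cnt l + cnt l' := by
  ext i
  rw [Finsupp.add_apply, cnt_apply, cnt_apply, cnt_apply, List.count_append]

theorem cnt_nil : cnt [] = 0 := by
  ext i
  rfl

theorem length_eq_degree (l : List (Fin 4)) : l.length = (cnt l).degree := by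
  rw [Finsupp.degree_eq_sum]
  simp only [cnt_apply]
  induction l with
  | nil => simp
  | cons a l ih =>
    rw [List.length_cons, ih]
    simp only [List.count_cons, Finset.sum_add_distrib]
    congr 1
    rw [Finset.sum_eq_single a]
    · simp
    · intro b _ hb
      simp [hb.symm]
    · exact fun h => absurd (Finset.mem_univ a) h

theorem finite_words (e : Fin 4 →₀ ℕ) : {l : List (Fin 4) | cnt l = e}.Finite :=
  (List.finite_length_eq (Fin 4) e.degree).subset fun l hl => by
    rw [Set.mem_ofPred_eq, length_eq_degree, show cnt l = e from hl]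

/-- The words with the exponent `e`. -/
noncomputable def words (e : Fin 4 →₀ ℕ) : Finset (List (Fin 4)) := (finite_words e).toFinset

theorem mem_words {e : Fin 4 →₀ ℕ} {l : List (Fin 4)} : l ∈ words e ↔ cnt l = e := by
  rw [words, Set.Finite.mem_toFinset]
  rfl

/-- The abelianization of a noncommutative power series, as a linear map. -/
noncomputable def abl : NPS (Fin 4) →ₗ[ℂ] MvPowerSeries (Fin 4) ℂ where
  toFun f := fun e => ∑ l ∈ words e, f l
  map_add' f g := by
    funext e
    exact Finset.sum_add_distrib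
  map_smul' c f := by
    funext e
    exact (Finset.mul_sum (words e) (f : List (Fin 4) → ℂ) c).symm

theorem coeff_abl (f : NPS (Fin 4)) (e : Fin 4 →₀ ℕ) :
    coeff e (abl f) = ∑ l ∈ words e, f l := rfl

end Pool.Agent.Flop.Conifold

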