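import Pool.Agent.Lib.FlA.CfDef

/-!
# CfReg: conifold example: the regular sequence on the modules of weight -1, 0, 1

`reg2`: X 1 * X 3 * f = X 0 * X 2 * g. Coefficients (MvPowerSeries.coeff_add_monomial_mul or coeff_X_mul..., or write X 0 * X 2 = monomial (single 0 1 + single 2 1) 1): if e 0 = 0 or e 2 = 0 then coeff (e + single 1 1 + single 3 1) of the right side is 0, so coeff e f = 0. So X 0 * X 2 ∣ f: f = X 0 * X 2 * z with coeff e z = coeff (e + single 0 1 + single 2 1) f (or X_dvd_iff twice); z has weight k as wt (single 0 1 + single 2 1) = 0. `reg3`: (X 0 * X 3 - X 1 * X 2) * f = X 0 * X 2 * g + X 1 * X 3 * h. Claim: coeff e f = 0 if neither (e 0, e 2 ≥ 1) nor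
(e 1, e 3 ≥ 1). Suppose coeff e f ≠ 0, wt e = k ∈ {-1, 0, 1}. Case A: e 2 = 0 = e 1: then e' := e + single 0 1 + single 3 1 has e' 2 = 0 = e' 1, the coefficient of the right side at e' is 0, and the coefficient of X 0 * X 3 * f is coeff e f, that of X 1 * X 2 * f is 0: contradiction. Case B: e 0 = 0 = e 3: the same with single 1 1 + single 2 1. Case C: e 2 = 0 = e 3 (e 0 + e 1 = k ≤ 1, so e 0 = 0 or e 1 = 0: case B or A). Case D: e 0 = 0 = e 1 (e 2 + e 3 = - k ≤ 1: e 2 = 0 or e 3 = 0: case A or B). Then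
u has the coefficient coeff (e + single 0 1 + single 2 1) f at e, v has the coefficient (if e 0 = 0 or e 2 = 0 then coeff (e + single 1 1 + single 3 1) f else 0) at e; f = X 0 * X 2 * u + X 1 * X 3 * v by comparing coefficients (careful: the v part collects the monomials divisible by X 1 X 3 but not by X 0 X 2). Weights: wt (single 0 1 + single 2 1) = 0.
-/

set_option autoImplicit false

namespace Pool.Agent.Flop

namespace Conifold

open Finset MvPowerSeries

private noncomputable def M1 : Fin 4 →₀ ℕ := Finsupp.single 0 1 + Finsupp.single 2 1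

private noncomputable def M2 : Fin 4 →₀ ℕ := Finsupp.single 1 1 + Finsupp.single 3 1

private noncomputable def N1 : Fin 4 →₀ ℕ := Finsupp.single 0 1 + Finsupp.single 3 1

private noncomputable def N2 : Fin 4 →₀ ℕ := Finsupp.single 1 1 + Finsupp.single 2 1

private theorem M1v : M1 0 = 1 ∧ M1 1 = 0 ∧ M1 2 = 1 ∧ M1 3 = 0 := by
  refine ⟨?_, ?_, ?_, ?_⟩ <;> simp [M1]

private theorem M2v : M2 0 = 0 ∧ M2 1 = 1 ∧ M2 2 = 0 ∧ M2 3 = 1 := by
  refine ⟨?_, ?_, ?_, ?_⟩ <;> simp [M2]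

private theorem N1v : N1 0 = 1 ∧ N1 1 = 0 ∧ N1 2 = 0 ∧ N1 3 = 1 := by
  refine ⟨?_, ?_, ?_, ?_⟩ <;> simp [N1]

private theorem N2v : N2 0 = 0 ∧ N2 1 = 1 ∧ N2 2 = 1 ∧ N2 3 = 0 := by
  refine ⟨?_, ?_, ?_, ?_⟩ <;> simp [N2]

private theorem le4 {a b : Fin 4 →₀ ℕ} :
    a ≤ b ↔ a 0 ≤ b 0 ∧ a 1 ≤ b 1 ∧ a 2 ≤ b 2 ∧ a 3 ≤ b 3 := by
  constructor
  · exact fun h => ⟨h 0, h 1, h 2, h 3⟩
  · rintro ⟨h0, h1, h2, h3⟩ i
    fin_cases i
    · exact h0
    · exact h1
    · exact h2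
    · exact h3

private theorem mon_eq (i j : Fin 4) : (X i * X j : MvPowerSeries (Fin 4) ℂ) =
    monomial (Finsupp.single i 1 + Finsupp.single j 1) 1 := by
  rw [X_def, X_def, monomial_mul_monomial, mul_one]

private theorem M1le {e : Fin 4 →₀ ℕ} : M1 ≤ e ↔ 1 ≤ e 0 ∧ 1 ≤ e 2 := by
  obtain ⟨h0, h1, h2, h3⟩ := M1v
  rw [le4, h0, h1, h2, h3]
  omega

private theorem M2le {e : Fin 4 →₀ ℕ} : M2 ≤ e ↔ 1 ≤ e 1 ∧ 1 ≤ e 3 := by
  obtain ⟨h0, h1, h2, h3⟩ := M2v
  rw [le4, h0, h1, h2, h3]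
  omega

private theorem N1le {e : Fin 4 →₀ ℕ} : N1 ≤ e ↔ 1 ≤ e 0 ∧ 1 ≤ e 3 := by
  obtain ⟨h0, h1, h2, h3⟩ := N1v
  rw [le4, h0, h1, h2, h3]
  omega

private theorem N2le {e : Fin 4 →₀ ℕ} : N2 ≤ e ↔ 1 ≤ e 1 ∧ 1 ≤ e 2 := by
  obtain ⟨h0, h1, h2, h3⟩ := N2v
  rw [le4, h0, h1, h2, h3]
  omega

private theorem wtM1 : wt M1 = 0 := by
  obtain ⟨h0, h1, h2, h3⟩ := M1v
  rw [wt, h0, h1, h2, h3]
  norm_num

private theorem wtM2 : wt M2 = 0 := by
  obtain ⟨h0, h1, h2, h3⟩ := M2v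
  rw [wt, h0, h1, h2, h3]
  norm_num

theorem reg2 {k : ℤ} {f g : MvPowerSeries (Fin 4) ℂ} (hf : HasWt k f)
    (h : X 1 * X 3 * f = X 0 * X 2 * g) : ∃ z, HasWt k z ∧ f = X 0 * X 2 * z := by
  classical
  have e13 : (X 1 * X 3 : MvPowerSeries (Fin 4) ℂ) = monomial M2 1 := mon_eq 1 3
  have e02 : (X 0 * X 2 : MvPowerSeries (Fin 4) ℂ) = monomial M1 1 := mon_eq 0 2
  rw [e13, e02] at h
  have key : ∀ e : Fin 4 →₀ ℕ, ¬ M1 ≤ e → coeff e f = 0 := by
    intro e he
    have h1 := congrArg (coeff (e + M2)) h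
    rw [coeff_monomial_mul, coeff_monomial_mul, if_pos (le_add_of_nonneg_left zero_le),
      add_tsub_cancel_right, one_mul, if_neg] at h1
    · exact h1
    · intro h2
      apply he
      obtain ⟨v0, v1, v2, v3⟩ := M2v
      rw [M1le, Finsupp.add_apply, Finsupp.add_apply, v0, v2] at h2
      rw [M1le]
      omega
  let z : MvPowerSeries (Fin 4) ℂ := fun e => coeff (e + M1) f
  have hz : ∀ e, coeff e z = coeff (e + M1) f := fun e => rfl
  refine ⟨z, ?_, ?_⟩
  · intro e he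
    rw [hz] at he
    have h1 := hf _ he
    rw [wt_add, wtM1, add_zero] at h1
    exact h1
  · rw [e02]
    ext e
    rw [coeff_monomial_mul]
    split_ifs with h1
    · rw [hz, tsub_add_cancel_of_le h1, one_mul]
    · exact key e h1

theorem reg3 {k : ℤ} (hk : k = -1 ∨ k = 0 ∨ k = 1) {f g h : MvPowerSeries (Fin 4) ℂ}
    (hf : HasWt k f) (e : (X 0 * X 3 - X 1 * X 2) * f = X 0 * X 2 * g + X 1 * X 3 * h) :
    ∃ u v, HasWt k u ∧ HasWt k v ∧ f = X 0 * X 2 * u + X 1 * X 3 * v := by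
  classical
  have e13 : (X 1 * X 3 : MvPowerSeries (Fin 4) ℂ) = monomial M2 1 := mon_eq 1 3
  have e02 : (X 0 * X 2 : MvPowerSeries (Fin 4) ℂ) = monomial M1 1 := mon_eq 0 2
  have e03 : (X 0 * X 3 : MvPowerSeries (Fin 4) ℂ) = monomial N1 1 := mon_eq 0 3
  have e12 : (X 1 * X 2 : MvPowerSeries (Fin 4) ℂ) = monomial N2 1 := mon_eq 1 2
  rw [e13, e02, e03, e12, sub_mul] at e
  obtain ⟨a0, a1, a2, a3⟩ := M1v
  obtain ⟨b0, b1, b2, b3⟩ := M2v
  obtain ⟨c0, c1, c2, c3⟩ := N1v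
  obtain ⟨d0, d1, d2, d3⟩ := N2v
  have kA : ∀ m : Fin 4 →₀ ℕ, m 1 = 0 → m 2 = 0 → coeff m f = 0 := by
    intro m hm1 hm2
    have h1 := congrArg (coeff (m + N1)) e
    rw [map_sub, map_add, coeff_monomial_mul, coeff_monomial_mul, coeff_monomial_mul,
      coeff_monomial_mul, if_pos (le_add_of_nonneg_left zero_le), add_tsub_cancel_right,
      one_mul, if_neg, if_neg, if_neg, sub_zero, add_zero] at h1
    · exact h1
    · rw [M2le, Finsupp.add_apply, Finsupp.add_apply, c1, c3]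
      omega
    · rw [M1le, Finsupp.add_apply, Finsupp.add_apply, c0, c2]
      omega
    · rw [N2le, Finsupp.add_apply, Finsupp.add_apply, c1, c2]
      omega
  have kB : ∀ m : Fin 4 →₀ ℕ, m 0 = 0 → m 3 = 0 → coeff m f = 0 := by
    intro m hm1 hm2
    have h1 := congrArg (coeff (m + N2)) e
    have t1 : coeff (m + N2) (monomial N1 1 * f) = 0 := by
      rw [coeff_monomial_mul, if_neg]
      rw [N1le, Finsupp.add_apply, Finsupp.add_apply, d0, d3]
      omega
    have t2 : coeff (m + N2) (monomial N2 1 * f) = coeff m f := by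
      rw [coeff_monomial_mul, if_pos (le_add_of_nonneg_left zero_le), add_tsub_cancel_right,
        one_mul]
    have t3 : coeff (m + N2) (monomial M1 1 * g) = 0 := by
      rw [coeff_monomial_mul, if_neg]
      rw [M1le, Finsupp.add_apply, Finsupp.add_apply, d0, d2]
      omega
    have t4 : coeff (m + N2) (monomial M2 1 * h) = 0 := by
      rw [coeff_monomial_mul, if_neg]
      rw [M2le, Finsupp.add_apply, Finsupp.add_apply, d1, d3]
      omega
    rw [map_sub, map_add, t1, t2, t3, t4, zero_sub, add_zero, neg_eq_zero] at h1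
    exact h1
  have key : ∀ m : Fin 4 →₀ ℕ, ¬ M1 ≤ m → ¬ M2 ≤ m → coeff m f = 0 := by
    intro m h1 h2
    by_contra hc
    have hw := hf m hc
    rw [wt] at hw
    rw [M1le] at h1
    rw [M2le] at h2
    have hA : ¬ (m 1 = 0 ∧ m 2 = 0) := fun h' => hc (kA m h'.1 h'.2)
    have hB : ¬ (m 0 = 0 ∧ m 3 = 0) := fun h' => hc (kB m h'.1 h'.2)
    omega
  let u : MvPowerSeries (Fin 4) ℂ := fun m => coeff (m + M1) f
  let v : MvPowerSeries (Fin 4) ℂ := fun m => if m 0 = 0 ∨ m 2 = 0 then coeff (m + M2) f else 0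
  have hu : ∀ m, coeff m u = coeff (m + M1) f := fun m => rfl
  have hv : ∀ m, coeff m v = if m 0 = 0 ∨ m 2 = 0 then coeff (m + M2) f else 0 := fun m => rfl
  refine ⟨u, v, ?_, ?_, ?_⟩
  · intro m hm
    rw [hu] at hm
    have h1 := hf _ hm
    rw [wt_add, wtM1, add_zero] at h1
    exact h1
  · intro m hm
    rw [hv] at hm
    split_ifs at hm with h1
    · have h2 := hf _ hm
      rw [wt_add, wtM2, add_zero] at h2
      exact h2
    · exact absurd rfl hm
  · rw [e02, e13]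
    ext m
    rw [map_add, coeff_monomial_mul, coeff_monomial_mul]
    by_cases h1 : M1 ≤ m
    · rw [if_pos h1, hu, tsub_add_cancel_of_le h1, one_mul]
      by_cases h2 : M2 ≤ m
      · rw [if_pos h2, hv, if_neg, mul_zero, add_zero]
        rw [M1le] at h1
        rw [Finsupp.tsub_apply, Finsupp.tsub_apply, b0, b2]
        omega
      · rw [if_neg h2, add_zero]
    · rw [if_neg h1, zero_add]
      by_cases h2 : M2 ≤ m
      · rw [if_pos h2, hv, if_pos, tsub_add_cancel_of_le h2, one_mul]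
        rw [M1le] at h1
        rw [Finsupp.tsub_apply, Finsupp.tsub_apply, b0, b2]
        omega
      · rw [if_neg h2]
        exact key m h1 h2


end Conifold

end Pool.Agent.Flop
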