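import Pool.Agent.Lib.FlA.Def3

/-!
# RegRet: regular sequences on retracts

`regular_of_retract`: induction on the list rs, for all M, M'. nil: trivial. r :: rs: `RingTheory.Sequence.isWeaklyRegular_cons_iff`: IsSMulRegular M r and IsWeaklyRegular (QuotSMulTop r M) rs. IsSMulRegular M' r: r • x = r • y gives r • i x = r • i y, i x = i y, x = y. QuotSMulTop r M' is a retract of QuotSMulTop r M: the maps induced by i and ρ
(`QuotSMulTop.map` or Submodule.mapQ; i maps r M' into r M), composite identity. Induction. `regular_unfold`: unfold isWeaklyRegular_cons_iff three times: (1) r1 • x = 0 implies x = 0; (2) r2 • x = r1 • y implies x = r1 • z; (3) r3 • x = r1 • y + r2 • z implies x = r1 • u + r2 • v (elements of QuotSMulTop are classes; zero in QuotSMulTop r M iff in r • ⊤,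
`Submodule.mem_smul_pointwise_iff_exists`).
-/

set_option autoImplicit false

namespace Pool.Agent.Flop

open Finset

variable {R M M' : Type} [CommRing R] [AddCommGroup M] [Module R M] [AddCommGroup M'] [Module R M']

private theorem regRet_mk_eq_zero {N : Type} [AddCommGroup N] [Module R N] (r : R) (x : N) :
    (Submodule.Quotient.mk x : QuotSMulTop r N) = 0 ↔ ∃ z, x = r • z := by
  rw [Submodule.Quotient.mk_eq_zero, Submodule.mem_smul_pointwise_iff_exists]
  constructor
  · rintro ⟨z, -, hz⟩
    exact ⟨z, hz.symm⟩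
  · rintro ⟨z, hz⟩
    exact ⟨z, Submodule.mem_top, hz.symm⟩

private theorem regRet_aux (rs : List R) : ∀ (N N' : Type) [AddCommGroup N] [Module R N]
    [AddCommGroup N'] [Module R N'] (i : N' →ₗ[R] N) (ρ : N →ₗ[R] N') (_ : ∀ m, ρ (i m) = m),
    RingTheory.Sequence.IsWeaklyRegular N rs → RingTheory.Sequence.IsWeaklyRegular N' rs := by
  induction rs with
  | nil =>
    intro N N' _ _ _ _ i ρ hi h
    exact RingTheory.Sequence.IsWeaklyRegular.nil R N'
  | cons r rs ih =>
    intro N N' _ _ _ _ i ρ hi h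
    rw [RingTheory.Sequence.isWeaklyRegular_cons_iff] at h ⊢
    refine ⟨?_, ?_⟩
    · intro x y hxy
      have h1 : r • i x = r • i y := by
        have := congrArg i hxy
        simpa using this
      have h2 := h.1 h1
      have h3 := congrArg ρ h2
      rwa [hi, hi] at h3
    · refine ih (QuotSMulTop r N) (QuotSMulTop r N') (QuotSMulTop.map r i) (QuotSMulTop.map r ρ)
        ?_ h.2
      intro m
      induction m using Submodule.Quotient.induction_on with
      | H x =>
        show (Submodule.Quotient.mk (ρ (i x)) : QuotSMulTop r N') = Submodule.Quotient.mk x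
        rw [hi]

theorem regular_of_retract (i : M' →ₗ[R] M) (ρ : M →ₗ[R] M') (hi : ∀ m, ρ (i m) = m)
    {rs : List R} (h : RingTheory.Sequence.IsWeaklyRegular M rs) :
    RingTheory.Sequence.IsWeaklyRegular M' rs :=
  regRet_aux rs M M' i ρ hi h

theorem regular_unfold {f₁ f₂ f₃ : R} (h : RingTheory.Sequence.IsWeaklyRegular M [f₁, f₂, f₃]) :
    (∀ x : M, f₁ • x = 0 → x = 0) ∧ (∀ x y : M, f₂ • x = f₁ • y → ∃ z, x = f₁ • z) ∧
      ∀ x y z : M, f₃ • x = f₁ • y + f₂ • z → ∃ u v, x = f₁ • u + f₂ • v := by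
  rw [RingTheory.Sequence.isWeaklyRegular_cons_iff] at h
  obtain ⟨h1, h⟩ := h
  rw [RingTheory.Sequence.isWeaklyRegular_cons_iff] at h
  obtain ⟨h2, h⟩ := h
  rw [RingTheory.Sequence.isWeaklyRegular_cons_iff] at h
  obtain ⟨h3, -⟩ := h
  refine ⟨?_, ?_, ?_⟩
  · intro x hx
    have : f₁ • x = f₁ • (0 : M) := by rw [hx, smul_zero]
    exact h1 this
  · intro x y hxy
    have h4 : f₂ • (Submodule.Quotient.mk x : QuotSMulTop f₁ M) =
        f₂ • (0 : QuotSMulTop f₁ M) := by
      rw [smul_zero, ← Submodule.Quotient.mk_smul, regRet_mk_eq_zero]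
      exact ⟨y, hxy⟩
    exact (regRet_mk_eq_zero f₁ x).1 (h2 h4)
  · intro x y z hxyz
    have h4 : f₃ • (Submodule.Quotient.mk (Submodule.Quotient.mk x : QuotSMulTop f₁ M) :
        QuotSMulTop f₂ (QuotSMulTop f₁ M)) = f₃ • (0 : QuotSMulTop f₂ (QuotSMulTop f₁ M)) := by
      rw [smul_zero, ← Submodule.Quotient.mk_smul, regRet_mk_eq_zero]
      refine ⟨Submodule.Quotient.mk z, ?_⟩
      rw [← Submodule.Quotient.mk_smul, ← Submodule.Quotient.mk_smul, Submodule.Quotient.eq,
        Submodule.mem_smul_pointwise_iff_exists]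
      refine ⟨y, Submodule.mem_top, ?_⟩
      rw [hxyz]
      abel
    have h5 := (regRet_mk_eq_zero f₂ _).1 (h3 h4)
    obtain ⟨w, hw⟩ := h5
    induction w using Submodule.Quotient.induction_on with
    | H v =>
      rw [← Submodule.Quotient.mk_smul, Submodule.Quotient.eq,
        Submodule.mem_smul_pointwise_iff_exists] at hw
      obtain ⟨u, -, hu⟩ := hw
      refine ⟨u, v, ?_⟩
      rw [hu]
      abel

end Pool.Agent.Flop
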