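import Pool.Agent.Lib.FlA.CfEnd
import Pool.Agent.Lib.FlA.CfReg
import Pool.Agent.Lib.FlA.RegRet

/-!
# CfDep: conifold example: depth of the endomorphism algebra

`regular_fold` is the converse of regular_unfold (module RegRet; IsWeaklyRegular via isWeaklyRegular_cons_iff, elements of QuotSMulTop are classes). `hasDepth3`: f₁ := X 0 * X 2, f₂ := X 1 * X 3, f₃ := X 0 * X 3 - X 1 * X 2 as elements of Rt (Rt.mk, weights 0); not units: constant coefficient 0 (Rt.ser is a ring homomorphism, a unit goes to a unit). Every x : At is act m hm (act_surjective) and r • act m hm = act (Rt.ser r • m) _ (act_smul), act_add, act_injective. The three conditions for At follow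
entrywise from reg2, reg3 (k = sc i - sc j ∈ {-1, 0, 1}) with act_injective: choose z i j for every entry and assemble the matrix.
-/

set_option autoImplicit false

namespace Pool.Agent.Flop

open Finset MvPowerSeries

private theorem cfDep_mk_eq_zero {R N : Type} [CommRing R] [AddCommGroup N] [Module R N] (r : R)
    (x : N) : (Submodule.Quotient.mk x : QuotSMulTop r N) = 0 ↔ ∃ z, x = r • z := by
  rw [Submodule.Quotient.mk_eq_zero, Submodule.mem_smul_pointwise_iff_exists]
  constructor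
  · rintro ⟨z, -, hz⟩
    exact ⟨z, hz.symm⟩
  · rintro ⟨z, hz⟩
    exact ⟨z, Submodule.mem_top, hz.symm⟩

private theorem cfDep_regular {R N : Type} [CommRing R] [AddCommGroup N] [Module R N] (r : R)
    (h : ∀ x : N, r • x = 0 → x = 0) : IsSMulRegular N r := by
  intro x y hxy
  have h1 : r • (x - y) = 0 := by
    rw [smul_sub]
    exact sub_eq_zero.2 hxy
  exact sub_eq_zero.1 (h _ h1)

theorem regular_fold {R M : Type} [CommRing R] [AddCommGroup M] [Module R M] {f₁ f₂ f₃ : R}
    (h1 : ∀ x : M, f₁ • x = 0 → x = 0) (h2 : ∀ x y : M, f₂ • x = f₁ • y → ∃ z, x = f₁ • z)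
    (h3 : ∀ x y z : M, f₃ • x = f₁ • y + f₂ • z → ∃ u v, x = f₁ • u + f₂ • v) :
    RingTheory.Sequence.IsWeaklyRegular M [f₁, f₂, f₃] := by
  rw [RingTheory.Sequence.isWeaklyRegular_cons_iff]
  refine ⟨cfDep_regular f₁ h1, ?_⟩
  rw [RingTheory.Sequence.isWeaklyRegular_cons_iff]
  refine ⟨cfDep_regular f₂ ?_, ?_⟩
  · intro w hw
    induction w using Submodule.Quotient.induction_on with
    | H x =>
      rw [← Submodule.Quotient.mk_smul, cfDep_mk_eq_zero] at hw
      obtain ⟨y, hy⟩ := hw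
      rw [cfDep_mk_eq_zero]
      exact h2 x y hy
  rw [RingTheory.Sequence.isWeaklyRegular_cons_iff]
  refine ⟨cfDep_regular f₃ ?_, RingTheory.Sequence.IsWeaklyRegular.nil R _⟩
  intro w hw
  induction w using Submodule.Quotient.induction_on with
  | H w' =>
    induction w' using Submodule.Quotient.induction_on with
    | H x =>
      rw [← Submodule.Quotient.mk_smul, cfDep_mk_eq_zero] at hw
      obtain ⟨w2, hw2⟩ := hw
      induction w2 using Submodule.Quotient.induction_on with
      | H z =>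
        rw [← Submodule.Quotient.mk_smul, ← Submodule.Quotient.mk_smul, Submodule.Quotient.eq,
          Submodule.mem_smul_pointwise_iff_exists] at hw2
        obtain ⟨y, -, hy⟩ := hw2
        obtain ⟨u, v, huv⟩ := h3 x y z (by rw [hy]; abel)
        rw [cfDep_mk_eq_zero]
        refine ⟨Submodule.Quotient.mk v, ?_⟩
        rw [← Submodule.Quotient.mk_smul, Submodule.Quotient.eq,
          Submodule.mem_smul_pointwise_iff_exists]
        refine ⟨u, Submodule.mem_top, ?_⟩
        rw [huv]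
        abel

namespace Conifold

private theorem cfDep_w02 : HasWt 0 (X 0 * X 2 : MvPowerSeries (Fin 4) ℂ) := by
  have h := HasWt.mul (HasWt.X 0) (HasWt.X 2)
  have h1 : wt (Finsupp.single 0 1) + wt (Finsupp.single 2 1) = 0 := by simp [wt]
  rwa [h1] at h

private theorem cfDep_w13 : HasWt 0 (X 1 * X 3 : MvPowerSeries (Fin 4) ℂ) := by
  have h := HasWt.mul (HasWt.X 1) (HasWt.X 3)
  have h1 : wt (Finsupp.single 1 1) + wt (Finsupp.single 3 1) = 0 := by simp [wt]
  rwa [h1] at h

private theorem cfDep_w03 : HasWt 0 (X 0 * X 3 - X 1 * X 2 : MvPowerSeries (Fin 4) ℂ) := by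
  refine HasWt.sub ?_ ?_
  · have h := HasWt.mul (HasWt.X 0) (HasWt.X 3)
    have h1 : wt (Finsupp.single 0 1) + wt (Finsupp.single 3 1) = 0 := by simp [wt]
    rwa [h1] at h
  · have h := HasWt.mul (HasWt.X 1) (HasWt.X 2)
    have h1 : wt (Finsupp.single 1 1) + wt (Finsupp.single 2 1) = 0 := by simp [wt]
    rwa [h1] at h

private theorem cfDep_not_unit (f : MvPowerSeries (Fin 4) ℂ) (hf : HasWt 0 f)
    (h0 : constantCoeff f = 0) : ¬ IsUnit (Rt.mk f hf) := by
  intro h
  have h1 : IsUnit (Rt.ser (Rt.mk f hf)) := h.map Rt.ser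
  rw [Rt.ser_mk] at h1
  have h2 := h1.map (constantCoeff : MvPowerSeries (Fin 4) ℂ →+* ℂ)
  rw [h0] at h2
  exact not_isUnit_zero h2

private theorem cfDep_X_ne (s : Fin 4) : (X s : MvPowerSeries (Fin 4) ℂ) ≠ 0 := by
  intro h
  have h1 := congrArg (coeff (Finsupp.single s 1)) h
  rw [X_def, coeff_monomial_same, map_zero] at h1
  exact one_ne_zero h1

private theorem cfDep_wsmul {f : MvPowerSeries (Fin 4) ℂ} (hf : HasWt 0 f)
    {m : Matrix (Fin 2) (Fin 2) (MvPowerSeries (Fin 4) ℂ)}
    (hm : ∀ i j, HasWt (sc i - sc j) (m i j)) (i j : Fin 2) :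
    HasWt (sc i - sc j) ((Rt.ser (Rt.mk f hf) • m) i j) := by
  have h := HasWt.mul hf (hm i j)
  rw [zero_add] at h
  exact h

private theorem cfDep_wadd {m m' : Matrix (Fin 2) (Fin 2) (MvPowerSeries (Fin 4) ℂ)}
    (hm : ∀ i j, HasWt (sc i - sc j) (m i j)) (hm' : ∀ i j, HasWt (sc i - sc j) (m' i j))
    (i j : Fin 2) : HasWt (sc i - sc j) ((m + m') i j) :=
  HasWt.add (hm i j) (hm' i j)

private theorem cfDep_smul {f : MvPowerSeries (Fin 4) ℂ} (hf : HasWt 0 f)
    {m : Matrix (Fin 2) (Fin 2) (MvPowerSeries (Fin 4) ℂ)}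
    (hm : ∀ i j, HasWt (sc i - sc j) (m i j)) :
    Rt.mk f hf • act m hm = act (Rt.ser (Rt.mk f hf) • m) (cfDep_wsmul hf hm) :=
  (act_smul _ hm _).symm

private theorem cfDep_entry (f : MvPowerSeries (Fin 4) ℂ) (hf : HasWt 0 f)
    (m : Matrix (Fin 2) (Fin 2) (MvPowerSeries (Fin 4) ℂ)) (i j : Fin 2) :
    (Rt.ser (Rt.mk f hf) • m) i j = f * m i j := rfl

private theorem cfDep_sc (i j : Fin 2) : sc i - sc j = -1 ∨ sc i - sc j = 0 ∨ sc i - sc j = 1 := by
  fin_cases i <;> fin_cases j <;> simp [sc]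

theorem hasDepth3 : HasDepth3 Rt At := by
  refine ⟨Rt.mk _ cfDep_w02, Rt.mk _ cfDep_w13, Rt.mk _ cfDep_w03, cfDep_not_unit _ _ ?_,
    cfDep_not_unit _ _ ?_, cfDep_not_unit _ _ ?_, regular_fold ?_ ?_ ?_⟩
  · rw [map_mul, constantCoeff_X, zero_mul]
  · rw [map_mul, constantCoeff_X, zero_mul]
  · rw [map_sub, map_mul, map_mul, constantCoeff_X 0, constantCoeff_X 1, zero_mul, zero_mul,
      sub_zero]
  · intro x hx
    obtain ⟨m, hm, rfl⟩ := act_surjective x
    rw [cfDep_smul] at hx
    have hz : ∀ i j : Fin 2, HasWt (sc i - sc j)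
        ((0 : Matrix (Fin 2) (Fin 2) (MvPowerSeries (Fin 4) ℂ)) i j) := fun i j => HasWt.zero _
    have h0 : act 0 hz = 0 := by
      apply LinearMap.ext
      intro v
      funext i
      apply Nt.ser_inj
      rw [act_apply, Fin.sum_univ_two, Matrix.zero_apply, Matrix.zero_apply, zero_mul, zero_mul,
        add_zero]
      rfl
    rw [← h0] at hx
    have h1 := act_injective _ _ hx
    have h2 : m = 0 := by
      ext1 i j
      have h3 := congrFun (congrFun h1 i) j
      rw [cfDep_entry, Matrix.zero_apply] at h3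
      rcases mul_eq_zero.1 h3 with h4 | h4
      · exact absurd h4 (mul_ne_zero (cfDep_X_ne 0) (cfDep_X_ne 2))
      · exact h4
    subst h2
    exact h0
  · intro x y hxy
    obtain ⟨m, hm, rfl⟩ := act_surjective x
    obtain ⟨n, hn, rfl⟩ := act_surjective y
    rw [cfDep_smul, cfDep_smul] at hxy
    have h1 := act_injective _ _ hxy
    have h2 : ∀ i j : Fin 2, ∃ z, HasWt (sc i - sc j) z ∧ m i j = X 0 * X 2 * z := by
      intro i j
      have h3 := congrFun (congrFun h1 i) j
      rw [cfDep_entry, cfDep_entry] at h3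
      exact reg2 (hm i j) h3
    choose z hz hmz using h2
    have hz' : ∀ i j, HasWt (sc i - sc j) ((Matrix.of z) i j) := hz
    refine ⟨act (Matrix.of z) hz', ?_⟩
    rw [cfDep_smul]
    have h4 : m = Rt.ser (Rt.mk _ cfDep_w02) • Matrix.of z := by
      ext1 i j
      rw [cfDep_entry, Matrix.of_apply]
      exact hmz i j
    subst h4
    rfl
  · intro x y w hxyw
    obtain ⟨m, hm, rfl⟩ := act_surjective x
    obtain ⟨n, hn, rfl⟩ := act_surjective y
    obtain ⟨l, hl, rfl⟩ := act_surjective w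
    rw [cfDep_smul, cfDep_smul, cfDep_smul,
      ← act_add _ _ (cfDep_wadd (cfDep_wsmul _ hn) (cfDep_wsmul _ hl))] at hxyw
    have h1 := act_injective _ _ hxyw
    have h2 : ∀ i j : Fin 2, ∃ u v, HasWt (sc i - sc j) u ∧ HasWt (sc i - sc j) v ∧
        m i j = X 0 * X 2 * u + X 1 * X 3 * v := by
      intro i j
      have h3 := congrFun (congrFun h1 i) j
      rw [Matrix.add_apply, cfDep_entry, cfDep_entry, cfDep_entry] at h3
      exact reg3 (cfDep_sc i j) (hm i j) h3
    choose u v hu hv hmuv using h2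
    have hu' : ∀ i j, HasWt (sc i - sc j) ((Matrix.of u) i j) := hu
    have hv' : ∀ i j, HasWt (sc i - sc j) ((Matrix.of v) i j) := hv
    refine ⟨act (Matrix.of u) hu', act (Matrix.of v) hv', ?_⟩
    rw [cfDep_smul, cfDep_smul,
      ← act_add _ _ (cfDep_wadd (cfDep_wsmul _ hu') (cfDep_wsmul _ hv'))]
    have h4 : m = Rt.ser (Rt.mk _ cfDep_w02) • Matrix.of u +
        Rt.ser (Rt.mk _ cfDep_w13) • Matrix.of v := by
      ext1 i j
      rw [Matrix.add_apply, cfDep_entry, cfDep_entry, Matrix.of_apply, Matrix.of_apply]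
      exact hmuv i j
    subst h4
    rfl

end Conifold

end Pool.Agent.Flop
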