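import Pool.Agent.Lib.FlA.CfDef

/-!
# CfEnd: conifold example: the endomorphism algebra is the matrix algebra

`act_mem`: HasWt.mul, HasWt.add over Fin 2 (sc i - sc j + sc j = sc i). act_one, act_mul, act_add, act_smul: LinearMap.ext, funext, Nt.ser_inj, act_apply; matrix multiplication: ∑ j, (∑ k, m i k * m' k j) * v j = ∑ k, m i k * ∑ j, m' k j * v j. `act_injective`: apply to Pi.single 0 (Nt.mk 0 1 _) and Pi.single 1 (Nt.mk 1 (X 0) _): m i 0 * 1, m i 1 * X 0. `act_surjective`: let φ be R-linear. Put m i 0 := (φ (Pi.single 0 (1))) i. For column 1 let u, u' be the series of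
φ (Pi.single 1 (X 0)) i and φ (Pi.single 1 (X 1)) i (of weight sc i). In N_1: (X 2 * X 0) • X 1 = (X 2 * X 1) • X 0 with X 2 * X 0, X 2 * X 1 of weight 0. So X 2 * X 0 * u' = X 2 * X 1 * u, X 0 * u' = X 1 * u (domain). So X 0 ∣ X 1 * u; MvPowerSeries.X_dvd_iff: X 0 ∣ u (coefficients: coeff (e + single 1 1) (X 1 * u) = coeff e u): u = X 0 * q, u' = X 1 * q. q has weight sc i - 1: HasWt (coeff e q = coeff (e + single 0 1) u). m i 1 := q. For general y ∈ N_1:
(X 2 * y) • X 0 = (X 2 * X 0) • y so X 2 * y * u = X 2 * X 0 * φ(y) i, so φ(y) i = y * q. For y ∈ N_0: y = y • 1. Every v is Pi.single 0 (v 0) + Pi.single 1 (v 1) (Fin.sum_univ_two, Finset.univ_sum_single). `fin_Nt`: N_0 is spanned by 1; N_1 is spanned by X 0 and X 1: if f has weight 1 then every monomial with nonzero coefficient has e 0 + e 1 ≥ 1; f = X 0 * f0 + X 1 * f1, where X 1 * f1 is the part with e 0 = 0 (f1 has the coefficient at e: if e 0 = 0 then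
coeff (e + single 1 1) f else 0; f0 has the coefficient coeff (e + single 0 1) f at e), both of weight 0. Module.Finite.of_surjective or ⟨⟨{..}, ..⟩⟩ (Submodule.FG with a Finset), Submodule.mem_span_pair. (Do not unfold Rt, Nt: use ser, mk, ser_inj, ser_smul, ser_add.)
-/

set_option autoImplicit false

namespace Pool.Agent.Flop

namespace Conifold

open Finset MvPowerSeries

theorem act_mem {m : Matrix (Fin 2) (Fin 2) (MvPowerSeries (Fin 4) ℂ)}
    (hm : ∀ i j, HasWt (sc i - sc j) (m i j)) (v : ∀ i, Nt i) (i : Fin 2) :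
    HasWt (sc i) (∑ j, m i j * (v j).ser) := by
  rw [Fin.sum_univ_two]
  have h : ∀ j : Fin 2, HasWt (sc i) (m i j * (v j).ser) := by
    intro j
    have h1 := HasWt.mul (hm i j) (v j).wt
    rwa [sub_add_cancel] at h1
  exact (h 0).add (h 1)

/-- The action of a matrix on `N_0 ⊕ N_1`. -/
noncomputable def act (m : Matrix (Fin 2) (Fin 2) (MvPowerSeries (Fin 4) ℂ))
    (hm : ∀ i j, HasWt (sc i - sc j) (m i j)) : At where
  toFun v := fun i => Nt.mk i (∑ j, m i j * (v j).ser) (act_mem hm v i)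
  map_add' v w := by
    funext i
    apply Nt.ser_inj
    change ∑ j, m i j * ((v j).ser + (w j).ser) = ∑ j, m i j * (v j).ser + ∑ j, m i j * (w j).ser
    rw [← Finset.sum_add_distrib]
    exact Finset.sum_congr rfl fun j _ => mul_add _ _ _
  map_smul' c v := by
    funext i
    apply Nt.ser_inj
    change ∑ j, m i j * (Rt.ser c * (v j).ser) = Rt.ser c * ∑ j, m i j * (v j).ser
    rw [Finset.mul_sum]
    exact Finset.sum_congr rfl fun j _ => by ring

theorem act_apply (m : Matrix (Fin 2) (Fin 2) (MvPowerSeries (Fin 4) ℂ))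
    (hm : ∀ i j, HasWt (sc i - sc j) (m i j)) (v : ∀ i, Nt i) (i : Fin 2) :
    (act m hm v i).ser = ∑ j, m i j * (v j).ser := rfl

theorem act_one (h : ∀ i j, HasWt (sc i - sc j)
    ((1 : Matrix (Fin 2) (Fin 2) (MvPowerSeries (Fin 4) ℂ)) i j)) : act 1 h = 1 := by
  apply LinearMap.ext
  intro v
  funext i
  apply Nt.ser_inj
  rw [act_apply, Finset.sum_eq_single i]
  · rw [Matrix.one_apply_eq, one_mul]
    rfl
  · intro j _ hj
    rw [Matrix.one_apply_ne (Ne.symm hj), zero_mul]
  · intro h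
    exact absurd (Finset.mem_univ i) h

theorem act_mul {m m' : Matrix (Fin 2) (Fin 2) (MvPowerSeries (Fin 4) ℂ)}
    (hm : ∀ i j, HasWt (sc i - sc j) (m i j)) (hm' : ∀ i j, HasWt (sc i - sc j) (m' i j))
    (h : ∀ i j, HasWt (sc i - sc j) ((m * m') i j)) :
    act (m * m') h = act m hm * act m' hm' := by
  apply LinearMap.ext
  intro v
  funext i
  apply Nt.ser_inj
  rw [Module.End.mul_apply, act_apply, act_apply]
  simp only [act_apply, Matrix.mul_apply, Fin.sum_univ_two]
  ring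

theorem act_add {m m' : Matrix (Fin 2) (Fin 2) (MvPowerSeries (Fin 4) ℂ)}
    (hm : ∀ i j, HasWt (sc i - sc j) (m i j)) (hm' : ∀ i j, HasWt (sc i - sc j) (m' i j))
    (h : ∀ i j, HasWt (sc i - sc j) ((m + m') i j)) :
    act (m + m') h = act m hm + act m' hm' := by
  apply LinearMap.ext
  intro v
  funext i
  apply Nt.ser_inj
  rw [LinearMap.add_apply, Pi.add_apply, Nt.ser_add, act_apply, act_apply, act_apply]
  simp only [Matrix.add_apply, Fin.sum_univ_two]
  ring

theorem act_algebraMap (c : ℂ) (h : ∀ i j, HasWt (sc i - sc j)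
    ((algebraMap ℂ (Matrix (Fin 2) (Fin 2) (MvPowerSeries (Fin 4) ℂ)) c) i j)) :
    act (algebraMap ℂ (Matrix (Fin 2) (Fin 2) (MvPowerSeries (Fin 4) ℂ)) c) h =
      algebraMap ℂ At c := by
  apply LinearMap.ext
  intro v
  funext i
  apply Nt.ser_inj
  rw [act_apply, Finset.sum_eq_single i]
  · rw [Matrix.algebraMap_matrix_apply, if_pos rfl, Module.algebraMap_end_apply, Pi.smul_apply]
    change _ = Rt.ser (algebraMap ℂ Rt c) * (v i).ser
    rw [AlgHom.commutes]
  · intro j _ hj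
    rw [Matrix.algebraMap_matrix_apply, if_neg (Ne.symm hj), zero_mul]
  · intro h
    exact absurd (Finset.mem_univ i) h

theorem act_smul (r : Rt) {m : Matrix (Fin 2) (Fin 2) (MvPowerSeries (Fin 4) ℂ)}
    (hm : ∀ i j, HasWt (sc i - sc j) (m i j))
    (h : ∀ i j, HasWt (sc i - sc j) ((Rt.ser r • m) i j)) :
    act (Rt.ser r • m) h = r • act m hm := by
  apply LinearMap.ext
  intro v
  funext i
  apply Nt.ser_inj
  rw [LinearMap.smul_apply, Pi.smul_apply, Nt.ser_smul, act_apply, act_apply]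
  simp only [Matrix.smul_apply, smul_eq_mul, Fin.sum_univ_two]
  ring

/-- The element `1` of `N_0`. -/
private noncomputable def g0 : Nt 0 := Nt.mk 0 1 (by
  have h := HasWt.C 1
  rw [map_one] at h
  exact h)

private theorem wX (s : Fin 4) (hs : s = 0 ∨ s = 1) :
    HasWt (sc 1) (X s : MvPowerSeries (Fin 4) ℂ) := by
  have h := HasWt.X s
  have h1 : wt (Finsupp.single s 1) = sc 1 := by
    rcases hs with rfl | rfl <;> simp [wt, sc]
  rw [h1] at h
  exact h

/-- The elements `X 0`, `X 1` of `N_1`. -/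
private noncomputable def g1 (s : Fin 4) (hs : s = 0 ∨ s = 1) : Nt 1 := Nt.mk 1 (X s) (wX s hs)

private theorem g0_ser : (g0).ser = 1 := rfl

private theorem g1_ser (s : Fin 4) (hs : s = 0 ∨ s = 1) : (g1 s hs).ser = X s := rfl

private theorem X_ne (s : Fin 4) : (X s : MvPowerSeries (Fin 4) ℂ) ≠ 0 := by
  intro h
  have h1 := congrArg (coeff (Finsupp.single s 1)) h
  rw [X_def, coeff_monomial_same, map_zero] at h1
  exact one_ne_zero h1

private theorem coeff_X_add (s : Fin 4) (e : Fin 4 →₀ ℕ) (f : MvPowerSeries (Fin 4) ℂ) :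
    coeff (Finsupp.single s 1 + e) (X s * f) = coeff e f := by
  rw [X_def, coeff_add_monomial_mul, one_mul]

theorem act_injective {m m' : Matrix (Fin 2) (Fin 2) (MvPowerSeries (Fin 4) ℂ)}
    (hm : ∀ i j, HasWt (sc i - sc j) (m i j)) (hm' : ∀ i j, HasWt (sc i - sc j) (m' i j))
    (h : act m hm = act m' hm') : m = m' := by
  ext1 i j
  have h1 : ∀ v : (∀ i, Nt i), (act m hm v i).ser = (act m' hm' v i).ser := by
    intro v
    rw [h]
  have h2 := h1 (Pi.single 0 g0)
  have h3 := h1 (Pi.single 1 (g1 0 (Or.inl rfl)))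
  rw [act_apply, act_apply, Fin.sum_univ_two, Fin.sum_univ_two] at h2 h3
  rw [Pi.single_eq_same, Pi.single_eq_of_ne (by decide : (1 : Fin 2) ≠ 0), Nt.ser_zero, mul_zero,
    mul_zero, add_zero, add_zero, g0_ser, mul_one, mul_one] at h2
  rw [Pi.single_eq_same, Pi.single_eq_of_ne (by decide : (0 : Fin 2) ≠ 1), Nt.ser_zero, mul_zero,
    mul_zero, zero_add, zero_add, g1_ser] at h3
  have h4 := mul_right_cancel₀ (X_ne 0) h3
  fin_cases j
  · exact h2
  · exact h4

theorem act_surjective (x : At) : ∃ (m : Matrix (Fin 2) (Fin 2) (MvPowerSeries (Fin 4) ℂ))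
    (hm : ∀ i j, HasWt (sc i - sc j) (m i j)), act m hm = x := by
  have hlin : ∀ (i : Fin 2) (y z : Nt 1), z.ser * (x (Pi.single 1 y) i).ser =
      y.ser * (x (Pi.single 1 z) i).ser := by
    intro i y z
    have hw : ∀ w : Nt 1, HasWt 0 (X 2 * w.ser) := by
      intro w
      have h1 := HasWt.mul (HasWt.X 2) w.wt
      have h2 : wt (Finsupp.single 2 1) + sc 1 = 0 := by simp [wt, sc]
      rwa [h2] at h1
    have h1 : Rt.mk _ (hw z) • y = Rt.mk _ (hw y) • z := by
      apply Nt.ser_inj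
      rw [Nt.ser_smul, Nt.ser_smul, Rt.ser_mk, Rt.ser_mk]
      ring
    have h2 : Rt.mk _ (hw z) • x (Pi.single 1 y) = Rt.mk _ (hw y) • x (Pi.single 1 z) := by
      rw [← map_smul, ← map_smul, ← Pi.single_smul, ← Pi.single_smul, h1]
    have h3 := congrArg (fun v : (∀ i, Nt i) => (v i).ser) h2
    simp only [Pi.smul_apply] at h3
    rw [Nt.ser_smul, Nt.ser_smul, Rt.ser_mk, Rt.ser_mk, mul_assoc, mul_assoc] at h3
    exact mul_left_cancel₀ (X_ne 2) h3
  have hq : ∀ i : Fin 2, ∃ q, HasWt (sc i - sc 1) q ∧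
      ∀ y : Nt 1, (x (Pi.single 1 y) i).ser = q * y.ser := by
    intro i
    have h1 : X 0 * (x (Pi.single 1 (g1 1 (Or.inr rfl))) i).ser =
        X 1 * (x (Pi.single 1 (g1 0 (Or.inl rfl))) i).ser :=
      hlin i (g1 1 (Or.inr rfl)) (g1 0 (Or.inl rfl))
    have h2 : (X 0 : MvPowerSeries (Fin 4) ℂ) ∣ (x (Pi.single 1 (g1 0 (Or.inl rfl))) i).ser := by
      rw [X_dvd_iff]
      intro e he
      rw [← coeff_X_add 1, ← h1]
      have h3 : (X 0 : MvPowerSeries (Fin 4) ℂ) ∣
        X 0 * (x (Pi.single 1 (g1 1 (Or.inr rfl))) i).ser := dvd_mul_right _ _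
      rw [X_dvd_iff] at h3
      apply h3
      rw [Finsupp.add_apply, he, Finsupp.single_apply, if_neg (by decide)]
    obtain ⟨q, hq⟩ := h2
    refine ⟨q, ?_, ?_⟩
    · intro e he
      rw [← coeff_X_add 0, ← hq] at he
      have h3 := (x (Pi.single 1 (g1 0 (Or.inl rfl))) i).wt _ he
      rw [wt_add] at h3
      have h4 : wt (Finsupp.single 0 1) = sc 1 := by simp [wt, sc]
      rw [h4] at h3
      rw [← h3]
      ring
    · intro y
      have h3 := hlin i y (g1 0 (Or.inl rfl))
      rw [hq, g1_ser] at h3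
      apply mul_left_cancel₀ (X_ne 0)
      rw [h3]
      ring
  choose q hqw hqy using hq
  refine ⟨Matrix.of fun i j => if j = 0 then (x (Pi.single 0 g0) i).ser else q i, ?_, ?_⟩
  · intro i j
    rw [Matrix.of_apply]
    fin_cases j
    · change HasWt (sc i - sc 0) (x (Pi.single 0 g0) i).ser
      have h1 : sc i - sc 0 = sc i := by simp [sc]
      rw [h1]
      exact Nt.wt _
    · exact hqw i
  · apply LinearMap.ext
    intro v
    funext i
    apply Nt.ser_inj
    rw [act_apply, Fin.sum_univ_two, Matrix.of_apply, Matrix.of_apply, if_pos rfl,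
      if_neg (by decide), ← hqy]
    have h1 : (x (Pi.single 0 g0) i).ser * (v 0).ser = (x (Pi.single 0 (v 0)) i).ser := by
      have hv : HasWt 0 (v 0).ser := (v 0).wt
      have h2 : Rt.mk _ hv • g0 = v 0 := by
        apply Nt.ser_inj
        rw [Nt.ser_smul, Rt.ser_mk, g0_ser, mul_one]
      conv_rhs => rw [← h2, Pi.single_smul, map_smul, Pi.smul_apply, Nt.ser_smul, Rt.ser_mk]
      ring
    rw [h1, ← Nt.ser_add, ← Pi.add_apply, ← map_add]
    have hsum : (Pi.single 0 (v 0) + Pi.single 1 (v 1) : ∀ i, Nt i) = v := by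
      funext j
      fin_cases j
      · change (Pi.single 0 (v 0) : ∀ i, Nt i) 0 + (Pi.single 1 (v 1) : ∀ i, Nt i) 0 = v 0
        rw [Pi.single_eq_same, Pi.single_eq_of_ne (by decide : (0 : Fin 2) ≠ 1), add_zero]
      · change (Pi.single 0 (v 0) : ∀ i, Nt i) 1 + (Pi.single 1 (v 1) : ∀ i, Nt i) 1 = v 1
        rw [Pi.single_eq_same, Pi.single_eq_of_ne (by decide : (1 : Fin 2) ≠ 0), zero_add]
    rw [hsum]

private theorem split1 (y : Nt 1) : ∃ f0 f1 : MvPowerSeries (Fin 4) ℂ, HasWt 0 f0 ∧ HasWt 0 f1 ∧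
    y.ser = f0 * X 0 + f1 * X 1 := by
  classical
  set f0 : MvPowerSeries (Fin 4) ℂ := fun e => coeff (Finsupp.single 0 1 + e) y.ser with hf0
  set f1 : MvPowerSeries (Fin 4) ℂ := fun e =>
    if e 0 = 0 then coeff (Finsupp.single 1 1 + e) y.ser else 0 with hf1
  have c0 : ∀ e, coeff e f0 = coeff (Finsupp.single 0 1 + e) y.ser := fun e => rfl
  have c1 : ∀ e, coeff e f1 = if e 0 = 0 then coeff (Finsupp.single 1 1 + e) y.ser else 0 :=
    fun e => rfl
  have w0 : wt (Finsupp.single 0 1) = 1 := by simp [wt]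
  have w1 : wt (Finsupp.single 1 1) = 1 := by simp [wt]
  have hy : ∀ e, coeff e y.ser ≠ 0 → wt e = 1 := fun e he => by
    have := y.wt e he
    simpa [sc] using this
  have hcX : ∀ (s : Fin 4) (e : Fin 4 →₀ ℕ) (f : MvPowerSeries (Fin 4) ℂ), e s = 0 →
      coeff e (X s * f) = 0 := fun s e f he => X_dvd_iff.1 (dvd_mul_right _ _) e he
  have hsub : ∀ (s : Fin 4) (e : Fin 4 →₀ ℕ), e s ≠ 0 →
      Finsupp.single s 1 + (e - Finsupp.single s 1) = e := by
    intro s e he
    apply add_tsub_cancel_of_le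
    rw [Finsupp.single_le_iff]
    omega
  refine ⟨f0, f1, ?_, ?_, ?_⟩
  · intro e he
    rw [c0] at he
    have h1 := hy _ he
    rw [wt_add, w0] at h1
    linarith
  · intro e he
    rw [c1] at he
    split_ifs at he with h0
    · have h1 := hy _ he
      rw [wt_add, w1] at h1
      linarith
    · exact absurd rfl he
  · ext e
    rw [map_add, mul_comm f0, mul_comm f1]
    by_cases h0 : e 0 = 0
    · rw [hcX 0 e f0 h0, zero_add]
      by_cases h1 : e 1 = 0
      · rw [hcX 1 e f1 h1]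
        by_contra h2
        have h3 := hy e h2
        rw [wt, h0, h1] at h3
        push_cast at h3
        have h4 : (0 : ℤ) ≤ (e 2 : ℤ) := Int.natCast_nonneg _
        have h5 : (0 : ℤ) ≤ (e 3 : ℤ) := Int.natCast_nonneg _
        linarith
      · conv_rhs => rw [← hsub 1 e h1, coeff_X_add, c1, hsub 1 e h1]
        rw [if_pos]
        rw [Finsupp.tsub_apply, h0, zero_tsub]
    · conv_rhs => enter [1]; rw [← hsub 0 e h0, coeff_X_add, c0, hsub 0 e h0]
      by_cases h1 : e 1 = 0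
      · rw [hcX 1 e f1 h1, add_zero]
      · conv_rhs => enter [2]; rw [← hsub 1 e h1, coeff_X_add, c1]
        rw [if_neg, add_zero]
        rw [Finsupp.tsub_apply, Finsupp.single_apply, if_neg (by decide), tsub_zero]
        exact h0

theorem fin_Nt (i : Fin 2) : Module.Finite Rt (Nt i) := by
  fin_cases i
  · refine Module.Finite.of_surjective (LinearMap.toSpanSingleton Rt (Nt 0) g0) ?_
    intro y
    have hv : HasWt 0 y.ser := y.wt
    refine ⟨Rt.mk _ hv, ?_⟩
    apply Nt.ser_inj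
    rw [LinearMap.toSpanSingleton_apply, Nt.ser_smul, Rt.ser_mk, g0_ser, mul_one]
  · refine Module.Finite.of_surjective
      ((LinearMap.toSpanSingleton Rt (Nt 1) (g1 0 (Or.inl rfl))).coprod
        (LinearMap.toSpanSingleton Rt (Nt 1) (g1 1 (Or.inr rfl)))) ?_
    intro y
    obtain ⟨f0, f1, h0, h1, hy⟩ := split1 y
    refine ⟨(Rt.mk f0 h0, Rt.mk f1 h1), ?_⟩
    apply Nt.ser_inj
    rw [LinearMap.coprod_apply, LinearMap.toSpanSingleton_apply, LinearMap.toSpanSingleton_apply,
      Nt.ser_add, Nt.ser_smul, Nt.ser_smul, Rt.ser_mk, Rt.ser_mk, g1_ser, g1_ser]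
    exact hy.symm

end Conifold

end Pool.Agent.Flop
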