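import Pool.Agent.Lib.FlA.CfAb
import Pool.Agent.Lib.MP_03045c_ag.CycPot

/-!
# CfEv: conifold example: the evaluation homomorphism to matrices
-/

set_option autoImplicit false

namespace Pool.Agent.Flop

namespace Conifold

open Finset MvPowerSeries

/-- The evaluation of series in paths at commuting variables. -/
noncomputable def ev : Hat Qc →ₐ[ℂ] Matrix (Fin 2) (Fin 2) (MvPowerSeries (Fin 4) ℂ) :=
  abel.mapMatrix.comp (PathAlg Qc).val

theorem coeff_ev (f : Hat Qc) (i j : Fin 2) (e : Fin 4 →₀ ℕ) :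
    coeff e (ev f i j) = ∑ l ∈ words e, f.cf i j l := rfl

private theorem cfev_cnt_cons (a : Fin 4) (l : List (Fin 4)) :
    cnt (a :: l) = Finsupp.single a 1 + cnt l := by
  classical
  ext i
  rw [Finsupp.add_apply, cnt_apply, cnt_apply, List.count_cons, Finsupp.single_apply, add_comm]
  simp

theorem wt_path {i j : Fin 2} {l : List (Fin 4)} (h : Qc.IsPath i l j) :
    wt (cnt l) = sc i - sc j := by
  induction l generalizing i with
  | nil =>
    have h' : i = j := h
    rw [h', cnt_nil, wt_zero, sub_self]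
  | cons a l ih =>
    have h1 : Qc.src a = i := h.1
    rw [cfev_cnt_cons, wt_add, ih h.2, ← h1]
    fin_cases a <;> simp [wt, sc, Qc] <;> ring

theorem ev_mem (f : Hat Qc) (i j : Fin 2) : HasWt (sc i - sc j) (ev f i j) := by
  intro e he
  rw [coeff_ev] at he
  obtain ⟨l, hl, hl0⟩ := Finset.exists_ne_zero_of_sum_ne_zero he
  rw [← mem_words.1 hl]
  exact wt_path (f.cf_path hl0)

private theorem cfev_abel_var (a : Fin 4) :
    abel (NPS.var a) = (X a : MvPowerSeries (Fin 4) ℂ) := by
  classical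
  apply MvPowerSeries.ext
  intro e
  rw [coeff_X]
  have h1 : coeff e (abel (NPS.var a)) =
      ∑ l ∈ words e, (if l = [a] then (1 : ℂ) else 0) := rfl
  have h3 : cnt [a] = Finsupp.single a 1 := by rw [cfev_cnt_cons, cnt_nil, add_zero]
  rw [h1]
  by_cases h : e = Finsupp.single a 1
  · rw [if_pos h, Finset.sum_eq_single [a]]
    · rw [if_pos rfl]
    · intro l _ hl
      rw [if_neg hl]
    · intro h4
      exact absurd (mem_words.2 (h3.trans h.symm)) h4
  · rw [if_neg h]
    refine Finset.sum_eq_zero fun l hl => ?_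
    rw [if_neg]
    rintro rfl
    exact h ((mem_words.1 hl).symm.trans h3)

private theorem cfev_map_single (i j : Fin 2) (x : NPS (Fin 4)) :
    abel.mapMatrix (Matrix.single i j x) = Matrix.single i j (abel x) := by
  apply Matrix.ext
  intro p q
  have h1 : abel.mapMatrix (Matrix.single i j x) p q = abel (Matrix.single i j x p q) := rfl
  rw [h1, Matrix.single_apply, Matrix.single_apply]
  split_ifs
  · rfl
  · exact map_zero abel

theorem ev_idem (v : Fin 2) : ev (idem Qc v) = Matrix.single v v 1 := by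
  have h1 : ev (idem Qc v) = abel.mapMatrix (Matrix.single v v (1 : NPS (Fin 4))) := rfl
  rw [h1, cfev_map_single, map_one]

theorem ev_arr (a : Fin 4) :
    ev (arr Qc a) = Matrix.single (Qc.src a) (Qc.tgt a) (X a : MvPowerSeries (Fin 4) ℂ) := by
  have h1 : ev (arr Qc a) =
      abel.mapMatrix (Matrix.single (Qc.src a) (Qc.tgt a) (NPS.var a : NPS (Fin 4))) := rfl
  rw [h1, cfev_map_single, cfev_abel_var]

section Words

variable {V E : Type} [Fintype V] [DecidableEq V] [DecidableEq E] {Q : Qv V E}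

private theorem cfev_arr4 {a b c d : E} (hab : Q.tgt a = Q.src b) (hbc : Q.tgt b = Q.src c)
    (hcd : Q.tgt c = Q.src d) (i j : V) (l : List E) :
    (arr Q a * arr Q b * arr Q c * arr Q d).cf i j l =
      if i = Q.src a ∧ j = Q.tgt d ∧ l = [a, b, c, d] then 1 else 0 := by
  rw [mul_assoc, mul_assoc, cf_arr_mul, ← mul_assoc, cf_arr3 hbc hcd]
  rcases l with _ | ⟨x, l⟩
  · simp
  · simp only [List.head?_cons, Option.some.injEq, List.tail_cons, List.cons.injEq, hab, true_and]
    by_cases h1 : i = Q.src a <;> by_cases h2 : x = a <;> by_cases h3 : j = Q.tgt d <;>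
      by_cases h4 : l = [b, c, d] <;> simp [h1, h2, h3, h4]

private theorem cfev_cyc4 {a b c d : E} (hab : Q.tgt a = Q.src b) (hbc : Q.tgt b = Q.src c)
    (hcd : Q.tgt c = Q.src d) (hda : Q.tgt d = Q.src a) (x : E) :
    cyc x (arr Q a * arr Q b * arr Q c * arr Q d) =
      (if x = a then arr Q b * arr Q c * arr Q d else 0)
      + (if x = b then arr Q c * arr Q d * arr Q a else 0)
      + (if x = c then arr Q d * arr Q a * arr Q b else 0)
      + (if x = d then arr Q a * arr Q b * arr Q c else 0) := by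
  apply Hat.ext_cf
  intro i j l
  rw [cf_cyc, Hat.cf_add, Hat.cf_add, Hat.cf_add]
  have e1 : (if x = a then arr Q b * arr Q c * arr Q d else 0).cf i j l =
      if x = a ∧ i = Q.tgt x ∧ j = Q.src x ∧ l = [b, c, d] then (1 : ℂ) else 0 := by
    by_cases h : x = a
    · subst h
      rw [if_pos rfl, cf_arr3 hbc hcd, hab, hda]
      simp
    · rw [if_neg h, Hat.cf_zero, if_neg (fun h' => h h'.1)]
  have e2 : (if x = b then arr Q c * arr Q d * arr Q a else 0).cf i j l =
      if x = b ∧ i = Q.tgt x ∧ j = Q.src x ∧ l = [c, d, a] then (1 : ℂ) else 0 := by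
    by_cases h : x = b
    · subst h
      rw [if_pos rfl, cf_arr3 hcd hda, hab, hbc]
      simp
    · rw [if_neg h, Hat.cf_zero, if_neg (fun h' => h h'.1)]
  have e3 : (if x = c then arr Q d * arr Q a * arr Q b else 0).cf i j l =
      if x = c ∧ i = Q.tgt x ∧ j = Q.src x ∧ l = [d, a, b] then (1 : ℂ) else 0 := by
    by_cases h : x = c
    · subst h
      rw [if_pos rfl, cf_arr3 hda hab, hbc, hcd]
      simp
    · rw [if_neg h, Hat.cf_zero, if_neg (fun h' => h h'.1)]
  have e4 : (if x = d then arr Q a * arr Q b * arr Q c else 0).cf i j l =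
      if x = d ∧ i = Q.tgt x ∧ j = Q.src x ∧ l = [a, b, c] then (1 : ℂ) else 0 := by
    by_cases h : x = d
    · subst h
      rw [if_pos rfl, cf_arr3 hab hbc, hcd, hda]
      simp
    · rw [if_neg h, Hat.cf_zero, if_neg (fun h' => h h'.1)]
  rw [e1, e2, e3, e4]
  by_cases hij : i = Q.tgt x ∧ j = Q.src x
  · rw [if_pos hij]
    have hs : ∀ k, ∑ v, (arr Q a * arr Q b * arr Q c * arr Q d).cf v v
        (l.drop k ++ x :: l.take k) =
        if l.drop k ++ x :: l.take k = [a, b, c, d] then (1 : ℂ) else 0 := by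
      intro k
      rw [Finset.sum_eq_single (Q.src a)]
      · rw [cfev_arr4 hab hbc hcd]
        simp [hda]
      · intro v _ hv
        rw [cfev_arr4 hab hbc hcd, if_neg (fun h' => hv h'.1)]
      · intro h; exact absurd (Finset.mem_univ _) h
    rw [Finset.sum_comm]
    simp only [hs]
    have hlen0 : ∀ k, l.length ≠ 3 → ¬ l.drop k ++ x :: l.take k = [a, b, c, d] := by
      intro k h2 h
      have := congrArg List.length h
      simp only [List.length_append, List.length_cons, List.length_drop, List.length_take,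
        List.length_nil] at this
      omega
    rcases l with _ | ⟨p, _ | ⟨q, _ | ⟨r, _ | ⟨s, l⟩⟩⟩⟩
    · simp
    · simp [hlen0 _ (show ([p] : List E).length ≠ 3 by simp)]
    · simp [hlen0 _ (show ([p, q] : List E).length ≠ 3 by simp)]
    · simp only [List.length_cons, List.length_nil, Finset.sum_range_succ, Finset.sum_range_zero,
        List.drop_zero, List.take_zero, List.drop_succ_cons, List.take_succ_cons, List.cons_append,
        List.nil_append, List.cons.injEq, and_true, hij, true_and, zero_add]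
      have h1 : (p = a ∧ q = b ∧ r = c ∧ x = d) ↔ (x = d ∧ p = a ∧ q = b ∧ r = c) := by tauto
      have h2 : (q = a ∧ r = b ∧ x = c ∧ p = d) ↔ (x = c ∧ p = d ∧ q = a ∧ r = b) := by tauto
      have h3 : (r = a ∧ x = b ∧ p = c ∧ q = d) ↔ (x = b ∧ p = c ∧ q = d ∧ r = a) := by tauto
      rw [if_congr h1 rfl rfl, if_congr h2 rfl rfl, if_congr h3 rfl rfl]
      ring
    · simp [hlen0 _ (show (p :: q :: r :: s :: l).length ≠ 3 by simp)]
  · rw [if_neg hij, if_neg (fun h => hij ⟨h.2.1, h.2.2.1⟩), if_neg (fun h => hij ⟨h.2.1, h.2.2.1⟩),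
      if_neg (fun h => hij ⟨h.2.1, h.2.2.1⟩), if_neg (fun h => hij ⟨h.2.1, h.2.2.1⟩)]
    simp

end Words

private theorem cfev_cyc (x : Fin 4) : cyc x Wc =
    ((if x = 0 then arr Qc 2 * arr Qc 1 * arr Qc 3 else 0)
      + (if x = 2 then arr Qc 1 * arr Qc 3 * arr Qc 0 else 0)
      + (if x = 1 then arr Qc 3 * arr Qc 0 * arr Qc 2 else 0)
      + (if x = 3 then arr Qc 0 * arr Qc 2 * arr Qc 1 else 0)) -
    ((if x = 0 then arr Qc 3 * arr Qc 1 * arr Qc 2 else 0)
      + (if x = 3 then arr Qc 1 * arr Qc 2 * arr Qc 0 else 0)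
      + (if x = 1 then arr Qc 2 * arr Qc 0 * arr Qc 3 else 0)
      + (if x = 2 then arr Qc 0 * arr Qc 3 * arr Qc 1 else 0)) := by
  rw [Wc, cyc_sub', cfev_cyc4 (by decide) (by decide) (by decide) (by decide),
    cfev_cyc4 (by decide) (by decide) (by decide) (by decide)]

theorem cyc_Wc : cyc 0 Wc = arr Qc 2 * arr Qc 1 * arr Qc 3 - arr Qc 3 * arr Qc 1 * arr Qc 2 ∧
    cyc 1 Wc = arr Qc 3 * arr Qc 0 * arr Qc 2 - arr Qc 2 * arr Qc 0 * arr Qc 3 ∧
    cyc 2 Wc = arr Qc 1 * arr Qc 3 * arr Qc 0 - arr Qc 0 * arr Qc 3 * arr Qc 1 ∧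
    cyc 3 Wc = arr Qc 0 * arr Qc 2 * arr Qc 1 - arr Qc 1 * arr Qc 2 * arr Qc 0 := by
  refine ⟨?_, ?_, ?_, ?_⟩ <;> rw [cfev_cyc] <;> simp

private theorem cfev_arr_of (a : Fin 4) (i j : Fin 2) (hi : Qc.src a = i) (hj : Qc.tgt a = j) :
    ev (arr Qc a) = Matrix.single i j (X a : MvPowerSeries (Fin 4) ℂ) := by
  rw [ev_arr, hi, hj]

theorem ev_cyc (a : Fin 4) : ev (cyc a Wc) = 0 := by
  have h0 := cfev_arr_of 0 1 0 rfl rfl
  have h1 := cfev_arr_of 1 1 0 rfl rfl
  have h2 := cfev_arr_of 2 0 1 rfl rfl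
  have h3 := cfev_arr_of 3 0 1 rfl rfl
  obtain ⟨c0, c1, c2, c3⟩ := cyc_Wc
  have key : ∀ (i j : Fin 2) (x y z : MvPowerSeries (Fin 4) ℂ),
      Matrix.single i j (x * y * z) - Matrix.single i j (z * y * x) =
        (0 : Matrix (Fin 2) (Fin 2) (MvPowerSeries (Fin 4) ℂ)) := by
    intro i j x y z
    rw [show z * y * x = x * y * z by ring, sub_self]
  fin_cases a
  · show ev (cyc 0 Wc) = 0
    rw [c0, map_sub, map_mul, map_mul, map_mul, map_mul, h1, h2, h3,
      Matrix.single_mul_single_same, Matrix.single_mul_single_same,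
      Matrix.single_mul_single_same, Matrix.single_mul_single_same]
    exact key _ _ _ _ _
  · show ev (cyc 1 Wc) = 0
    rw [c1, map_sub, map_mul, map_mul, map_mul, map_mul, h0, h2, h3,
      Matrix.single_mul_single_same, Matrix.single_mul_single_same,
      Matrix.single_mul_single_same, Matrix.single_mul_single_same]
    exact key _ _ _ _ _
  · show ev (cyc 2 Wc) = 0
    rw [c2, map_sub, map_mul, map_mul, map_mul, map_mul, h0, h1, h3,
      Matrix.single_mul_single_same, Matrix.single_mul_single_same,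
      Matrix.single_mul_single_same, Matrix.single_mul_single_same]
    exact key _ _ _ _ _
  · show ev (cyc 3 Wc) = 0
    rw [c3, map_sub, map_mul, map_mul, map_mul, map_mul, h0, h1, h2,
      Matrix.single_mul_single_same, Matrix.single_mul_single_same,
      Matrix.single_mul_single_same, Matrix.single_mul_single_same]
    exact key _ _ _ _ _

end Conifold

end Pool.Agent.Flop
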