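import Pool.Agent.Lib.FlA.CfEv
import Pool.Agent.Lib.FlA.Bs1

/-!
# CfKer: conifold example: the kernel of the evaluation is the Jacobi ideal

(⇐) The kernel K := {f | ev f = 0} is a closed (IsCl) two-sided ideal: closed because the coefficient at e of ev f depends only on the coefficients of f at words of length e.degree (coeff_ev, length_eq_degree). jac_min (grep jac_min: closed, left and right stable submodules which contain all cyc a W contain jac W) and ev_cyc. (⇒) J := Submodule.span ℂ {x | ∃ a p q, x = p * cyc a Wc * q}; it is stable under left and right multiplication. Let w i l := word Qc i l (grep `word` in NAWord.lean: cf_word, word_append or similar; the path l as an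
element). (1) `swap`: if x :: y :: z :: l is a path from i then x and z have the same source, x y z - z y x is 0 or ± cyc c Wc for some c (four cases of cyc_Wc if x ≠ z; x = z: 0), so word i (x :: y :: z :: l) - word i (z :: y :: x :: l) ∈ J. (2) `front`: let l be a path from i to j, c ∈ l an arrow with Qc.src c = i. Then there is a path c :: l'' from i to j with cnt (c :: l'') = cnt l and word i l - word i (c :: l'') ∈ J. Strong induction on the length: l = c :: _: trivial. l = x :: y :: l'
with c ∈ y :: l' (x ≠ c): c ≠ y as the sources differ, so c ∈ l', l' is a path from i; induction: l' ~ c :: l3, so l ~ x :: y :: c :: l3 ~ c :: y :: x :: l3 by swap. (3) `same`: l, l' paths from i to j with cnt l = cnt l': word i l - word i l' ∈ J: induction on the length: both empty: 0; l' = c :: l'': c ∈ l (count), front: l ~ c :: l3 with cnt l3 = cnt l'', both paths from tgt c to j; word i (c :: l) = arr c * word (tgt c) l. (4) Let ev f = 0 and n given (jac Wc = cl J: mem_cl: for all n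
there is g ∈ J with f - g ∈ Fil n, use that form). f ≡ ∑ i, ∑ j, ∑ over words l of length < n of f.cf i j l • word i l modulo Fil n (only paths from i to j contribute; or: f ≡ ∑ i j e, ∑ l ∈ words e ... over the finitely many e with e.degree < n). For fixed i, j, e: the sum ∑ l ∈ words e, f.cf i j l • word i l with ∑ l ∈ words e, f.cf i j l = 0 (coeff_ev): if some l0 has nonzero coefficient it equals ∑ l, f.cf i j l • (word i l - word i l0) ∈ J by same (Hat.cf_path), else 0.
-/

set_option autoImplicit false

namespace Pool.Agent.Flop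

namespace Conifold

open Finset MvPowerSeries

private noncomputable def ckJ : Submodule ℂ (Hat Qc) :=
  Submodule.span ℂ {x | ∃ (a : Fin 4) (p q : Hat Qc), x = p * cyc a Wc * q}

private theorem ck_ml (z : Hat Qc) {f : Hat Qc} (hs : f ∈ ckJ) : z * f ∈ ckJ := by
  induction hs using Submodule.span_induction with
  | mem x h =>
    obtain ⟨a, p, q, rfl⟩ := h
    exact Submodule.subset_span ⟨a, z * p, q, by simp only [mul_assoc]⟩
  | zero => rw [mul_zero]; exact zero_mem _
  | add x y _ _ h1 h2 => rw [mul_add]; exact add_mem h1 h2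
  | smul c x _ h => rw [mul_smul_comm]; exact Submodule.smul_mem _ _ h

private theorem ck_mr (z : Hat Qc) {f : Hat Qc} (hs : f ∈ ckJ) : f * z ∈ ckJ := by
  induction hs using Submodule.span_induction with
  | mem x h =>
    obtain ⟨a, p, q, rfl⟩ := h
    exact Submodule.subset_span ⟨a, p, q * z, by simp only [mul_assoc]⟩
  | zero => rw [zero_mul]; exact zero_mem _
  | add x y _ _ h1 h2 => rw [add_mul]; exact add_mem h1 h2
  | smul c x _ h => rw [smul_mul_assoc]; exact Submodule.smul_mem _ _ h

private theorem ck_cyc (a : Fin 4) : cyc a Wc ∈ ckJ :=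
  Submodule.subset_span ⟨a, 1, 1, by rw [one_mul, mul_one]⟩

private theorem ck_jac (f : Hat Qc) : f ∈ jac Wc ↔ ∀ n, ∃ s ∈ ckJ, f - s ∈ Fil Qc n :=
  mem_cl

private theorem ck_tri : ∀ x y z : Fin 4, Qc.tgt x = Qc.src y → Qc.tgt y = Qc.src z →
    x = z ∨ (x = 2 ∧ y = 1 ∧ z = 3) ∨ (x = 3 ∧ y = 1 ∧ z = 2) ∨ (x = 3 ∧ y = 0 ∧ z = 2) ∨
    (x = 2 ∧ y = 0 ∧ z = 3) ∨ (x = 1 ∧ y = 3 ∧ z = 0) ∨ (x = 0 ∧ y = 3 ∧ z = 1) ∨
    (x = 0 ∧ y = 2 ∧ z = 1) ∨ (x = 1 ∧ y = 2 ∧ z = 0) := by
  decide

private theorem ck_two : ∀ x y : Fin 4, Qc.tgt x = Qc.src y → Qc.tgt y = Qc.src x := by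
  decide

private theorem ck_ne : ∀ x : Fin 4, Qc.tgt x ≠ Qc.src x := by
  decide

private theorem ck_st : ∀ x y : Fin 4, Qc.src x = Qc.src y → Qc.tgt x = Qc.tgt y := by
  decide

private theorem ck_swap (x y z : Fin 4) (h1 : Qc.tgt x = Qc.src y) (h2 : Qc.tgt y = Qc.src z) :
    arr Qc x * arr Qc y * arr Qc z - arr Qc z * arr Qc y * arr Qc x ∈ ckJ := by
  obtain ⟨c0, c1, c2, c3⟩ := cyc_Wc
  rcases ck_tri x y z h1 h2 with h | h | h | h | h | h | h | h | h
  · subst h
    rw [sub_self]
    exact zero_mem _
  · obtain ⟨rfl, rfl, rfl⟩ := h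
    rw [← c0]
    exact ck_cyc 0
  · obtain ⟨rfl, rfl, rfl⟩ := h
    rw [← neg_sub, ← c0]
    exact neg_mem (ck_cyc 0)
  · obtain ⟨rfl, rfl, rfl⟩ := h
    rw [← c1]
    exact ck_cyc 1
  · obtain ⟨rfl, rfl, rfl⟩ := h
    rw [← neg_sub, ← c1]
    exact neg_mem (ck_cyc 1)
  · obtain ⟨rfl, rfl, rfl⟩ := h
    rw [← c2]
    exact ck_cyc 2
  · obtain ⟨rfl, rfl, rfl⟩ := h
    rw [← neg_sub, ← c2]
    exact neg_mem (ck_cyc 2)
  · obtain ⟨rfl, rfl, rfl⟩ := h
    rw [← c3]
    exact ck_cyc 3
  · obtain ⟨rfl, rfl, rfl⟩ := h
    rw [← neg_sub, ← c3]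
    exact neg_mem (ck_cyc 3)

private theorem ck_wcons (i : Fin 2) (a : Fin 4) (l : List (Fin 4)) (h : Qc.src a = i) :
    word Qc i (a :: l) = arr Qc a * word Qc (Qc.tgt a) l := by
  subst h
  unfold word
  rw [List.map_cons, List.prod_cons, ← mul_assoc, idem_mul_arr, ← mul_assoc, arr_mul_idem]

private theorem ck_wcons3 (x y z : Fin 4) (l : List (Fin 4)) (h1 : Qc.tgt x = Qc.src y)
    (h2 : Qc.tgt y = Qc.src z) : word Qc (Qc.src x) (x :: y :: z :: l) =
      arr Qc x * arr Qc y * arr Qc z * word Qc (Qc.tgt z) l := by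
  rw [ck_wcons _ x _ rfl, ck_wcons _ y _ h1.symm, ck_wcons _ z _ h2.symm]
  simp only [mul_assoc]

private theorem ck_front : ∀ (n : ℕ) (l : List (Fin 4)) (i j : Fin 2) (c : Fin 4),
    l.length = n → Qc.IsPath i l j → c ∈ l → Qc.src c = i →
    ∃ l'', Qc.IsPath i (c :: l'') j ∧ cnt (c :: l'') = cnt l ∧
      word Qc i l - word Qc i (c :: l'') ∈ ckJ := by
  intro n
  induction n using Nat.strong_induction_on with
  | _ n ih =>
    intro l i j c hn hp hc hi
    cases l with
    | nil => simp at hc
    | cons x rest =>
      by_cases hxc : x = c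
      · subst hxc
        refine ⟨rest, hp, rfl, ?_⟩
        rw [sub_self]
        exact zero_mem _
      · have hx : Qc.src x = i := hp.1
        have hp1 : Qc.IsPath (Qc.tgt x) rest j := hp.2
        have hcr : c ∈ rest := by
          rcases List.mem_cons.1 hc with h | h
          · exact absurd h.symm hxc
          · exact h
        cases rest with
        | nil => simp at hcr
        | cons y l' =>
          have hy : Qc.src y = Qc.tgt x := hp1.1
          have hp2 : Qc.IsPath (Qc.tgt y) l' j := hp1.2
          have hyi : Qc.tgt y = i := by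
            rw [← hx]
            exact ck_two x y hy.symm
          have hcy : c ≠ y := by
            intro h
            subst h
            exact ck_ne x (by rw [← hy, hi, hx])
          have hcl : c ∈ l' := by
            rcases List.mem_cons.1 hcr with h | h
            · exact absurd h hcy
            · exact h
          have hlen : l'.length < n := by
            rw [← hn]
            simp only [List.length_cons]
            omega
          obtain ⟨l3, h3, h4, h5⟩ := ih l'.length hlen l' i j c rfl (by rw [← hyi]; exact hp2)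
            hcl hi
          have hct : Qc.tgt c = Qc.tgt x := ck_st c x (by rw [hi, hx])
          refine ⟨y :: x :: l3, ?_, ?_, ?_⟩
          · refine ⟨hi, ?_⟩
            refine ⟨by rw [hct]; exact hy, ?_⟩
            refine ⟨by rw [hyi]; exact hx, ?_⟩
            rw [← hct]
            exact h3.2
          · ext k
            have h6 := DFunLike.congr_fun h4 k
            simp only [cnt_apply, List.count_cons] at h6 ⊢
            omega
          · have e1 : word Qc i (x :: y :: l') = arr Qc x * arr Qc y * word Qc i l' := by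
              rw [ck_wcons i x _ hx, ck_wcons _ y _ hy, hyi, ← mul_assoc]
            have e2 : word Qc i (x :: y :: c :: l3) = arr Qc x * arr Qc y * word Qc i (c :: l3) := by
              rw [ck_wcons i x _ hx, ck_wcons _ y _ hy, hyi, ← mul_assoc]
            have e3 : word Qc i (x :: y :: c :: l3) =
                arr Qc x * arr Qc y * arr Qc c * word Qc (Qc.tgt c) l3 := by
              rw [← hx]
              exact ck_wcons3 x y c l3 hy.symm (by rw [hyi, hi])
            have e4 : word Qc i (c :: y :: x :: l3) =
                arr Qc c * arr Qc y * arr Qc x * word Qc (Qc.tgt x) l3 := by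
              rw [← hi]
              exact ck_wcons3 c y x l3 (by rw [hct, hy]) (by rw [hyi, hx])
            have h6 : word Qc i (x :: y :: l') - word Qc i (x :: y :: c :: l3) ∈ ckJ := by
              rw [e1, e2, ← mul_sub]
              exact ck_ml _ h5
            have h7 : word Qc i (x :: y :: c :: l3) - word Qc i (c :: y :: x :: l3) ∈ ckJ := by
              rw [e3, e4, hct, ← sub_mul]
              exact ck_mr _ (ck_swap x y c hy.symm (by rw [hyi, hi]))
            have h8 := add_mem h6 h7
            rwa [sub_add_sub_cancel] at h8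

private theorem ck_same : ∀ (l' l : List (Fin 4)) (i j : Fin 2), Qc.IsPath i l j →
    Qc.IsPath i l' j → cnt l = cnt l' → word Qc i l - word Qc i l' ∈ ckJ := by
  intro l'
  induction l' with
  | nil =>
    intro l i j _ _ h
    have h1 : l.length = 0 := by
      rw [length_eq_degree, h, ← length_eq_degree, List.length_nil]
    rw [List.length_eq_zero_iff.1 h1, sub_self]
    exact zero_mem _
  | cons c l'' ih =>
    intro l i j hp hp' h
    have hc : c ∈ l := by
      have h1 := DFunLike.congr_fun h c
      rw [cnt_apply, cnt_apply, List.count_cons_self] at h1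
      exact List.count_pos_iff.1 (by omega)
    have hci : Qc.src c = i := hp'.1
    obtain ⟨l3, h3, h4, h5⟩ := ck_front l.length l i j c rfl hp hc hci
    have h6 : cnt l3 = cnt l'' := by
      ext k
      have h7 := DFunLike.congr_fun (h4.trans h) k
      simp only [cnt_apply, List.count_cons] at h7 ⊢
      omega
    have h7 := ck_ml (arr Qc c) (ih l3 (Qc.tgt c) j h3.2 hp'.2 h6)
    rw [mul_sub, ← ck_wcons i c l3 hci, ← ck_wcons i c l'' hci] at h7
    have h8 := add_mem h5 h7
    rwa [sub_add_sub_cancel] at h8

private theorem ck_fiber (f : Hat Qc) (hf : ev f = 0) (i j : Fin 2) (e : Fin 4 →₀ ℕ) :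
    ∑ l ∈ words e, f.cf i j l • word Qc i l ∈ ckJ := by
  by_cases h : ∀ l ∈ words e, f.cf i j l = 0
  · rw [Finset.sum_eq_zero]
    · exact zero_mem _
    · intro l hl
      rw [h l hl, zero_smul]
  · push Not at h
    obtain ⟨l0, hl0, h0⟩ := h
    have h1 : ∑ l ∈ words e, f.cf i j l = 0 := by
      rw [← coeff_ev, hf]
      exact map_zero _
    have h2 : ∑ l ∈ words e, f.cf i j l • word Qc i l =
        ∑ l ∈ words e, f.cf i j l • (word Qc i l - word Qc i l0) := by
      simp only [smul_sub]
      rw [Finset.sum_sub_distrib, ← Finset.sum_smul, h1, zero_smul, sub_zero]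
    rw [h2]
    refine Submodule.sum_mem _ fun l hl => ?_
    by_cases h3 : f.cf i j l = 0
    · rw [h3, zero_smul]
      exact zero_mem _
    · refine Submodule.smul_mem _ _ ?_
      refine ck_same l0 l i j (Hat.cf_path f h3) (Hat.cf_path f h0) ?_
      rw [mem_words.1 hl, mem_words.1 hl0]

private theorem ck_uniq (i j j' : Fin 2) (l : List (Fin 4)) (h : Qc.IsPath i l j)
    (h' : Qc.IsPath i l j') : j = j' := by
  induction l generalizing i with
  | nil => exact Eq.trans (Eq.symm h) h'
  | cons a l ih => exact ih _ h.2 h'.2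

private theorem ck_le (f : Hat Qc) (hf : ev f = 0) : f ∈ jac Wc := by
  classical
  rw [ck_jac]
  intro n
  have hfin : {l : List (Fin 4) | l.length < n}.Finite := List.finite_length_lt (Fin 4) n
  set S : Finset (List (Fin 4)) := hfin.toFinset with hS
  have hmem : ∀ l, l ∈ S ↔ l.length < n := fun l => hfin.mem_toFinset
  refine ⟨∑ i, ∑ j, ∑ l ∈ S, f.cf i j l • word Qc i l, ?_, ?_⟩
  · refine Submodule.sum_mem _ fun i _ => Submodule.sum_mem _ fun j _ => ?_
    rw [← Finset.sum_fiberwise_of_maps_to (s := S) (t := S.image cnt) (g := cnt)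
      (fun l hl => Finset.mem_image_of_mem _ hl)]
    refine Submodule.sum_mem _ fun e he => ?_
    obtain ⟨l1, hl1, rfl⟩ := Finset.mem_image.1 he
    have h1 : S.filter (fun l => cnt l = cnt l1) = words (cnt l1) := by
      ext l
      rw [Finset.mem_filter, mem_words, hmem]
      constructor
      · exact fun h => h.2
      · intro h
        refine ⟨?_, h⟩
        rw [length_eq_degree, h, ← length_eq_degree]
        exact (hmem l1).1 hl1
    rw [h1]
    exact ck_fiber f hf i j _
  · rw [mem_Fil]
    intro p q w hw
    rw [Hat.cf_sub, Hat.cf_sum, sub_eq_zero]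
    simp only [Hat.cf_sum, Hat.cf_smul, cf_word]
    rw [Finset.sum_eq_single p]
    · rw [Finset.sum_eq_single q]
      · rw [Finset.sum_eq_single w]
        · by_cases h0 : f.cf p q w = 0
          · rw [h0, zero_mul]
          · rw [if_pos ⟨rfl, rfl, Hat.cf_path f h0⟩, mul_one]
        · intro l _ hl
          rw [if_neg fun h => hl h.2.1.symm, mul_zero]
        · intro h
          exact absurd ((hmem w).2 hw) h
      · intro j _ hj
        refine Finset.sum_eq_zero fun l _ => ?_
        by_cases h0 : f.cf p j l = 0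
        · rw [h0, zero_mul]
        · rw [if_neg, mul_zero]
          rintro ⟨_, _, h⟩
          exact hj (ck_uniq p j q l (Hat.cf_path f h0) h)
      · intro h
        exact absurd (Finset.mem_univ q) h
    · intro i _ hi
      refine Finset.sum_eq_zero fun j _ => Finset.sum_eq_zero fun l _ => ?_
      rw [if_neg fun h => hi h.1.symm, mul_zero]
    · intro h
      exact absurd (Finset.mem_univ p) h

private noncomputable def ckK : Submodule ℂ (Hat Qc) := LinearMap.ker ev.toLinearMap

private theorem ck_mem (f : Hat Qc) : f ∈ ckK ↔ ev f = 0 := LinearMap.mem_ker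

private theorem ck_cl : IsCl ckK := by
  intro f hf
  rw [ck_mem]
  refine Matrix.ext fun i j => MvPowerSeries.ext fun e => ?_
  obtain ⟨s, hs, h⟩ := hf (e.degree + 1)
  rw [coeff_ev]
  have h1 : ∑ l ∈ words e, f.cf i j l = ∑ l ∈ words e, s.cf i j l := by
    refine Finset.sum_congr rfl fun l hl => ?_
    have h2 := mem_Fil.1 h i j l (by rw [length_eq_degree, mem_words.1 hl]; omega)
    rw [Hat.cf_sub] at h2
    exact sub_eq_zero.1 h2
  rw [h1, ← coeff_ev, (ck_mem s).1 hs]

theorem ev_eq_zero_iff (f : Hat Qc) : ev f = 0 ↔ f ∈ jac Wc := by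
  constructor
  · exact ck_le f
  · intro h
    refine (ck_mem f).1 (jac_min ck_cl ?_ ?_ ?_ h)
    · intro z g hg
      rw [ck_mem] at hg ⊢
      rw [map_mul, hg, mul_zero]
    · intro z g hg
      rw [ck_mem] at hg ⊢
      rw [map_mul, hg, zero_mul]
    · intro a
      rw [ck_mem]
      exact ev_cyc a

end Conifold

end Pool.Agent.Flop
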