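import Pool.Agent.Lib.FlA.OdB
import Pool.Agent.Lib.MP_03045c_ag.QuotDer

/-!
# PrsB: presentations: the maximal ideal, derivations, Hamiltonian derivations

`ne_zero`: if g = 0 then iso says Od 4 N <= span {0} = ⊥, but X_0^N is in Od 4 N and <> 0. `mem_max`: R is local (instance), θ surjective: θ p unit iff constantCoeff p <> 0: (<=) p unit. (=>) if θ p is a unit with inverse θ q: θ (p q - 1) = 0, g | p q - 1, constantCoeff g = 0, so constantCoeff p * constantCoeff q = 1. `max_pow`: θ maps Od 4 N = m_P^N onto m_R^N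
(Od_eq, Ideal.map_pow, surjective): r in m^N implies r = θ p with p in Od 4 N. `iso_R`: Od 4 N <= (g, ∂g) maps to m^N <= span (θ ∂_i g). `der_max`: v : R -> R derivation. CHAIN RULE: v (θ p) = sum_i θ (pderiv i p) * v (θ (X i)): `derivation_quot` (Pool/Agent/Lib/MP_03045c_ag/QuotDer.lean) is for P/I; here: the difference of both sides is a derivation P -> R
(R as a P-module via θ) killing the X_i, hence killing polynomials and, as it maps m_P^(N+1) into m_R^N, it is 0 by Krull in R (Noetherian local); or transport derivation_quot along R = P/(g). STEP: J := span (θ ∂_i g) is v-stable: put V i in P with θ (V i) = v (θ (X i)). v (θ g) = 0 gives g | sum V i * ∂_i g, = g h. Apply ∂_j: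
sum V i ∂_i ∂_j g = ∂_j (g h) - sum (∂_j V i) ∂_i g; apply θ: v (θ (∂_j g)) = θ(h) θ(∂_j g) - sum θ(∂_j V i) θ(∂_i g) in J. J contains m^N (iso_R), J <= m (two). If x in m and v x not in m (unit): take the least k with x^k in J (k >= 1 exists as m^N <= J; 1 not in J): v (x^k) = k x^(k-1) v x in J, so x^(k-1) in J (k is invertible in the ℂ-algebra R): contradiction.
`exists_ham`: δ (θ p) := θ (∂_i g * ∂_j p - ∂_j g * ∂_i p): well defined since it kills... for p = g q: ∂_i g ∂_j (g q) - ∂_j g ∂_i (g q) = g (∂_i g ∂_j q - ∂_j g ∂_i q): divisible by g. Construct the derivation via surjectivity (`Function.surjInv`) or `Derivation.mk'`/liftOfSurjective.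
-/

set_option autoImplicit false

namespace Pool.Agent.Flop

open Finset MvPowerSeries

variable {R : Type} [CommRing R] [IsLocalRing R] [IsNoetherianRing R] [Algebra ℂ R]
  {g : MvPowerSeries (Fin 4) ℂ} {θ : MvPowerSeries (Fin 4) ℂ →ₐ[ℂ] R}

private theorem prsB_comm (i j : Fin 4) (f : MvPowerSeries (Fin 4) ℂ) :
    pderiv ℂ i (pderiv ℂ j f) = pderiv ℂ j (pderiv ℂ i f) := by
  ext d
  rw [coeff_pderiv, coeff_pderiv, coeff_pderiv, coeff_pderiv]
  by_cases hij : i = j
  · subst hij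
    rfl
  · have h1 : ((d + Finsupp.single i 1 : Fin 4 →₀ ℕ)) j = d j := by
      rw [Finsupp.add_apply, Finsupp.single_eq_of_ne (Ne.symm hij), add_zero]
    have h2 : ((d + Finsupp.single j 1 : Fin 4 →₀ ℕ)) i = d i := by
      rw [Finsupp.add_apply, Finsupp.single_eq_of_ne hij, add_zero]
    rw [h1, h2, add_right_comm]
    ring

private theorem prsB_const (hg : g ∈ Od 4 2) : constantCoeff g = 0 :=
  mem_Od_one.mp (Od_anti one_le_two hg)

private theorem prsB_X (i : Fin 4) : (X i : MvPowerSeries (Fin 4) ℂ) ∈ Od 4 1 :=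
  mem_Od_one.mpr (constantCoeff_X i)

private theorem prsB_X_pow (N : ℕ) : (X 0 : MvPowerSeries (Fin 4) ℂ) ^ N ∈ Od 4 N := by
  have h := prsB_X 0
  rw [Od_eq, pow_one] at h
  rw [Od_eq]
  exact Ideal.pow_mem_pow h N

private theorem prsB_X_ne : (X 0 : MvPowerSeries (Fin 4) ℂ) ≠ 0 := by
  intro h
  have := congrArg (coeff (Finsupp.single (0 : Fin 4) 1)) h
  rw [coeff_index_single_self_X, map_zero] at this
  exact one_ne_zero this

private theorem prsB_mem {p : MvPowerSeries (Fin 4) ℂ} :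
    p ∈ IsLocalRing.maximalIdeal (MvPowerSeries (Fin 4) ℂ) ↔ constantCoeff p = 0 := by
  rw [← mem_Od_one, Od_eq, pow_one]

theorem Prs.ne_zero (h : Prs g θ) : g ≠ 0 := by
  rintro rfl
  obtain ⟨N, hN⟩ := h.iso
  have h2 := hN (prsB_X_pow N)
  have h3 : Ideal.span (insert (0 : MvPowerSeries (Fin 4) ℂ)
      (Set.range fun i => pderiv ℂ i (0 : MvPowerSeries (Fin 4) ℂ))) ≤ ⊥ := by
    rw [Ideal.span_le]
    rintro x (rfl | ⟨i, rfl⟩)
    · exact Ideal.zero_mem _
    · beta_reduce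
      rw [map_zero]
      exact Ideal.zero_mem _
  have h4 := h3 h2
  rw [Ideal.mem_bot] at h4
  exact pow_ne_zero N prsB_X_ne h4

theorem Prs.mem_max (h : Prs g θ) (p : MvPowerSeries (Fin 4) ℂ) :
    θ p ∈ IsLocalRing.maximalIdeal R ↔ constantCoeff p = 0 := by
  constructor
  · intro hp
    by_contra hne
    rw [IsLocalRing.mem_maximalIdeal, mem_nonunits_iff] at hp
    apply hp
    have hu : IsUnit p := by
      rw [MvPowerSeries.isUnit_iff_constantCoeff]
      exact isUnit_iff_ne_zero.mpr hne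
    exact hu.map θ
  · intro hp
    rw [IsLocalRing.mem_maximalIdeal, mem_nonunits_iff]
    intro hu
    obtain ⟨r, hr⟩ := hu.exists_right_inv
    obtain ⟨q, rfl⟩ := h.surj r
    have h1 : θ (p * q - 1) = 0 := by
      rw [map_sub, map_mul, map_one, hr, sub_self]
    obtain ⟨s, hs⟩ := (h.ker _).mp h1
    have h2 := congrArg constantCoeff hs
    rw [map_sub, map_mul, map_mul, map_one, hp, prsB_const h.two, zero_mul, zero_mul,
      zero_sub] at h2
    exact one_ne_zero (neg_eq_zero.mp h2)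

theorem Prs.max_pow (h : Prs g θ) {N : ℕ} {r : R} (hr : r ∈ IsLocalRing.maximalIdeal R ^ N) :
    ∃ p ∈ Od 4 N, θ p = r := by
  have hm : IsLocalRing.maximalIdeal R ≤
      (IsLocalRing.maximalIdeal (MvPowerSeries (Fin 4) ℂ)).map θ := by
    intro x hx
    obtain ⟨p, rfl⟩ := h.surj x
    exact Ideal.mem_map_of_mem _ (prsB_mem.mpr ((h.mem_max p).mp hx))
  have h1 := Ideal.pow_right_mono hm N hr
  rw [← Ideal.map_pow, Ideal.mem_map_iff_of_surjective θ h.surj] at h1
  obtain ⟨p, hp, hpr⟩ := h1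
  exact ⟨p, by rw [Od_eq]; exact hp, hpr⟩

theorem Prs.iso_R (h : Prs g θ) : ∃ N, IsLocalRing.maximalIdeal R ^ N ≤
    Ideal.span (Set.range fun i => θ (pderiv ℂ i g)) := by
  obtain ⟨N, hN⟩ := h.iso
  refine ⟨N, fun r hr => ?_⟩
  obtain ⟨p, hp, rfl⟩ := h.max_pow hr
  have h1 := Ideal.mem_map_of_mem θ (hN hp)
  rw [Ideal.map_span] at h1
  refine (Ideal.span_le.mpr ?_) h1
  rintro x ⟨y, (rfl | ⟨i, rfl⟩), rfl⟩
  · have h0 : θ y = 0 := (h.ker y).mpr dvd_rfl
    rw [SetLike.mem_coe, h0]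
    exact Ideal.zero_mem _
  · exact Ideal.subset_span ⟨i, rfl⟩

theorem Prs.chain (h : Prs g θ) (v : Derivation ℂ R R) (p : MvPowerSeries (Fin 4) ℂ) :
    v (θ p) = ∑ i, θ (pderiv ℂ i p) * v (θ (X i)) := by
  classical
  let e : (MvPowerSeries (Fin 4) ℂ ⧸ RingHom.ker θ) ≃ₐ[ℂ] R :=
    Ideal.quotientKerAlgEquivOfSurjective h.surj
  have he : ∀ a, e (Ideal.Quotient.mk (RingHom.ker θ) a) = θ a := fun a => rfl
  have hs : ∀ a, e.symm (θ a) = Ideal.Quotient.mk (RingHom.ker θ) a := fun a => by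
    rw [← he, AlgEquiv.symm_apply_apply]
  have smul_eq : ∀ (a : MvPowerSeries (Fin 4) ℂ)
      (x : MvPowerSeries (Fin 4) ℂ ⧸ RingHom.ker θ),
      a • x = Ideal.Quotient.mk (RingHom.ker θ) a * x := by
    intro a x
    obtain ⟨x, rfl⟩ := Ideal.Quotient.mk_surjective x
    rfl
  let δ : Derivation ℂ (MvPowerSeries (Fin 4) ℂ) (MvPowerSeries (Fin 4) ℂ ⧸ RingHom.ker θ) :=
    Derivation.mk' (e.symm.toLinearMap ∘ₗ v.toLinearMap ∘ₗ θ.toLinearMap) fun a b => by
      change e.symm (v (θ (a * b))) = a • e.symm (v (θ b)) + b • e.symm (v (θ a))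
      rw [map_mul, Derivation.leibniz, smul_eq_mul, smul_eq_mul, map_add, map_mul, map_mul, hs,
        hs, smul_eq, smul_eq]
  have hδ : ∀ a, δ a = e.symm (v (θ a)) := fun a => rfl
  have h1 := derivation_quot (RingHom.ker θ) δ p
  have h2 := congrArg e h1
  rw [hδ, AlgEquiv.apply_symm_apply, map_sum] at h2
  rw [h2]
  refine Finset.sum_congr rfl fun i _ => ?_
  rw [map_mul, he, hδ, AlgEquiv.apply_symm_apply]

theorem Prs.der_max (h : Prs g θ) (v : Derivation ℂ R R) :
    ∀ r ∈ IsLocalRing.maximalIdeal R, v r ∈ IsLocalRing.maximalIdeal R := by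
  obtain ⟨N, hN⟩ := h.iso_R
  choose V hV using fun i => h.surj (v (θ (X i)))
  have hg0 : θ g = 0 := (h.ker g).mpr dvd_rfl
  have h1 : θ (∑ i, pderiv ℂ i g * V i) = 0 := by
    rw [map_sum]
    have h2 := h.chain v g
    rw [hg0, map_zero] at h2
    rw [h2]
    exact Finset.sum_congr rfl fun i _ => by rw [map_mul, hV]
  obtain ⟨q, hq⟩ := (h.ker _).mp h1
  set J : Ideal R := Ideal.span (Set.range fun i => θ (pderiv ℂ i g)) with hJ
  have hgen : ∀ i, θ (pderiv ℂ i g) ∈ J := fun i => Ideal.subset_span ⟨i, rfl⟩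
  have hstep : ∀ j, v (θ (pderiv ℂ j g)) ∈ J := by
    intro j
    rw [h.chain v]
    have h3 := congrArg (pderiv ℂ j) hq
    have h4 : pderiv ℂ j (∑ i, pderiv ℂ i g * V i) =
        (∑ i, pderiv ℂ i g * pderiv ℂ j (V i)) + ∑ i, pderiv ℂ i (pderiv ℂ j g) * V i := by
      rw [map_sum, ← Finset.sum_add_distrib]
      refine Finset.sum_congr rfl fun i _ => ?_
      rw [Derivation.leibniz, smul_eq_mul, smul_eq_mul, prsB_comm j i]
      ring
    rw [h4, Derivation.leibniz, smul_eq_mul, smul_eq_mul] at h3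
    have h5 := congrArg θ h3
    rw [map_add, map_add, map_mul, hg0, zero_mul, zero_add, map_mul] at h5
    have h6 : ∑ i, θ (pderiv ℂ i (pderiv ℂ j g)) * v (θ (X i)) =
        θ (∑ i, pderiv ℂ i (pderiv ℂ j g) * V i) := by
      rw [map_sum]
      exact Finset.sum_congr rfl fun i _ => by rw [map_mul, hV]
    rw [h6, eq_sub_of_add_eq' h5]
    refine J.sub_mem (J.mul_mem_left _ (hgen j)) ?_
    rw [map_sum]
    refine J.sum_mem fun i _ => ?_
    rw [map_mul]
    exact J.mul_mem_right _ (hgen i)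
  have hvJ : ∀ x ∈ J, v x ∈ J := by
    intro x hx
    refine Submodule.span_induction (p := fun x _ => v x ∈ J) ?_ ?_ ?_ ?_ hx
    · rintro _ ⟨i, rfl⟩
      exact hstep i
    · rw [map_zero]
      exact J.zero_mem
    · intro x y _ _ hx hy
      rw [map_add]
      exact J.add_mem hx hy
    · intro a x hx' hx
      rw [smul_eq_mul, Derivation.leibniz, smul_eq_mul, smul_eq_mul]
      exact J.add_mem (J.mul_mem_left _ hx) (J.mul_mem_right _ hx')
  have hJm : J ≤ IsLocalRing.maximalIdeal R := by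
    rw [hJ, Ideal.span_le]
    rintro _ ⟨i, rfl⟩
    exact (h.mem_max _).mpr (mem_Od_one.mp (pderiv_Od h.two i))
  intro x hx
  by_contra hvx
  have hu : IsUnit (v x) := by
    by_contra hu
    exact hvx ((IsLocalRing.mem_maximalIdeal _).mpr hu)
  have hex : ∃ k, x ^ k ∈ J := ⟨N, hN (Ideal.pow_mem_pow hx N)⟩
  classical
  have hk := Nat.find_spec hex
  have hmin := fun m => @Nat.find_min _ _ hex m
  set k := Nat.find hex with hkdef
  rcases Nat.eq_zero_or_pos k with h0 | hpos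
  · rw [h0, pow_zero] at hk
    exact (IsLocalRing.maximalIdeal.isMaximal R).ne_top
      ((Ideal.eq_top_iff_one _).mpr (hJm hk))
  · have h7 := hvJ _ hk
    rw [Derivation.leibniz_pow, smul_eq_mul] at h7
    have h8 : (k : R) * (x ^ (k - 1) * v x) ∈ J := by
      rwa [← nsmul_eq_mul]
    have hku : IsUnit (k : R) := by
      have : (k : R) = algebraMap ℂ R (k : ℂ) := (map_natCast _ _).symm
      rw [this]
      exact (isUnit_iff_ne_zero.mpr (Nat.cast_ne_zero.mpr hpos.ne')).map _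
    have h9 := (Ideal.unit_mul_mem_iff_mem J hku).mp h8
    have h10 := (Ideal.mul_unit_mem_iff_mem J hu).mp h9
    exact hmin (k - 1) (Nat.sub_lt hpos one_pos) h10

theorem Prs.exists_ham (h : Prs g θ) (i j : Fin 4) : ∃ δ : Derivation ℂ R R, ∀ p,
    δ (θ p) = θ (pderiv ℂ i g * pderiv ℂ j p - pderiv ℂ j g * pderiv ℂ i p) := by
  have hg0 : θ g = 0 := (h.ker g).mpr dvd_rfl
  let F : MvPowerSeries (Fin 4) ℂ →ₗ[ℂ] R := θ.toLinearMap ∘ₗ
    ((LinearMap.mulLeft ℂ (pderiv ℂ i g)) ∘ₗ (pderiv ℂ j).toLinearMap -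
      (LinearMap.mulLeft ℂ (pderiv ℂ j g)) ∘ₗ (pderiv ℂ i).toLinearMap)
  have hF : ∀ p, F p = θ (pderiv ℂ i g * pderiv ℂ j p - pderiv ℂ j g * pderiv ℂ i p) :=
    fun p => rfl
  have hF0 : ∀ p, θ p = 0 → F p = 0 := by
    intro p hp
    obtain ⟨q, rfl⟩ := (h.ker p).mp hp
    rw [hF]
    have h1 : pderiv ℂ i g * pderiv ℂ j (g * q) - pderiv ℂ j g * pderiv ℂ i (g * q) =
        g * (pderiv ℂ i g * pderiv ℂ j q - pderiv ℂ j g * pderiv ℂ i q) := by
      rw [Derivation.leibniz, Derivation.leibniz, smul_eq_mul, smul_eq_mul, smul_eq_mul,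
        smul_eq_mul]
      ring
    rw [h1, map_mul, hg0, zero_mul]
  obtain ⟨s, hs⟩ := LinearMap.exists_rightInverse_of_surjective θ.toLinearMap
    (LinearMap.range_eq_top.mpr h.surj)
  have hs' : ∀ r, θ (s r) = r := fun r => LinearMap.congr_fun hs r
  have key : ∀ p, F (s (θ p)) = F p := by
    intro p
    rw [← sub_eq_zero, ← map_sub]
    apply hF0
    rw [map_sub, hs', sub_self]
  refine ⟨Derivation.mk' (F ∘ₗ s) fun a b => ?_, fun p => ?_⟩
  · obtain ⟨p, rfl⟩ := h.surj a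
    obtain ⟨q, rfl⟩ := h.surj b
    rw [← map_mul]
    change F (s (θ (p * q))) = θ p * F (s (θ q)) + θ q * F (s (θ p))
    rw [key, key, key, hF, hF, hF, ← map_mul, ← map_mul, ← map_add]
    congr 1
    rw [Derivation.leibniz, Derivation.leibniz, smul_eq_mul, smul_eq_mul, smul_eq_mul,
      smul_eq_mul]
    ring
  · exact (key p).trans (hF p)

end Pool.Agent.Flop
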