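import Pool.Agent.Lib.FlA.CfDef
import Pool.Agent.Lib.FlA.PrsB

/-!
# CfPrs: conifold example: the invariant ring is ℂ[[x_1, .., x_4]]/(x_1 x_4 - x_2 x_3)

S = MvPowerSeries (Fin 4) ℂ, g = X 0 * X 3 - X 1 * X 2, c : Fin 4 → S, c = ![X 0 * X 2, X 0 * X 3, X 1 * X 2, X 1 * X 3]. The substitution σ := MvPowerSeries.substAlgHom (ha : HasSubst c) : S →ₐ[ℂ] S (hasSubst_of_constantCoeff_zero; the library uses such substitutions, grep substAlgHom / coeff_subst in Pool/Agent/Lib/FlA, e.g. CSaito, CCo1, PrC, HcG). Exponent map: τ n := the exponent of ∏ c_i ^ n_i: τ n = (n 0 + n 1, n 2 + n 3, n 0 + n 2, n 1 + n 3); coeff e (σ p) = ∑ over n with τ n = e of coeff n p (finitely many n as |τ n| = 2 |n|; from coeff_subst, finsum). `image`: σ p has weight 0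
(wt (τ n) = 0) and every f of weight 0 is σ p: for e with wt e = 0 choose n with τ n = e (e 0 + e 1 = e 2 + e 3: n 0 := min (e 0) (e 2), n 1 := e 0 - n 0, n 2 := e 2 - n 0, n 3 := e 3 - n 1), injective choice; p has the coefficient coeff (τ n) f at n if n is the chosen one for τ n and 0 else. `kernel`: σ p = 0 ↔ g ∣ p. (⇐) σ g = 0. (⇒) Let p be given. Every p is g * q + p' where coeff n p' = 0 if n 1 ≥ 1 and n 2 ≥ 1 (replace X 1 X 2 by X 0 X 3). One way: show p ∈ span {g} ⊔ m ^ N for all N and use that ideals are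
closed (S is Noetherian and local: Ideal.iInf_pow_sup_eq or Krull: `Ideal.iInf_pow_smul_eq_bot_of_isLocalRing` for the module S / (g); the library has instances for Noetherian MvPowerSeries, see Krl, PrL, PrsB). Another way: an explicit q with coeff n q = - ∑_{s ≥ 0, s ≤ min (n 0) (n 3)} coeff (n + (s+1) (single 1 1 + single 2 1) - s (single 0 1 + single 3 1)) p (then coeff n (g q) = coeff (n - e0 - e3) q - coeff (n - e1 - e2) q telescopes). On exponents n with n 1 = 0 or n 2 = 0 the map τ is injective (τ n determines n 0 - ..: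
n 1 - n 2 and n 0 + n 1, n 0 + n 2 determine n if n 1 n 2 = 0), so σ p' = 0 gives p' = 0. `isolated`: g ∈ order 2; the Tjurina ideal contains pderiv 0 g = X 3, pderiv 1 g = - X 2, pderiv 2 g = - X 1, pderiv 3 g = X 0, so every p is C (constantCoeff p) modulo it (p - C .. ∈ span (range X): span_X, mem_Od_one in the library) and the quotient is spanned by 1: Module.Finite. The isomorphism: Ideal.quotientKerAlgEquivOfSurjective for σ with codomain Rt (Rt.mk, or AlgHom.codRestrict to Rc and `show`), with RingHom.ker = span {g} (Ideal.mem_span_singleton).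
-/

set_option autoImplicit false

namespace Pool.Agent.Flop

namespace Conifold

open Finset MvPowerSeries

/-- The exponent with the given entries. -/
private noncomputable def E4 (a b c d : ℕ) : Fin 4 →₀ ℕ := Finsupp.equivFunOnFinite.symm ![a, b, c, d]

private theorem E4_0 (a b c d : ℕ) : E4 a b c d 0 = a := rfl
private theorem E4_1 (a b c d : ℕ) : E4 a b c d 1 = b := rfl
private theorem E4_2 (a b c d : ℕ) : E4 a b c d 2 = c := rfl
private theorem E4_3 (a b c d : ℕ) : E4 a b c d 3 = d := rfl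

private theorem ext4 {n m : Fin 4 →₀ ℕ} (h0 : n 0 = m 0) (h1 : n 1 = m 1) (h2 : n 2 = m 2)
    (h3 : n 3 = m 3) : n = m := by
  ext i
  fin_cases i
  · exact h0
  · exact h1
  · exact h2
  · exact h3

/-- The exponent map. -/
private noncomputable def tau (n : Fin 4 →₀ ℕ) : Fin 4 →₀ ℕ :=
  E4 (n 0 + n 1) (n 2 + n 3) (n 0 + n 2) (n 1 + n 3)

/-- The four generators. -/
private noncomputable def cc : Fin 4 → MvPowerSeries (Fin 4) ℂ :=
  ![X 0 * X 2, X 0 * X 3, X 1 * X 2, X 1 * X 3]

private theorem cc_hs : HasSubst cc :=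
  hasSubst_of_constantCoeff_zero (by intro s; fin_cases s <;> simp [cc])

private theorem cc_prod (n : Fin 4 →₀ ℕ) :
    (n.prod fun s e => (cc s) ^ e) = monomial (tau n) 1 := by
  rw [Finsupp.prod_fintype _ _ (fun i => pow_zero _), Fin.prod_univ_four]
  change (X 0 * X 2) ^ n 0 * (X 0 * X 3) ^ n 1 * (X 1 * X 2) ^ n 2 * (X 1 * X 3) ^ n 3 = _
  simp only [mul_pow, X_pow_eq, monomial_mul_monomial, mul_one]
  refine congrArg (fun m => monomial m (1 : ℂ)) ?_
  apply ext4 <;>
  simp [tau, E4_0, E4_1, E4_2, E4_3, Finsupp.single_apply]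

/-- The substitution. -/
private noncomputable def sig : MvPowerSeries (Fin 4) ℂ →ₐ[ℂ] MvPowerSeries (Fin 4) ℂ :=
  substAlgHom (R := ℂ) cc_hs

open Classical in
private theorem coeff_sig (p : MvPowerSeries (Fin 4) ℂ) (e : Fin 4 →₀ ℕ) :
    coeff e (sig p) = ∑ᶠ d, if e = tau d then coeff d p else 0 := by
  rw [sig, coe_substAlgHom cc_hs, coeff_subst cc_hs]
  refine finsum_congr fun d => ?_
  rw [cc_prod, coeff_monomial]
  split_ifs <;> simp

private theorem wt_tau (n : Fin 4 →₀ ℕ) : wt (tau n) = 0 := by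
  simp only [wt, tau, E4_0, E4_1, E4_2, E4_3]
  push_cast
  ring

private theorem sig_wt (p : MvPowerSeries (Fin 4) ℂ) : HasWt 0 (sig p) := by
  classical
  intro e he
  by_contra hw
  apply he
  rw [coeff_sig]
  rw [finsum_congr (g := fun _ => (0 : ℂ)), finsum_zero]
  intro d
  rw [if_neg]
  rintro rfl
  exact hw (wt_tau d)

private theorem sig_surj (f : MvPowerSeries (Fin 4) ℂ) (hf : HasWt 0 f) : ∃ p, sig p = f := by
  classical
  let ch : (Fin 4 →₀ ℕ) → (Fin 4 →₀ ℕ) := fun e =>
    E4 (min (e 0) (e 2)) (e 0 - min (e 0) (e 2)) (e 2 - min (e 0) (e 2))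
      (e 3 - (e 0 - min (e 0) (e 2)))
  have hch : ∀ e, wt e = 0 → tau (ch e) = e := by
    intro e he
    simp only [wt] at he
    apply ext4 <;> simp only [tau, ch, E4_0, E4_1, E4_2, E4_3] <;> omega
  let p : MvPowerSeries (Fin 4) ℂ := fun n => if n = ch (tau n) then coeff (tau n) f else 0
  have hp : ∀ n, coeff n p = if n = ch (tau n) then coeff (tau n) f else 0 := fun n => rfl
  refine ⟨p, ?_⟩
  ext e
  rw [coeff_sig]
  by_cases he : wt e = 0
  · rw [finsum_eq_single _ (ch e)]
    · rw [if_pos (hch e he).symm, hp, if_pos, hch e he]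
      rw [hch e he]
    · intro d hd
      by_cases h1 : e = tau d
      · rw [if_pos h1, hp, if_neg]
        rw [← h1]
        exact hd
      · rw [if_neg h1]
  · rw [finsum_congr (g := fun _ => (0 : ℂ)), finsum_zero]
    · by_contra h
      exact he (hf e (fun h' => h h'.symm))
    · intro d
      rw [if_neg]
      rintro rfl
      exact he (wt_tau d)

/-- The equation. -/
private noncomputable def gg : MvPowerSeries (Fin 4) ℂ := X 0 * X 3 - X 1 * X 2

private noncomputable def eα : Fin 4 →₀ ℕ := E4 1 0 0 1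
private noncomputable def eβ : Fin 4 →₀ ℕ := E4 0 1 1 0

private theorem X03 : (X 0 * X 3 : MvPowerSeries (Fin 4) ℂ) = monomial eα 1 := by
  rw [X_def, X_def, monomial_mul_monomial, mul_one]
  refine congrArg (fun m => monomial m (1 : ℂ)) ?_
  apply ext4 <;> simp [eα, E4_0, E4_1, E4_2, E4_3, Finsupp.single_apply]

private theorem X12 : (X 1 * X 2 : MvPowerSeries (Fin 4) ℂ) = monomial eβ 1 := by
  rw [X_def, X_def, monomial_mul_monomial, mul_one]
  refine congrArg (fun m => monomial m (1 : ℂ)) ?_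
  apply ext4 <;> simp [eβ, E4_0, E4_1, E4_2, E4_3, Finsupp.single_apply]

private theorem sig_gg : sig gg = 0 := by
  have hX : ∀ i, sig (X i) = cc i := fun i => by rw [sig, substAlgHom_X]
  rw [gg, map_sub, map_mul, map_mul, hX, hX, hX, hX]
  change (X 0 * X 2) * (X 1 * X 3) - (X 0 * X 3) * (X 1 * X 2) = (0 : MvPowerSeries (Fin 4) ℂ)
  ring

/-- The chain of exponents. -/
private noncomputable def ch4 (n : Fin 4 →₀ ℕ) (j : ℕ) : Fin 4 →₀ ℕ :=
  E4 (n 0 + j) (n 1 - j) (n 2 - j) (n 3 + j)

private theorem fiber_sum (p : MvPowerSeries (Fin 4) ℂ) (hp : sig p = 0) (n : Fin 4 →₀ ℕ)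
    (hn : n 0 = 0 ∨ n 3 = 0) :
    ∑ j ∈ range (min (n 1) (n 2) + 1), coeff (ch4 n j) p = 0 := by
  classical
  have h1 := congrArg (coeff (tau n)) hp
  rw [coeff_sig, map_zero] at h1
  rw [← h1, finsum_eq_sum_of_support_subset (s := (range (min (n 1) (n 2) + 1)).image (ch4 n))]
  · rw [sum_image]
    · refine sum_congr rfl fun j hj => ?_
      rw [mem_range] at hj
      rw [if_pos]
      apply ext4 <;> simp only [tau, ch4, E4_0, E4_1, E4_2, E4_3] <;> omega
    · intro i _ j _ hij
      have := congrArg (fun m : Fin 4 →₀ ℕ => m 0) hij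
      simp only [ch4, E4_0] at this
      omega
  · intro d hd
    rw [Function.mem_support] at hd
    have h2 : tau n = tau d := by
      by_contra h
      exact hd (if_neg h)
    have a0 := congrArg (fun m : Fin 4 →₀ ℕ => m 0) h2
    have a1 := congrArg (fun m : Fin 4 →₀ ℕ => m 1) h2
    have a2 := congrArg (fun m : Fin 4 →₀ ℕ => m 2) h2
    have a3 := congrArg (fun m : Fin 4 →₀ ℕ => m 3) h2
    simp only [tau, E4_0, E4_1, E4_2, E4_3] at a0 a1 a2 a3
    rw [coe_image, Set.mem_image]
    refine ⟨d 0 - n 0, ?_, ?_⟩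
    · rw [mem_coe, mem_range]
      omega
    · apply ext4 <;> simp only [ch4, E4_0, E4_1, E4_2, E4_3] <;> omega

private theorem le4 {n m : Fin 4 →₀ ℕ} : n ≤ m ↔ n 0 ≤ m 0 ∧ n 1 ≤ m 1 ∧ n 2 ≤ m 2 ∧ n 3 ≤ m 3 := by
  constructor
  · intro h
    exact ⟨h 0, h 1, h 2, h 3⟩
  · rintro ⟨h0, h1, h2, h3⟩ i
    fin_cases i
    · exact h0
    · exact h1
    · exact h2
    · exact h3

private theorem sig_ker (p : MvPowerSeries (Fin 4) ℂ) (hp : sig p = 0) : gg ∣ p := by
  classical
  let q : MvPowerSeries (Fin 4) ℂ := fun m =>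
    ∑ j ∈ range (min (m 1) (m 2) + 1), coeff (ch4 (m + eα) j) p
  have hq : ∀ m, coeff m q = ∑ j ∈ range (min (m 1) (m 2) + 1), coeff (ch4 (m + eα) j) p :=
    fun m => rfl
  -- the chain starts at n
  have hz : ∀ n, ch4 n 0 = n := fun n => by
    apply ext4 <;> simp only [ch4, E4_0, E4_1, E4_2, E4_3] <;> omega
  have hα : ∀ n, eα ≤ n → coeff (n - eα) q =
      ∑ j ∈ range (min (n 1) (n 2) + 1), coeff (ch4 n j) p := by
    intro n hn
    rw [le4] at hn
    simp only [eα, E4_0, E4_1, E4_2, E4_3] at hn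
    rw [hq]
    have h1 : (n - eα) 1 = n 1 := by
      rw [Finsupp.tsub_apply, eα, E4_1, tsub_zero]
    have h2 : (n - eα) 2 = n 2 := by
      rw [Finsupp.tsub_apply, eα, E4_2, tsub_zero]
    rw [h1, h2]
    refine sum_congr rfl fun j hj => ?_
    refine congrArg (fun m => coeff m p) ?_
    apply ext4 <;> simp only [ch4, Finsupp.add_apply, Finsupp.tsub_apply, eα, E4_0, E4_1, E4_2,
      E4_3] <;> omega
  have hβ : ∀ n, eβ ≤ n → coeff (n - eβ) q =
      ∑ j ∈ range (min (n 1) (n 2)), coeff (ch4 n (j + 1)) p := by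
    intro n hn
    rw [le4] at hn
    simp only [eβ, E4_0, E4_1, E4_2, E4_3] at hn
    rw [hq]
    have h1 : (n - eβ) 1 = n 1 - 1 := by
      rw [Finsupp.tsub_apply, eβ, E4_1]
    have h2 : (n - eβ) 2 = n 2 - 1 := by
      rw [Finsupp.tsub_apply, eβ, E4_2]
    rw [h1, h2, show min (n 1 - 1) (n 2 - 1) + 1 = min (n 1) (n 2) by omega]
    refine sum_congr rfl fun j hj => ?_
    rw [mem_range] at hj
    refine congrArg (fun m => coeff m p) ?_
    apply ext4 <;> simp only [ch4, Finsupp.add_apply, Finsupp.tsub_apply, eα, eβ, E4_0, E4_1, E4_2,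
      E4_3] <;> omega
  refine ⟨q, ?_⟩
  ext n
  rw [gg, sub_mul, map_sub, X03, X12, coeff_monomial_mul, coeff_monomial_mul, one_mul, one_mul]
  by_cases ha : eα ≤ n
  · rw [if_pos ha, hα n ha, sum_range_succ', hz]
    by_cases hb : eβ ≤ n
    · rw [if_pos hb, hβ n hb]
      ring
    · rw [if_neg hb]
      have h0 : min (n 1) (n 2) = 0 := by
        rw [le4] at hb
        simp only [eβ, E4_0, E4_1, E4_2, E4_3] at hb
        omega
      rw [h0, range_zero, sum_empty]
      ring
  · rw [if_neg ha]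
    have hn : n 0 = 0 ∨ n 3 = 0 := by
      rw [le4] at ha
      simp only [eα, E4_0, E4_1, E4_2, E4_3] at ha
      omega
    have h1 := fiber_sum p hp n hn
    rw [sum_range_succ', hz] at h1
    by_cases hb : eβ ≤ n
    · rw [if_pos hb, hβ n hb]
      linear_combination h1
    · rw [if_neg hb]
      have h0 : min (n 1) (n 2) = 0 := by
        rw [le4] at hb
        simp only [eβ, E4_0, E4_1, E4_2, E4_3] at hb
        omega
      rw [h0, range_zero, sum_empty] at h1
      linear_combination h1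

private theorem gg_order (e : Fin 4 →₀ ℕ) (he : e.degree < 2) : coeff e gg = 0 := by
  classical
  rw [gg, map_sub, X03, X12, coeff_monomial, coeff_monomial, if_neg, if_neg, sub_zero]
  · rintro rfl
    simp [Finsupp.degree_eq_sum, eβ, Fin.sum_univ_four, E4_0, E4_1, E4_2, E4_3] at he
  · rintro rfl
    simp [Finsupp.degree_eq_sum, eα, Fin.sum_univ_four, E4_0, E4_1, E4_2, E4_3] at he

private theorem gg_finite : Module.Finite ℂ (MvPowerSeries (Fin 4) ℂ ⧸ tjurina gg) := by
  have h0 : pderiv ℂ 0 gg = X 3 := by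
    rw [gg, map_sub, Derivation.leibniz, Derivation.leibniz, pderiv_X_self,
      pderiv_X_of_ne (by decide), pderiv_X_of_ne (by decide), pderiv_X_of_ne (by decide)]
    simp
  have h1 : pderiv ℂ 1 gg = - X 2 := by
    rw [gg, map_sub, Derivation.leibniz, Derivation.leibniz, pderiv_X_self,
      pderiv_X_of_ne (by decide), pderiv_X_of_ne (by decide), pderiv_X_of_ne (by decide)]
    simp
  have h2 : pderiv ℂ 2 gg = - X 1 := by
    rw [gg, map_sub, Derivation.leibniz, Derivation.leibniz, pderiv_X_self,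
      pderiv_X_of_ne (by decide), pderiv_X_of_ne (by decide), pderiv_X_of_ne (by decide)]
    simp
  have h3 : pderiv ℂ 3 gg = X 0 := by
    rw [gg, map_sub, Derivation.leibniz, Derivation.leibniz, pderiv_X_self,
      pderiv_X_of_ne (by decide), pderiv_X_of_ne (by decide), pderiv_X_of_ne (by decide)]
    simp
  have hmem : ∀ i, pderiv ℂ i gg ∈ tjurina gg := fun i =>
    Ideal.subset_span (Set.mem_insert_of_mem _ ⟨i, rfl⟩)
  have hX : ∀ i, (X i : MvPowerSeries (Fin 4) ℂ) ∈ tjurina gg := by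
    intro i
    fin_cases i
    · have := hmem 3
      rwa [h3] at this
    · have := hmem 2
      rw [h2] at this
      exact neg_mem_iff.1 this
    · have := hmem 1
      rw [h1] at this
      exact neg_mem_iff.1 this
    · have := hmem 0
      rwa [h0] at this
  have hle : Od 4 1 ≤ tjurina gg := by
    rw [← span_X, Ideal.span_le]
    rintro _ ⟨i, rfl⟩
    exact hX i
  apply Module.Finite.of_surjective
    (Algebra.linearMap ℂ (MvPowerSeries (Fin 4) ℂ ⧸ tjurina gg))
  intro y
  obtain ⟨p, rfl⟩ := Ideal.Quotient.mk_surjective y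
  refine ⟨constantCoeff p, ?_⟩
  rw [Algebra.linearMap_apply]
  change Ideal.Quotient.mk (tjurina gg) (algebraMap ℂ (MvPowerSeries (Fin 4) ℂ) _) = _
  rw [Ideal.Quotient.mk_eq_mk_iff_sub_mem]
  apply hle
  rw [mem_Od_one, map_sub]
  simp [MvPowerSeries.algebraMap_apply]

theorem isolated : IsIsolated Rt := by
  refine ⟨gg, gg_order, gg_finite, ?_⟩
  let φ : MvPowerSeries (Fin 4) ℂ →ₐ[ℂ] Rt := AlgHom.codRestrict sig Rc sig_wt
  have hφ : ∀ p, Rt.ser (φ p) = sig p := fun p => rfl
  have hsurj : Function.Surjective φ := by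
    intro r
    obtain ⟨p, hp⟩ := sig_surj (Rt.ser r) (Rt.wt r)
    refine ⟨p, Rt.ser_inj ?_⟩
    rw [hφ, hp]
  have hker : RingHom.ker φ = Ideal.span {gg} := by
    ext p
    rw [RingHom.mem_ker, Ideal.mem_span_singleton]
    constructor
    · intro h
      apply sig_ker
      rw [← hφ, h, map_zero]
    · rintro ⟨q, rfl⟩
      apply Rt.ser_inj
      rw [hφ, map_zero, map_mul, sig_gg, zero_mul]
  exact ⟨((Ideal.quotientEquivAlgOfEq ℂ hker.symm).trans
    (Ideal.quotientKerAlgEquivOfSurjective hsurj)).symm⟩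

end Conifold

end Pool.Agent.Flop
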