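import Pool.Agent.Lib.FlA.CfEv

/-!
# CfSur: conifold example: the image of the evaluation

`exists_path`: for i j e with wt e = sc i - sc j there is l with Qc.IsPath i l j and cnt l = e. Induction on e.degree. e = 0: wt = 0 so i = j, l = []. e ≠ 0: if i = 1: wt e = 1 - sc j ≥ 0; if e 0 = 0 and e 1 = 0 then wt e = - e 2 - e 3 < 0 (e ≠ 0): contradiction; so some c ∈ {0, 1} has e c ≠ 0; e' := e - single c 1 (tsub, e' + single c 1 = e), wt e' = wt e - 1 = sc 0 - sc j; path l' from 0 to j; l := c :: l'. i = 0: wt e = - sc j ≤ 0, so some c ∈ {2, 3}; the same. `exists_ev`: m with entries of the right weight.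
f.cf i j l := if l = chosen path for (i, j, cnt l) [given wt (cnt l) = sc i - sc j] then coeff (cnt l) (m i j) else 0 (classical choice; a function path : Fin 2 → Fin 2 → (Fin 4 →₀ ℕ) → List (Fin 4) with the properties if wt e = sc i - sc j). It is in PathAlg: nonzero coefficient means coeff ≠ 0, so the weight is right and l is a path. Matrix.ext, MvPowerSeries.ext, coeff_ev: the sum over words e has the single nonzero term l = path i j e.
-/

set_option autoImplicit false

namespace Pool.Agent.Flop

namespace Conifold

open Finset MvPowerSeries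

private theorem cs_cnt_cons (c : Fin 4) (l : List (Fin 4)) :
    cnt (c :: l) = Finsupp.single c 1 + cnt l := by
  ext i
  rw [Finsupp.add_apply, cnt_apply, cnt_apply, List.count_cons, Finsupp.single_apply, add_comm]
  congr 1
  by_cases h : c = i
  · simp [h]
  · simp [h]

private theorem cs_wt_single (c : Fin 4) :
    wt (Finsupp.single c 1) = sc (Qc.src c) - sc (Qc.tgt c) := by
  fin_cases c <;> simp [wt, sc, Qc, Finsupp.single_apply]

private theorem cs_exists_arrow {i j : Fin 2} {e : Fin 4 →₀ ℕ} (h : wt e = sc i - sc j)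
    (he : e ≠ 0) : ∃ c, Qc.src c = i ∧ e c ≠ 0 := by
  by_contra hcon
  push Not at hcon
  apply he
  have hj : sc j = 0 ∨ sc j = 1 := by
    fin_cases j <;> simp [sc]
  have hall : ∀ c, e c = 0 := by
    have h2 : i = 0 ∨ i = 1 := by
      fin_cases i <;> simp
    unfold wt at h
    rcases h2 with rfl | rfl
    · have h3 := hcon 2 (by simp [Qc])
      have h4 := hcon 3 (by simp [Qc])
      have h5 : sc 0 = 0 := by simp [sc]
      intro c
      fin_cases c
      · show e 0 = 0
        omega
      · show e 1 = 0
        omega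
      · exact h3
      · exact h4
    · have h3 := hcon 0 (by simp [Qc])
      have h4 := hcon 1 (by simp [Qc])
      have h5 : sc 1 = 1 := by simp [sc]
      intro c
      fin_cases c
      · exact h3
      · exact h4
      · show e 2 = 0
        omega
      · show e 3 = 0
        omega
  ext c
  rw [hall c]
  rfl

private theorem cs_path (n : ℕ) : ∀ (e : Fin 4 →₀ ℕ), e.degree = n → ∀ i j : Fin 2,
    wt e = sc i - sc j → ∃ l, Qc.IsPath i l j ∧ cnt l = e := by
  induction n with
  | zero =>
    intro e he i j h
    have h0 : e = 0 := (Finsupp.degree_eq_zero_iff e).1 he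
    subst h0
    refine ⟨[], ?_, cnt_nil⟩
    rw [wt_zero] at h
    show i = j
    have h1 : sc i = sc j := by omega
    unfold sc at h1
    exact Fin.ext (by exact_mod_cast h1)
  | succ n ih =>
    intro e he i j h
    have hne : e ≠ 0 := by
      rintro rfl
      rw [map_zero] at he
      omega
    obtain ⟨c, hc, hec⟩ := cs_exists_arrow h hne
    have hle : Finsupp.single c 1 ≤ e := by
      rw [Finsupp.single_le_iff]
      omega
    have hadd : Finsupp.single c 1 + (e - Finsupp.single c 1) = e := add_tsub_cancel_of_le hle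
    have hdeg : (e - Finsupp.single c 1).degree = n := by
      have h1 := congrArg Finsupp.degree hadd
      rw [map_add, Finsupp.degree_single, he] at h1
      omega
    have hwt : wt (e - Finsupp.single c 1) = sc (Qc.tgt c) - sc j := by
      have h1 := congrArg wt hadd
      rw [wt_add, cs_wt_single, hc, h] at h1
      omega
    obtain ⟨l, hl, hl'⟩ := ih _ hdeg _ _ hwt
    exact ⟨c :: l, ⟨hc, hl⟩, by rw [cs_cnt_cons, hl', hadd]⟩

theorem exists_path {i j : Fin 2} {e : Fin 4 →₀ ℕ} (h : wt e = sc i - sc j) :
    ∃ l, Qc.IsPath i l j ∧ cnt l = e := cs_path _ e rfl i j h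

open Classical in
private noncomputable def csPth (i j : Fin 2) (e : Fin 4 →₀ ℕ) : List (Fin 4) :=
  if h : wt e = sc i - sc j then (exists_path h).choose else []

private theorem csPth_spec {i j : Fin 2} {e : Fin 4 →₀ ℕ} (h : wt e = sc i - sc j) :
    Qc.IsPath i (csPth i j e) j ∧ cnt (csPth i j e) = e := by
  unfold csPth
  rw [dif_pos h]
  exact (exists_path h).choose_spec

open Classical in
private noncomputable def csFun (m : Matrix (Fin 2) (Fin 2) (MvPowerSeries (Fin 4) ℂ))
    (i j : Fin 2) (l : List (Fin 4)) : ℂ :=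
  if wt (cnt l) = sc i - sc j ∧ l = csPth i j (cnt l) then coeff (cnt l) (m i j) else 0

theorem exists_ev (m : Matrix (Fin 2) (Fin 2) (MvPowerSeries (Fin 4) ℂ))
    (hm : ∀ i j, HasWt (sc i - sc j) (m i j)) : ∃ f : Hat Qc, ev f = m := by
  classical
  have hmem : ∀ i j l, csFun m i j l ≠ 0 → Qc.IsPath i l j := by
    intro i j l h
    unfold csFun at h
    by_cases h1 : wt (cnt l) = sc i - sc j ∧ l = csPth i j (cnt l)
    · rw [h1.2]
      exact (csPth_spec h1.1).1
    · rw [if_neg h1] at h
      exact absurd rfl h
  refine ⟨⟨fun i j => csFun m i j, hmem⟩, ?_⟩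
  refine Matrix.ext fun i j => MvPowerSeries.ext fun e => ?_
  rw [coeff_ev]
  change ∑ l ∈ words e, csFun m i j l = _
  by_cases h : wt e = sc i - sc j
  · rw [Finset.sum_eq_single (csPth i j e)]
    · have h1 := (csPth_spec h).2
      unfold csFun
      rw [h1, if_pos ⟨h, rfl⟩]
    · intro l hl hne
      rw [mem_words] at hl
      unfold csFun
      rw [hl, if_neg (fun h2 => hne h2.2)]
    · intro h1
      exact absurd (mem_words.2 (csPth_spec h).2) h1
  · have h1 : coeff e (m i j) = 0 := by
      by_contra h2
      exact h (hm i j e h2)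
    rw [h1]
    refine Finset.sum_eq_zero fun l hl => ?_
    rw [mem_words] at hl
    unfold csFun
    rw [hl, if_neg (fun h2 => h h2.1)]

end Conifold

end Pool.Agent.Flop
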