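import Pool.Agent.Lib.FlA.CfKer
import Pool.Agent.Lib.FlA.CfSur
import Pool.Agent.Lib.FlA.CfDep
import Pool.Agent.Lib.FlA.CfPrs

/-!
# CfMain: the conifold is a flop model

So the hypotheses of the main theorem can be satisfied (Atiyah's flop).
-/

set_option autoImplicit false

namespace Pool.Agent.Flop.Conifold

open Finset MvPowerSeries

/-- The homomorphism from the complete path algebra to the endomorphism algebra. -/
noncomputable def piC : Hat Qc →ₐ[ℂ] At where
  toFun f := act (ev f) (ev_mem f)
  map_one' := by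
    have h : ∀ i j, HasWt (sc i - sc j)
        ((1 : Matrix (Fin 2) (Fin 2) (MvPowerSeries (Fin 4) ℂ)) i j) := by
      rw [← map_one ev]
      exact ev_mem 1
    rw [← act_one h]
    congr 1
    exact map_one ev
  map_mul' f g := by
    have h : ∀ i j, HasWt (sc i - sc j) ((ev f * ev g) i j) := by
      rw [← map_mul ev]
      exact ev_mem (f * g)
    rw [← act_mul (ev_mem f) (ev_mem g) h]
    congr 1
    exact map_mul ev f g
  map_zero' := by
    have h : ∀ i j, HasWt (sc i - sc j)
        ((0 : Matrix (Fin 2) (Fin 2) (MvPowerSeries (Fin 4) ℂ)) i j) := fun i j => HasWt.zero _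
    have h1 : act 0 h = act 0 h + act 0 h := by
      have h2 : ∀ i j, HasWt (sc i - sc j)
          ((0 + 0 : Matrix (Fin 2) (Fin 2) (MvPowerSeries (Fin 4) ℂ)) i j) := by
        rw [add_zero]
        exact h
      rw [← act_add h h h2]
      congr 1
      rw [add_zero]
    have h3 : act 0 h = 0 := by
      have := h1.symm
      rwa [add_eq_left] at this
    rw [← h3]
    congr 1
    exact map_zero ev
  map_add' f g := by
    have h : ∀ i j, HasWt (sc i - sc j) ((ev f + ev g) i j) := by
      rw [← map_add ev]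
      exact ev_mem (f + g)
    rw [← act_add (ev_mem f) (ev_mem g) h]
    congr 1
    exact map_add ev f g
  commutes' c := by
    have h : ∀ i j, HasWt (sc i - sc j)
        ((algebraMap ℂ (Matrix (Fin 2) (Fin 2) (MvPowerSeries (Fin 4) ℂ)) c) i j) := by
      rw [← AlgHom.commutes ev c]
      exact ev_mem _
    rw [← act_algebraMap c h]
    congr 1
    exact AlgHom.commutes ev c

theorem piC_apply (f : Hat Qc) : piC f = act (ev f) (ev_mem f) := rfl

theorem piC_eq_zero (f : Hat Qc) : piC f = 0 ↔ f ∈ jac Wc := by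
  rw [← ev_eq_zero_iff]
  constructor
  · intro h
    have h0 : act (ev f) (ev_mem f) = act (ev 0) (ev_mem 0) := by
      rw [← piC_apply, ← piC_apply, h, map_zero]
    rw [act_injective _ _ h0, map_zero]
  · intro h
    have h0 : act (ev f) (ev_mem f) = act (ev 0) (ev_mem 0) := by
      congr 1
      rw [h, map_zero]
    rw [piC_apply, h0, ← piC_apply, map_zero]

theorem piC_surjective : Function.Surjective piC := by
  intro x
  obtain ⟨m, hm, rfl⟩ := act_surjective x
  obtain ⟨f, hf⟩ := exists_ev m hm
  subst hf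
  exact ⟨f, rfl⟩

theorem piC_idem (i : Fin 2) :
    piC (idem Qc i) = (LinearMap.single Rt Nt i) ∘ₗ (LinearMap.proj i) := by
  refine LinearMap.ext fun v => funext fun k => Nt.ser_inj ?_
  rw [piC_apply, act_apply, ev_idem]
  change _ = ((Pi.single i (v i) : ∀ j, Nt j) k).ser
  by_cases hk : k = i
  · subst hk
    rw [Pi.single_eq_same, Finset.sum_eq_single k]
    · rw [Matrix.single_apply_same, one_mul]
    · intro j _ hj
      rw [Matrix.single_apply_of_ne _ _ _ _ _ (fun h => hj h.2.symm), zero_mul]
    · exact fun h => absurd (Finset.mem_univ k) h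
  · rw [Pi.single_eq_of_ne hk, Nt.ser_zero]
    refine Finset.sum_eq_zero fun j _ => ?_
    rw [Matrix.single_apply_of_ne _ _ _ _ _ (fun h => hk h.1.symm), zero_mul]

instance : IsDomain Rt := by
  have h1 : NoZeroDivisors ↥Rc := inferInstance
  have h2 : Nontrivial ↥Rc := inferInstance
  have h3 : IsDomain ↥Rc := NoZeroDivisors.to_isDomain _
  exact h3

theorem Wc_mem : Wc ∈ Fil Qc 3 := by
  have h : ∀ a b c d : Fin 4, arr Qc a * arr Qc b * arr Qc c * arr Qc d ∈ Fil Qc 3 := by
    intro a b c d
    have h2 : arr Qc a * arr Qc b ∈ Fil Qc (1 + 1) :=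
      mul_mem_Fil (arr_mem_Fil a) (arr_mem_Fil b)
    have h3 : arr Qc a * arr Qc b * arr Qc c ∈ Fil Qc (1 + 1 + 1) :=
      mul_mem_Fil h2 (arr_mem_Fil c)
    exact Fil_anti (by norm_num) (mul_mem_Fil h3 (arr_mem_Fil d))
  exact Submodule.sub_mem _ (h 0 2 1 3) (h 0 3 1 2)

/-- The isomorphism of the trivial summand with the ring. -/
theorem triv : Nonempty (Nt 0 ≃ₗ[Rt] Rt) := by
  refine ⟨{ toFun := fun x => Rt.mk x.ser (by simpa [sc] using x.wt)
            invFun := fun r => Nt.mk 0 (Rt.ser r) (by simpa [sc] using r.wt)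
            map_add' := fun x y => rfl
            map_smul' := fun r x => rfl
            left_inv := fun x => rfl
            right_inv := fun r => rfl }⟩

theorem nonzero (i : Fin 2) : Nontrivial (Nt i) := by
  have h0 : HasWt (sc 0) (1 : MvPowerSeries (Fin 4) ℂ) := by
    have := HasWt.C 1
    rw [map_one] at this
    simpa [sc] using this
  have h1 : HasWt (sc 1) (X 0 : MvPowerSeries (Fin 4) ℂ) := by
    have := HasWt.X 0
    simpa [sc, Conifold.wt] using this
  fin_cases i
  · refine ⟨⟨Nt.mk 0 1 h0, 0, fun h => ?_⟩⟩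
    have := congrArg Nt.ser h
    rw [Nt.ser_mk, Nt.ser_zero] at this
    exact one_ne_zero this
  · refine ⟨⟨Nt.mk 1 (X 0) h1, 0, fun h => ?_⟩⟩
    have := congrArg Nt.ser h
    rw [Nt.ser_mk, Nt.ser_zero] at this
    have h2 := congrArg (coeff (Finsupp.single 0 1)) this
    rw [coeff_index_single_self_X, map_zero] at h2
    exact one_ne_zero h2

theorem curves : IsCurveQuiver Qc 0 := by
  refine ⟨fun a b h1 h2 => ?_, fun k hk v hv h0 => ?_⟩
  · exfalso
    fin_cases a <;> simp [Qc] at h1 h2
  · exfalso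
    have : Fact (1 < k) := ⟨by omega⟩
    refine zero_ne_one (hv (?_ : v (0 : ZMod k) = v 1))
    have h2 : ∀ i : Fin 2, i ≠ 0 → i = 1 := by decide
    rw [h2 _ (h0 0), h2 _ (h0 1)]

/-- The conifold is a flop model. -/
theorem isFlopModel : IsFlopModel Rt Qc 0 Nt Wc piC where
  isolated := isolated
  domain := inferInstance
  triv := triv
  nonzero := nonzero
  endo := ⟨fin_Nt, AlgEquiv.refl, piC_idem⟩
  depth := hasDepth3
  jacobi := ⟨Wc_mem, piC_surjective, piC_eq_zero⟩
  curves := curves

end Pool.Agent.Flop.Conifold
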