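import Pool.Agent.Lib.FlA.Defs
import Pool.Agent.Lib.MP_03045c_ag.NCyc
import Pool.Agent.Lib.MP_03045c_ag.NAut
import Pool.Agent.Lib.MP_03045c_ag.NLoc
import Pool.Agent.Lib.MP_03045c_ag.NEig1
import Pool.Agent.Lib.MP_03045c_ag.LinComp

/-!
# Internal definitions: graded parts, left components, double derivatives, shift derivations
-/

set_option autoImplicit false

namespace Pool.Agent.Flop

open Finset

variable {V E : Type} [Fintype V] [DecidableEq V] [DecidableEq E] {Q : Qv V E}

/-- The component of a series ending with the arrow `b`: a series without constant term is the sum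
over all arrows `b` of `rc b f * b`. -/
noncomputable def rc (b : E) (f : Hat Q) : Hat Q :=
  ⟨fun i j l => if j = Q.src b then f.cf i (Q.tgt b) (l ++ [b]) else 0, by
    intro i j l hl
    beta_reduce at hl
    split_ifs at hl with h
    · subst h
      have hp := f.2 i (Q.tgt b) _ hl
      have key : ∀ (l : List E) (i : V), Q.IsPath i (l ++ [b]) (Q.tgt b) →
          Q.IsPath i l (Q.src b) := by
        intro l
        induction l with
        | nil => intro i hi; exact hi.1.symm
        | cons c l ih => intro i hi; exact ⟨hi.1, ih _ hi.2⟩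
      exact key l i hp
    · exact absurd rfl hl⟩

theorem lcF [Finite E] : LCFil (Fil Q) where
  zero := Fil_zero
  anti n := Fil_anti (Nat.le_succ n)
  sep _ hx := Fil_sep hx
  lim s hs := Fil_lim s hs
  fin n := finite_quot n

/-- The part of weight `μ` for the weights `lam` of the arrows. -/
noncomputable def part {G : Type} [AddCommMonoid G] (lam : E → G) (μ : G) : Hat Q →ₗ[ℂ] Hat Q := by
  classical
  exact
  { toFun := fun f => ⟨fun i j l => if (l.map lam).sum = μ then f.cf i j l else 0, by
      intro i j l hl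
      beta_reduce at hl
      split_ifs at hl with h
      · exact f.2 i j l hl
      · exact absurd rfl hl⟩
    map_add' := by
      intro f g
      apply Hat.ext_cf
      intro i j l
      rw [Hat.cf_add]
      change (if _ then (f + g).cf i j l else 0) = (if _ then f.cf i j l else 0) +
        (if _ then g.cf i j l else 0)
      split_ifs
      · rw [Hat.cf_add]
      · rw [add_zero]
    map_smul' := by
      intro c f
      apply Hat.ext_cf
      intro i j l
      rw [RingHom.id_apply, Hat.cf_smul]
      change (if _ then (c • f).cf i j l else 0) = c * (if _ then f.cf i j l else 0)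
      split_ifs
      · rw [Hat.cf_smul]
      · rw [mul_zero] }

open scoped Classical in
theorem cf_part {G : Type} [AddCommMonoid G] (lam : E → G) (μ : G) (f : Hat Q) (i j : V)
    (l : List E) : (part lam μ f).cf i j l = if (l.map lam).sum = μ then f.cf i j l else 0 := rfl

/-- The component of a series beginning with the arrow `a`: a series without constant term is the
sum over all arrows `a` of `a * lc a f`. -/
noncomputable def lc (a : E) (f : Hat Q) : Hat Q :=
  ⟨fun i j l => if i = Q.tgt a then f.cf (Q.src a) j (a :: l) else 0, by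
    intro i j l hl
    beta_reduce at hl
    split_ifs at hl with h
    · subst h
      exact (f.2 (Q.src a) j _ hl).2
    · exact absurd rfl hl⟩

theorem cf_lc (a : E) (f : Hat Q) (i j : V) (l : List E) :
    (lc a f).cf i j l = if i = Q.tgt a then f.cf (Q.src a) j (a :: l) else 0 := rfl

theorem cf_rc (b : E) (f : Hat Q) (i j : V) (l : List E) :
    (rc b f).cf i j l = if j = Q.src b then f.cf i (Q.tgt b) (l ++ [b]) else 0 := rfl

theorem cf_res (o : V) (f : Hat Q) (i j : {v : V // v ≠ o})
    (l : List {a : E // Q.src a ≠ o ∧ Q.tgt a ≠ o}) :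
    (res o f).cf i j l = f.cf i.1 j.1 (l.map Subtype.val) := rfl

/-- The double derivative: `s ↦ ∑ v x u` over all decompositions `u a v` of the words of `s`. -/
noncomputable def Th (a : E) (s x : Hat Q) : Hat Q :=
  ⟨fun i j l => if i = Q.tgt a ∧ j = Q.src a then
      ∑ p : V, ∑ q : V, ∑ k₁ ∈ range (l.length + 1), ∑ k₂ ∈ range (l.length - k₁ + 1),
        s.cf q p (l.drop (k₁ + k₂) ++ a :: l.take k₁) * x.cf p q ((l.drop k₁).take k₂) else 0, by
    intro i j l hl
    beta_reduce at hl
    split_ifs at hl with h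
    · obtain ⟨rfl, rfl⟩ := h
      obtain ⟨p, _, hp⟩ := Finset.exists_ne_zero_of_sum_ne_zero hl
      obtain ⟨q, _, hq⟩ := Finset.exists_ne_zero_of_sum_ne_zero hp
      obtain ⟨k₁, _, hk₁⟩ := Finset.exists_ne_zero_of_sum_ne_zero hq
      obtain ⟨k₂, _, hk₂⟩ := Finset.exists_ne_zero_of_sum_ne_zero hk₁
      have h1 := s.2 q p _ (left_ne_zero_of_mul hk₂)
      have h2 := x.2 p q _ (right_ne_zero_of_mul hk₂)
      have key : ∀ (l₂ : List E) (i : V), Q.IsPath i (l₂ ++ a :: l.take k₁) p →
          Q.IsPath i l₂ (Q.src a) ∧ Q.IsPath (Q.tgt a) (l.take k₁) p := by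
        intro l₂
        induction l₂ with
        | nil => intro i hi; exact ⟨hi.1.symm, hi.2⟩
        | cons b l₂ ih => intro i hi; exact ⟨⟨hi.1, (ih _ hi.2).1⟩, (ih _ hi.2).2⟩
      obtain ⟨h3, h4⟩ := key _ _ h1
      have h5 := (h4.append h2).append h3
      have e : l.take k₁ ++ (l.drop k₁).take k₂ ++ l.drop (k₁ + k₂) = l := by
        rw [← List.drop_drop, List.append_assoc, List.take_append_drop, List.take_append_drop]
      rwa [e] at h5
    · exact absurd rfl hl⟩

theorem cf_Th (a : E) (s x : Hat Q) (i j : V) (l : List E) :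
    (Th a s x).cf i j l = if i = Q.tgt a ∧ j = Q.src a then
      ∑ p : V, ∑ q : V, ∑ k₁ ∈ range (l.length + 1), ∑ k₂ ∈ range (l.length - k₁ + 1),
        s.cf q p (l.drop (k₁ + k₂) ++ a :: l.take k₁) * x.cf p q ((l.drop k₁).take k₂)
      else 0 := rfl

/-- Shift derivations: derivations over the vertex algebra which lower the order at most by 1. -/
structure IsSDer (D : Hat Q →ₗ[ℂ] Hat Q) : Prop where
  leib : ∀ f g, D (f * g) = D f * g + f * D g
  idem : ∀ v, D (idem Q v) = 0
  fil : ∀ n, ∀ f ∈ Fil Q (n + 1), D f ∈ Fil Q n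

/-- Closed subspaces. -/
def IsCl (S : Submodule ℂ (Hat Q)) : Prop := ∀ f, (∀ n, ∃ s ∈ S, f - s ∈ Fil Q n) → f ∈ S

/-- The closure of `Fil 1 * jac W + jac W * Fil 1`. -/
noncomputable def MM (W : Hat Q) : Submodule ℂ (Hat Q) :=
  cl (Submodule.span ℂ {x | ∃ (a : E) (p q : Hat Q), x = p * cyc a W * q ∧
    (p ∈ Fil Q 1 ∨ q ∈ Fil Q 1)})

/-- Exactness at the second syzygy, in terms of the path algebra. -/
def Syz [Fintype E] (W : Hat Q) : Prop :=
  ∀ (j : V) (y z : E → Hat Q), (∀ a, y a * idem Q (Q.tgt a) = y a) →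
    (∀ a, Q.src a ≠ j → y a = 0) → (∀ c, z c ∈ jac W) →
    ∑ a, y a * cyc a W = ∑ c, z c * arr Q c →
    ∃ x : Hat Q, ∀ a, Q.src a = j → y a - x * arr Q a ∈ jac W

/-- The closed part: the coefficients of the closed paths. -/
noncomputable def cpart (f : Hat Q) : Hat Q :=
  ⟨fun i j l => if i = j then f.cf i j l else 0, by
    intro i j l hl
    beta_reduce at hl
    split_ifs at hl with h
    · exact f.2 i j l hl
    · exact absurd rfl hl⟩

theorem cf_cpart (f : Hat Q) (i j : V) (l : List E) :
    (cpart f).cf i j l = if i = j then f.cf i j l else 0 := rfl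

end Pool.Agent.Flop
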