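import Pool.Agent.Lib.FlA.Def2

/-!
# Internal definitions: abstract models, gradings, Koszul complexes, orders of power series
-/

set_option autoImplicit false

namespace Pool.Agent.Flop

open Finset

/-! ### power series in `n` variables -/

/-- The ideal of the power series of order at least `N`. -/
def Od (n N : ℕ) : Ideal (MvPowerSeries (Fin n) ℂ) where
  carrier := {p | ∀ d : Fin n →₀ ℕ, d.degree < N → MvPowerSeries.coeff d p = 0}
  add_mem' := by
    intro p q hp hq d hd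
    rw [map_add, hp d hd, hq d hd, add_zero]
  zero_mem' := fun d _ => map_zero _
  smul_mem' := by
    intro c p hp d hd
    rw [smul_eq_mul, MvPowerSeries.coeff_mul]
    refine Finset.sum_eq_zero fun x hx => ?_
    rw [Finset.HasAntidiagonal.mem_antidiagonal] at hx
    rw [hp x.2, mul_zero]
    refine lt_of_le_of_lt ?_ hd
    rw [← hx, map_add]
    exact Nat.le_add_left _ _

theorem mem_Od {n N : ℕ} {p : MvPowerSeries (Fin n) ℂ} :
    p ∈ Od n N ↔ ∀ d : Fin n →₀ ℕ, d.degree < N → MvPowerSeries.coeff d p = 0 := Iff.rfl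

/-- The ideal generated by the partial derivatives. -/
noncomputable def Jac {n : ℕ} (f : MvPowerSeries (Fin n) ℂ) : Ideal (MvPowerSeries (Fin n) ℂ) :=
  Ideal.span (Set.range fun i => MvPowerSeries.pderiv ℂ i f)

/-- The linear part of a family of power series. -/
noncomputable def LinP {n : ℕ} (c : Fin n → MvPowerSeries (Fin n) ℂ) : Matrix (Fin n) (Fin n) ℂ :=
  Matrix.of fun i j => MvPowerSeries.coeff (Finsupp.single j 1) (c i)

/-- Formal coordinate systems. -/
def IsCoord {n : ℕ} (c : Fin n → MvPowerSeries (Fin n) ℂ) : Prop :=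
  (∀ i, MvPowerSeries.constantCoeff (c i) = 0) ∧ (LinP c).det ≠ 0

/-- Homogeneous power series of weight `h` for the weights `l`. -/
def IsHg {n : ℕ} {G : Type} [AddCommMonoid G] (l : Fin n → G) (h : G)
    (f : MvPowerSeries (Fin n) ℂ) : Prop :=
  ∀ e : Fin n →₀ ℕ, MvPowerSeries.coeff e f ≠ 0 → ∑ i, e i • l i = h

/-! ### Koszul complexes -/

section

variable {R M : Type} [CommRing R] [AddCommGroup M] [Module R M] {n : ℕ}

/-- The sign of inserting `i` into `S`. -/
def ksgn (i : Fin n) (S : Finset (Fin n)) : ℤ := (-1) ^ (S.filter (· < i)).card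

/-- The Koszul differential on functions on the finite subsets of `Fin n`. -/
def kd (x : Fin n → R) (c : Finset (Fin n) → M) : Finset (Fin n) → M := fun S =>
  ∑ i ∈ Sᶜ, ksgn i S • x i • c (insert i S)

/-- The homotopy. -/
def kh (y : Fin n → R) (c : Finset (Fin n) → M) : Finset (Fin n) → M := fun S =>
  ∑ i ∈ S, ksgn i (S.erase i) • y i • c (S.erase i)

/-- Exactness of the Koszul complex in degree `p`. -/
def KEx (x : Fin n → R) (M : Type) [AddCommGroup M] [Module R M] (p : ℕ) : Prop :=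
  ∀ c : Finset (Fin n) → M, (∀ S, S.card + 1 = p → kd x c S = 0) →
    ∃ b : Finset (Fin n) → M, ∀ S, S.card = p → c S = kd x b S

end

/-! ### abstract models -/

variable {V E : Type} [Fintype V] [DecidableEq V] [DecidableEq E] {Q : Qv V E}

/-- Abstract models: an algebra `A` over the local ring `R` with the properties of the
endomorphism algebra of a flopping contraction. -/
structure Mdl (R : Type) {A : Type} [CommRing R] [IsLocalRing R] [Algebra ℂ R] [Ring A]
    [Algebra ℂ A] [Algebra R A] [Fintype E] (o : V) (W : Hat Q) (π : Hat Q →ₐ[ℂ] A) : Prop where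
  resf : ∀ r : R, ∃ c : ℂ, r - algebraMap ℂ R c ∈ IsLocalRing.maximalIdeal R
  nfield : IsLocalRing.maximalIdeal R ≠ ⊥
  fin : Module.Finite R A
  tf : ∀ (r : R) (x : A), r • x = 0 → r = 0 ∨ x = 0
  corner : ∀ x : A, ∃ r : R, π (idem Q o) * x * π (idem Q o) = r • π (idem Q o)
  cen : ∀ z : A, (∀ x, z * x = x * z) → ∃ r : R, z = r • (1 : A)
  conn : ∀ i, ∃ x : A, π (idem Q i) * x * π (idem Q o) ≠ 0
  dep : ∃ f₁ f₂ f₃ : R, f₁ ∈ IsLocalRing.maximalIdeal R ∧ f₂ ∈ IsLocalRing.maximalIdeal R ∧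
    f₃ ∈ IsLocalRing.maximalIdeal R ∧ RingTheory.Sequence.IsWeaklyRegular A [f₁, f₂, f₃]
  pot : W ∈ Fil Q 3
  surj : Function.Surjective π
  ker : ∀ f, π f = 0 ↔ f ∈ jac W
  syz : Syz W

/-- The filtration of `A` by the powers of the maximal ideal of `R`. -/
def MA (R : Type) (A : Type) [CommRing R] [IsLocalRing R] [Ring A] [Algebra R A] (n : ℕ) :
    Submodule R A :=
  (IsLocalRing.maximalIdeal R) ^ n • (⊤ : Submodule R A)

/-- The gradings of `A` and `R` by rational weights of the arrows. -/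
structure Grd {R A : Type} [CommRing R] [IsLocalRing R] [Algebra ℂ R] [Ring A]
    [Algebra ℂ A] [Algebra R A] (π : Hat Q →ₐ[ℂ] A) (lam : E → ℚ) (cA : ℚ → A →ₗ[ℂ] A)
    (cR : ℚ → R →ₗ[ℂ] R) : Prop where
  pi : ∀ μ f, cA μ (π f) = π (part lam μ f)
  one : ∀ μ (r : R), cA μ (r • (1 : A)) = cR μ r • (1 : A)
  smul : ∀ μ ν (r : R) (x : A), cR ν r = r → cA μ (r • x) = r • cA (μ - ν) x
  max : ∀ μ, ∀ r ∈ IsLocalRing.maximalIdeal R, cR μ r ∈ IsLocalRing.maximalIdeal R
  conv : ∀ (n : ℕ) (r : R), ∃ S : Finset ℚ, r - ∑ μ ∈ S, cR μ r ∈ IsLocalRing.maximalIdeal R ^ n ∧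
    ∀ μ, μ ∉ S → cR μ r ∈ IsLocalRing.maximalIdeal R ^ n
  idm : ∀ μ ν (r : R), cR μ (cR ν r) = if μ = ν then cR ν r else 0
  mul : ∀ μ ν (r s : R), cR ν r = r → cR μ (r * s) = r * cR (μ - ν) s
  unit : cR 0 1 = 1

/-- The second syzygy term at the vertex `o`. -/
def F2 (R : Type) {A : Type} [CommRing R] [Ring A] [Algebra ℂ A] [Algebra R A] (o : V)
    (π : Hat Q →ₐ[ℂ] A) : Submodule R (E → A) where
  carrier := {y | ∀ a, π (idem Q o) * y a * π (idem Q (Q.tgt a)) = y a ∧ (Q.src a ≠ o → y a = 0)}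
  add_mem' := by
    intro x y hx hy a
    refine ⟨?_, fun h => ?_⟩
    · rw [Pi.add_apply, mul_add, add_mul, (hx a).1, (hy a).1]
    · rw [Pi.add_apply, (hx a).2 h, (hy a).2 h, add_zero]
  zero_mem' := fun a => ⟨by rw [Pi.zero_apply, mul_zero, zero_mul], fun _ => rfl⟩
  smul_mem' := by
    intro c x hx a
    refine ⟨?_, fun h => ?_⟩
    · rw [Pi.smul_apply, mul_smul_comm, smul_mul_assoc, (hx a).1]
    · rw [Pi.smul_apply, (hx a).2 h, smul_zero]

/-- The first syzygy term at the vertex `o`. -/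
def F1 (R : Type) {A : Type} [CommRing R] [Ring A] [Algebra ℂ A] [Algebra R A] (o : V)
    (π : Hat Q →ₐ[ℂ] A) : Submodule R (E → A) where
  carrier := {y | ∀ b, π (idem Q o) * y b * π (idem Q (Q.src b)) = y b ∧ (Q.tgt b ≠ o → y b = 0)}
  add_mem' := by
    intro x y hx hy a
    refine ⟨?_, fun h => ?_⟩
    · rw [Pi.add_apply, mul_add, add_mul, (hx a).1, (hy a).1]
    · rw [Pi.add_apply, (hx a).2 h, (hy a).2 h, add_zero]
  zero_mem' := fun a => ⟨by rw [Pi.zero_apply, mul_zero, zero_mul], fun _ => rfl⟩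
  smul_mem' := by
    intro c x hx a
    refine ⟨?_, fun h => ?_⟩
    · rw [Pi.smul_apply, mul_smul_comm, smul_mul_assoc, (hx a).1]
    · rw [Pi.smul_apply, (hx a).2 h, smul_zero]

end Pool.Agent.Flop
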