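import Pool.Agent.Lib.FlA.Def3

/-!
# Internal definitions: presentations of complete local rings
-/

set_option autoImplicit false

namespace Pool.Agent.Flop

open Finset MvPowerSeries

/-- `R` is presented by `θ` as `ℂ[[x_1,..,x_4]]/(g)`, an isolated singularity. -/
structure Prs {R : Type} [CommRing R] [Algebra ℂ R] (g : MvPowerSeries (Fin 4) ℂ)
    (θ : MvPowerSeries (Fin 4) ℂ →ₐ[ℂ] R) : Prop where
  two : g ∈ Od 4 2
  iso : ∃ N, Od 4 N ≤ Ideal.span (insert g (Set.range fun i => pderiv ℂ i g))
  surj : Function.Surjective θ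
  ker : ∀ p, θ p = 0 ↔ g ∣ p

/-- The part of weight `μ` of a power series for the weights `l` of the variables. -/
noncomputable def cpt {n : ℕ} (l : Fin n → ℚ) (μ : ℚ) :
    MvPowerSeries (Fin n) ℂ →ₗ[ℂ] MvPowerSeries (Fin n) ℂ where
  toFun p := fun e => if ∑ i, e i • l i = μ then coeff e p else 0
  map_add' p q := by
    ext e
    change (if _ then coeff e (p + q) else 0) =
      (if _ then coeff e p else 0) + (if _ then coeff e q else 0)
    split_ifs
    · rw [map_add]
    · rw [add_zero]
  map_smul' c p := by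
    ext e
    change (if _ then coeff e (c • p) else 0) = c * (if _ then coeff e p else 0)
    split_ifs
    · rfl
    · rw [mul_zero]

theorem coeff_cpt {n : ℕ} (l : Fin n → ℚ) (μ : ℚ) (p : MvPowerSeries (Fin n) ℂ) (e : Fin n →₀ ℕ) :
    coeff e (cpt l μ p) = if ∑ i, e i • l i = μ then coeff e p else 0 := rfl

end Pool.Agent.Flop
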