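import Pool.Agent.Lib.FlA.Def4

/-!
# Def6: definition: matrix factorizations presenting a module (nothing to prove)

No proofs.
-/

set_option autoImplicit false

namespace Pool.Agent.Flop

open Finset MvPowerSeries

/-- A matrix factorization `(φ, ψ)` of `g` such that `φ` presents the module `N` over
`R = ℂ[[x_1, .., x_4]]/(g)` with the generators `n k`. -/
structure MFac {R : Type} [CommRing R] [Algebra ℂ R] {N : Type} [AddCommGroup N] [Module R N]
    (g : MvPowerSeries (Fin 4) ℂ) (θ : MvPowerSeries (Fin 4) ℂ →ₐ[ℂ] R) {a b : ℕ} (n : Fin a → N)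
    (φ : Matrix (Fin a) (Fin b) (MvPowerSeries (Fin 4) ℂ))
    (ψ : Matrix (Fin b) (Fin a) (MvPowerSeries (Fin 4) ℂ)) : Prop where
  gen : ∀ x : N, ∃ u : Fin a → MvPowerSeries (Fin 4) ℂ, x = ∑ k, θ (u k) • n k
  rel : ∀ u : Fin a → MvPowerSeries (Fin 4) ℂ, ∑ k, θ (u k) • n k = 0 ↔ ∃ v, u = φ.mulVec v
  left : φ * ψ = g • (1 : Matrix (Fin a) (Fin a) (MvPowerSeries (Fin 4) ℂ))
  right : ψ * φ = g • (1 : Matrix (Fin b) (Fin b) (MvPowerSeries (Fin 4) ℂ))

end Pool.Agent.Flop
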