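import Pool.Agent.Lib.MP_03045c_ag.Defs

/-!
# Flopping contractions: the algebraic data

Restriction of potentials to the full subquiver without the vertex of the trivial summand, and the
structure `IsFlopModel`: an isolated hypersurface singularity `R` of dimension 3 and a
Cohen-Macaulay endomorphism algebra `A = End_R(R ⊕ N_1 ⊕ .. ⊕ N_t)` which is presented by a quiver
with potential.
-/

set_option autoImplicit false

namespace Pool.Agent.Flop

open Finset

/-- The full subquiver on the vertices different from `o`. -/
def Qv.del {V E : Type} (Q : Qv V E) (o : V) :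
    Qv {v : V // v ≠ o} {a : E // Q.src a ≠ o ∧ Q.tgt a ≠ o} where
  src a := ⟨Q.src a.1, a.2.1⟩
  tgt a := ⟨Q.tgt a.1, a.2.2⟩

theorem Qv.isPath_del {V E : Type} {Q : Qv V E} {o : V} {i j : {v : V // v ≠ o}}
    {l : List {a : E // Q.src a ≠ o ∧ Q.tgt a ≠ o}} :
    (Q.del o).IsPath i l j ↔ Q.IsPath i.1 (l.map Subtype.val) j.1 := by
  induction l generalizing i with
  | nil => exact ⟨fun h => congrArg Subtype.val h, fun h => Subtype.ext h⟩
  | cons a l ih =>
    refine and_congr ⟨fun h => congrArg Subtype.val h, fun h => Subtype.ext h⟩ ?_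
    exact ih

variable {V E : Type} [Fintype V] [DecidableEq V] [DecidableEq E] {Q : Qv V E}

/-- The restriction of a series to the full subquiver on the vertices different from `o`: all
paths through `o` are killed. -/
noncomputable def res (o : V) (f : Hat Q) : Hat (Q.del o) :=
  ⟨fun i j l => f.cf i.1 j.1 (l.map Subtype.val), fun i j l hl =>
    Qv.isPath_del.2 (f.2 i.1 j.1 (l.map Subtype.val) hl)⟩

/-- The Tjurina ideal of `g`, generated by `g` and its partial derivatives. -/
noncomputable def tjurina (g : MvPowerSeries (Fin 4) ℂ) : Ideal (MvPowerSeries (Fin 4) ℂ) :=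
  Ideal.span (insert g (Set.range fun i => MvPowerSeries.pderiv ℂ i g))

/-- `R` is the complete local ring of an isolated hypersurface singularity of dimension 3:
`R = ℂ[[x_1, .., x_4]]/(g)` for a power series `g` without constant and linear terms, and the
Tjurina algebra of `g` has finite dimension. -/
def IsIsolated (R : Type) [CommRing R] [Algebra ℂ R] : Prop :=
  ∃ g : MvPowerSeries (Fin 4) ℂ,
    (∀ e : Fin 4 →₀ ℕ, e.degree < 2 → MvPowerSeries.coeff e g = 0) ∧
    Module.Finite ℂ (MvPowerSeries (Fin 4) ℂ ⧸ tjurina g) ∧
    Nonempty (R ≃ₐ[ℂ] MvPowerSeries (Fin 4) ℂ ⧸ Ideal.span {g})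

/-- `A` has depth at least 3: some sequence of length 3 of non-units of `R` is regular on `A`. -/
def HasDepth3 (R A : Type) [CommRing R] [AddCommGroup A] [Module R A] : Prop :=
  ∃ f₁ f₂ f₃ : R, ¬ IsUnit f₁ ∧ ¬ IsUnit f₂ ∧ ¬ IsUnit f₃ ∧
    RingTheory.Sequence.IsWeaklyRegular A [f₁, f₂, f₃]

/-- `A` is the algebra of the endomorphisms of the direct sum of the finitely generated `R`-modules
`N i`, and `e i` corresponds to the projection to the summand `N i`. -/
def IsEndAlg {V : Type} [DecidableEq V] (R : Type) {A : Type} [CommRing R] [Ring A] [Algebra R A]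
    (N : V → Type) [∀ i, AddCommGroup (N i)] [∀ i, Module R (N i)] (e : V → A) : Prop :=
  (∀ i, Module.Finite R (N i)) ∧ ∃ ε : A ≃ₐ[R] Module.End R (∀ i, N i),
    ∀ i, ε (e i) = (LinearMap.single R N i) ∘ₗ (LinearMap.proj i)

/-- The shape of the quiver of a flopping contraction, where the vertices different from `o` are
the exceptional curves `C_i` and the arrows between different curves are their points of
intersection: a tree of curves which meet transversally, at most three through a point. -/
structure IsCurveQuiver {V E : Type} (Q : Qv V E) (o : V) : Prop where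
  /-- there is at most one arrow between different vertices (different from `o`) -/
  single : ∀ a b, Q.src a ≠ o → Q.tgt a ≠ o → Q.src a ≠ Q.tgt a → Q.src b = Q.src a →
    Q.tgt b = Q.tgt a → a = b
  /-- there are no simple cycles of length at least 4 which avoid `o` -/
  cycles : ∀ k : ℕ, 4 ≤ k → ∀ v : ZMod k → V, Function.Injective v → (∀ i, v i ≠ o) →
    ¬ ∀ i, ∃ a, Q.src a = v i ∧ Q.tgt a = v (i + 1)

/-- `π` induces an isomorphism from the Jacobi algebra of the potential `W` to `A`, and `W` has no
terms of length less than 3. -/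
def IsJacobi {A : Type} [Ring A] [Algebra ℂ A] (W : Hat Q) (π : Hat Q →ₐ[ℂ] A) : Prop :=
  W ∈ Fil Q 3 ∧ Function.Surjective π ∧ ∀ f, π f = 0 ↔ f ∈ jac W

/-- The algebraic data of a flopping contraction `Y → X = Spec R` of a smooth threefold, with
exceptional curves `C_i` for the vertices `i ≠ o`: the complete local ring `R`, the modules `N i`
(`N o = R`), the algebra `A = End_R(⊕ N i)`, and a potential `W` on a quiver `Q` whose Jacobi
algebra is `A`, via `π`. A path from `i` to `j` is an element of `e_i A e_j = Hom_R(N_j, N_i)`. -/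
structure IsFlopModel (R : Type) {A : Type} [CommRing R] [Algebra ℂ R] [Ring A] [Algebra ℂ A]
    [Algebra R A] (Q : Qv V E) (o : V) (N : V → Type) [∀ i, AddCommGroup (N i)]
    [∀ i, Module R (N i)] (W : Hat Q) (π : Hat Q →ₐ[ℂ] A) : Prop where
  /-- `R` is an isolated hypersurface singularity (Reid) -/
  isolated : IsIsolated R
  /-- `R` is a domain -/
  domain : IsDomain R
  /-- the trivial summand -/
  triv : Nonempty (N o ≃ₗ[R] R)
  /-- the summands are different from zero -/
  nonzero : ∀ i, Nontrivial (N i)
  /-- `A` is the endomorphism algebra, and the vertices correspond to the summands -/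
  endo : IsEndAlg R N fun i => π (idem Q i)
  /-- `A` is Cohen-Macaulay (Van den Bergh) -/
  depth : HasDepth3 R A
  /-- `A` is the Jacobi algebra of `W` (Van den Bergh) -/
  jacobi : IsJacobi W π
  /-- the exceptional curves meet like this because `R^1 f_* O_Y = 0` -/
  curves : IsCurveQuiver Q o

end Pool.Agent.Flop
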