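import Pool.Agent.Lib.FlA.SDer

/-!
# Rad: the radical lemma: shift derivations preserving a cofinite ideal preserve the radical

Enough (IsSDer.isDer): D f in Fil 1 for f in Fil 1, that is (D f).cf i j [] = 0; for i <> j always true (`Hat.cf_nil`). Fix i and put c(y) = y.cf i i []; c is multiplicative. The map Phi(g) = sum_m c(D^m g) / m! X^m to the power series is
multiplicative (compare coefficients; the derivative of Phi(g) is Phi(D g)). Phi(f) = X * h with h(0) = c(D f) = k, so the coefficient of X^N in Phi(f^N) is k^N. For N = K + 1: f^N in Fil N <= Fil K <= I, so D^N (f^N) in I <= Fil 1 and k^N = 0.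
-/

set_option autoImplicit false

namespace Pool.Agent.Flop

open Finset

variable {V E : Type} [Fintype V] [DecidableEq V] [DecidableEq E] {Q : Qv V E}

private theorem rad_cf_mul (f g : Hat Q) (i : V) :
    (f * g).cf i i [] = f.cf i i [] * g.cf i i [] := by
  rw [Hat.cf_mul]
  simp only [List.length_nil, zero_add, Finset.range_one, Finset.sum_singleton, List.take_nil,
    List.drop_nil]
  rw [Finset.sum_eq_single i]
  · intro k _ hk
    rw [Hat.cf_nil f (Ne.symm hk), zero_mul]
  · intro h
    exact absurd (mem_univ i) h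

private noncomputable def radPhi (D : Hat Q →ₗ[ℂ] Hat Q) (i : V) (g : Hat Q) : PowerSeries ℂ :=
  PowerSeries.mk fun m => (D^[m] g).cf i i [] / (m.factorial : ℂ)

private theorem rad_coeff (D : Hat Q →ₗ[ℂ] Hat Q) (i : V) (g : Hat Q) (m : ℕ) :
    PowerSeries.coeff m (radPhi D i g) = (D^[m] g).cf i i [] / (m.factorial : ℂ) := by
  rw [radPhi, PowerSeries.coeff_mk]

private theorem rad_succ (D : Hat Q →ₗ[ℂ] Hat Q) (i : V) (g : Hat Q) (m : ℕ) :
    PowerSeries.coeff (m + 1) (radPhi D i g) * ((m : ℂ) + 1) =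
      PowerSeries.coeff m (radPhi D i (D g)) := by
  rw [rad_coeff, rad_coeff, Function.iterate_succ_apply, Nat.factorial_succ]
  have h1 : ((m : ℂ) + 1) ≠ 0 := by exact_mod_cast Nat.succ_ne_zero m
  have h2 : ((m.factorial : ℕ) : ℂ) ≠ 0 := by exact_mod_cast Nat.factorial_ne_zero m
  push_cast
  field_simp

private theorem rad_der (D : Hat Q →ₗ[ℂ] Hat Q) (i : V) (g : Hat Q) :
    PowerSeries.derivative ℂ (radPhi D i g) = radPhi D i (D g) := by
  ext m
  rw [PowerSeries.coeff_derivative, rad_succ]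

private theorem rad_add (D : Hat Q →ₗ[ℂ] Hat Q) (i : V) (f g : Hat Q) :
    radPhi D i (f + g) = radPhi D i f + radPhi D i g := by
  ext m
  rw [map_add, rad_coeff, rad_coeff, rad_coeff, iterate_map_add, Hat.cf_add, add_div]

private theorem rad_mul {D : Hat Q →ₗ[ℂ] Hat Q} (hD : IsSDer D) (i : V) (m : ℕ) :
    ∀ f g : Hat Q, PowerSeries.coeff m (radPhi D i (f * g)) =
      PowerSeries.coeff m (radPhi D i f * radPhi D i g) := by
  induction m with
  | zero =>
    intro f g
    rw [PowerSeries.coeff_mul, Finset.Nat.antidiagonal_zero, Finset.sum_singleton, rad_coeff,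
      rad_coeff, rad_coeff]
    simp only [Function.iterate_zero, id, Nat.factorial_zero, Nat.cast_one, div_one]
    exact rad_cf_mul f g i
  | succ m ih =>
    intro f g
    have h1 : ((m : ℂ) + 1) ≠ 0 := by exact_mod_cast Nat.succ_ne_zero m
    refine mul_right_cancel₀ h1 ?_
    rw [rad_succ, hD.leib, rad_add, map_add, ih, ih, ← PowerSeries.coeff_derivative,
      Derivation.leibniz, rad_der, rad_der, map_add, smul_eq_mul, smul_eq_mul]
    rw [mul_comm (radPhi D i g) (radPhi D i (D f)), add_comm]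

private theorem rad_pow {D : Hat Q →ₗ[ℂ] Hat Q} (hD : IsSDer D) (i : V) (f : Hat Q) (n : ℕ) :
    radPhi D i (f ^ (n + 1)) = radPhi D i f ^ (n + 1) := by
  induction n with
  | zero => rw [zero_add, pow_one, pow_one]
  | succ n ih =>
    rw [pow_succ, pow_succ (radPhi D i f), ← ih]
    ext m
    exact rad_mul hD i m _ _

private theorem rad_pow_mem {f : Hat Q} (hf : f ∈ Fil Q 1) (n : ℕ) : f ^ n ∈ Fil Q n := by
  induction n with
  | zero => rw [Fil_zero]; trivial
  | succ n ih => rw [pow_succ]; exact mul_mem_Fil ih hf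

private theorem rad_iter (D : Hat Q →ₗ[ℂ] Hat Q) (I : Submodule ℂ (Hat Q))
    (h3 : ∀ f ∈ I, D f ∈ I) (n : ℕ) : ∀ f ∈ I, D^[n] f ∈ I := by
  induction n with
  | zero => intro f hf; exact hf
  | succ n ih =>
    intro f hf
    rw [Function.iterate_succ_apply]
    exact ih _ (h3 f hf)

theorem isDer_of_sder [Fintype E] {D : Hat Q →ₗ[ℂ] Hat Q} (hD : IsSDer D)
    (I : Submodule ℂ (Hat Q)) (K : ℕ) (h1 : Fil Q K ≤ I) (h2 : I ≤ Fil Q 1)
    (h3 : ∀ f ∈ I, D f ∈ I) : IsDer D := by
  refine hD.isDer fun f hf => ?_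
  rw [mem_Fil]
  intro i j l hl
  have hl0 : l = [] := List.length_eq_zero_iff.1 (by omega)
  subst hl0
  by_cases hij : i = j
  · subst hij
    have hc : PowerSeries.coeff 0 (radPhi D i f) = 0 := by
      rw [rad_coeff]
      simp only [Function.iterate_zero, id, Nat.factorial_zero, Nat.cast_one, div_one]
      exact mem_Fil.1 hf i i [] (by simp)
    have hX : (PowerSeries.X : PowerSeries ℂ) ∣ radPhi D i f := by
      rw [PowerSeries.X_dvd_iff]
      simpa using hc
    obtain ⟨h, hh⟩ := hX
    have hk : PowerSeries.coeff 0 h = (D f).cf i i [] := by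
      have e1 : PowerSeries.coeff 1 (radPhi D i f) = PowerSeries.coeff 0 h := by
        rw [hh]
        exact PowerSeries.coeff_succ_X_mul 0 h
      rw [← e1, rad_coeff]
      simp
    have hN : PowerSeries.coeff (K + 1) (radPhi D i (f ^ (K + 1))) = ((D f).cf i i []) ^ (K + 1) := by
      rw [rad_pow hD, hh, mul_pow, ← hk]
      have e2 := PowerSeries.coeff_X_pow_mul (h ^ (K + 1)) (K + 1) 0
      rw [zero_add] at e2
      rw [e2]
      simp
    have hz : PowerSeries.coeff (K + 1) (radPhi D i (f ^ (K + 1))) = 0 := by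
      rw [rad_coeff]
      have m1 : f ^ (K + 1) ∈ I := h1 (Fil_anti (Nat.le_succ K) (rad_pow_mem hf (K + 1)))
      have m2 := h2 (rad_iter D I h3 (K + 1) _ m1)
      rw [mem_Fil.1 m2 i i [] (by simp), zero_div]
    rw [hz] at hN
    exact pow_eq_zero_iff (Nat.succ_ne_zero K) |>.1 hN.symm
  · exact Hat.cf_nil _ hij

end Pool.Agent.Flop
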