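import Pool.Agent.Lib.FlA.Krl
import Pool.Agent.Lib.FlA.Rad

/-!
# DerA: shift derivations preserving the Jacobi ideal of a model preserve the radical

Δ : A -> A, Δ (π f) = π (D f), well defined (hJ, h.ker, h.surj), ℂ-linear, Leibniz. Δ preserves the centre: for z central, differentiate z x = x z: (Δ z) x + z Δ x = (Δ x) z + x Δ z, so (Δ z) x = x (Δ z). So Δ (r • 1) = v r • 1 (h.cen; unique by tf, 1 <> 0), v is a derivation of R over ℂ
(`Derivation.mk'`: v (r s) • 1 = Δ ((r • 1) * (s • 1))). By hv, v m <= m. I := {f | π f in MA 1} (submodule over ℂ). Δ (MA 1) <= MA 1: Δ (r • x) = Δ ((r • 1) * x) = v r • x + r • Δ x. So D I <= I. I >= Fil K (MA_of_fil with n = 1), I <= Fil 1 (fil_of_MA). Now `isDer_of_sder` (Rad).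
-/

set_option autoImplicit false

namespace Pool.Agent.Flop

open Finset

variable {V E : Type} [Fintype V] [DecidableEq V] [DecidableEq E] [Fintype E] {Q : Qv V E}
variable {R A : Type} [CommRing R] [IsLocalRing R] [IsNoetherianRing R] [Algebra ℂ R] [Ring A]
  [Algebra ℂ A] [Algebra R A] [IsScalarTower ℂ R A] {o : V} {W : Hat Q} {π : Hat Q →ₐ[ℂ] A}

/-- Addition laws for the induced map. -/
private theorem derA_props (h : Mdl R o W π) {D : Hat Q →ₗ[ℂ] Hat Q} (hD : IsSDer D)
    (hJ : ∀ f ∈ jac W, D f ∈ jac W) : ∃ Δ : A →ₗ[ℂ] A, (∀ f, Δ (π f) = π (D f)) ∧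
      ∀ x y, Δ (x * y) = Δ x * y + x * Δ y := by
  have hwd : ∀ f g, π f = π g → π (D f) = π (D g) := by
    intro f g hfg
    have h1 : f - g ∈ jac W := (h.ker _).1 (by rw [map_sub, hfg, sub_self])
    have h2 := (h.ker _).2 (hJ _ h1)
    rw [map_sub, map_sub] at h2
    exact sub_eq_zero.1 h2
  choose s hs using h.surj
  have hΔ : ∀ f, π (D (s (π f))) = π (D f) := fun f => hwd _ _ (hs _)
  refine ⟨{ toFun := fun x => π (D (s x)), map_add' := ?_, map_smul' := ?_ }, hΔ, ?_⟩
  · intro x y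
    have h1 : π (s (x + y)) = π (s x + s y) := by rw [hs, map_add, hs, hs]
    change π (D (s (x + y))) = π (D (s x)) + π (D (s y))
    rw [hwd _ _ h1, map_add, map_add]
  · intro c x
    have h1 : π (s (c • x)) = π (c • s x) := by rw [hs, map_smul, hs]
    change π (D (s (c • x))) = (RingHom.id ℂ) c • π (D (s x))
    rw [hwd _ _ h1, map_smul, map_smul, RingHom.id_apply]
  · intro x y
    have h1 : π (s (x * y)) = π (s x * s y) := by rw [hs, map_mul, hs, hs]
    change π (D (s (x * y))) = π (D (s x)) * y + x * π (D (s y))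
    rw [hwd _ _ h1, hD.leib, map_add, map_mul, map_mul, hs, hs]

/-- The induced derivation of the centre. -/
private theorem derA_center (h : Mdl R o W π) (Δ : A →ₗ[ℂ] A)
    (hL : ∀ x y, Δ (x * y) = Δ x * y + x * Δ y) :
    ∃ v : Derivation ℂ R R, ∀ r : R, Δ (r • (1 : A)) = v r • (1 : A) := by
  have h10 : (1 : A) ≠ 0 := by
    intro h0
    refine h.idem_not (f := 0) (Submodule.zero_mem _) o ?_
    rw [← one_mul (π (idem Q o)), h0, zero_mul, ← one_mul (π 0), h0, zero_mul]
  have huniq : ∀ r s : R, r • (1 : A) = s • (1 : A) → r = s := by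
    intro r s hrs
    have h1 : (r - s) • (1 : A) = 0 := by rw [sub_smul, hrs, sub_self]
    rcases h.tf _ _ h1 with h2 | h2
    · exact sub_eq_zero.1 h2
    · exact absurd h2 h10
  have hcen : ∀ r : R, ∃ t : R, Δ (r • (1 : A)) = t • (1 : A) := by
    intro r
    refine h.cen _ fun x => ?_
    have h1 : (r • (1 : A)) * x = x * (r • (1 : A)) := by
      rw [smul_mul_assoc, mul_smul_comm, one_mul, mul_one]
    have h2 := congrArg Δ h1
    rw [hL, hL, smul_mul_assoc, mul_smul_comm, one_mul, mul_one, add_comm (r • Δ x)] at h2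
    exact add_right_cancel h2
  choose v hv using hcen
  have hadd : ∀ r s, v (r + s) = v r + v s := fun r s => huniq _ _ (by
    rw [← hv, add_smul, map_add, hv, hv, add_smul])
  have hsm : ∀ (c : ℂ) (r : R), v (c • r) = c • v r := fun c r => huniq _ _ (by
    rw [← hv, smul_assoc, map_smul, hv, smul_assoc])
  refine ⟨Derivation.mk' { toFun := v, map_add' := hadd, map_smul' := hsm } ?_, hv⟩
  intro a b
  change v (a * b) = a • v b + b • v a
  refine huniq _ _ ?_
  have h1 : (a * b) • (1 : A) = (a • (1 : A)) * (b • (1 : A)) := by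
    rw [smul_mul_assoc, one_mul, smul_smul]
  rw [← hv, h1, hL, hv, hv, smul_mul_assoc, one_mul, smul_mul_assoc, one_mul, smul_smul,
    smul_smul, ← add_smul, smul_eq_mul, smul_eq_mul]
  congr 1
  ring

theorem Mdl.isDer (h : Mdl R o W π)
    (hv : ∀ v : Derivation ℂ R R, ∀ r ∈ IsLocalRing.maximalIdeal R,
      v r ∈ IsLocalRing.maximalIdeal R)
    {D : Hat Q →ₗ[ℂ] Hat Q} (hD : IsSDer D) (hJ : ∀ f ∈ jac W, D f ∈ jac W) : IsDer D := by
  obtain ⟨Δ, hΔ, hL⟩ := derA_props h hD hJ
  obtain ⟨v, hvΔ⟩ := derA_center h Δ hL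
  have hΔM : ∀ x ∈ MA R A 1, Δ x ∈ MA R A 1 := by
    intro x hx
    rw [MA, pow_one] at hx ⊢
    refine Submodule.smul_induction_on hx ?_ ?_
    · intro r hr y _
      have h1 : r • y = (r • (1 : A)) * y := by rw [smul_mul_assoc, one_mul]
      rw [h1, hL, hvΔ, smul_mul_assoc, one_mul, smul_mul_assoc, one_mul]
      exact Submodule.add_mem _ (Submodule.smul_mem_smul (hv v r hr) Submodule.mem_top)
        (Submodule.smul_mem_smul hr Submodule.mem_top)
    · intro x y hx hy
      rw [map_add]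
      exact Submodule.add_mem _ hx hy
  obtain ⟨K, hK⟩ := h.MA_of_fil 1
  refine isDer_of_sder hD (((MA R A 1).restrictScalars ℂ).comap π.toLinearMap) K ?_ ?_ ?_
  · intro f hf
    exact hK f hf
  · intro f hf
    exact h.fil_of_MA hf
  · intro f hf
    have h1 : π f ∈ MA R A 1 := hf
    have h2 := hΔM _ h1
    rw [hΔ] at h2
    exact h2

end Pool.Agent.Flop
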