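import Mathlib

/-!
# DerK: extension of a derivation to the fraction field

K fraction field of the domain R. Define δ' (x) for x = a/b: (δ a * b - a * δ b)/b^2; well defined: if a/b = c/d, a d = c b, then ... (standard). In Lean: use `IsLocalization.lift`-type argument with dual numbers: the ring homomorphism R -> TrivSqZeroExt K K (or DualNumber K), r ↦ r + δ(r) ε maps nonzero elements to units
(inl of a unit plus nilpotent: `TrivSqZeroExt.isUnit_iff_isUnit_fst`), so it extends to K -> DualNumber K by `IsLocalization.lift` / `IsFractionRing`; first component is the identity (ring homs K -> K agreeing on R: `IsLocalization.ringHom_ext`), the second component is δ'.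
-/

set_option autoImplicit false

namespace Pool.Agent.Flop

/-- `r ↦ r + δ r ε` -/
private def derK_hom {R K : Type} [CommRing R] [Algebra ℂ R] [Field K] [Algebra R K]
    (δ : Derivation ℂ R R) : R →+* TrivSqZeroExt K K where
  toFun r := (algebraMap R K r, algebraMap R K (δ r))
  map_one' := by
    apply TrivSqZeroExt.ext
    · show algebraMap R K 1 = 1
      rw [map_one]
    · show algebraMap R K (δ 1) = 0
      rw [δ.map_one_eq_zero, map_zero]
  map_mul' := by
    intro x y
    apply TrivSqZeroExt.ext
    · show algebraMap R K (x * y) = algebraMap R K x * algebraMap R K y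
      rw [map_mul]
    · show algebraMap R K (δ (x * y)) = algebraMap R K x * algebraMap R K (δ y) +
        algebraMap R K (δ x) * algebraMap R K y
      rw [δ.leibniz, map_add, smul_eq_mul, smul_eq_mul, map_mul, map_mul]
      ring
  map_zero' := by
    apply TrivSqZeroExt.ext
    · show algebraMap R K 0 = 0
      rw [map_zero]
    · show algebraMap R K (δ 0) = 0
      rw [map_zero, map_zero]
  map_add' := by
    intro x y
    apply TrivSqZeroExt.ext
    · show algebraMap R K (x + y) = algebraMap R K x + algebraMap R K y
      rw [map_add]
    · show algebraMap R K (δ (x + y)) = algebraMap R K (δ x) + algebraMap R K (δ y)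
      rw [map_add, map_add]

theorem exists_ext_der {R K : Type} [CommRing R] [IsDomain R] [Algebra ℂ R] [Field K] [Algebra R K]
    [IsFractionRing R K] (δ : Derivation ℂ R R) :
    ∃ δ' : K →+ K, (∀ x y, δ' (x * y) = δ' x * y + x * δ' y) ∧
      ∀ r : R, δ' (algebraMap R K r) = algebraMap R K (δ r) := by
  have hu : ∀ y : nonZeroDivisors R, IsUnit (derK_hom (K := K) δ y) := by
    intro y
    rw [TrivSqZeroExt.isUnit_iff_isUnit_fst]
    exact IsLocalization.map_units K y
  let F : K →+* TrivSqZeroExt K K := IsLocalization.lift hu
  have hF : ∀ r : R, F (algebraMap R K r) = derK_hom (K := K) δ r := fun r =>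
    IsLocalization.lift_eq hu r
  have hfst : ∀ x : K, (F x).fst = x := by
    have h : ((TrivSqZeroExt.fstHom K K K).toRingHom.comp F) = RingHom.id K := by
      refine IsLocalization.ringHom_ext (nonZeroDivisors R) ?_
      apply RingHom.ext
      intro r
      show (F (algebraMap R K r)).fst = algebraMap R K r
      rw [hF]
      rfl
    intro x
    exact RingHom.congr_fun h x
  refine ⟨AddMonoidHom.mk' (fun x => (F x).snd) ?_, ?_, ?_⟩
  · intro x y
    rw [map_add, TrivSqZeroExt.snd_add]
  · intro x y
    show (F (x * y)).snd = (F x).snd * y + x * (F y).snd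
    rw [map_mul, TrivSqZeroExt.snd_mul, hfst, hfst, smul_eq_mul, MulOpposite.smul_eq_mul_unop,
      MulOpposite.unop_op]
    ring
  · intro r
    show (F (algebraMap R K r)).snd = algebraMap R K (δ r)
    rw [hF]
    rfl

end Pool.Agent.Flop
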