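import Mathlib

/-!
# Dvs: a division lemma of depth two

Step 1: if f1 * w' = v * b (all components: f1 * w' j = v * b j) then w' = u' * b: v b j = 0 mod f1 for all j; f2^N = sum c_j b_j, so f2^N * v = f1 * (sum c_j w' j); by h2 applied N times (f2 * (f2^(N-1) v) = f1 * (..)) v = f1 * u', hence f1 * (w' j - u' * b j) = 0, so w' j = u' b j.
Step 2: f1^N = sum c_i b_i, so f1^N * w j = sum c_i b_i w j = (sum c_i w i) * b j. Apply step 1 N times: f1 * (f1^(N-1) w) = v b gives f1^(N-1) w = v' b, ... , w = u b.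
-/

set_option autoImplicit false

namespace Pool.Agent.Flop

theorem exists_mul_of_minors {R : Type} [CommRing R] {n : ℕ} (b w : Fin n → R) (f1 f2 : R) (N : ℕ)
    (h1 : ∀ x, f1 * x = 0 → x = 0) (h2 : ∀ x y, f2 * x = f1 * y → ∃ z, x = f1 * z)
    (hN1 : f1 ^ N ∈ Ideal.span (Set.range b)) (hN2 : f2 ^ N ∈ Ideal.span (Set.range b))
    (hw : ∀ i j, w i * b j = w j * b i) : ∃ u, ∀ i, w i = u * b i := by
  obtain ⟨c1, hc1⟩ := (Ideal.mem_span_range_iff_exists_fun).1 hN1
  obtain ⟨c2, hc2⟩ := (Ideal.mem_span_range_iff_exists_fun).1 hN2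
  have hpow : ∀ (M : ℕ) (v y : R), f2 ^ M * v = f1 * y → ∃ z, v = f1 * z := by
    intro M
    induction M with
    | zero =>
      intro v y h
      exact ⟨y, by rw [← h, pow_zero, one_mul]⟩
    | succ M ih =>
      intro v y h
      obtain ⟨z, hz⟩ := h2 (f2 ^ M * v) y (by rw [← h, pow_succ]; ring)
      exact ih v z hz
  have step1 : ∀ (w' : Fin n → R) (v : R), (∀ j, f1 * w' j = v * b j) →
      ∃ u, ∀ j, w' j = u * b j := by
    intro w' v h
    have h3 : f2 ^ N * v = f1 * ∑ j, c2 j * w' j := by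
      rw [← hc2, Finset.sum_mul, Finset.mul_sum]
      refine Finset.sum_congr rfl fun j _ => ?_
      calc c2 j * b j * v = c2 j * (v * b j) := by ring
        _ = c2 j * (f1 * w' j) := by rw [h j]
        _ = f1 * (c2 j * w' j) := by ring
    obtain ⟨u, hu⟩ := hpow N v _ h3
    refine ⟨u, fun j => ?_⟩
    have h4 : f1 * (w' j - u * b j) = 0 := by
      rw [mul_sub, h j, hu]
      ring
    exact sub_eq_zero.1 (h1 _ h4)
  have step2 : ∀ (M : ℕ) (w' : Fin n → R) (v : R), (∀ j, f1 ^ M * w' j = v * b j) →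
      ∃ u, ∀ j, w' j = u * b j := by
    intro M
    induction M with
    | zero =>
      intro w' v h
      exact ⟨v, fun j => by rw [← h j, pow_zero, one_mul]⟩
    | succ M ih =>
      intro w' v h
      obtain ⟨v', hv'⟩ := step1 (fun j => f1 ^ M * w' j) v
        (fun j => by rw [← h j, pow_succ]; ring)
      exact ih w' v' hv'
  refine step2 N w (∑ i, c1 i * w i) fun j => ?_
  rw [← hc1, Finset.sum_mul, Finset.sum_mul]
  refine Finset.sum_congr rfl fun i _ => ?_
  calc c1 i * b i * w j = c1 i * (w j * b i) := by ring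
    _ = c1 i * (w i * b j) := by rw [hw i j]
    _ = c1 i * w i * b j := by ring

end Pool.Agent.Flop
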