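import Pool.Agent.Lib.FlA.MdA

/-!
# EndF: endomorphisms in the ideal of the trivial summand factor through free modules

Let I := {x : Module.End R (∀ i, N i) | ∃ (L : ℕ) (α : Fin L → ((∀ i, N i) →ₗ[R] R)) (β : Fin L → (∀ i, N i)), ∀ y, x y = ∑ l, α l y • β l}. I is closed under addition (Fin.append / Fin.sum_univ_add with L + L'), negation (β ↦ - β), 0 (L = 0), left multiplication by z (β ↦ z ∘ β), right multiplication by z (α ↦ α ∘ z): a two-sided ideal (TwoSidedIdeal.mk'; or use the additive closure). prj R N o is in I: prj y = Pi.single o (y o) = e (y o) • Pi.single o (e.symm 1), L = 1. So span ≤ I (TwoSidedIdeal.span_le).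
Then restrict: α' l := α l ∘ single j, β' l := β l j.
-/

set_option autoImplicit false

namespace Pool.Agent.Flop

open Finset

variable {V : Type} [Fintype V] [DecidableEq V] {R : Type} [CommRing R]
  (N : V → Type) [∀ i, AddCommGroup (N i)] [∀ i, Module R (N i)]

private def FF (x : Module.End R (∀ i, N i)) : Prop :=
  ∃ (L : ℕ) (α : Fin L → ((∀ i, N i) →ₗ[R] R)) (β : Fin L → (∀ i, N i)),
    ∀ y, x y = ∑ l, α l y • β l

private theorem FF_zero : FF N (0 : Module.End R (∀ i, N i)) :=
  ⟨0, Fin.elim0, Fin.elim0, fun y => by simp⟩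

private theorem FF_add {x z : Module.End R (∀ i, N i)} (hx : FF N x) (hz : FF N z) :
    FF N (x + z) := by
  obtain ⟨L, α, β, h⟩ := hx
  obtain ⟨L', α', β', h'⟩ := hz
  refine ⟨L + L', Fin.append α α', Fin.append β β', fun y => ?_⟩
  rw [Fin.sum_univ_add]
  simp only [Fin.append_left, Fin.append_right]
  rw [LinearMap.add_apply, h, h']

private theorem FF_neg {x : Module.End R (∀ i, N i)} (hx : FF N x) : FF N (-x) := by
  obtain ⟨L, α, β, h⟩ := hx
  refine ⟨L, α, fun l => - β l, fun y => ?_⟩
  rw [LinearMap.neg_apply, h, ← Finset.sum_neg_distrib]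
  refine Finset.sum_congr rfl fun l _ => ?_
  rw [smul_neg]

private theorem FF_left {x : Module.End R (∀ i, N i)} (z : Module.End R (∀ i, N i))
    (hx : FF N x) : FF N (z * x) := by
  obtain ⟨L, α, β, h⟩ := hx
  refine ⟨L, α, fun l => z (β l), fun y => ?_⟩
  rw [Module.End.mul_apply, h, map_sum]
  refine Finset.sum_congr rfl fun l _ => ?_
  rw [map_smul]

private theorem FF_right {x : Module.End R (∀ i, N i)} (z : Module.End R (∀ i, N i))
    (hx : FF N x) : FF N (x * z) := by
  obtain ⟨L, α, β, h⟩ := hx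
  refine ⟨L, fun l => α l ∘ₗ z, β, fun y => ?_⟩
  rw [Module.End.mul_apply, h]
  rfl

private theorem FF_prj {o : V} (e : N o ≃ₗ[R] R) : FF N (prj R N o) := by
  refine ⟨1, fun _ => e.toLinearMap ∘ₗ LinearMap.proj o,
    fun _ => LinearMap.single R (fun i => N i) o (e.symm 1), fun y => ?_⟩
  rw [Fin.sum_univ_one]
  have h1 : prj R N o y = LinearMap.single R (fun i => N i) o (y o) := rfl
  have h2 : (e.toLinearMap ∘ₗ LinearMap.proj o) y = e (y o) := rfl
  rw [h1, h2, ← map_smul, ← map_smul, smul_eq_mul, mul_one, LinearEquiv.symm_apply_apply]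

theorem exists_factor_of_mem_span {o : V} (e : N o ≃ₗ[R] R) {x : Module.End R (∀ i, N i)}
    (hx : x ∈ TwoSidedIdeal.span {prj R N o}) (j : V) :
    ∃ (L : ℕ) (α : Fin L → (N j →ₗ[R] R)) (β : Fin L → N j), ∀ y : N j,
      x (LinearMap.single R (fun i => N i) j y) j = ∑ l, α l y • β l := by
  have hF : FF N x := by
    refine TwoSidedIdeal.span_induction (s := {prj R N o}) (p := fun z _ => FF N z)
      ?_ ?_ ?_ ?_ ?_ ?_ hx
    · intro z hz
      rw [Set.mem_singleton_iff.1 hz]
      exact FF_prj N e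
    · exact FF_zero N
    · intro a b _ _ ha hb
      exact FF_add N ha hb
    · intro a _ ha
      exact FF_neg N ha
    · intro a b _ hb
      exact FF_left N a hb
    · intro a b _ hb
      exact FF_right N a hb
  obtain ⟨L, α, β, h⟩ := hF
  refine ⟨L, fun l => α l ∘ₗ LinearMap.single R (fun i => N i) j, fun l => β l j, fun y => ?_⟩
  rw [h, Finset.sum_apply]
  rfl

end Pool.Agent.Flop
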