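import Pool.Agent.Lib.FlA.Bs1

/-!
# ThI: induction principle for double derivatives

For a word: word Q i l by induction on l: word Q i [] = idem Q i, and word Q i (a :: l) = arr Q a * word Q (Q.tgt a) l if Q.src a = i, else 0 (definition of `word` in NAWord or coefficients:
cf_word, cf_arr_mul). So L (word Q i l) x is in S for all x by induction: L (arr a * word) x - L (arr a) (word * x) - L word (x * arr a) in S, the other two are in S by harr and by induction.
General s: given n, take m with L s' x in Fil n for s' in Fil m (hcont), exists_words s m: s = finite combination of words + s', L s x = combination of L(word) x + L s' x (hadd, hsmul; L 0 x = 0 from hsmul with c = 0).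
So L s x is in S modulo Fil n for all n, and S is closed.
-/

set_option autoImplicit false

namespace Pool.Agent.Flop

open Finset

variable {V E : Type} [Fintype V] [DecidableEq V] [DecidableEq E] {Q : Qv V E}

private theorem thI_word {S : Submodule ℂ (Hat Q)} (L : Hat Q → Hat Q → Hat Q)
    (hsmul : ∀ (c : ℂ) s x, L (c • s) x = c • L s x)
    (hmul : ∀ s t x, L (s * t) x - L s (t * x) - L t (x * s) ∈ S)
    (hidem : ∀ v x, L (idem Q v) x ∈ S) (harr : ∀ a x, L (arr Q a) x ∈ S)
    (i : V) (l : List E) (x : Hat Q) : L (word Q i l) x ∈ S := by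
  have hmul' : ∀ s t x, L s (t * x) ∈ S → L t (x * s) ∈ S → L (s * t) x ∈ S := by
    intro s t x h1 h2
    have h3 := S.add_mem (S.add_mem (hmul s t x) h1) h2
    have h4 : L (s * t) x - L s (t * x) - L t (x * s) + L s (t * x) + L t (x * s) =
        L (s * t) x := by abel
    rwa [h4] at h3
  have h0 : L 0 x ∈ S := by
    have h1 := hsmul 0 0 x
    rw [zero_smul, zero_smul] at h1
    rw [h1]
    exact S.zero_mem
  have hprod : ∀ (l : List E) (x : Hat Q), l ≠ [] → L ((l.map (arr Q)).prod) x ∈ S := by
    intro l
    induction l with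
    | nil => intro x h; exact absurd rfl h
    | cons a l ih =>
      intro x _
      rw [List.map_cons, List.prod_cons]
      by_cases hl : l = []
      · subst hl
        rw [List.map_nil, List.prod_nil, mul_one]
        exact harr a x
      · exact hmul' _ _ _ (harr a _) (ih _ hl)
  unfold word
  by_cases hl : l = []
  · subst hl
    rw [List.map_nil, List.prod_nil, mul_one]
    exact hidem i x
  · exact hmul' _ _ _ (hidem i _) (hprod l _ hl)

theorem th_ind [Finite E] {S : Submodule ℂ (Hat Q)} (hS : IsCl S) (L : Hat Q → Hat Q → Hat Q)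
    (hadd : ∀ s t x, L (s + t) x = L s x + L t x)
    (hsmul : ∀ (c : ℂ) s x, L (c • s) x = c • L s x)
    (hmul : ∀ s t x, L (s * t) x - L s (t * x) - L t (x * s) ∈ S)
    (hidem : ∀ v x, L (idem Q v) x ∈ S) (harr : ∀ a x, L (arr Q a) x ∈ S)
    (hcont : ∀ n, ∃ m, ∀ s ∈ Fil Q m, ∀ x, L s x ∈ Fil Q n) (s x : Hat Q) : L s x ∈ S := by
  apply hS
  intro n
  obtain ⟨m, hm⟩ := hcont n
  obtain ⟨w, -, hw⟩ := exists_words s m
  have hL0 : L 0 x = 0 := by
    have h1 := hsmul 0 0 x
    rw [zero_smul, zero_smul] at h1
    exact h1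
  have hsum : ∀ (w : Finset (V × V × List E)) (c : V × V × List E → ℂ),
      L (∑ t ∈ w, c t • word Q t.1 t.2.2) x ∈ S := by
    classical
    intro w c
    induction w using Finset.induction_on with
    | empty =>
      rw [Finset.sum_empty, hL0]
      exact S.zero_mem
    | insert a w ha ih =>
      rw [Finset.sum_insert ha, hadd, hsmul]
      exact S.add_mem (S.smul_mem _ (thI_word L hsmul hmul hidem harr _ _ _)) ih
  refine ⟨_, hsum w (fun t => s.cf t.1 t.2.1 t.2.2), ?_⟩
  have h2 := hm _ hw x
  have h3 : L s x = L (s - ∑ t ∈ w, s.cf t.1 t.2.1 t.2.2 • word Q t.1 t.2.2) x +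
      L (∑ t ∈ w, s.cf t.1 t.2.1 t.2.2 • word Q t.1 t.2.2) x := by
    rw [← hadd, sub_add_cancel]
  rw [h3, add_sub_cancel_right]
  exact h2

end Pool.Agent.Flop
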