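import Pool.Agent.Lib.FlA.ThM
import Pool.Agent.Lib.FlA.ThI

/-!
# ThD: double derivatives and shift derivations

`th_der`: th_ind with S = 0 (IsCl: Fil_sep) for L F x = Th a (D F) x + Th a F (D x) - D (Th a F x) - sum_b Th a (D (arr b)) (Th b F x). hmul: with Th_mul and D.leib,
Th a (D(st)) x + Th a (st) (Dx) - D Th a (st) x = [Th a (Ds)(tx) + Th a t (x Ds) + Th a s (Dt x) + Th a (Dt)(xs)] + [Th a s (t Dx) + Th a t (Dx s)] - D[Th a s (tx) + Th a t (xs)]
= {Th a (Ds)(tx) + Th a s (D(tx)) - D Th a s (tx)} + {Th a (Dt)(xs) + Th a t (D(xs)) - D Th a t (xs)}, and the last sum splits by Th_mul for Th b (st) x and Th_add_right. hidem: Th_idem, hD.idem, Th a 0 = 0.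
harr: Th a (D (arr c)) x + Th a (arr c) (Dx) - D (Th a (arr c) x) - Th a (D (arr c)) (e x e) [Th_arr; sum over b: only b = c], where D(e x e) = e (Dx) e; and Th a (D (arr c)) (e_{tgt c} x e_{src c}) =
Th a (D (arr c)) x by Th_ends, D (arr c) = e_{src c} D(arr c) e_{tgt c} (leib applied to idem_mul_arr, arr_mul_idem). hcont: m = n + 2 (Th_Fil with n = 0, Fil_zero, hD.fil).
`cyc_der`: x = 1 in th_der: D 1 = 0 (leib: D 1 = D 1 + D 1), Th_one: cyc a (D F) = D (cyc a F) + sum_b Th a (D (arr b)) (cyc b F), and Th a s y is in jac F for y in jac F by hypothesis `hJ` (module ThJ proves it).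
`sder_sub_mem`: th_ind with S = cl (Comm Q) for L F x = x * D F - sum_a D (arr a) * Th a F x; hmul: L(st)x - L s (tx) - L t (xs) = x (Ds) t - t x (Ds), a commutator of x (Ds) and t. harr: L (arr b) x =
x D(b) - D(b) e_{tgt b} x e_{src b}, D(b) = e_{src b} D(b) e_{tgt b}: commutators of D(b) with e_{tgt b} x e_{src b}, and x D(b) - e_{tgt b} x e_{src b} D(b) = [x D(b), e_{tgt b}] ...
(x D(b) = x e_s D(b) e_t = comm + e_t x e_s D(b) = comm + D(b) e_t x e_s). Finally x = 1, Th_one.
-/

set_option autoImplicit false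

namespace Pool.Agent.Flop

open Finset

variable {V E : Type} [Fintype V] [DecidableEq V] [DecidableEq E] {Q : Qv V E}

private theorem isCl_bot : IsCl (⊥ : Submodule ℂ (Hat Q)) := by
  intro f hf
  rw [Submodule.mem_bot]
  apply Fil_sep
  intro n
  obtain ⟨s, hs, h⟩ := hf n
  rw [Submodule.mem_bot] at hs
  rwa [hs, sub_zero] at h

private theorem isCl_clComm : IsCl (cl (Comm Q)) := by
  intro f hf
  rw [← cl_cl, mem_cl]
  intro n
  obtain ⟨s, hs, h⟩ := hf n
  exact ⟨s, hs, h⟩

private theorem Th_zero_left (a : E) (x : Hat Q) : Th a 0 x = 0 := by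
  have h := Th_smul_left a 0 (0 : Hat Q) x
  rwa [zero_smul, zero_smul] at h

private theorem Th_neg_left (a : E) (s x : Hat Q) : Th a (-s) x = - Th a s x := by
  have h := Th_smul_left a (-1) s x
  rwa [neg_one_smul, neg_one_smul] at h

private theorem Th_sub_left (a : E) (s t x : Hat Q) : Th a (s - t) x = Th a s x - Th a t x := by
  rw [sub_eq_add_neg, Th_add_left, Th_neg_left, ← sub_eq_add_neg]

private theorem Th_sub_right (a : E) (s x y : Hat Q) : Th a s (x - y) = Th a s x - Th a s y := by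
  have h := Th_smul_right a (-1) s y
  rw [neg_one_smul, neg_one_smul] at h
  rw [sub_eq_add_neg, Th_add_right, h, ← sub_eq_add_neg]

private theorem Th_Fil_right {n : ℕ} (a : E) (s : Hat Q) {y : Hat Q} (hy : y ∈ Fil Q n) :
    Th a s y ∈ Fil Q n := by
  rw [mem_Fil] at hy ⊢
  intro i j l hl
  rw [cf_Th]
  split_ifs
  · refine Finset.sum_eq_zero fun p _ => Finset.sum_eq_zero fun q _ =>
      Finset.sum_eq_zero fun k₁ _ => Finset.sum_eq_zero fun k₂ _ => ?_
    rw [hy, mul_zero]
    rw [List.length_take, List.length_drop]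
    omega
  · rfl

private theorem D_arr {D : Hat Q →ₗ[ℂ] Hat Q} (hD : IsSDer D) (c : E) :
    idem Q (Q.src c) * D (arr Q c) = D (arr Q c) ∧ D (arr Q c) * idem Q (Q.tgt c) = D (arr Q c) := by
  constructor
  · have h := hD.leib (idem Q (Q.src c)) (arr Q c)
    rw [idem_mul_arr, hD.idem, zero_mul, zero_add] at h
    exact h.symm
  · have h := hD.leib (arr Q c) (idem Q (Q.tgt c))
    rw [arr_mul_idem, hD.idem, mul_zero, add_zero] at h
    exact h.symm

omit [DecidableEq E] in
private theorem D_ends {D : Hat Q →ₗ[ℂ] Hat Q} (hD : IsSDer D) (i j : V) (x : Hat Q) :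
    D (idem Q i * x * idem Q j) = idem Q i * D x * idem Q j := by
  rw [hD.leib, hD.leib, hD.idem, hD.idem, zero_mul, zero_add, mul_zero, add_zero]

private theorem Th_zero_right (a : E) (s : Hat Q) : Th a s (0 : Hat Q) = 0 := by
  have h := Th_smul_right a 0 s (0 : Hat Q)
  rwa [zero_smul, zero_smul] at h

theorem th_der [Fintype E] {D : Hat Q →ₗ[ℂ] Hat Q} (hD : IsSDer D) (a : E) (F x : Hat Q) :
    Th a (D F) x + Th a F (D x) = D (Th a F x) + ∑ b, Th a (D (arr Q b)) (Th b F x) := by
  have key := th_ind (S := (⊥ : Submodule ℂ (Hat Q))) isCl_bot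
    (fun s x => Th a (D s) x + Th a s (D x) - D (Th a s x) -
      ∑ b, Th a (D (arr Q b)) (Th b s x)) ?_ ?_ ?_ ?_ ?_ ?_ F x
  · rw [Submodule.mem_bot] at key
    rw [← sub_eq_zero, ← key]
    abel
  · intro s t x
    simp only [map_add, Th_add_left, Th_add_right, Finset.sum_add_distrib]
    abel
  · intro c s x
    simp only [map_smul, Th_smul_left, Th_smul_right, smul_sub, smul_add, Finset.smul_sum]
  · intro s t x
    rw [Submodule.mem_bot]
    have h1 : ∀ b, Th a (D (arr Q b)) (Th b (s * t) x) =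
        Th a (D (arr Q b)) (Th b s (t * x)) + Th a (D (arr Q b)) (Th b t (x * s)) := by
      intro b
      rw [Th_mul, Th_add_right]
    rw [Finset.sum_congr rfl (fun b _ => h1 b), Finset.sum_add_distrib, hD.leib, hD.leib, hD.leib,
      Th_add_left, Th_mul, Th_mul, Th_mul, Th_mul, Th_add_right, Th_add_right, map_add]
    abel
  · intro v x
    rw [Submodule.mem_bot]
    simp only [hD.idem, Th_idem, Th_zero_left, map_zero]
    have h0 : ∀ b, Th a (D (arr Q b)) (0 : Hat Q) = 0 := by
      intro b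
      have h := Th_smul_right a 0 (D (arr Q b)) (0 : Hat Q)
      rwa [zero_smul, zero_smul] at h
    rw [Finset.sum_eq_zero (fun b _ => h0 b)]
    simp
  · intro c x
    rw [Submodule.mem_bot]
    have h1 : Th a (arr Q c) (D x) = D (Th a (arr Q c) x) := by
      rw [Th_arr, Th_arr]
      split_ifs
      · rw [D_ends hD]
      · rw [map_zero]
    have h2 : ∑ b, Th a (D (arr Q b)) (Th b (arr Q c) x) = Th a (D (arr Q c)) x := by
      rw [Finset.sum_eq_single c]
      · rw [Th_arr, if_pos rfl, Th_ends a (D_arr hD c).1 (D_arr hD c).2]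
      · intro b _ hb
        rw [Th_arr, if_neg hb, Th_zero_right]
      · intro h0
        simp at h0
    rw [h1, h2]
    abel
  · intro n
    refine ⟨n + 2, fun s hs x => ?_⟩
    have hx : ∀ y : Hat Q, y ∈ Fil Q 0 := fun y => by
      rw [Fil_zero]
      exact Submodule.mem_top
    have hs1 : s ∈ Fil Q (n + 1) := Fil_anti (by omega) hs
    refine Submodule.sub_mem _ (Submodule.sub_mem _ (Submodule.add_mem _ ?_ ?_) ?_) ?_
    · exact Th_Fil a (hD.fil _ _ hs) (hx x)
    · exact Th_Fil a hs1 (hx _)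
    · exact hD.fil _ _ (Th_Fil (m := n + 1) (n := 0) a hs (hx x))
    · refine Submodule.sum_mem _ fun b _ => ?_
      exact Th_Fil_right a _ (Th_Fil b hs1 (hx x))

theorem cyc_der [Fintype E] {D : Hat Q →ₗ[ℂ] Hat Q} (hD : IsSDer D) (a : E) (F : Hat Q)
    (hJ : ∀ (s : Hat Q), ∀ x ∈ jac F, Th a s x ∈ jac F) :
    cyc a (D F) - D (cyc a F) ∈ jac F := by
  have h1 : D (1 : Hat Q) = 0 := by
    have h := hD.leib 1 1
    rw [mul_one, mul_one, one_mul] at h
    have h2 : D (1 : Hat Q) + 0 = D 1 + D 1 := by rw [add_zero]; exact h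
    exact (add_left_cancel h2).symm
  have h2 := th_der hD a F 1
  rw [h1, Th_zero_right, add_zero, Th_one, Th_one] at h2
  rw [h2, add_sub_cancel_left]
  refine Submodule.sum_mem _ fun b _ => hJ _ _ ?_
  rw [Th_one]
  exact cyc_jac F b

theorem sder_sub_mem [Fintype E] {D : Hat Q →ₗ[ℂ] Hat Q} (hD : IsSDer D) (F : Hat Q) :
    D F - ∑ a, D (arr Q a) * cyc a F ∈ cl (Comm Q) := by
  have key := th_ind (S := cl (Comm Q)) isCl_clComm
    (fun s x => x * D s - ∑ a, D (arr Q a) * Th a s x) ?_ ?_ ?_ ?_ ?_ ?_ F 1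
  · simp only [Th_one, one_mul] at key
    exact key
  · intro s t x
    simp only [map_add, Th_add_left, mul_add, Finset.sum_add_distrib]
    abel
  · intro c s x
    simp only [map_smul, Th_smul_left, smul_sub, mul_smul_comm, Finset.smul_sum]
  · intro s t x
    have h1 : ∀ b, D (arr Q b) * Th b (s * t) x =
        D (arr Q b) * Th b s (t * x) + D (arr Q b) * Th b t (x * s) := by
      intro b
      rw [Th_mul, mul_add]
    have h2 : x * D (s * t) - ∑ a, D (arr Q a) * Th a (s * t) x -
        (t * x * D s - ∑ a, D (arr Q a) * Th a s (t * x)) -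
        (x * s * D t - ∑ a, D (arr Q a) * Th a t (x * s)) = x * D s * t - t * (x * D s) := by
      rw [Finset.sum_congr rfl (fun b _ => h1 b), Finset.sum_add_distrib, hD.leib]
      noncomm_ring
    rw [h2]
    exact le_cl _ (comm_mem _ _)
  · intro v x
    simp only [hD.idem, Th_idem, mul_zero, Finset.sum_const_zero, sub_zero]
    exact zero_mem _
  · intro b x
    have h1 : ∑ a, D (arr Q a) * Th a (arr Q b) x =
        D (arr Q b) * (idem Q (Q.tgt b) * x * idem Q (Q.src b)) := by
      rw [Finset.sum_eq_single b]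
      · rw [Th_arr, if_pos rfl]
      · intro a _ hab
        rw [Th_arr, if_neg hab, mul_zero]
      · intro h0
        simp at h0
    obtain ⟨h2, h3⟩ := D_arr hD b
    rw [h1]
    have h4 : x * D (arr Q b) - D (arr Q b) * (idem Q (Q.tgt b) * x * idem Q (Q.src b)) =
        (x * D (arr Q b) * idem Q (Q.tgt b) - idem Q (Q.tgt b) * (x * D (arr Q b))) +
        (idem Q (Q.tgt b) * x * idem Q (Q.src b) * D (arr Q b) -
          D (arr Q b) * (idem Q (Q.tgt b) * x * idem Q (Q.src b))) := by
      have e1 : x * D (arr Q b) * idem Q (Q.tgt b) = x * D (arr Q b) := by rw [mul_assoc, h3]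
      have e2 : idem Q (Q.tgt b) * x * idem Q (Q.src b) * D (arr Q b) =
          idem Q (Q.tgt b) * (x * D (arr Q b)) := by rw [mul_assoc, h2, mul_assoc]
      rw [e1, e2]
      abel
    rw [h4]
    exact add_mem (le_cl _ (comm_mem _ _)) (le_cl _ (comm_mem _ _))
  · intro n
    refine ⟨n + 1, fun s hs x => ?_⟩
    have hx : x ∈ Fil Q 0 := by
      rw [Fil_zero]
      exact Submodule.mem_top
    refine Submodule.sub_mem _ (mul_mem_Fil_left _ (hD.fil _ _ hs)) ?_
    refine Submodule.sum_mem _ fun b _ => mul_mem_Fil_left _ ?_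
    exact Th_Fil (m := n) (n := 0) b hs hx

end Pool.Agent.Flop
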