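import Pool.Agent.Lib.FlA.Def2

/-!
# RcB: right and left components of series

ALL ROUTINE, by coefficients (`Hat.ext_cf`, `Hat.cf_mul`, `cf_idem`, `cf_arr`, `cf_mul_idem`, `cf_idem_mul`, `cf_arr_mul` of NABase, `cf_rc`, `cf_lc` of Def2).
`rc_mul`: (y f).cf i (tgt b) (l ++ [b]) is the sum over k and the n <= l.length + 1 of y.cf i k ((l ++ [b]).take n) * f.cf k (tgt b) ((l ++ [b]).drop n); the term
n = l.length + 1 contains f.cf k (tgt b) [] = 0 because f is in Fil 1. `sum_rc`: every word of positive length has a last letter (`List.eq_nil_or_concat`);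
f * arr b has the coefficient f.cf i (src b) l at the word l ++ [b] from i to tgt b and 0 at the words not ending with b.
-/

set_option autoImplicit false

namespace Pool.Agent.Flop

open Finset

variable {V E : Type} [Fintype V] [DecidableEq V] [DecidableEq E] {Q : Qv V E}

theorem rc_add (b : E) (f g : Hat Q) : rc b (f + g) = rc b f + rc b g := by
  refine Hat.ext_cf fun i j l => ?_
  rw [Hat.cf_add, cf_rc, cf_rc, cf_rc, Hat.cf_add]
  split_ifs
  · rfl
  · rw [add_zero]

theorem rc_smul (b : E) (c : ℂ) (f : Hat Q) : rc b (c • f) = c • rc b f := by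
  refine Hat.ext_cf fun i j l => ?_
  rw [Hat.cf_smul, cf_rc, cf_rc, Hat.cf_smul]
  split_ifs
  · rfl
  · rw [mul_zero]

theorem rc_sum {ι : Type} (b : E) (s : Finset ι) (f : ι → Hat Q) :
    rc b (∑ k ∈ s, f k) = ∑ k ∈ s, rc b (f k) := by
  refine Hat.ext_cf fun i j l => ?_
  rw [Hat.cf_sum, cf_rc, Hat.cf_sum]
  split_ifs with h
  · exact Finset.sum_congr rfl fun k _ => by rw [cf_rc, if_pos h]
  · exact (Finset.sum_eq_zero fun k _ => by rw [cf_rc, if_neg h]).symm

theorem rc_Fil {n : ℕ} {f : Hat Q} (b : E) (h : f ∈ Fil Q (n + 1)) : rc b f ∈ Fil Q n := by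
  intro i j l hl
  rw [cf_rc]
  split_ifs
  · refine h _ _ _ ?_
    rw [List.length_append, List.length_singleton]
    omega
  · rfl

theorem rc_idem (b : E) (f : Hat Q) : rc b f * idem Q (Q.src b) = rc b f := by
  refine Hat.ext_cf fun i j l => ?_
  rw [cf_mul_idem, cf_rc]
  split_ifs <;> rfl

theorem rc_mul (b : E) (y : Hat Q) {f : Hat Q} (h : f ∈ Fil Q 1) :
    rc b (y * f) = y * rc b f := by
  refine Hat.ext_cf fun i j l => ?_
  rw [cf_rc, Hat.cf_mul, Hat.cf_mul]
  by_cases hj : j = Q.src b
  · rw [if_pos hj]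
    refine Finset.sum_congr rfl fun k _ => ?_
    rw [List.length_append, List.length_singleton, Finset.sum_range_succ]
    have h1 : f.cf k (Q.tgt b) ((l ++ [b]).drop (l.length + 1)) = 0 := by
      refine h _ _ _ ?_
      rw [List.length_drop, List.length_append, List.length_singleton]
      omega
    rw [h1, mul_zero, add_zero]
    refine Finset.sum_congr rfl fun n hn => ?_
    have hn' : n ≤ l.length := by
      have := Finset.mem_range.1 hn
      omega
    rw [cf_rc, if_pos hj, List.take_append_of_le_length hn', List.drop_append_of_le_length hn']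
  · rw [if_neg hj]
    refine (Finset.sum_eq_zero fun k _ => Finset.sum_eq_zero fun n _ => ?_).symm
    rw [cf_rc, if_neg hj, mul_zero]

/-- The coefficients of a product with an arrow on the right. -/
private theorem cf_mul_arr (f : Hat Q) (a : E) (i j : V) (l : List E) (c : E) :
    (f * arr Q a).cf i j (l ++ [c]) =
      if j = Q.tgt a ∧ c = a then f.cf i (Q.src a) l else 0 := by
  rw [Hat.cf_mul]
  by_cases h : j = Q.tgt a ∧ c = a
  · rw [if_pos h]
    obtain ⟨rfl, rfl⟩ := h
    rw [Finset.sum_eq_single (Q.src c), Finset.sum_eq_single l.length]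
    · rw [List.take_left, List.drop_left, cf_arr, if_pos ⟨rfl, rfl, rfl⟩, mul_one]
    · intro n hn hne
      rw [cf_arr, if_neg, mul_zero]
      rintro ⟨-, -, h3⟩
      have h4 := congrArg List.length h3
      rw [List.length_drop, List.length_append, List.length_singleton] at h4
      omega
    · intro h0
      exact absurd (Finset.mem_range.2 (by rw [List.length_append]; omega)) h0
    · intro k _ hk
      refine Finset.sum_eq_zero fun n _ => ?_
      rw [cf_arr, if_neg, mul_zero]
      rintro ⟨h2, -, -⟩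
      exact hk h2
    · intro h0
      exact absurd (Finset.mem_univ _) h0
  · rw [if_neg h]
    refine Finset.sum_eq_zero fun k _ => Finset.sum_eq_zero fun n hn => ?_
    rw [cf_arr, if_neg, mul_zero]
    rintro ⟨-, h2, h3⟩
    apply h
    refine ⟨h2, ?_⟩
    have h5 := congrArg List.getLast? h3
    have h6 : n < (l ++ [c]).length := by
      by_contra hc
      rw [List.drop_eq_nil_of_le (by omega)] at h3
      exact absurd h3 (by simp)
    rw [List.getLast?_drop, if_neg (by omega), List.getLast?_append, List.getLast?_singleton,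
      List.getLast?_singleton] at h5
    simpa using h5

private theorem cf_mul_arr_nil (f : Hat Q) (a : E) (i j : V) :
    (f * arr Q a).cf i j [] = 0 := by
  rw [Hat.cf_mul]
  refine Finset.sum_eq_zero fun k _ => Finset.sum_eq_zero fun n _ => ?_
  rw [cf_arr, if_neg, mul_zero]
  rintro ⟨-, -, h3⟩
  rw [List.drop_nil] at h3
  exact absurd h3 (by simp)

theorem rc_mul_arr (b c : E) (z : Hat Q) :
    rc b (z * arr Q c) = if b = c then z * idem Q (Q.src c) else 0 := by
  refine Hat.ext_cf fun i j l => ?_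
  rw [cf_rc, cf_mul_arr]
  by_cases h : b = c
  · subst h
    have h2 : Q.tgt b = Q.tgt b ∧ b = b := ⟨rfl, rfl⟩
    rw [if_pos h2, if_pos (rfl : b = b), cf_mul_idem]
    split_ifs with h1
    · rw [h1]
    · rfl
  · have h2 : ¬ (Q.tgt b = Q.tgt c ∧ b = c) := fun h' => h h'.2
    rw [if_neg h2, if_neg h, ite_self, Hat.cf_zero]

theorem rc_mul_idem (b : E) (f : Hat Q) (j : V) :
    rc b (f * idem Q j) = if Q.tgt b = j then rc b f else 0 := by
  refine Hat.ext_cf fun i k l => ?_
  rw [cf_rc, cf_mul_idem]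
  by_cases h : Q.tgt b = j
  · rw [if_pos h, if_pos h, cf_rc]
  · rw [if_neg h, if_neg h, ite_self, Hat.cf_zero]

theorem sum_rc [Fintype E] {f : Hat Q} (h : f ∈ Fil Q 1) : f = ∑ b, rc b f * arr Q b := by
  refine Hat.ext_cf fun i j l => ?_
  rw [Hat.cf_sum]
  rcases List.eq_nil_or_concat l with rfl | ⟨l', c, rfl⟩
  · rw [h i j [] (by simp)]
    exact (Finset.sum_eq_zero fun b _ => cf_mul_arr_nil _ _ _ _).symm
  · rw [List.concat_eq_append, Finset.sum_eq_single c]
    · rw [cf_mul_arr, cf_rc, if_pos rfl]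
      by_cases hj : j = Q.tgt c
      · rw [if_pos ⟨hj, rfl⟩, hj]
      · rw [if_neg (fun h' => hj h'.1)]
        by_contra hc
        have hp := f.cf_path hc
        have key : ∀ (l : List E) (i : V), Q.IsPath i (l ++ [c]) j → Q.tgt c = j := by
          intro l
          induction l with
          | nil => intro i hi; exact hi.2
          | cons d l ih => intro i hi; exact ih _ hi.2
        exact hj (key _ _ hp).symm
    · intro b _ hb
      rw [cf_mul_arr, if_neg (fun h' => hb h'.2.symm)]
    · intro h0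
      exact absurd (Finset.mem_univ _) h0

theorem lc_add (a : E) (f g : Hat Q) : lc a (f + g) = lc a f + lc a g := by
  refine Hat.ext_cf fun i j l => ?_
  rw [Hat.cf_add, cf_lc, cf_lc, cf_lc, Hat.cf_add]
  split_ifs
  · rfl
  · rw [add_zero]

theorem lc_smul (a : E) (c : ℂ) (f : Hat Q) : lc a (c • f) = c • lc a f := by
  refine Hat.ext_cf fun i j l => ?_
  rw [Hat.cf_smul, cf_lc, cf_lc, Hat.cf_smul]
  split_ifs
  · rfl
  · rw [mul_zero]

theorem lc_sum {ι : Type} (a : E) (s : Finset ι) (f : ι → Hat Q) :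
    lc a (∑ k ∈ s, f k) = ∑ k ∈ s, lc a (f k) := by
  refine Hat.ext_cf fun i j l => ?_
  rw [Hat.cf_sum, cf_lc, Hat.cf_sum]
  split_ifs with h
  · exact Finset.sum_congr rfl fun k _ => by rw [cf_lc, if_pos h]
  · exact (Finset.sum_eq_zero fun k _ => by rw [cf_lc, if_neg h]).symm

theorem lc_Fil {n : ℕ} {f : Hat Q} (a : E) (h : f ∈ Fil Q (n + 1)) : lc a f ∈ Fil Q n := by
  intro i j l hl
  rw [cf_lc]
  split_ifs
  · refine h _ _ _ ?_
    rw [List.length_cons]
    omega
  · rfl

theorem idem_lc (a : E) (f : Hat Q) : idem Q (Q.tgt a) * lc a f = lc a f := by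
  refine Hat.ext_cf fun i j l => ?_
  rw [cf_idem_mul, cf_lc]
  split_ifs <;> rfl

theorem lc_mul (a : E) {f : Hat Q} (h : f ∈ Fil Q 1) (y : Hat Q) :
    lc a (f * y) = lc a f * y := by
  refine Hat.ext_cf fun i j l => ?_
  rw [cf_lc, Hat.cf_mul, Hat.cf_mul]
  by_cases hi : i = Q.tgt a
  · rw [if_pos hi]
    refine Finset.sum_congr rfl fun k _ => ?_
    rw [List.length_cons, Finset.sum_range_succ']
    have h1 : f.cf (Q.src a) k ((a :: l).take 0) = 0 := h _ _ _ (by simp)
    rw [h1, zero_mul, add_zero]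
    refine Finset.sum_congr rfl fun n _ => ?_
    rw [cf_lc, if_pos hi, List.take_succ_cons, List.drop_succ_cons]
  · rw [if_neg hi]
    refine (Finset.sum_eq_zero fun k _ => Finset.sum_eq_zero fun n _ => ?_).symm
    rw [cf_lc, if_neg hi, zero_mul]

theorem lc_arr_mul (a b : E) (z : Hat Q) :
    lc a (arr Q b * z) = if a = b then idem Q (Q.tgt b) * z else 0 := by
  refine Hat.ext_cf fun i j l => ?_
  rw [cf_lc, cf_arr_mul, List.tail_cons]
  by_cases h : a = b
  · subst h
    have h2 : Q.src a = Q.src a ∧ (a :: l).head? = some a := ⟨rfl, by simp⟩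
    rw [if_pos h2, if_pos (rfl : a = a), cf_idem_mul]
    split_ifs with h1
    · rw [h1]
    · rfl
  · have h2 : ¬ (Q.src a = Q.src b ∧ (a :: l).head? = some b) := fun h' => h (by simpa using h'.2)
    rw [if_neg h2, if_neg h, ite_self, Hat.cf_zero]

theorem lc_idem_mul (a : E) (f : Hat Q) (i : V) :
    lc a (idem Q i * f) = if Q.src a = i then lc a f else 0 := by
  refine Hat.ext_cf fun k j l => ?_
  rw [cf_lc, cf_idem_mul]
  by_cases h : Q.src a = i
  · rw [if_pos h, if_pos h, cf_lc]
  · rw [if_neg h, if_neg h, ite_self, Hat.cf_zero]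

theorem sum_lc [Fintype E] {f : Hat Q} (h : f ∈ Fil Q 1) : f = ∑ a, arr Q a * lc a f := by
  refine Hat.ext_cf fun i j l => ?_
  rw [Hat.cf_sum]
  cases l with
  | nil =>
    rw [h i j [] (by simp)]
    refine (Finset.sum_eq_zero fun a _ => ?_).symm
    rw [cf_arr_mul, if_neg (fun h' => by simpa using h'.2)]
  | cons c l' =>
    rw [Finset.sum_eq_single c]
    · rw [cf_arr_mul, cf_lc, if_pos rfl, List.tail_cons]
      by_cases hi : i = Q.src c
      · rw [if_pos ⟨hi, by simp⟩, hi]
      · rw [if_neg (fun h' => hi h'.1)]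
        by_contra hc
        exact hi (f.cf_path hc).1.symm
    · intro a _ ha
      rw [cf_arr_mul, if_neg]
      rintro ⟨-, h2⟩
      apply ha
      simpa using h2.symm
    · intro h0
      exact absurd (Finset.mem_univ _) h0

end Pool.Agent.Flop
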