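import Pool.Agent.Lib.FlA.ThM
import Pool.Agent.Lib.FlA.Bs1
import Pool.Agent.Lib.FlA.RcB

/-!
# ThJ: double derivatives applied to elements of a closed ideal

`th_ideal`: mod Fil n, s is a finite combination of words (exists_words s (n+1), Th_Fil with second argument in Fil 0); for a word Th_word gives terms word * x * word in J.
`th_lc`: put r(s) = Th a s x - lc a s * x * idem (src a). (1) r(s) in Fil 1 and rc d (r(s)) in J for all d: the set of such elements is a closed subspace (rc d is linear and maps Fil (n+1) to Fil n: RcB; J closed), and r is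
additive, homogeneous and continuous in s (s in Fil (n+1): Th a s x in Fil n, lc a s in Fil n); so enough for s a word: Th_word: s = word i l (path i -> j): the position n = 0: l = a :: l', i = src a: the term
word (tgt a) l' * x * word i [] = lc a s * x * idem (src a) (word i [] = idem i; lc a (word i (a :: l')) = word (tgt a) l'; lc a (word i l) = 0 if l does not begin with a or i <> src a). The positions n >= 1:
word * x * word i (l.take n), where l.take n is not empty: = word * x * word i (l.take (n-1)) * arr c (c the last letter, or 0): rc d (u * x * v) with v in Fil 1: = u * x * rc d v (rc_mul) in J, and in Fil 1.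
-/

/-!
# ThJ: double derivatives applied to elements of a closed ideal

`th_ideal`: mod Fil n, s is a finite combination of words (exists_words s (n+1), Th_Fil with second argument in Fil 0); for a word Th_word gives terms word * x * word in J.
`th_lc`: put r(s) = Th a s x - lc a s * x * idem (src a). (1) r(s) in Fil 1 and rc d (r(s)) in J for all d: the set of such elements is a closed subspace (rc d is linear and maps Fil (n+1) to Fil n: RcB; J closed), and r is
additive, homogeneous and continuous in s (s in Fil (n+1): Th a s x in Fil n, lc a s in Fil n); so enough for s a word: Th_word: s = word i l (path i -> j): the position n = 0: l = a :: l', i = src a: the term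
word (tgt a) l' * x * word i [] = lc a s * x * idem (src a) (word i [] = idem i; lc a (word i (a :: l')) = word (tgt a) l'; lc a (word i l) = 0 if l does not begin with a or i <> src a). The positions n >= 1:
word * x * word i (l.take n), where l.take n is not empty: = word * x * word i (l.take (n-1)) * arr c (c the last letter, or 0): rc d (u * x * v) with v in Fil 1: = u * x * rc d v (rc_mul) in J, and in Fil 1.
-/

set_option autoImplicit false

namespace Pool.Agent.Flop

open Finset

variable {V E : Type} [Fintype V] [DecidableEq V] [DecidableEq E] {Q : Qv V E}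

private theorem thj_ind [Finite E] {S : Submodule ℂ (Hat Q)} (hS : IsCl S) (T : Hat Q → Hat Q)
    (hadd : ∀ s t, T (s + t) = T s + T t) (hsmul : ∀ (c : ℂ) s, T (c • s) = c • T s)
    (hcont : ∀ n, ∃ m, ∀ s ∈ Fil Q m, T s ∈ Fil Q n)
    (hw : ∀ i l j, Q.IsPath i l j → T (word Q i l) ∈ S) (s : Hat Q) : T s ∈ S := by
  classical
  have h0 : T 0 = 0 := by
    have h := hsmul 0 0
    rwa [zero_smul, zero_smul] at h
  have hsum : ∀ (A : Finset (V × V × List E)) (f : V × V × List E → Hat Q),
      T (∑ t ∈ A, f t) = ∑ t ∈ A, T (f t) := by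
    intro A f
    induction A using Finset.induction_on with
    | empty => rw [Finset.sum_empty, Finset.sum_empty, h0]
    | insert b A hb ih => rw [Finset.sum_insert hb, Finset.sum_insert hb, hadd, ih]
  apply hS
  intro n
  obtain ⟨m, hm⟩ := hcont n
  obtain ⟨A, hA, h1⟩ := exists_words s m
  refine ⟨T (∑ t ∈ A, s.cf t.1 t.2.1 t.2.2 • word Q t.1 t.2.2), ?_, ?_⟩
  · rw [hsum]
    refine Submodule.sum_mem _ fun t ht => ?_
    rw [hsmul]
    exact Submodule.smul_mem _ _ (hw _ _ _ (Hat.cf_path s (hA t ht).1))
  · have h2 := hm _ h1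
    have h3 : T s = T (s - ∑ t ∈ A, s.cf t.1 t.2.1 t.2.2 • word Q t.1 t.2.2) +
        T (∑ t ∈ A, s.cf t.1 t.2.1 t.2.2 • word Q t.1 t.2.2) := by
      rw [← hadd, sub_add_cancel]
    rw [h3, add_sub_cancel_right]
    exact h2

private theorem thj_top (y : Hat Q) : y ∈ Fil Q 0 := by
  rw [Fil_zero]
  exact Submodule.mem_top

theorem th_ideal [Finite E] {J : Submodule ℂ (Hat Q)} (hJ : IsCl J)
    (hl : ∀ z f, f ∈ J → z * f ∈ J) (hr : ∀ z f, f ∈ J → f * z ∈ J) (a : E) (s : Hat Q)
    {x : Hat Q} (hx : x ∈ J) : Th a s x ∈ J := by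
  refine thj_ind hJ (fun s => Th a s x) (fun s t => Th_add_left a s t x)
    (fun c s => Th_smul_left a c s x) (fun n => ⟨n + 1, fun s hs => Th_Fil a hs (thj_top x)⟩) ?_ s
  intro i l j h
  rw [Th_word h]
  refine Submodule.sum_mem _ fun n _ => ?_
  split_ifs
  · exact hr _ _ (hl _ _ hx)
  · exact Submodule.zero_mem _

private theorem thj_word_Fil (i : V) {l : List E} (h : l ≠ []) : word Q i l ∈ Fil Q 1 := by
  classical
  rw [mem_Fil]
  intro p q l' hl'
  rw [cf_word, if_neg]
  rintro ⟨_, h1, _⟩
  rw [List.eq_nil_of_length_eq_zero (Nat.lt_one_iff.1 hl')] at h1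
  exact h h1.symm

private theorem thj_word_nil (i : V) : word Q i [] = idem Q i := by
  simp [word]

private theorem thj_lc_idem (a : E) (i : V) : lc a (idem Q i) = 0 := by
  refine Hat.ext_cf fun p q l => ?_
  rw [cf_lc, Hat.cf_zero]
  split_ifs
  · rw [cf_idem, if_neg]
    rintro ⟨_, _, h⟩
    exact List.cons_ne_nil _ _ h
  · rfl

private theorem thj_lc_word (a b : E) (l : List E) :
    lc a (word Q (Q.src b) (b :: l)) = if b = a then word Q (Q.tgt a) l else 0 := by
  classical
  refine Hat.ext_cf fun p q l' => ?_
  rw [cf_lc, cf_word]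
  by_cases hab : b = a
  · subst hab
    rw [if_pos rfl, cf_word]
    by_cases hp : p = Q.tgt b
    · rw [if_pos hp]
      refine if_congr ?_ rfl rfl
      constructor
      · rintro ⟨_, h2, h3⟩
        exact ⟨hp, (List.cons.inj h2).2, h3.2⟩
      · rintro ⟨_, h2, h3⟩
        exact ⟨rfl, by rw [h2], rfl, h3⟩
    · rw [if_neg hp, if_neg]
      rintro ⟨h1, _⟩
      exact hp h1
  · rw [if_neg hab, Hat.cf_zero]
    split_ifs with h1 h2
    · exact absurd (List.cons.inj h2.2.1).1.symm hab
    · rfl
    · rfl

private theorem thj_rword {i j : V} {l : List E} (h : Q.IsPath i l j) (a : E) (x : Hat Q) :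
    Th a (word Q i l) x - lc a (word Q i l) * x * idem Q (Q.src a) =
      ∑ n ∈ range (l.length - 1), if l[n + 1]? = some a then
        word Q (Q.tgt a) (l.drop (n + 1 + 1)) * x * word Q i (l.take (n + 1)) else 0 := by
  rw [Th_word h]
  cases l with
  | nil =>
    rw [thj_word_nil, thj_lc_idem, zero_mul, zero_mul, sub_zero, List.length_nil,
      Finset.sum_range_zero, Nat.zero_sub, Finset.sum_range_zero]
  | cons b l =>
    have hi : Q.src b = i := h.1
    subst hi
    rw [thj_lc_word, List.length_cons, Finset.sum_range_succ', Nat.add_sub_cancel]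
    have h0 : (if (b :: l)[0]? = some a then
        word Q (Q.tgt a) ((b :: l).drop (0 + 1)) * x * word Q (Q.src b) ((b :: l).take 0) else 0) =
        (if b = a then word Q (Q.tgt a) l else 0) * x * idem Q (Q.src a) := by
      by_cases hab : b = a
      · subst hab
        rw [List.getElem?_cons_zero, if_pos rfl, if_pos rfl, List.take_zero, thj_word_nil,
          zero_add, List.drop_succ_cons, List.drop_zero]
      · rw [List.getElem?_cons_zero, if_neg hab, if_neg fun h1 => hab (Option.some.inj h1),
          zero_mul, zero_mul]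
    rw [h0, add_sub_cancel_right]

private theorem thj_tadd (a : E) (x s t : Hat Q) :
    Th a (s + t) x - lc a (s + t) * x * idem Q (Q.src a) =
      (Th a s x - lc a s * x * idem Q (Q.src a)) + (Th a t x - lc a t * x * idem Q (Q.src a)) := by
  rw [Th_add_left, lc_add, add_mul, add_mul]
  abel

private theorem thj_tsmul (a : E) (x : Hat Q) (c : ℂ) (s : Hat Q) :
    Th a (c • s) x - lc a (c • s) * x * idem Q (Q.src a) =
      c • (Th a s x - lc a s * x * idem Q (Q.src a)) := by
  rw [Th_smul_left, lc_smul, smul_mul_assoc, smul_mul_assoc, smul_sub]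

private theorem thj_tcont (a : E) (x : Hat Q) (n : ℕ) {s : Hat Q} (hs : s ∈ Fil Q (n + 1)) :
    Th a s x - lc a s * x * idem Q (Q.src a) ∈ Fil Q n := by
  refine Submodule.sub_mem _ (Th_Fil a hs (thj_top x)) ?_
  exact mul_mem_Fil_right _ (mul_mem_Fil_right _ (lc_Fil a hs))

theorem th_lc [Finite E] {J : Submodule ℂ (Hat Q)} (hJ : IsCl J)
    (hl : ∀ z f, f ∈ J → z * f ∈ J) (hr : ∀ z f, f ∈ J → f * z ∈ J) (a : E) (s : Hat Q)
    {x : Hat Q} (hx : x ∈ J) :
    Th a s x - lc a s * x * idem Q (Q.src a) ∈ Fil Q 1 ∧
      ∀ d, rc d (Th a s x - lc a s * x * idem Q (Q.src a)) ∈ J := by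
  have htk : ∀ (l : List E) (n : ℕ), n ∈ range (l.length - 1) → l.take (n + 1) ≠ [] := by
    intro l n hn h
    rw [List.take_eq_nil_iff] at h
    rw [Finset.mem_range] at hn
    rcases h with h | h
    · omega
    · rw [h] at hn
      simp at hn
  constructor
  · refine thj_ind (isCl_Fil 1) (fun s => Th a s x - lc a s * x * idem Q (Q.src a))
      (thj_tadd a x) (thj_tsmul a x) (fun n => ⟨n + 1, fun s hs => thj_tcont a x n hs⟩) ?_ s
    intro i l j h
    rw [thj_rword h]
    refine Submodule.sum_mem _ fun n hn => ?_
    split_ifs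
    · exact mul_mem_Fil_left _ (thj_word_Fil i (htk l n hn))
    · exact Submodule.zero_mem _
  · intro d
    refine thj_ind hJ (fun s => rc d (Th a s x - lc a s * x * idem Q (Q.src a)))
      (fun s t => ?_) (fun c s => ?_) (fun n => ⟨n + 1 + 1, fun s hs => ?_⟩) ?_ s
    · rw [thj_tadd, rc_add]
    · rw [thj_tsmul, rc_smul]
    · exact rc_Fil d (thj_tcont a x (n + 1) hs)
    · intro i l j h
      rw [thj_rword h, rc_sum]
      refine Submodule.sum_mem _ fun n hn => ?_
      split_ifs
      · rw [rc_mul d _ (thj_word_Fil i (htk l n hn))]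
        exact hr _ _ (hl _ _ hx)
      · have h0 : rc d (0 : Hat Q) = 0 := by
          have h1 := rc_smul d 0 (0 : Hat Q)
          rwa [zero_smul, zero_smul] at h1
        rw [h0]
        exact Submodule.zero_mem _

end Pool.Agent.Flop
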