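import Pool.Agent.Lib.FlA.CZ
import Pool.Agent.Lib.FlA.SDer
import Pool.Agent.Lib.FlA.ThD
import Pool.Agent.Lib.FlA.ThJ

/-!
# Eul1: vanishing class: a shift derivation with D F = F modulo commutators

`exists_sder_of_classZero`: c from exists_coef_of_classZero, D from exists_sder, sder_sub_mem: D F - sum_a c a cyc a F in cl Comm, so D F - F in cl Comm. D (jac F) in jac F: hypothesis hJ of cyc_der from th_ideal (isCl_jac, jac_ml, jac_mr). cyc a (D F) = cyc a F
(cyc_congr), so D (cyc a F) in jac F (cyc_der: cyc a F - D (cyc a F) in jac F). `sder_jac`: the set {f in jac F | D f in jac F} is a submodule (comap), two-sided ideal (leib, jac_ml, jac_mr), closed (D maps Fil (n+1) to Fil n), contains cyc a F: jac_min.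
`sder_jac`: the general statement: if D (cyc a F) in jac F for all a then D (jac F) in jac F.
-/

set_option autoImplicit false

namespace Pool.Agent.Flop

open Finset

variable {V E : Type} [Fintype V] [DecidableEq V] [DecidableEq E] {Q : Qv V E}

theorem sder_jac {D : Hat Q →ₗ[ℂ] Hat Q} (hD : IsSDer D) {F : Hat Q}
    (h : ∀ a, D (cyc a F) ∈ jac F) : ∀ f ∈ jac F, D f ∈ jac F := by
  have key : jac F ≤ jac F ⊓ (jac F).comap D := by
    refine jac_min ?_ ?_ ?_ ?_
    · intro f hf
      refine Submodule.mem_inf.2 ⟨isCl_jac F f fun n => ?_, ?_⟩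
      · obtain ⟨s, hs, h1⟩ := hf n
        exact ⟨s, (Submodule.mem_inf.1 hs).1, h1⟩
      · rw [Submodule.mem_comap]
        refine isCl_jac F (D f) fun n => ?_
        obtain ⟨s, hs, h1⟩ := hf (n + 1)
        refine ⟨D s, Submodule.mem_comap.1 (Submodule.mem_inf.1 hs).2, ?_⟩
        rw [← map_sub]
        exact hD.fil n _ h1
    · intro z f hf
      obtain ⟨h1, h2⟩ := Submodule.mem_inf.1 hf
      rw [Submodule.mem_comap] at h2
      refine Submodule.mem_inf.2 ⟨jac_ml z h1, ?_⟩
      rw [Submodule.mem_comap, hD.leib]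
      exact Submodule.add_mem _ (jac_ml _ h1) (jac_ml _ h2)
    · intro z f hf
      obtain ⟨h1, h2⟩ := Submodule.mem_inf.1 hf
      rw [Submodule.mem_comap] at h2
      refine Submodule.mem_inf.2 ⟨jac_mr z h1, ?_⟩
      rw [Submodule.mem_comap, hD.leib]
      exact Submodule.add_mem _ (jac_mr _ h2) (jac_mr _ h1)
    · intro a
      exact Submodule.mem_inf.2 ⟨cyc_jac F a, Submodule.mem_comap.2 (h a)⟩
  intro f hf
  exact Submodule.mem_comap.1 (Submodule.mem_inf.1 (key hf)).2

theorem exists_sder_of_classZero [Fintype E] {F : Hat Q} (h : ClassZero F) :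
    ∃ D : Hat Q →ₗ[ℂ] Hat Q, IsSDer D ∧ D F - F ∈ cl (Comm Q) ∧ ∀ f ∈ jac F, D f ∈ jac F := by
  obtain ⟨c, hc, hF⟩ := exists_coef_of_classZero h
  obtain ⟨D, hD, hDc⟩ := exists_sder c hc
  have h1 : D F - F ∈ cl (Comm Q) := by
    have h2 := sder_sub_mem hD F
    simp only [hDc] at h2
    have h3 := Submodule.sub_mem _ h2 hF
    rwa [sub_sub_sub_cancel_right] at h3
  refine ⟨D, hD, h1, sder_jac hD fun a => ?_⟩
  have h4 := cyc_der hD a F fun s x hx =>
    th_ideal (isCl_jac F) (fun z f hf => jac_ml z hf) (fun z f hf => jac_mr z hf) a s hx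
  rw [cyc_congr h1 a] at h4
  have h5 := Submodule.sub_mem _ (cyc_jac F a) h4
  rwa [sub_sub_cancel] at h5

end Pool.Agent.Flop
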