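import Pool.Agent.Lib.FlA.PrsB
import Pool.Agent.Lib.FlA.GrA

/-!
# HcB: homogeneous generators of the maximal ideal

For j : Fin 4: θ (X j) in m; conv with n = 2: finite set S_j with θ (X j) - sum_{μ in S_j} cR μ (θ (X j)) in m^2; y_{j,μ} := cR μ (θ (X j)) in m (max), cR μ y_{j,μ} = y_{j,μ} (idm). Lifts t_{j,μ} in P, θ t = y, constantCoeff t = 0 (surj, mem_max). Linear part vector Lin(t) = (coeff (single i 1) t)_i in ℂ^4. X j - sum_μ t_{j,μ}: θ of it is in m^2 = θ(Od 4 2) (max_pow), so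
X j - sum_μ t_{j,μ} in Od 2 + (g) = Od 2 (two). So e_j = sum_μ Lin (t_{j,μ}): the vectors Lin (t_{j,μ}) (finitely many, index set Σ j, S_j) span ℂ^4; choose 4 of them forming a basis (e.g. `exists_linearIndependent`/`exists_fun_fin_finrank_span_eq`, or `Basis.extendLe`; a spanning set contains a basis, of cardinality 4 = finrank, index it by Fin 4): c i := t_{(j,μ)(i)},
l i := μ(i). det (LinP c) <> 0 since the rows are linearly independent.
-/

set_option autoImplicit false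

namespace Pool.Agent.Flop

open Finset MvPowerSeries

variable {V E : Type} [Fintype V] [DecidableEq V] [DecidableEq E] [Fintype E] {Q : Qv V E}
variable {R A : Type} [CommRing R] [IsLocalRing R] [IsNoetherianRing R] [Algebra ℂ R] [Ring A]
  [Algebra ℂ A] [Algebra R A] {π : Hat Q →ₐ[ℂ] A}
  {g : MvPowerSeries (Fin 4) ℂ} {θ : MvPowerSeries (Fin 4) ℂ →ₐ[ℂ] R}

private theorem hcB_span (v : Fin 4 → ℚ → (Fin 4 → ℂ)) (S : Fin 4 → Finset ℚ)
    (hv : ∀ j, (Pi.single j 1 : Fin 4 → ℂ) = ∑ μ ∈ S j, v j μ) :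
    ∃ (a : Fin 4 → Fin 4) (l : Fin 4 → ℚ), LinearIndependent ℂ fun i => v (a i) (l i) := by
  have hspan : Submodule.span ℂ (Set.range fun q : Fin 4 × ℚ => v q.1 q.2) = ⊤ := by
    rw [eq_top_iff]
    intro x _
    rw [pi_eq_sum_univ' x]
    refine Submodule.sum_mem _ fun j _ => Submodule.smul_mem _ _ ?_
    rw [hv j]
    exact Submodule.sum_mem _ fun μ _ => Submodule.subset_span ⟨(j, μ), rfl⟩
  obtain ⟨b, hb1, hb2, hb3⟩ := exists_linearIndependent ℂ
    (Set.range fun q : Fin 4 × ℚ => v q.1 q.2)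
  rw [hspan] at hb2
  have hB : ⊤ ≤ Submodule.span ℂ (Set.range ((↑) : b → (Fin 4 → ℂ))) := by
    rw [Subtype.range_coe, hb2]
  let B := Module.Basis.mk hb3 hB
  haveI : Finite b := Module.Finite.finite_basis B
  haveI : Fintype b := Fintype.ofFinite b
  have hcard : Fintype.card b = 4 := by
    have := Module.finrank_eq_card_basis B
    rw [Module.finrank_fin_fun] at this
    exact this.symm
  let e : Fin 4 ≃ b := (Fintype.equivFinOfCardEq hcard).symm
  have hex : ∀ i, ∃ q : Fin 4 × ℚ, v q.1 q.2 = (e i : Fin 4 → ℂ) := fun i => hb1 (e i).2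
  choose q hq using hex
  refine ⟨fun i => (q i).1, fun i => (q i).2, ?_⟩
  have h1 : (fun i => v (q i).1 (q i).2) = ((↑) : b → (Fin 4 → ℂ)) ∘ e := funext hq
  rw [h1]
  exact hb3.comp e e.injective

theorem Grd.exists_gens (hp : Prs g θ) {lam : E → ℚ} {cA : ℚ → A →ₗ[ℂ] A} {cR : ℚ → R →ₗ[ℂ] R}
    (hG : Grd π lam cA cR) : ∃ (c : Fin 4 → MvPowerSeries (Fin 4) ℂ) (l : Fin 4 → ℚ),
      IsCoord c ∧ ∀ i, cR (l i) (θ (c i)) = θ (c i) := by
  choose S hS hS' using fun j : Fin 4 => hG.conv 2 (θ (X j))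
  choose t ht using fun (j : Fin 4) (μ : ℚ) => hp.surj (cR μ (θ (X j)))
  have hc : ∀ j μ, constantCoeff (t j μ) = 0 := by
    intro j μ
    rw [← hp.mem_max, ht]
    exact hG.max μ _ ((hp.mem_max (X j)).2 (constantCoeff_X j))
  have hd : ∀ j, (X j : MvPowerSeries (Fin 4) ℂ) - ∑ μ ∈ S j, t j μ ∈ Od 4 2 := by
    intro j
    have h1 : θ ((X j : MvPowerSeries (Fin 4) ℂ) - ∑ μ ∈ S j, t j μ) ∈
        IsLocalRing.maximalIdeal R ^ 2 := by
      rw [map_sub, map_sum, Finset.sum_congr rfl fun μ _ => ht j μ]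
      exact hS j
    obtain ⟨p, hp2, hpe⟩ := hp.max_pow h1
    have h2 : θ ((X j : MvPowerSeries (Fin 4) ℂ) - ∑ μ ∈ S j, t j μ - p) = 0 := by
      rw [map_sub, hpe, sub_self]
    obtain ⟨q, hq⟩ := (hp.ker _).1 h2
    have h3 : (X j : MvPowerSeries (Fin 4) ℂ) - ∑ μ ∈ S j, t j μ = g * q + p := by
      rw [← hq, sub_add_cancel]
    rw [h3]
    exact (Od 4 2).add_mem ((Od 4 2).mul_mem_right q hp.two) hp2
  have hlin : ∀ j, (Pi.single j 1 : Fin 4 → ℂ) =
      ∑ μ ∈ S j, fun i => coeff (Finsupp.single i 1) (t j μ) := by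
    intro j
    ext i
    have h1 := hd j (Finsupp.single i 1) (by rw [Finsupp.degree_single]; norm_num)
    rw [map_sub, map_sum, sub_eq_zero] at h1
    rw [Finset.sum_apply, ← h1, coeff_index_single_X, Pi.single_apply]
  obtain ⟨a, l, hl⟩ := hcB_span (fun j μ i => coeff (Finsupp.single i 1) (t j μ)) S hlin
  refine ⟨fun i => t (a i) (l i), l, ⟨fun i => hc _ _, ?_⟩, fun i => ?_⟩
  · have h1 : IsUnit (LinP fun i => t (a i) (l i)) := by
      rw [← Matrix.linearIndependent_rows_iff_isUnit]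
      exact hl
    rw [Matrix.isUnit_iff_isUnit_det] at h1
    exact h1.ne_zero
  · rw [ht, hG.idm, if_pos rfl]

end Pool.Agent.Flop
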