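import Pool.Agent.Lib.FlA.PrsB
import Pool.Agent.Lib.FlA.ChR
import Pool.Agent.Lib.MP_03045c_ag.SubstAut

/-!
# PrC: all presentations are alike

R is local Noetherian (instances). h : Prs g θ, θ1 surjective with kernel (f). (1) θ1 p in m iff constantCoeff p = 0: p unit implies θ1 p unit; conversely m_P maps to m_R (a surjective homomorphism from a local ring: if θ1 p is a unit then 1 - p q in ker for some q; ker is a proper ideal (R nontrivial), so constantCoeff (p q) <> 0). (2) choose c i in P with θ (c i) = θ1 (X i);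
constantCoeff (c i) = 0 (mem_max). θ1 p = θ (subst c p) for all p: both are algebra homomorphisms P -> R agreeing on the X_i, hence on polynomials; for p in Od 4 N both values are in m^N (Od_eq); Krull in R (`Ideal.iInf_pow_eq_bot_of_isLocalRing`). (3) IsCoord c: linear parts: for every j there is q with θ1 q = θ (X j), constantCoeff q = 0 (surjective, (1)); so
θ (subst c q - X j) = 0, g | subst c q - X j, g in Od 2: modulo Od 2, X j = sum_i (coeff of X_i in q) * (linear part of c i): the matrix LinP c has a left inverse, det <> 0. (4) subst c is bijective (subst_bijective). f in ker θ1: subst c f = g * u. Conversely g = subst c f' for some f', θ1 f' = 0, f' = f * v, g = subst c f * subst c v = g u (subst c v), so u is a unit.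
f in Od 2: subst c f in Od 2, subst_order_inv. (5) pderiv_subst: sum_i subst c (∂_i f) * ∂_j (c i) = u ∂_j g + g ∂_j u; apply θ: θ(u) θ(∂_j g) = sum_i θ1 (∂_i f) θ(∂_j c i) in J1 := span (θ1 ∂_i f). So span (θ ∂_j g) <= J1, and m^N <= J1 (iso_R). Hence p in Od 4 N: θ1 p in m^N <= J1: θ1 p = sum θ1 (q_i ∂_i f), p - sum q_i ∂_i f in (f).
-/

set_option autoImplicit false

namespace Pool.Agent.Flop

open Finset MvPowerSeries

variable {R : Type} [CommRing R] [IsLocalRing R] [IsNoetherianRing R] [Algebra ℂ R]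
  {g : MvPowerSeries (Fin 4) ℂ} {θ : MvPowerSeries (Fin 4) ℂ →ₐ[ℂ] R}

private theorem prC_map_pow {ψ : MvPowerSeries (Fin 4) ℂ →ₐ[ℂ] R}
    (hψ : ∀ p, constantCoeff p = 0 → ψ p ∈ IsLocalRing.maximalIdeal R) {N : ℕ}
    {p : MvPowerSeries (Fin 4) ℂ} (hp : p ∈ Od 4 N) : ψ p ∈ IsLocalRing.maximalIdeal R ^ N := by
  have h1 : (IsLocalRing.maximalIdeal (MvPowerSeries (Fin 4) ℂ)).map ψ ≤
      IsLocalRing.maximalIdeal R := by
    rw [Ideal.map_le_iff_le_comap]
    intro x hx
    refine hψ x ?_
    rw [← mem_Od_one, Od_eq, pow_one]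
    exact hx
  rw [Od_eq] at hp
  have h2 := Ideal.mem_map_of_mem ψ hp
  rw [Ideal.map_pow] at h2
  exact Ideal.pow_right_mono h1 N h2

private theorem prC_ext {ψ₁ ψ₂ : MvPowerSeries (Fin 4) ℂ →ₐ[ℂ] R}
    (h1 : ∀ p, constantCoeff p = 0 → ψ₁ p ∈ IsLocalRing.maximalIdeal R)
    (h2 : ∀ p, constantCoeff p = 0 → ψ₂ p ∈ IsLocalRing.maximalIdeal R)
    (hX : ∀ i, ψ₁ (X i) = ψ₂ (X i)) (p : MvPowerSeries (Fin 4) ℂ) : ψ₁ p = ψ₂ p := by
  have hpoly : ∀ q : MvPolynomial (Fin 4) ℂ,
      ψ₁ (q : MvPowerSeries (Fin 4) ℂ) = ψ₂ (q : MvPowerSeries (Fin 4) ℂ) := by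
    intro q
    have h3 : ψ₁.comp (MvPolynomial.coeToMvPowerSeries.algHom ℂ) =
        ψ₂.comp (MvPolynomial.coeToMvPowerSeries.algHom ℂ) := by
      apply MvPolynomial.algHom_ext
      intro i
      rw [AlgHom.comp_apply, AlgHom.comp_apply, MvPolynomial.coeToMvPowerSeries.algHom_apply,
        MvPolynomial.coe_X, MvPowerSeries.map_X]
      exact hX i
    have h4 := DFunLike.congr_fun h3 q
    rw [AlgHom.comp_apply, AlgHom.comp_apply, MvPolynomial.coeToMvPowerSeries.algHom_apply,
      Algebra.algebraMap_self, MvPowerSeries.map_id] at h4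
    exact h4
  rw [← sub_eq_zero]
  have hb := Ideal.iInf_pow_eq_bot_of_isLocalRing (IsLocalRing.maximalIdeal R)
    Ideal.IsPrime.ne_top'
  have hm : ψ₁ p - ψ₂ p ∈ ⨅ i : ℕ, IsLocalRing.maximalIdeal R ^ i := by
    refine (Submodule.mem_iInf _).mpr fun N => ?_
    have hq : p - ((truncTotal N p : MvPolynomial (Fin 4) ℂ) : MvPowerSeries (Fin 4) ℂ) ∈
        Od 4 N := by
      intro d hd
      rw [map_sub, MvPolynomial.coeff_coe, coeff_truncTotal _ hd, sub_self]
    have e : ψ₁ p - ψ₂ p =
        ψ₁ (p - ((truncTotal N p : MvPolynomial (Fin 4) ℂ) : MvPowerSeries (Fin 4) ℂ)) -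
        ψ₂ (p - ((truncTotal N p : MvPolynomial (Fin 4) ℂ) : MvPowerSeries (Fin 4) ℂ)) := by
      rw [map_sub, map_sub, hpoly]
      ring
    rw [e]
    exact Ideal.sub_mem _ (prC_map_pow h1 hq) (prC_map_pow h2 hq)
  rw [hb] at hm
  exact hm

private theorem prC_mem {θ₁ : MvPowerSeries (Fin 4) ℂ →ₐ[ℂ] R} {f : MvPowerSeries (Fin 4) ℂ}
    (hs : Function.Surjective θ₁) (p : MvPowerSeries (Fin 4) ℂ) :
    θ₁ p ∈ IsLocalRing.maximalIdeal R ↔ constantCoeff p = 0 := by
  constructor
  · intro hp
    by_contra hne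
    rw [IsLocalRing.mem_maximalIdeal, mem_nonunits_iff] at hp
    apply hp
    have hu : IsUnit p := by
      rw [MvPowerSeries.isUnit_iff_constantCoeff]
      exact isUnit_iff_ne_zero.mpr hne
    exact hu.map θ₁
  · intro hp
    rw [IsLocalRing.mem_maximalIdeal, mem_nonunits_iff]
    intro hu
    obtain ⟨r, hr⟩ := hu.exists_right_inv
    obtain ⟨q, rfl⟩ := hs r
    have h1 : θ₁ (p * q - 1) = 0 := by
      rw [map_sub, map_mul, map_one, hr, sub_self]
    have h2 : IsUnit (p * q - 1) := by
      rw [MvPowerSeries.isUnit_iff_constantCoeff, map_sub, map_mul, map_one, hp, zero_mul,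
        zero_sub]
      exact isUnit_one.neg
    have h3 := h2.map θ₁
    rw [h1] at h3
    exact not_isUnit_zero h3

/-- the linear part of a substitution -/
private theorem prC_lin {c : Fin 4 → MvPowerSeries (Fin 4) ℂ}
    (hc : ∀ i, constantCoeff (c i) = 0) {q : MvPowerSeries (Fin 4) ℂ}
    (hq : constantCoeff q = 0) (k : Fin 4) :
    coeff (Finsupp.single k 1) (subst c q) =
      ∑ i, coeff (Finsupp.single i 1) q * coeff (Finsupp.single k 1) (c i) := by
  have hS : HasSubst c := hasSubst_of_constantCoeff_zero hc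
  have h1 : q - ∑ i, coeff (Finsupp.single i 1) q • (X i : MvPowerSeries (Fin 4) ℂ) ∈
      Od 4 2 := by
    intro d hd
    rw [map_sub, map_sum, sub_eq_zero]
    by_cases hd0 : d = 0
    · subst hd0
      rw [coeff_zero_eq_constantCoeff_apply, hq, Finset.sum_eq_zero]
      intro i _
      rw [map_smul, coeff_zero_eq_constantCoeff_apply, constantCoeff_X, smul_zero]
    · obtain ⟨j, rfl⟩ : ∃ j, d = Finsupp.single j 1 := by
        obtain ⟨j, hj⟩ := Finsupp.ne_iff.mp hd0
        refine ⟨j, ?_⟩
        have hle : Finsupp.single j 1 ≤ d := by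
          intro l
          by_cases hl : l = j
          · subst hl
            rw [Finsupp.single_eq_same]
            exact Nat.one_le_iff_ne_zero.mpr hj
          · rw [Finsupp.single_eq_of_ne hl]
            exact Nat.zero_le _
        have hde : d - Finsupp.single j 1 + Finsupp.single j 1 = d := tsub_add_cancel_of_le hle
        have hdeg : (d - Finsupp.single j 1).degree + 1 = d.degree := by
          conv_rhs => rw [← hde]
          rw [map_add, Finsupp.degree_single]
        have h0 : (d - Finsupp.single j 1).degree = 0 := by omega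
        rw [Finsupp.degree_eq_zero_iff] at h0
        rw [← hde, h0, zero_add]
      rw [Finset.sum_eq_single j]
      · rw [map_smul, coeff_index_single_self_X, smul_eq_mul, mul_one]
      · intro i _ hij
        rw [map_smul, coeff_index_single_X, if_neg (Ne.symm hij), smul_zero]
      · intro h
        exact absurd (Finset.mem_univ _) h
  have h2 := subst_order c hc (N := 2) h1 (Finsupp.single k 1)
    (by rw [Finsupp.degree_single]; norm_num)
  rw [← substAlgHom_apply hS, map_sub, map_sum, map_sub, sub_eq_zero, substAlgHom_apply] at h2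
  rw [h2, map_sum]
  refine Finset.sum_congr rfl fun i _ => ?_
  rw [map_smul, map_smul, substAlgHom_X, smul_eq_mul]

theorem Prs.of_surj (h : Prs g θ) {θ₁ : MvPowerSeries (Fin 4) ℂ →ₐ[ℂ] R}
    (hs : Function.Surjective θ₁) {f : MvPowerSeries (Fin 4) ℂ} (hk : ∀ p, θ₁ p = 0 ↔ f ∣ p) :
    Prs f θ₁ := by
  have hm1 := prC_mem (f := f) hs
  choose c hc using fun i : Fin 4 => h.surj (θ₁ (X i))
  have hc0 : ∀ i, constantCoeff (c i) = 0 := by
    intro i
    rw [← h.mem_max, hc, hm1, constantCoeff_X]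
  have hS : HasSubst c := hasSubst_of_constantCoeff_zero hc0
  have hθ : ∀ p, θ (subst c p) = θ₁ p := by
    intro p
    have h1 := prC_ext (ψ₁ := θ.comp (substAlgHom hS)) (ψ₂ := θ₁) (fun p hp => by
      rw [AlgHom.comp_apply, substAlgHom_apply, h.mem_max]
      exact constantCoeff_subst_eq_zero hS hc0 hp) (fun p hp => (hm1 p).mpr hp) (fun i => by
      rw [AlgHom.comp_apply, substAlgHom_X, hc]) p
    rw [AlgHom.comp_apply, substAlgHom_apply] at h1
    exact h1
  have hdet : (Matrix.of fun i j => coeff (Finsupp.single j 1) (c i)).det ≠ 0 := by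
    choose q hq using fun j : Fin 4 => hs (θ (X j))
    have hq0 : ∀ j, constantCoeff (q j) = 0 := by
      intro j
      rw [← hm1, hq, h.mem_max, constantCoeff_X]
    have hAB : (Matrix.of fun j i => coeff (Finsupp.single i 1) (q j)) *
        (Matrix.of fun i j => coeff (Finsupp.single j 1) (c i)) =
        (1 : Matrix (Fin 4) (Fin 4) ℂ) := by
      ext j k
      rw [Matrix.mul_apply]
      simp only [Matrix.of_apply]
      rw [← prC_lin hc0 (hq0 j) k]
      have h1 : θ (subst c (q j) - X j) = 0 := by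
        rw [map_sub, hθ, hq, sub_self]
      obtain ⟨s, hs'⟩ := (h.ker _).mp h1
      have h2 : subst c (q j) - X j ∈ Od 4 2 := by
        rw [hs']
        exact Ideal.mul_mem_right _ _ h.two
      have h3 := h2 (Finsupp.single k 1) (by rw [Finsupp.degree_single]; norm_num)
      rw [map_sub, sub_eq_zero] at h3
      rw [h3, coeff_index_single_X, Matrix.one_apply]
      by_cases hjk : j = k
      · rw [if_pos hjk.symm, if_pos hjk]
      · rw [if_neg (Ne.symm hjk), if_neg hjk]
    have h4 := congrArg Matrix.det hAB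
    rw [Matrix.det_mul, Matrix.det_one] at h4
    intro h5
    rw [h5, mul_zero] at h4
    exact zero_ne_one h4
  have hbij := subst_bijective c hc0 hdet
  have hf0 : θ₁ f = 0 := (hk f).mpr dvd_rfl
  obtain ⟨u, hu⟩ : g ∣ subst c f := by
    rw [← h.ker, hθ, hf0]
  have huu : IsUnit u := by
    obtain ⟨f', hf'⟩ := hbij.2 g
    have h1 : θ₁ f' = 0 := by
      rw [← hθ, hf', h.ker]
    obtain ⟨v, rfl⟩ := (hk f').mp h1
    rw [subst_mul hS, hu, mul_assoc] at hf'
    have h2 : u * subst c v = 1 := by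
      have h3 : g * (u * subst c v) = g * 1 := by rw [hf', mul_one]
      exact mul_left_cancel₀ h.ne_zero h3
    exact IsUnit.of_mul_eq_one _ h2
  refine ⟨?_, ?_, hs, hk⟩
  · refine subst_order_inv c hc0 hdet (N := 2) ?_
    rw [hu]
    exact Ideal.mul_mem_right _ _ h.two
  · obtain ⟨N, hN⟩ := h.iso_R
    refine ⟨N, fun p hp => ?_⟩
    have hJ : Ideal.span (Set.range fun i => θ (pderiv ℂ i g)) ≤
        (Ideal.span (Set.range fun i => pderiv ℂ i f)).map θ₁ := by
      rw [Ideal.span_le]
      rintro x ⟨j, rfl⟩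
      beta_reduce
      have h1 := congrArg θ (pderiv_subst hc0 j f)
      rw [hu, Derivation.leibniz, smul_eq_mul, smul_eq_mul, map_add, map_mul, map_mul, map_sum,
        (h.ker g).mpr dvd_rfl, zero_mul, zero_add] at h1
      have h2 : θ u * θ (pderiv ℂ j g) ∈
          (Ideal.span (Set.range fun i => pderiv ℂ i f)).map θ₁ := by
        rw [h1]
        refine Ideal.sum_mem _ fun i _ => ?_
        rw [map_mul, hθ]
        exact Ideal.mul_mem_right _ _
          (Ideal.mem_map_of_mem _ (Ideal.subset_span ⟨i, rfl⟩))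
      exact (Ideal.unit_mul_mem_iff_mem _ (huu.map θ)).mp h2
    have h1 : θ₁ p ∈ (Ideal.span (Set.range fun i => pderiv ℂ i f)).map θ₁ :=
      hJ (hN (prC_map_pow (fun p hp => (hm1 p).mpr hp) hp))
    rw [Ideal.mem_map_iff_of_surjective θ₁ hs] at h1
    obtain ⟨q, hq, hqp⟩ := h1
    have h2 : f ∣ p - q := by
      rw [← hk, map_sub, hqp, sub_self]
    obtain ⟨s, hs'⟩ := h2
    have e : p = f * s + q := by rw [← hs', sub_add_cancel]
    rw [e]
    refine Ideal.add_mem _ (Ideal.mul_mem_right _ _ (Ideal.subset_span (Set.mem_insert _ _))) ?_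
    exact Ideal.span_mono (Set.subset_insert _ _) hq

end Pool.Agent.Flop
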