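import Pool.Agent.Lib.FlA.HcG
import Pool.Agent.Lib.FlA.HcB
import Pool.Agent.Lib.FlA.PrC
import Pool.Agent.Lib.MP_03045c_ag.SubstAut

/-!
# HcH: homogeneous coordinates and a homogeneous equation

c, l from exists_gens; HasSubst c; θ1 := θ.comp (substAlgHom _) : P →ₐ[ℂ] R, θ1 (X i) = θ (c i) (substAlgHom_X), surjective (subst_bijective), θ1 p = 0 iff g | subst c p iff f0 | p where subst c f0 = g (bijectivity, multiplicativity). Prs f0 θ1 (of_surj). grd (Grd.theta) for θ1: cR μ (θ1 p) = θ1 (cpt l μ p); so θ1 (cpt l μ f0) = cR μ 0 = 0: f0 | cpt l μ f0 for all μ.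
f0 <> 0 (ne_zero): let e0 be an exponent of minimal degree with coeff e0 f0 <> 0, μ := sum e0_i l_i, cpt l μ f0 = u * f0; coefficient at e0: coeff e0 f0 = constantCoeff u * coeff e0 f0 (all exponents of f0 have degree >= |e0|), so constantCoeff u = 1, u is a unit. f := cpt l μ f0: f | p iff f0 | p; Prs f θ1 (of_surj again); IsHg l μ f (coeff_cpt).
-/

set_option autoImplicit false

namespace Pool.Agent.Flop

open Finset MvPowerSeries

variable {V E : Type} [Fintype V] [DecidableEq V] [DecidableEq E] [Fintype E] {Q : Qv V E}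
variable {R A : Type} [CommRing R] [IsLocalRing R] [IsNoetherianRing R] [Algebra ℂ R] [Ring A]
  [Algebra ℂ A] [Algebra R A] {π : Hat Q →ₐ[ℂ] A}
  {g : MvPowerSeries (Fin 4) ℂ} {θ : MvPowerSeries (Fin 4) ℂ →ₐ[ℂ] R}

theorem Grd.exists_coord (hp : Prs g θ) {lam : E → ℚ} {cA : ℚ → A →ₗ[ℂ] A} {cR : ℚ → R →ₗ[ℂ] R}
    (hG : Grd π lam cA cR) : ∃ (f : MvPowerSeries (Fin 4) ℂ)
      (θ₁ : MvPowerSeries (Fin 4) ℂ →ₐ[ℂ] R) (l : Fin 4 → ℚ) (h : ℚ), Prs f θ₁ ∧
      (∀ i, cR (l i) (θ₁ (X i)) = θ₁ (X i)) ∧ IsHg l h f := by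
  obtain ⟨c, l, hc, hcl⟩ := Grd.exists_gens hp hG
  have hs : HasSubst c := hasSubst_of_constantCoeff_zero hc.1
  have hbij := subst_bijective c hc.1 hc.2
  let θ₁ : MvPowerSeries (Fin 4) ℂ →ₐ[ℂ] R := θ.comp (substAlgHom hs)
  have hθ : ∀ p, θ₁ p = θ (subst c p) := by
    intro p
    show θ (substAlgHom hs p) = θ (subst c p)
    rw [coe_substAlgHom]
  have hsurj : Function.Surjective θ₁ := by
    intro r
    obtain ⟨q, hq⟩ := hp.surj r
    obtain ⟨p, hpq⟩ := hbij.2 q
    exact ⟨p, by rw [hθ, hpq, hq]⟩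
  obtain ⟨f0, hf0⟩ := hbij.2 g
  have hker : ∀ p, θ₁ p = 0 ↔ f0 ∣ p := by
    intro p
    rw [hθ, hp.ker]
    constructor
    · rintro ⟨q, hq⟩
      obtain ⟨q', hq'⟩ := hbij.2 q
      refine ⟨q', hbij.1 ?_⟩
      show subst c p = subst c (f0 * q')
      rw [subst_mul hs, hf0, hq', hq]
    · rintro ⟨q, hq⟩
      refine ⟨subst c q, ?_⟩
      rw [hq, subst_mul hs, hf0]
  have h1 : Prs f0 θ₁ := hp.of_surj hsurj hker
  have hl : ∀ i, cR (l i) (θ₁ (X i)) = θ₁ (X i) := by
    intro i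
    rw [hθ, subst_X hs]
    exact hcl i
  have hdiv : ∀ μ, f0 ∣ cpt l μ f0 := by
    intro μ
    rw [← h1.ker, ← Grd.theta h1 hG hl, (h1.ker f0).2 dvd_rfl, map_zero]
  obtain ⟨e0, he0, he0'⟩ := exists_coeff_ne_zero_and_order
    (ne_zero_iff_order_finite.1 h1.ne_zero)
  obtain ⟨u, hu⟩ := hdiv (∑ i, e0 i • l i)
  have hcu : coeff e0 f0 = coeff e0 f0 * constantCoeff u := by
    have h2 : coeff e0 (cpt l (∑ i, e0 i • l i) f0) = coeff e0 f0 := by
      rw [coeff_cpt, if_pos rfl]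
    have h3 : coeff e0 (f0 * u) = coeff e0 f0 * constantCoeff u := by
      rw [MvPowerSeries.coeff_mul, Finset.sum_eq_single (e0, (0 : Fin 4 →₀ ℕ))]
      · rfl
      · rintro ⟨a, b⟩ hab hne
        rw [Finset.HasAntidiagonal.mem_antidiagonal] at hab
        have hb : b ≠ 0 := by
          intro hb
          subst hb
          rw [add_zero] at hab
          exact hne (Prod.ext hab rfl)
        have hlt : (a.degree : ℕ∞) < f0.order := by
          rw [← he0']
          have h4 : e0.degree = a.degree + b.degree := by rw [← hab, map_add]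
          have h5 : b.degree ≠ 0 := by
            intro h6
            exact hb ((Finsupp.degree_eq_zero_iff b).1 h6)
          exact_mod_cast (by omega : a.degree < e0.degree)
        show coeff a f0 * coeff b u = 0
        rw [coeff_of_lt_order hlt, zero_mul]
      · intro h
        exact absurd (Finset.HasAntidiagonal.mem_antidiagonal.2 (add_zero e0)) h
    rw [← h3, ← hu, h2]
  have hu1 : constantCoeff u = 1 := by
    have h2 : coeff e0 f0 * (constantCoeff u - 1) = 0 := by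
      rw [mul_sub, mul_one, ← hcu, sub_self]
    rcases mul_eq_zero.1 h2 with h3 | h3
    · exact absurd h3 he0
    · exact sub_eq_zero.1 h3
  have huu : IsUnit u := by
    rw [MvPowerSeries.isUnit_iff_constantCoeff, hu1]
    exact isUnit_one
  refine ⟨cpt l (∑ i, e0 i • l i) f0, θ₁, l, ∑ i, e0 i • l i, ?_, hl, ?_⟩
  · refine hp.of_surj hsurj fun p => ?_
    rw [hker, hu, huu.mul_right_dvd]
  · intro e he
    by_contra hne
    apply he
    rw [coeff_cpt, if_neg hne]

end Pool.Agent.Flop
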