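import Pool.Agent.Lib.FlA.TrM
import Pool.Agent.Lib.FlA.DerA
import Pool.Agent.Lib.FlA.Eul1
import Pool.Agent.Lib.FlA.Jor3
import Pool.Agent.Lib.FlA.GrC
import Pool.Agent.Lib.FlA.MdlT
import Pool.Agent.Lib.FlA.HcH
import Pool.Agent.Lib.FlA.KszW2
import Pool.Agent.Lib.FlA.SaiR
import Pool.Agent.Lib.FlA.CSaito
import Pool.Agent.Lib.FlA.CMil
import Pool.Agent.Lib.FlA.CTr

/-!
# From the vanishing of the class of the potential to the quasi-homogeneity of the singularity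
-/

set_option autoImplicit false

namespace Pool.Agent.Flop

open Finset MvPowerSeries

variable {V E : Type} [Fintype V] [DecidableEq V] [DecidableEq E] [Fintype E] {Q : Qv V E}
variable {R A : Type} [CommRing R] [IsDomain R] [IsLocalRing R] [IsNoetherianRing R] [Algebra ℂ R]
  [Ring A] [Algebra ℂ A] [Algebra R A] [IsScalarTower ℂ R A] {o : V} {W : Hat Q}
  {π : Hat Q →ₐ[ℂ] A}

theorem Mdl.isQHRing (h : Mdl R o W π) {g : MvPowerSeries (Fin 4) ℂ}
    {θ : MvPowerSeries (Fin 4) ℂ →ₐ[ℂ] R} (hp : Prs g θ) (hc : ClassZero (res o W)) :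
    IsQHRing R := by
  have hW : ClassZero W := h.classZero hp hc
  obtain ⟨D, hD, hDW, hDJ⟩ := exists_sder_of_classZero hW
  have hDer : IsDer D := h.isDer hp.der_max hD hDJ
  obtain ⟨σ, κ, hσ, hκ⟩ := exists_gen_arrows hDer
  obtain ⟨ℓ, hℓ⟩ := exists_ell
  have hs : ∀ v, σ.symm (idem Q v) = idem Q v := fun v => by
    rw [AlgEquiv.symm_apply_eq, hσ]
  have hF : ∀ n, ∀ f ∈ Fil Q n, σ f ∈ Fil Q n := fun n f hf => aut_Fil σ hσ n f hf
  have hF' : ∀ n, ∀ f ∈ Fil Q n, σ.symm f ∈ Fil Q n := fun n f hf => aut_Fil σ.symm hs n f hf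
  have hD' := hDer.conj σ hσ hF hF'
  have h1 : (σ.symm.toLinearMap ∘ₗ D ∘ₗ σ.toLinearMap) (σ.symm W) - (1 : ℂ) • σ.symm W
      ∈ cl (Comm Q) := by
    have h2 : (σ.symm.toLinearMap ∘ₗ D ∘ₗ σ.toLinearMap) (σ.symm W) - (1 : ℂ) • σ.symm W =
        σ.symm (D W - W) := by
      rw [one_smul, map_sub]
      change σ.symm (D (σ (σ.symm W))) - σ.symm W = _
      rw [AlgEquiv.apply_symm_apply]
    rw [h2]
    exact hom_cl_comm (σ.symm : Hat Q →ₐ[ℂ] Hat Q) hF' hDW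
  have h3 := (part_mem_of_der hD' hκ ℓ (isCl_cl (Comm Q)) fun f hf => hD'.cl_comm hf).2 1 _ h1
  have hℓ1 : ℓ 1 = 1 := by
    have := hℓ 1
    rwa [Rat.cast_one] at this
  rw [hℓ1] at h3
  have h4 := h.twist σ hσ
  have h5 : Mdl R o (part (fun a => ℓ (κ a)) 1 (σ.symm W)) (π.comp (σ : Hat Q →ₐ[ℂ] Hat Q)) :=
    h4.congr (part_Fil h4.pot) (jac_congr h3).symm (syz_congr h3 h4.syz)
  have hom : ∀ i l, (part (fun a => ℓ (κ a)) 1 (σ.symm W)).cf i i l ≠ 0 →
      (l.map (fun a => ℓ (κ a))).sum = 1 := by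
    intro i l hl
    rw [cf_part] at hl
    by_contra hne
    exact hl (if_neg hne)
  obtain ⟨cA, cR, hG⟩ := h5.exists_grd (fun a => ℓ (κ a)) (part_jac hom)
  obtain ⟨f, θ₁, l, hh, hpf, hl, hf⟩ := Grd.exists_coord hp hG
  have hw := h5.weight_formula kex_X hom hG hpf hl hf
  have hhne : hh ≠ 0 := by
    rintro rfl
    have hM := milnor_of_tjurina (f := f) ((mem_Od.1 hpf.two) 0 (by simp)) hpf.iso
    have := trace_zero hpf.two hM l hf
    rw [this] at hw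
    norm_num at hw
  have heu := euler_formula l hh hf
  have hhne' : (hh : ℂ) ≠ 0 := by exact_mod_cast hhne
  have hf2 : f = ∑ i, (C ((l i : ℂ) / hh) * X i) * pderiv ℂ i f := by
    have h6 : C ((hh : ℂ)⁻¹) * (C (hh : ℂ) * f) = f := by
      rw [← mul_assoc, ← map_mul, inv_mul_cancel₀ hhne', map_one, one_mul]
    rw [← heu, Finset.mul_sum] at h6
    conv_lhs => rw [← h6]
    refine Finset.sum_congr rfl fun i _ => ?_
    rw [← mul_assoc, ← mul_assoc, ← map_mul, inv_mul_eq_div]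
  have hfJ : f ∈ Jac f := by
    have e : ∑ i, (C ((l i : ℂ) / hh) * X i) * pderiv ℂ i f ∈ Jac f :=
      Ideal.sum_mem _ fun i _ => Ideal.mul_mem_left _ _ (Ideal.subset_span ⟨i, rfl⟩)
    exact (congrArg (· ∈ Jac f) hf2).mpr e
  obtain ⟨N, hN⟩ := hpf.iso
  have hJ : ∃ N, Od 4 N ≤ Jac f := by
    refine ⟨N, hN.trans ?_⟩
    rw [Ideal.span_le]
    rintro x (rfl | hx)
    · exact hfJ
    · exact Ideal.subset_span hx
  obtain ⟨c, w, d, f', hc1, hw1, hf1, he⟩ := saito hpf.two hJ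
    (fun i => C ((l i : ℂ) / hh) * X i) (fun i => by simp) hf2
  exact isQHRing_of_subst hpf hc1 hw1 hf1 he

end Pool.Agent.Flop
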