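import Pool.Agent.Lib.FlA.Def6
import Pool.Agent.Lib.FlA.RegRet
import Pool.Agent.Lib.FlA.PrsB

/-!
# HsA: Ext^1 vanishes: elementary form (depth 3 of End N)

`exists_hom`: choose s x by gen and put e x := ∑ k, θ (s x k) • v k. If ∑ k, θ (u k) • n k = 0 then u = φ w by rel and ∑ k, θ (∑ l, φ k l * w l) • v k = ∑ l, θ (w l) • ∑ k, θ (φ k l) • v k = 0; so e is well defined and R-linear (every r : R is θ p by hp.surj; compare the module Anh, the proof of exists_factor_of_fact, which does exactly this). `ext_zero`: write (v φ) l := ∑ k, θ (φ k l) • v k.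
f2 • f1 • ξ = f1 • f2 • ξ gives ((f2 v1 - f1 v2) φ) = 0, so exists_hom gives e12 : N → N with e12 (n k) = f2 • v1 k - f1 • v2 k; in the same way e13 (n k) = f3 • v1 k - f1 • v3 k, e23 (n k) = f3 • v2 k - f2 • v3 k. Then f3 • e12 = f2 • e13 - f1 • e23 in End N (they agree on the generators: f3 f2 v1 - f3 f1 v2 = f2 f3 v1 - f2 f1 v3 - f1 f3 v2 + f1 f2 v3; extend by gen). `regular_unfold hE` (third part, x = e12,
y = - e23, z = e13): e12 = f1 • p + f2 • q. So f2 • (v1 k - q (n k)) = f1 • (v2 k + p (n k)) for every k; `regular_unfold hN` (second part): v1 k - q (n k) = f1 • u k. Now f1 • ξ l = ∑ k, θ (φ k l) • v1 k = ∑ k, θ (φ k l) • (f1 • u k) + q (∑ k, θ (φ k l) • n k), and the last sum is 0 by rel (u = column l of φ = φ.mulVec (Pi.single l 1)). So f1 • (ξ l - ∑ k, θ (φ k l) • u k) = 0 and the first part of regular_unfold hN gives the claim.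
-/

set_option autoImplicit false

namespace Pool.Agent.Flop

open Finset MvPowerSeries

variable {R : Type} [CommRing R] [Algebra ℂ R] {N : Type} [AddCommGroup N] [Module R N]
  {g : MvPowerSeries (Fin 4) ℂ} {θ : MvPowerSeries (Fin 4) ℂ →ₐ[ℂ] R} {a b : ℕ} {n : Fin a → N}
  {φ : Matrix (Fin a) (Fin b) (MvPowerSeries (Fin 4) ℂ)}
  {ψ : Matrix (Fin b) (Fin a) (MvPowerSeries (Fin 4) ℂ)}

theorem MFac.exists_hom (hp : Prs g θ) (h : MFac g θ n φ ψ) {M : Type} [AddCommGroup M]
    [Module R M] (v : Fin a → M) (hv : ∀ l, ∑ k, θ (φ k l) • v k = 0) :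
    ∃ e : N →ₗ[R] M, ∀ k, e (n k) = v k := by
  classical
  -- the two evaluation maps
  obtain ⟨pi, hpi⟩ : ∃ pi : (Fin a → MvPowerSeries (Fin 4) ℂ) → N,
      ∀ u, pi u = ∑ k, θ (u k) • n k := ⟨_, fun u => rfl⟩
  obtain ⟨ro, hro⟩ : ∃ ro : (Fin a → MvPowerSeries (Fin 4) ℂ) → M,
      ∀ u, ro u = ∑ k, θ (u k) • v k := ⟨_, fun u => rfl⟩
  have pi_add : ∀ u v, pi (u + v) = pi u + pi v := by
    intro u v
    rw [hpi, hpi, hpi, ← Finset.sum_add_distrib]
    refine Finset.sum_congr rfl fun k _ => ?_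
    rw [Pi.add_apply, map_add, add_smul]
  have pi_smul : ∀ p u, pi (p • u) = θ p • pi u := by
    intro p u
    rw [hpi, hpi, Finset.smul_sum]
    refine Finset.sum_congr rfl fun k _ => ?_
    rw [Pi.smul_apply, smul_eq_mul, map_mul, mul_smul]
  have pi_sub : ∀ u v, pi (u - v) = pi u - pi v := by
    intro u v
    rw [hpi, hpi, hpi, ← Finset.sum_sub_distrib]
    refine Finset.sum_congr rfl fun k _ => ?_
    rw [Pi.sub_apply, map_sub, sub_smul]
  have ro_add : ∀ u v, ro (u + v) = ro u + ro v := by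
    intro u v
    rw [hro, hro, hro, ← Finset.sum_add_distrib]
    refine Finset.sum_congr rfl fun k _ => ?_
    rw [Pi.add_apply, map_add, add_smul]
  have ro_smul : ∀ p u, ro (p • u) = θ p • ro u := by
    intro p u
    rw [hro, hro, Finset.smul_sum]
    refine Finset.sum_congr rfl fun k _ => ?_
    rw [Pi.smul_apply, smul_eq_mul, map_mul, mul_smul]
  have ro_sub : ∀ u v, ro (u - v) = ro u - ro v := by
    intro u v
    rw [hro, hro, hro, ← Finset.sum_sub_distrib]
    refine Finset.sum_congr rfl fun k _ => ?_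
    rw [Pi.sub_apply, map_sub, sub_smul]
  have key : ∀ u, pi u = 0 → ro u = 0 := by
    intro u hu
    rw [hpi] at hu
    obtain ⟨w, rfl⟩ := (h.rel u).1 hu
    rw [hro]
    have h1 : ∀ k, θ (φ.mulVec w k) • v k = ∑ l, θ (w l) • (θ (φ k l) • v k) := by
      intro k
      rw [Matrix.mulVec, dotProduct, map_sum, Finset.sum_smul]
      refine Finset.sum_congr rfl fun l _ => ?_
      rw [map_mul, mul_comm, mul_smul]
    rw [Finset.sum_congr rfl fun k _ => h1 k, Finset.sum_comm]
    refine Finset.sum_eq_zero fun l _ => ?_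
    rw [← Finset.smul_sum, hv, smul_zero]
  choose s hs using h.gen
  have hs' : ∀ x, pi (s x) = x := fun x => by rw [hpi]; exact (hs x).symm
  have key' : ∀ u u', pi u = pi u' → ro u = ro u' := by
    intro u u' huu
    have h1 := key (u - u') (by rw [pi_sub, huu, sub_self])
    rw [ro_sub, sub_eq_zero] at h1
    exact h1
  refine ⟨{ toFun := fun x => ro (s x)
            map_add' := fun x y => ?_
            map_smul' := fun r x => ?_ }, fun k => ?_⟩
  · change ro (s (x + y)) = ro (s x) + ro (s y)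
    rw [← ro_add]
    exact key' _ _ (by rw [hs', pi_add, hs', hs'])
  · obtain ⟨p, rfl⟩ := hp.surj r
    change ro (s (θ p • x)) = θ p • ro (s x)
    rw [← ro_smul]
    exact key' _ _ (by rw [hs', pi_smul, hs'])
  · change ro (s (n k)) = v k
    have h1 : pi (Pi.single k 1) = n k := by
      rw [hpi, Finset.sum_eq_single k]
      · rw [Pi.single_eq_same, map_one, one_smul]
      · intro j _ hj
        rw [Pi.single_eq_of_ne hj, map_zero, zero_smul]
      · intro hk
        exact absurd (Finset.mem_univ k) hk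
    have h2 : ro (Pi.single k 1) = v k := by
      rw [hro, Finset.sum_eq_single k]
      · rw [Pi.single_eq_same, map_one, one_smul]
      · intro j _ hj
        rw [Pi.single_eq_of_ne hj, map_zero, zero_smul]
      · intro hk
        exact absurd (Finset.mem_univ k) hk
    rw [← h2]
    exact key' _ _ (by rw [hs', h1])

theorem MFac.ext_zero (hp : Prs g θ) (h : MFac g θ n φ ψ) {f₁ f₂ f₃ : R}
    (hE : RingTheory.Sequence.IsWeaklyRegular (Module.End R N) [f₁, f₂, f₃])
    (hN : RingTheory.Sequence.IsWeaklyRegular N [f₁, f₂, f₃]) (ξ : Fin b → N)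
    (v₁ v₂ v₃ : Fin a → N) (h₁ : ∀ l, f₁ • ξ l = ∑ k, θ (φ k l) • v₁ k)
    (h₂ : ∀ l, f₂ • ξ l = ∑ k, θ (φ k l) • v₂ k) (h₃ : ∀ l, f₃ • ξ l = ∑ k, θ (φ k l) • v₃ k) :
    ∃ u : Fin a → N, ∀ l, ξ l = ∑ k, θ (φ k l) • u k := by
  classical
  have aux : ∀ (p q : R) (v w : Fin a → N), (∀ l, p • ξ l = ∑ k, θ (φ k l) • v k) →
      (∀ l, q • ξ l = ∑ k, θ (φ k l) • w k) →
      ∃ e : N →ₗ[R] N, ∀ k, e (n k) = q • v k - p • w k := by
    intro p q v w hv hw
    refine h.exists_hom hp _ fun l => ?_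
    have h1 : ∀ k, θ (φ k l) • (q • v k - p • w k) =
        q • (θ (φ k l) • v k) - p • (θ (φ k l) • w k) := by
      intro k
      rw [smul_sub, smul_comm (θ (φ k l)) q, smul_comm (θ (φ k l)) p]
    rw [Finset.sum_congr rfl fun k _ => h1 k, Finset.sum_sub_distrib, ← Finset.smul_sum,
      ← Finset.smul_sum, ← hv, ← hw, smul_comm, sub_self]
  obtain ⟨e12, he12⟩ := aux f₁ f₂ v₁ v₂ h₁ h₂
  obtain ⟨e13, he13⟩ := aux f₁ f₃ v₁ v₃ h₁ h₃
  obtain ⟨e23, he23⟩ := aux f₂ f₃ v₂ v₃ h₂ h₃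
  obtain ⟨hN1, hN2, -⟩ := regular_unfold hN
  obtain ⟨-, -, hE3⟩ := regular_unfold hE
  have hgen : ∀ e e' : N →ₗ[R] N, (∀ k, e (n k) = e' (n k)) → e = e' := by
    intro e e' hee
    refine LinearMap.ext fun x => ?_
    obtain ⟨u, rfl⟩ := h.gen x
    rw [map_sum, map_sum]
    refine Finset.sum_congr rfl fun k _ => ?_
    rw [map_smul, map_smul, hee]
  have hrel : f₃ • (e12 : Module.End R N) = f₁ • (-e23 : Module.End R N) + f₂ • e13 := by
    refine hgen _ _ fun k => ?_
    rw [LinearMap.add_apply, LinearMap.smul_apply, LinearMap.smul_apply, LinearMap.smul_apply,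
      LinearMap.neg_apply, he12, he13, he23]
    simp only [smul_sub, smul_neg, smul_smul]
    rw [mul_comm f₃ f₂, mul_comm f₃ f₁, mul_comm f₂ f₁]
    abel
  obtain ⟨p, q, hpq⟩ := hE3 _ _ _ hrel
  have h4 : ∀ k, ∃ u, v₁ k - q (n k) = f₁ • u := by
    intro k
    refine hN2 _ (v₂ k + p (n k)) ?_
    have h5 := LinearMap.congr_fun hpq (n k)
    rw [he12, LinearMap.add_apply, LinearMap.smul_apply, LinearMap.smul_apply] at h5
    rw [smul_sub, smul_add]
    rw [sub_eq_iff_eq_add] at h5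
    rw [h5]
    abel
  choose u hu using h4
  refine ⟨u, fun l => ?_⟩
  rw [← sub_eq_zero]
  refine hN1 _ ?_
  have h6 : ∑ k, θ (φ k l) • n k = 0 := by
    refine (h.rel fun k => φ k l).2 ⟨Pi.single l 1, ?_⟩
    funext k
    rw [Matrix.mulVec_single_one]
    rfl
  have h7 : ∑ k, θ (φ k l) • v₁ k = f₁ • ∑ k, θ (φ k l) • u k := by
    have h8 : ∀ k, θ (φ k l) • v₁ k = f₁ • (θ (φ k l) • u k) + q (θ (φ k l) • n k) := by
      intro k
      rw [smul_comm f₁, ← hu k, map_smul, smul_sub]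
      abel
    rw [Finset.sum_congr rfl fun k _ => h8 k, Finset.sum_add_distrib, ← Finset.smul_sum,
      ← map_sum, h6, map_zero, add_zero]
  rw [smul_sub, h₁, h7, sub_self]

end Pool.Agent.Flop
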