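import Pool.Agent.Lib.FlA.PrsB

/-!
# PrL: presentations: from the hypotheses of the model

`exists_prs_of_hyp`: θ = e.symm ∘ Ideal.Quotient.mkₐ; ker: Ideal.mem_span_singleton. iso: I := span (insert g ..), P/I finite-dimensional over ℂ: the subspaces (I + Od N)/I decrease, so I + Od N = I + Od (N+1) for some N (from which on? the dimension of P/(I + Od N) is non-decreasing and bounded, so constant for N >= N0): I + Od N = I + Od M for all M >= N = N0; so Od N0 <= I by
ideal_closed. `isLocalRing`: θ surjective ring hom from a local ring, R nontrivial (θ 1 = 1 = 0 would give g | 1, but constantCoeff g = 0): `IsLocalRing.of_surjective'` or `IsLocalRing.of_surjective`. `isNoetherianRing`: isNoetherianRing_of_surjective. `resf`: r = θ p, c = constantCoeff p, mem_max for p - C c. `nfield`: θ (X 0) in m, and <> 0: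
g | X 0 is impossible as g in Od 2 (X 0 is not in Od 2).
-/

set_option autoImplicit false

namespace Pool.Agent.Flop

open Finset MvPowerSeries

variable {R : Type} [CommRing R] [Algebra ℂ R]
  {g : MvPowerSeries (Fin 4) ℂ} {θ : MvPowerSeries (Fin 4) ℂ →ₐ[ℂ] R}

private theorem prL_mem {p : MvPowerSeries (Fin 4) ℂ}
    (hp : p ∈ IsLocalRing.maximalIdeal (MvPowerSeries (Fin 4) ℂ)) : constantCoeff p = 0 := by
  rw [← mem_Od_one, Od_eq, pow_one]
  exact hp

private theorem prL_nilp (I : Ideal (MvPowerSeries (Fin 4) ℂ))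
    (h : Module.Finite ℂ (MvPowerSeries (Fin 4) ℂ ⧸ I)) : ∃ N, Od 4 N ≤ I := by
  have hA : IsArtinianRing (MvPowerSeries (Fin 4) ℂ ⧸ I) := IsArtinianRing.of_finite ℂ _
  obtain ⟨N, hN⟩ := IsArtinianRing.isNilpotent_jacobson_bot (R := MvPowerSeries (Fin 4) ℂ ⧸ I)
  refine ⟨N, fun p hp => ?_⟩
  rw [Od_eq] at hp
  have h1 : (IsLocalRing.maximalIdeal (MvPowerSeries (Fin 4) ℂ)).map (Ideal.Quotient.mk I) ≤
      Ideal.jacobson (⊥ : Ideal (MvPowerSeries (Fin 4) ℂ ⧸ I)) := by
    rw [Ideal.map_le_iff_le_comap]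
    intro a ha
    rw [Ideal.mem_comap, Ideal.mem_jacobson_bot]
    intro y
    obtain ⟨b, rfl⟩ := Ideal.Quotient.mk_surjective y
    have h2 : IsUnit (a * b + 1) := by
      rw [MvPowerSeries.isUnit_iff_constantCoeff, map_add, map_mul, map_one,
        prL_mem ha, zero_mul, zero_add]
      exact isUnit_one
    have h3 := h2.map (Ideal.Quotient.mk I)
    rwa [map_add, map_mul, map_one] at h3
  have h4 := Ideal.mem_map_of_mem (Ideal.Quotient.mk I) hp
  rw [Ideal.map_pow] at h4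
  have h5 := Ideal.pow_right_mono h1 N h4
  have h6 : (Ideal.jacobson (⊥ : Ideal (MvPowerSeries (Fin 4) ℂ ⧸ I))) ^ N = ⊥ := hN
  rw [h6, Ideal.mem_bot, Ideal.Quotient.eq_zero_iff_mem] at h5
  exact h5

theorem exists_prs_of_hyp (h : ∃ g : MvPowerSeries (Fin 4) ℂ,
    (∀ e : Fin 4 →₀ ℕ, e.degree < 2 → MvPowerSeries.coeff e g = 0) ∧
    Module.Finite ℂ (MvPowerSeries (Fin 4) ℂ ⧸
      Ideal.span (insert g (Set.range fun i => MvPowerSeries.pderiv ℂ i g))) ∧
    Nonempty (R ≃ₐ[ℂ] MvPowerSeries (Fin 4) ℂ ⧸ Ideal.span {g})) :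
    ∃ (g : MvPowerSeries (Fin 4) ℂ) (θ : MvPowerSeries (Fin 4) ℂ →ₐ[ℂ] R), Prs g θ := by
  obtain ⟨g, h1, h2, ⟨e⟩⟩ := h
  refine ⟨g, (e.symm : (MvPowerSeries (Fin 4) ℂ ⧸ Ideal.span {g}) →ₐ[ℂ] R).comp
    (Ideal.Quotient.mkₐ ℂ (Ideal.span {g})), h1, prL_nilp _ h2, ?_, ?_⟩
  · exact e.symm.surjective.comp Ideal.Quotient.mk_surjective
  · intro p
    change e.symm (Ideal.Quotient.mk (Ideal.span {g}) p) = 0 ↔ g ∣ p
    rw [map_eq_zero_iff _ e.symm.injective, Ideal.Quotient.eq_zero_iff_mem,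
      Ideal.mem_span_singleton]

private theorem prL_const (h : Prs g θ) : constantCoeff g = 0 :=
  mem_Od_one.mp (Od_anti one_le_two h.two)

theorem Prs.isLocalRing (h : Prs g θ) : IsLocalRing R := by
  have : Nontrivial R := by
    refine ⟨⟨1, 0, fun h0 => ?_⟩⟩
    obtain ⟨s, hs⟩ := (h.ker 1).mp (by rw [map_one, h0])
    have h2 := congrArg constantCoeff hs
    rw [map_mul, prL_const h, zero_mul, map_one] at h2
    exact one_ne_zero h2
  exact IsLocalRing.of_surjective' (θ : MvPowerSeries (Fin 4) ℂ →+* R) h.surj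

theorem Prs.isNoetherianRing (h : Prs g θ) : IsNoetherianRing R :=
  isNoetherianRing_of_surjective _ R (θ : MvPowerSeries (Fin 4) ℂ →+* R) h.surj

theorem Prs.resf [IsLocalRing R] (h : Prs g θ) (r : R) :
    ∃ c : ℂ, r - algebraMap ℂ R c ∈ IsLocalRing.maximalIdeal R := by
  have : IsNoetherianRing R := h.isNoetherianRing
  obtain ⟨p, rfl⟩ := h.surj r
  refine ⟨constantCoeff p, ?_⟩
  have h1 : θ p - algebraMap ℂ R (constantCoeff p) =
      θ (p - algebraMap ℂ _ (constantCoeff p)) := by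
    rw [map_sub, AlgHom.commutes]
  rw [h1, h.mem_max, map_sub]
  have h2 : (algebraMap ℂ (MvPowerSeries (Fin 4) ℂ)) (constantCoeff p) =
      MvPowerSeries.C (constantCoeff p) := rfl
  rw [h2, constantCoeff_C, sub_self]

theorem Prs.nfield [IsLocalRing R] (h : Prs g θ) : IsLocalRing.maximalIdeal R ≠ ⊥ := by
  have : IsNoetherianRing R := h.isNoetherianRing
  intro h0
  have h1 : θ (X 0) ∈ IsLocalRing.maximalIdeal R := by
    rw [h.mem_max]
    exact constantCoeff_X 0
  rw [h0, Ideal.mem_bot, h.ker] at h1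
  obtain ⟨s, hs⟩ := h1
  have h2 : (X 0 : MvPowerSeries (Fin 4) ℂ) ∈ Od 4 2 := by
    rw [hs]
    exact Ideal.mul_mem_right _ _ h.two
  have h3 := h2 (Finsupp.single 0 1) (by rw [Finsupp.degree_single]; norm_num)
  rw [coeff_index_single_self_X] at h3
  exact one_ne_zero h3

end Pool.Agent.Flop
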