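import Pool.Agent.Lib.FlA.HsA
import Pool.Agent.Lib.FlA.PrL

/-!
# HsB: odd cocycles of matrix factorizations are coboundaries

`cancel`: multiply by ψ on the left: ψ φ = g • 1, so g • M = 0, entries: g * M i j = 0, g ≠ 0 (Prs.ne_zero, domain). `null_right`: φ (ψ h₁ + h₀ φ - p • 1) = g h₁ + (p • 1 - h₁ ψ) φ - p φ = 0; cancel. `exists_matrix_ext`: ξ l := ∑ k, θ (η₀ k l) • n k. Let f : R be in the maximal ideal. f = θ p with p in Ideal.span (range X) (hp.surj, hp.mem_max, mem_Od_one, span_X), p = ∑ i, q i * X i (Ideal.mem_span_range_iff_exists_fun).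
With hx: H₀ := ∑ i, q i • h₀ i, H₁ := ∑ i, q i • h₁ i satisfy φ H₀ + H₁ ψ = p • 1, so ψ H₁ + H₀ φ = p • 1 by null_right. p • η₀ = η₀ (ψ H₁ + H₀ φ) = - φ η₁ H₁ + (η₀ H₀) φ. Put v k' := ∑ k, θ ((η₀ * H₀) k k') • n k. Then f • ξ l = ∑ k, θ (p * η₀ k l) • n k = ∑ k', θ (φ k' l) • v k' since ∑ k, θ ((φ * (η₁ * H₁)) k l) • n k = 0 by rel. Apply ext_zero to the three f's: ξ l = ∑ k', θ (φ k' l) • u k'. By gen
u k' = ∑ k, θ (u₀ k k') • n k. So column l of η₀ - u₀ φ is a relation: rel gives w l with (η₀ - u₀ φ) column l = φ.mulVec (w l); u₁ := - (matrix with columns w l).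
-/

set_option autoImplicit false

namespace Pool.Agent.Flop

open Finset MvPowerSeries

variable {R : Type} [CommRing R] [Algebra ℂ R] {N : Type} [AddCommGroup N] [Module R N]
  {g : MvPowerSeries (Fin 4) ℂ} {θ : MvPowerSeries (Fin 4) ℂ →ₐ[ℂ] R} {a b : ℕ} {n : Fin a → N}
  {φ : Matrix (Fin a) (Fin b) (MvPowerSeries (Fin 4) ℂ)}
  {ψ : Matrix (Fin b) (Fin a) (MvPowerSeries (Fin 4) ℂ)}

private theorem hsB_left (h : MFac g θ n φ ψ) {c : ℕ}
    (B : Matrix (Fin b) (Fin c) (MvPowerSeries (Fin 4) ℂ)) (l : Fin c) :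
    ∑ k, θ ((φ * B) k l) • n k = 0 :=
  (h.rel (fun k => (φ * B) k l)).2 ⟨fun j => B j l, rfl⟩

private theorem hsB_right (A : Matrix (Fin a) (Fin a) (MvPowerSeries (Fin 4) ℂ)) (l : Fin b) :
    ∑ k, θ ((A * φ) k l) • n k = ∑ k', θ (φ k' l) • ∑ k, θ (A k k') • n k := by
  simp only [Matrix.mul_apply, map_sum, map_mul, Finset.sum_smul, Finset.smul_sum, smul_smul]
  rw [Finset.sum_comm]
  refine Finset.sum_congr rfl fun k' _ => Finset.sum_congr rfl fun k _ => ?_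
  rw [mul_comm]

theorem MFac.cancel (hp : Prs g θ) (h : MFac g θ n φ ψ) {c : ℕ}
    {M : Matrix (Fin b) (Fin c) (MvPowerSeries (Fin 4) ℂ)} (hM : φ * M = 0) : M = 0 := by
  have h1 : ψ * (φ * M) = 0 := by rw [hM, Matrix.mul_zero]
  rw [← Matrix.mul_assoc, h.right, Matrix.smul_mul, Matrix.one_mul] at h1
  have hl : IsLocalRing R := hp.isLocalRing
  have hn : IsNoetherianRing R := hp.isNoetherianRing
  ext1 i j
  have h2 : g * M i j = 0 := congrFun (congrFun h1 i) j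
  exact (mul_eq_zero.1 h2).resolve_left hp.ne_zero

theorem MFac.null_right (hp : Prs g θ) (h : MFac g θ n φ ψ) {p : MvPowerSeries (Fin 4) ℂ}
    {h₀ : Matrix (Fin b) (Fin a) (MvPowerSeries (Fin 4) ℂ)}
    {h₁ : Matrix (Fin a) (Fin b) (MvPowerSeries (Fin 4) ℂ)}
    (e : φ * h₀ + h₁ * ψ = p • (1 : Matrix (Fin a) (Fin a) (MvPowerSeries (Fin 4) ℂ))) :
    ψ * h₁ + h₀ * φ = p • (1 : Matrix (Fin b) (Fin b) (MvPowerSeries (Fin 4) ℂ)) := by
  have h1 : φ * (ψ * h₁ + h₀ * φ - p • (1 : Matrix (Fin b) (Fin b) (MvPowerSeries (Fin 4) ℂ)))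
      = 0 := by
    have h2 : φ * h₀ = p • (1 : Matrix (Fin a) (Fin a) (MvPowerSeries (Fin 4) ℂ)) - h₁ * ψ :=
      eq_sub_of_add_eq e
    rw [Matrix.mul_sub, Matrix.mul_add, ← Matrix.mul_assoc, h.left, ← Matrix.mul_assoc, h2,
      Matrix.sub_mul, Matrix.mul_assoc h₁, h.right, Matrix.mul_smul, Matrix.mul_one,
      Matrix.smul_mul, Matrix.one_mul, Matrix.smul_mul, Matrix.one_mul, Matrix.mul_smul,
      Matrix.mul_one]
    abel
  exact sub_eq_zero.1 (h.cancel hp h1)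

theorem MFac.exists_matrix_ext [IsLocalRing R] (hp : Prs g θ) (h : MFac g θ n φ ψ) {f₁ f₂ f₃ : R}
    (hE : RingTheory.Sequence.IsWeaklyRegular (Module.End R N) [f₁, f₂, f₃])
    (hN : RingTheory.Sequence.IsWeaklyRegular N [f₁, f₂, f₃])
    (hf₁ : f₁ ∈ IsLocalRing.maximalIdeal R) (hf₂ : f₂ ∈ IsLocalRing.maximalIdeal R)
    (hf₃ : f₃ ∈ IsLocalRing.maximalIdeal R)
    (hx : ∀ i : Fin 4, ∃ (h₀ : Matrix (Fin b) (Fin a) (MvPowerSeries (Fin 4) ℂ))
      (h₁ : Matrix (Fin a) (Fin b) (MvPowerSeries (Fin 4) ℂ)), φ * h₀ + h₁ * ψ =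
        (X i : MvPowerSeries (Fin 4) ℂ) • (1 : Matrix (Fin a) (Fin a) (MvPowerSeries (Fin 4) ℂ)))
    (η₀ : Matrix (Fin a) (Fin b) (MvPowerSeries (Fin 4) ℂ))
    (η₁ : Matrix (Fin b) (Fin a) (MvPowerSeries (Fin 4) ℂ)) (hη : η₀ * ψ + φ * η₁ = 0) :
    ∃ (u₀ : Matrix (Fin a) (Fin a) (MvPowerSeries (Fin 4) ℂ))
      (u₁ : Matrix (Fin b) (Fin b) (MvPowerSeries (Fin 4) ℂ)), η₀ = u₀ * φ - φ * u₁ := by
  have hn : IsNoetherianRing R := hp.isNoetherianRing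
  choose h₀ h₁ hX using hx
  set ξ : Fin b → N := fun l => ∑ k, θ (η₀ k l) • n k with hξ
  have key : ∀ f ∈ IsLocalRing.maximalIdeal R, ∃ v : Fin a → N,
      ∀ l, f • ξ l = ∑ k, θ (φ k l) • v k := by
    intro f hf
    obtain ⟨p, rfl⟩ := hp.surj f
    have h2 : p ∈ Ideal.span (Set.range fun i : Fin 4 => (X i : MvPowerSeries (Fin 4) ℂ)) := by
      rw [span_X, mem_Od_one]
      exact (hp.mem_max p).1 hf
    obtain ⟨q, hq⟩ := Ideal.mem_span_range_iff_exists_fun.1 h2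
    have h3 : φ * (∑ i, q i • h₀ i) + (∑ i, q i • h₁ i) * ψ =
        p • (1 : Matrix (Fin a) (Fin a) (MvPowerSeries (Fin 4) ℂ)) := by
      rw [Matrix.mul_sum, Matrix.sum_mul, ← Finset.sum_add_distrib, ← hq, Finset.sum_smul]
      refine Finset.sum_congr rfl fun i _ => ?_
      rw [Matrix.mul_smul, Matrix.smul_mul, ← smul_add, hX i, smul_smul]
    have h4 := h.null_right hp h3
    set H₀ := ∑ i, q i • h₀ i with hH0
    set H₁ := ∑ i, q i • h₁ i with hH1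
    have h5 : p • η₀ = -(φ * (η₁ * H₁)) + (η₀ * H₀) * φ := by
      have h6 : η₀ * ψ = -(φ * η₁) := eq_neg_of_add_eq_zero_left hη
      calc p • η₀ = η₀ * (p • (1 : Matrix (Fin b) (Fin b) (MvPowerSeries (Fin 4) ℂ))) := by
            rw [Matrix.mul_smul, Matrix.mul_one]
        _ = η₀ * (ψ * H₁ + H₀ * φ) := by rw [h4]
        _ = -(φ * (η₁ * H₁)) + (η₀ * H₀) * φ := by
            rw [Matrix.mul_add, ← Matrix.mul_assoc, h6, Matrix.neg_mul, Matrix.mul_assoc φ,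
              Matrix.mul_assoc η₀]
    refine ⟨fun k' => ∑ k, θ ((η₀ * H₀) k k') • n k, fun l => ?_⟩
    rw [← hsB_right, hξ]
    have h7 : ∀ k, θ (p * η₀ k l) = -θ ((φ * (η₁ * H₁)) k l) + θ (((η₀ * H₀) * φ) k l) := by
      intro k
      have h8 : p * η₀ k l = -((φ * (η₁ * H₁)) k l) + ((η₀ * H₀) * φ) k l :=
        congrFun (congrFun h5 k) l
      rw [h8, map_add, map_neg]
    simp only [Finset.smul_sum, smul_smul, ← map_mul]
    simp only [h7, add_smul, neg_smul, Finset.sum_add_distrib, Finset.sum_neg_distrib]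
    rw [hsB_left h, neg_zero, zero_add]
  obtain ⟨v₁, hv₁⟩ := key f₁ hf₁
  obtain ⟨v₂, hv₂⟩ := key f₂ hf₂
  obtain ⟨v₃, hv₃⟩ := key f₃ hf₃
  obtain ⟨u, hu⟩ := h.ext_zero hp hE hN ξ v₁ v₂ v₃ hv₁ hv₂ hv₃
  choose c hc using fun k => h.gen (u k)
  have h9 : ∀ l, ∃ w : Fin b → MvPowerSeries (Fin 4) ℂ,
      (fun k => (η₀ - Matrix.of (fun k k' => c k' k) * φ) k l) = φ.mulVec w := by
    intro l
    refine (h.rel _).1 ?_
    have h10 : ∀ k, θ ((η₀ - Matrix.of (fun k k' => c k' k) * φ) k l) =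
        θ (η₀ k l) - θ ((Matrix.of (fun k k' => c k' k) * φ) k l) := by
      intro k
      rw [Matrix.sub_apply, map_sub]
    simp only [h10, sub_smul, Finset.sum_sub_distrib]
    rw [hsB_right, sub_eq_zero]
    refine (hu l).trans (Finset.sum_congr rfl fun k' _ => ?_)
    rw [hc k']
    rfl
  choose w hw using h9
  refine ⟨Matrix.of (fun k k' => c k' k), -(Matrix.of fun j l => w l j), ?_⟩
  rw [Matrix.mul_neg, sub_neg_eq_add]
  ext1 k l
  have h11 : η₀ k l - (Matrix.of (fun k k' => c k' k) * φ) k l = φ.mulVec (w l) k :=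
    congrFun (hw l) k
  rw [Matrix.add_apply, add_comm]
  exact eq_add_of_sub_eq h11

end Pool.Agent.Flop
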