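import Pool.Agent.Lib.FlA.HsB

/-!
# HsC: if the maximal ideal is null-homotopic on a rigid module without free summands, the Hessian is nondegenerate

Let D := ∑ j, c j • pderiv ℂ j (a derivation S → S, S = ℂ[[x]]; D (X i) = C (c i) or algebraMap). Suppose D g ∈ Od 4 2 and c i ≠ 0 for some i; derive a contradiction. (1) D g = ∑ i, X i * p i with constantCoeff (p i) = 0: Od 4 2 is contained in Ideal.span (range X) * Ideal.span (range X) (or: D g in Od 4 1 = span (range X) gives D g = ∑ X i * p i; choose p i in Od 4 1; look for a lemma about Od n (N+1) or powers of the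
maximal ideal in Od*.lean: grep Od). With hx put H₀ := ∑ i, p i • h₀ i, H₁ := ∑ i, p i • h₁ i: φ H₀ + H₁ ψ = (D g) • 1, and null_right gives ψ H₁ + H₀ φ = (D g) • 1; all entries of H₀, H₁ have constant coefficient 0. (2) Differentiate left and right: D φ * ψ + φ * D ψ = (D g) • 1 and D ψ * φ + ψ * D φ = (D g) • 1 (entrywise derivative; the module Anh has private lemmas anh_map_mul, anh_map_one: copy). η₀ := D φ - H₁, η₁ := D ψ - H₀:
η₀ ψ + φ η₁ = 0. exists_matrix_ext: η₀ = u₀ φ - φ u₁. Then φ η₁ = - η₀ ψ = - g u₀ + φ u₁ ψ = φ (u₁ ψ - ψ u₀), so η₁ = u₁ ψ - ψ u₀ by cancel. (3) Take constant coefficients entrywise (the ring homomorphism constantCoeff, `Matrix.map`): write M(0). ψ(0) = 0, H₀(0) = 0, H₁(0) = 0. So (D ψ)(0) = 0 and (D φ)(0) = u₀(0) φ(0) - φ(0) u₁(0). Fix i with c i ≠ 0 and h₀, h₁ from hx i: φ h₀ + h₁ ψ = X i • 1. At 0: φ(0) h₀(0) = 0.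
Differentiate and take constant coefficients: c i • 1 = (D φ)(0) h₀(0) + φ(0) (D h₀)(0) + (D h₁)(0) ψ(0) + h₁(0) (D ψ)(0) = u₀(0) φ(0) h₀(0) - φ(0) u₁(0) h₀(0) + φ(0) (D h₀)(0) = φ(0) * T with T := (D h₀)(0) - u₁(0) h₀(0). (4) So φ(0) has a right inverse over ℂ. Let T' be T / c i as a matrix of constant power series: the determinant of φ * T' has constant coefficient 1, so it is a unit (MvPowerSeries.isUnit_iff_constantCoeff),
φ * T' is invertible (Matrix.isUnit_iff_isUnit_det), so every u is in the range of φ.mulVec, and by rel, gen every x : N is 0: contradiction to Nontrivial N.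
-/

set_option autoImplicit false

namespace Pool.Agent.Flop

open Finset MvPowerSeries

variable {R : Type} [CommRing R] [Algebra ℂ R] {N : Type} [AddCommGroup N] [Module R N]
  {g : MvPowerSeries (Fin 4) ℂ} {θ : MvPowerSeries (Fin 4) ℂ →ₐ[ℂ] R} {a b : ℕ} {n : Fin a → N}
  {φ : Matrix (Fin a) (Fin b) (MvPowerSeries (Fin 4) ℂ)}
  {ψ : Matrix (Fin b) (Fin a) (MvPowerSeries (Fin 4) ℂ)}

private theorem hsC_map_mul {l m n : ℕ}
    (d : Derivation ℂ (MvPowerSeries (Fin 4) ℂ) (MvPowerSeries (Fin 4) ℂ))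
    (A : Matrix (Fin l) (Fin m) (MvPowerSeries (Fin 4) ℂ))
    (B : Matrix (Fin m) (Fin n) (MvPowerSeries (Fin 4) ℂ)) :
    (A * B).map d = A.map d * B + A * B.map d := by
  ext1 i j
  rw [Matrix.map_apply, Matrix.mul_apply, Matrix.add_apply, Matrix.mul_apply, Matrix.mul_apply,
    map_sum, ← Finset.sum_add_distrib]
  refine Finset.sum_congr rfl fun k _ => ?_
  rw [Derivation.leibniz, Matrix.map_apply, Matrix.map_apply, smul_eq_mul, smul_eq_mul]
  ring

private theorem hsC_map_one {l : ℕ}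
    (d : Derivation ℂ (MvPowerSeries (Fin 4) ℂ) (MvPowerSeries (Fin 4) ℂ))
    (g : MvPowerSeries (Fin 4) ℂ) :
    (g • (1 : Matrix (Fin l) (Fin l) (MvPowerSeries (Fin 4) ℂ))).map d =
      d g • (1 : Matrix (Fin l) (Fin l) (MvPowerSeries (Fin 4) ℂ)) := by
  ext1 i j
  rw [Matrix.map_apply, Matrix.smul_apply, Matrix.smul_apply, smul_eq_mul, smul_eq_mul]
  by_cases h : i = j
  · rw [h, Matrix.one_apply_eq, mul_one, mul_one]
  · rw [Matrix.one_apply_ne h, mul_zero, mul_zero, map_zero]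

private theorem hsC_exists (c : Fin 4 → ℂ) :
    ∃ D : Derivation ℂ (MvPowerSeries (Fin 4) ℂ) (MvPowerSeries (Fin 4) ℂ),
      (∀ f, D f = ∑ j, c j • pderiv ℂ j f) ∧ ∀ i, D (X i) = C (c i) := by
  have key : ∀ f, (∑ j, c j • pderiv ℂ j :
      Derivation ℂ (MvPowerSeries (Fin 4) ℂ) (MvPowerSeries (Fin 4) ℂ)) f =
      ∑ j, c j • pderiv ℂ j f := by
    intro f
    have h1 := congrFun (map_sum (Derivation.coeFnAddMonoidHom (R := ℂ)
      (A := MvPowerSeries (Fin 4) ℂ) (M := MvPowerSeries (Fin 4) ℂ))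
      (fun j => c j • pderiv ℂ j) Finset.univ) f
    rw [Finset.sum_apply] at h1
    exact h1
  refine ⟨∑ j, c j • pderiv ℂ j, key, fun i => ?_⟩
  rw [key, Finset.sum_eq_single i]
  · rw [pderiv_X_self, smul_eq_C_mul, mul_one]
  · intro j _ hj
    rw [pderiv_X_of_ne hj.symm, smul_zero]
  · exact fun h' => absurd (Finset.mem_univ i) h'

private theorem hsC_od {p : MvPowerSeries (Fin 4) ℂ} (hp : p ∈ Od 4 2) :
    ∃ q : Fin 4 → MvPowerSeries (Fin 4) ℂ, (∀ i, constantCoeff (q i) = 0) ∧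
      ∑ i, q i * X i = p := by
  have h1 : p ∈ (Od 4 1) • Ideal.span (Set.range fun i : Fin 4 =>
      (X i : MvPowerSeries (Fin 4) ℂ)) := by
    rw [span_X, smul_eq_mul, ← sq, Od_eq 4 1, ← pow_mul, one_mul, ← Od_eq]
    exact hp
  obtain ⟨q, hq, hs⟩ := (Submodule.mem_ideal_smul_span_iff_exists_sum _ _ _).1 h1
  refine ⟨q, fun i => mem_Od_one.1 (hq i), ?_⟩
  rw [← hs, Finsupp.sum_fintype _ _ (fun i => zero_smul (MvPowerSeries (Fin 4) ℂ)
    (X i : MvPowerSeries (Fin 4) ℂ))]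
  rfl

private theorem hsC_const_sum {l m : ℕ} (q : Fin 4 → MvPowerSeries (Fin 4) ℂ)
    (hq : ∀ i, constantCoeff (q i) = 0)
    (A : Fin 4 → Matrix (Fin l) (Fin m) (MvPowerSeries (Fin 4) ℂ)) :
    (∑ i, q i • A i).map (constantCoeff (σ := Fin 4) (R := ℂ)) = 0 := by
  ext1 j k
  rw [Matrix.map_apply, Matrix.sum_apply, map_sum]
  refine Finset.sum_eq_zero fun i _ => ?_
  rw [Matrix.smul_apply, smul_eq_mul, map_mul, hq, zero_mul]

private theorem hsC_mapK {l m n : ℕ}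
    (A : Matrix (Fin l) (Fin m) (MvPowerSeries (Fin 4) ℂ))
    (B : Matrix (Fin m) (Fin n) (MvPowerSeries (Fin 4) ℂ)) :
    (A * B).map (constantCoeff (σ := Fin 4) (R := ℂ)) =
      A.map (constantCoeff (σ := Fin 4) (R := ℂ)) * B.map (constantCoeff (σ := Fin 4) (R := ℂ)) :=
  Matrix.map_mul

theorem MFac.hess [IsLocalRing R] [Nontrivial N] (hp : Prs g θ) (h : MFac g θ n φ ψ)
    {f₁ f₂ f₃ : R}
    (hE : RingTheory.Sequence.IsWeaklyRegular (Module.End R N) [f₁, f₂, f₃])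
    (hN : RingTheory.Sequence.IsWeaklyRegular N [f₁, f₂, f₃])
    (hf₁ : f₁ ∈ IsLocalRing.maximalIdeal R) (hf₂ : f₂ ∈ IsLocalRing.maximalIdeal R)
    (hf₃ : f₃ ∈ IsLocalRing.maximalIdeal R) (hψ : ∀ l k, constantCoeff (ψ l k) = 0)
    (hx : ∀ i : Fin 4, ∃ (h₀ : Matrix (Fin b) (Fin a) (MvPowerSeries (Fin 4) ℂ))
      (h₁ : Matrix (Fin a) (Fin b) (MvPowerSeries (Fin 4) ℂ)), φ * h₀ + h₁ * ψ =
        (X i : MvPowerSeries (Fin 4) ℂ) • (1 : Matrix (Fin a) (Fin a) (MvPowerSeries (Fin 4) ℂ)))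
    (c : Fin 4 → ℂ) (hc : ∑ j, c j • pderiv ℂ j g ∈ Od 4 2) : c = 0 := by
  by_contra hc0
  obtain ⟨i, hi⟩ := Function.ne_iff.1 hc0
  rw [Pi.zero_apply] at hi
  obtain ⟨D, hD, hDX⟩ := hsC_exists c
  rw [← hD g] at hc
  obtain ⟨q, hq, hqs⟩ := hsC_od hc
  have hx' := hx
  choose h₀ h₁ hX using hx
  have e0 : φ * (∑ i, q i • h₀ i) + (∑ i, q i • h₁ i) * ψ =
      D g • (1 : Matrix (Fin a) (Fin a) (MvPowerSeries (Fin 4) ℂ)) := by
    rw [Matrix.mul_sum, Matrix.sum_mul, ← Finset.sum_add_distrib, ← hqs, Finset.sum_smul]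
    refine Finset.sum_congr rfl fun i _ => ?_
    rw [Matrix.mul_smul, Matrix.smul_mul, ← smul_add, hX i, smul_smul]
  have k0 := hsC_const_sum q hq h₀
  have k1 := hsC_const_sum q hq h₁
  set H₀ := ∑ i, q i • h₀ i with hH0
  set H₁ := ∑ i, q i • h₁ i with hH1
  have e1 : φ.map D * ψ + φ * ψ.map D =
      D g • (1 : Matrix (Fin a) (Fin a) (MvPowerSeries (Fin 4) ℂ)) := by
    rw [← hsC_map_mul, h.left, hsC_map_one]
  have e3 : (φ.map D - H₁) * ψ + φ * (ψ.map D - H₀) = 0 := by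
    rw [Matrix.sub_mul, Matrix.mul_sub]
    have h5 : φ.map D * ψ - H₁ * ψ + (φ * ψ.map D - φ * H₀) =
        (φ.map D * ψ + φ * ψ.map D) - (φ * H₀ + H₁ * ψ) := by abel
    rw [h5, e1, e0, sub_self]
  obtain ⟨u₀, u₁, hu⟩ := h.exists_matrix_ext hp hE hN hf₁ hf₂ hf₃ hx' _ _ e3
  have e4 : ψ.map D - H₀ = u₁ * ψ - ψ * u₀ := by
    have h5 : φ * ((ψ.map D - H₀) - (u₁ * ψ - ψ * u₀)) = 0 := by
      have h6 : φ * (ψ.map D - H₀) = -((u₀ * φ - φ * u₁) * ψ) := by
        rw [← hu]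
        exact eq_neg_of_add_eq_zero_right e3
      rw [Matrix.mul_sub, h6, Matrix.sub_mul, Matrix.mul_assoc u₀, h.left, Matrix.mul_smul,
        Matrix.mul_one, Matrix.mul_sub, ← Matrix.mul_assoc φ ψ, h.left, Matrix.smul_mul,
        Matrix.one_mul, Matrix.mul_assoc φ]
      abel
    exact sub_eq_zero.1 (h.cancel hp h5)
  have kψ : ψ.map (constantCoeff (σ := Fin 4) (R := ℂ)) = 0 := by
    ext1 l k
    rw [Matrix.map_apply, hψ]
    rfl
  have kD : (ψ.map D).map (constantCoeff (σ := Fin 4) (R := ℂ)) = 0 := by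
    have h5 : ψ.map D = (u₁ * ψ - ψ * u₀) + H₀ := eq_add_of_sub_eq e4
    rw [h5, Matrix.map_add _ (map_add _), Matrix.map_sub _ (map_sub _), hsC_mapK, hsC_mapK, kψ, k0,
      Matrix.mul_zero, Matrix.zero_mul, sub_zero, add_zero]
  have kφ : (φ.map D).map (constantCoeff (σ := Fin 4) (R := ℂ)) =
      u₀.map (constantCoeff (σ := Fin 4) (R := ℂ)) * φ.map (constantCoeff (σ := Fin 4) (R := ℂ)) -
      φ.map (constantCoeff (σ := Fin 4) (R := ℂ)) * u₁.map (constantCoeff (σ := Fin 4) (R := ℂ))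
      := by
    have h5 : φ.map D = (u₀ * φ - φ * u₁) + H₁ := eq_add_of_sub_eq hu
    rw [h5, Matrix.map_add _ (map_add _), Matrix.map_sub _ (map_sub _), hsC_mapK, hsC_mapK, k1,
      add_zero]
  have f0 : φ.map (constantCoeff (σ := Fin 4) (R := ℂ)) *
      (h₀ i).map (constantCoeff (σ := Fin 4) (R := ℂ)) = 0 := by
    have h5 := congrArg (fun M => M.map (constantCoeff (σ := Fin 4) (R := ℂ))) (hX i)
    rw [Matrix.map_add _ (map_add _), hsC_mapK, hsC_mapK, kψ, Matrix.mul_zero, add_zero] at h5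
    rw [h5]
    ext1 l k
    rw [Matrix.map_apply, Matrix.smul_apply, smul_eq_mul, map_mul, constantCoeff_X, zero_mul]
    rfl
  have f1 : φ.map (constantCoeff (σ := Fin 4) (R := ℂ)) *
      (((h₀ i).map D).map (constantCoeff (σ := Fin 4) (R := ℂ)) -
        u₁.map (constantCoeff (σ := Fin 4) (R := ℂ)) *
        (h₀ i).map (constantCoeff (σ := Fin 4) (R := ℂ))) =
      c i • (1 : Matrix (Fin a) (Fin a) ℂ) := by
    have h5 := congrArg (fun M => (M.map D).map (constantCoeff (σ := Fin 4) (R := ℂ))) (hX i)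
    rw [Matrix.map_add _ (map_add _), hsC_map_mul, hsC_map_mul, hsC_map_one, hDX,
      Matrix.map_add _ (map_add _), Matrix.map_add _ (map_add _), Matrix.map_add _ (map_add _),
      hsC_mapK, hsC_mapK, hsC_mapK, hsC_mapK, kψ, kD, kφ, Matrix.mul_zero, Matrix.mul_zero,
      add_zero, add_zero, Matrix.sub_mul, Matrix.mul_assoc, f0, Matrix.mul_zero, zero_sub,
      Matrix.mul_assoc] at h5
    rw [Matrix.mul_sub, sub_eq_neg_add, h5]
    ext1 l k
    rw [Matrix.map_apply, Matrix.smul_apply, Matrix.smul_apply, smul_eq_mul, smul_eq_mul, map_mul,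
      constantCoeff_C]
    by_cases hlk : l = k
    · rw [hlk, Matrix.one_apply_eq, Matrix.one_apply_eq, map_one]
    · rw [Matrix.one_apply_ne hlk, Matrix.one_apply_ne hlk, map_zero]
  obtain ⟨T, hT⟩ : ∃ T : Matrix (Fin b) (Fin a) ℂ,
      φ.map (constantCoeff (σ := Fin 4) (R := ℂ)) * T = c i • (1 : Matrix (Fin a) (Fin a) ℂ) :=
    ⟨_, f1⟩
  have hU : IsUnit (φ * T.map (C (σ := Fin 4) (R := ℂ))) := by
    rw [Matrix.isUnit_iff_isUnit_det, MvPowerSeries.isUnit_iff_constantCoeff]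
    have h5 : constantCoeff (φ * T.map (C (σ := Fin 4) (R := ℂ))).det =
        ((φ * T.map (C (σ := Fin 4) (R := ℂ))).map
          (constantCoeff (σ := Fin 4) (R := ℂ))).det :=
      RingHom.map_det _ _
    have h6 : (T.map (C (σ := Fin 4) (R := ℂ))).map (constantCoeff (σ := Fin 4) (R := ℂ)) = T := by
      ext1 l k
      rw [Matrix.map_apply, Matrix.map_apply, constantCoeff_C]
    rw [h5, hsC_mapK, h6, hT, Matrix.det_smul, Matrix.det_one, mul_one]
    exact (isUnit_iff_ne_zero.2 hi).pow _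
  obtain ⟨B, hB⟩ := hU.exists_right_inv
  obtain ⟨x, hx0⟩ := exists_ne (0 : N)
  obtain ⟨u, rfl⟩ := h.gen x
  refine hx0 ((h.rel u).2 ⟨(T.map (C (σ := Fin 4) (R := ℂ)) * B).mulVec u, ?_⟩)
  rw [Matrix.mulVec_mulVec, ← Matrix.mul_assoc, hB, Matrix.one_mulVec]

end Pool.Agent.Flop
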