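import Pool.Agent.Lib.FlA.HsB

/-!
# HsD: coordinate maps and null-homotopies of matrix factorizations

`exists_coord`: for each l apply exists_hom with M = R, v k := θ (ψ l k): ∑ k, θ (φ k m) • θ (ψ l k) = θ ((ψ * φ) l m) = θ (g * 1 l m) = 0 by right, hp.ker. `exists_null`: β l = ∑ k, θ (B k l) • n k (gen), α l (n k) = θ (A l k) (hp.surj). α l kills the relations: ∑ k, θ (φ k m) * θ (A l k) = α l (∑ k, θ (φ k m) • n k) = 0 (rel with v = Pi.single m 1), so g divides (A * φ) l m: A * φ = g • C (hp.ker). Then g • A = A * φ * ψ = g • (C * ψ), A = C * ψ (cancel g: entrywise, Prs.ne_zero).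
For each k: θ p • n k = ∑ l, θ (A l k) • β l = ∑ k', θ ((B * A) k' k) • n k'. So the column k of p • 1 - B * A is a relation: = φ.mulVec (column k of h₀) by rel. h₁ := B * C: φ * h₀ + h₁ * ψ = p • 1.
-/

set_option autoImplicit false

namespace Pool.Agent.Flop

open Finset MvPowerSeries

variable {R : Type} [CommRing R] [Algebra ℂ R] {N : Type} [AddCommGroup N] [Module R N]
  {g : MvPowerSeries (Fin 4) ℂ} {θ : MvPowerSeries (Fin 4) ℂ →ₐ[ℂ] R} {a b : ℕ} {n : Fin a → N}
  {φ : Matrix (Fin a) (Fin b) (MvPowerSeries (Fin 4) ℂ)}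
  {ψ : Matrix (Fin b) (Fin a) (MvPowerSeries (Fin 4) ℂ)}

theorem MFac.exists_coord (hp : Prs g θ) (h : MFac g θ n φ ψ) :
    ∃ α : Fin b → (N →ₗ[R] R), ∀ l k, α l (n k) = θ (ψ l k) := by
  have hz : ∀ p, θ (g * p) = 0 := fun p => (hp.ker _).2 (dvd_mul_right g p)
  have key : ∀ l, ∃ e : N →ₗ[R] R, ∀ k, e (n k) = θ (ψ l k) := by
    intro l
    refine h.exists_hom hp (fun k => θ (ψ l k)) fun m => ?_
    have h1 : ∑ k, θ (φ k m) • θ (ψ l k) = θ ((ψ * φ) l m) := by
      rw [Matrix.mul_apply, map_sum]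
      refine Finset.sum_congr rfl fun k _ => ?_
      rw [smul_eq_mul, map_mul, mul_comm]
    rw [h1, h.right]
    exact hz _
  choose α hα using key
  exact ⟨α, hα⟩

theorem MFac.exists_null (hp : Prs g θ) (h : MFac g θ n φ ψ) {p : MvPowerSeries (Fin 4) ℂ} {L : ℕ}
    (α : Fin L → (N →ₗ[R] R)) (β : Fin L → N) (hαβ : ∀ x : N, θ p • x = ∑ l, α l x • β l) :
    ∃ (h₀ : Matrix (Fin b) (Fin a) (MvPowerSeries (Fin 4) ℂ))
      (h₁ : Matrix (Fin a) (Fin b) (MvPowerSeries (Fin 4) ℂ)),
      φ * h₀ + h₁ * ψ = p • (1 : Matrix (Fin a) (Fin a) (MvPowerSeries (Fin 4) ℂ)) := by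
  have hl : IsLocalRing R := hp.isLocalRing
  have hn : IsNoetherianRing R := hp.isNoetherianRing
  choose B' hB' using fun l => h.gen (β l)
  choose A' hA' using fun l k => hp.surj (α l (n k))
  -- matrices
  set A : Matrix (Fin L) (Fin a) (MvPowerSeries (Fin 4) ℂ) := Matrix.of A' with hA
  set B : Matrix (Fin a) (Fin L) (MvPowerSeries (Fin 4) ℂ) := Matrix.of (fun k l => B' l k) with hB
  have hAe : ∀ l k, θ (A l k) = α l (n k) := hA'
  have hBe : ∀ l, β l = ∑ k, θ (B k l) • n k := hB'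
  -- A * φ is divisible by g
  have h1 : ∀ l m, g ∣ (A * φ) l m := by
    intro l m
    rw [← hp.ker]
    have h2 : ∑ k, θ (φ k m) • n k = 0 := by
      refine (h.rel fun k => φ k m).2 ⟨Pi.single m 1, ?_⟩
      rw [Matrix.mulVec_single_one]
      rfl
    have h3 := congrArg (α l) h2
    rw [map_sum, map_zero] at h3
    rw [Matrix.mul_apply, map_sum, ← h3]
    refine Finset.sum_congr rfl fun k _ => ?_
    rw [map_mul, hAe, map_smul, smul_eq_mul, mul_comm]
  choose C' hC' using h1
  set C : Matrix (Fin L) (Fin b) (MvPowerSeries (Fin 4) ℂ) := Matrix.of C' with hC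
  have h4 : A * φ = g • C := by
    ext1 l m
    exact hC' l m
  have h5 : A = C * ψ := by
    have h6 : g • A = g • (C * ψ) := by
      calc g • A = A * (g • (1 : Matrix (Fin a) (Fin a) (MvPowerSeries (Fin 4) ℂ))) := by
            rw [Matrix.mul_smul, Matrix.mul_one]
        _ = A * (φ * ψ) := by rw [h.left]
        _ = (A * φ) * ψ := (Matrix.mul_assoc _ _ _).symm
        _ = g • (C * ψ) := by rw [h4, Matrix.smul_mul]
    ext1 l k
    have h7 : g * A l k = g * (C * ψ) l k := congrFun (congrFun h6 l) k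
    exact mul_left_cancel₀ hp.ne_zero h7
  -- columns of p • 1 - B * A are relations
  have h8 : ∀ k, ∃ w : Fin b → MvPowerSeries (Fin 4) ℂ,
      (fun k' => (p • (1 : Matrix (Fin a) (Fin a) (MvPowerSeries (Fin 4) ℂ)) - B * A) k' k)
        = φ.mulVec w := by
    intro k
    refine (h.rel _).1 ?_
    have h9 : ∀ k', θ ((p • (1 : Matrix (Fin a) (Fin a) (MvPowerSeries (Fin 4) ℂ)) - B * A) k' k)
        • n k' = (if k' = k then θ p • n k' else 0) - θ ((B * A) k' k) • n k' := by
      intro k'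
      rw [Matrix.sub_apply, map_sub, sub_smul, Matrix.smul_apply, Matrix.one_apply]
      congr 1
      split_ifs with hk
      · rw [smul_eq_mul, mul_one]
      · rw [smul_zero, map_zero, zero_smul]
    rw [Finset.sum_congr rfl fun k' _ => h9 k', Finset.sum_sub_distrib,
      Finset.sum_ite_eq' Finset.univ k fun k' => θ p • n k', if_pos (Finset.mem_univ k),
      sub_eq_zero, hαβ (n k)]
    simp only [hBe, Finset.smul_sum, smul_smul, Matrix.mul_apply, map_sum, map_mul,
      Finset.sum_smul]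
    rw [Finset.sum_comm]
    refine Finset.sum_congr rfl fun k' _ => Finset.sum_congr rfl fun l _ => ?_
    rw [hAe, mul_comm]
  choose w hw using h8
  refine ⟨Matrix.of fun j k => w k j, B * C, ?_⟩
  have h10 : φ * (Matrix.of fun j k => w k j) =
      p • (1 : Matrix (Fin a) (Fin a) (MvPowerSeries (Fin 4) ℂ)) - B * A := by
    ext1 k' k
    exact (congrFun (hw k) k').symm
  rw [h10, Matrix.mul_assoc, ← h5, sub_add_cancel]

end Pool.Agent.Flop
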