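import Pool.Agent.Lib.FlA.Def3

/-!
# HsE: a weighted homogeneous power series with nondegenerate Hessian has degree less than the sum of the weights

H i j := coeff (single i 1) (pderiv ℂ j g) = coeff (single i 1 + single j 1) g * (an integer ≠ 0) (coeff_pderiv or MvPowerSeries.coeff_pderiv; see CTr). All pderiv ℂ j g have constant coefficient 0 (hg). So for c : Fin 4 → ℂ: ∑ j, c j • pderiv ℂ j g ∈ Od 4 2 iff ∑ j, H i j * c j = 0 for all i (degree < 2: e = 0 or e = single i 1). hnd: H.mulVec c = 0 implies c = 0, so det H ≠ 0 (Matrix.exists_mulVec_eq_zero_iff).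
Matrix.det_apply and Finset.exists_ne_zero_of_sum_ne_zero: a permutation σ with ∏ i, H (σ i) i ≠ 0, so H (σ i) i ≠ 0 for every i, so coeff (single (σ i) 1 + single i 1) g ≠ 0 and hh gives w (σ i) + w i = d. Sum over i: 2 * ∑ w = 4 * d (Equiv.sum_comp σ w). Since w i > 0 we have d > 0 and ∑ w = 2 d > d. (IsHg uses e i • w i.)
-/

set_option autoImplicit false

namespace Pool.Agent.Flop

open Finset MvPowerSeries

private theorem hse_deg {e : Fin 4 →₀ ℕ} (he : e.degree < 2) :
    e = 0 ∨ ∃ i, e = Finsupp.single i 1 := by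
  classical
  by_cases h0 : e = 0
  · exact Or.inl h0
  · right
    obtain ⟨i, hi⟩ : ∃ i, e i ≠ 0 := by
      by_contra h
      push Not at h
      exact h0 (Finsupp.ext h)
    refine ⟨i, ?_⟩
    have h1 : Finsupp.single i 1 ≤ e := by
      rw [Finsupp.single_le_iff]
      omega
    have h2 : e = Finsupp.single i 1 + (e - Finsupp.single i 1) := (add_tsub_cancel_of_le h1).symm
    have h3 : e.degree = 1 + (e - Finsupp.single i 1).degree := by
      conv_lhs => rw [h2]
      rw [map_add, Finsupp.degree_single]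
    have h4 : (e - Finsupp.single i 1).degree = 0 := by omega
    rw [h2, (Finsupp.degree_eq_zero_iff _).1 h4, add_zero]

theorem lt_sum_of_hess {g : MvPowerSeries (Fin 4) ℂ} (hg : g ∈ Od 4 2) (w : Fin 4 → ℕ) (d : ℕ)
    (hw : ∀ i, 0 < w i) (hh : IsHg w d g)
    (hnd : ∀ c : Fin 4 → ℂ, ∑ j, c j • pderiv ℂ j g ∈ Od 4 2 → c = 0) : d < ∑ i, w i := by
  classical
  have hdet : (Matrix.of fun i j : Fin 4 => coeff (Finsupp.single i 1) (pderiv ℂ j g)).det ≠ 0 := by
    intro h0
    obtain ⟨c, hc0, hc⟩ := Matrix.exists_mulVec_eq_zero_iff.2 h0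
    apply hc0
    apply hnd
    rw [mem_Od]
    intro e he
    rw [map_sum]
    rcases hse_deg he with rfl | ⟨i, rfl⟩
    · refine Finset.sum_eq_zero fun j _ => ?_
      rw [map_smul, coeff_pderiv, zero_add,
        hg (Finsupp.single j 1) (by rw [Finsupp.degree_single]; exact one_lt_two), zero_mul,
        smul_zero]
    · have h1 := congrFun hc i
      rw [Matrix.mulVec, dotProduct, Pi.zero_apply] at h1
      rw [← h1]
      refine Finset.sum_congr rfl fun j _ => ?_
      rw [map_smul, smul_eq_mul, mul_comm, Matrix.of_apply]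
  rw [Matrix.det_apply] at hdet
  obtain ⟨σ, -, hσ⟩ := Finset.exists_ne_zero_of_sum_ne_zero hdet
  have hwd : ∀ i, w (σ i) + w i = d := by
    intro i
    have h1 : coeff (Finsupp.single (σ i) 1) (pderiv ℂ i g) ≠ 0 := by
      intro h
      apply hσ
      rw [Finset.prod_eq_zero (Finset.mem_univ i) h, smul_zero]
    rw [coeff_pderiv] at h1
    have h3 := hh _ (left_ne_zero_of_mul h1)
    rw [← h3]
    have h4 : ∀ a : Fin 4, ∑ k, (Finsupp.single a 1 : Fin 4 →₀ ℕ) k • w k = w a := by
      intro a
      rw [Finset.sum_eq_single a]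
      · rw [Finsupp.single_eq_same, one_smul]
      · intro b _ hb
        rw [Finsupp.single_apply, if_neg (Ne.symm hb), zero_smul]
      · intro h
        exact absurd (Finset.mem_univ a) h
    have h5 : ∑ k, (Finsupp.single (σ i) 1 + Finsupp.single i 1 : Fin 4 →₀ ℕ) k • w k =
        w (σ i) + w i := by
      rw [← h4 (σ i), ← h4 i, ← Finset.sum_add_distrib]
      refine Finset.sum_congr rfl fun k _ => ?_
      rw [Finsupp.add_apply, add_smul]
    exact h5.symm
  have hs : 2 * ∑ i, w i = 4 * d := by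
    have h1 : ∑ i, (w (σ i) + w i) = ∑ _i : Fin 4, d := Finset.sum_congr rfl fun i _ => hwd i
    rw [Finset.sum_add_distrib, Equiv.sum_comp σ w, Finset.sum_const, Finset.card_univ,
      Fintype.card_fin, smul_eq_mul] at h1
    omega
  have h0 := hw 0
  have h1 := hwd 0
  omega

end Pool.Agent.Flop
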