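import Pool.Agent.Lib.FlA.MdF

/-!
# HsF: the nontrivial summands of a flop model have no free summand

Suppose α β is a unit (IsLocalRing.mem_maximalIdeal, mem_nonunits_iff): r * α β = 1. With ε : A ≃ₐ[R] End from h.endo (ε (π (idem i)) = prj R N i) put s := ε.symm (single o ∘ e.symm ∘ α ∘ proj j), t := ε.symm (single j ∘ toSpanSingleton (r • β) ∘ e ∘ proj o). Then s * t = π (idem o) (compare both sides after ε: for v, both are Pi.single o (v o): e.symm (α (e (v o) • r • β)) = e.symm (e (v o) * (r * α β)) = v o) and π (idem o) * s * π (idem j) = s. Let f with π f = s (h.mdl.surj), f' := idem o * f * idem j ∈ Fil 1 because o ≠ j (its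
coefficient at the empty word is 0), π f' = s; g' with π g' = t. Then f' * g' ∈ Fil 1 (mul_mem_Fil_right or _left) and π (f' * g') = π (idem o): contradiction to h.mdl.idem_not.
-/

set_option autoImplicit false

namespace Pool.Agent.Flop

open Finset MvPowerSeries

variable {V E : Type} [Fintype V] [DecidableEq V] [DecidableEq E] [Fintype E] {Q : Qv V E}
variable {R A : Type} [CommRing R] [Algebra ℂ R] [Ring A] [Algebra ℂ A] [Algebra R A]
  {o : V} {N : V → Type} [∀ i, AddCommGroup (N i)] [∀ i, Module R (N i)]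
  {W : Hat Q} {π : Hat Q →ₐ[ℂ] A}

theorem IsFlopModel.apply_mem_max [IsScalarTower ℂ R A] [IsLocalRing R] [IsNoetherianRing R]
    (h : IsFlopModel R Q o N W π) {j : V} (hj : j ≠ o) (α : N j →ₗ[R] R) (β : N j) :
    α β ∈ IsLocalRing.maximalIdeal R := by
  by_contra hc
  have hu : IsUnit (α β) := by
    by_contra hu
    exact hc ((IsLocalRing.mem_maximalIdeal _).2 hu)
  obtain ⟨r, hr⟩ : ∃ r, r * α β = 1 := by
    obtain ⟨u, hu⟩ := hu
    exact ⟨((u⁻¹ : Rˣ) : R), by rw [← hu, Units.inv_mul]⟩
  obtain ⟨e⟩ := h.triv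
  obtain ⟨-, ε, hε⟩ := h.endo
  let S : Module.End R (∀ i, N i) :=
    (LinearMap.single R N o) ∘ₗ e.symm.toLinearMap ∘ₗ α ∘ₗ LinearMap.proj j
  let T : Module.End R (∀ i, N i) := (LinearMap.single R N j) ∘ₗ
    (LinearMap.toSpanSingleton R (N j) (r • β)) ∘ₗ e.toLinearMap ∘ₗ LinearMap.proj o
  have hST : S * T = (LinearMap.single R N o) ∘ₗ (LinearMap.proj o) := by
    apply LinearMap.ext
    intro v
    show (Pi.single o (e.symm (α ((Pi.single j (e (v o) • (r • β)) : ∀ i, N i) j))) : ∀ i, N i) =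
      Pi.single o (v o)
    rw [Pi.single_eq_same, LinearMap.map_smul, LinearMap.map_smul, smul_eq_mul r, hr,
      smul_eq_mul, mul_one, e.symm_apply_apply]
  have hoS : ((LinearMap.single R N o) ∘ₗ (LinearMap.proj o) : Module.End R (∀ i, N i)) * S *
      ((LinearMap.single R N j) ∘ₗ (LinearMap.proj j) : Module.End R (∀ i, N i)) = S := by
    apply LinearMap.ext
    intro v
    show (Pi.single o ((Pi.single o (e.symm (α ((Pi.single j (v j) : ∀ i, N i) j))) :
      ∀ i, N i) o) : ∀ i, N i) = Pi.single o (e.symm (α (v j)))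
    rw [Pi.single_eq_same, Pi.single_eq_same]
  obtain ⟨f, hf⟩ := h.jacobi.2.1 (ε.symm S)
  obtain ⟨g, hg⟩ := h.jacobi.2.1 (ε.symm T)
  have hf' : π (idem Q o * f * idem Q j) = ε.symm S := by
    apply ε.injective
    rw [map_mul, map_mul, map_mul, map_mul, hf, AlgEquiv.apply_symm_apply]
    have h1 := hε o
    have h2 := hε j
    simp only at h1 h2
    rw [h1, h2]
    exact hoS
  have hFil : idem Q o * f * idem Q j ∈ Fil Q 1 := by
    intro i k l hl
    have hl0 : l = [] := List.length_eq_zero_iff.1 (by omega)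
    subst hl0
    rw [cf_mul_idem, cf_idem_mul]
    split_ifs with h1 h2
    · by_contra h3
      have h4 : Q.IsPath i [] k := f.2 i k [] h3
      have h5 : i = k := h4
      exact hj (by rw [← h1, ← h5, h2])
    · rfl
    · rfl
  apply h.mdl.idem_not (mul_mem_Fil_right g hFil) o
  rw [map_mul, hf', hg, ← map_mul, hST]
  have h1 := hε o
  simp only at h1
  rw [← h1, AlgEquiv.symm_apply_apply]

end Pool.Agent.Flop
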