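import Pool.Agent.Lib.FlA.HsC
import Pool.Agent.Lib.FlA.HsD
import Pool.Agent.Lib.FlA.HsE
import Pool.Agent.Lib.FlA.EndF
import Pool.Agent.Lib.FlA.HsF

/-!
# HsG: the degree is less than the sum of the weights if the maximal ideal kills the contraction
algebra
-/

set_option autoImplicit false

namespace Pool.Agent.Flop

open Finset MvPowerSeries

variable {V E : Type} [Fintype V] [DecidableEq V] [DecidableEq E] [Fintype E] {Q : Qv V E}
variable {R A : Type} [CommRing R] [Algebra ℂ R] [Ring A] [Algebra ℂ A] [Algebra R A]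
  {o : V} {N : V → Type} [∀ i, AddCommGroup (N i)] [∀ i, Module R (N i)]
  {W : Hat Q} {π : Hat Q →ₐ[ℂ] A}

theorem IsFlopModel.lt_sum [IsScalarTower ℂ R A] [IsLocalRing R] [IsNoetherianRing R]
    (h : IsFlopModel R Q o N W π) {j : V} (hj : j ≠ o) {w : Fin 4 → ℕ} {d : ℕ}
    {f : MvPowerSeries (Fin 4) ℂ} {θ : MvPowerSeries (Fin 4) ℂ →ₐ[ℂ] R} (hw : ∀ i, 0 < w i)
    (hf : IsHg w d f) (hp : Prs f θ)
    (hx : ∀ i, θ (X i) • (1 : A) ∈ TwoSidedIdeal.span {π (idem Q o)}) : d < ∑ i, w i := by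
  obtain ⟨e⟩ := h.triv
  obtain ⟨hfg, ε, hε'⟩ := h.endo
  have hε : ∀ i, ε (π (idem Q i)) = prj R N i := hε'
  obtain ⟨a, b, n, φ, ψ, h1, h2, h3, h4⟩ := exists_fact_of_depth N hp kex_X e h.depth_end j
  have hM : MFac f θ n φ ψ := ⟨h1, h2, h3, h4⟩
  have hnt := h.nonzero j
  obtain ⟨f₁, f₂, f₃, u₁, u₂, u₃, hr⟩ := h.depth_end
  obtain ⟨F, ρ, hF⟩ := lc4_retract N e j
  obtain ⟨F', ρ', hF'⟩ := lc4_retract_end (R := R) N j
  have hN := regular_of_retract F ρ hF hr
  have hE : RingTheory.Sequence.IsWeaklyRegular (Module.End R (N j)) [f₁, f₂, f₃] :=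
    regular_of_retract (M := Module.End R (∀ i, N i)) (M' := Module.End R (N j)) F' ρ' hF' hr
  have hψ : ∀ l k, constantCoeff (ψ l k) = 0 := by
    obtain ⟨α, hα⟩ := hM.exists_coord hp
    intro l k
    have h5 := h.apply_mem_max hj (α l) (n k)
    rwa [hα, hp.mem_max] at h5
  have hx' : ∀ i : Fin 4, ∃ (h₀ : Matrix (Fin b) (Fin a) (MvPowerSeries (Fin 4) ℂ))
      (h₁ : Matrix (Fin a) (Fin b) (MvPowerSeries (Fin 4) ℂ)), φ * h₀ + h₁ * ψ =
        (X i : MvPowerSeries (Fin 4) ℂ) •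
          (1 : Matrix (Fin a) (Fin a) (MvPowerSeries (Fin 4) ℂ)) := by
    intro i
    have h5 : TwoSidedIdeal.span {π (idem Q o)} ≤
        (TwoSidedIdeal.span {prj R N o}).comap ε := by
      rw [TwoSidedIdeal.span_le]
      rintro x rfl
      change _ ∈ TwoSidedIdeal.comap _ _
      rw [TwoSidedIdeal.mem_comap, hε]
      exact TwoSidedIdeal.subset_span (Set.mem_singleton _)
    have h6 := h5 (hx i)
    rw [TwoSidedIdeal.mem_comap, map_smul, map_one] at h6
    obtain ⟨L, α, β, hαβ⟩ := exists_factor_of_mem_span N e h6 j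
    refine hM.exists_null hp α β fun x => ?_
    rw [← hαβ x]
    change _ = (θ (X i) • (Pi.single j x : ∀ i, N i)) j
    rw [Pi.smul_apply, Pi.single_eq_same]
  exact lt_sum_of_hess hp.two w d hw hf fun c hc =>
    hM.hess hp hE hN ((IsLocalRing.mem_maximalIdeal _).2 u₁)
      ((IsLocalRing.mem_maximalIdeal _).2 u₂) ((IsLocalRing.mem_maximalIdeal _).2 u₃) hψ hx' c hc

end Pool.Agent.Flop
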