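import Pool.Agent.Lib.FlA.OdB

/-!
# Itg: functions killed by the Hamiltonian derivations

By induction on N: claim S_N: there is r' with constantCoeff r' = 0, g | r - r' and g^N | pderiv i r' for all i. S_0: r' = r. Step: pderiv i r' = g^N * w i. If N = 0: w i = pderiv i r' and r' = r: hr gives g | w i * pderiv j g - w j * pderiv i g. If N >= 1: pderiv j (pderiv i r') = pderiv i (pderiv j r') (symmetric: coefficients, or `pderiv_pderiv_comm`-like) and
Leibniz: N g^(N-1) (pderiv j g) w i + g^N pderiv j (w i) = N g^(N-1) (pderiv i g) w j + g^N pderiv i (w j); cancel g^(N-1) (P is a domain, g <> 0) and divide by N: g | w i * pderiv j g - w j * pderiv i g. (For N = 0 one can also run the general argument: no.) hdiv: u with w i = u * pderiv i g + g * w' i. r'' := r' - C(1/(N+1)) * u * g^(N+1):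
pderiv i r'' = g^N (u pderiv i g + g w' i) - u g^N pderiv i g - C(1/(N+1)) g^(N+1) pderiv i u = g^(N+1) (...). g | r' - r''; constantCoeff r'' = 0. So, as g in Od 1 (hg0): g^N in Od N, pderiv i r' in Od N, r' in Od (N+1) (Od_of_pderiv). So r is in (g) + Od N for all N: ideal_closed for Ideal.span {g}.
-/

set_option autoImplicit false

namespace Pool.Agent.Flop

open Finset MvPowerSeries

private theorem itg_comm {n : ℕ} (i j : Fin n) (p : MvPowerSeries (Fin n) ℂ) :
    pderiv ℂ i (pderiv ℂ j p) = pderiv ℂ j (pderiv ℂ i p) := by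
  ext d
  rw [coeff_pderiv, coeff_pderiv, coeff_pderiv, coeff_pderiv]
  by_cases hij : i = j
  · subst hij; rfl
  · have e : d + Finsupp.single i 1 + Finsupp.single j 1 =
        d + Finsupp.single j 1 + Finsupp.single i 1 := by
      rw [add_assoc, add_comm (Finsupp.single i 1), ← add_assoc]
    rw [e]
    simp only [Finsupp.add_apply, Finsupp.single_eq_of_ne hij, Finsupp.single_eq_of_ne (Ne.symm hij),
      add_zero]
    ring

private theorem itg_mul {n : ℕ} (i : Fin n) (p q : MvPowerSeries (Fin n) ℂ) :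
    pderiv ℂ i (p * q) = p * pderiv ℂ i q + q * pderiv ℂ i p := by
  rw [Derivation.leibniz, smul_eq_mul, smul_eq_mul]

private theorem itg_pow {n : ℕ} (i : Fin n) (g : MvPowerSeries (Fin n) ℂ) (M : ℕ) :
    pderiv ℂ i (g ^ (M + 1)) = ((M : MvPowerSeries (Fin n) ℂ) + 1) * g ^ M * pderiv ℂ i g := by
  rw [pderiv_pow, Nat.add_sub_cancel, Nat.cast_add, Nat.cast_one]

private theorem itg_unit {n : ℕ} (M : ℕ) :
    ((M : MvPowerSeries (Fin n) ℂ) + 1) * C ((M : ℂ) + 1)⁻¹ = 1 := by
  have h1 : ((M : MvPowerSeries (Fin n) ℂ) + 1) = C ((M : ℂ) + 1) := by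
    rw [map_add, map_one, map_natCast]
  rw [h1, ← map_mul, mul_inv_cancel₀ (Nat.cast_add_one_ne_zero M), map_one]

private theorem itg_step {n : ℕ} {g : MvPowerSeries (Fin n) ℂ} (hg : g ≠ 0)
    (hdiv : ∀ w : Fin n → MvPowerSeries (Fin n) ℂ,
      (∀ i j, g ∣ w i * pderiv ℂ j g - w j * pderiv ℂ i g) →
      ∃ u, ∀ i, g ∣ w i - u * pderiv ℂ i g) {r : MvPowerSeries (Fin n) ℂ}
    (hg0 : constantCoeff g = 0) (hr0 : constantCoeff r = 0)
    (hr : ∀ i j, g ∣ pderiv ℂ i g * pderiv ℂ j r - pderiv ℂ j g * pderiv ℂ i r) (N : ℕ) :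
    ∃ r', constantCoeff r' = 0 ∧ g ∣ r - r' ∧ ∀ i, g ^ N ∣ pderiv ℂ i r' := by
  induction N with
  | zero => exact ⟨r, hr0, by rw [sub_self]; exact dvd_zero g, fun i => by
      rw [pow_zero]; exact one_dvd _⟩
  | succ N ih =>
    obtain ⟨r', h0, ⟨h, hh⟩, hN⟩ := ih
    choose w hw using hN
    have hkey : ∀ i j, g ∣ w i * pderiv ℂ j g - w j * pderiv ℂ i g := by
      intro i j
      cases N with
      | zero =>
        have hw' : ∀ i, pderiv ℂ i r' = w i := fun i => by
          rw [hw i, pow_zero, one_mul]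
        have e1 : r' = r - g * h := by rw [← hh]; ring
        have e2 : ∀ i, w i = pderiv ℂ i r - (g * pderiv ℂ i h + h * pderiv ℂ i g) := fun i => by
          rw [← hw' i, e1, map_sub, itg_mul]
        obtain ⟨a, ha⟩ := hr j i
        refine ⟨a + (pderiv ℂ j h * pderiv ℂ i g - pderiv ℂ i h * pderiv ℂ j g), ?_⟩
        rw [e2 i, e2 j]
        linear_combination ha
      | succ M =>
        have h1 := itg_comm i j r'
        rw [hw i, hw j, itg_mul, itg_mul, itg_pow, itg_pow] at h1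
        have h2 : g ^ M * (((M : MvPowerSeries (Fin n) ℂ) + 1) *
            (w i * pderiv ℂ j g - w j * pderiv ℂ i g)) =
            g ^ M * (g * (pderiv ℂ i (w j) - pderiv ℂ j (w i))) := by
          linear_combination -h1
        have h3 := mul_left_cancel₀ (pow_ne_zero M hg) h2
        refine ⟨C ((M : ℂ) + 1)⁻¹ * (pderiv ℂ i (w j) - pderiv ℂ j (w i)), ?_⟩
        have h4 := itg_unit (n := n) M
        linear_combination C ((M : ℂ) + 1)⁻¹ * h3 -
          (w i * pderiv ℂ j g - w j * pderiv ℂ i g) * h4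
    obtain ⟨u, hu⟩ := hdiv w hkey
    choose w' hw' using hu
    refine ⟨r' - C ((N : ℂ) + 1)⁻¹ * (u * g ^ (N + 1)), ?_, ?_, ?_⟩
    · rw [map_sub, map_mul, map_mul, map_pow, hg0, h0, zero_pow (Nat.succ_ne_zero N)]
      ring
    · refine ⟨h + C ((N : ℂ) + 1)⁻¹ * (u * g ^ N), ?_⟩
      rw [pow_succ]
      linear_combination hh
    · intro i
      refine ⟨w' i - C ((N : ℂ) + 1)⁻¹ * pderiv ℂ i u, ?_⟩
      rw [map_sub, itg_mul, itg_mul, itg_pow, pderiv_C, hw i]
      have h4 := itg_unit (n := n) N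
      have h5 := hw' i
      rw [pow_succ]
      linear_combination g ^ N * h5 - (u * g ^ N * pderiv ℂ i g) * h4

theorem dvd_of_ham {n : ℕ} {g : MvPowerSeries (Fin n) ℂ} (hg : g ≠ 0)
    (hg0 : constantCoeff g = 0)
    (hdiv : ∀ w : Fin n → MvPowerSeries (Fin n) ℂ,
      (∀ i j, g ∣ w i * pderiv ℂ j g - w j * pderiv ℂ i g) →
      ∃ u, ∀ i, g ∣ w i - u * pderiv ℂ i g) {r : MvPowerSeries (Fin n) ℂ}
    (hr0 : constantCoeff r = 0)
    (hr : ∀ i j, g ∣ pderiv ℂ i g * pderiv ℂ j r - pderiv ℂ j g * pderiv ℂ i r) : g ∣ r := by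
  have hS := itg_step hg hdiv hg0 hr0 hr
  have hgO : g ∈ Od n 1 := mem_Od_one.mpr hg0
  have hpow : ∀ N, g ^ N ∈ Od n N := by
    intro N
    induction N with
    | zero => rw [Od_zero]; trivial
    | succ N ih =>
      rw [pow_succ]
      exact Od_mul ih hgO
  have hmem : r ∈ Ideal.span {g} := by
    refine ideal_closed _ fun N => ?_
    obtain ⟨r', h0, h1, h2⟩ := hS N
    refine ⟨r - r', Ideal.mem_span_singleton.mpr h1, ?_⟩
    rw [sub_sub_cancel]
    refine Od_anti (Nat.le_succ N) (Od_of_pderiv h0 fun i => ?_)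
    obtain ⟨a, ha⟩ := h2 i
    rw [ha]
    exact Ideal.mul_mem_right _ _ (hpow N)
  exact Ideal.mem_span_singleton.mp hmem

end Pool.Agent.Flop
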