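import Pool.Agent.Lib.FlA.ThH
import Pool.Agent.Lib.FlA.ThJ

/-!
# JacAut: the Jacobi ideal under automorphisms

`jac_aut`: (=>) The set {f | σ f in jac (σ F)} is a closed (aut_Fil) two-sided ideal; it contains cyc b F?? Use the chain rule for σ.symm: cyc b F = cyc b (σ.symm (σ F)) = sum_c Th b (σ.symm (arr c)) (σ.symm (cyc c (σ F)))
(cyc_chain for σ.symm), and th_ideal for the closed two-sided ideal J = {f | σ f in jac (σ F)} (preimage), which contains σ.symm (cyc c (σ F)): so cyc b F in J, and jac_min gives jac F <= J.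
(<=) the same for σ.symm in place of σ and σ F in place of F. `classZero_aut`: ClassZero F = F in cl (jac F + Comm): σ maps cl (jac F + Comm) into cl (jac (σ F) + Comm) (continuity, jac_aut, σ of a commutator is
a commutator; see map_cl, hom_cl_comm). Converse with σ.symm. `classZero_congr`: jac_congr, and F - G in cl Comm.
-/

set_option autoImplicit false

namespace Pool.Agent.Flop

open Finset

variable {V E : Type} [Fintype V] [DecidableEq V] [DecidableEq E] {Q : Qv V E}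

private theorem jacAut_symm (σ : Hat Q ≃ₐ[ℂ] Hat Q) (hσ : ∀ v, σ (idem Q v) = idem Q v) (v : V) :
    σ.symm (idem Q v) = idem Q v := by
  rw [AlgEquiv.symm_apply_eq, hσ v]

private theorem jacAut_one [Fintype E] (σ : Hat Q ≃ₐ[ℂ] Hat Q)
    (hσ : ∀ v, σ (idem Q v) = idem Q v) (F f : Hat Q) (hf : f ∈ jac F) :
    σ f ∈ jac (σ F) := by
  let J : Submodule ℂ (Hat Q) := (jac (σ F)).comap σ.toLinearMap
  have memJ : ∀ g : Hat Q, g ∈ J ↔ σ g ∈ jac (σ F) := fun g => Iff.rfl
  have hJ : IsCl J := by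
    intro g hg
    rw [memJ]
    refine isCl_jac (σ F) (σ g) fun n => ?_
    obtain ⟨s, hs, h1⟩ := hg n
    refine ⟨σ s, (memJ s).1 hs, ?_⟩
    rw [← map_sub]
    exact aut_Fil σ hσ n _ h1
  have hl : ∀ z g, g ∈ J → z * g ∈ J := by
    intro z g hg
    rw [memJ] at hg ⊢
    rw [map_mul]
    exact jac_ml (σ z) hg
  have hr : ∀ z g, g ∈ J → g * z ∈ J := by
    intro z g hg
    rw [memJ] at hg ⊢
    rw [map_mul]
    exact jac_mr (σ z) hg
  have h : ∀ a, cyc a F ∈ J := by
    intro a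
    have h1 := cyc_chain σ.symm (jacAut_symm σ hσ) a (σ F)
    rw [σ.symm_apply_apply] at h1
    rw [h1]
    refine Submodule.sum_mem _ fun b _ => ?_
    refine th_ideal hJ hl hr a _ ?_
    rw [memJ, σ.apply_symm_apply]
    exact cyc_jac (σ F) b
  exact jac_min hJ hl hr h hf

theorem jac_aut [Fintype E] (σ : Hat Q ≃ₐ[ℂ] Hat Q) (hσ : ∀ v, σ (idem Q v) = idem Q v)
    (F f : Hat Q) : f ∈ jac F ↔ σ f ∈ jac (σ F) := by
  constructor
  · exact jacAut_one σ hσ F f
  · intro h
    have h1 := jacAut_one σ.symm (jacAut_symm σ hσ) (σ F) (σ f) h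
    rwa [σ.symm_apply_apply, σ.symm_apply_apply] at h1

private theorem jacAut_cz [Fintype E] (σ : Hat Q ≃ₐ[ℂ] Hat Q)
    (hσ : ∀ v, σ (idem Q v) = idem Q v) (F : Hat Q) (h : ClassZero F) : ClassZero (σ F) := by
  unfold ClassZero at h ⊢
  have h1 := map_cl (S := jac F ⊔ Comm Q) (T := jac (σ F) ⊔ Comm Q) σ.toLinearMap
    (fun n f hf => aut_Fil σ hσ n f hf) ?_ h
  · exact h1
  · intro f hf
    obtain ⟨y, hy, z, hz, rfl⟩ := Submodule.mem_sup.1 hf
    rw [map_add]
    refine Submodule.add_mem _ ?_ ?_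
    · exact le_cl _ (Submodule.mem_sup_left ((jac_aut σ hσ F y).1 hy))
    · have h2 : (σ : Hat Q →ₐ[ℂ] Hat Q) z ∈ cl (Comm Q) :=
        hom_cl_comm (σ : Hat Q →ₐ[ℂ] Hat Q) (fun n f hf => aut_Fil σ hσ n f hf) (le_cl _ hz)
      exact cl_mono le_sup_right h2

theorem classZero_aut [Fintype E] (σ : Hat Q ≃ₐ[ℂ] Hat Q) (hσ : ∀ v, σ (idem Q v) = idem Q v)
    (F : Hat Q) : ClassZero F ↔ ClassZero (σ F) := by
  constructor
  · exact jacAut_cz σ hσ F
  · intro h
    have h1 := jacAut_cz σ.symm (jacAut_symm σ hσ) (σ F) h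
    rwa [σ.symm_apply_apply] at h1

private theorem jacAut_cg [Fintype E] {F G : Hat Q} (h : F - G ∈ cl (Comm Q))
    (hF : ClassZero F) : ClassZero G := by
  unfold ClassZero at hF ⊢
  rw [← jac_congr h]
  have h1 : F - G ∈ cl (jac F ⊔ Comm Q) := cl_mono le_sup_right h
  have h2 := Submodule.sub_mem _ hF h1
  rwa [sub_sub_cancel] at h2

theorem classZero_congr [Fintype E] {F G : Hat Q} (h : F - G ∈ cl (Comm Q)) :
    ClassZero F ↔ ClassZero G := by
  constructor
  · exact jacAut_cg h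
  · refine jacAut_cg ?_
    have h1 := Submodule.neg_mem _ h
    rwa [neg_sub] at h1

end Pool.Agent.Flop
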