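import Mathlib

/-!
# Jor1: a basis of generalized eigenvectors (linear algebra)

`Module.End.iSup_maxGenEigenspace_eq_top` (ℂ algebraically closed, finite dimension) and independence `Module.End.independent_maxGenEigenspace`: the maximal generalized eigenspaces form an internal direct sum (`DirectSum.isInternal_submodule_of_iSupIndep_of_iSup_eq_top`);
choose bases of them, `DirectSum.IsInternal.collectedBasis`; the index type is finite of cardinality = finrank = card ι, reindex by an equivalence with ι. Alternatively: the union of the generalized eigenspaces spans, choose a basis inside the set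
S = ⋃_μ maxGenEigenspace μ (`exists_linearIndependent`, `Basis.extend`, span S = top), its cardinality is card ι.
`exists_gen_matrix`: apply it to the endomorphism given by the matrix: P = matrix whose rows are the coordinates of the basis vectors. In the statement: m acts on row vectors v by v ↦ v * m, i.e. (v ᵥ* m); (P (m - κ_i)^N) row i = 0: that is
((m - κ i • 1) ^ N) applied to row i of P: Matrix.vecMul (P i) ((m - κ i • 1) ^ N) = 0.
-/

set_option autoImplicit false

namespace Pool.Agent.Flop

open Finset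

theorem exists_gen_basis_ft {ι : Type} [Fintype ι] (φ : Module.End ℂ (ι → ℂ)) :
    ∃ (b : Module.Basis ι ℂ (ι → ℂ)) (κ : ι → ℂ), ∀ i, ∃ N : ℕ, ((φ - κ i • (1 : Module.End ℂ (ι → ℂ))) ^ N) (b i) = 0 := by
  classical
  have hsp : (⊤ : Submodule ℂ (ι → ℂ)) ≤
      Submodule.span ℂ (⋃ μ : ℂ, (φ.maxGenEigenspace μ : Set (ι → ℂ))) := by
    rw [← Module.End.iSup_maxGenEigenspace_eq_top φ]
    refine iSup_le (fun μ => ?_)
    intro x hx
    exact Submodule.subset_span (Set.mem_iUnion.2 ⟨μ, hx⟩)
  let b0 := Module.Basis.ofSpan hsp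
  have hsub := Module.Basis.ofSpan_subset hsp
  let e := b0.indexEquiv (Pi.basisFun ℂ ι)
  let b := b0.reindex e
  have hb : ∀ i, ∃ μ : ℂ, b i ∈ φ.maxGenEigenspace μ := by
    intro i
    have h1 : b i ∈ Set.range b0 := by
      refine ⟨e.symm i, ?_⟩
      simp [b]
    exact Set.mem_iUnion.1 (hsub h1)
  choose κ hκ using hb
  refine ⟨b, κ, fun i => ?_⟩
  have h2 := hκ i
  rw [Module.End.mem_maxGenEigenspace] at h2
  exact h2

theorem exists_gen_matrix {ι : Type} [Fintype ι] [DecidableEq ι] (m : Matrix ι ι ℂ) :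
    ∃ (P : Matrix ι ι ℂ) (κ : ι → ℂ), IsUnit P.det ∧
      ∀ i, ∃ N : ℕ, Matrix.vecMul (P i) ((m - κ i • (1 : Matrix ι ι ℂ)) ^ N) = 0 := by
  classical
  obtain ⟨b, κ, h⟩ := exists_gen_basis_ft (Matrix.toLin' m.transpose)
  refine ⟨fun i => b i, κ, ?_, fun i => ?_⟩
  · have h1 : (Pi.basisFun ℂ ι).toMatrix b = (Matrix.transpose (fun i => b i) : Matrix ι ι ℂ) := by
      ext i j
      simp [Module.Basis.toMatrix, Matrix.transpose]
    have h2 : IsUnit ((Pi.basisFun ℂ ι).toMatrix b).det := by
      have h3 := (Pi.basisFun ℂ ι).invertibleToMatrix b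
      exact (Matrix.isUnit_iff_isUnit_det _).1 (isUnit_of_invertible _)
    rw [h1, Matrix.det_transpose] at h2
    exact h2
  · obtain ⟨N, hN⟩ := h i
    refine ⟨N, ?_⟩
    have h3 : Matrix.toLin' ((m - κ i • (1 : Matrix ι ι ℂ)) ^ N).transpose =
        (Matrix.toLin' m.transpose - κ i • (1 : Module.End ℂ (ι → ℂ))) ^ N := by
      rw [Matrix.transpose_pow, Matrix.toLin'_pow, Matrix.transpose_sub, Matrix.transpose_smul, Matrix.transpose_one,
        map_sub, map_smul, Matrix.toLin'_one]
      rfl
    rw [← h3, Matrix.toLin'_apply, Matrix.mulVec_transpose] at hN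
    exact hN

end Pool.Agent.Flop
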