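import Pool.Agent.Lib.FlA.Jor1
import Pool.Agent.Lib.FlA.Def2

/-!
# Jor2: linear changes of the arrows to generalized eigenvectors of the linear part

(A) `exists_lin_aut`: an invertible linear change of parallel arrows is an automorphism.
(B) `exists_lin_gen`: after a linear change of the arrows, every arrow is a generalized eigenvector of
a given derivation modulo the square of the arrow ideal.
-/

set_option autoImplicit false

namespace Pool.Agent.Flop

open Finset

variable {V E : Type} [Fintype V] [DecidableEq V] [DecidableEq E] {Q : Qv V E}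

private theorem jor2_hom [Fintype E] (P : Matrix E E ℂ)
    (hP : ∀ a b, P a b ≠ 0 → Q.src a = Q.src b ∧ Q.tgt a = Q.tgt b) :
    ∃ φ : Hat Q →ₐ[ℂ] Hat Q, (∀ v, φ (idem Q v) = idem Q v) ∧
      (∀ a, φ (arr Q a) = ∑ b, P a b • arr Q b) ∧ ∀ n, ∀ f ∈ Fil Q n, φ f ∈ Fil Q n := by
  refine exists_hom cFilt_Fil (fun v => idem Q v)
    (fun v => by rw [Fil_zero]; exact Submodule.mem_top) sum_idem idem_mul_idem
    (fun a => ∑ b, P a b • arr Q b) ?_ ?_ ?_
  · intro a
    rw [Finset.mul_sum]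
    refine Finset.sum_congr rfl fun b _ => ?_
    rw [mul_smul_comm]
    by_cases h : P a b = 0
    · rw [h, zero_smul, zero_smul]
    · rw [(hP a b h).1, idem_mul_arr]
  · intro a
    rw [Finset.sum_mul]
    refine Finset.sum_congr rfl fun b _ => ?_
    rw [smul_mul_assoc]
    by_cases h : P a b = 0
    · rw [h, zero_smul, zero_smul]
    · rw [(hP a b h).2, arr_mul_idem]
  · intro a
    exact Submodule.sum_mem _ fun b _ => Submodule.smul_mem _ _ (arr_mem_Fil b)

private theorem jor2_comp [Fintype E] (P P' : Matrix E E ℂ) (h1 : P * P' = 1)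
    {φ ψ : Hat Q →ₐ[ℂ] Hat Q} (h2 : ∀ v, φ (idem Q v) = idem Q v)
    (h3 : ∀ a, φ (arr Q a) = ∑ b, P a b • arr Q b) (h4 : ∀ n, ∀ f ∈ Fil Q n, φ f ∈ Fil Q n)
    (h5 : ∀ v, ψ (idem Q v) = idem Q v)
    (h6 : ∀ a, ψ (arr Q a) = ∑ b, P' a b • arr Q b) (h7 : ∀ n, ∀ f ∈ Fil Q n, ψ f ∈ Fil Q n) :
    ψ.comp φ = AlgHom.id ℂ (Hat Q) := by
  refine hom_ext cFilt_Fil (fun v => ?_) (fun a => ?_) (fun n f hf => ?_) (fun n f hf => hf)
  · rw [AlgHom.comp_apply, h2, h5, AlgHom.id_apply]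
  · rw [AlgHom.comp_apply, h3, map_sum, AlgHom.id_apply]
    have e1 : ∀ b, ψ (P a b • arr Q b) = ∑ c, (P a b * P' b c) • arr Q c := by
      intro b
      rw [map_smul, h6, Finset.smul_sum]
      exact Finset.sum_congr rfl fun c _ => smul_smul _ _ _
    rw [Finset.sum_congr rfl fun b _ => e1 b, Finset.sum_comm]
    have e2 : ∀ c, ∑ b, (P a b * P' b c) • arr Q c = (1 : Matrix E E ℂ) a c • arr Q c := by
      intro c
      rw [← Finset.sum_smul, ← h1, Matrix.mul_apply]
    rw [Finset.sum_congr rfl fun c _ => e2 c, Finset.sum_eq_single a]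
    · rw [Matrix.one_apply_eq, one_smul]
    · intro c _ hc
      rw [Matrix.one_apply_ne (Ne.symm hc), zero_smul]
    · intro h
      exact absurd (Finset.mem_univ a) h
  · exact h7 n _ (h4 n f hf)

theorem exists_lin_aut [Fintype E] (P P' : Matrix E E ℂ) (h1 : P * P' = 1) (h2 : P' * P = 1)
    (hP : ∀ a b, P a b ≠ 0 → Q.src a = Q.src b ∧ Q.tgt a = Q.tgt b)
    (hP' : ∀ a b, P' a b ≠ 0 → Q.src a = Q.src b ∧ Q.tgt a = Q.tgt b) :
    ∃ σ : Hat Q ≃ₐ[ℂ] Hat Q, (∀ v, σ (idem Q v) = idem Q v) ∧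
      ∀ a, σ (arr Q a) = ∑ b, P a b • arr Q b := by
  obtain ⟨φ, a1, a2, a3⟩ := jor2_hom (Q := Q) P hP
  obtain ⟨ψ, b1, b2, b3⟩ := jor2_hom (Q := Q) P' hP'
  exact ⟨AlgEquiv.ofAlgHom φ ψ (jor2_comp P' P h2 b1 b2 b3 a1 a2 a3)
    (jor2_comp P P' h1 a1 a2 a3 b1 b2 b3), a1, a2⟩

private theorem jor2_lin [Fintype E] {D : Hat Q →ₗ[ℂ] Hat Q} (hD : IsDer D) (m : Matrix E E ℂ)
    (hm : ∀ a b, m a b = if Q.src a = Q.src b ∧ Q.tgt a = Q.tgt b then
      (D (arr Q a)).cf (Q.src a) (Q.tgt a) [b] else 0) (a : E) :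
    D (arr Q a) - ∑ b, m a b • arr Q b ∈ Fil Q 2 := by
  have he1 : idem Q (Q.src a) * D (arr Q a) = D (arr Q a) := by
    have h := hD.leib (idem Q (Q.src a)) (arr Q a)
    rw [idem_mul_arr, hD.idem, zero_mul, zero_add] at h
    exact h.symm
  have he2 : D (arr Q a) * idem Q (Q.tgt a) = D (arr Q a) := by
    have h := hD.leib (arr Q a) (idem Q (Q.tgt a))
    rw [arr_mul_idem, hD.idem, mul_zero, add_zero] at h
    exact h.symm
  rw [mem_Fil]
  intro i j l hl
  rw [Hat.cf_sub, Hat.cf_sum, sub_eq_zero]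
  match l, hl with
  | [], _ =>
    rw [mem_Fil.1 (hD.fil 1 _ (arr_mem_Fil a)) i j [] (by simp)]
    refine (Finset.sum_eq_zero fun b _ => ?_).symm
    rw [Hat.cf_smul, cf_arr, if_neg, mul_zero]
    rintro ⟨-, -, h⟩
    simp at h
  | [c], _ =>
    rw [Finset.sum_eq_single c]
    · rw [Hat.cf_smul, cf_arr]
      by_cases h0 : i = Q.src c ∧ j = Q.tgt c
      · rw [if_pos ⟨h0.1, h0.2, rfl⟩, mul_one, hm]
        by_cases h1 : Q.src a = Q.src c ∧ Q.tgt a = Q.tgt c
        · rw [if_pos h1, h0.1, h0.2, ← h1.1, ← h1.2]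
        · rw [if_neg h1]
          by_cases h2 : Q.src a = Q.src c
          · rw [← he2, cf_mul_idem, if_neg]
            intro h3
            exact h1 ⟨h2, h3.symm.trans h0.2⟩
          · rw [← he1, cf_idem_mul, if_neg]
            intro h3
            exact h2 (h3.symm.trans h0.1)
      · rw [if_neg fun h => h0 ⟨h.1, h.2.1⟩, mul_zero]
        by_contra hne
        obtain ⟨h1, h2⟩ := Hat.cf_path _ hne
        exact h0 ⟨h1.symm, (show Q.tgt c = j from h2).symm⟩
    · intro b _ hb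
      rw [Hat.cf_smul, cf_arr, if_neg, mul_zero]
      rintro ⟨-, -, h⟩
      exact hb (List.cons.inj h).1.symm
    · intro h
      exact absurd (Finset.mem_univ c) h
  | _ :: _ :: _, hl =>
    simp only [List.length_cons] at hl
    omega

private theorem jor2_step [Fintype E] {L : Module.End ℂ (Hat Q)} {M : Matrix E E ℂ}
    (hL : ∀ a, L (arr Q a) - ∑ b, M a b • arr Q b ∈ Fil Q 2) (v : E → ℂ) :
    L (∑ b, v b • arr Q b) - ∑ b, (Matrix.vecMul v M) b • arr Q b ∈ Fil Q 2 := by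
  have e : L (∑ b, v b • arr Q b) - ∑ b, (Matrix.vecMul v M) b • arr Q b =
      ∑ b, v b • (L (arr Q b) - ∑ c, M b c • arr Q c) := by
    rw [map_sum]
    have e1 : ∑ c, (Matrix.vecMul v M) c • arr Q c = ∑ b, v b • ∑ c, M b c • arr Q c := by
      have e2 : ∀ c, (Matrix.vecMul v M) c • arr Q c = ∑ b, (v b * M b c) • arr Q c := by
        intro c
        rw [← Finset.sum_smul]
        rfl
      rw [Finset.sum_congr rfl fun c _ => e2 c, Finset.sum_comm]
      refine Finset.sum_congr rfl fun b _ => ?_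
      rw [Finset.smul_sum]
      exact Finset.sum_congr rfl fun c _ => (smul_smul _ _ _).symm
    rw [e1, ← Finset.sum_sub_distrib]
    refine Finset.sum_congr rfl fun b _ => ?_
    rw [map_smul, smul_sub]
  rw [e]
  exact Submodule.sum_mem _ fun b _ => Submodule.smul_mem _ _ (hL b)

private theorem jor2_pow [Fintype E] {L : Module.End ℂ (Hat Q)} {M : Matrix E E ℂ}
    (hL : ∀ a, L (arr Q a) - ∑ b, M a b • arr Q b ∈ Fil Q 2)
    (hF : ∀ f ∈ Fil Q 2, L f ∈ Fil Q 2) (v : E → ℂ) (N : ℕ) :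
    (L ^ N) (∑ b, v b • arr Q b) - ∑ b, (Matrix.vecMul v (M ^ N)) b • arr Q b ∈ Fil Q 2 := by
  induction N with
  | zero =>
    rw [pow_zero, pow_zero, Matrix.vecMul_one, Module.End.one_apply, sub_self]
    exact Submodule.zero_mem _
  | succ N ih =>
    rw [pow_succ', pow_succ, Module.End.mul_apply, ← Matrix.vecMul_vecMul]
    have h1 := jor2_step hL (Matrix.vecMul v (M ^ N))
    have h2 := hF _ ih
    rw [map_sub] at h2
    have h3 := Submodule.add_mem _ h2 h1
    rwa [sub_add_sub_cancel] at h3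

private theorem jor2_blocks [Fintype E] (m : Matrix E E ℂ)
    (hm : ∀ a b, ¬ (Q.src a = Q.src b ∧ Q.tgt a = Q.tgt b) → m a b = 0) :
    ∃ (P P' : Matrix E E ℂ) (κ : E → ℂ), P * P' = 1 ∧ P' * P = 1 ∧
      (∀ a b, P a b ≠ 0 → Q.src a = Q.src b ∧ Q.tgt a = Q.tgt b) ∧
      (∀ a b, P' a b ≠ 0 → Q.src a = Q.src b ∧ Q.tgt a = Q.tgt b) ∧
      ∀ a, ∃ N : ℕ, Matrix.vecMul (P a) ((m - κ a • (1 : Matrix E E ℂ)) ^ N) = 0 := by
  classical
  let pr : E → V × V := fun a => (Q.src a, Q.tgt a)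
  have hpr : ∀ a b, pr a = pr b → Q.src a = Q.src b ∧ Q.tgt a = Q.tgt b := fun a b h =>
    ⟨congrArg Prod.fst h, congrArg Prod.snd h⟩
  let e : (Σ p : V × V, {a : E // pr a = p}) ≃ E := Equiv.sigmaFiberEquiv pr
  let mb : ∀ p : V × V, Matrix {a : E // pr a = p} {a : E // pr a = p} ℂ := fun p i j => m i.1 j.1
  choose P κ hdet hN using fun p : V × V => exists_gen_matrix (mb p)
  have hrow : ∀ (X : ∀ p : V × V, Matrix {a : E // pr a = p} {a : E // pr a = p} ℂ) (a b : E),
      (Matrix.blockDiagonal' X).submatrix e.symm e.symm a b ≠ 0 → pr a = pr b := by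
    intro X a b h
    by_contra hne
    apply h
    change Matrix.blockDiagonal' X ⟨pr a, ⟨a, rfl⟩⟩ ⟨pr b, ⟨b, rfl⟩⟩ = 0
    rw [Matrix.blockDiagonal'_apply, dif_neg hne]
  have hm' : m = (Matrix.blockDiagonal' mb).submatrix e.symm e.symm := by
    ext a b
    change m a b = Matrix.blockDiagonal' mb ⟨pr a, ⟨a, rfl⟩⟩ ⟨pr b, ⟨b, rfl⟩⟩
    rw [Matrix.blockDiagonal'_apply]
    by_cases h : pr a = pr b
    · rw [dif_pos h]
      have key : ∀ (p : V × V) (hp : pr b = p) (hp' : {c : E // pr c = pr b} = {c : E // pr c = p}),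
          (cast hp' ⟨b, rfl⟩ : {c : E // pr c = p}).1 = b := by
        intro p hp hp'
        subst hp
        rfl
      change m a b = m a _
      rw [key (pr a) h.symm]
    · rw [dif_neg h]
      exact hm a b fun h' => h (Prod.ext h'.1 h'.2)
  have hone : (1 : Matrix E E ℂ) = (Matrix.blockDiagonal' fun p : V × V =>
      (1 : Matrix {a : E // pr a = p} {a : E // pr a = p} ℂ)).submatrix e.symm e.symm := by
    have h := Matrix.blockDiagonal'_one (α := ℂ) (m' := fun p : V × V => {a : E // pr a = p})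
    have h' : (Matrix.blockDiagonal' fun p : V × V =>
      (1 : Matrix {a : E // pr a = p} {a : E // pr a = p} ℂ)) = 1 := h
    rw [h', Matrix.submatrix_one_equiv]
  have hmul : ∀ X Y : ∀ p : V × V, Matrix {a : E // pr a = p} {a : E // pr a = p} ℂ,
      (Matrix.blockDiagonal' X).submatrix e.symm e.symm *
        (Matrix.blockDiagonal' Y).submatrix e.symm e.symm =
      (Matrix.blockDiagonal' fun p => X p * Y p).submatrix e.symm e.symm := by
    intro X Y
    rw [Matrix.submatrix_mul_equiv, Matrix.blockDiagonal'_mul]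
  refine ⟨(Matrix.blockDiagonal' P).submatrix e.symm e.symm,
    (Matrix.blockDiagonal' fun p => (P p)⁻¹).submatrix e.symm e.symm,
    fun a => κ (pr a) ⟨a, rfl⟩, ?_, ?_, ?_, ?_, ?_⟩
  · rw [hmul, hone]
    congr 2
    funext p
    exact Matrix.mul_nonsing_inv _ (hdet p)
  · rw [hmul, hone]
    congr 2
    funext p
    exact Matrix.nonsing_inv_mul _ (hdet p)
  · exact fun a b h => hpr a b (hrow _ a b h)
  · exact fun a b h => hpr a b (hrow _ a b h)
  · intro a
    obtain ⟨N, hN'⟩ := hN (pr a) ⟨a, rfl⟩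
    refine ⟨N, ?_⟩
    set t : ℂ := κ (pr a) ⟨a, rfl⟩ with ht
    have h1 : m - t • (1 : Matrix E E ℂ) = (Matrix.blockDiagonal' fun p : V × V =>
        (mb p - t • (1 : Matrix {a : E // pr a = p} {a : E // pr a = p} ℂ))).submatrix
          e.symm e.symm := by
      have h2 : (Matrix.blockDiagonal' fun p : V × V =>
        (mb p - t • (1 : Matrix {a : E // pr a = p} {a : E // pr a = p} ℂ))) =
          Matrix.blockDiagonal' mb - t • Matrix.blockDiagonal' fun p : V × V =>
            (1 : Matrix {a : E // pr a = p} {a : E // pr a = p} ℂ) := by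
        rw [← Matrix.blockDiagonal'_smul, ← Matrix.blockDiagonal'_sub]
        rfl
      rw [h2, Matrix.submatrix_sub, Matrix.submatrix_smul]
      change m - t • (1 : Matrix E E ℂ) = (Matrix.blockDiagonal' mb).submatrix e.symm e.symm -
        t • (Matrix.blockDiagonal' fun p : V × V =>
            (1 : Matrix {a : E // pr a = p} {a : E // pr a = p} ℂ)).submatrix e.symm e.symm
      rw [← hm', ← hone]
    have h3 : ∀ n : ℕ, (m - t • (1 : Matrix E E ℂ)) ^ n = (Matrix.blockDiagonal' fun p : V × V =>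
        (mb p - t • (1 : Matrix {a : E // pr a = p} {a : E // pr a = p} ℂ)) ^ n).submatrix
          e.symm e.symm := by
      intro n
      induction n with
      | zero =>
        rw [pow_zero, hone]
        congr 2
      | succ n ih =>
        rw [pow_succ, ih, h1, hmul]
        congr 2
    have h4 : Matrix.vecMul ((Matrix.blockDiagonal' P).submatrix e.symm e.symm a)
        ((m - t • (1 : Matrix E E ℂ)) ^ N) =
        ((Matrix.blockDiagonal' P).submatrix e.symm e.symm *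
          ((m - t • (1 : Matrix E E ℂ)) ^ N)) a := rfl
    rw [h4, h3, hmul]
    funext b
    change Matrix.blockDiagonal' (fun p => P p * (mb p -
      t • (1 : Matrix {a : E // pr a = p} {a : E // pr a = p} ℂ)) ^ N) ⟨pr a, ⟨a, rfl⟩⟩
        ⟨pr b, ⟨b, rfl⟩⟩ = 0
    rw [Matrix.blockDiagonal'_apply]
    split_ifs with h
    · exact congrFun hN' _
    · rfl

theorem exists_lin_gen [Fintype E] {D : Hat Q →ₗ[ℂ] Hat Q} (hD : IsDer D) :
    ∃ (σ : Hat Q ≃ₐ[ℂ] Hat Q) (κ : E → ℂ), (∀ v, σ (idem Q v) = idem Q v) ∧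
      ∀ a, ∃ N : ℕ, (((σ.symm.toLinearMap ∘ₗ D ∘ₗ σ.toLinearMap : Module.End ℂ (Hat Q)) -
        κ a • (1 : Module.End ℂ (Hat Q))) ^ N) (arr Q a) ∈ Fil Q 2 := by
  classical
  let m : Matrix E E ℂ := fun a b => if Q.src a = Q.src b ∧ Q.tgt a = Q.tgt b then
      (D (arr Q a)).cf (Q.src a) (Q.tgt a) [b] else 0
  obtain ⟨P, P', κ, h1, h2, h3, h4, h5⟩ := jor2_blocks (Q := Q) m fun a b h => if_neg h
  obtain ⟨σ, hσ1, hσ2⟩ := exists_lin_aut (Q := Q) P P' h1 h2 h3 h4
  refine ⟨σ, κ, hσ1, fun a => ?_⟩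
  obtain ⟨N, hN⟩ := h5 a
  refine ⟨N, ?_⟩
  have hL : ∀ c, ((D : Module.End ℂ (Hat Q)) - κ a • (1 : Module.End ℂ (Hat Q))) (arr Q c) -
      ∑ b, (m - κ a • (1 : Matrix E E ℂ)) c b • arr Q b ∈ Fil Q 2 := by
    intro c
    have e1 : ∑ b, (m - κ a • (1 : Matrix E E ℂ)) c b • arr Q b =
        ∑ b, m c b • arr Q b - κ a • arr Q c := by
      have e2 : ∀ b, (m - κ a • (1 : Matrix E E ℂ)) c b • arr Q b =
          m c b • arr Q b - (κ a * (1 : Matrix E E ℂ) c b) • arr Q b := by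
        intro b
        rw [Matrix.sub_apply, Matrix.smul_apply, smul_eq_mul, sub_smul]
      rw [Finset.sum_congr rfl fun b _ => e2 b, Finset.sum_sub_distrib]
      congr 1
      rw [Finset.sum_eq_single c]
      · rw [Matrix.one_apply_eq, mul_one]
      · intro b _ hb
        rw [Matrix.one_apply_ne (Ne.symm hb), mul_zero, zero_smul]
      · intro h
        exact absurd (Finset.mem_univ c) h
    have e3 : ((D : Module.End ℂ (Hat Q)) - κ a • (1 : Module.End ℂ (Hat Q))) (arr Q c) =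
        D (arr Q c) - κ a • arr Q c := rfl
    rw [e1, e3, sub_sub_sub_cancel_right]
    exact jor2_lin hD m (fun _ _ => rfl) c
  have hF : ∀ f ∈ Fil Q 2,
      ((D : Module.End ℂ (Hat Q)) - κ a • (1 : Module.End ℂ (Hat Q))) f ∈ Fil Q 2 := by
    intro f hf
    exact Submodule.sub_mem _ (hD.fil 2 f hf) (Submodule.smul_mem _ _ hf)
  have h6 := jor2_pow hL hF (P a) N
  rw [hN] at h6
  have h7 : ∑ b, (0 : E → ℂ) b • arr Q b = 0 :=
    Finset.sum_eq_zero fun b _ => by rw [Pi.zero_apply, zero_smul]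
  rw [h7, sub_zero, ← hσ2] at h6
  have h8 : ∀ (n : ℕ) (f : Hat Q),
      (((σ.symm.toLinearMap ∘ₗ D ∘ₗ σ.toLinearMap : Module.End ℂ (Hat Q)) -
        κ a • (1 : Module.End ℂ (Hat Q))) ^ n) f =
      σ.symm ((((D : Module.End ℂ (Hat Q)) - κ a • (1 : Module.End ℂ (Hat Q))) ^ n) (σ f)) := by
    intro n
    induction n with
    | zero =>
      intro f
      rw [pow_zero, pow_zero, Module.End.one_apply, Module.End.one_apply,
        AlgEquiv.symm_apply_apply]
    | succ n ih =>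
      intro f
      rw [pow_succ, pow_succ, Module.End.mul_apply, Module.End.mul_apply, ih]
      congr 2
      change σ (σ.symm (D (σ f)) - κ a • f) = D (σ f) - κ a • σ f
      rw [map_sub, AlgEquiv.apply_symm_apply, map_smul]
  rw [h8]
  exact aut_Fil σ.symm (fun v => by rw [AlgEquiv.symm_apply_eq, hσ1]) 2 _ h6

end Pool.Agent.Flop
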