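import Pool.Agent.Lib.FlA.Def3

/-!
# Ksz: Koszul complexes on the subsets of Fin n

n arbitrary, R commutative ring, M module. `ksgn i S` = (-1)^#{j in S, j < i}. SIGN LEMMA A: for i <> j not in S: ksgn i S * ksgn j (insert i S) = - (ksgn j S * ksgn i (insert j S)): filter (· < j) (insert i S) = filter S plus i if i < j; one of i < j, j < i holds. SIGN LEMMA B: for i not in S, j in S: ksgn i S * ksgn j ((insert i S).erase j) =
- (ksgn j (S.erase j) * ksgn i (S.erase j)) : compare the cardinalities: #{k in S, k < i} + #{k in (S + i) - j, k < j} versus #{k in S - j, k < j} + #{k in S - j, k < i}: the difference is [j < i] + [i < j] = 1. `kd_kd`: kd (kd c) S = sum over i not in S, j not in insert i S of signs x_i x_j c(insert j (insert i S)): antisymmetric under (i, j) -> (j, i)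
(Finset.sum_sigma', Finset.sum_involution or: the sum T satisfies T = -T; better sum_involution). `kd_kh`: (kd x (kh y c) + kh y (kd x c)) S: the terms i not in S, then erase j from insert i S: j = i gives sum_{i not in S} ksgn i S * ksgn i S x_i y_i c S; from kh (kd c): j in S, then insert i not in S.erase j: i = j gives sum_{j in S} y_j x_j c S;
the other terms (i not in S, j in S) cancel by SIGN LEMMA B ((insert i S).erase j = insert i (S.erase j) for i <> j). `kd_singleton`, `kd_empty`: unfold.
-/

set_option autoImplicit false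

namespace Pool.Agent.Flop

open Finset

variable {R M M' : Type} [CommRing R] [AddCommGroup M] [Module R M] [AddCommGroup M'] [Module R M']
  {n : ℕ}

private theorem ksgn_ins (i j : Fin n) (S : Finset (Fin n)) (hi : i ∉ S) :
    ksgn j (insert i S) = (if i < j then -1 else 1) * ksgn j S := by
  unfold ksgn
  rw [Finset.filter_insert]
  split_ifs with h
  · rw [Finset.card_insert_of_notMem (fun h' => hi (Finset.mem_filter.1 h').1), pow_succ]
    ring
  · rw [one_mul]

private theorem ksgn_sq (i : Fin n) (S : Finset (Fin n)) : ksgn i S * ksgn i S = 1 := by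
  unfold ksgn
  rw [← pow_add, ← two_mul, pow_mul]
  norm_num

private theorem e_mul (i j : Fin n) (hij : i ≠ j) :
    (if i < j then (-1 : ℤ) else 1) * (if j < i then (-1 : ℤ) else 1) = -1 := by
  rcases lt_or_gt_of_ne hij with h | h
  · rw [if_pos h, if_neg (not_lt.2 h.le)]; norm_num
  · rw [if_neg (not_lt.2 h.le), if_pos h]; norm_num

private theorem e_neg (i j : Fin n) (hij : i ≠ j) :
    (if i < j then (-1 : ℤ) else 1) = - (if j < i then (-1 : ℤ) else 1) := by
  rcases lt_or_gt_of_ne hij with h | h
  · rw [if_pos h, if_neg (not_lt.2 h.le)]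
  · rw [if_neg (not_lt.2 h.le), if_pos h]; norm_num

private theorem signA (i j : Fin n) (S : Finset (Fin n)) (hi : i ∉ S) (hj : j ∉ S) (hij : i ≠ j) :
    ksgn i S * ksgn j (insert i S) = - (ksgn j S * ksgn i (insert j S)) := by
  rw [ksgn_ins i j S hi, ksgn_ins j i S hj, e_neg i j hij]
  ring

private theorem signB (i j : Fin n) (S : Finset (Fin n)) (hi : i ∉ S) (hj : j ∈ S) :
    ksgn i S * ksgn j ((insert i S).erase j) = - (ksgn j (S.erase j) * ksgn i (S.erase j)) := by
  have hij : i ≠ j := fun h => hi (h ▸ hj)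
  rw [Finset.erase_insert_of_ne hij]
  have h1 : ksgn i S = (if j < i then -1 else 1) * ksgn i (S.erase j) := by
    conv_lhs => rw [← Finset.insert_erase hj]
    exact ksgn_ins j i _ (Finset.notMem_erase j S)
  rw [h1, ksgn_ins i j _ (fun h => hi (Finset.mem_of_mem_erase h))]
  have h2 := e_mul i j hij
  calc (if j < i then (-1 : ℤ) else 1) * ksgn i (S.erase j) *
        ((if i < j then (-1 : ℤ) else 1) * ksgn j (S.erase j))
      = ((if i < j then (-1 : ℤ) else 1) * (if j < i then (-1 : ℤ) else 1)) *
          (ksgn j (S.erase j) * ksgn i (S.erase j)) := by ring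
    _ = - (ksgn j (S.erase j) * ksgn i (S.erase j)) := by rw [h2]; ring

private theorem smul4 (a b : ℤ) (x y : R) (m : M) :
    a • x • b • y • m = (a * b) • (x * y) • m := by
  rw [smul_comm x b, smul_smul a b, smul_smul x y]

theorem kd_kd (x : Fin n → R) (c : Finset (Fin n) → M) : kd x (kd x c) = 0 := by
  funext S
  have key : kd x (kd x c) S = ∑ p ∈ (Finset.univ : Finset (Fin n × Fin n)),
      (if p.1 ∉ S ∧ p.2 ∉ S ∧ p.1 ≠ p.2 then
        (ksgn p.1 S * ksgn p.2 (insert p.1 S)) • (x p.1 * x p.2) • c (insert p.2 (insert p.1 S))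
       else 0) := by
    rw [← Finset.univ_product_univ, Finset.sum_product]
    unfold kd
    rw [← Finset.sum_subset (Finset.subset_univ Sᶜ)]
    · refine Finset.sum_congr rfl fun i hi => ?_
      rw [Finset.mem_compl] at hi
      rw [Finset.smul_sum, Finset.smul_sum, ← Finset.sum_subset (Finset.subset_univ (insert i S)ᶜ)]
      · refine Finset.sum_congr rfl fun j hj => ?_
        rw [Finset.mem_compl, Finset.mem_insert, not_or] at hj
        rw [if_pos ⟨hi, hj.2, fun h => hj.1 h.symm⟩, smul4]
      · intro j _ hj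
        rw [Finset.mem_compl, not_not, Finset.mem_insert] at hj
        apply if_neg
        rintro ⟨_, h2, h3⟩
        rcases hj with h | h
        · exact h3 h.symm
        · exact h2 h
    · intro i _ hi
      rw [Finset.mem_compl, not_not] at hi
      apply Finset.sum_eq_zero
      intro j _
      apply if_neg
      rintro ⟨h1, _⟩
      exact h1 hi
  rw [key]
  refine Finset.sum_involution (fun p _ => (p.2, p.1)) ?_ ?_ (fun _ _ => Finset.mem_univ _)
    (fun _ _ => rfl)
  · rintro ⟨i, j⟩ _
    by_cases h : i ∉ S ∧ j ∉ S ∧ i ≠ j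
    · have h' : j ∉ S ∧ i ∉ S ∧ j ≠ i := ⟨h.2.1, h.1, fun e => h.2.2 e.symm⟩
      simp only [if_pos h, if_pos h']
      rw [signA i j S h.1 h.2.1 h.2.2, Finset.insert_comm j i S, mul_comm (x j) (x i), neg_smul,
        neg_add_cancel]
    · have h' : ¬ (j ∉ S ∧ i ∉ S ∧ j ≠ i) := fun e => h ⟨e.2.1, e.1, fun e' => e.2.2 e'.symm⟩
      simp only [if_neg h, if_neg h', add_zero]
  · rintro ⟨i, j⟩ _ hne heq
    apply hne
    have hij : j = i := congrArg Prod.fst heq
    apply if_neg
    rintro ⟨_, _, h3⟩
    exact h3 hij.symm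

theorem kd_kh (x y : Fin n → R) (c : Finset (Fin n) → M) (S : Finset (Fin n)) :
    kd x (kh y c) S + kh y (kd x c) S = (∑ i, y i * x i) • c S := by
  have h1 : kd x (kh y c) S = (∑ i ∈ Sᶜ, (y i * x i) • c S) +
      ∑ i ∈ Sᶜ, ∑ j ∈ S, (ksgn i S * ksgn j ((insert i S).erase j)) • (x i * y j) •
        c ((insert i S).erase j) := by
    unfold kd kh
    rw [← Finset.sum_add_distrib]
    refine Finset.sum_congr rfl fun i hi => ?_
    rw [Finset.mem_compl] at hi
    rw [Finset.sum_insert hi, smul_add, smul_add, Finset.erase_insert hi, smul4, ksgn_sq, one_smul,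
      mul_comm (x i) (y i), Finset.smul_sum, Finset.smul_sum]
    refine congrArg _ (Finset.sum_congr rfl fun j _ => ?_)
    rw [smul4]
  have h2 : kh y (kd x c) S = (∑ j ∈ S, (y j * x j) • c S) +
      ∑ i ∈ Sᶜ, ∑ j ∈ S, (ksgn j (S.erase j) * ksgn i (S.erase j)) • (y j * x i) •
        c (insert i (S.erase j)) := by
    rw [Finset.sum_comm]
    unfold kd kh
    rw [← Finset.sum_add_distrib]
    refine Finset.sum_congr rfl fun j hj => ?_
    have hc : (S.erase j)ᶜ = insert j Sᶜ := by
      ext k
      rw [Finset.mem_compl, Finset.mem_erase, Finset.mem_insert, Finset.mem_compl]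
      tauto
    have hj' : j ∉ Sᶜ := fun h => Finset.mem_compl.1 h hj
    beta_reduce
    rw [hc, Finset.sum_insert hj', smul_add, smul_add, Finset.insert_erase hj, smul4, ksgn_sq,
      one_smul, Finset.smul_sum, Finset.smul_sum]
    refine congrArg _ (Finset.sum_congr rfl fun i _ => ?_)
    rw [smul4]
  have h3 : ∑ i ∈ Sᶜ, ∑ j ∈ S, (ksgn i S * ksgn j ((insert i S).erase j)) • (x i * y j) •
        c ((insert i S).erase j) =
      - ∑ i ∈ Sᶜ, ∑ j ∈ S, (ksgn j (S.erase j) * ksgn i (S.erase j)) • (y j * x i) •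
        c (insert i (S.erase j)) := by
    rw [← Finset.sum_neg_distrib]
    refine Finset.sum_congr rfl fun i hi => ?_
    rw [Finset.mem_compl] at hi
    rw [← Finset.sum_neg_distrib]
    refine Finset.sum_congr rfl fun j hj => ?_
    have hij : i ≠ j := fun h => hi (h ▸ hj)
    rw [signB i j S hi hj, Finset.erase_insert_of_ne hij, neg_smul, mul_comm (x i) (y j)]
  have h4 : (∑ i, y i * x i) • c S = (∑ i ∈ Sᶜ, (y i * x i) • c S) +
      ∑ j ∈ S, (y j * x j) • c S := by
    rw [Finset.sum_smul, Finset.sum_compl_add_sum]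
  rw [h1, h2, h3, h4]
  abel

theorem kd_add (x : Fin n → R) (c c' : Finset (Fin n) → M) (S : Finset (Fin n)) :
    kd x (fun T => c T + c' T) S = kd x c S + kd x c' S := by
  unfold kd
  rw [← Finset.sum_add_distrib]
  refine Finset.sum_congr rfl fun i _ => ?_
  rw [smul_add, smul_add]

theorem kd_sub (x : Fin n → R) (c c' : Finset (Fin n) → M) (S : Finset (Fin n)) :
    kd x (fun T => c T - c' T) S = kd x c S - kd x c' S := by
  unfold kd
  rw [← Finset.sum_sub_distrib]
  refine Finset.sum_congr rfl fun i _ => ?_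
  rw [smul_sub, smul_sub]

theorem kd_smul (x : Fin n → R) (r : R) (c : Finset (Fin n) → M) (S : Finset (Fin n)) :
    kd x (fun T => r • c T) S = r • kd x c S := by
  unfold kd
  rw [Finset.smul_sum]
  refine Finset.sum_congr rfl fun i _ => ?_
  rw [smul_comm r (ksgn i S), smul_comm r (x i)]

theorem kd_map (x : Fin n → R) (f : M →ₗ[R] M') (c : Finset (Fin n) → M) (S : Finset (Fin n)) :
    kd x (fun T => f (c T)) S = f (kd x c S) := by
  unfold kd
  rw [map_sum]
  refine Finset.sum_congr rfl fun i _ => ?_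
  rw [map_zsmul, map_smul]

theorem kd_congr (x : Fin n → R) {c c' : Finset (Fin n) → M} {S : Finset (Fin n)}
    (h : ∀ T, T.card = S.card + 1 → c T = c' T) : kd x c S = kd x c' S := by
  unfold kd
  refine Finset.sum_congr rfl fun i hi => ?_
  rw [h _ (Finset.card_insert_of_notMem (Finset.mem_compl.1 hi))]

theorem kd_empty (x : Fin n → R) (c : Finset (Fin n) → M) :
    kd x c ∅ = ∑ i, x i • c {i} := by
  unfold kd
  rw [Finset.compl_empty]
  refine Finset.sum_congr rfl fun i _ => ?_
  have h1 : ksgn i (∅ : Finset (Fin n)) = 1 := by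
    unfold ksgn
    rw [Finset.filter_empty, Finset.card_empty, pow_zero]
  rw [h1, one_smul]
  rfl

end Pool.Agent.Flop
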