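import Pool.Agent.Lib.FlA.Ksz

/-!
# KszC: the chase in the Koszul complexes of an exact sequence

Work with functions on the subsets of Fin 4; U = univ. ω T := if T = U then 1 else 0. (1) dω := kd x ω: for card S = 3, S = U minus i: = ksgn i S * x_i. Choose η : subsets -> F1 with γ (η S) = kd x ω S for card S = 3 (hx: x i = γ (z_i); signs) and η S = 0 otherwise. (2) for card S = 2: γ (kd x η S) = kd x (kd x ω) S = 0 (kd_map, kd_congr, kd_kd), so kd x η S = β (θ S)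
(h1), θ S = 0 for card S <> 2. (3) card S = 1: β (kd x θ S) = kd x (kd x η) S = 0, so kd x θ S = α (ξ' S) (h2). (4) α (kd x ξ' ∅) = kd x (kd x θ) ∅ = 0, so kd x ξ' ∅ = 0: sum_i x i * ξ' {i} = 0 (kd_empty). HOMOGENEOUS PARTS: L := sum l; for c : subsets -> R put (c_L) S := cR (L - sum_{i in S} l i) (c S), likewise for F1, F2. Then kd x (c_L) S = cR (L - sum_S l) (kd x c S)
(hcR: cR μ (x i * r) = x i * cR (μ - l i) r; L - sum_{insert i S} l = L - sum_S l - l i), ω_L = ω (cR 0 1 = 1, additive maps map 0 to 0). So replacing η, θ by η_L, θ_L keeps the relations, and ξ S := cR (L - sum_S l - w) (ξ' S) satisfies α (ξ S) = c2 (L - sum_S l) (α (ξ' S)) (hα) = kd x θ_L S, sum x i ξ {i} = 0. Put ξ i := ξ {i}.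
NOT A BOUNDARY: suppose ξ {i} = kd x b {i} for all i. Then kd x (θ_L - α b) S = 0 for card S = 1, so by k2 (p = 2): θ_L S = α (b S) + kd x b2 S for card S = 2. Apply β: kd x η_L S = β (θ_L S) = β (kd x b2 S) = kd x (β b2) S (β α = 0) for card S = 2, so kd x (η_L - β b2) S = 0 for card S = 2; by k3: η_L S = β (b2 S) + kd x b3 S for card S = 3. Apply γ: kd x ω S =
γ (η_L S) = kd x (γ b3) S for card S = 3 (γ β = 0): kd x (ω - γ b3) S = 0 for card S = 3; by k4: ω U - γ (b3 U) = kd x b4 U = 0 (the sum over the empty complement). So γ (b3 U) = 1, against hu.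
-/

set_option autoImplicit false

namespace Pool.Agent.Flop

open Finset

variable {R F1 F2 : Type} [CommRing R] [AddCommGroup F1] [Module R F1] [AddCommGroup F2]
  [Module R F2]

private theorem kszc_deg {N : Type} [AddCommGroup N] [Module R N] (x : Fin 4 → R) (l : Fin 4 → ℚ)
    (c : ℚ → N →+ N) (hc : ∀ μ i z, c μ (x i • z) = x i • c (μ - l i) z) (L : ℚ)
    (f : Finset (Fin 4) → N) (S : Finset (Fin 4)) :
    kd x (fun T => c (L - ∑ i ∈ T, l i) (f T)) S = c (L - ∑ i ∈ S, l i) (kd x f S) := by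
  unfold kd
  rw [map_sum]
  refine Finset.sum_congr rfl fun i hi => ?_
  have hi' : i ∉ S := Finset.mem_compl.1 hi
  rw [map_zsmul, hc]
  show ksgn i S • x i • c (L - ∑ i ∈ insert i S, l i) (f (insert i S)) = _
  rw [Finset.sum_insert hi']
  congr 4
  ring

private theorem kszc_mem (x : Fin 4 → R) (γ : F1 →ₗ[R] R) (hx : ∀ i, ∃ z, γ z = x i)
    (ω : Finset (Fin 4) → R) (S : Finset (Fin 4)) : ∃ z, γ z = kd x ω S := by
  have h : kd x ω S ∈ LinearMap.range γ := by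
    unfold kd
    refine Submodule.sum_mem _ fun i _ => ?_
    obtain ⟨z, hz⟩ := hx i
    have h1 : x i • ω (insert i S) ∈ LinearMap.range γ := by
      refine ⟨ω (insert i S) • z, ?_⟩
      rw [map_smul, hz, smul_eq_mul, smul_eq_mul, mul_comm]
    exact zsmul_mem h1 _
  exact h

theorem koszul_chase (x : Fin 4 → R) (α : R →ₗ[R] F2) (β : F2 →ₗ[R] F1) (γ : F1 →ₗ[R] R)
    (h1 : ∀ z, γ z = 0 ↔ ∃ y, β y = z) (h2 : ∀ y, β y = 0 ↔ ∃ r, α r = y)
    (h3 : Function.Injective α) (hx : ∀ i, ∃ z, γ z = x i) (hu : ∀ z, γ z ≠ 1)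
    (k2 : KEx x F2 2) (k3 : KEx x F1 3) (k4 : KEx x R 4) (cR : ℚ → R →+ R) (c1 : ℚ → F1 →+ F1)
    (c2 : ℚ → F2 →+ F2) (l : Fin 4 → ℚ) (w : ℚ)
    (hcR : ∀ μ i r, cR μ (x i * r) = x i * cR (μ - l i) r)
    (hc1 : ∀ μ i z, c1 μ (x i • z) = x i • c1 (μ - l i) z)
    (hc2 : ∀ μ i y, c2 μ (x i • y) = x i • c2 (μ - l i) y)
    (hα : ∀ μ r, c2 μ (α r) = α (cR (μ - w) r)) (hβ : ∀ μ y, c1 μ (β y) = β (c2 μ y))
    (hγ : ∀ μ z, cR μ (γ z) = γ (c1 μ z)) (hone : cR 0 1 = 1) :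
    ∃ ξ : Fin 4 → R, ∑ i, x i * ξ i = 0 ∧ (∀ i, ∃ r, ξ i = cR (∑ j, l j - w - l i) r) ∧
      ¬ ∃ b : Finset (Fin 4) → R, ∀ i, ξ i = kd x b {i} := by
  classical
  obtain ⟨ω, hω⟩ : ∃ ω : Finset (Fin 4) → R, ω = fun T => if T = Finset.univ then 1 else 0 :=
    ⟨_, rfl⟩
  have hωu : ω Finset.univ = 1 := by rw [hω]; exact if_pos rfl
  have e0 : ∀ S, ∃ z, γ z = kd x ω S := fun S => kszc_mem x γ hx ω S
  choose η hη using e0
  have hηf : (fun T => γ (η T)) = kd x ω := funext hη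
  have e1 : ∀ S, ∃ y, β y = kd x η S := by
    intro S
    refine (h1 _).1 ?_
    rw [← kd_map x γ η S, hηf, kd_kd]
    rfl
  choose θ hθ using e1
  have hθf : (fun T => β (θ T)) = kd x η := funext hθ
  have e2 : ∀ S, ∃ r, α r = kd x θ S := by
    intro S
    refine (h2 _).1 ?_
    rw [← kd_map x β θ S, hθf, kd_kd]
    rfl
  choose ξ hξ using e2
  obtain ⟨L, hL⟩ : ∃ L : ℚ, L = ∑ j, l j := ⟨_, rfl⟩
  obtain ⟨ηL, hηL⟩ : ∃ f : Finset (Fin 4) → F1, f = fun T => c1 (L - ∑ i ∈ T, l i) (η T) :=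
    ⟨_, rfl⟩
  obtain ⟨θL, hθL⟩ : ∃ f : Finset (Fin 4) → F2, f = fun T => c2 (L - ∑ i ∈ T, l i) (θ T) :=
    ⟨_, rfl⟩
  obtain ⟨ξL, hξL⟩ : ∃ f : Finset (Fin 4) → R, f = fun T => cR (L - ∑ i ∈ T, l i - w) (ξ T) :=
    ⟨_, rfl⟩
  have hωL : (fun T => cR (L - ∑ i ∈ T, l i) (ω T)) = ω := by
    funext T
    by_cases hT : T = Finset.univ
    · subst hT
      rw [hωu, ← hL, sub_self, hone]
    · have hT0 : ω T = 0 := by rw [hω]; exact if_neg hT
      rw [hT0, map_zero]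
  have hcR' : ∀ μ i (r : R), cR μ (x i • r) = x i • cR (μ - l i) r := by
    intro μ i r
    rw [smul_eq_mul, smul_eq_mul]
    exact hcR μ i r
  -- relations for the homogeneous parts
  have r1 : ∀ S, γ (ηL S) = kd x ω S := by
    intro S
    have h3 := kszc_deg x l cR hcR' L ω S
    rw [hωL] at h3
    rw [hηL]
    show γ (c1 (L - ∑ i ∈ S, l i) (η S)) = kd x ω S
    rw [← hγ, hη]
    exact h3.symm
  have r2 : ∀ S, β (θL S) = kd x ηL S := by
    intro S
    rw [hθL, hηL, kszc_deg x l c1 hc1 L η S]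
    show β (c2 (L - ∑ i ∈ S, l i) (θ S)) = _
    rw [← hβ, hθ]
  have r3 : ∀ S, α (ξL S) = kd x θL S := by
    intro S
    rw [hξL, hθL, kszc_deg x l c2 hc2 L θ S]
    show α (cR (L - ∑ i ∈ S, l i - w) (ξ S)) = _
    rw [← hα, hξ]
  have r3f : (fun T => α (ξL T)) = kd x θL := funext r3
  have r4 : kd x ξL ∅ = 0 := by
    refine h3 ?_
    rw [← kd_map x α ξL ∅, r3f, kd_kd, map_zero]
    rfl
  refine ⟨fun i => ξL {i}, ?_, ?_, ?_⟩
  · rw [kd_empty] at r4
    rw [← r4]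
    exact Finset.sum_congr rfl fun i _ => by rw [smul_eq_mul]
  · intro i
    refine ⟨ξ {i}, ?_⟩
    rw [hξL]
    show cR (L - ∑ i ∈ {i}, l i - w) (ξ {i}) = _
    rw [Finset.sum_singleton, ← hL]
    congr 2
    ring
  · rintro ⟨b, hb⟩
    have hb' : ∀ i, ξL {i} = kd x b {i} := hb
    obtain ⟨b2, hb2⟩ := k2 (fun T => θL T - α (b T)) (by
      intro S hS
      obtain ⟨i, rfl⟩ := Finset.card_eq_one.1 (show S.card = 1 by omega)
      rw [kd_sub, kd_map x α b {i}, ← r3, hb' i, sub_self])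
    obtain ⟨b3, hb3⟩ := k3 (fun T => ηL T - β (b2 T)) (by
      intro S hS
      have hS2 : S.card = 2 := by omega
      have h4 := hb2 S hS2
      have h5 : θL S = α (b S) + kd x b2 S := by rw [← h4]; abel
      have h6 : β (α (b S)) = 0 := (h2 _).2 ⟨b S, rfl⟩
      rw [kd_sub, kd_map x β b2 S, ← r2, h5, map_add, h6, zero_add, sub_self])
    obtain ⟨b4, hb4⟩ := k4 (fun T => ω T - γ (b3 T)) (by
      intro S hS
      have hS3 : S.card = 3 := by omega
      have h4 := hb3 S hS3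
      have h5 : ηL S = β (b2 S) + kd x b3 S := by rw [← h4]; abel
      have h6 : γ (β (b2 S)) = 0 := (h1 _).2 ⟨b2 S, rfl⟩
      rw [kd_sub, kd_map x γ b3 S, ← r1, h5, map_add, h6, zero_add, sub_self])
    have h7 := hb4 Finset.univ (by simp)
    have h8 : kd x b4 Finset.univ = 0 := by
      unfold kd
      rw [Finset.compl_univ, Finset.sum_empty]
    have h9 : ω Finset.univ - γ (b3 Finset.univ) = 0 := h7.trans h8
    rw [hωu] at h9
    exact hu _ (sub_eq_zero.1 h9).symm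

end Pool.Agent.Flop
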