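import Pool.Agent.Lib.FlA.Bs1
import Pool.Agent.Lib.FlA.RcB

/-!
# Yl: normal form of the elements of the Jacobi ideal (y-lemma)

`y_lemma`: linear compactness (`mem_of_closure` of LinComp, `LCFil.pi`, `lcF`; see the proof of exists_of_mem_JJ in Pool/Agent/Lib/MP_03045c_ag/JJ.lean). B = (E -> Hat Q) x (E -> Hat Q) (filtration Fil n on all
components; LCFil for a product: take (E + E) -> Hat Q i.e. functions on `E ⊕ E`), T (p, z) = sum_b p b * cyc b W + sum_c z c * arr c, A = the closed subspace of the (p, z) with p b e_{tgt b} = p b, p b = 0 if src b <> j, z c in jac W,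
z c e_{src c} = z c, z c = 0 if tgt c <> j; target W0 = 0 (closed). T is linear, continuous. It is enough that f is, modulo Fil n, in T(A): f is mod Fil n in the span of p * cyc a W * q; multiply by e_j on the right:
p * cyc a W * q * e_j; write q e_j = q0 + sum_c rc c (q e_j) * arr c, where q0 = c0 e_j is the constant part (q e_j - q0 in Fil 1, sum_rc); p * cyc a W * e_j = p e_{tgt a} * cyc a W if src a = j, else 0 (cyc_mul_idem, idem_mul_cyc);
z c = p * cyc a W * rc c (q e_j), zero unless tgt c = j (rc_mul_idem). `y_lemma_mm`: the same with p b in Fil 1 (closed condition): generators with p in Fil 1 or q in Fil 1 (then q0 = 0).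
`mm_le`, `mm_left`, `mm_right`, `mm_ideal`: by closure from generators (for p * f with f in jac W, p in Fil 1: f mod Fil n is a sum of p' * cyc a W * q').
`mm_gen`: converse of y_lemma_mm: sum_b p b * cyc b W + sum_c z c * arr c is in MM W.
-/

set_option autoImplicit false

namespace Pool.Agent.Flop

open Finset

variable {V E : Type} [Fintype V] [DecidableEq V] [DecidableEq E] {Q : Qv V E}

private noncomputable def ylT [Fintype E] (W : Hat Q) : (E ⊕ E → Hat Q) →ₗ[ℂ] Hat Q where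
  toFun x := ∑ b, x (Sum.inl b) * cyc b W + ∑ c, x (Sum.inr c) * arr Q c
  map_add' x y := by
    simp only [Pi.add_apply, add_mul, Finset.sum_add_distrib]
    abel
  map_smul' r x := by
    simp only [Pi.smul_apply, smul_mul_assoc, RingHom.id_apply, smul_add, Finset.smul_sum]

private theorem ylT_apply [Fintype E] (W : Hat Q) (x : E ⊕ E → Hat Q) :
    ylT W x = ∑ b, x (Sum.inl b) * cyc b W + ∑ c, x (Sum.inr c) * arr Q c := rfl

private def ylA (W : Hat Q) (j : V) (U : Submodule ℂ (Hat Q)) :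
    Submodule ℂ (E ⊕ E → Hat Q) where
  carrier := {x | (∀ b, x (Sum.inl b) ∈ U ∧ x (Sum.inl b) * idem Q (Q.tgt b) = x (Sum.inl b) ∧
      (Q.src b ≠ j → x (Sum.inl b) = 0)) ∧
    (∀ c, x (Sum.inr c) ∈ jac W ∧ x (Sum.inr c) * idem Q (Q.src c) = x (Sum.inr c) ∧
      (Q.tgt c ≠ j → x (Sum.inr c) = 0))}
  add_mem' := by
    rintro x y ⟨hx1, hx2⟩ ⟨hy1, hy2⟩
    refine ⟨fun b => ⟨U.add_mem (hx1 b).1 (hy1 b).1, ?_, fun h => ?_⟩,
      fun c => ⟨(jac W).add_mem (hx2 c).1 (hy2 c).1, ?_, fun h => ?_⟩⟩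
    · rw [Pi.add_apply, add_mul, (hx1 b).2.1, (hy1 b).2.1]
    · rw [Pi.add_apply, (hx1 b).2.2 h, (hy1 b).2.2 h, add_zero]
    · rw [Pi.add_apply, add_mul, (hx2 c).2.1, (hy2 c).2.1]
    · rw [Pi.add_apply, (hx2 c).2.2 h, (hy2 c).2.2 h, add_zero]
  zero_mem' := by
    refine ⟨fun b => ⟨U.zero_mem, ?_, fun _ => rfl⟩, fun c => ⟨(jac W).zero_mem, ?_, fun _ => rfl⟩⟩
    · rw [Pi.zero_apply, zero_mul]
    · rw [Pi.zero_apply, zero_mul]
  smul_mem' := by
    rintro r x ⟨hx1, hx2⟩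
    refine ⟨fun b => ⟨U.smul_mem r (hx1 b).1, ?_, fun h => ?_⟩,
      fun c => ⟨(jac W).smul_mem r (hx2 c).1, ?_, fun h => ?_⟩⟩
    · rw [Pi.smul_apply, smul_mul_assoc, (hx1 b).2.1]
    · rw [Pi.smul_apply, (hx1 b).2.2 h, smul_zero]
    · rw [Pi.smul_apply, smul_mul_assoc, (hx2 c).2.1]
    · rw [Pi.smul_apply, (hx2 c).2.2 h, smul_zero]

private theorem yl_idem_closed {x : Hat Q} {v : V}
    (h : ∀ n, ∃ y : Hat Q, y * idem Q v = y ∧ x - y ∈ Fil Q n) : x * idem Q v = x := by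
  have h1 : x * idem Q v - x = 0 := by
    refine Fil_sep fun n => ?_
    obtain ⟨y, hy, hxy⟩ := h n
    have e : x * idem Q v - x = (x - y) * idem Q v - (x - y) := by
      rw [sub_mul, hy]
      abel
    rw [e]
    exact Submodule.sub_mem _ (mul_mem_Fil_right _ hxy) hxy
  exact sub_eq_zero.1 h1

private theorem ylA_closed [Finite E] (W : Hat Q) (j : V) (U : Submodule ℂ (Hat Q)) (hU : IsCl U)
    (x : E ⊕ E → Hat Q)
    (hx : ∀ n, ∃ y ∈ ylA W j U, x - y ∈ Submodule.pi (Set.univ : Set (E ⊕ E)) fun _ => Fil Q n) :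
    x ∈ ylA W j U := by
  have hx' : ∀ n, ∃ y ∈ ylA W j U, ∀ s, x s - y s ∈ Fil Q n := by
    intro n
    obtain ⟨y, hy, hxy⟩ := hx n
    rw [Submodule.mem_pi] at hxy
    exact ⟨y, hy, fun s => hxy s (Set.mem_univ s)⟩
  refine ⟨fun b => ⟨?_, ?_, fun h => ?_⟩, fun c => ⟨?_, ?_, fun h => ?_⟩⟩
  · refine hU _ fun n => ?_
    obtain ⟨y, hy, hxy⟩ := hx' n
    exact ⟨_, (hy.1 b).1, hxy _⟩
  · refine yl_idem_closed fun n => ?_
    obtain ⟨y, hy, hxy⟩ := hx' n
    exact ⟨_, (hy.1 b).2.1, hxy _⟩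
  · refine Fil_sep fun n => ?_
    obtain ⟨y, hy, hxy⟩ := hx' n
    have := hxy (Sum.inl b)
    rwa [(hy.1 b).2.2 h, sub_zero] at this
  · refine isCl_jac W _ fun n => ?_
    obtain ⟨y, hy, hxy⟩ := hx' n
    exact ⟨_, (hy.2 c).1, hxy _⟩
  · refine yl_idem_closed fun n => ?_
    obtain ⟨y, hy, hxy⟩ := hx' n
    exact ⟨_, (hy.2 c).2.1, hxy _⟩
  · refine Fil_sep fun n => ?_
    obtain ⟨y, hy, hxy⟩ := hx' n
    have := hxy (Sum.inr c)
    rwa [(hy.2 c).2.2 h, sub_zero] at this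

private theorem yl_const (q : Hat Q) (j : V) :
    q * idem Q j - q.cf j j [] • idem Q j ∈ Fil Q 1 := by
  rw [mem_Fil]
  intro i k l hl
  have hl0 : l = [] := List.length_eq_zero_iff.1 (by omega)
  subst hl0
  rw [Hat.cf_sub, Hat.cf_smul, cf_mul_idem, cf_idem]
  by_cases hk : k = j
  · subst hk
    by_cases hi : i = k
    · subst hi
      simp
    · rw [Hat.cf_nil q hi]
      simp [hi, Ne.symm hi]
  · simp [hk, Ne.symm hk]

private theorem yl_gen [Fintype E] (W : Hat Q) (j : V) (U : Submodule ℂ (Hat Q)) (a : E)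
    (p q : Hat Q) (hpq : q.cf j j [] • (p * idem Q (Q.tgt a)) ∈ U) :
    p * cyc a W * q * idem Q j ∈ (ylA W j U).map (ylT W) := by
  set q1 : Hat Q := q * idem Q j - q.cf j j [] • idem Q j with hq1
  have hq1F : q1 ∈ Fil Q 1 := yl_const q j
  have hjj : idem Q j * idem Q j = idem Q j := by rw [idem_mul_idem, if_pos rfl]
  have hq1j : q1 * idem Q j = q1 := by
    rw [hq1, sub_mul, mul_assoc, hjj, smul_mul_assoc, hjj]
  have hq : q * idem Q j = q.cf j j [] • idem Q j + q1 := by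
    rw [hq1]
    abel
  refine Submodule.mem_map.2 ⟨Sum.elim
    (fun b => if b = a ∧ Q.src a = j then q.cf j j [] • (p * idem Q (Q.tgt a)) else 0)
    (fun c => p * cyc a W * rc c q1), ⟨fun b => ?_, fun c => ?_⟩, ?_⟩
  · rw [Sum.elim_inl]
    by_cases h : b = a ∧ Q.src a = j
    · rw [if_pos h]
      refine ⟨hpq, ?_, fun hne => ?_⟩
      · rw [h.1, smul_mul_assoc, mul_assoc, idem_mul_idem, if_pos rfl]
      · exact absurd (by rw [h.1]; exact h.2) hne
    · rw [if_neg h]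
      exact ⟨U.zero_mem, zero_mul _, fun _ => rfl⟩
  · rw [Sum.elim_inr]
    refine ⟨jac_mr _ (jac_ml _ (cyc_jac W a)), ?_, fun hne => ?_⟩
    · rw [mul_assoc, rc_idem]
    · have h1 : rc c (q1 * idem Q j) = 0 := by
        rw [rc_mul_idem, if_neg hne]
      rw [hq1j] at h1
      rw [h1, mul_zero]
  · rw [ylT_apply]
    have e1 : ∑ b, (Sum.elim
        (fun b => if b = a ∧ Q.src a = j then q.cf j j [] • (p * idem Q (Q.tgt a)) else 0)
        (fun c => p * cyc a W * rc c q1) (Sum.inl b) : Hat Q) * cyc b W =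
        p * cyc a W * (q.cf j j [] • idem Q j) := by
      rw [Finset.sum_eq_single a]
      · rw [Sum.elim_inl]
        by_cases h : Q.src a = j
        · rw [if_pos ⟨rfl, h⟩, smul_mul_assoc, mul_assoc, idem_mul_cyc, mul_smul_comm, mul_assoc,
            ← h, cyc_mul_idem]
        · rw [if_neg (fun hh => h hh.2), zero_mul, mul_smul_comm, mul_assoc, ← cyc_mul_idem a W,
            mul_assoc, idem_mul_idem, if_neg h, mul_zero, mul_zero, smul_zero]
      · intro b _ hb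
        rw [Sum.elim_inl, if_neg (fun hh => hb hh.1), zero_mul]
      · intro h
        exact (h (Finset.mem_univ a)).elim
    have e2 : ∑ c, (Sum.elim
        (fun b => if b = a ∧ Q.src a = j then q.cf j j [] • (p * idem Q (Q.tgt a)) else 0)
        (fun c => p * cyc a W * rc c q1) (Sum.inr c) : Hat Q) * arr Q c =
        p * cyc a W * q1 := by
      simp only [Sum.elim_inr]
      conv_rhs => rw [sum_rc hq1F, Finset.mul_sum]
      exact Finset.sum_congr rfl fun c _ => by rw [mul_assoc (p * cyc a W)]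
    rw [e1, e2, ← mul_add, ← hq, mul_assoc (p * cyc a W)]

private theorem yl_core [Fintype E] {W f : Hat Q} {j : V} (U : Submodule ℂ (Hat Q)) (hU : IsCl U)
    (G : Set (Hat Q)) (hG : ∀ x ∈ G, ∃ (a : E) (p q : Hat Q), x = p * cyc a W * q ∧
      q.cf j j [] • (p * idem Q (Q.tgt a)) ∈ U)
    (hf : f ∈ cl (Submodule.span ℂ G)) (hj : f * idem Q j = f) :
    ∃ p z : E → Hat Q, (∀ b, p b ∈ U) ∧ (∀ b, p b * idem Q (Q.tgt b) = p b) ∧
      (∀ b, Q.src b ≠ j → p b = 0) ∧
      (∀ c, z c ∈ jac W) ∧ (∀ c, z c * idem Q (Q.src c) = z c) ∧ (∀ c, Q.tgt c ≠ j → z c = 0) ∧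
      f = ∑ b, p b * cyc b W + ∑ c, z c * arr Q c := by
  have hspan : ∀ s ∈ Submodule.span ℂ G, s * idem Q j ∈ (ylA W j U).map (ylT W) := by
    intro s hs
    refine Submodule.span_induction (p := fun s _ => s * idem Q j ∈ (ylA W j U).map (ylT W))
      ?_ ?_ ?_ ?_ hs
    · intro x hx
      obtain ⟨a, p, q, rfl, hpq⟩ := hG x hx
      exact yl_gen W j U a p q hpq
    · rw [zero_mul]
      exact Submodule.zero_mem _
    · intro x y _ _ hx hy
      rw [add_mul]
      exact Submodule.add_mem _ hx hy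
    · intro r x _ hx
      rw [smul_mul_assoc]
      exact Submodule.smul_mem _ r hx
  obtain ⟨x, hxA, hx⟩ := mem_of_closure (LCFil.pi (ι := E ⊕ E) (lcF (Q := Q))) (lcF (Q := Q))
    (ylT W)
    (by
      intro n x hx
      rw [Submodule.mem_pi] at hx
      rw [ylT_apply]
      refine Submodule.add_mem _ (Submodule.sum_mem _ fun b _ => ?_)
        (Submodule.sum_mem _ fun c _ => ?_)
      · exact mul_mem_Fil_right _ (hx _ (Set.mem_univ _))
      · exact mul_mem_Fil_right _ (hx _ (Set.mem_univ _)))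
    (ylA W j U) (ylA_closed W j U hU) (⊥ : Submodule ℂ (Hat Q))
    (by
      intro x hx
      rw [Submodule.mem_bot]
      refine Fil_sep fun n => ?_
      obtain ⟨y, hy, hxy⟩ := hx n
      rw [Submodule.mem_bot] at hy
      rwa [hy, sub_zero] at hxy)
    f
    (by
      intro n
      obtain ⟨s, hs, hfs⟩ := mem_cl.1 hf n
      obtain ⟨x, hx, hxs⟩ := Submodule.mem_map.1 (hspan s hs)
      refine ⟨x, hx, 0, Submodule.zero_mem _, ?_⟩
      have e : f - ylT W x - 0 = (f - s) * idem Q j := by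
        rw [sub_zero, hxs, sub_mul, hj]
      rw [e]
      exact mul_mem_Fil_right _ hfs)
  rw [Submodule.mem_bot, sub_eq_zero, ylT_apply] at hx
  exact ⟨fun b => x (Sum.inl b), fun c => x (Sum.inr c), fun b => (hxA.1 b).1,
    fun b => (hxA.1 b).2.1, fun b => (hxA.1 b).2.2, fun c => (hxA.2 c).1, fun c => (hxA.2 c).2.1,
    fun c => (hxA.2 c).2.2, hx⟩

theorem y_lemma [Fintype E] {W f : Hat Q} {j : V} (hf : f ∈ jac W) (hj : f * idem Q j = f) :
    ∃ p z : E → Hat Q, (∀ b, p b * idem Q (Q.tgt b) = p b) ∧ (∀ b, Q.src b ≠ j → p b = 0) ∧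
      (∀ c, z c ∈ jac W) ∧ (∀ c, z c * idem Q (Q.src c) = z c) ∧ (∀ c, Q.tgt c ≠ j → z c = 0) ∧
      f = ∑ b, p b * cyc b W + ∑ c, z c * arr Q c := by
  obtain ⟨p, z, _, h⟩ := yl_core (W := W) (f := f) (j := j) ⊤ (fun _ _ => Submodule.mem_top)
    {x | ∃ (a : E) (p q : Hat Q), x = p * cyc a W * q}
    (by
      rintro x ⟨a, p, q, rfl⟩
      exact ⟨a, p, q, rfl, Submodule.mem_top⟩) hf hj
  exact ⟨p, z, h⟩

theorem y_lemma_mm [Fintype E] {W f : Hat Q} {j : V} (hf : f ∈ MM W) (hj : f * idem Q j = f) :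
    ∃ p z : E → Hat Q, (∀ b, p b ∈ Fil Q 1) ∧ (∀ b, p b * idem Q (Q.tgt b) = p b) ∧
      (∀ b, Q.src b ≠ j → p b = 0) ∧
      (∀ c, z c ∈ jac W) ∧ (∀ c, z c * idem Q (Q.src c) = z c) ∧ (∀ c, Q.tgt c ≠ j → z c = 0) ∧
      f = ∑ b, p b * cyc b W + ∑ c, z c * arr Q c := by
  refine yl_core (W := W) (f := f) (j := j) (Fil Q 1) (isCl_Fil 1)
    {x | ∃ (a : E) (p q : Hat Q), x = p * cyc a W * q ∧ (p ∈ Fil Q 1 ∨ q ∈ Fil Q 1)}
    ?_ hf hj
  rintro x ⟨a, p, q, rfl, hpq⟩
  refine ⟨a, p, q, rfl, ?_⟩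
  rcases hpq with hp | hq
  · exact Submodule.smul_mem _ _ (mul_mem_Fil_right _ hp)
  · have h0 : q.cf j j [] = 0 := hq j j [] (by simp)
    rw [h0, zero_smul]
    exact Submodule.zero_mem _

theorem isCl_MM (W : Hat Q) : IsCl (MM W) := isCl_cl _

theorem mm_le (W : Hat Q) : MM W ≤ jac W := by
  refine cl_mono (Submodule.span_mono ?_)
  rintro x ⟨a, p, q, h, _⟩
  exact ⟨a, p, q, h⟩

private theorem yl_cl_left {S T : Submodule ℂ (Hat Q)} (z : Hat Q) (h : ∀ s ∈ S, z * s ∈ T)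
    {f : Hat Q} (hf : f ∈ cl S) : z * f ∈ cl T := by
  rw [mem_cl] at hf ⊢
  intro n
  obtain ⟨s, hs, hfs⟩ := hf n
  refine ⟨z * s, h s hs, ?_⟩
  rw [← mul_sub]
  exact mul_mem_Fil_left _ hfs

private theorem yl_cl_right {S T : Submodule ℂ (Hat Q)} (z : Hat Q) (h : ∀ s ∈ S, s * z ∈ T)
    {f : Hat Q} (hf : f ∈ cl S) : f * z ∈ cl T := by
  rw [mem_cl] at hf ⊢
  intro n
  obtain ⟨s, hs, hfs⟩ := hf n
  refine ⟨s * z, h s hs, ?_⟩
  rw [← sub_mul]
  exact mul_mem_Fil_right _ hfs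

omit [DecidableEq E] in
private theorem yl_span_left {G H : Set (Hat Q)} (z : Hat Q) (h : ∀ x ∈ G, z * x ∈ H) :
    ∀ s ∈ Submodule.span ℂ G, z * s ∈ Submodule.span ℂ H := by
  intro s hs
  refine Submodule.span_induction (p := fun s _ => z * s ∈ Submodule.span ℂ H) ?_ ?_ ?_ ?_ hs
  · intro x hx
    exact Submodule.subset_span (h x hx)
  · rw [mul_zero]
    exact Submodule.zero_mem _
  · intro x y _ _ hx hy
    rw [mul_add]
    exact Submodule.add_mem _ hx hy
  · intro r x _ hx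
    rw [mul_smul_comm]
    exact Submodule.smul_mem _ r hx

omit [DecidableEq E] in
private theorem yl_span_right {G H : Set (Hat Q)} (z : Hat Q) (h : ∀ x ∈ G, x * z ∈ H) :
    ∀ s ∈ Submodule.span ℂ G, s * z ∈ Submodule.span ℂ H := by
  intro s hs
  refine Submodule.span_induction (p := fun s _ => s * z ∈ Submodule.span ℂ H) ?_ ?_ ?_ ?_ hs
  · intro x hx
    exact Submodule.subset_span (h x hx)
  · rw [zero_mul]
    exact Submodule.zero_mem _
  · intro x y _ _ hx hy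
    rw [add_mul]
    exact Submodule.add_mem _ hx hy
  · intro r x _ hx
    rw [smul_mul_assoc]
    exact Submodule.smul_mem _ r hx

theorem mm_left {W f : Hat Q} (z : Hat Q) (h : f ∈ MM W) : z * f ∈ MM W := by
  refine yl_cl_left z (yl_span_left z ?_) h
  rintro x ⟨a, p, q, rfl, hpq⟩
  refine ⟨a, z * p, q, by simp only [mul_assoc], ?_⟩
  exact hpq.imp_left fun hp => mul_mem_Fil_left z hp

theorem mm_right {W f : Hat Q} (z : Hat Q) (h : f ∈ MM W) : f * z ∈ MM W := by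
  refine yl_cl_right z (yl_span_right z ?_) h
  rintro x ⟨a, p, q, rfl, hpq⟩
  refine ⟨a, p, q * z, by simp only [mul_assoc], ?_⟩
  exact hpq.imp_right fun hq => mul_mem_Fil_right z hq

theorem mm_of_left {W f p : Hat Q} (hp : p ∈ Fil Q 1) (h : f ∈ jac W) : p * f ∈ MM W := by
  refine yl_cl_left p (yl_span_left p ?_) h
  rintro x ⟨a, p', q, rfl⟩
  exact ⟨a, p * p', q, by simp only [mul_assoc], Or.inl (mul_mem_Fil_right p' hp)⟩

theorem mm_of_right {W f q : Hat Q} (hq : q ∈ Fil Q 1) (h : f ∈ jac W) : f * q ∈ MM W := by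
  refine yl_cl_right q (yl_span_right q ?_) h
  rintro x ⟨a, p, q', rfl⟩
  exact ⟨a, p, q' * q, by simp only [mul_assoc], Or.inr (mul_mem_Fil_left q' hq)⟩

end Pool.Agent.Flop
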