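import Pool.Agent.Lib.FlA.Krl
import Pool.Agent.Lib.FlA.Yl
import Pool.Agent.Lib.FlA.RcB
import Pool.Agent.Lib.FlA.Conn
import Pool.Agent.Lib.FlA.CycId

/-!
# KszS: the exact sequence at the vertex o

Notation e = π(idem o). r ↦ r • e identifies R with e A e (corner; injective by tf and e <> 0). α r := (if src a = o then r • π (arr a) else 0)_a: in F2 (e * π(arr a) = π(arr a) for src a = o). β y := (if tgt b = o then sum_a y a * π (rc b (cyc a W)) else 0)_b: in F1: e (..) = .. and (..) * π(e_{src b}) = .. (rc_idem). γ z := the r with r • e = sum_b z b * π (arr b)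
(in e A e: z b = 0 unless tgt b = o; corner gives r; unique): additive, R-linear by uniqueness. `γ β = 0`: sum_b (sum_a y a π (rc b (cyc a W))) π (arr b) = sum_a y a π (cyc a W) = 0: sum over b with tgt b = o of rc b (cyc a W) * arr b = cyc a W for src a = o (sum_rc, cyc a W in Fil 1, and rc b (cyc a W) = 0 for tgt b <> src a = o: rc_mul_idem with cyc_mul_idem),
y a = 0 for src a <> o. `ker γ <= im β`: γ z = 0: lift z b = π (z' b), z' b = e_o z' b e_{src b}, = 0 for tgt b <> o: sum_b z' b * arr b in jac W, and times e_o on the right is itself. y_lemma (j = o): = sum_a p a * cyc a W + sum_c z'' c * arr c, z'' in jac W. rc b of both sides (rc_mul_arr, rc_mul): z' b e_{src b} = sum_a p a * rc b (cyc a W) + z'' b e_{src b}: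
z b = sum_a π(p a) π (rc b (cyc a W)): y a := e * π (p a) (p a e_{tgt a} = p a, p a = 0 for src a <> o); β y = z. `ker β <= im α`: lift y a = π (y' a) (y' a = e_o y' a e_{tgt a}, 0 for src a <> o); sum_a y' a * cyc a W =: g; rc b g = sum_a y' a * rc b (cyc a W) in jac W for tgt b = o, and g e_o = g so rc b g = 0 for tgt b <> o; g = sum_b rc b g * arr b (sum_rc).
h.syz: x with y' a - x * arr a in jac W for src a = o; multiply by e_o: x := e_o x e_o, π x = r • e: y a = r • π (arr a). `β α = 0`: sum_{src a = o} r • π (arr a * rc b (cyc a W)) = r • π(cyc b W) = 0 (cyc_eq_sum_rc of CycId is not imported: prove with rc b applied to cyc_identity, or import CycId). α injective: exists_out o: arrow a with src a = o, π (arr a) <> 0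
(arr a not in Fil 2: arr_not_mem_Fil, ker_Fil), tf. Image of γ: for r in m: r • e = π f, f = e_o f e_o in Fil 1 (fil_of_MA), f = sum_b rc b f * arr b: z b := π (rc b f) (in F1: e_o rc b f = rc b f, rc_idem, rc b f = 0 for tgt b <> o). γ z <> 1: e = sum_b z b π(arr b) = π (element of Fil 1) contradicts idem_not (lift z b).
-/

set_option autoImplicit false

namespace Pool.Agent.Flop

open Finset

variable {V E : Type} [Fintype V] [DecidableEq V] [DecidableEq E] [Fintype E] {Q : Qv V E}
variable {R A : Type} [CommRing R] [IsLocalRing R] [IsNoetherianRing R] [Algebra ℂ R] [Ring A]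
  [Algebra ℂ A] [Algebra R A] [IsScalarTower ℂ R A] {o : V} {W : Hat Q} {π : Hat Q →ₐ[ℂ] A}

private theorem ksz_e_ne (h : Mdl R o W π) : π (idem Q o) ≠ 0 := by
  have h1 := h.idem_not (Submodule.zero_mem (Fil Q 1)) o
  rw [map_zero] at h1
  exact h1.symm

private theorem ksz_inj (h : Mdl R o W π) {r s : R}
    (hrs : r • π (idem Q o) = s • π (idem Q o)) : r = s := by
  have h1 : (r - s) • π (idem Q o) = 0 := by rw [sub_smul, hrs, sub_self]
  rcases h.tf _ _ h1 with h2 | h2
  · exact sub_eq_zero.1 h2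
  · exact absurd h2 (ksz_e_ne h)

private theorem ksz_cyc (h : Mdl R o W π) (a : E) : π (cyc a W) = 0 :=
  (h.ker _).2 (cyc_jac W a)

private theorem ksz_cycF (h : Mdl R o W π) (a : E) : cyc a W ∈ Fil Q 1 :=
  cyc_mem_Fil a (Fil_anti (by norm_num) h.pot)

private theorem ksz_ee : π (idem Q o) * π (idem Q o) = π (idem Q o) := by
  rw [← map_mul, idem_mul_idem, if_pos rfl]

private theorem ksz_ea {a : E} (ha : Q.src a = o) : π (idem Q o) * π (arr Q a) = π (arr Q a) := by
  rw [← map_mul, ← ha, idem_mul_arr]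

private theorem ksz_ae {b : E} (hb : Q.tgt b = o) : π (arr Q b) * π (idem Q o) = π (arr Q b) := by
  rw [← map_mul, ← hb, arr_mul_idem]

private theorem ksz_F2e (y : F2 R o π) (a : E) :
    π (idem Q o) * (y : E → A) a = (y : E → A) a := by
  have h1 := (y.2 a).1
  calc π (idem Q o) * (y : E → A) a
      = π (idem Q o) * (π (idem Q o) * (y : E → A) a * π (idem Q (Q.tgt a))) := by rw [h1]
    _ = (π (idem Q o) * π (idem Q o)) * (y : E → A) a * π (idem Q (Q.tgt a)) := by
        simp only [mul_assoc]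
    _ = _ := by rw [ksz_ee, h1]

private theorem ksz_F1e (y : F1 R o π) (a : E) :
    π (idem Q o) * (y : E → A) a = (y : E → A) a := by
  have h1 := (y.2 a).1
  calc π (idem Q o) * (y : E → A) a
      = π (idem Q o) * (π (idem Q o) * (y : E → A) a * π (idem Q (Q.src a))) := by rw [h1]
    _ = (π (idem Q o) * π (idem Q o)) * (y : E → A) a * π (idem Q (Q.src a)) := by
        simp only [mul_assoc]
    _ = _ := by rw [ksz_ee, h1]

private noncomputable def kszα : R →ₗ[R] F2 R o π where
  toFun r := ⟨fun a => if Q.src a = o then r • π (arr Q a) else 0, by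
    intro a
    beta_reduce
    refine ⟨?_, fun hne => if_neg hne⟩
    by_cases ha : Q.src a = o
    · rw [if_pos ha, mul_smul_comm, smul_mul_assoc, ksz_ea ha, ← map_mul, arr_mul_idem]
    · rw [if_neg ha, mul_zero, zero_mul]⟩
  map_add' r s := by
    refine Subtype.ext (funext fun a => ?_)
    change (if Q.src a = o then (r + s) • π (arr Q a) else 0) =
      (if Q.src a = o then r • π (arr Q a) else 0) + (if Q.src a = o then s • π (arr Q a) else 0)
    split_ifs
    · rw [add_smul]
    · rw [add_zero]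
  map_smul' r s := by
    refine Subtype.ext (funext fun a => ?_)
    change (if Q.src a = o then (r * s) • π (arr Q a) else 0) =
      r • (if Q.src a = o then s • π (arr Q a) else 0)
    split_ifs
    · rw [mul_smul]
    · rw [smul_zero]

private theorem kszα_apply (r : R) (a : E) : ((kszα (π := π) (o := o) r : F2 R o π) : E → A) a =
    if Q.src a = o then r • π (arr Q a) else 0 := rfl

private noncomputable def kszβ (W : Hat Q) : F2 R o π →ₗ[R] F1 R o π where
  toFun y := ⟨fun b => if Q.tgt b = o then ∑ a, (y : E → A) a * π (rc b (cyc a W)) else 0, by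
    intro b
    beta_reduce
    refine ⟨?_, fun hne => if_neg hne⟩
    by_cases hb : Q.tgt b = o
    · rw [if_pos hb, Finset.mul_sum, Finset.sum_mul]
      refine Finset.sum_congr rfl fun a _ => ?_
      rw [← mul_assoc, ksz_F2e, mul_assoc, ← map_mul, rc_idem]
    · rw [if_neg hb, mul_zero, zero_mul]⟩
  map_add' x y := by
    refine Subtype.ext (funext fun b => ?_)
    change (if Q.tgt b = o then ∑ a, ((x : E → A) a + (y : E → A) a) * π (rc b (cyc a W)) else 0) =
      (if Q.tgt b = o then ∑ a, (x : E → A) a * π (rc b (cyc a W)) else 0) +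
      (if Q.tgt b = o then ∑ a, (y : E → A) a * π (rc b (cyc a W)) else 0)
    split_ifs
    · rw [← Finset.sum_add_distrib]
      exact Finset.sum_congr rfl fun a _ => add_mul _ _ _
    · rw [add_zero]
  map_smul' r x := by
    refine Subtype.ext (funext fun b => ?_)
    change (if Q.tgt b = o then ∑ a, (r • (x : E → A) a) * π (rc b (cyc a W)) else 0) =
      r • (if Q.tgt b = o then ∑ a, (x : E → A) a * π (rc b (cyc a W)) else 0)
    split_ifs
    · rw [Finset.smul_sum]
      exact Finset.sum_congr rfl fun a _ => smul_mul_assoc _ _ _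
    · rw [smul_zero]

private theorem kszβ_apply (W : Hat Q) (y : F2 R o π) (b : E) :
    ((kszβ W y : F1 R o π) : E → A) b =
    if Q.tgt b = o then ∑ a, (y : E → A) a * π (rc b (cyc a W)) else 0 := rfl

private theorem ksz_corner (h : Mdl R o W π) (z : F1 R o π) :
    ∃ r : R, r • π (idem Q o) = ∑ b, (z : E → A) b * π (arr Q b) := by
  obtain ⟨r, hr⟩ := h.corner (∑ b, (z : E → A) b * π (arr Q b))
  refine ⟨r, ?_⟩
  rw [← hr, Finset.mul_sum, Finset.sum_mul]
  refine Finset.sum_congr rfl fun b _ => ?_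
  rw [← mul_assoc, ksz_F1e]
  by_cases hb : Q.tgt b = o
  · rw [mul_assoc, ksz_ae hb]
  · rw [(z.2 b).2 hb, zero_mul, zero_mul]

private theorem ksz_γ (h : Mdl R o W π) : ∃ γ : F1 R o π →ₗ[R] R,
    ∀ z, γ z • π (idem Q o) = ∑ b, (z : E → A) b * π (arr Q b) := by
  choose g hg using ksz_corner h
  refine ⟨{ toFun := g, map_add' := fun x y => ?_, map_smul' := fun r x => ?_ }, hg⟩
  · refine ksz_inj h ?_
    rw [add_smul, hg, hg, hg, ← Finset.sum_add_distrib]
    exact Finset.sum_congr rfl fun b _ => add_mul _ _ _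
  · refine ksz_inj h ?_
    rw [RingHom.id_apply, smul_eq_mul, mul_smul, hg, hg, Finset.smul_sum]
    exact Finset.sum_congr rfl fun b _ => smul_mul_assoc _ _ _

private theorem ksz_rc0 {a b : E} (hab : Q.tgt b ≠ Q.src a) : rc b (cyc a W) = 0 := by
  rw [← cyc_mul_idem, rc_mul_idem, if_neg hab]

private theorem ksz_γβ (h : Mdl R o W π) (y : F2 R o π) :
    ∑ b, ((kszβ W y : F1 R o π) : E → A) b * π (arr Q b) = 0 := by
  have h1 : ∀ b, ((kszβ W y : F1 R o π) : E → A) b * π (arr Q b) =
      ∑ a, (y : E → A) a * π (rc b (cyc a W) * arr Q b) := by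
    intro b
    rw [kszβ_apply]
    by_cases hb : Q.tgt b = o
    · rw [if_pos hb, Finset.sum_mul]
      exact Finset.sum_congr rfl fun a _ => by rw [mul_assoc, map_mul]
    · rw [if_neg hb, zero_mul]
      refine (Finset.sum_eq_zero fun a _ => ?_).symm
      by_cases ha : Q.src a = o
      · rw [ksz_rc0 (by rw [ha]; exact hb), zero_mul, map_zero, mul_zero]
      · rw [(y.2 a).2 ha, zero_mul]
  rw [Finset.sum_congr rfl fun b _ => h1 b, Finset.sum_comm]
  refine Finset.sum_eq_zero fun a _ => ?_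
  rw [← Finset.mul_sum, ← map_sum, ← sum_rc (ksz_cycF h a), ksz_cyc h, mul_zero]

private theorem ksz_kerγ (h : Mdl R o W π) (z : F1 R o π)
    (hz : ∑ b, (z : E → A) b * π (arr Q b) = 0) : ∃ y : F2 R o π, kszβ W y = z := by
  choose z0 hz0 using fun b => h.surj ((z : E → A) b)
  set z' : E → Hat Q := fun b =>
    if Q.tgt b = o then idem Q o * z0 b * idem Q (Q.src b) else 0 with hz'
  have hπz : ∀ b, π (z' b) = (z : E → A) b := by
    intro b
    rw [hz']
    beta_reduce
    by_cases hb : Q.tgt b = o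
    · rw [if_pos hb, map_mul, map_mul, hz0, (z.2 b).1]
    · rw [if_neg hb, map_zero, (z.2 b).2 hb]
  have hz's : ∀ b, z' b * idem Q (Q.src b) = z' b := by
    intro b
    rw [hz']
    beta_reduce
    split_ifs
    · rw [mul_assoc, idem_mul_idem, if_pos rfl]
    · rw [zero_mul]
  have hf : (∑ b, z' b * arr Q b) ∈ jac W := by
    rw [← h.ker, map_sum, ← hz]
    exact Finset.sum_congr rfl fun b _ => by rw [map_mul, hπz]
  have hfo : (∑ b, z' b * arr Q b) * idem Q o = ∑ b, z' b * arr Q b := by
    rw [Finset.sum_mul]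
    refine Finset.sum_congr rfl fun b _ => ?_
    rw [hz']
    beta_reduce
    by_cases hb : Q.tgt b = o
    · rw [if_pos hb, mul_assoc (idem Q o * z0 b * idem Q (Q.src b)), ← hb, arr_mul_idem]
    · rw [if_neg hb, zero_mul, zero_mul]
  obtain ⟨p, zz, hp1, hp2, hz1, hz2, hz3, he⟩ := y_lemma hf hfo
  have key : ∀ b, z' b = ∑ a, p a * rc b (cyc a W) + zz b := by
    intro b
    have h1 := congrArg (rc b) he
    rw [rc_add, rc_sum, rc_sum, rc_sum] at h1
    have h2 : ∀ (w : E → Hat Q), ∑ c, rc b (w c * arr Q c) = w b * idem Q (Q.src b) := by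
      intro w
      rw [Finset.sum_eq_single b]
      · rw [rc_mul_arr, if_pos rfl]
      · intro c _ hc
        rw [rc_mul_arr, if_neg (Ne.symm hc)]
      · intro hb
        exact (hb (Finset.mem_univ b)).elim
    rw [h2, h2, hz's, hz2] at h1
    rw [h1]
    congr 1
    exact Finset.sum_congr rfl fun a _ => rc_mul b _ (ksz_cycF h a)
  refine ⟨⟨fun a => π (idem Q o) * π (p a), fun a => ⟨?_, fun hne => ?_⟩⟩, ?_⟩
  · beta_reduce
    rw [← mul_assoc, ksz_ee, mul_assoc, ← map_mul, hp1]
  · beta_reduce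
    rw [hp2 a hne, map_zero, mul_zero]
  · refine Subtype.ext (funext fun b => ?_)
    rw [kszβ_apply]
    by_cases hb : Q.tgt b = o
    · rw [if_pos hb]
      have h3 : (z : E → A) b = ∑ a, π (p a) * π (rc b (cyc a W)) := by
        rw [← hπz, key b, map_add, (h.ker _).2 (hz1 b), add_zero, map_sum]
        exact Finset.sum_congr rfl fun a _ => map_mul _ _ _
      rw [← ksz_F1e z b, h3, Finset.mul_sum]
      exact Finset.sum_congr rfl fun a _ => mul_assoc _ _ _
    · rw [if_neg hb, (z.2 b).2 hb]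

private theorem ksz_kerβ (h : Mdl R o W π) (y : F2 R o π) (hy : kszβ W y = 0) :
    ∃ r : R, kszα r = y := by
  choose y0 hy0 using fun b => h.surj ((y : E → A) b)
  set y' : E → Hat Q := fun a =>
    if Q.src a = o then idem Q o * y0 a * idem Q (Q.tgt a) else 0 with hy'
  have hπy : ∀ a, π (y' a) = (y : E → A) a := by
    intro a
    rw [hy']
    beta_reduce
    by_cases ha : Q.src a = o
    · rw [if_pos ha, map_mul, map_mul, hy0, (y.2 a).1]
    · rw [if_neg ha, map_zero, (y.2 a).2 ha]
  have hy1 : ∀ a, y' a * idem Q (Q.tgt a) = y' a := by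
    intro a
    rw [hy']
    beta_reduce
    split_ifs
    · rw [mul_assoc, idem_mul_idem, if_pos rfl]
    · rw [zero_mul]
  have hy2 : ∀ a, Q.src a ≠ o → y' a = 0 := by
    intro a ha
    rw [hy']
    beta_reduce
    rw [if_neg ha]
  have hyo : ∀ a, idem Q o * y' a = y' a := by
    intro a
    rw [hy']
    beta_reduce
    split_ifs
    · rw [← mul_assoc, ← mul_assoc, idem_mul_idem, if_pos rfl]
    · rw [mul_zero]
  set g : Hat Q := ∑ a, y' a * cyc a W with hg
  have hgF : g ∈ Fil Q 1 := Submodule.sum_mem _ fun a _ => mul_mem_Fil_left _ (ksz_cycF h a)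
  have hrg : ∀ b, rc b g = ∑ a, y' a * rc b (cyc a W) := by
    intro b
    rw [hg, rc_sum]
    exact Finset.sum_congr rfl fun a _ => rc_mul b _ (ksz_cycF h a)
  have hrj : ∀ b, rc b g ∈ jac W := by
    intro b
    rw [hrg]
    by_cases hb : Q.tgt b = o
    · rw [← h.ker, map_sum]
      have h1 : ((kszβ W y : F1 R o π) : E → A) b = 0 := by rw [hy]; rfl
      rw [kszβ_apply, if_pos hb] at h1
      rw [← h1]
      exact Finset.sum_congr rfl fun a _ => by rw [map_mul, hπy]
    · rw [Finset.sum_eq_zero]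
      · exact Submodule.zero_mem _
      · intro a _
        by_cases ha : Q.src a = o
        · rw [ksz_rc0 (by rw [ha]; exact hb), mul_zero]
        · rw [hy2 a ha, zero_mul]
  obtain ⟨x, hx⟩ := h.syz o y' (fun c => rc c g) hy1 hy2 hrj (by rw [← hg]; exact sum_rc hgF)
  obtain ⟨r, hr⟩ := h.corner (π x)
  refine ⟨r, Subtype.ext (funext fun a => ?_)⟩
  rw [kszα_apply]
  by_cases ha : Q.src a = o
  · rw [if_pos ha]
    have h1 := (h.ker _).2 (jac_ml (idem Q o) (hx a ha))
    rw [mul_sub, hyo, map_sub, sub_eq_zero, hπy] at h1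
    have h2 : idem Q o * (x * arr Q a) = idem Q o * x * idem Q o * arr Q a := by
      rw [mul_assoc (idem Q o * x), ← ha, idem_mul_arr, mul_assoc]
    rw [h1, h2, map_mul, map_mul, map_mul, hr, smul_mul_assoc, ksz_ea ha]
  · rw [if_neg ha, (y.2 a).2 ha]

private theorem ksz_βα (h : Mdl R o W π) (r : R) : kszβ W (kszα (π := π) (o := o) r) = 0 := by
  refine Subtype.ext (funext fun b => ?_)
  rw [kszβ_apply]
  change _ = (0 : A)
  by_cases hb : Q.tgt b = o
  · rw [if_pos hb]
    have h1 := cyc_eq_sum_rc (Fil_anti (by norm_num) h.pot : W ∈ Fil Q 2) b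
    have h2 : ∑ a, ((kszα (π := π) (o := o) r : F2 R o π) : E → A) a * π (rc b (cyc a W)) =
        r • π (∑ a, (if Q.src a = Q.tgt b then arr Q a * rc b (cyc a W) else 0)) := by
      rw [map_sum, Finset.smul_sum]
      refine Finset.sum_congr rfl fun a _ => ?_
      rw [kszα_apply, hb]
      split_ifs
      · rw [smul_mul_assoc, map_mul]
      · rw [zero_mul, map_zero, smul_zero]
    rw [h2, h1, ksz_cyc h, smul_zero]
  · rw [if_neg hb]

theorem Mdl.exists_seq (h : Mdl R o W π) : ∃ (α : R →ₗ[R] F2 R o π) (β : F2 R o π →ₗ[R] F1 R o π)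
    (γ : F1 R o π →ₗ[R] R),
    (∀ r a, Q.src a = o → (α r : E → A) a = r • π (arr Q a)) ∧
    (∀ y b, Q.tgt b = o → (β y : E → A) b = ∑ a, (y : E → A) a * π (rc b (cyc a W))) ∧
    (∀ z, γ z • π (idem Q o) = ∑ b, (z : E → A) b * π (arr Q b)) ∧
    (∀ z, γ z = 0 ↔ ∃ y, β y = z) ∧ (∀ y, β y = 0 ↔ ∃ r, α r = y) ∧ Function.Injective α ∧
    (∀ r ∈ IsLocalRing.maximalIdeal R, ∃ z, γ z = r) ∧ ∀ z, γ z ≠ 1 := by
  obtain ⟨γ, hγ⟩ := ksz_γ h
  refine ⟨kszα, kszβ W, γ, ?_, ?_, hγ, ?_, ?_, ?_, ?_, ?_⟩
  · intro r a ha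
    rw [kszα_apply, if_pos ha]
  · intro y b hb
    rw [kszβ_apply, if_pos hb]
  · intro z
    constructor
    · intro hz
      refine ksz_kerγ h z ?_
      rw [← hγ, hz, zero_smul]
    · rintro ⟨y, rfl⟩
      refine ksz_inj h ?_
      rw [hγ, ksz_γβ h, zero_smul]
  · intro y
    constructor
    · exact ksz_kerβ h y
    · rintro ⟨r, rfl⟩
      exact ksz_βα h r
  · intro r s hrs
    obtain ⟨a, ha⟩ := h.exists_out o
    have h1 := congrFun (congrArg Subtype.val hrs) a
    change ((kszα (π := π) (o := o) r : F2 R o π) : E → A) a =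
      ((kszα (π := π) (o := o) s : F2 R o π) : E → A) a at h1
    rw [kszα_apply, kszα_apply, if_pos ha, if_pos ha] at h1
    have h2 : (r - s) • π (arr Q a) = 0 := by rw [sub_smul, h1, sub_self]
    rcases h.tf _ _ h2 with h3 | h3
    · exact sub_eq_zero.1 h3
    · exact absurd (h.ker_Fil h3) (arr_not_mem_Fil a)
  · intro r hr
    obtain ⟨ρ, hρ, _⟩ := h.exists_lift_smul r
    set f : Hat Q := idem Q o * ρ * idem Q o with hf
    have hπf : π f = r • π (idem Q o) := by
      rw [hf, map_mul, map_mul, hρ, mul_smul_comm, mul_one, smul_mul_assoc, ksz_ee]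
    have hoo : idem Q o * idem Q o = idem Q o := by rw [idem_mul_idem, if_pos rfl]
    have hfF : f ∈ Fil Q 1 := by
      refine h.fil_of_MA ?_
      rw [hπf]
      refine Submodule.smul_mem_smul ?_ Submodule.mem_top
      rwa [pow_one]
    have hof : idem Q o * f = f := by
      rw [hf, ← mul_assoc, ← mul_assoc, hoo]
    have hfo : f * idem Q o = f := by
      rw [hf, mul_assoc, hoo]
    refine ⟨⟨fun b => π (rc b f), fun b => ⟨?_, fun hne => ?_⟩⟩, ?_⟩
    · beta_reduce
      rw [← map_mul, ← map_mul, mul_assoc, rc_idem, ← rc_mul b _ hfF, hof]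
    · beta_reduce
      have h1 : rc b (f * idem Q o) = 0 := by rw [rc_mul_idem, if_neg hne]
      rw [hfo] at h1
      rw [h1, map_zero]
    · refine ksz_inj h ?_
      rw [hγ, ← hπf]
      conv_rhs => rw [sum_rc hfF, map_sum]
      exact Finset.sum_congr rfl fun b _ => (map_mul _ _ _).symm
  · intro z hz
    choose z0 hz0 using fun b => h.surj ((z : E → A) b)
    refine h.idem_not (f := ∑ b, z0 b * arr Q b)
      (Submodule.sum_mem _ fun b _ => mul_mem_Fil_left _ (arr_mem_Fil b)) o ?_
    rw [map_sum, ← one_smul R (π (idem Q o)), ← hz, hγ]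
    exact Finset.sum_congr rfl fun b _ => by rw [map_mul, hz0]

end Pool.Agent.Flop
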