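import Pool.Agent.Lib.FlA.KszS
import Pool.Agent.Lib.FlA.KszC
import Pool.Agent.Lib.FlA.KszL
import Pool.Agent.Lib.FlA.GrA
import Pool.Agent.Lib.FlA.PrsB

/-!
# KszW1: the Koszul cycle of a graded model

The chase `koszul_chase` applied to the exact sequence at the vertex `o` of a graded model: it gives
a cycle of known weight in the first Koszul homology of the maximal ideal which is no boundary.
-/

set_option autoImplicit false

namespace Pool.Agent.Flop

open Finset MvPowerSeries

variable {V E : Type} [Fintype V] [DecidableEq V] [DecidableEq E] [Fintype E] {Q : Qv V E}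
variable {R A : Type} [CommRing R] [IsLocalRing R] [IsNoetherianRing R] [Algebra ℂ R] [Ring A]
  [Algebra ℂ A] [Algebra R A] [IsScalarTower ℂ R A] {o : V} {W : Hat Q} {π : Hat Q →ₐ[ℂ] A}

omit [Fintype E] in
private theorem kszW1_ee (i : V) : π (idem Q i) * π (idem Q i) = π (idem Q i) := by
  rw [← map_mul, idem_mul_idem, if_pos rfl]

/-- The compression of a family of elements. -/
private noncomputable def kszW1P (e : A) (p : E → A) (c : E → Prop) [DecidablePred c] :
    (E → A) →ₗ[R] (E → A) where
  toFun y := fun a => if c a then e * y a * p a else 0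
  map_add' := by
    intro x y
    funext a
    change (if c a then e * (x a + y a) * p a else 0) =
      (if c a then e * x a * p a else 0) + (if c a then e * y a * p a else 0)
    split_ifs
    · rw [mul_add, add_mul]
    · rw [add_zero]
  map_smul' := by
    intro r x
    funext a
    change (if c a then e * (r • x a) * p a else 0) = r • (if c a then e * x a * p a else 0)
    split_ifs
    · rw [mul_smul_comm, smul_mul_assoc]
    · rw [smul_zero]

private theorem kszW1_F2 {x : Fin 4 → R} {p : ℕ} (h : KEx x A p) :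
    KEx x (F2 (Q := Q) R o π) p := by
  refine kex_retract x (F2 R o π).subtype (LinearMap.codRestrict (F2 R o π)
    (kszW1P (π (idem Q o)) (fun a => π (idem Q (Q.tgt a))) fun a => Q.src a = o) ?_) ?_
    (kex_pi (ι := E) x h)
  · intro y a
    change π (idem Q o) * (if Q.src a = o then π (idem Q o) * y a * π (idem Q (Q.tgt a)) else 0) *
        π (idem Q (Q.tgt a)) =
      (if Q.src a = o then π (idem Q o) * y a * π (idem Q (Q.tgt a)) else 0) ∧
      (Q.src a ≠ o →
        (if Q.src a = o then π (idem Q o) * y a * π (idem Q (Q.tgt a)) else 0) = 0)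
    refine ⟨?_, fun h' => if_neg h'⟩
    split_ifs
    · rw [mul_assoc, mul_assoc, mul_assoc, kszW1_ee, ← mul_assoc, kszW1_ee, ← mul_assoc]
    · rw [mul_zero, zero_mul]
  · intro m
    apply Subtype.ext
    funext a
    change (if Q.src a = o then π (idem Q o) * (m : E → A) a * π (idem Q (Q.tgt a)) else 0) =
      (m : E → A) a
    split_ifs with h'
    · exact (m.2 a).1
    · exact ((m.2 a).2 h').symm

private theorem kszW1_F1 {x : Fin 4 → R} {p : ℕ} (h : KEx x A p) :
    KEx x (F1 (Q := Q) R o π) p := by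
  refine kex_retract x (F1 R o π).subtype (LinearMap.codRestrict (F1 R o π)
    (kszW1P (π (idem Q o)) (fun a => π (idem Q (Q.src a))) fun a => Q.tgt a = o) ?_) ?_
    (kex_pi (ι := E) x h)
  · intro y a
    change π (idem Q o) * (if Q.tgt a = o then π (idem Q o) * y a * π (idem Q (Q.src a)) else 0) *
        π (idem Q (Q.src a)) =
      (if Q.tgt a = o then π (idem Q o) * y a * π (idem Q (Q.src a)) else 0) ∧
      (Q.tgt a ≠ o →
        (if Q.tgt a = o then π (idem Q o) * y a * π (idem Q (Q.src a)) else 0) = 0)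
    refine ⟨?_, fun h' => if_neg h'⟩
    split_ifs
    · rw [mul_assoc, mul_assoc, mul_assoc, kszW1_ee, ← mul_assoc, kszW1_ee, ← mul_assoc]
    · rw [mul_zero, zero_mul]
  · intro m
    apply Subtype.ext
    funext a
    change (if Q.tgt a = o then π (idem Q o) * (m : E → A) a * π (idem Q (Q.src a)) else 0) =
      (m : E → A) a
    split_ifs with h'
    · exact (m.2 a).1
    · exact ((m.2 a).2 h').symm

private theorem kszW1_inj (h : Mdl R o W π) {r s : R}
    (hrs : r • π (idem Q o) = s • π (idem Q o)) : r = s := by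
  have h0 : π (idem Q o) ≠ 0 := by
    have h1 := h.idem_not (Submodule.zero_mem (Fil Q 1)) o
    rw [map_zero] at h1
    exact h1.symm
  have h1 : (r - s) • π (idem Q o) = 0 := by rw [sub_smul, hrs, sub_self]
  rcases h.tf _ _ h1 with h2 | h2
  · exact sub_eq_zero.1 h2
  · exact absurd h2 h0

private theorem kszW1_R (h : Mdl R o W π) {x : Fin 4 → R} {p : ℕ} (hA : KEx x A p) :
    KEx x R p := by
  choose ρ hρ using h.corner
  refine kex_retract x (LinearMap.toSpanSingleton R A (π (idem Q o)))
    { toFun := ρ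
      map_add' := fun a b => kszW1_inj h (by
        rw [← hρ, add_smul, ← hρ, ← hρ, mul_add, add_mul])
      map_smul' := fun r a => kszW1_inj h (by
        rw [← hρ, RingHom.id_apply, smul_eq_mul, mul_smul, ← hρ, mul_smul_comm,
          smul_mul_assoc]) } ?_ hA
  intro r
  refine kszW1_inj h ?_
  change ρ (r • π (idem Q o)) • π (idem Q o) = r • π (idem Q o)
  rw [← hρ, mul_smul_comm, smul_mul_assoc, kszW1_ee, kszW1_ee]

/-- The graded component of an element of a corner. -/
private theorem kszW1_corner (h : Mdl R o W π) {lam : E → ℚ} {cA : ℚ → A →ₗ[ℂ] A}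
    {cR : ℚ → R →ₗ[ℂ] R} (hG : Grd π lam cA cR) (μ : ℚ) (i j : V) {x : A}
    (hx : π (idem Q i) * x * π (idem Q j) = x) :
    π (idem Q i) * cA μ x * π (idem Q j) = cA μ x := by
  conv_rhs => rw [← hx, hG.mul_right h (part_idem lam j), sub_zero,
    hG.mul_left h (part_idem lam i), sub_zero]

omit [Fintype E] in
private theorem kszW1_hom {lam : E → ℚ} {w : ℚ}
    (hW : ∀ i l, W.cf i i l ≠ 0 → (l.map lam).sum = w) (a b : E) :
    part lam (w - lam a - lam b) (rc b (cyc a W)) = rc b (cyc a W) := by
  have h1 : cyc a (part lam w W) = cyc a W := by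
    refine Hat.ext_cf fun i j l => ?_
    change (if i = Q.tgt a ∧ j = Q.src a then
      ∑ v, ∑ k ∈ range (l.length + 1), (part lam w W).cf v v (l.drop k ++ a :: l.take k) else 0) =
      (if i = Q.tgt a ∧ j = Q.src a then
      ∑ v, ∑ k ∈ range (l.length + 1), W.cf v v (l.drop k ++ a :: l.take k) else 0)
    split_ifs
    · refine Finset.sum_congr rfl fun v _ => Finset.sum_congr rfl fun k _ => ?_
      rw [cf_part]
      by_cases h0 : W.cf v v (l.drop k ++ a :: l.take k) = 0
      · rw [h0, ite_self]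
      · rw [if_pos (hW v _ h0)]
    · rfl
  rw [← part_rc, ← part_cyc, h1]

theorem Mdl.exists_cycle (h : Mdl R o W π) {lam : E → ℚ} {w : ℚ}
    (hW : ∀ i l, W.cf i i l ≠ 0 → (l.map lam).sum = w) {cA : ℚ → A →ₗ[ℂ] A} {cR : ℚ → R →ₗ[ℂ] R}
    (hG : Grd π lam cA cR) {f : MvPowerSeries (Fin 4) ℂ} {θ : MvPowerSeries (Fin 4) ℂ →ₐ[ℂ] R}
    (hp : Prs f θ) {l : Fin 4 → ℚ} (hl : ∀ i, cR (l i) (θ (X i)) = θ (X i)) :
    ∃ ξ : Fin 4 → R, ∑ i, θ (X i) * ξ i = 0 ∧ (∀ i, ∃ r, ξ i = cR (∑ j, l j - w - l i) r) ∧
      ¬ ∃ b : Finset (Fin 4) → R, ∀ i, ξ i = kd (fun i => θ (X i)) b {i} := by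
  obtain ⟨α, β, γ, a1, a2, a3, a4, a5, a6, a7, a8⟩ := h.exists_seq
  obtain ⟨f₁, f₂, f₃, hf₁, hf₂, hf₃, hreg⟩ := h.dep
  have hspan : ∀ y ∈ IsLocalRing.maximalIdeal R,
      y ∈ Ideal.span (Set.range fun i : Fin 4 => θ (X i)) := by
    intro y hy
    obtain ⟨p, rfl⟩ := hp.surj y
    have h1 : p ∈ Ideal.span (Set.range fun i : Fin 4 => (X i : MvPowerSeries (Fin 4) ℂ)) := by
      rw [span_X, mem_Od_one]
      exact (hp.mem_max p).1 hy
    obtain ⟨c, hc⟩ := Ideal.mem_span_range_iff_exists_fun.1 h1
    rw [← hc, map_sum]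
    refine Ideal.sum_mem _ fun i _ => ?_
    rw [map_mul]
    exact Ideal.mul_mem_left _ _ (Ideal.subset_span ⟨i, rfl⟩)
  have hA : ∀ p, 2 ≤ p → KEx (fun i : Fin 4 => θ (X i)) A p := by
    intro p hp2
    have hlen : 4 < p + [f₁, f₂, f₃].length := by
      simp only [List.length_cons, List.length_nil]
      omega
    refine kex_of_regular _ [f₁, f₂, f₃] hreg ?_ hlen
    intro y hy
    simp only [List.mem_cons, List.not_mem_nil, or_false] at hy
    rcases hy with rfl | rfl | rfl
    · exact hspan _ hf₁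
    · exact hspan _ hf₂
    · exact hspan _ hf₃
  refine koszul_chase (fun i => θ (X i)) α β γ a4 a5 a6 (fun i => a7 _ ?_) a8
    (kszW1_F2 (hA 2 le_rfl)) (kszW1_F1 (hA 3 (by norm_num))) (kszW1_R h (hA 4 (by norm_num)))
    (fun μ => (cR μ).toAddMonoidHom)
    (fun μ =>
      { toFun := fun z => ⟨fun b => cA (μ - lam b) ((z : E → A) b), fun b =>
          ⟨kszW1_corner h hG _ _ _ (z.2 b).1, fun hb => by
            change cA (μ - lam b) ((z : E → A) b) = 0
            rw [(z.2 b).2 hb, map_zero]⟩⟩
        map_zero' := Subtype.ext (funext fun b => map_zero _)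
        map_add' := fun y z => Subtype.ext (funext fun b => map_add _ _ _) })
    (fun μ =>
      { toFun := fun y => ⟨fun a => cA (μ - w + lam a) ((y : E → A) a), fun a =>
          ⟨kszW1_corner h hG _ _ _ (y.2 a).1, fun ha => by
            change cA (μ - w + lam a) ((y : E → A) a) = 0
            rw [(y.2 a).2 ha, map_zero]⟩⟩
        map_zero' := Subtype.ext (funext fun b => map_zero _)
        map_add' := fun y z => Subtype.ext (funext fun b => map_add _ _ _) })
    l w ?_ ?_ ?_ ?_ ?_ ?_ hG.unit
  · rw [hp.mem_max]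
    exact constantCoeff_X i
  · intro μ i r
    exact hG.mul μ (l i) _ r (hl i)
  · intro μ i z
    refine Subtype.ext (funext fun b => ?_)
    change cA (μ - lam b) (θ (X i) • (z : E → A) b) =
      θ (X i) • cA (μ - l i - lam b) ((z : E → A) b)
    rw [hG.smul _ (l i) _ _ (hl i), sub_right_comm]
  · intro μ i y
    refine Subtype.ext (funext fun a => ?_)
    change cA (μ - w + lam a) (θ (X i) • (y : E → A) a) =
      θ (X i) • cA (μ - l i - w + lam a) ((y : E → A) a)
    rw [hG.smul _ (l i) _ _ (hl i), show μ - w + lam a - l i = μ - l i - w + lam a by ring]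
  · intro μ r
    refine Subtype.ext (funext fun a => ?_)
    change cA (μ - w + lam a) ((α r : E → A) a) = (α (cR (μ - w) r) : E → A) a
    by_cases ha : Q.src a = o
    · rw [a1 _ a ha, a1 _ a ha]
      have e1 : r • π (arr Q a) = (r • (1 : A)) * π (arr Q a) := by
        rw [smul_mul_assoc, one_mul]
      rw [e1, hG.mul_right h (part_arr lam a), add_sub_cancel_right, hG.one, smul_mul_assoc,
        one_mul]
    · rw [((α r).2 a).2 ha, ((α (cR (μ - w) r)).2 a).2 ha, map_zero]
  · intro μ y
    refine Subtype.ext (funext fun b => ?_)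
    change cA (μ - lam b) ((β y : E → A) b) = _
    by_cases hb : Q.tgt b = o
    · rw [a2 _ b hb, a2 _ b hb, map_sum]
      refine Finset.sum_congr rfl fun a _ => ?_
      rw [hG.mul_right h (kszW1_hom hW a b)]
      change _ = cA (μ - w + lam a) ((y : E → A) a) * _
      rw [show μ - lam b - (w - lam a - lam b) = μ - w + lam a by ring]
    · rw [((β y).2 b).2 hb, map_zero]
      exact ((β _).2 b).2 hb |>.symm
  · intro μ z
    apply kszW1_inj h
    change cR μ (γ z) • π (idem Q o) = _
    rw [← hG.smul_idem h, a3, a3, map_sum]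
    refine Finset.sum_congr rfl fun b _ => ?_
    rw [hG.mul_right h (part_arr lam b)]
    rfl

end Pool.Agent.Flop
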