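import Pool.Agent.Lib.FlA.Ksz
import Pool.Agent.Lib.FlA.KszL
import Pool.Agent.Lib.FlA.PrsB

/-!
# Lc1: modules of depth three over C[[x_1..x_4]] have a presentation by an injective matrix

P = MvPowerSeries (Fin 4) ℂ. N is finitely generated over R: generators n_1..n_a. Let q : (Fin a → P) → N, q u = sum_k θ (u k) • n_k: additive, surjective, q (p u) = θ p • q u. Z := {u | q u = 0}, a P-submodule, finitely generated (P Noetherian). x i := θ (X i). (1) KEx X Z 1: let z : i ↦ z_i in Z with sum X_i z_i = 0 (c S = z_i for S = {i}, kd_empty). KEx X P^a 1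
(kex_pi of hX) gives b : subsets -> P^a with z_i = kd X b {i}. The classes b' S := q (b S) satisfy kd x b' {i} = q (kd X b {i}) = q z_i = 0, so KEx x N 2 (hN; card S + 1 = 2) gives c' with q (b S) = kd x c' S for card S = 2. Lift c' S = q (c S): b'' S := b S - kd X c S is in Z for card S = 2 and kd X b'' {i} = z_i (kd_kd, kd_sub). Put b'' S := 0 for card S <> 2: boundary in Z.
(2) Z is free: choose generators z_1..z_b of Z with b minimal (b = the minimal number: `Submodule.fg`, Nat.find; or a basis of Z/mZ over ℂ lifted, Nakayama). φ0 : P^b → Z surjective. K = ker φ0 <= m P^b: if k = (k_1..k_b) in K has a unit coordinate k_j then z_j is a combination of the others, against minimality. For k in K: k = sum_i X_i k^i with k^i in P^b (coordinatewise, exists_sum_X_mul).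
sum X_i φ0 (k^i) = 0 so by (1) φ0 (k^i) = kd X β {i}, β in Z; lift β S = φ0 (β' S): κ^i := k^i - kd X β' {i} in K; sum_i X_i kd X β' {i} = kd X (kd X β') ∅ = 0, so k = sum X_i κ^i in m K. So K = m K, K f.g.: K = 0 (Nakayama: `Submodule.eq_bot_of_le_smul_of_le_jacobson_bot`). (3) φ : matrix with φ.mulVec v = φ0 v (as elements of P^a): injective, range Z. θ(g) = 0, so
g u in Z for all u in P^a: for the unit vectors g e_k = φ.mulVec (ψ_k): ψ := matrix with columns ψ_k: φ * ψ = g • 1; φ (ψ φ) = g φ = φ (g 1), φ injective: ψ * φ = g • 1.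
-/

set_option autoImplicit false

namespace Pool.Agent.Flop

open Finset MvPowerSeries

variable {R : Type} [CommRing R] [IsLocalRing R] [IsNoetherianRing R] [Algebra ℂ R]
  {g : MvPowerSeries (Fin 4) ℂ} {θ : MvPowerSeries (Fin 4) ℂ →ₐ[ℂ] R}

private theorem lc1_ker {P M N : Type} [CommRing P] [AddCommGroup M] [Module P M] [AddCommGroup N]
    [Module P N] {m : ℕ} (x : Fin m → P) (q : M →ₗ[P] N) (hq : Function.Surjective q)
    (hM : KEx x M 1) (hN : KEx x N 2) : KEx x (LinearMap.ker q) 1 := by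
  classical
  intro c hc
  obtain ⟨b, hb⟩ := hM (fun S => (LinearMap.ker q).subtype (c S)) fun S hS => by
    rw [kd_map, hc S hS, map_zero]
  obtain ⟨β, hβ⟩ := hN (fun S => q (b S)) fun S hS => by
    rw [kd_map, ← hb S (by omega)]
    exact (c S).2
  choose γ hγ using fun S => hq (β S)
  have h1 : ∀ S : Finset (Fin m), S.card = 2 → b S - kd x γ S ∈ LinearMap.ker q := by
    intro S hS
    rw [LinearMap.mem_ker, map_sub, hβ S hS, ← kd_map, sub_eq_zero]
    congr 1
    funext T
    exact (hγ T).symm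
  refine ⟨fun S => if h : S.card = 2 then ⟨b S - kd x γ S, h1 S h⟩ else 0, fun S hS => ?_⟩
  apply Subtype.ext
  have h2 := kd_map x (LinearMap.ker q).subtype
    (fun S => if h : S.card = 2 then ⟨b S - kd x γ S, h1 S h⟩ else 0) S
  have h3 : kd x (fun T => (LinearMap.ker q).subtype
      (if h : T.card = 2 then ⟨b T - kd x γ T, h1 T h⟩ else 0)) S =
      kd x (fun T => b T - kd x γ T) S := by
    apply kd_congr
    intro T hT
    have hT2 : T.card = 2 := by omega
    rw [dif_pos hT2]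
    rfl
  have h4 : kd x (kd x γ) S = 0 := congrFun (kd_kd x γ) S
  have h5 := kd_sub x b (kd x γ) S
  rw [h4, sub_zero, ← hb S hS] at h5
  exact h5.symm.trans (h3.symm.trans h2)

private theorem lc1_gen {P Z : Type} [CommRing P] [IsLocalRing P] [AddCommGroup Z] [Module P Z]
    {b : ℕ} (z : Fin b → Z) (hz : Submodule.span P (Set.range z) = ⊤)
    (hmin : ∀ b' < b, ¬ ∃ z' : Fin b' → Z, Submodule.span P (Set.range z') = ⊤)
    (k : Fin b → P) (hk : ∑ j, k j • z j = 0) (j : Fin b) :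
    k j ∈ IsLocalRing.maximalIdeal P := by
  by_contra hj
  rw [IsLocalRing.mem_maximalIdeal, mem_nonunits_iff, not_not] at hj
  obtain ⟨u, hu⟩ := hj
  obtain ⟨b', rfl⟩ : ∃ b', b = b' + 1 := ⟨b - 1, by have := j.2; omega⟩
  refine hmin b' (Nat.lt_succ_self _) ⟨fun i => z (j.succAbove i), ?_⟩
  rw [eq_top_iff, ← hz, Submodule.span_le]
  rintro _ ⟨i, rfl⟩
  have hmem : ∀ i, z (j.succAbove i) ∈
      Submodule.span P (Set.range fun i => z (j.succAbove i)) := fun i =>
    Submodule.subset_span ⟨i, rfl⟩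
  rcases Fin.eq_self_or_eq_succAbove j i with rfl | ⟨i', rfl⟩
  · rw [Fin.sum_univ_succAbove _ i] at hk
    have h1 : z i = - ((u⁻¹ : Pˣ) : P) • ∑ l, k (i.succAbove l) • z (i.succAbove l) := by
      have h2 : k i • z i = - ∑ l, k (i.succAbove l) • z (i.succAbove l) := by
        rw [eq_neg_iff_add_eq_zero]
        exact hk
      rw [neg_smul, ← smul_neg, ← h2, ← hu, smul_smul, Units.inv_mul, one_smul]
    rw [h1]
    exact Submodule.smul_mem _ _ (Submodule.sum_mem _ fun l _ => Submodule.smul_mem _ _ (hmem l))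
  · exact hmem i'

private theorem lc1_free {P Z : Type} [CommRing P] [IsLocalRing P] [IsNoetherianRing P]
    [AddCommGroup Z] [Module P Z] [Module.Finite P Z] {m : ℕ} (x : Fin m → P)
    (hx : IsLocalRing.maximalIdeal P = Ideal.span (Set.range x)) (hZ : KEx x Z 1) :
    ∃ (b : ℕ) (z : Fin b → Z), (∀ y, ∃ v : Fin b → P, y = ∑ j, v j • z j) ∧
      ∀ v : Fin b → P, ∑ j, v j • z j = 0 → v = 0 := by
  classical
  have hex : ∃ b, ∃ z : Fin b → Z, Submodule.span P (Set.range z) = ⊤ := Module.Finite.exists_fin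
  obtain ⟨z, hz⟩ := Nat.find_spec hex
  have hmin : ∀ b' < Nat.find hex, ¬ ∃ z' : Fin b' → Z, Submodule.span P (Set.range z') = ⊤ :=
    fun b' hb' => Nat.find_min hex hb'
  generalize Nat.find hex = b at z hz hmin
  have hgen : ∀ y, ∃ v : Fin b → P, y = ∑ j, v j • z j := by
    intro y
    have h1 : y ∈ Submodule.span P (Set.range z) := by rw [hz]; trivial
    obtain ⟨v, hv⟩ := (Submodule.mem_span_range_iff_exists_fun P).1 h1
    exact ⟨v, hv.symm⟩
  refine ⟨b, z, hgen, ?_⟩
  let φ : (Fin b → P) →ₗ[P] Z := Fintype.linearCombination P z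
  have hφ : ∀ v, φ v = ∑ j, v j • z j := fun v => Fintype.linearCombination_apply P z v
  have hK : LinearMap.ker φ = ⊥ := by
    refine Submodule.eq_bot_of_le_smul_of_le_jacobson_bot (IsLocalRing.maximalIdeal P) _
      (IsNoetherian.noetherian _) ?_ (by rw [IsLocalRing.jacobson_eq_maximalIdeal ⊥ bot_ne_top])
    intro k hk
    have hk0 : ∑ j, k j • z j = 0 := by rw [← hφ]; exact hk
    have h1 := fun j => lc1_gen z hz hmin k hk0 j
    rw [hx] at h1
    choose kk hkk using fun j => (Ideal.mem_span_range_iff_exists_fun).1 (h1 j)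
    let κ : Finset (Fin m) → (Fin b → P) := fun S => fun j => ∑ i ∈ S, kk j i
    have hκ : kd x κ ∅ = k := by
      rw [kd_empty]
      funext j
      rw [Finset.sum_apply, ← hkk j]
      refine Finset.sum_congr rfl fun i _ => ?_
      change x i * (∑ i' ∈ {i}, kk j i') = kk j i * x i
      rw [Finset.sum_singleton, mul_comm]
    obtain ⟨β, hβ⟩ := hZ (fun S => φ (κ S)) fun S hS => by
      have hS0 : S = ∅ := Finset.card_eq_zero.1 (by omega)
      subst hS0
      rw [kd_map, hκ]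
      exact hk
    choose γ hγ using fun S => hgen (β S)
    have hγ' : ∀ S, φ (γ S) = β S := fun S => by rw [hφ]; exact (hγ S).symm
    have h2 : ∀ i : Fin m, κ {i} - kd x γ {i} ∈ LinearMap.ker φ := by
      intro i
      rw [LinearMap.mem_ker, map_sub, hβ {i} (Finset.card_singleton i), ← kd_map, sub_eq_zero]
      congr 1
      funext T
      exact (hγ' T).symm
    have h3 : k = ∑ i, x i • (κ {i} - kd x γ {i}) := by
      have h4 := kd_sub x κ (kd x γ) ∅
      rw [hκ, show kd x (kd x γ) ∅ = 0 from congrFun (kd_kd x γ) ∅, sub_zero, kd_empty] at h4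
      exact h4.symm
    rw [h3]
    refine Submodule.sum_mem _ fun i _ => Submodule.smul_mem_smul ?_ (h2 i)
    rw [hx]
    exact Ideal.subset_span ⟨i, rfl⟩
  intro v hv
  have h1 : v ∈ LinearMap.ker φ := by
    rw [LinearMap.mem_ker, hφ]
    exact hv
  rw [hK] at h1
  exact h1

theorem exists_matrix_fact (hp : Prs g θ)
    (hX : KEx (fun i : Fin 4 => (X i : MvPowerSeries (Fin 4) ℂ)) (MvPowerSeries (Fin 4) ℂ) 1)
    (N : Type) [AddCommGroup N] [Module R N] [Module.Finite R N]
    (hN : KEx (fun i : Fin 4 => θ (X i)) N 2) :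
    ∃ (a b : ℕ) (n : Fin a → N) (φ : Matrix (Fin a) (Fin b) (MvPowerSeries (Fin 4) ℂ))
      (ψ : Matrix (Fin b) (Fin a) (MvPowerSeries (Fin 4) ℂ)),
      (∀ x : N, ∃ u : Fin a → MvPowerSeries (Fin 4) ℂ, x = ∑ k, θ (u k) • n k) ∧
      (∀ u : Fin a → MvPowerSeries (Fin 4) ℂ, ∑ k, θ (u k) • n k = 0 ↔ ∃ v, u = φ.mulVec v) ∧
      φ * ψ = g • (1 : Matrix (Fin a) (Fin a) (MvPowerSeries (Fin 4) ℂ)) ∧
      ψ * φ = g • (1 : Matrix (Fin b) (Fin b) (MvPowerSeries (Fin 4) ℂ)) := by
  classical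
  let : Module (MvPowerSeries (Fin 4) ℂ) N := Module.compHom N (θ : MvPowerSeries (Fin 4) ℂ →+* R)
  have hsm : ∀ (p : MvPowerSeries (Fin 4) ℂ) (y : N), p • y = θ p • y := fun _ _ => rfl
  obtain ⟨a, n, hn⟩ := Module.Finite.exists_fin (R := R) (M := N)
  have hgen : ∀ y : N, ∃ u : Fin a → MvPowerSeries (Fin 4) ℂ, y = ∑ k, θ (u k) • n k := by
    intro y
    have h1 : y ∈ Submodule.span R (Set.range n) := by rw [hn]; trivial
    obtain ⟨r, hr⟩ := (Submodule.mem_span_range_iff_exists_fun R).1 h1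
    choose u hu using fun k => hp.surj (r k)
    refine ⟨u, ?_⟩
    rw [← hr]
    exact Finset.sum_congr rfl fun k _ => by rw [hu k]
  let q : (Fin a → MvPowerSeries (Fin 4) ℂ) →ₗ[MvPowerSeries (Fin 4) ℂ] N :=
    Fintype.linearCombination (MvPowerSeries (Fin 4) ℂ) n
  have hq : ∀ u, q u = ∑ k, θ (u k) • n k := fun u =>
    Fintype.linearCombination_apply (MvPowerSeries (Fin 4) ℂ) n u
  have hqs : Function.Surjective q := by
    intro y
    obtain ⟨u, hu⟩ := hgen y
    exact ⟨u, by rw [hq]; exact hu.symm⟩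
  have hN' : KEx (fun i : Fin 4 => (X i : MvPowerSeries (Fin 4) ℂ)) N 2 := hN
  have hZ := lc1_ker (fun i : Fin 4 => (X i : MvPowerSeries (Fin 4) ℂ)) q hqs (kex_pi _ hX) hN'
  have hmax : IsLocalRing.maximalIdeal (MvPowerSeries (Fin 4) ℂ) =
      Ideal.span (Set.range fun i : Fin 4 => (X i : MvPowerSeries (Fin 4) ℂ)) := by
    rw [span_X, Od_eq, pow_one]
  have hfin : Module.Finite (MvPowerSeries (Fin 4) ℂ) (LinearMap.ker q) :=
    Module.IsNoetherian.finite _ _
  obtain ⟨b, z, hz1, hz2⟩ := lc1_free _ hmax hZ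
  let φ : Matrix (Fin a) (Fin b) (MvPowerSeries (Fin 4) ℂ) :=
    Matrix.of fun i j => (z j : Fin a → MvPowerSeries (Fin 4) ℂ) i
  have hφ : ∀ v : Fin b → MvPowerSeries (Fin 4) ℂ,
      φ.mulVec v = ((∑ j, v j • z j : LinearMap.ker q) : Fin a → MvPowerSeries (Fin 4) ℂ) := by
    intro v
    funext i
    rw [Submodule.coe_sum, Finset.sum_apply]
    change ∑ j, (z j : Fin a → MvPowerSeries (Fin 4) ℂ) i * v j = _
    refine Finset.sum_congr rfl fun j _ => ?_
    rw [Submodule.coe_smul, Pi.smul_apply, smul_eq_mul, mul_comm]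
  have hφi : ∀ v, φ.mulVec v = 0 → v = 0 := by
    intro v hv
    apply hz2 v
    apply Subtype.ext
    rw [← hφ, hv]
    rfl
  have hker : ∀ u : Fin a → MvPowerSeries (Fin 4) ℂ,
      ∑ k, θ (u k) • n k = 0 ↔ ∃ v, u = φ.mulVec v := by
    intro u
    constructor
    · intro hu
      obtain ⟨v, hv⟩ := hz1 ⟨u, by rw [LinearMap.mem_ker, hq]; exact hu⟩
      exact ⟨v, by rw [hφ, ← hv]⟩
    · rintro ⟨v, rfl⟩
      rw [← hq, hφ]
      exact (∑ j, v j • z j : LinearMap.ker q).2
  have hg : θ g = 0 := (hp.ker g).2 dvd_rfl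
  have hcol : ∀ k : Fin a, ∃ v, g • (Pi.single k 1 : Fin a → MvPowerSeries (Fin 4) ℂ) =
      φ.mulVec v := by
    intro k
    rw [← hker]
    refine Finset.sum_eq_zero fun i _ => ?_
    rw [Pi.smul_apply, smul_eq_mul, map_mul, hg, zero_mul, zero_smul]
  choose w hw using hcol
  let ψ : Matrix (Fin b) (Fin a) (MvPowerSeries (Fin 4) ℂ) := Matrix.of fun j k => w k j
  have h1 : φ * ψ = g • (1 : Matrix (Fin a) (Fin a) (MvPowerSeries (Fin 4) ℂ)) := by
    ext1 i k
    have h2 := congrFun (hw k) i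
    have h3 : (φ * ψ) i k = φ.mulVec (w k) i := rfl
    rw [h3, ← h2, Pi.smul_apply, Matrix.smul_apply, Matrix.one_apply, Pi.single_apply]
  refine ⟨a, b, n, φ, ψ, hgen, hker, h1, ?_⟩
  have h4 : φ * (ψ * φ - g • (1 : Matrix (Fin b) (Fin b) (MvPowerSeries (Fin 4) ℂ))) = 0 := by
    rw [Matrix.mul_sub, ← Matrix.mul_assoc, h1, Matrix.smul_mul, Matrix.one_mul, Matrix.mul_smul,
      Matrix.mul_one, sub_self]
  rw [← sub_eq_zero]
  ext1 i k
  have h5 : φ.mulVec (fun j => (ψ * φ - g • (1 : Matrix (Fin b) (Fin b)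
      (MvPowerSeries (Fin 4) ℂ))) j k) = 0 := by
    funext i'
    exact congrFun (congrFun h4 i') k
  exact congrFun (hφi _ h5) i

end Pool.Agent.Flop
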