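import Pool.Agent.Lib.FlA.PrsB

/-!
# Lc2: partial derivatives of the equation annihilate the obstruction

P = MvPowerSeries (Fin 4) ℂ. Choose V j in P with θ (V j) = δ (θ (X j)), D p := sum_j V j * pderiv j p (a derivation of P), θ (D p) = δ (θ p) (Prs.chain), D g = h g for some h (θ (D g) = δ 0 = 0). c := ∂_i g. For matrices let D act entrywise; D (A B) = D(A) B + A D(B); the same for ∂_i. From ψ φ = g: (∂_i ψ) φ + ψ (∂_i φ) = c 1; from φ ψ = g: (D φ) ψ + φ (D ψ) = h g 1. So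
c (D φ) = (D φ)(∂_i ψ) φ + (D φ) ψ (∂_i φ) = (D φ)(∂_i ψ) φ + (h g 1 - φ (D ψ)) (∂_i φ) = (D φ)(∂_i ψ) φ + φ (h ψ ∂_i φ - (D ψ)(∂_i φ)) (g 1 = φ ψ). With α := - (D φ)(∂_i ψ) (a x a) and β := h ψ ∂_i φ - (D ψ)(∂_i φ): c (D φ) + α φ = φ β. Define ∇ x for x = sum θ(u k) n_k: ∇ x := sum_k θ ((c D u + α u) k) n_k, D u entrywise. Well defined: the expression is additive in u, and
for u = φ v: c D(φ v) + α φ v = c (D φ) v + c φ (D v) + α φ v = φ (β v + c D v): maps to 0. Leibniz: for p in P: c D(p u) + α (p u) = p (c D u + α u) + c (D p) u: ∇ (θ p • x) = θ p • ∇ x + (θ c * δ (θ p)) • x.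
-/

set_option autoImplicit false

namespace Pool.Agent.Flop

open Finset MvPowerSeries

private theorem lc2_map_mul {l m n : ℕ}
    (d : Derivation ℂ (MvPowerSeries (Fin 4) ℂ) (MvPowerSeries (Fin 4) ℂ))
    (A : Matrix (Fin l) (Fin m) (MvPowerSeries (Fin 4) ℂ))
    (B : Matrix (Fin m) (Fin n) (MvPowerSeries (Fin 4) ℂ)) :
    (A * B).map d = A.map d * B + A * B.map d := by
  ext1 i j
  rw [Matrix.map_apply, Matrix.mul_apply, Matrix.add_apply, Matrix.mul_apply, Matrix.mul_apply,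
    map_sum, ← Finset.sum_add_distrib]
  refine Finset.sum_congr rfl fun k _ => ?_
  rw [Derivation.leibniz, Matrix.map_apply, Matrix.map_apply, smul_eq_mul, smul_eq_mul]
  ring

private theorem lc2_map_mulVec {l m : ℕ}
    (d : Derivation ℂ (MvPowerSeries (Fin 4) ℂ) (MvPowerSeries (Fin 4) ℂ))
    (A : Matrix (Fin l) (Fin m) (MvPowerSeries (Fin 4) ℂ))
    (v : Fin m → MvPowerSeries (Fin 4) ℂ) :
    (fun k => d (A.mulVec v k)) = (A.map d).mulVec v + A.mulVec fun k => d (v k) := by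
  funext i
  rw [Pi.add_apply, Matrix.mulVec, Matrix.mulVec, Matrix.mulVec, dotProduct, dotProduct,
    dotProduct, map_sum, ← Finset.sum_add_distrib]
  refine Finset.sum_congr rfl fun k _ => ?_
  rw [Derivation.leibniz, Matrix.map_apply, smul_eq_mul, smul_eq_mul]
  ring

private theorem lc2_map_one {l : ℕ}
    (d : Derivation ℂ (MvPowerSeries (Fin 4) ℂ) (MvPowerSeries (Fin 4) ℂ))
    (g : MvPowerSeries (Fin 4) ℂ) :
    (g • (1 : Matrix (Fin l) (Fin l) (MvPowerSeries (Fin 4) ℂ))).map d =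
      d g • (1 : Matrix (Fin l) (Fin l) (MvPowerSeries (Fin 4) ℂ)) := by
  ext1 i j
  rw [Matrix.map_apply, Matrix.smul_apply, Matrix.smul_apply, smul_eq_mul, smul_eq_mul]
  by_cases h : i = j
  · rw [h, Matrix.one_apply_eq, mul_one, mul_one]
  · rw [Matrix.one_apply_ne h, mul_zero, mul_zero, map_zero]

/-- The matrix identity behind the connection. -/
private theorem lc2_matrix {a b : ℕ} {g : MvPowerSeries (Fin 4) ℂ}
    {φ : Matrix (Fin a) (Fin b) (MvPowerSeries (Fin 4) ℂ)}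
    {ψ : Matrix (Fin b) (Fin a) (MvPowerSeries (Fin 4) ℂ)}
    (h3 : φ * ψ = g • (1 : Matrix (Fin a) (Fin a) (MvPowerSeries (Fin 4) ℂ)))
    (h4 : ψ * φ = g • (1 : Matrix (Fin b) (Fin b) (MvPowerSeries (Fin 4) ℂ)))
    (d e : Derivation ℂ (MvPowerSeries (Fin 4) ℂ) (MvPowerSeries (Fin 4) ℂ))
    {h : MvPowerSeries (Fin 4) ℂ} (hg : d g = g * h) :
    ∃ (α : Matrix (Fin a) (Fin a) (MvPowerSeries (Fin 4) ℂ))
      (β : Matrix (Fin b) (Fin b) (MvPowerSeries (Fin 4) ℂ)),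
      e g • φ.map d + α * φ = φ * β := by
  have e1 : ψ.map e * φ + ψ * φ.map e = e g • (1 : Matrix (Fin b) (Fin b) _) := by
    rw [← lc2_map_mul, h4, lc2_map_one]
  have e2 : φ.map d * ψ + φ * ψ.map d = (g * h) • (1 : Matrix (Fin a) (Fin a) _) := by
    rw [← lc2_map_mul, h3, lc2_map_one, hg]
  refine ⟨-(φ.map d * ψ.map e), h • (ψ * φ.map e) - ψ.map d * φ.map e, ?_⟩
  have e3 : e g • φ.map d = φ.map d * ψ.map e * φ + φ.map d * ψ * φ.map e := by
    have h5 := congrArg (fun M => φ.map d * M) e1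
    simp only [Matrix.mul_add, Matrix.mul_smul, Matrix.mul_one] at h5
    rw [← h5, Matrix.mul_assoc, Matrix.mul_assoc]
  have e4 : φ.map d * ψ = (g * h) • (1 : Matrix (Fin a) (Fin a) _) - φ * ψ.map d :=
    eq_sub_of_add_eq e2
  have e5 : (g * h) • φ.map e = φ * (h • (ψ * φ.map e)) := by
    rw [Matrix.mul_smul, ← Matrix.mul_assoc, h3, Matrix.smul_mul, Matrix.one_mul, smul_smul,
      mul_comm]
  rw [e3, e4, Matrix.neg_mul, Matrix.sub_mul, Matrix.smul_mul, Matrix.one_mul, Matrix.mul_sub,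
    e5, ← Matrix.mul_assoc φ]
  abel

variable {R : Type} [CommRing R] [IsLocalRing R] [IsNoetherianRing R] [Algebra ℂ R]
  {g : MvPowerSeries (Fin 4) ℂ} {θ : MvPowerSeries (Fin 4) ℂ →ₐ[ℂ] R}

theorem exists_nabla_of_fact (hp : Prs g θ) {N : Type} [AddCommGroup N] [Module R N] {a b : ℕ}
    {n : Fin a → N} {φ : Matrix (Fin a) (Fin b) (MvPowerSeries (Fin 4) ℂ)}
    {ψ : Matrix (Fin b) (Fin a) (MvPowerSeries (Fin 4) ℂ)}
    (h1 : ∀ x : N, ∃ u : Fin a → MvPowerSeries (Fin 4) ℂ, x = ∑ k, θ (u k) • n k)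
    (h2 : ∀ u : Fin a → MvPowerSeries (Fin 4) ℂ,
      ∑ k, θ (u k) • n k = 0 ↔ ∃ v, u = φ.mulVec v)
    (h3 : φ * ψ = g • (1 : Matrix (Fin a) (Fin a) (MvPowerSeries (Fin 4) ℂ)))
    (h4 : ψ * φ = g • (1 : Matrix (Fin b) (Fin b) (MvPowerSeries (Fin 4) ℂ)))
    (δ : Derivation ℂ R R) (i : Fin 4) :
    ∃ D : N →+ N, ∀ (r : R) (x : N), D (r • x) = (θ (pderiv ℂ i g) * δ r) • x + r • D x := by
  classical
  choose V hV using fun j => hp.surj (δ (θ (X j)))
  let d : Derivation ℂ (MvPowerSeries (Fin 4) ℂ) (MvPowerSeries (Fin 4) ℂ) :=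
    ∑ j, V j • pderiv ℂ j
  have hd : ∀ p, d p = ∑ j, V j * pderiv ℂ j p := by
    intro p
    change (∑ j, V j • pderiv ℂ j : Derivation ℂ (MvPowerSeries (Fin 4) ℂ)
      (MvPowerSeries (Fin 4) ℂ)) p = _
    rw [← Derivation.coeFnAddMonoidHom_apply, map_sum, Finset.sum_apply]
    rfl
  have hθd : ∀ p, θ (d p) = δ (θ p) := by
    intro p
    rw [hd, map_sum, hp.chain δ p]
    refine Finset.sum_congr rfl fun j _ => ?_
    rw [map_mul, hV, mul_comm]
  obtain ⟨h, hh⟩ : g ∣ d g := by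
    rw [← hp.ker, hθd, (hp.ker g).2 dvd_rfl, map_zero]
  obtain ⟨α, β, hαβ⟩ := lc2_matrix h3 h4 d (pderiv ℂ i) hh
  obtain ⟨pi, hpi⟩ : ∃ pi : (Fin a → MvPowerSeries (Fin 4) ℂ) → N,
      ∀ u, pi u = ∑ k, θ (u k) • n k := ⟨_, fun u => rfl⟩
  have pi_add : ∀ u v, pi (u + v) = pi u + pi v := by
    intro u v
    rw [hpi, hpi, hpi, ← Finset.sum_add_distrib]
    refine Finset.sum_congr rfl fun k _ => ?_
    rw [Pi.add_apply, map_add, add_smul]
  have pi_smul : ∀ p u, pi (p • u) = θ p • pi u := by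
    intro p u
    rw [hpi, hpi, Finset.smul_sum]
    refine Finset.sum_congr rfl fun k _ => ?_
    rw [Pi.smul_apply, smul_eq_mul, map_mul, mul_smul]
  have pi_zero : pi 0 = 0 := by
    have h5 := pi_smul 0 0
    rw [zero_smul, map_zero, zero_smul] at h5
    exact h5
  obtain ⟨E, hE⟩ : ∃ E : (Fin a → MvPowerSeries (Fin 4) ℂ) → (Fin a → MvPowerSeries (Fin 4) ℂ),
      ∀ u, E u = pderiv ℂ i g • (fun k => d (u k)) + α.mulVec u := ⟨_, fun u => rfl⟩
  have E_add : ∀ u v, E (u + v) = E u + E v := by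
    intro u v
    have h5 : (fun k => d ((u + v) k)) = (fun k => d (u k)) + fun k => d (v k) := by
      funext k
      rw [Pi.add_apply, Pi.add_apply, map_add]
    rw [hE, hE, hE, h5, smul_add, Matrix.mulVec_add]
    abel
  have E_smul : ∀ p u, E (p • u) = p • E u + (pderiv ℂ i g * d p) • u := by
    intro p u
    have h5 : (fun k => d ((p • u) k)) = p • (fun k => d (u k)) + d p • u := by
      funext k
      rw [Pi.add_apply, Pi.smul_apply, Pi.smul_apply, Pi.smul_apply, smul_eq_mul,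
        Derivation.leibniz, smul_eq_mul, smul_eq_mul, smul_eq_mul, mul_comm (u k)]
    rw [hE, hE, h5, Matrix.mulVec_smul, smul_add, smul_add, smul_smul, smul_smul, smul_smul,
      mul_comm p]
    abel
  have hker : ∀ u, pi u = 0 → pi (E u) = 0 := by
    intro u hu
    rw [hpi] at hu
    obtain ⟨v, rfl⟩ := (h2 u).1 hu
    rw [hpi]
    refine (h2 _).2 ⟨β.mulVec v + pderiv ℂ i g • fun k => d (v k), ?_⟩
    have h6 := congrArg (fun M => M.mulVec v) hαβ
    simp only [Matrix.add_mulVec, Matrix.smul_mulVec] at h6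
    rw [hE, lc2_map_mulVec, smul_add, Matrix.mulVec_add, Matrix.mulVec_mulVec,
      Matrix.mulVec_mulVec, ← h6, Matrix.mulVec_smul]
    abel
  choose s hs using h1
  have hs' : ∀ x, pi (s x) = x := fun x => by rw [hpi]; exact (hs x).symm
  have hD : ∀ u, pi (E u) = pi (E (s (pi u))) := by
    intro u
    have h5 : pi (u + (-1 : MvPowerSeries (Fin 4) ℂ) • s (pi u)) = 0 := by
      rw [pi_add, pi_smul, hs', map_neg, map_one, neg_smul, one_smul, add_neg_cancel]
    have h6 := hker _ h5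
    rw [E_add, pi_add, E_smul, pi_add, pi_smul, pi_smul, map_neg, map_one] at h6
    have h7 : d (-1 : MvPowerSeries (Fin 4) ℂ) = 0 := by
      rw [map_neg, Derivation.map_one_eq_zero, neg_zero]
    rw [h7, mul_zero, map_zero, zero_smul, add_zero, neg_smul, one_smul] at h6
    exact eq_of_sub_eq_zero (by rw [sub_eq_add_neg]; exact h6)
  refine ⟨{ toFun := fun x => pi (E (s x)), map_zero' := ?_, map_add' := ?_ }, ?_⟩
  · have h5 := hD 0
    rw [pi_zero] at h5
    rw [← h5]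
    have h6 := E_smul 0 0
    rw [zero_smul, zero_smul, map_zero, mul_zero, zero_smul, add_zero] at h6
    rw [h6, pi_zero]
  · intro x y
    have h5 := hD (s x + s y)
    rw [pi_add, hs', hs', E_add, pi_add] at h5
    exact h5.symm
  · intro r x
    obtain ⟨p, rfl⟩ := hp.surj r
    have h5 := hD (p • s x)
    rw [pi_smul, hs', E_smul, pi_add, pi_smul, pi_smul, hs', map_mul, hθd] at h5
    change pi (E (s (θ p • x))) = (θ (pderiv ℂ i g) * δ (θ p)) • x + θ p • pi (E (s x))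
    rw [← h5, add_comm]

end Pool.Agent.Flop
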