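import Pool.Agent.Lib.FlA.RegRet

/-!
# Lc3: descent of connections by depth

`nabla_descend`: regular_unfold for hE and hN. φ12 := f2 • D1 - f1 • D2 is R-linear (x ↦ f2 • D1 x - f1 • D2 x: the derivation terms f2 f1 δ r x - f1 f2 δ r x cancel), likewise φ13 = f3 • D1 - f1 • D3, φ23 = f3 • D2 - f2 • D3; f3 • φ12 = f1 • (- φ23) + f2 • φ13. So φ12 = f1 • u + f2 • v with u, v in End_R N. Hence f2 • (D1 x - v x) = f1 • (D2 x + u x) for all x, so
D1 x - v x = f1 • (D x) for a unique D x (f1 regular on N). D is additive and D (r x): f1 • D (r x) = D1 (r x) - v (r x) = (f1 δ r) x + r f1 • D x: cancel f1. `nabla_of_pow`: I := {c | exists D_c with D_c (r x) = (c δ r) x + r D_c x} is an ideal (r D_c; sums; 0). By induction downwards: m^K <= I implies m^(K-1) <= I: for c in m^(K-1): c f_i in m^K <= I, apply nabla_descend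
to the derivation c • δ. So 1 in I.
-/

set_option autoImplicit false

namespace Pool.Agent.Flop

open Finset

variable {R N : Type} [CommRing R] [IsLocalRing R] [Algebra ℂ R] [AddCommGroup N] [Module R N]

theorem nabla_descend {f₁ f₂ f₃ : R} (hE : RingTheory.Sequence.IsWeaklyRegular (Module.End R N) [f₁, f₂, f₃])
    (hN : RingTheory.Sequence.IsWeaklyRegular N [f₁, f₂, f₃]) (δ : Derivation ℂ R R)
    (D₁ D₂ D₃ : N →+ N) (h₁ : ∀ (r : R) (x : N), D₁ (r • x) = (f₁ * δ r) • x + r • D₁ x)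
    (h₂ : ∀ (r : R) (x : N), D₂ (r • x) = (f₂ * δ r) • x + r • D₂ x)
    (h₃ : ∀ (r : R) (x : N), D₃ (r • x) = (f₃ * δ r) • x + r • D₃ x) :
    ∃ D : N →+ N, ∀ (r : R) (x : N), D (r • x) = δ r • x + r • D x := by
  have key : ∀ (f g : R) (A B : N →+ N)
      (_ : ∀ (r : R) (x : N), A (r • x) = (f * δ r) • x + r • A x)
      (_ : ∀ (r : R) (x : N), B (r • x) = (g * δ r) • x + r • B x),
      ∃ φ : Module.End R N, ∀ x, φ x = g • A x - f • B x := by
    intro f g A B hA hB
    refine ⟨{ toFun := fun x => g • A x - f • B x, map_add' := ?_, map_smul' := ?_ },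
      fun x => rfl⟩
    · intro x y
      simp only [map_add, smul_add]
      abel
    · intro r x
      simp only [hA, hB, smul_add, smul_sub, smul_smul, RingHom.id_apply]
      rw [show g * (f * δ r) = f * (g * δ r) by ring, mul_comm g r, mul_comm f r]
      abel
  obtain ⟨φ12, h12⟩ := key f₁ f₂ D₁ D₂ h₁ h₂
  obtain ⟨φ13, h13⟩ := key f₁ f₃ D₁ D₃ h₁ h₃
  obtain ⟨φ23, h23⟩ := key f₂ f₃ D₂ D₃ h₂ h₃
  obtain ⟨_, _, hE3⟩ := regular_unfold hE
  obtain ⟨hN1, hN2, _⟩ := regular_unfold hN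
  have hrel : f₃ • φ12 = f₁ • (-φ23) + f₂ • φ13 := by
    ext x
    simp only [LinearMap.smul_apply, LinearMap.add_apply, LinearMap.neg_apply, h12, h13, h23,
      smul_sub, smul_neg, smul_smul]
    rw [mul_comm f₃ f₂, mul_comm f₃ f₁, mul_comm f₂ f₁]
    abel
  obtain ⟨u, v, huv⟩ := hE3 φ12 (-φ23) φ13 hrel
  have hx : ∀ x, ∃ z, D₁ x - v x = f₁ • z := by
    intro x
    refine hN2 (D₁ x - v x) (D₂ x + u x) ?_
    have h5 := h12 x
    rw [huv] at h5
    simp only [LinearMap.smul_apply, LinearMap.add_apply] at h5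
    rw [smul_sub, smul_add, sub_eq_iff_eq_add, add_assoc, h5]
    abel
  choose d hd using hx
  have hinj : ∀ a b : N, f₁ • a = f₁ • b → a = b := by
    intro a b hab
    exact sub_eq_zero.1 (hN1 _ (by rw [smul_sub, hab, sub_self]))
  refine ⟨{ toFun := d, map_zero' := ?_, map_add' := ?_ }, ?_⟩
  · apply hinj
    rw [← hd, map_zero, map_zero, sub_zero, smul_zero]
  · intro x y
    apply hinj
    rw [smul_add, ← hd, ← hd, ← hd, map_add, map_add]
    abel
  · intro r x
    apply hinj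
    show f₁ • d (r • x) = f₁ • (δ r • x + r • d x)
    rw [← hd, h₁, map_smul, smul_add, smul_smul, smul_comm f₁ r, ← hd, smul_sub]
    abel

theorem nabla_of_pow {f₁ f₂ f₃ : R} (hE : RingTheory.Sequence.IsWeaklyRegular (Module.End R N) [f₁, f₂, f₃])
    (hN : RingTheory.Sequence.IsWeaklyRegular N [f₁, f₂, f₃])
    (hf₁ : f₁ ∈ IsLocalRing.maximalIdeal R) (hf₂ : f₂ ∈ IsLocalRing.maximalIdeal R)
    (hf₃ : f₃ ∈ IsLocalRing.maximalIdeal R) (δ : Derivation ℂ R R) (K : ℕ)
    (J : Ideal R) (hJ : IsLocalRing.maximalIdeal R ^ K ≤ J) (S : Set R) (hS : J = Ideal.span S)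
    (hc : ∀ c ∈ S, ∃ D : N →+ N, ∀ (r : R) (x : N), D (r • x) = (c * δ r) • x + r • D x) :
    ∃ D : N →+ N, ∀ (r : R) (x : N), D (r • x) = δ r • x + r • D x := by
  let I : Ideal R :=
    { carrier := {c | ∃ D : N →+ N, ∀ (r : R) (x : N), D (r • x) = (c * δ r) • x + r • D x}
      add_mem' := by
        rintro a b ⟨A, hA⟩ ⟨B, hB⟩
        refine ⟨A + B, fun r x => ?_⟩
        rw [AddMonoidHom.add_apply, AddMonoidHom.add_apply, hA, hB, add_mul, add_smul, smul_add]
        abel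
      zero_mem' := ⟨0, fun r x => by
        rw [AddMonoidHom.zero_apply, AddMonoidHom.zero_apply, zero_mul, zero_smul, smul_zero,
          add_zero]⟩
      smul_mem' := by
        rintro s a ⟨A, hA⟩
        refine ⟨{ toFun := fun x => s • A x, map_zero' := ?_, map_add' := ?_ }, fun r x => ?_⟩
        · rw [map_zero, smul_zero]
        · intro x y
          rw [map_add, smul_add]
        · show s • A (r • x) = (s • a * δ r) • x + r • (s • A x)
          rw [hA, smul_add, smul_smul, smul_eq_mul, mul_assoc, smul_comm s r] }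
  have hI : ∀ c, c ∈ I ↔
      ∃ D : N →+ N, ∀ (r : R) (x : N), D (r • x) = (c * δ r) • x + r • D x := fun c => Iff.rfl
  have hJI : J ≤ I := by
    rw [hS, Ideal.span_le]
    intro c hcS
    exact (hI c).2 (hc c hcS)
  have hstep : ∀ k : ℕ, IsLocalRing.maximalIdeal R ^ (k + 1) ≤ I →
      IsLocalRing.maximalIdeal R ^ k ≤ I := by
    intro k hk c hck
    have hm : ∀ f ∈ IsLocalRing.maximalIdeal R,
        ∃ D : N →+ N, ∀ (r : R) (x : N), D (r • x) = (f * (c • δ) r) • x + r • D x := by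
      intro f hf
      have h1 : c * f ∈ IsLocalRing.maximalIdeal R ^ (k + 1) := by
        rw [pow_succ]
        exact Ideal.mul_mem_mul hck hf
      obtain ⟨D, hD⟩ := (hI _).1 (hk h1)
      refine ⟨D, fun r x => ?_⟩
      rw [hD, Derivation.smul_apply, smul_eq_mul]
      congr 2
      ring
    obtain ⟨D₁, h₁⟩ := hm f₁ hf₁
    obtain ⟨D₂, h₂⟩ := hm f₂ hf₂
    obtain ⟨D₃, h₃⟩ := hm f₃ hf₃
    obtain ⟨D, hD⟩ := nabla_descend hE hN (c • δ) D₁ D₂ D₃ h₁ h₂ h₃
    refine (hI c).2 ⟨D, fun r x => ?_⟩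
    rw [hD, Derivation.smul_apply, smul_eq_mul]
  have hall : ∀ k : ℕ, IsLocalRing.maximalIdeal R ^ k ≤ I →
      IsLocalRing.maximalIdeal R ^ 0 ≤ I := by
    intro k
    induction k with
    | zero => exact fun h => h
    | succ k ih => exact fun h => ih (hstep k h)
  have h0 := hall K (hJ.trans hJI)
  rw [pow_zero, Ideal.one_eq_top] at h0
  obtain ⟨D, hD⟩ := (hI 1).1 (h0 Submodule.mem_top)
  refine ⟨D, fun r x => ?_⟩
  rw [hD, one_mul]

end Pool.Agent.Flop
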