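import Pool.Agent.Lib.FlA.Def4

/-!
# MdA: the endomorphism algebra of a direct sum of modules

`A = Module.End R (∀ i, N i)` and `prj R N i` is the projection to the summand `N i`.
-/

set_option autoImplicit false

namespace Pool.Agent.Flop

open Finset

/-- The projection to the summand `N i`, as an element of the endomorphism ring. -/
def prj {V : Type} [DecidableEq V] (R : Type) [CommRing R] (N : V → Type)
    [∀ i, AddCommGroup (N i)] [∀ i, Module R (N i)] (i : V) : Module.End R (∀ i, N i) :=
  (LinearMap.single R N i) ∘ₗ (LinearMap.proj i)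

variable {V : Type} [Fintype V] [DecidableEq V] {R : Type} [CommRing R]
  (N : V → Type) [∀ i, AddCommGroup (N i)] [∀ i, Module R (N i)]


private theorem mdA_prj_apply (i : V) (x : ∀ i, N i) :
    prj R N i x = LinearMap.single R (fun i => N i) i (x i) := rfl

private theorem mdA_single_same (i : V) (n : N i) :
    (LinearMap.single R (fun i => N i) i n) i = n := by
  rw [LinearMap.single_apply, Pi.single_eq_same]

private theorem mdA_single_ne {i j : V} (h : j ≠ i) (n : N i) :
    (LinearMap.single R (fun i => N i) i n) j = 0 := by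
  rw [LinearMap.single_apply, Pi.single_eq_of_ne h]

theorem prj_mul (i j : V) : prj R N i * prj R N j = if i = j then prj R N i else 0 := by
  refine LinearMap.ext fun x => ?_
  rw [Module.End.mul_apply, mdA_prj_apply, mdA_prj_apply]
  by_cases h : i = j
  · subst h
    rw [if_pos rfl, mdA_single_same, mdA_prj_apply]
  · rw [if_neg h, mdA_single_ne N h, map_zero, LinearMap.zero_apply]

private theorem mdA_scalar {o : V} (e : N o ≃ₗ[R] R) (y : N o →ₗ[R] N o) (n : N o) :
    y n = e (y (e.symm 1)) • n := by
  have h1 : n = e n • e.symm 1 := by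
    rw [← map_smul, smul_eq_mul, mul_one, LinearEquiv.symm_apply_apply]
  have h2 : y (e.symm 1) = e (y (e.symm 1)) • e.symm 1 := by
    rw [← map_smul, smul_eq_mul, mul_one, LinearEquiv.symm_apply_apply]
  conv_lhs => rw [h1, map_smul, h2]
  conv_rhs => rw [h1]
  rw [smul_smul, smul_smul, mul_comm]

theorem end_corner {o : V} (e : N o ≃ₗ[R] R) (x : Module.End R (∀ i, N i)) :
    ∃ r : R, prj R N o * x * prj R N o = r • prj R N o := by
  refine ⟨e (((LinearMap.proj o ∘ₗ x) ∘ₗ (LinearMap.single R (fun i => N i) o)) (e.symm 1)), ?_⟩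
  refine LinearMap.ext fun f => ?_
  have h := mdA_scalar N e ((LinearMap.proj o ∘ₗ x) ∘ₗ (LinearMap.single R (fun i => N i) o)) (f o)
  rw [Module.End.mul_apply, Module.End.mul_apply, LinearMap.smul_apply, mdA_prj_apply N o f,
    mdA_prj_apply, ← map_smul, ← h]
  rfl

private noncomputable def mdAphi {o : V} (e : N o ≃ₗ[R] R) (i : V) (n : N i) :
    Module.End R (∀ i, N i) :=
  (LinearMap.single R (fun i => N i) i) ∘ₗ ((LinearMap.toSpanSingleton R (N i) n) ∘ₗ
    (e.toLinearMap ∘ₗ (LinearMap.proj o)))

private theorem mdAphi_apply {o : V} (e : N o ≃ₗ[R] R) (i : V) (n : N i) (x : ∀ i, N i) :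
    mdAphi N e i n x = LinearMap.single R (fun i => N i) i (e (x o) • n) := by
  rfl

theorem end_center {o : V} (e : N o ≃ₗ[R] R) (z : Module.End R (∀ i, N i))
    (hz : ∀ x, z * x = x * z) : ∃ r : R, z = r • (1 : Module.End R (∀ i, N i)) := by
  refine ⟨e ((z (LinearMap.single R (fun i => N i) o (e.symm 1))) o), ?_⟩
  refine LinearMap.pi_ext fun i n => ?_
  have h1 := LinearMap.congr_fun (hz (mdAphi N e i n))
    (LinearMap.single R (fun i => N i) o (e.symm 1))
  rw [Module.End.mul_apply, Module.End.mul_apply, mdAphi_apply, mdAphi_apply, mdA_single_same,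
    LinearEquiv.apply_symm_apply, one_smul] at h1
  rw [← LinearMap.single_apply (R := R) (φ := fun i => N i), h1, map_smul]
  rfl

theorem end_tf (htf : ∀ (i : V) (r : R) (n : N i), r • n = 0 → r = 0 ∨ n = 0) (r : R)
    (x : Module.End R (∀ i, N i)) (h : r • x = 0) : r = 0 ∨ x = 0 := by
  by_cases hr : r = 0
  · exact Or.inl hr
  · refine Or.inr (LinearMap.ext fun v => ?_)
    have h1 := LinearMap.congr_fun h v
    rw [LinearMap.smul_apply, LinearMap.zero_apply] at h1
    rw [LinearMap.zero_apply]
    funext i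
    exact (htf i r (x v i) (congrFun h1 i)).resolve_left hr

theorem end_conn {o : V} (e : N o ≃ₗ[R] R) (hN : ∀ i, Nontrivial (N i)) (i : V) :
    ∃ x : Module.End R (∀ i, N i), prj R N i * x * prj R N o ≠ 0 := by
  have := hN i
  obtain ⟨n, hn0⟩ := exists_ne (0 : N i)
  refine ⟨mdAphi N e i n, fun h => hn0 ?_⟩
  have h1 := LinearMap.congr_fun h (LinearMap.single R (fun i => N i) o (e.symm 1))
  rw [Module.End.mul_apply, Module.End.mul_apply, mdA_prj_apply N o, mdA_single_same,
    mdAphi_apply, mdA_single_same, LinearEquiv.apply_symm_apply, one_smul, mdA_prj_apply,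
    mdA_single_same, LinearMap.zero_apply] at h1
  have h2 := congrFun h1 i
  rw [mdA_single_same] at h2
  exact h2

theorem end_finite [IsNoetherianRing R] [∀ i, Module.Finite R (N i)] : Module.Finite R (Module.End R (∀ i, N i)) := by
  obtain ⟨k, f, hf⟩ := Module.Finite.exists_fin' R (∀ i, N i)
  have h1 : IsNoetherian R ((Fin k → R) →ₗ[R] (∀ i, N i)) :=
    isNoetherian_of_isNoetherianRing_of_finite R ((Fin k → R) →ₗ[R] (∀ i, N i))
  refine Module.Finite.of_injective (LinearMap.lcomp R (∀ i, N i) f) ?_
  intro x y hxy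
  refine LinearMap.ext fun v => ?_
  obtain ⟨w, rfl⟩ := hf v
  exact LinearMap.congr_fun hxy w

end Pool.Agent.Flop
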