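import Pool.Agent.Lib.FlA.Lc1
import Pool.Agent.Lib.FlA.Lc2
import Pool.Agent.Lib.FlA.Lc3
import Pool.Agent.Lib.FlA.MdA

/-!
# Lc4: derivations of R lift to the endomorphism algebra of a direct sum of modules

The modules `N i` and `End_R (N i)` are retracts of `End_R (⊕ N i)`, so a sequence of length 3 is
regular on them. `N i` has a matrix factorization, the partial derivatives of the equation times
the derivation lift to `N i`, and the lifts descend. The commutator with the sum of the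
connections is the lift to the endomorphism algebra.
-/

set_option autoImplicit false

namespace Pool.Agent.Flop

open Finset MvPowerSeries

variable {V : Type} [Fintype V] [DecidableEq V] {R : Type} [CommRing R] [IsLocalRing R]
  [IsNoetherianRing R] [Algebra ℂ R] (N : V → Type) [∀ i, AddCommGroup (N i)]
  [∀ i, Module R (N i)] [∀ i, Module.Finite R (N i)]
  {g : MvPowerSeries (Fin 4) ℂ} {θ : MvPowerSeries (Fin 4) ℂ →ₐ[ℂ] R}

omit [Fintype V] [IsLocalRing R] [IsNoetherianRing R] [Algebra ℂ R]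
  [∀ i, Module.Finite R (N i)] in
/-- every summand is a retract of the endomorphism algebra -/
theorem lc4_retract {o : V} (e : N o ≃ₗ[R] R) (i : V) :
    ∃ (f : N i →ₗ[R] Module.End R (∀ i, N i)) (ρ : Module.End R (∀ i, N i) →ₗ[R] N i),
      ∀ n, ρ (f n) = n := by
  refine ⟨{ toFun := fun n => (LinearMap.single R (fun i => N i) i) ∘ₗ
      ((LinearMap.toSpanSingleton R (N i) n) ∘ₗ (e.toLinearMap ∘ₗ LinearMap.proj o))
            map_add' := ?_
            map_smul' := ?_ },
    { toFun := fun x => x (LinearMap.single R (fun i => N i) o (e.symm 1)) i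
      map_add' := ?_
      map_smul' := ?_ }, ?_⟩
  · intro x y
    refine LinearMap.ext fun v => ?_
    simp only [LinearMap.comp_apply, LinearMap.add_apply, LinearMap.toSpanSingleton_apply,
      smul_add, map_add]
  · intro r x
    refine LinearMap.ext fun v => ?_
    simp only [LinearMap.comp_apply, LinearMap.smul_apply, LinearMap.toSpanSingleton_apply,
      RingHom.id_apply]
    rw [smul_comm, map_smul]
  · intro x y
    rfl
  · intro r x
    rfl
  · intro n
    change (LinearMap.single R (fun i => N i) i) (e ((LinearMap.single R (fun i => N i) o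
      (e.symm 1)) o) • n) i = n
    rw [LinearMap.single_apply, LinearMap.single_apply, Pi.single_eq_same, Pi.single_eq_same,
      LinearEquiv.apply_symm_apply, one_smul]

omit [Fintype V] [IsLocalRing R] [IsNoetherianRing R] [Algebra ℂ R]
  [∀ i, Module.Finite R (N i)] in
theorem lc4_retract_end (i : V) :
    ∃ (f : Module.End R (N i) →ₗ[R] Module.End R (∀ i, N i))
      (ρ : Module.End R (∀ i, N i) →ₗ[R] Module.End R (N i)), ∀ n, ρ (f n) = n := by
  refine ⟨{ toFun := fun y => (LinearMap.single R (fun i => N i) i) ∘ₗ (y ∘ₗ LinearMap.proj i)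
            map_add' := ?_
            map_smul' := ?_ },
    { toFun := fun x => (LinearMap.proj i) ∘ₗ (x ∘ₗ (LinearMap.single R (fun i => N i) i))
      map_add' := ?_
      map_smul' := ?_ }, ?_⟩
  · intro x y
    refine LinearMap.ext fun v => ?_
    simp only [LinearMap.comp_apply, LinearMap.add_apply, map_add]
  · intro r x
    refine LinearMap.ext fun v => ?_
    simp only [LinearMap.comp_apply, LinearMap.smul_apply, map_smul, RingHom.id_apply]
  · intro x y
    rfl
  · intro r x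
    rfl
  · intro y
    refine LinearMap.ext fun v => ?_
    change (LinearMap.single R (fun i => N i) i) (y ((LinearMap.single R (fun i => N i) i v) i)) i
      = y v
    rw [LinearMap.single_apply, LinearMap.single_apply, Pi.single_eq_same, Pi.single_eq_same]

private theorem lc4_span (hp : Prs g θ) {f : R} (hf : ¬ IsUnit f) :
    f ∈ Ideal.span (Set.range fun i : Fin 4 => θ (X i)) := by
  obtain ⟨p, rfl⟩ := hp.surj f
  have h1 : constantCoeff p = 0 := by
    rw [← hp.mem_max, IsLocalRing.mem_maximalIdeal]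
    exact hf
  have h2 : p ∈ Ideal.span (Set.range fun i : Fin 4 => (X i : MvPowerSeries (Fin 4) ℂ)) := by
    rw [span_X, mem_Od_one]
    exact h1
  have h3 := Ideal.mem_map_of_mem θ h2
  rw [Ideal.map_span, ← Set.range_comp] at h3
  exact h3

/-- A matrix factorization for the summand `N i`. -/
theorem exists_fact_of_depth (hp : Prs g θ)
    (hX : KEx (fun i : Fin 4 => (X i : MvPowerSeries (Fin 4) ℂ)) (MvPowerSeries (Fin 4) ℂ) 1)
    {o : V} (e : N o ≃ₗ[R] R)
    (hd : ∃ f₁ f₂ f₃ : R, ¬ IsUnit f₁ ∧ ¬ IsUnit f₂ ∧ ¬ IsUnit f₃ ∧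
      RingTheory.Sequence.IsWeaklyRegular (Module.End R (∀ i, N i)) [f₁, f₂, f₃]) (i : V) :
    ∃ (a b : ℕ) (n : Fin a → N i) (φ : Matrix (Fin a) (Fin b) (MvPowerSeries (Fin 4) ℂ))
      (ψ : Matrix (Fin b) (Fin a) (MvPowerSeries (Fin 4) ℂ)),
      (∀ x : N i, ∃ u : Fin a → MvPowerSeries (Fin 4) ℂ, x = ∑ k, θ (u k) • n k) ∧
      (∀ u : Fin a → MvPowerSeries (Fin 4) ℂ, ∑ k, θ (u k) • n k = 0 ↔ ∃ v, u = φ.mulVec v) ∧
      φ * ψ = g • (1 : Matrix (Fin a) (Fin a) (MvPowerSeries (Fin 4) ℂ)) ∧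
      ψ * φ = g • (1 : Matrix (Fin b) (Fin b) (MvPowerSeries (Fin 4) ℂ)) := by
  obtain ⟨f₁, f₂, f₃, u₁, u₂, u₃, hr⟩ := hd
  obtain ⟨F, ρ, hF⟩ := lc4_retract N e i
  have hN := regular_of_retract F ρ hF hr
  have hK : KEx (fun i : Fin 4 => θ (X i)) (N i) 2 := by
    refine kex_of_regular _ [f₁, f₂, f₃] hN ?_ (by simp)
    intro y hy
    simp only [List.mem_cons, List.not_mem_nil, or_false] at hy
    rcases hy with rfl | rfl | rfl
    · exact lc4_span hp u₁
    · exact lc4_span hp u₂
    · exact lc4_span hp u₃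
  exact exists_matrix_fact hp hX (N i) hK

private theorem lc4_nabla (hp : Prs g θ)
    (hX : KEx (fun i : Fin 4 => (X i : MvPowerSeries (Fin 4) ℂ)) (MvPowerSeries (Fin 4) ℂ) 1)
    {o : V} (e : N o ≃ₗ[R] R)
    (hd : ∃ f₁ f₂ f₃ : R, ¬ IsUnit f₁ ∧ ¬ IsUnit f₂ ∧ ¬ IsUnit f₃ ∧
      RingTheory.Sequence.IsWeaklyRegular (Module.End R (∀ i, N i)) [f₁, f₂, f₃])
    (δ : Derivation ℂ R R) (i : V) :
    ∃ D : N i →+ N i, ∀ (r : R) (x : N i), D (r • x) = r • D x + δ r • x := by
  obtain ⟨f₁, f₂, f₃, u₁, u₂, u₃, hr⟩ := hd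
  obtain ⟨F, ρ, hF⟩ := lc4_retract N e i
  obtain ⟨F', ρ', hF'⟩ := lc4_retract_end (R := R) N i
  have hN := regular_of_retract F ρ hF hr
  have hE : RingTheory.Sequence.IsWeaklyRegular (Module.End R (N i)) [f₁, f₂, f₃] :=
    regular_of_retract (M := Module.End R (∀ i, N i)) (M' := Module.End R (N i)) F' ρ' hF' hr
  have hK : KEx (fun i : Fin 4 => θ (X i)) (N i) 2 := by
    refine kex_of_regular _ [f₁, f₂, f₃] hN ?_ (by simp)
    intro y hy
    simp only [List.mem_cons, List.not_mem_nil, or_false] at hy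
    rcases hy with rfl | rfl | rfl
    · exact lc4_span hp u₁
    · exact lc4_span hp u₂
    · exact lc4_span hp u₃
  obtain ⟨a, b, n, φ, ψ, h1, h2, h3, h4⟩ := exists_matrix_fact hp hX (N i) hK
  obtain ⟨K, hJ⟩ := hp.iso_R
  obtain ⟨D, hD⟩ := nabla_of_pow hE hN ((IsLocalRing.mem_maximalIdeal _).2 u₁)
    ((IsLocalRing.mem_maximalIdeal _).2 u₂) ((IsLocalRing.mem_maximalIdeal _).2 u₃) δ K _ hJ _ rfl
    (by
      rintro _ ⟨j, rfl⟩
      exact exists_nabla_of_fact hp h1 h2 h3 h4 δ j)
  exact ⟨D, fun r x => by rw [hD, add_comm]⟩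

private theorem lc4_nabla_pi (δ : Derivation ℂ R R)
    (hn : ∀ i, ∃ D : N i →+ N i, ∀ (r : R) (x : N i), D (r • x) = r • D x + δ r • x) :
    ∃ D : (∀ i, N i) →+ (∀ i, N i),
      (∀ (r : R) (v : ∀ i, N i), D (r • v) = r • D v + δ r • v) ∧
      ∀ (i : V) (v : ∀ i, N i), D (prj R N i v) = prj R N i (D v) := by
  choose D hD using hn
  refine ⟨⟨⟨fun v i => D i (v i), ?_⟩, ?_⟩, ?_, ?_⟩
  · funext i
    show D i 0 = 0
    exact map_zero _
  · intro v w
    funext i
    exact map_add (D i) (v i) (w i)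
  · intro r v
    funext i
    exact hD i r (v i)
  · intro i v
    funext j
    show D j ((Pi.single i (v i) : ∀ j, N j) j) = (Pi.single i (D i (v i)) : ∀ j, N j) j
    by_cases h : j = i
    · subst h
      rw [Pi.single_eq_same, Pi.single_eq_same]
    · rw [Pi.single_eq_of_ne h, Pi.single_eq_of_ne h, map_zero]

/-- The commutator with the connection `D`. -/
private def lc4Com {M : Type} [AddCommGroup M] [Module R M] (δ : Derivation ℂ R R) (D : M →+ M)
    (hD : ∀ (r : R) (v : M), D (r • v) = r • D v + δ r • v) (x : Module.End R M) :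
    Module.End R M where
  toFun v := D (x v) - x (D v)
  map_add' v w := by
    rw [map_add, map_add, map_add, map_add]
    abel
  map_smul' r v := by
    rw [map_smul, hD, hD, map_add, map_smul, map_smul, RingHom.id_apply, smul_sub]
    abel

private theorem lc4Com_apply {M : Type} [AddCommGroup M] [Module R M] (δ : Derivation ℂ R R)
    (D : M →+ M) (hD : ∀ (r : R) (v : M), D (r • v) = r • D v + δ r • v) (x : Module.End R M)
    (v : M) : lc4Com δ D hD x v = D (x v) - x (D v) := rfl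

theorem exists_lift_end' (hp : Prs g θ)
    (hX : KEx (fun i : Fin 4 => (X i : MvPowerSeries (Fin 4) ℂ)) (MvPowerSeries (Fin 4) ℂ) 1)
    {o : V} (e : N o ≃ₗ[R] R)
    (hd : ∃ f₁ f₂ f₃ : R, ¬ IsUnit f₁ ∧ ¬ IsUnit f₂ ∧ ¬ IsUnit f₃ ∧
      RingTheory.Sequence.IsWeaklyRegular (Module.End R (∀ i, N i)) [f₁, f₂, f₃])
    (δ : Derivation ℂ R R) :
    ∃ Δ : Module.End R (∀ i, N i) →+ Module.End R (∀ i, N i),
      (∀ x y, Δ (x * y) = Δ x * y + x * Δ y) ∧ (∀ i, Δ (prj R N i) = 0) ∧
      ∀ r : R, Δ (r • (1 : Module.End R (∀ i, N i))) = δ r • (1 : Module.End R (∀ i, N i)) := by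
  obtain ⟨D, hD, hpr⟩ := lc4_nabla_pi N δ (lc4_nabla N hp hX e hd δ)
  refine ⟨AddMonoidHom.mk' (lc4Com δ D hD) ?_, ?_, ?_, ?_⟩
  · intro x y
    refine LinearMap.ext fun v => ?_
    rw [LinearMap.add_apply, lc4Com_apply, lc4Com_apply, lc4Com_apply, LinearMap.add_apply,
      LinearMap.add_apply, map_add]
    abel
  · intro x y
    refine LinearMap.ext fun v => ?_
    show D (x (y v)) - x (y (D v)) = (D (x (y v)) - x (D (y v))) + x (D (y v) - y (D v))
    rw [map_sub]
    abel
  · intro i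
    refine LinearMap.ext fun v => ?_
    show D (prj R N i v) - prj R N i (D v) = 0
    rw [hpr, sub_self]
  · intro r
    refine LinearMap.ext fun v => ?_
    show D (r • v) - r • D v = δ r • v
    rw [hD, add_sub_cancel_left]

end Pool.Agent.Flop
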