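import Pool.Agent.Lib.FlA.CycId
import Pool.Agent.Lib.FlA.Bs1
import Pool.Agent.Lib.FlA.RegRet
import Pool.Agent.Lib.FlA.Def3

/-!
# SyzD: exactness at the second syzygy follows from depth

Let `y` be as in `Syz`. The map `Th s = sum_a y_a * lc a s` maps `jac W` to `jac W`, so it induces a
homomorphism of right modules from `e_j rad A` to `A`. It extends to `e_j A` because the sequence
`f_1, f_2` is regular on `A` (`Ext^1(S_j, A) = 0`).
-/

set_option autoImplicit false

namespace Pool.Agent.Flop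

open Finset

variable {V E : Type} [Fintype V] [DecidableEq V] [DecidableEq E] {Q : Qv V E}

theorem lc_cyc [Fintype E] {F : Hat Q} (h : F ∈ Fil Q 2) (a b : E) :
    lc a (cyc b F) = rc b (cyc a F) := by
  have h0 : lc a (0 : Hat Q) = 0 := by
    have := lc_smul a 0 (0 : Hat Q)
    rwa [zero_smul, zero_smul] at this
  have h1 := congrArg (lc a) (cyc_eq_sum_rc h b)
  rw [lc_sum, Finset.sum_eq_single a] at h1
  · by_cases hab : Q.src a = Q.tgt b
    · rw [if_pos hab, lc_arr_mul, if_pos rfl, ← rc_mul b _ (cyc_mem_Fil a h), idem_mul_cyc] at h1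
      exact h1.symm
    · rw [if_neg hab, h0] at h1
      rw [← h1, ← cyc_mul_idem a F, rc_mul_idem, if_neg (fun h' => hab h'.symm)]
  · intro c _ hc
    split_ifs
    · rw [lc_arr_mul, if_neg (Ne.symm hc)]
    · exact h0
  · exact fun h' => absurd (Finset.mem_univ a) h'

/-- The map `s ↦ ∑ a, y a * lc a s`. -/
private noncomputable def syzT [Fintype E] (y : E → Hat Q) : Hat Q →ₗ[ℂ] Hat Q where
  toFun s := ∑ a, y a * lc a s
  map_add' s t := by
    rw [← Finset.sum_add_distrib]
    exact Finset.sum_congr rfl fun a _ => by rw [lc_add, mul_add]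
  map_smul' c s := by
    rw [RingHom.id_apply, Finset.smul_sum]
    exact Finset.sum_congr rfl fun a _ => by rw [lc_smul, mul_smul_comm]

private theorem syzT_apply [Fintype E] (y : E → Hat Q) (s : Hat Q) :
    syzT y s = ∑ a, y a * lc a s := rfl

private theorem syzT_mul [Fintype E] (y : E → Hat Q) {s : Hat Q} (hs : s ∈ Fil Q 1) (t : Hat Q) :
    syzT y (s * t) = syzT y s * t := by
  rw [syzT_apply, syzT_apply, Finset.sum_mul]
  exact Finset.sum_congr rfl fun a _ => by rw [lc_mul a hs, mul_assoc]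

private theorem syzT_arr [Fintype E] {y : E → Hat Q}
    (hy : ∀ a, y a * idem Q (Q.tgt a) = y a) (a : E) : syzT y (arr Q a) = y a := by
  have h1 : ∀ b, lc b (arr Q a) = if b = a then idem Q (Q.tgt a) else 0 := by
    intro b
    have := lc_arr_mul b a (1 : Hat Q)
    rwa [mul_one, mul_one] at this
  rw [syzT_apply, Finset.sum_eq_single a]
  · rw [h1, if_pos rfl, hy]
  · intro b _ hb
    rw [h1, if_neg hb, mul_zero]
  · exact fun h' => absurd (Finset.mem_univ a) h'

/-- The image of the ideal is in the ideal. -/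
private theorem syzT_jac [Fintype E] {W : Hat Q} (hW : W ∈ Fil Q 2) {j : V} {y z : E → Hat Q}
    (hy0 : ∀ a, Q.src a ≠ j → y a = 0) (hz : ∀ c, z c ∈ jac W)
    (hsum : ∑ a, y a * cyc a W = ∑ c, z c * arr Q c) {s : Hat Q} (hs : s ∈ jac W) :
    syzT y s ∈ jac W := by
  have hW1 : ∀ a, cyc a W ∈ Fil Q 1 := fun a => cyc_mem_Fil a hW
  -- the value at the cyclic derivatives
  have hc : ∀ b, syzT y (cyc b W) ∈ jac W := by
    intro b
    have h2 := congrArg (rc b) hsum
    rw [rc_sum, rc_sum] at h2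
    simp only [rc_mul b _ (hW1 _), rc_mul_arr] at h2
    rw [syzT_apply]
    simp only [lc_cyc hW]
    rw [h2]
    refine Submodule.sum_mem _ fun c _ => ?_
    split_ifs
    · exact jac_mr _ (hz c)
    · exact Submodule.zero_mem _
  -- decomposition of the left factor
  have hp : ∀ p g : Hat Q, g ∈ Fil Q 1 → g ∈ jac W → syzT y g ∈ jac W →
      syzT y (p * g) ∈ jac W := by
    intro p g hg hgj hTg
    have h1 : ∀ p' ∈ Fil Q 1, syzT y (p' * g) ∈ jac W := by
      intro p' hp'
      rw [syzT_mul y hp']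
      exact jac_ml _ hgj
    have h2 : p = (p - ∑ v, p.cf v v [] • idem Q v) + ∑ v, p.cf v v [] • idem Q v := by abel
    have h3 : p - ∑ v, p.cf v v [] • idem Q v ∈ Fil Q 1 := by
      rw [mem_Fil]
      intro i k l hl
      have hl0 : l = [] := List.length_eq_zero_iff.1 (by omega)
      subst hl0
      rw [Hat.cf_sub, Hat.cf_sum]
      simp only [Hat.cf_smul, cf_idem]
      by_cases hik : i = k
      · subst hik
        rw [Finset.sum_eq_single i]
        · simp
        · intro v _ hv
          rw [if_neg (fun h' => hv h'.1.symm), mul_zero]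
        · exact fun h' => absurd (Finset.mem_univ i) h'
      · rw [Hat.cf_nil p hik, Finset.sum_eq_zero, sub_zero]
        intro v _
        rw [if_neg (fun h' => hik (h'.1.trans h'.2.1.symm)), mul_zero]
    rw [h2, add_mul, map_add]
    refine Submodule.add_mem _ (h1 _ h3) ?_
    rw [Finset.sum_mul, map_sum]
    refine Submodule.sum_mem _ fun v _ => ?_
    rw [smul_mul_assoc, map_smul]
    refine Submodule.smul_mem _ _ ?_
    by_cases hv : v = j
    · subst hv
      have h4 : syzT y (idem Q v * g) = syzT y g := by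
        rw [syzT_apply, syzT_apply]
        refine Finset.sum_congr rfl fun a _ => ?_
        rw [lc_idem_mul]
        split_ifs with h5
        · rfl
        · rw [hy0 a h5, zero_mul, zero_mul]
      rwa [h4]
    · have h4 : syzT y (idem Q v * g) = 0 := by
        rw [syzT_apply]
        refine Finset.sum_eq_zero fun a _ => ?_
        rw [lc_idem_mul]
        split_ifs with h5
        · rw [hy0 a (fun h6 => hv (h5.symm.trans h6)), zero_mul]
        · rw [mul_zero]
      rw [h4]
      exact Submodule.zero_mem _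
  -- the preimage of the ideal is closed
  have hcl : IsCl ((jac W).comap (syzT y)) := by
    intro f hf
    rw [Submodule.mem_comap]
    refine isCl_jac W _ fun n => ?_
    obtain ⟨g, hg, h1⟩ := hf (n + 1)
    refine ⟨syzT y g, hg, ?_⟩
    rw [← map_sub, syzT_apply]
    exact Submodule.sum_mem _ fun a _ => mul_mem_Fil_left _ (lc_Fil a h1)
  have hle : jac W ≤ (jac W).comap (syzT y) := by
    intro f hf
    have hf' := hf
    unfold jac at hf'
    rw [mem_cl] at hf'
    refine hcl f fun n => ?_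
    obtain ⟨g, hg, h1⟩ := hf' n
    refine ⟨g, ?_, h1⟩
    refine (Submodule.span_le.2 ?_) hg
    rintro x ⟨b, p, q, rfl⟩
    rw [SetLike.mem_coe, Submodule.mem_comap, mul_assoc]
    refine hp p _ (mul_mem_Fil_right q (hW1 b)) (jac_mr q (cyc_jac W b)) ?_
    rw [syzT_mul y (hW1 b)]
    exact jac_mr q (hc b)
  exact hle hs

/-- Exactness at the second syzygy for Jacobi algebras of depth at least two over a local ring. -/
theorem syz_of_depth [Fintype E] {R A : Type} [CommRing R] [IsLocalRing R] [Algebra ℂ R] [Ring A]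
    [Algebra ℂ A] [Algebra R A] [IsScalarTower ℂ R A] {W : Hat Q} (hW : W ∈ Fil Q 2)
    (π : Hat Q →ₐ[ℂ] A) (hs : Function.Surjective π) (hk : ∀ f, π f = 0 ↔ f ∈ jac W)
    {f₁ f₂ f₃ : R} (h1 : f₁ ∈ IsLocalRing.maximalIdeal R) (h2 : f₂ ∈ IsLocalRing.maximalIdeal R)
    (hreg : RingTheory.Sequence.IsWeaklyRegular A [f₁, f₂, f₃]) : Syz W := by
  intro j y z hy hy0 hz hsum
  have hjF : jac W ≤ Fil Q 1 := jac_Fil hW
  -- the element `f • e_j` is in the image of the radical
  have key : ∀ f ∈ IsLocalRing.maximalIdeal R, ∃ s ∈ Fil Q 1, idem Q j * s = s ∧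
      s * idem Q j = s ∧ π s = f • π (idem Q j) := by
    intro f hf
    obtain ⟨ρ, hρ⟩ := hs (f • (1 : A))
    have hid : idem Q j * idem Q j = idem Q j := by rw [idem_mul_idem, if_pos rfl]
    have hπ : π (idem Q j * ρ * idem Q j) = f • π (idem Q j) := by
      rw [map_mul, map_mul, hρ, mul_smul_comm, smul_mul_assoc, mul_one, ← map_mul, hid]
    have hs1 : idem Q j * ρ * idem Q j - ρ.cf j j [] • idem Q j ∈ Fil Q 1 := by
      rw [mem_Fil]
      intro p q l hl
      have hl0 : l = [] := List.length_eq_zero_iff.1 (by omega)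
      subst hl0
      rw [Hat.cf_sub, Hat.cf_smul, cf_mul_idem, cf_idem_mul, cf_idem]
      by_cases hq : q = j
      · by_cases hp : p = j
        · subst hq
          subst hp
          simp
        · rw [if_pos hq, if_neg hp, if_neg (fun h' => hp h'.1), mul_zero, sub_zero]
      · rw [if_neg hq, if_neg (fun h' => hq h'.2.1), mul_zero, sub_zero]
    have hc0 : ρ.cf j j [] = 0 := by
      by_contra hc
      set c := ρ.cf j j [] with hcdef
      set s' := idem Q j * ρ * idem Q j - c • idem Q j with hs'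
      have h3 : (f - algebraMap ℂ R c) • π (idem Q j) = π s' := by
        rw [hs', map_sub, hπ, map_smul, sub_smul, algebraMap_smul]
      have hunit : IsUnit (f - algebraMap ℂ R c) := by
        by_contra hnu
        have h4 : f - algebraMap ℂ R c ∈ IsLocalRing.maximalIdeal R :=
          (IsLocalRing.mem_maximalIdeal _).2 hnu
        have h5 := Submodule.sub_mem _ hf h4
        rw [sub_sub_cancel] at h5
        exact (IsLocalRing.mem_maximalIdeal _).1 h5
          ((isUnit_iff_ne_zero.2 hc).map (algebraMap ℂ R))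
      obtain ⟨v, hv⟩ := hunit
      obtain ⟨σ, hσ⟩ := hs ((↑v⁻¹ : R) • (1 : A))
      have h6 : π (idem Q j - σ * s') = 0 := by
        rw [map_sub, map_mul, hσ, smul_mul_assoc, one_mul, ← h3, ← hv, smul_smul, Units.inv_mul,
          one_smul, sub_self]
      have h7 := hjF ((hk _).1 h6)
      have h8 := Submodule.add_mem _ h7 (mul_mem_Fil_left σ hs1)
      rw [sub_add_cancel] at h8
      have h9 := mem_Fil.1 h8 j j [] (by simp)
      rw [cf_idem, if_pos ⟨rfl, rfl, rfl⟩] at h9
      exact one_ne_zero h9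
    rw [hc0, zero_smul, sub_zero] at hs1
    refine ⟨_, hs1, ?_, ?_, hπ⟩
    · rw [← mul_assoc, ← mul_assoc, hid]
    · rw [mul_assoc, hid]
  obtain ⟨s₁, hs₁, hl₁, hr₁, hπ₁⟩ := key f₁ h1
  obtain ⟨s₂, hs₂, hl₂, hr₂, hπ₂⟩ := key f₂ h2
  obtain ⟨hu1, hu2, -⟩ := regular_unfold hreg
  have hT : ∀ f : R, ∀ s ∈ Fil Q 1, π s = f • π (idem Q j) → ∀ t ∈ Fil Q 1, idem Q j * t = t →
      π (syzT y s) * π t = f • π (syzT y t) := by
    intro f s hsF hsπ t ht hjt
    obtain ⟨ρ, hρ⟩ := hs (f • (1 : A))
    have h3 : π (s * t - t * ρ) = 0 := by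
      rw [map_sub, map_mul, map_mul, hρ, hsπ, smul_mul_assoc, ← map_mul, hjt, mul_smul_comm,
        mul_one, sub_self]
    have h4 := (hk _).2 (syzT_jac hW hy0 hz hsum ((hk _).1 h3))
    rw [map_sub, syzT_mul y hsF, syzT_mul y ht, map_sub, map_mul, map_mul, hρ, mul_smul_comm,
      mul_one, sub_eq_zero] at h4
    exact h4
  have hr : ∀ s ∈ Fil Q 1, s * idem Q j = s → π (syzT y s) * π (idem Q j) = π (syzT y s) := by
    intro s hsF hsr
    rw [← map_mul, ← syzT_mul y hsF, hsr]
  have h12 : f₂ • π (syzT y s₁) = f₁ • π (syzT y s₂) := by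
    have h3 := hT f₁ s₁ hs₁ hπ₁ s₂ hs₂ hl₂
    rw [hπ₂, mul_smul_comm, hr s₁ hs₁ hr₁] at h3
    exact h3
  obtain ⟨x', hx'⟩ := hu2 _ _ h12
  obtain ⟨x, rfl⟩ := hs x'
  refine ⟨x, fun a ha => (hk _).1 ?_⟩
  apply hu1
  have h3 := hT f₁ s₁ hs₁ hπ₁ (arr Q a) (arr_mem_Fil a) (by rw [← ha]; exact idem_mul_arr a)
  rw [syzT_arr hy] at h3
  rw [map_sub, smul_sub, ← h3, hx', map_mul, smul_mul_assoc, sub_self]

end Pool.Agent.Flop
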