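import Pool.Agent.Lib.FlA.PrL
import Pool.Agent.Lib.FlA.Anh
import Pool.Agent.Lib.FlA.CTr
import Pool.Agent.Lib.FlA.SyzD

/-!
# MdF: flop models are models
-/

set_option autoImplicit false

namespace Pool.Agent.Flop

open Finset MvPowerSeries

variable {V E : Type} [Fintype V] [DecidableEq V] [DecidableEq E] [Fintype E] {Q : Qv V E}
variable {R A : Type} [CommRing R] [Algebra ℂ R] [Ring A] [Algebra ℂ A] [Algebra R A]
  {o : V} {N : V → Type} [∀ i, AddCommGroup (N i)] [∀ i, Module R (N i)]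
  {W : Hat Q} {π : Hat Q →ₐ[ℂ] A}

omit [Fintype E] in
theorem IsFlopModel.exists_prs (h : IsFlopModel R Q o N W π) :
    ∃ (g : MvPowerSeries (Fin 4) ℂ) (θ : MvPowerSeries (Fin 4) ℂ →ₐ[ℂ] R), Prs g θ :=
  exists_prs_of_hyp h.isolated

omit [Fintype E] in
theorem IsFlopModel.depth_end (h : IsFlopModel R Q o N W π) :
    ∃ f₁ f₂ f₃ : R, ¬ IsUnit f₁ ∧ ¬ IsUnit f₂ ∧ ¬ IsUnit f₃ ∧
      RingTheory.Sequence.IsWeaklyRegular (Module.End R (∀ i, N i)) [f₁, f₂, f₃] := by
  obtain ⟨f₁, f₂, f₃, u₁, u₂, u₃, hr⟩ := h.depth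
  obtain ⟨-, ε, -⟩ := h.endo
  exact ⟨f₁, f₂, f₃, u₁, u₂, u₃, regular_of_retract (M := A) (M' := Module.End R (∀ i, N i))
    ε.symm.toLinearMap ε.toLinearMap (fun m => ε.apply_symm_apply m) hr⟩

omit [Fintype E] in
/-- Derivations of `R` lift to `A`. -/
theorem IsFlopModel.exists_lift [IsScalarTower ℂ R A] [IsLocalRing R] [IsNoetherianRing R]
    (h : IsFlopModel R Q o N W π) (δ : Derivation ℂ R R) :
    ∃ Δ : A →ₗ[ℂ] A, (∀ x y, Δ (x * y) = Δ x * y + x * Δ y) ∧ (∀ i, Δ (π (idem Q i)) = 0) ∧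
      ∀ r : R, Δ (r • (1 : A)) = δ r • (1 : A) := by
  obtain ⟨g, θ, hp⟩ := h.exists_prs
  obtain ⟨e⟩ := h.triv
  obtain ⟨hfg, ε, hε⟩ := h.endo
  obtain ⟨Δ, h1, h2, h3⟩ := exists_lift_end' N hp kex_X e h.depth_end δ
  have h4 : ∀ x y, ε.symm (Δ (ε (x * y))) = ε.symm (Δ (ε x)) * y + x * ε.symm (Δ (ε y)) := by
    intro x y
    rw [map_mul, h1, map_add, map_mul, map_mul, ε.symm_apply_apply, ε.symm_apply_apply]
  have h5 : ∀ r : R, ε.symm (Δ (ε (r • (1 : A)))) = δ r • (1 : A) := by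
    intro r
    rw [map_smul, map_one, h3, map_smul, map_one]
  refine ⟨{ toFun := fun x => ε.symm (Δ (ε x)), map_add' := ?_, map_smul' := ?_ }, h4, ?_, h5⟩
  · intro x y
    rw [map_add, map_add, map_add]
  · intro c x
    have h6 : c • x = (algebraMap ℂ R c • (1 : A)) * x := by
      rw [smul_mul_assoc, one_mul, algebraMap_smul]
    rw [RingHom.id_apply, h6, h4, h5, Derivation.map_algebraMap, zero_smul, zero_mul, zero_add,
      smul_mul_assoc, one_mul, algebraMap_smul]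
  · intro i
    change ε.symm (Δ (ε (π (idem Q i)))) = 0
    have h6 := h2 i
    unfold prj at h6
    rw [hε i, h6, map_zero]

omit [Fintype E] in
/-- A power of the maximal ideal is in the ideal of the trivial summand. -/
theorem IsFlopModel.exists_pow [IsLocalRing R] [IsNoetherianRing R]
    (h : IsFlopModel R Q o N W π) :
    ∃ L, ∀ r ∈ IsLocalRing.maximalIdeal R ^ L,
      r • (1 : A) ∈ TwoSidedIdeal.span {π (idem Q o)} := by
  obtain ⟨g, θ, hp⟩ := h.exists_prs
  obtain ⟨e⟩ := h.triv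
  obtain ⟨hfg, ε, hε⟩ := h.endo
  obtain ⟨L, hL⟩ := exists_pow_smul_mem N hp kex_X e h.depth_end
  refine ⟨L, fun r hr => ?_⟩
  have h1 := hL r hr
  have h2 : TwoSidedIdeal.span {prj R N o} ≤
      (TwoSidedIdeal.span {π (idem Q o)}).comap ε.symm := by
    rw [TwoSidedIdeal.span_le]
    rintro x rfl
    change _ ∈ TwoSidedIdeal.comap _ _
    rw [TwoSidedIdeal.mem_comap]
    have h3 : ε.symm (prj R N o) = π (idem Q o) := by
      have h4 := hε o
      rw [AlgEquiv.symm_apply_eq]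
      exact h4.symm
    rw [h3]
    exact TwoSidedIdeal.subset_span (Set.mem_singleton _)
  have h3 := h2 h1
  rw [TwoSidedIdeal.mem_comap] at h3
  have h4 : ε.symm (r • (1 : Module.End R (∀ i, N i))) = r • (1 : A) := by
    rw [map_smul, map_one]
  rwa [h4] at h3

theorem IsFlopModel.mdl [IsScalarTower ℂ R A] [IsLocalRing R] [IsNoetherianRing R]
    (h : IsFlopModel R Q o N W π) : Mdl R (A := A) o W π := by
  have := h.domain
  obtain ⟨g, θ, hp⟩ := h.exists_prs
  obtain ⟨e⟩ := h.triv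
  obtain ⟨hfg, ε, hε'⟩ := h.endo
  have hε : ∀ i, ε (π (idem Q i)) = prj R N i := hε'
  obtain ⟨hW, hs, hk⟩ := h.jacobi
  refine
    { resf := hp.resf
      nfield := hp.nfield
      fin := ?_
      tf := ?_
      corner := ?_
      cen := ?_
      conn := ?_
      dep := ?_
      pot := hW
      surj := hs
      ker := hk
      syz := ?_ }
  · have := end_finite (R := R) N
    exact Module.Finite.equiv ε.symm.toLinearEquiv
  · have htf : ∀ (i : V) (r : R) (n : N i), r • n = 0 → r = 0 ∨ n = 0 := by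
      intro i r n hr
      obtain ⟨a, b, n', φ, ψ, h1, h2, h3, h4⟩ :=
        exists_fact_of_depth N hp kex_X e h.depth_end i
      exact tf_of_fact hp h1 h2 h3 h4 r n hr
    intro r x hx
    rcases end_tf N htf r (ε x) (by rw [← map_smul, hx, map_zero]) with h1 | h1
    · exact Or.inl h1
    · exact Or.inr ((map_eq_zero_iff ε ε.injective).1 h1)
  · intro x
    obtain ⟨r, hr⟩ := end_corner N e (ε x)
    refine ⟨r, ε.injective ?_⟩
    rw [map_mul, map_mul, map_smul, hε, hr]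
  · intro z hz
    obtain ⟨r, hr⟩ := end_center N e (ε z) (fun y => by
      obtain ⟨x, rfl⟩ := ε.surjective y
      rw [← map_mul, hz, map_mul])
    refine ⟨r, ε.injective ?_⟩
    rw [hr, map_smul, map_one]
  · intro i
    obtain ⟨x, hx⟩ := end_conn N e h.nonzero i
    obtain ⟨y, rfl⟩ := ε.surjective x
    refine ⟨y, fun h0 => hx ?_⟩
    rw [← hε, ← hε, ← map_mul, ← map_mul, h0, map_zero]
  · obtain ⟨f₁, f₂, f₃, h1, h2, h3, h4⟩ := h.depth
    exact ⟨f₁, f₂, f₃, (IsLocalRing.mem_maximalIdeal _).2 (mem_nonunits_iff.2 h1),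
      (IsLocalRing.mem_maximalIdeal _).2 (mem_nonunits_iff.2 h2),
      (IsLocalRing.mem_maximalIdeal _).2 (mem_nonunits_iff.2 h3), h4⟩
  · obtain ⟨f₁, f₂, f₃, h1, h2, -, h4⟩ := h.depth
    exact syz_of_depth (Fil_anti (by norm_num) hW) π hs hk
      ((IsLocalRing.mem_maximalIdeal _).2 (mem_nonunits_iff.2 h1))
      ((IsLocalRing.mem_maximalIdeal _).2 (mem_nonunits_iff.2 h2)) h4

end Pool.Agent.Flop
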