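import Pool.Agent.Lib.MP_03045c_ag.Defs

/-!
# Ptl: potentials on the vertices making all arrows positive

Let N = card V. The closed paths of length 1 <= n <= N are finitely many; there is ε > 0 with sum >= ε * length for all of them (minimum over a finite set of lists: `List` of bounded length over a finite type is finite: List.finite_length_le). Hence for ALL closed paths: sum (lam - ε) >= 0 (induction on the length as in pigeonhole: a closed path of length > N has two equal
vertices v_r = v_s, 0 <= r < s < n, split it into two shorter closed paths). μ a := lam a - ε. c i := min of the sum of μ over the paths l of length <= N starting at i (any end), the empty path included: a finite non-empty set. Claim: c i <= μ a + c (tgt a) for a with source i: let l be optimal for tgt a, length <= N; a :: l has length <= N + 1; if <= N: fine.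
If = N + 1: among the vertices v_0, .., v_N of the first N + 1 positions (N + 1 vertices of V, sources of the letters) two are equal: v_r = v_s, r < s <= N: cut out the closed part (sum >= 0): a path from i of length <= N with smaller or equal sum. So c (src a) <= lam a - ε + c (tgt a): 0 < ε <= lam a + c (tgt a) - c (src a).
-/

set_option autoImplicit false

namespace Pool.Agent.Flop

open Finset

private def ptlEnd {V E : Type} (Q : Qv V E) : V → List E → V
  | i, [] => i
  | _, a :: l => ptlEnd Q (Q.tgt a) l

private theorem ptlEnd_append {V E : Type} (Q : Qv V E) (i : V) (l l' : List E) :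
    ptlEnd Q i (l ++ l') = ptlEnd Q (ptlEnd Q i l) l' := by
  induction l generalizing i with
  | nil => rfl
  | cons a l ih => exact ih (Q.tgt a)

private theorem ptl_take {V E : Type} {Q : Qv V E} {j : V} (l : List E) :
    ∀ {i : V}, Q.IsPath i l j → ∀ k : ℕ, Q.IsPath i (l.take k) (ptlEnd Q i (l.take k)) ∧
      Q.IsPath (ptlEnd Q i (l.take k)) (l.drop k) j := by
  induction l with
  | nil =>
    intro i h k
    rw [List.take_nil, List.drop_nil]
    exact ⟨rfl, h⟩
  | cons a l ih =>
    intro i h k
    cases k with
    | zero => exact ⟨rfl, h⟩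
    | succ k =>
      rw [List.take_succ_cons, List.drop_succ_cons]
      exact ⟨⟨h.1, (ih h.2 k).1⟩, (ih h.2 k).2⟩

private theorem ptl_split {V E : Type} [Fintype V] {Q : Qv V E} {i j : V} {l : List E}
    (h : Q.IsPath i l j) (hl : Fintype.card V ≤ l.length) :
    ∃ (l₁ l₂ l₃ : List E) (v : V), l = l₁ ++ l₂ ++ l₃ ∧ l₂ ≠ [] ∧
      l₂.length ≤ Fintype.card V ∧ Q.IsPath i l₁ v ∧ Q.IsPath v l₂ v ∧ Q.IsPath v l₃ j := by
  have key : ∀ x y : ℕ, x < y → y ≤ Fintype.card V →
      ptlEnd Q i (l.take x) = ptlEnd Q i (l.take y) →
      ∃ (l₁ l₂ l₃ : List E) (v : V), l = l₁ ++ l₂ ++ l₃ ∧ l₂ ≠ [] ∧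
        l₂.length ≤ Fintype.card V ∧ Q.IsPath i l₁ v ∧ Q.IsPath v l₂ v ∧ Q.IsPath v l₃ j := by
    intro x y hxy hy he
    have h1 := ptl_take l h x
    have h2 := ptl_take (l.drop x) h1.2 (y - x)
    have e : l.take y = l.take x ++ (l.drop x).take (y - x) := by
      conv_lhs => rw [← Nat.add_sub_cancel' hxy.le]
      rw [List.take_add]
    rw [← ptlEnd_append, ← e, ← he] at h2
    refine ⟨l.take x, (l.drop x).take (y - x), (l.drop x).drop (y - x),
      ptlEnd Q i (l.take x), ?_, ?_, ?_, h1.1, h2.1, h2.2⟩
    · rw [List.append_assoc, List.take_append_drop, List.take_append_drop]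
    · intro h0
      have h3 := congrArg List.length h0
      rw [List.length_take, List.length_drop, List.length_nil] at h3
      omega
    · rw [List.length_take]
      omega
  obtain ⟨x, y, hxy, he⟩ := Fintype.exists_ne_map_eq_of_card_lt
    (fun k : Fin (Fintype.card V + 1) => ptlEnd Q i (l.take k)) (by simp)
  beta_reduce at he
  rcases lt_or_gt_of_ne hxy with h1 | h1
  · exact key x y h1 (by omega) he
  · exact key y x h1 (by omega) he.symm

private theorem ptl_eps {α : Type} {S : Set α} (hS : S.Finite) (f g : α → ℚ)
    (hf : ∀ x ∈ S, 0 < f x) (hg : ∀ x ∈ S, 0 ≤ g x) :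
    ∃ ε : ℚ, 0 < ε ∧ ∀ x ∈ S, ε * g x ≤ f x := by
  rcases S.eq_empty_or_nonempty with rfl | hne
  · exact ⟨1, one_pos, fun x hx => hx.elim⟩
  · obtain ⟨a, ha, hmin⟩ := Set.exists_min_image S (fun x => f x / (g x + 1)) hS hne
    have hpos : 0 < g a + 1 := by have := hg a ha; linarith
    refine ⟨f a / (g a + 1), div_pos (hf a ha) hpos, fun x hx => ?_⟩
    have hx1 : 0 < g x + 1 := by have := hg x hx; linarith
    have h1 := hmin x hx
    beta_reduce at h1
    rw [le_div_iff₀ hx1] at h1
    have h2 : 0 < f a / (g a + 1) := div_pos (hf a ha) hpos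
    nlinarith

theorem exists_vertex_potential {V E : Type} [Fintype V] [Fintype E] (Q : Qv V E) (lam : E → ℚ)
    (h : ∀ (i : V) (l : List E), l ≠ [] → Q.IsPath i l i → 0 < (l.map lam).sum) :
    ∃ c : V → ℚ, ∀ a, 0 < lam a + c (Q.tgt a) - c (Q.src a) := by
  set N := Fintype.card V with hN
  obtain ⟨ε, hε, hS⟩ := ptl_eps (S := {l : List E | l.length ≤ N ∧ l ≠ [] ∧ ∃ i, Q.IsPath i l i})
    ((List.finite_length_le E N).subset fun l hl => hl.1) (fun l => (l.map lam).sum)
    (fun l => (l.length : ℚ))
    (fun l hl => by
      obtain ⟨i, hi⟩ := hl.2.2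
      exact h i l hl.2.1 hi)
    (fun l _ => Nat.cast_nonneg _)
  have hcl : ∀ (n : ℕ) (l : List E) (i : V), l.length = n → l ≠ [] → Q.IsPath i l i →
      ε * (l.length : ℚ) ≤ (l.map lam).sum := by
    intro n
    induction n using Nat.strong_induction_on with
    | _ n ih =>
      intro l i hln hl hp
      by_cases hle : l.length ≤ N
      · exact hS l ⟨hle, hl, i, hp⟩
      · obtain ⟨l₁, l₂, l₃, v, rfl, h2, h2N, hp1, hp2, hp3⟩ := ptl_split hp (by omega)
        have hlen : (l₁ ++ l₂ ++ l₃).length = (l₁ ++ l₃).length + l₂.length := by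
          simp only [List.length_append]
          omega
        have h2pos : 0 < l₂.length := List.length_pos_iff.2 h2
        have h13 : 0 < (l₁ ++ l₃).length := by omega
        have e1 := ih l₂.length (by omega) l₂ v rfl h2 hp2
        have e2 := ih (l₁ ++ l₃).length (by omega) (l₁ ++ l₃) i rfl (List.length_pos_iff.1 h13)
          (hp1.append hp3)
        rw [hlen]
        push_cast
        simp only [List.map_append, List.sum_append] at e2 ⊢
        linarith
  have hmu : ∀ (l : List E) (i : V), Q.IsPath i l i → 0 ≤ (l.map fun a => lam a - ε).sum := by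
    intro l i hp
    have e : (l.map fun a => lam a - ε).sum = (l.map lam).sum - ε * (l.length : ℚ) := by
      clear hp
      induction l with
      | nil => simp
      | cons a l ih =>
        rw [List.map_cons, List.sum_cons, ih, List.map_cons, List.sum_cons, List.length_cons]
        push_cast
        ring
    rw [e]
    by_cases hl : l = []
    · subst hl
      simp
    · have := hcl l.length l i rfl hl hp
      linarith
  have hmin : ∀ i : V, ∃ l : List E, (l.length ≤ N ∧ ∃ j, Q.IsPath i l j) ∧
      ∀ l' : List E, (l'.length ≤ N ∧ ∃ j, Q.IsPath i l' j) →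
        (l.map fun a => lam a - ε).sum ≤ (l'.map fun a => lam a - ε).sum := by
    intro i
    obtain ⟨l, hl, hm⟩ := Set.exists_min_image {l : List E | l.length ≤ N ∧ ∃ j, Q.IsPath i l j}
      (fun l => (l.map fun a => lam a - ε).sum)
      ((List.finite_length_le E N).subset fun l hl => hl.1) ⟨[], by simp, i, rfl⟩
    exact ⟨l, hl, hm⟩
  choose L hL hLmin using hmin
  refine ⟨fun i => ((L i).map fun a => lam a - ε).sum, fun a => ?_⟩
  beta_reduce
  have key : ((L (Q.src a)).map fun a => lam a - ε).sum ≤
      ((a :: L (Q.tgt a)).map fun a => lam a - ε).sum := by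
    obtain ⟨hlen, j, hj⟩ := hL (Q.tgt a)
    have hp : Q.IsPath (Q.src a) (a :: L (Q.tgt a)) j := ⟨rfl, hj⟩
    by_cases hle : (a :: L (Q.tgt a)).length ≤ N
    · exact hLmin _ _ ⟨hle, j, hp⟩
    · obtain ⟨l₁, l₂, l₃, v, he, h2, h2N, hp1, hp2, hp3⟩ := ptl_split hp (by omega)
      have h2pos : 0 < l₂.length := List.length_pos_iff.2 h2
      have hl := congrArg List.length he
      rw [List.length_cons, List.length_append, List.length_append] at hl
      have e1 := hLmin (Q.src a) (l₁ ++ l₃) ⟨by rw [List.length_append]; omega, j,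
        hp1.append hp3⟩
      have e2 := hmu l₂ v hp2
      rw [he]
      simp only [List.map_append, List.sum_append] at e1 ⊢
      linarith
  rw [List.map_cons, List.sum_cons] at key
  linarith

end Pool.Agent.Flop
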