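import Pool.Agent.Lib.FlA.Pos4
import Pool.Agent.Lib.FlA.Ptl
import Pool.Agent.Lib.FlA.Eul1
import Pool.Agent.Lib.FlA.Rad
import Pool.Agent.Lib.FlA.Jor3
import Pool.Agent.Lib.FlA.GrC
import Pool.Agent.Lib.FlA.JacAut

/-!
# NCS: noncommutative Saito theorem for thin quivers

D from exists_sder_of_classZero; IsDer D by isDer_of_sder with I = jac Φ (K from hfin; jac Φ <= Fil 2 <= Fil 1: jac_Fil). σ, κ from exists_gen_arrows; D' = σ.symm ∘ D ∘ σ is IsDer (IsDer.conj, aut_Fil), Φ' := σ.symm Φ, D' Φ' - Φ' = σ.symm (D Φ - Φ) in cl Comm (hom_cl_comm). ℓ from exists_ell; lam a := ℓ (κ a). part_mem_of_der with X = cl (Comm Q)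
(isCl_cl, IsDer.cl_comm), c = 1: Φ' - part lam 1 Φ' in cl Comm (ℓ 1 = 1). Ψ := cpart (part lam 1 Φ'): Φ' - Ψ in cl Comm (cpart_sub), Ψ in Fil 3 (aut_Fil, part_Fil, cpart_Fil), and Ψ.cf i j l <> 0 implies i = j and sum lam = 1. jac Ψ = jac Φ' (jac_congr) contains Fil K: f in Fil K: σ f in Fil K <= jac Φ, so f in jac (σ.symm Φ) (jac_aut for σ.symm).
PHyp Ψ lam 1; closed_pos; exists_vertex_potential: c with ν a := lam a + c (tgt a) - c (src a) > 0. N : ℕ, N > 0 a common denominator: N ν a = (w a : ℕ) positive integers (product of the denominators over the finite type E). For a closed path l: sum ν = sum lam (telescoping: induction on the path: sum ν = sum lam + c (end) - c (start)), so sum w = N. IsQH Φ with the automorphism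
σ.symm, weights w, d = N, Ψ.
-/

set_option autoImplicit false

namespace Pool.Agent.Flop

open Finset

variable {V E : Type} [Fintype V] [DecidableEq V] [DecidableEq E] [Fintype E] {Q : Qv V E}

private theorem ncs_weights (ν : E → ℚ) (hν : ∀ a, 0 < ν a) :
    ∃ (N : ℕ) (w : E → ℕ), (∀ a, 0 < w a) ∧ ∀ a, (w a : ℚ) = (N : ℚ) * ν a := by
  classical
  have hN : ∀ a, ∃ k : ℕ, ((∏ b, (ν b).den : ℕ) : ℚ) * ν a = (k : ℚ) := by
    intro a
    obtain ⟨m, hm⟩ := Finset.dvd_prod_of_mem (fun b => (ν b).den) (Finset.mem_univ a)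
    refine ⟨m * (ν a).num.toNat, ?_⟩
    have h1 : ((ν a).num.toNat : ℤ) = (ν a).num :=
      Int.toNat_of_nonneg (Rat.num_nonneg.2 (hν a).le)
    have h2 : (((ν a).num.toNat : ℕ) : ℚ) = ((ν a).num : ℚ) := by exact_mod_cast h1
    have h3 : (((ν a).den : ℕ) : ℚ) * ν a = ((ν a).num : ℚ) := by
      rw [mul_comm]; exact Rat.mul_den_eq_num (ν a)
    rw [hm]
    push_cast
    rw [h2, ← h3]
    ring
  choose w hw using hN
  refine ⟨∏ b, (ν b).den, w, fun a => ?_, fun a => (hw a).symm⟩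
  have h0 : (0 : ℚ) < (w a : ℚ) := by
    rw [← hw a]
    refine mul_pos ?_ (hν a)
    exact_mod_cast Finset.prod_pos fun b _ => (ν b).den_pos
  exact_mod_cast h0

private theorem ncs_tele (lam : E → ℚ) (c : V → ℚ) (N : ℕ) (w : E → ℕ)
    (hw : ∀ a, (w a : ℚ) = (N : ℚ) * (lam a + c (Q.tgt a) - c (Q.src a))) (l : List E) :
    ∀ i j, Q.IsPath i l j →
      (((l.map w).sum : ℕ) : ℚ) = (N : ℚ) * ((l.map lam).sum + c j - c i) := by
  induction l with
  | nil =>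
    intro i j h
    have : i = j := h
    subst this
    simp
  | cons a l ih =>
    intro i j h
    obtain ⟨h1, h2⟩ := h
    rw [List.map_cons, List.sum_cons, List.map_cons, List.sum_cons]
    push_cast
    have h3 := ih _ _ h2
    push_cast at h3
    rw [h3, hw a, h1]
    ring

theorem isQH_of_classZero {Φ : Hat Q} (h3 : Φ ∈ Fil Q 3) (hfin : ∃ K, Fil Q K ≤ jac Φ)
    (ht : Thin Q) (hc : ClassZero Φ) : IsQH Φ := by
  obtain ⟨D, hD, hDΦ, hDj⟩ := exists_sder_of_classZero hc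
  obtain ⟨K, hK⟩ := hfin
  have hj1 : jac Φ ≤ Fil Q 1 := fun f hf =>
    Fil_anti (by norm_num : 1 ≤ 2) (jac_Fil (n := 2) h3 hf)
  have hDD : IsDer D := isDer_of_sder hD (jac Φ) K hK hj1 hDj
  obtain ⟨σ, κ, hσ, hκ⟩ := exists_gen_arrows hDD
  have hσ' : ∀ v, σ.symm (idem Q v) = idem Q v := fun v => by
    rw [AlgEquiv.symm_apply_eq, hσ]
  have hder : IsDer (σ.symm.toLinearMap ∘ₗ D ∘ₗ σ.toLinearMap) :=
    hDD.conj σ hσ (aut_Fil σ hσ) (aut_Fil σ.symm hσ')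
  obtain ⟨ℓ, hℓ⟩ := exists_ell
  have hℓ1 : ℓ (1 : ℂ) = 1 := by
    have := hℓ 1
    rwa [Rat.cast_one] at this
  have hpart := (part_mem_of_der hder hκ ℓ (isCl_cl (Comm Q))
    (fun f hf => hder.cl_comm hf)).2 1 (σ.symm Φ) (by
      have h1 : (σ.symm.toLinearMap ∘ₗ D ∘ₗ σ.toLinearMap) (σ.symm Φ) - (1 : ℂ) • σ.symm Φ =
          σ.symm (D Φ - Φ) := by
        rw [one_smul, map_sub]
        change σ.symm (D (σ (σ.symm Φ))) - σ.symm Φ = _
        rw [AlgEquiv.apply_symm_apply]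
      rw [h1]
      exact hom_cl_comm (σ.symm : Hat Q →ₐ[ℂ] Hat Q) (aut_Fil σ.symm hσ') hDΦ)
  rw [hℓ1] at hpart
  set lam : E → ℚ := fun a => ℓ (κ a) with hlam
  set Ψ : Hat Q := cpart (part lam 1 (σ.symm Φ)) with hΨ
  have hcomm : σ.symm Φ - Ψ ∈ cl (Comm Q) := by
    have h1 : σ.symm Φ - Ψ = (σ.symm Φ - part lam 1 (σ.symm Φ)) +
        (part lam 1 (σ.symm Φ) - cpart (part lam 1 (σ.symm Φ))) := by
      rw [hΨ]; abel
    rw [h1]
    exact Submodule.add_mem _ hpart (cpart_sub _)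
  have hΨ3 : Ψ ∈ Fil Q 3 := cpart_Fil (part_Fil (aut_Fil σ.symm hσ' 3 Φ h3))
  have hΨcf : ∀ i j l, Ψ.cf i j l ≠ 0 → i = j ∧ (l.map lam).sum = 1 := by
    intro i j l h
    rw [hΨ, cf_cpart] at h
    split_ifs at h with hij
    · refine ⟨hij, ?_⟩
      rw [cf_part] at h
      by_contra hne
      exact h (if_neg hne)
    · exact absurd rfl h
  have hjac : Fil Q K ≤ jac Ψ := by
    intro f hf
    rw [← jac_congr hcomm]
    have h1 : σ f ∈ jac Φ := hK (aut_Fil σ hσ K f hf)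
    have h2 := (jac_aut σ.symm hσ' Φ (σ f)).1 h1
    rwa [AlgEquiv.symm_apply_apply] at h2
  have hP : PHyp Ψ lam 1 :=
    ⟨hΨ3, ⟨K, hjac⟩, one_pos, fun i l h => (hΨcf i i l h).2, ht⟩
  obtain ⟨c, hc'⟩ := exists_vertex_potential Q lam
    (fun i l hl hp => hP.closed_pos hl hp)
  obtain ⟨N, w, hw0, hw⟩ := ncs_weights (fun a => lam a + c (Q.tgt a) - c (Q.src a)) hc'
  refine ⟨σ.symm, hσ', w, N, Ψ, hw0, ?_, hcomm⟩
  intro i j l h
  obtain ⟨hij, hsum⟩ := hΨcf i j l h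
  refine ⟨hij, ?_⟩
  have hp : Q.IsPath i l j := Ψ.2 i j l h
  have h1 := ncs_tele lam c N w hw l i j hp
  rw [hsum, hij] at h1
  have h2 : (((l.map w).sum : ℕ) : ℚ) = (N : ℚ) := by
    rw [h1]; ring
  exact_mod_cast h2

end Pool.Agent.Flop
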