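import Pool.Agent.Lib.FlA.Fwd
import Pool.Agent.Lib.FlA.Bwd
import Pool.Agent.Lib.FlA.MdF
import Pool.Agent.Lib.FlA.HsG
import Pool.Agent.Lib.FlA.NCS
import Pool.Agent.Lib.MP_03045c_ag.NQH

/-!
# The main theorem for flop models
-/

set_option autoImplicit false

namespace Pool.Agent.Flop

open Finset MvPowerSeries

variable {V E : Type} [Fintype V] [DecidableEq V] [DecidableEq E] [Fintype E] {Q : Qv V E}
variable {R A : Type} [CommRing R] [Algebra ℂ R] [Ring A] [Algebra ℂ A] [Algebra R A]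
  {o : V} {N : V → Type} [∀ i, AddCommGroup (N i)] [∀ i, Module R (N i)]
  {W : Hat Q} {π : Hat Q →ₐ[ℂ] A}

omit [Fintype V] [DecidableEq V] [DecidableEq E] [Fintype E] in
theorem IsCurveQuiver.thin (h : IsCurveQuiver Q o) : Thin (Q.del o) := by
  refine ⟨fun a b h1 h2 h3 => ?_, fun k hk v hv hall => ?_⟩
  · refine Subtype.ext (h.single a.1 b.1 a.2.1 a.2.2 (fun he => h1 (Subtype.ext he))
      (congrArg Subtype.val h2) (congrArg Subtype.val h3))
  · refine h.cycles k hk (fun i => (v i).1) (fun i j hij => hv (Subtype.ext hij))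
      (fun i => (v i).2) fun i => ?_
    obtain ⟨a, h1, h2⟩ := hall i
    exact ⟨a.1, congrArg Subtype.val h1, congrArg Subtype.val h2⟩

theorem IsFlopModel.main [IsScalarTower ℂ R A] (h : IsFlopModel R Q o N W π) :
    (∀ f, π f ∈ TwoSidedIdeal.span {π (idem Q o)} ↔ res o f ∈ jac (res o W)) ∧
      (IsQHRing R ↔ IsQH (res o W)) ∧ (IsQH (res o W) ↔ ClassZero (res o W)) := by
  obtain ⟨g, θ, hp⟩ := h.exists_prs
  haveI := h.domain
  haveI := hp.isLocalRing
  haveI := hp.isNoetherianRing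
  have hm := h.mdl
  have hW : W ∈ Fil Q 3 := h.jacobi.1
  have hthin := h.curves.thin
  have hfin : ∃ K, Fil (Q.del o) K ≤ jac (res o W) := by
    obtain ⟨L, hL⟩ := h.exists_pow
    exact hm.fin_del_of_pow hL
  have h1 : IsQHRing R → ClassZero (res o W) := by
    by_cases hv : ∃ j, j ≠ o
    · obtain ⟨j, hj⟩ := hv
      exact hm.classZero_of_isQHRing hp h.exists_lift
        (fun w d f θ₁ hw hf hpf hx => h.lt_sum hj hw hf hpf hx) hfin hthin
    · intro _
      have h0 : res o W = 0 := by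
        apply Hat.ext_cf
        intro i
        exact absurd ⟨i.1, i.2⟩ hv
      unfold ClassZero
      rw [h0]
      exact Submodule.zero_mem _
  have h2 : ClassZero (res o W) → IsQH (res o W) :=
    isQH_of_classZero (res_Fil o hW) hfin hthin
  have h3 : IsQH (res o W) → ClassZero (res o W) :=
    classZero_of_isQH (res_Fil o (Fil_anti (by norm_num) hW))
  have h4 : ClassZero (res o W) → IsQHRing R := fun hc => hm.isQHRing hp hc
  exact ⟨hm.contr_iff, ⟨fun hq => h2 (h1 hq), fun hq => h4 (h3 hq)⟩, ⟨h3, h2⟩⟩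

end Pool.Agent.Flop
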