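import Pool.Agent.Lib.FlA.Bs1
import Pool.Agent.Lib.FlA.RcB

/-!
# PSyz: from exactness over the algebra to the condition Syz

Given j, y, z as in Syz. Apply h to y' a = π (y a): y' a * π(e_{tgt a}) = y' a. For b with tgt b = j: sum_a y' a * π (rc b (cyc a W)) = π (rc b (sum_a y a * cyc a W)) (rc_mul: cyc a W in Fil 1 by cyc_mem_Fil; rc_sum)
= π (rc b (sum_c z c * arr c)) = π (z b * e_{src b}) (rc_mul_arr) = 0 since z b in jac W. So there is x' = π x (surjectivity) with π (y a) = π x * π (arr a), π (y a - x * arr a) = 0.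
-/

set_option autoImplicit false

namespace Pool.Agent.Flop

open Finset

variable {V E : Type} [Fintype V] [DecidableEq V] [DecidableEq E] {Q : Qv V E}

theorem syz_of [Fintype E] {A : Type} [Ring A] [Algebra ℂ A] {W : Hat Q} (hW : W ∈ Fil Q 2)
    (π : Hat Q →ₐ[ℂ] A) (hs : Function.Surjective π) (hk : ∀ f, π f = 0 ↔ f ∈ jac W)
    (h : ∀ (j : V) (y : E → A), (∀ a, y a * π (idem Q (Q.tgt a)) = y a) →
      (∀ a, Q.src a ≠ j → y a = 0) →
      (∀ b, Q.tgt b = j → ∑ a : E, y a * π (rc b (cyc a W)) = 0) →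
      ∃ x : A, ∀ a, Q.src a = j → y a = x * π (arr Q a)) : Syz W := by
  intro j y z hy hy0 hz hsum
  have hW1 : ∀ a, cyc a W ∈ Fil Q 1 := fun a => cyc_mem_Fil a hW
  have key : ∀ b, ∑ a : E, π (y a) * π (rc b (cyc a W)) = 0 := by
    intro b
    have h1 : ∑ a, y a * rc b (cyc a W) = z b * idem Q (Q.src b) := by
      have h2 := congrArg (rc b) hsum
      rw [rc_sum, rc_sum] at h2
      simp only [rc_mul b _ (hW1 _), rc_mul_arr] at h2
      rw [h2, Finset.sum_eq_single b]
      · rw [if_pos rfl]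
      · intro c _ hc
        rw [if_neg (Ne.symm hc)]
      · exact fun h' => absurd (Finset.mem_univ b) h'
    have h3 : ∑ a : E, π (y a) * π (rc b (cyc a W)) = π (∑ a, y a * rc b (cyc a W)) := by
      rw [map_sum]
      exact Finset.sum_congr rfl fun a _ => (map_mul π _ _).symm
    rw [h3, h1, map_mul, (hk _).2 (hz b), zero_mul]
  obtain ⟨x', hx'⟩ := h j (fun a => π (y a)) (fun a => by rw [← map_mul, hy])
    (fun a ha => by rw [hy0 a ha, map_zero]) (fun b _ => key b)
  obtain ⟨x, rfl⟩ := hs x'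
  exact ⟨x, fun a ha => (hk _).1 (by rw [map_sub, map_mul, ← hx' a ha, sub_self])⟩

end Pool.Agent.Flop
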