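import Pool.Agent.Lib.FlA.Str

/-!
# Pos1: positivity of loops

Let i = src c and L = the (finite, non-empty) set of loops at i. μ0 = min of lam on L, attained at a0. Suppose μ0 <= 0. exists_word with S = {a in L, lam a = μ0}, l = [a0]: c1, p: all letters of p are loops at i with weight μ0, p not empty and IsPath (tgt c1) p (src c1): so tgt c1 = i = src c1 (induction on the path), c1 in L, lam c1 = w - k μ0 with k = p.length >= 2,
so lam c1 >= w - 2 μ0. Let M = max of lam on L, M >= w - 2 μ0 > 0, attained at a1; exists_word with S = {a in L, lam a = M}: c2 in L, lam c2 = w - k' M, k' >= 2: lam c2 <= w - 2 M <= w - 2 w + 4 μ0 = 4 μ0 - w < μ0 (since 3 μ0 <= 0 < w): contradiction to the minimality. So all loops have positive weight. If lam c >= w: exists_word with S = {c}: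
c3 a loop at i with lam c3 = w - k lam c <= w - 2 w < 0: contradiction.
-/

set_option autoImplicit false

namespace Pool.Agent.Flop

open Finset

variable {V E : Type} [Fintype V] [DecidableEq V] [DecidableEq E] [Fintype E] {Q : Qv V E}
variable {Φ : Hat Q} {lam : E → ℚ} {w : ℚ}

omit [Fintype V] [DecidableEq V] [DecidableEq E] [Fintype E] in
private theorem pos1_ends {i : V} (p : List E) (hp : ∀ a ∈ p, Q.src a = i ∧ Q.tgt a = i) :
    ∀ x y : V, p ≠ [] → Q.IsPath x p y → x = i ∧ y = i := by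
  induction p with
  | nil => intro x y h _; exact absurd rfl h
  | cons a l ih =>
    intro x y _ h
    have ha := hp a List.mem_cons_self
    refine ⟨h.1.symm.trans ha.1, ?_⟩
    by_cases hl : l = []
    · subst hl
      have h2 : Q.tgt a = y := h.2
      exact h2.symm.trans ha.2
    · exact (ih (fun b hb => hp b (List.mem_cons_of_mem a hb)) _ _ hl h.2).2

omit [Fintype V] [DecidableEq V] [DecidableEq E] [Fintype E] in
private theorem pos1_sum {m : ℚ} (p : List E) (hp : ∀ a ∈ p, lam a = m) :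
    (p.map lam).sum = (p.length : ℚ) * m := by
  induction p with
  | nil => simp
  | cons a l ih =>
    rw [List.map_cons, List.sum_cons, ih (fun b hb => hp b (List.mem_cons_of_mem a hb)),
      hp a List.mem_cons_self, List.length_cons]
    push_cast
    ring

private theorem pos1_word (h : PHyp Φ lam w) {i : V} {a : E} (h1 : Q.src a = i)
    (h2 : Q.tgt a = i) :
    ∃ (c : E) (k : ℕ), Q.src c = i ∧ Q.tgt c = i ∧ 2 ≤ k ∧ lam c + (k : ℚ) * lam a = w := by
  obtain ⟨c, p, hS, hlen, hpath, hsum⟩ :=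
    h.exists_word {b | Q.src b = i ∧ Q.tgt b = i ∧ lam b = lam a} (i := i) (l := [a])
      (List.cons_ne_nil _ _) ⟨h1, h2⟩ (by
        intro b hb
        rw [List.mem_singleton] at hb
        subst hb
        exact ⟨h1, h2, rfl⟩)
  have hne : p ≠ [] := by
    intro h0
    rw [h0, List.length_nil] at hlen
    omega
  have hends := pos1_ends (Q := Q) (i := i) p (fun b hb => ⟨(hS b hb).1, (hS b hb).2.1⟩) _ _
    hne hpath
  refine ⟨c, p.length, hends.2, hends.1, hlen, ?_⟩
  rw [← hsum, pos1_sum p (fun b hb => (hS b hb).2.2)]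

theorem PHyp.loop (h : PHyp Φ lam w) {c : E} (hc : Q.src c = Q.tgt c) : 0 < lam c ∧ lam c < w := by
  classical
  set i := Q.src c with hi
  set L : Finset E := Finset.univ.filter fun a => Q.src a = i ∧ Q.tgt a = i with hL
  have hmem : ∀ a, a ∈ L ↔ Q.src a = i ∧ Q.tgt a = i := fun a => by
    rw [hL, Finset.mem_filter]
    exact ⟨fun h => h.2, fun h => ⟨Finset.mem_univ _, h⟩⟩
  have hcL : c ∈ L := (hmem c).mpr ⟨hi.symm, hc.symm⟩
  obtain ⟨a0, ha0, hmin⟩ := Finset.exists_min_image L lam ⟨c, hcL⟩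
  obtain ⟨a1, ha1, hmax⟩ := Finset.exists_max_image L lam ⟨c, hcL⟩
  have hw := h.pos
  have hpos : 0 < lam a0 := by
    by_contra hle
    rw [not_lt] at hle
    obtain ⟨c1, k1, s1, t1, hk1, e1⟩ := pos1_word h ((hmem a0).mp ha0).1 ((hmem a0).mp ha0).2
    have hk1' : (2 : ℚ) ≤ (k1 : ℚ) := by exact_mod_cast hk1
    have b1 : w - 2 * lam a0 ≤ lam c1 := by nlinarith
    have b2 : lam c1 ≤ lam a1 := hmax c1 ((hmem c1).mpr ⟨s1, t1⟩)
    obtain ⟨c2, k2, s2, t2, hk2, e2⟩ := pos1_word h ((hmem a1).mp ha1).1 ((hmem a1).mp ha1).2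
    have hk2' : (2 : ℚ) ≤ (k2 : ℚ) := by exact_mod_cast hk2
    have hM : 0 < lam a1 := by linarith
    have b3 : lam c2 ≤ w - 2 * lam a1 := by nlinarith
    have b4 : lam a0 ≤ lam c2 := hmin c2 ((hmem c2).mpr ⟨s2, t2⟩)
    linarith
  refine ⟨lt_of_lt_of_le hpos (hmin c hcL), ?_⟩
  by_contra hge
  rw [not_lt] at hge
  obtain ⟨c3, k3, s3, t3, hk3, e3⟩ := pos1_word h hi.symm hc.symm
  have hk3' : (2 : ℚ) ≤ (k3 : ℚ) := by exact_mod_cast hk3
  have b5 : lam c3 ≤ w - 2 * lam c := by nlinarith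
  have b6 : lam a0 ≤ lam c3 := hmin c3 ((hmem c3).mpr ⟨s3, t3⟩)
  linarith

end Pool.Agent.Flop
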