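import Pool.Agent.Lib.FlA.Pos1

/-!
# Pos2: positivity of cycles of length two

`alt_path`: i = src a, j = tgt a, i <> j. By induction on p, simultaneously for x in {i, j}: a path p from i with letters in {a, b} of length n: ends at i and has weight (n/2) (lam a + lam b) if n is even, ends at j and has weight (n/2)(lam a + lam b) + lam a if n is odd. From j: the same with a, b exchanged. (The first letter from i must be a as src b = j <> i.)
`two`: suppose s = lam a + lam b <= 0. exists_word with S = {a, b}, l = [a, b]: c, p, n = p.length >= 2. p starts in tgt c = i or j (its first letter is a or b). If n is even: src c = tgt c: c is a loop, lam c = w - (n/2) s >= w: contradiction to loop. If n is odd, n >= 3: p from tgt c = i to src c = j: c is parallel to b, so c = b (thin.single for b: src b <> tgt b):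
lam b + (n/2) s + lam a = w: (n/2 + 1) s = w > 0: contradiction. p from j to i: c = a, the same. (n/2 = Nat division.)
-/

set_option autoImplicit false

namespace Pool.Agent.Flop

open Finset

variable {V E : Type} [Fintype V] [DecidableEq V] [DecidableEq E] [Fintype E] {Q : Qv V E}
variable {Φ : Hat Q} {lam : E → ℚ} {w : ℚ}

theorem alt_path (lam : E → ℚ) {a b : E} (h1 : Q.tgt a = Q.src b) (h2 : Q.tgt b = Q.src a)
    (hne : Q.src a ≠ Q.tgt a) {y : V} {p : List E} (hp : Q.IsPath (Q.src a) p y)
    (hS : ∀ c ∈ p, c = a ∨ c = b) : ∃ m : ℕ,
      (p.length = 2 * m ∧ y = Q.src a ∧ (p.map lam).sum = m * (lam a + lam b)) ∨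
      (p.length = 2 * m + 1 ∧ y = Q.tgt a ∧ (p.map lam).sum = m * (lam a + lam b) + lam a) := by
  induction hn : p.length using Nat.strong_induction_on generalizing p with
  | _ n ih =>
    match p, hp, hS, hn with
    | [], hp, _, hn =>
      refine ⟨0, Or.inl ⟨?_, ?_, ?_⟩⟩
      · simp at hn
        omega
      · exact hp.symm
      · simp
    | c :: p, hp, hS, hn =>
      have hc : c = a := by
        rcases hS c (List.mem_cons_self) with h | h
        · exact h
        · exfalso
          have h3 := hp.1
          rw [h, ← h1] at h3
          exact hne h3.symm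
      subst hc
      match p, hp, hS, hn with
      | [], hp, _, hn =>
        refine ⟨0, Or.inr ⟨?_, ?_, ?_⟩⟩
        · simp at hn
          omega
        · exact hp.2.symm
        · simp
      | d :: p, hp, hS, hn =>
        have hd : d = b := by
          rcases hS d (List.mem_cons_of_mem _ List.mem_cons_self) with h | h
          · exfalso
            have h3 := hp.2.1
            rw [h] at h3
            exact hne h3
          · exact h
        subst hd
        have hp2 : Q.IsPath (Q.src c) p y := by
          have h3 := hp.2.2
          rwa [h2] at h3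
        have hS2 : ∀ e ∈ p, e = c ∨ e = d := fun e he =>
          hS e (List.mem_cons_of_mem _ (List.mem_cons_of_mem _ he))
        simp only [List.length_cons] at hn
        obtain ⟨m, hm⟩ := ih p.length (by omega) hp2 hS2 rfl
        refine ⟨m + 1, ?_⟩
        rcases hm with ⟨h4, h5, h6⟩ | ⟨h4, h5, h6⟩
        · left
          refine ⟨by omega, h5, ?_⟩
          simp only [List.map_cons, List.sum_cons, h6]
          push_cast
          ring
        · right
          refine ⟨by omega, h5, ?_⟩
          simp only [List.map_cons, List.sum_cons, h6]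
          push_cast
          ring

theorem PHyp.two (h : PHyp Φ lam w) {a b : E} (h1 : Q.tgt a = Q.src b) (h2 : Q.tgt b = Q.src a)
    (hne : Q.src a ≠ Q.tgt a) : 0 < lam a + lam b := by
  by_contra hs
  push Not at hs
  have hpos := h.pos
  have hpath : Q.IsPath (Q.src a) [a, b] (Q.src a) := ⟨rfl, h1.symm, h2⟩
  obtain ⟨c, p, hpS, hlen, hp, hw⟩ := h.exists_word ({a, b} : Set E) (by simp) hpath
    (by intro e he; simpa using he)
  have hS : ∀ e ∈ p, e = a ∨ e = b := fun e he => by simpa using hpS e he
  have hne' : Q.src b ≠ Q.tgt b := by
    rw [← h1, h2]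
    exact fun h' => hne h'.symm
  have key : ∀ m : ℕ, (m : ℚ) * (lam a + lam b) ≤ 0 := fun m =>
    mul_nonpos_of_nonneg_of_nonpos (Nat.cast_nonneg m) hs
  have hstart : Q.tgt c = Q.src a ∨ Q.tgt c = Q.src b := by
    match p, hp, hS, hlen with
    | [], _, _, hlen => simp at hlen
    | e :: p, hp, hS, _ =>
      rcases hS e List.mem_cons_self with h3 | h3
      · left; rw [← hp.1, h3]
      · right; rw [← hp.1, h3]
  rcases hstart with h3 | h3
  · rw [h3] at hp
    obtain ⟨m, hm⟩ := alt_path lam h1 h2 hne hp hS
    rcases hm with ⟨_, h5, h6⟩ | ⟨_, h5, h6⟩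
    · have h7 := (h.loop (c := c) (by rw [h5, h3])).2
      have := key m
      linarith
    · have h7 : b = c := h.thin.single b c hne' (by rw [h5, h1]) (by rw [h3, h2])
      subst h7
      have := key (m + 1)
      push_cast at this
      linarith
  · rw [h3] at hp
    obtain ⟨m, hm⟩ := alt_path lam h2 h1 hne' hp (fun e he => (hS e he).symm)
    rcases hm with ⟨_, h5, h6⟩ | ⟨_, h5, h6⟩
    · have h7 := (h.loop (c := c) (by rw [h5, h3])).2
      have := key m
      linarith
    · have h7 : a = c := h.thin.single a c hne (by rw [h5, h2]) (by rw [h3, h1])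
      subst h7
      have := key (m + 1)
      push_cast at this
      linarith

end Pool.Agent.Flop
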