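import Pool.Agent.Lib.FlA.Pos2

/-!
# Pos3: positivity of cycles of length three

i = src a, j = src b = tgt a, k = src c = tgt b, tgt c = i, all different. `cyc3_path`: a path from i with letters in {a, b, c}: length 3m ends at i with weight m s; 3m+1: ends at j, weight m s + lam a; 3m+2: ends at k, weight m s + lam a + lam b (s = lam a + lam b + lam c). Induction on p using the three rotations at once (state the lemma for all rotations:
it is stated for an arbitrary triple, so apply the induction hypothesis to the triple (b, c, a) after removing the first letter a: from j; then combine.) `three_cycle`: suppose s <= 0. exists_word with S = {a, b, c}, l = [a, b, c]: d, p, n = p.length >= 2, p starts at one of i, j, k; the statement is symmetric under rotation of (a, b, c), so treat a start in i (write the argument as a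
lemma for a path starting at src a and apply it to the three rotations: s is invariant). So tgt d = i. n = 3m (m >= 1): d loop at i, lam d = w - m s >= w: against loop. n = 3m + 2: src d = k, tgt d = i: d = c (single for c, src c <> tgt c): (m + 1) s = w > 0: contradiction. n = 3m + 1, m >= 1: src d = j, tgt d = i: lam d + lam a = w - m s >= w. Now use
exists_word with S = {a, d}, l = [a, d] (2-cycle between i and j): e, q of length n' >= 2, alt_path (q starts at src a = i or at src d = j; use alt_path for (a, d) or (d, a)): n' = 2m' even, m' >= 1: e is a loop, lam e = w - m' (lam a + lam d) <= w - w = 0: against loop. n' = 2m' + 1 odd, m' >= 1: e is parallel to d or a, so equal (single), (m' + 1)(lam a + lam d) = w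
with m' + 1 >= 2, but lam a + lam d >= w > 0: contradiction.
-/

set_option autoImplicit false

namespace Pool.Agent.Flop

open Finset

variable {V E : Type} [Fintype V] [DecidableEq V] [DecidableEq E] [Fintype E] {Q : Qv V E}
variable {Φ : Hat Q} {lam : E → ℚ} {w : ℚ}

private theorem Pos3_cyc3 (lam : E → ℚ) {y : V} {p : List E} : ∀ {a b c : E},
    Q.tgt a = Q.src b → Q.tgt b = Q.src c → Q.tgt c = Q.src a → Q.src a ≠ Q.src b →
    Q.src b ≠ Q.src c → Q.src c ≠ Q.src a → Q.IsPath (Q.src a) p y →
    (∀ e ∈ p, e = a ∨ e = b ∨ e = c) → ∃ m : ℕ,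
      (p.length = 3 * m ∧ y = Q.src a ∧ (p.map lam).sum = m * (lam a + lam b + lam c)) ∨
      (p.length = 3 * m + 1 ∧ y = Q.src b ∧
        (p.map lam).sum = m * (lam a + lam b + lam c) + lam a) ∨
      (p.length = 3 * m + 2 ∧ y = Q.src c ∧
        (p.map lam).sum = m * (lam a + lam b + lam c) + lam a + lam b) := by
  induction p with
  | nil =>
    intro a b c _ _ _ _ _ _ hp _
    refine ⟨0, Or.inl ⟨by simp, ?_, by simp⟩⟩
    exact hp.symm
  | cons e p ih =>
    intro a b c h1 h2 h3 hab hbc hca hp hS
    obtain ⟨he, hp'⟩ := hp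
    have hea : e = a := by
      rcases hS e (by simp) with h | h | h
      · exact h
      · exact absurd (h ▸ he).symm hab
      · exact absurd (h ▸ he) hca
    subst hea
    rw [h1] at hp'
    obtain ⟨m, hm⟩ := ih h2 h3 h1 hbc hca hab hp' (fun x hx => by
      rcases hS x (List.mem_cons_of_mem _ hx) with h | h | h
      · exact Or.inr (Or.inr h)
      · exact Or.inl h
      · exact Or.inr (Or.inl h))
    rcases hm with ⟨hl, hy, hs⟩ | ⟨hl, hy, hs⟩ | ⟨hl, hy, hs⟩
    · refine ⟨m, Or.inr (Or.inl ⟨by simp [hl], hy, ?_⟩)⟩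
      rw [List.map_cons, List.sum_cons, hs]
      ring
    · refine ⟨m, Or.inr (Or.inr ⟨by simp [hl], hy, ?_⟩)⟩
      rw [List.map_cons, List.sum_cons, hs]
      ring
    · refine ⟨m + 1, Or.inl ⟨by simp [hl]; ring, hy, ?_⟩⟩
      rw [List.map_cons, List.sum_cons, hs]
      push_cast
      ring

private theorem Pos3_alt (h : PHyp Φ lam w) {a d e : E} {q : List E}
    (h1 : Q.tgt a = Q.src d) (h2 : Q.tgt d = Q.src a) (hne : Q.src a ≠ Q.tgt a)
    (hw : w ≤ lam a + lam d) (hS : ∀ c ∈ q, c = a ∨ c = d) (hq : 2 ≤ q.length)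
    (hp : Q.IsPath (Q.src a) q (Q.src e)) (he : Q.tgt e = Q.src a)
    (hs : lam e + (q.map lam).sum = w) : False := by
  have hpos := h.pos
  obtain ⟨m, hm⟩ := alt_path lam h1 h2 hne hp hS
  rcases hm with ⟨hl, hy, hsum⟩ | ⟨hl, hy, hsum⟩
  · have hloop := h.loop (c := e) (by rw [hy, he])
    have hm1 : (1 : ℚ) ≤ m := by
      have : 1 ≤ m := by omega
      exact_mod_cast this
    rw [hsum] at hs
    nlinarith [hloop.1]
  · have hed : e = d := by
      refine (h.thin.single d e ?_ ?_ ?_).symm
      · rw [← h1, h2]; exact fun hh => hne hh.symm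
      · rw [hy, h1]
      · rw [he, h2]
    subst hed
    have hm1 : (1 : ℚ) ≤ m := by
      have : 1 ≤ m := by omega
      exact_mod_cast this
    rw [hsum] at hs
    nlinarith

private theorem Pos3_main (h : PHyp Φ lam w) {a b c d : E} {p : List E} (h1 : Q.tgt a = Q.src b)
    (h2 : Q.tgt b = Q.src c) (h3 : Q.tgt c = Q.src a) (hab : Q.src a ≠ Q.src b)
    (hbc : Q.src b ≠ Q.src c) (hca : Q.src c ≠ Q.src a) (hle : lam a + lam b + lam c ≤ 0)
    (hS : ∀ e ∈ p, e = a ∨ e = b ∨ e = c) (hp2 : 2 ≤ p.length)
    (hp : Q.IsPath (Q.src a) p (Q.src d)) (hd : Q.tgt d = Q.src a)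
    (hs : lam d + (p.map lam).sum = w) : False := by
  have hpos := h.pos
  obtain ⟨m, hm⟩ := Pos3_cyc3 lam h1 h2 h3 hab hbc hca hp hS
  have hm0 : (0 : ℚ) ≤ m := Nat.cast_nonneg m
  rcases hm with ⟨hl, hy, hsum⟩ | ⟨hl, hy, hsum⟩ | ⟨hl, hy, hsum⟩
  · have hloop := h.loop (c := d) (by rw [hy, hd])
    rw [hsum] at hs
    nlinarith [hloop.2]
  · rw [hsum] at hs
    have hwad : w ≤ lam a + lam d := by nlinarith
    have hne : Q.src a ≠ Q.tgt a := by rw [h1]; exact hab
    have h1' : Q.tgt a = Q.src d := by rw [h1, hy]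
    obtain ⟨e, q, hq1, hq2, hq3, hq4⟩ := h.exists_word {x | x = a ∨ x = d} (i := Q.src a)
      (l := [a, d]) (by simp) (by exact ⟨rfl, h1'.symm, hd⟩) (by simp)
    match q, hq2 with
    | x :: q', hq2 =>
      obtain ⟨hx, -⟩ := id hq3
      rcases hq1 x (by simp) with hxa | hxd
      · have he : Q.tgt e = Q.src a := by rw [← hx, hxa]
        rw [he] at hq3
        exact Pos3_alt h h1' hd hne hwad (fun c hc => hq1 c hc) hq2 hq3 he hq4
      · have he : Q.tgt e = Q.src d := by rw [← hx, hxd]
        rw [he] at hq3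
        refine Pos3_alt h hd h1' ?_ (by linarith) (fun c hc => (hq1 c hc).symm) hq2 hq3 he hq4
        rw [hd, ← h1']
        exact hne.symm
  · have hdc : d = c := by
      refine (h.thin.single c d ?_ ?_ ?_).symm
      · rw [h3]; exact hca
      · exact hy
      · rw [hd, h3]
    subst hdc
    rw [hsum] at hs
    nlinarith

theorem PHyp.three_cycle (h : PHyp Φ lam w) {a b c : E} (h1 : Q.tgt a = Q.src b)
    (h2 : Q.tgt b = Q.src c) (h3 : Q.tgt c = Q.src a) (hab : Q.src a ≠ Q.src b)
    (hbc : Q.src b ≠ Q.src c) (hca : Q.src c ≠ Q.src a) : 0 < lam a + lam b + lam c := by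
  by_contra hcon
  rw [not_lt] at hcon
  obtain ⟨d, p, hp1, hp2, hp3, hp4⟩ := h.exists_word {x | x = a ∨ x = b ∨ x = c} (i := Q.src a)
    (l := [a, b, c]) (by simp) (by exact ⟨rfl, h1.symm, h2.symm, h3⟩) (by simp)
  match p, hp2 with
  | x :: p', hp2 =>
    obtain ⟨hx, -⟩ := id hp3
    rcases hp1 x (by simp) with hxa | hxb | hxc
    · have hd : Q.tgt d = Q.src a := by rw [← hx, hxa]
      rw [hd] at hp3
      exact Pos3_main h h1 h2 h3 hab hbc hca hcon (fun e he => hp1 e he) hp2 hp3 hd hp4
    · have hd : Q.tgt d = Q.src b := by rw [← hx, hxb]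
      rw [hd] at hp3
      exact Pos3_main h h2 h3 h1 hbc hca hab (by linarith) (fun e he => by
        rcases hp1 e he with h | h | h
        · exact Or.inr (Or.inr h)
        · exact Or.inl h
        · exact Or.inr (Or.inl h)) hp2 hp3 hd hp4
    · have hd : Q.tgt d = Q.src c := by rw [← hx, hxc]
      rw [hd] at hp3
      exact Pos3_main h h3 h1 h2 hca hab hbc (by linarith) (fun e he => by
        rcases hp1 e he with h | h | h
        · exact Or.inr (Or.inl h)
        · exact Or.inr (Or.inr h)
        · exact Or.inl h) hp2 hp3 hd hp4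

end Pool.Agent.Flop
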