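import Pool.Agent.Lib.FlA.Krl
import Pool.Agent.Lib.FlA.Conn

/-!
# Rep: a matrix representation of A with bounded denominators

The left ideal generated by the idempotent of the vertex `o` in `K ⊗ A` is a finite-dimensional
representation; a basis adapted to the idempotents of the vertices gives the matrices.
-/

set_option autoImplicit false

namespace Pool.Agent.Flop

open Finset TensorProduct

section aux

variable {K T V : Type} [Field K] [Ring T] [Algebra K T]

/-- The elements fixed by `ε i` on the left and by `ε o` on the right. -/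
private def repS (ε : V → T) (o i : V) : Submodule K T where
  carrier := {x | ε i * x = x ∧ x * ε o = x}
  add_mem' := by
    rintro x y ⟨h1, h2⟩ ⟨h3, h4⟩
    exact ⟨by rw [mul_add, h1, h3], by rw [add_mul, h2, h4]⟩
  zero_mem' := ⟨mul_zero _, zero_mul _⟩
  smul_mem' := by
    rintro c x ⟨h1, h2⟩
    exact ⟨by rw [mul_smul_comm, h1], by rw [smul_mul_assoc, h2]⟩

variable [Fintype V] [DecidableEq V]

omit [DecidableEq V] in
private theorem rep_sum_mul {ε : V → T} {o : V} (x : ∀ i, repS (K := K) ε o i) :
    (∑ j, (x j : T)) * ε o = ∑ j, (x j : T) := by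
  rw [Finset.sum_mul]
  exact Finset.sum_congr rfl fun j _ => (x j).2.2

private theorem rep_mul_sum {ε : V → T} {o : V}
    (h2 : ∀ v w, ε v * ε w = if v = w then ε v else 0) (x : ∀ i, repS (K := K) ε o i) (i : V) :
    ε i * ∑ j, (x j : T) = (x i : T) := by
  rw [Finset.mul_sum, Finset.sum_eq_single i]
  · exact (x i).2.1
  · intro j _ hj
    rw [← (x j).2.1, ← mul_assoc, h2, if_neg (Ne.symm hj), zero_mul]
  · intro h
    exact absurd (Finset.mem_univ i) h

/-- The representation. -/
private noncomputable def repL (ε : V → T) (o : V) (h1 : ∑ v, ε v = 1)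
    (h2 : ∀ v w, ε v * ε w = if v = w then ε v else 0) :
    T →ₐ[K] Module.End K (∀ i, repS (K := K) ε o i) where
  toFun t :=
    { toFun := fun x i => ⟨ε i * (t * ∑ j, (x j : T)), by
        refine ⟨?_, ?_⟩
        · rw [← mul_assoc, h2, if_pos rfl]
        · rw [mul_assoc, mul_assoc, rep_sum_mul]⟩
      map_add' := by
        intro x y
        funext i
        apply Subtype.ext
        change ε i * (t * ∑ j, ((x j : T) + (y j : T))) =
          ε i * (t * ∑ j, (x j : T)) + ε i * (t * ∑ j, (y j : T))
        rw [Finset.sum_add_distrib, mul_add, mul_add]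
      map_smul' := by
        intro c x
        funext i
        apply Subtype.ext
        change ε i * (t * ∑ j, (c • (x j : T))) = c • (ε i * (t * ∑ j, (x j : T)))
        rw [← Finset.smul_sum, mul_smul_comm, mul_smul_comm] }
  map_one' := by
    refine LinearMap.ext fun x => ?_
    funext i
    apply Subtype.ext
    change ε i * (1 * ∑ j, (x j : T)) = (x i : T)
    rw [one_mul, rep_mul_sum h2]
  map_mul' := by
    intro s t
    refine LinearMap.ext fun x => ?_
    funext i
    apply Subtype.ext
    change ε i * (s * t * ∑ j, (x j : T)) = ε i * (s * ∑ k, (ε k * (t * ∑ j, (x j : T))))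
    rw [← Finset.sum_mul, h1, one_mul, mul_assoc s]
  map_zero' := by
    refine LinearMap.ext fun x => ?_
    funext i
    apply Subtype.ext
    change ε i * (0 * ∑ j, (x j : T)) = 0
    rw [zero_mul, mul_zero]
  map_add' := by
    intro s t
    refine LinearMap.ext fun x => ?_
    funext i
    apply Subtype.ext
    change ε i * ((s + t) * ∑ j, (x j : T)) =
      ε i * (s * ∑ j, (x j : T)) + ε i * (t * ∑ j, (x j : T))
    rw [add_mul, mul_add]
  commutes' := by
    intro c
    refine LinearMap.ext fun x => ?_
    funext i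
    apply Subtype.ext
    rw [Algebra.algebraMap_eq_smul_one, Algebra.algebraMap_eq_smul_one]
    change ε i * ((c • (1 : T)) * ∑ j, (x j : T)) = c • (x i : T)
    rw [smul_mul_assoc, one_mul, mul_smul_comm, rep_mul_sum h2]

private theorem repL_apply (ε : V → T) (o : V) (h1 : ∑ v, ε v = 1)
    (h2 : ∀ v w, ε v * ε w = if v = w then ε v else 0) (t : T)
    (x : ∀ i, repS (K := K) ε o i) (i : V) :
    ((repL ε o h1 h2 t x i : repS (K := K) ε o i) : T) = ε i * (t * ∑ j, (x j : T)) := rfl

private theorem repL_idem (ε : V → T) (o : V) (h1 : ∑ v, ε v = 1)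
    (h2 : ∀ v w, ε v * ε w = if v = w then ε v else 0) (i p : V) (y : repS (K := K) ε o p) :
    repL (K := K) ε o h1 h2 (ε i) (Pi.single p y) = if p = i then Pi.single p y else 0 := by
  funext k
  apply Subtype.ext
  rw [repL_apply, rep_mul_sum h2]
  by_cases hp : p = i
  · subst hp
    rw [if_pos rfl]
    by_cases hk : k = p
    · subst hk
      rw [Pi.single_eq_same]
      exact y.2.1
    · rw [Pi.single_eq_same, Pi.single_eq_of_ne hk, ← y.2.1, ← mul_assoc, h2, if_neg hk]
      exact zero_mul _
  · rw [if_neg hp, Pi.single_eq_of_ne (Ne.symm hp)]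
    exact mul_zero _

private theorem rep_exists [Module.Finite K T] (ε : V → T) (o : V) (h1 : ∑ v, ε v = 1)
    (h2 : ∀ v w, ε v * ε w = if v = w then ε v else 0)
    (h3 : ∀ t, ∃ c : K, ε o * t * ε o = c • ε o) (h4 : ε o ≠ 0) :
    ∃ (d : ℕ) (M : T →ₐ[K] Matrix (Fin d) (Fin d) K),
      (∀ i k l, M (ε i) k l = 0 ∨ M (ε i) k l = 1) ∧ (M (ε o)).trace = 1 := by
  classical
  let b : Module.Basis (Σ i, Fin (Module.finrank K (repS (K := K) ε o i))) K
      (∀ i, repS (K := K) ε o i) := Pi.basis fun i => Module.finBasis K (repS (K := K) ε o i)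
  let e := Fintype.equivFin (Σ i, Fin (Module.finrank K (repS (K := K) ε o i)))
  let v := b.reindex e
  have hcol : ∀ i k, repL (K := K) ε o h1 h2 (ε i) (v k) =
      if (e.symm k).1 = i then v k else 0 := by
    intro i k
    have hv : v k = Pi.single (e.symm k).1
        (Module.finBasis K (repS (K := K) ε o (e.symm k).1) (e.symm k).2) := by
      change b.reindex e k = _
      rw [Module.Basis.reindex_apply]
      exact Pi.basis_apply _ _
    rw [hv, repL_idem]
  have hent : ∀ i k l, LinearMap.toMatrixAlgEquiv v (repL (K := K) ε o h1 h2 (ε i)) k l =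
      if (e.symm l).1 = i then (if l = k then 1 else 0) else 0 := by
    intro i k l
    rw [LinearMap.toMatrixAlgEquiv_apply, hcol]
    split_ifs with h h'
    · rw [Module.Basis.repr_self, h', Finsupp.single_eq_same]
    · rw [Module.Basis.repr_self, Finsupp.single_eq_of_ne (Ne.symm h')]
    · rw [map_zero]
      rfl
  refine ⟨_, (LinearMap.toMatrixAlgEquiv v).toAlgHom.comp (repL (K := K) ε o h1 h2), ?_, ?_⟩
  · intro i k l
    change LinearMap.toMatrixAlgEquiv v (repL (K := K) ε o h1 h2 (ε i)) k l = 0 ∨
      LinearMap.toMatrixAlgEquiv v (repL (K := K) ε o h1 h2 (ε i)) k l = 1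
    rw [hent]
    split_ifs
    · exact Or.inr rfl
    · exact Or.inl rfl
    · exact Or.inl rfl
  · change ∑ k, LinearMap.toMatrixAlgEquiv v (repL (K := K) ε o h1 h2 (ε o)) k k = 1
    have h5 : ∀ k, LinearMap.toMatrixAlgEquiv v (repL (K := K) ε o h1 h2 (ε o)) k k =
        if (e.symm k).1 = o then 1 else 0 := by
      intro k
      rw [hent, if_pos rfl]
    rw [Finset.sum_congr rfl fun k _ => h5 k]
    rw [Equiv.sum_comp e.symm fun s : (Σ i, Fin (Module.finrank K (repS (K := K) ε o i))) =>
      if s.1 = o then (1 : K) else 0, Fintype.sum_sigma]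
    rw [Finset.sum_eq_single o]
    · have h6 : Module.finrank K (repS (K := K) ε o o) = 1 := by
        have hee : ε o * ε o = ε o := by rw [h2, if_pos rfl]
        refine finrank_eq_one ⟨ε o, hee, hee⟩ ?_ ?_
        · intro h0
          exact h4 (congrArg Subtype.val h0)
        · rintro ⟨w, hw1, hw2⟩
          obtain ⟨c, hc⟩ := h3 w
          refine ⟨c, Subtype.ext ?_⟩
          change c • ε o = w
          rw [← hc, hw1, hw2]
      simp [h6]
    · intro i _ hi
      simp [hi]
    · intro h
      exact absurd (Finset.mem_univ o) h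

end aux

variable {V E : Type} [Fintype V] [DecidableEq V] [DecidableEq E] [Fintype E] {Q : Qv V E}
variable {R A : Type} [CommRing R] [IsDomain R] [IsLocalRing R] [IsNoetherianRing R] [Algebra ℂ R]
  [Ring A] [Algebra ℂ A] [Algebra R A] [IsScalarTower ℂ R A] {o : V} {W : Hat Q}
  {π : Hat Q →ₐ[ℂ] A}

theorem Mdl.exists_rep (h : Mdl R o W π) (K : Type) [Field K] [Algebra R K] [IsFractionRing R K] :
    ∃ (d : ℕ) (M : A →ₐ[R] Matrix (Fin d) (Fin d) K) (s : R), s ≠ 0 ∧
      (∀ a i j, ∃ x : R, algebraMap R K s * M a i j = algebraMap R K x) ∧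
      (∀ i k l, M (π (idem Q i)) k l = 0 ∨ M (π (idem Q i)) k l = 1) ∧
      ∀ r : R, (M (r • π (idem Q o))).trace = algebraMap R K r := by
  classical
  have := h.fin
  have he0 : π (idem Q o) ≠ 0 := by
    intro h0
    refine h.idem_not (Submodule.zero_mem _) o ?_
    rw [map_zero, h0]
  let ι : A →ₐ[R] TensorProduct R K A := Algebra.TensorProduct.includeRight
  have hι : ∀ a, ι a = (1 : K) ⊗ₜ[R] a := fun a => rfl
  have h4 : ι (π (idem Q o)) ≠ 0 := by
    intro h0
    have : IsLocalizedModule (nonZeroDivisors R) (TensorProduct.mk R K A 1) :=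
      (isLocalizedModule_iff_isBaseChange (nonZeroDivisors R) K _).2
        (TensorProduct.isBaseChange R A K)
    obtain ⟨c, hc⟩ := (IsLocalizedModule.eq_zero_iff (nonZeroDivisors R)
      (TensorProduct.mk R K A 1)).1 h0
    rcases h.tf (c : R) _ hc with h5 | h5
    · exact nonZeroDivisors.coe_ne_zero c h5
    · exact he0 h5
  obtain ⟨d, M, hM1, hM2⟩ := rep_exists (K := K) (T := TensorProduct R K A)
    (fun i => ι (π (idem Q i))) o
    (by
      rw [← map_sum, ← map_sum, sum_idem, map_one, map_one])
    (by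
      intro v w
      rw [← map_mul, ← map_mul, idem_mul_idem]
      split_ifs
      · rfl
      · rw [map_zero, map_zero])
    (by
      intro t
      induction t using TensorProduct.induction_on with
      | zero => exact ⟨0, by rw [mul_zero, zero_mul, zero_smul]⟩
      | tmul k a =>
        obtain ⟨r, hr⟩ := h.corner a
        refine ⟨r • k, ?_⟩
        rw [hι, Algebra.TensorProduct.tmul_mul_tmul, Algebra.TensorProduct.tmul_mul_tmul, hr,
          one_mul, mul_one, TensorProduct.tmul_smul, TensorProduct.smul_tmul',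
          TensorProduct.smul_tmul', smul_eq_mul, mul_one]
      | add x y hx hy =>
        obtain ⟨c, hc⟩ := hx
        obtain ⟨c', hc'⟩ := hy
        exact ⟨c + c', by rw [mul_add, add_mul, hc, hc', add_smul]⟩) h4
  let M' : A →ₐ[R] Matrix (Fin d) (Fin d) K := (M.restrictScalars R).comp ι
  have hM' : ∀ a, M' a = M (ι a) := fun a => rfl
  obtain ⟨S, hS⟩ := h.fin.1
  obtain ⟨s, hs⟩ := IsLocalization.exist_integer_multiples_of_finset (nonZeroDivisors R)
    ((S ×ˢ (Finset.univ : Finset (Fin d × Fin d))).image fun t => M' t.1 t.2.1 t.2.2)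
  refine ⟨d, M', s, nonZeroDivisors.coe_ne_zero s, ?_, ?_, ?_⟩
  · intro a
    have ha : a ∈ Submodule.span R (S : Set A) := by
      rw [hS]
      exact Submodule.mem_top
    induction ha using Submodule.span_induction with
    | mem x hx =>
      intro i j
      obtain ⟨y, hy⟩ := hs (M' x i j) (Finset.mem_image.2 ⟨(x, i, j),
        Finset.mem_product.2 ⟨hx, Finset.mem_univ _⟩, rfl⟩)
      refine ⟨y, ?_⟩
      rw [hy, Algebra.smul_def]
    | zero =>
      intro i j
      exact ⟨0, by rw [map_zero, map_zero, Matrix.zero_apply, mul_zero]⟩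
    | add x y _ _ hx hy =>
      intro i j
      obtain ⟨u, hu⟩ := hx i j
      obtain ⟨w, hw⟩ := hy i j
      exact ⟨u + w, by rw [map_add, map_add, Matrix.add_apply, mul_add, hu, hw]⟩
    | smul r x _ hx =>
      intro i j
      obtain ⟨u, hu⟩ := hx i j
      refine ⟨r * u, ?_⟩
      rw [map_smul, Matrix.smul_apply, Algebra.smul_def, map_mul, ← hu]
      ring
  · intro i k l
    exact hM1 i k l
  · intro r
    rw [map_smul, Matrix.trace_smul, hM', hM2, Algebra.smul_def, mul_one]

end Pool.Agent.Flop
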