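import Pool.Agent.Lib.FlA.Def2

/-!
# ResB: restriction to the full subquiver: an algebra homomorphism with a section

ALL by coefficients (`cf_res`, `Hat.ext_cf`, `Hat.cf_mul`, ...). `res_mul`: (f g).cf i j l for i, j <> o and a word l of arrows of the subquiver is the sum over all k : V and n; the term k = o vanishes: a path of arrows avoiding o
from i <> o cannot end in o (for the empty word i = k; f.cf i k (l.take n) <> 0 implies IsPath i (l.take n) k); the sum over k <> o is the sum over the subtype (`Fintype.sum_subtype`-like, `Finset.sum_subtype`).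
`exists_section`: define (ι g).cf i j l := if i <> o, j <> o and all letters of l are arrows a with src a <> o, tgt a <> o, then g.cf i j (l.attachWith ...) else 0 (it is a path again by Qv.isPath_del). Or: for a list l with
∀ a in l, P a there is a unique list l' of the subtype with l'.map Subtype.val = l (`List.map` injective: `List.map_injective_iff.2 Subtype.val_injective`; `List.attachWith`, `List.pmap`).
-/

set_option autoImplicit false

namespace Pool.Agent.Flop

open Finset

variable {V E : Type} [Fintype V] [DecidableEq V] [DecidableEq E] {Q : Qv V E}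

omit [Fintype V] [DecidableEq V] [DecidableEq E] in
private theorem resB_not_o {o : V} {k : V} (l : List E) : ∀ (i : V), i ≠ o →
    (∀ a ∈ l, Q.src a ≠ o ∧ Q.tgt a ≠ o) → Q.IsPath i l k → k ≠ o := by
  induction l with
  | nil =>
    intro i hi _ hp hk
    exact hi ((show i = k from hp).trans hk)
  | cons a l ih =>
    intro i _ hl hp
    exact ih (Q.tgt a) (hl a List.mem_cons_self).2
      (fun b hb => hl b (List.mem_cons_of_mem a hb)) hp.2

private theorem resB_sum (o : V) (F : V → ℂ) (h : F o = 0) :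
    ∑ k : V, F k = ∑ k : {v : V // v ≠ o}, F k.1 := by
  have h1 : ∑ k : V, F k = ∑ k ∈ univ.filter (fun v => v ≠ o), F k := by
    refine (Finset.sum_filter_of_ne ?_).symm
    intro k _ hk hko
    exact hk (hko ▸ h)
  rw [h1]
  exact Finset.sum_subtype _ (fun x => by simp) F

omit [Fintype V] [DecidableEq V] [DecidableEq E] in
private theorem resB_att (P : E → Prop) (l : List E) (H : ∀ a ∈ l, P a) :
    (l.attachWith P H).map Subtype.val = l := by
  simp

omit [Fintype V] [DecidableEq V] [DecidableEq E] in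
private theorem resB_mem (o : V) (l : List {a : E // Q.src a ≠ o ∧ Q.tgt a ≠ o}) :
    ∀ a ∈ l.map Subtype.val, Q.src a ≠ o ∧ Q.tgt a ≠ o := by
  intro a ha
  obtain ⟨b, _, rfl⟩ := List.mem_map.1 ha
  exact b.2

theorem res_add (o : V) (f g : Hat Q) : res o (f + g) = res o f + res o g := by
  apply Hat.ext_cf
  intro i j l
  rw [Hat.cf_add, cf_res, cf_res, cf_res, Hat.cf_add]

theorem res_mul (o : V) (f g : Hat Q) : res o (f * g) = res o f * res o g := by
  apply Hat.ext_cf
  intro i j l
  rw [cf_res, Hat.cf_mul, Hat.cf_mul, resB_sum o]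
  · refine Finset.sum_congr rfl fun k _ => ?_
    rw [List.length_map]
    refine Finset.sum_congr rfl fun n _ => ?_
    rw [cf_res, cf_res, List.map_take, List.map_drop]
  · refine Finset.sum_eq_zero fun n _ => ?_
    by_cases h : f.cf i.1 o ((l.map Subtype.val).take n) = 0
    · rw [h, zero_mul]
    · exact absurd rfl (resB_not_o _ i.1 i.2
        (fun a ha => resB_mem o l a (List.mem_of_mem_take ha)) (f.cf_path h))

theorem res_one (o : V) : res o (1 : Hat Q) = 1 := by
  apply Hat.ext_cf
  intro i j l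
  rw [cf_res, Hat.cf_one, Hat.cf_one]
  refine if_congr ?_ rfl rfl
  rw [List.map_eq_nil_iff, Subtype.ext_iff]

theorem res_smul (o : V) (c : ℂ) (f : Hat Q) : res o (c • f) = c • res o f := by
  apply Hat.ext_cf
  intro i j l
  rw [Hat.cf_smul, cf_res, cf_res, Hat.cf_smul]

theorem res_sum {ι : Type} (o : V) (s : Finset ι) (f : ι → Hat Q) :
    res o (∑ k ∈ s, f k) = ∑ k ∈ s, res o (f k) := by
  apply Hat.ext_cf
  intro i j l
  rw [Hat.cf_sum, cf_res, Hat.cf_sum]
  exact Finset.sum_congr rfl fun k _ => (cf_res o (f k) i j l).symm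

theorem res_idem (o : V) (i : {v : V // v ≠ o}) : res o (idem Q i.1) = idem (Q.del o) i := by
  apply Hat.ext_cf
  intro j k l
  rw [cf_res, cf_idem, cf_idem]
  refine if_congr ?_ rfl rfl
  rw [List.map_eq_nil_iff, Subtype.ext_iff, Subtype.ext_iff]

theorem res_idem_o (o : V) : res o (idem Q o) = 0 := by
  apply Hat.ext_cf
  intro j k l
  rw [cf_res, cf_idem, Hat.cf_zero, if_neg]
  rintro ⟨h, -⟩
  exact j.2 h

theorem res_arr (o : V) (a : {a : E // Q.src a ≠ o ∧ Q.tgt a ≠ o}) :
    res o (arr Q a.1) = arr (Q.del o) a := by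
  apply Hat.ext_cf
  intro j k l
  rw [cf_res, cf_arr, cf_arr]
  refine if_congr ?_ rfl rfl
  have hinj : Function.Injective
      (List.map (Subtype.val : {a : E // Q.src a ≠ o ∧ Q.tgt a ≠ o} → E)) :=
    List.map_injective_iff.2 Subtype.val_injective
  refine and_congr ⟨fun h => Subtype.ext h, fun h => congrArg Subtype.val h⟩
    (and_congr ⟨fun h => Subtype.ext h, fun h => congrArg Subtype.val h⟩ ?_)
  constructor
  · intro h
    exact hinj (h.trans (by simp))
  · intro h
    rw [h]
    simp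

theorem res_Fil (o : V) {n : ℕ} {f : Hat Q} (h : f ∈ Fil Q n) : res o f ∈ Fil (Q.del o) n := by
  intro i j l hl
  rw [cf_res]
  exact h i.1 j.1 _ (by rw [List.length_map]; exact hl)

open scoped Classical in
private noncomputable def resBι (o : V) (g : Hat (Q.del o)) : Hat Q :=
  ⟨fun i j l => if h : i ≠ o ∧ j ≠ o ∧ ∀ a ∈ l, Q.src a ≠ o ∧ Q.tgt a ≠ o then
      g.cf ⟨i, h.1⟩ ⟨j, h.2.1⟩ (l.attachWith _ h.2.2) else 0, by
    intro i j l hl
    beta_reduce at hl
    split_ifs at hl with h
    · have h1 := Qv.isPath_del.1 (g.cf_path hl)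
      rwa [resB_att] at h1
    · exact absurd rfl hl⟩

open scoped Classical in
private theorem cf_resBι (o : V) (g : Hat (Q.del o)) (i j : V) (l : List E) :
    (resBι o g).cf i j l = if h : i ≠ o ∧ j ≠ o ∧ ∀ a ∈ l, Q.src a ≠ o ∧ Q.tgt a ≠ o then
      g.cf ⟨i, h.1⟩ ⟨j, h.2.1⟩ (l.attachWith _ h.2.2) else 0 := rfl

private theorem cf_resBι_val (o : V) (g : Hat (Q.del o)) (i j : {v : V // v ≠ o})
    (l : List {a : E // Q.src a ≠ o ∧ Q.tgt a ≠ o}) :
    (resBι o g).cf i.1 j.1 (l.map Subtype.val) = g.cf i j l := by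
  rw [cf_resBι, dif_pos ⟨i.2, j.2, resB_mem o l⟩]
  congr 1
  apply List.map_injective_iff.2 Subtype.val_injective
  exact resB_att _ _ _

private theorem cf_resBι_neg (o : V) (g : Hat (Q.del o)) {i j : V} {l : List E}
    (h : ¬ (i ≠ o ∧ j ≠ o ∧ ∀ a ∈ l, Q.src a ≠ o ∧ Q.tgt a ≠ o)) :
    (resBι o g).cf i j l = 0 := by
  rw [cf_resBι, dif_neg h]

omit [Fintype V] [DecidableEq V] [DecidableEq E] in
private theorem resB_cases (Q : Qv V E) (o : V) (i j : V) (l : List E) :
    (∃ (i' j' : {v : V // v ≠ o}) (l' : List {a : E // Q.src a ≠ o ∧ Q.tgt a ≠ o}),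
      i = i'.1 ∧ j = j'.1 ∧ l = l'.map Subtype.val) ∨
    ¬ (i ≠ o ∧ j ≠ o ∧ ∀ a ∈ l, Q.src a ≠ o ∧ Q.tgt a ≠ o) := by
  by_cases h : i ≠ o ∧ j ≠ o ∧ ∀ a ∈ l, Q.src a ≠ o ∧ Q.tgt a ≠ o
  · exact Or.inl ⟨⟨i, h.1⟩, ⟨j, h.2.1⟩, l.attachWith _ h.2.2, rfl, rfl,
      (resB_att _ _ _).symm⟩
  · exact Or.inr h

theorem exists_section (o : V) : ∃ ι : Hat (Q.del o) →ₗ[ℂ] Hat Q, (∀ g, res o (ι g) = g) ∧
    (∀ n, ∀ g ∈ Fil (Q.del o) n, ι g ∈ Fil Q n) ∧ ∀ g h, ι (g * h) = ι g * ι h := by
  refine ⟨{ toFun := resBι o, map_add' := ?_, map_smul' := ?_ }, ?_, ?_, ?_⟩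
  · intro f g
    apply Hat.ext_cf
    intro i j l
    rcases resB_cases Q o i j l with ⟨i', j', l', rfl, rfl, rfl⟩ | h
    · rw [Hat.cf_add, cf_resBι_val, cf_resBι_val, cf_resBι_val, Hat.cf_add]
    · rw [Hat.cf_add, cf_resBι_neg o _ h, cf_resBι_neg o _ h, cf_resBι_neg o _ h, add_zero]
  · intro c g
    apply Hat.ext_cf
    intro i j l
    rw [RingHom.id_apply]
    rcases resB_cases Q o i j l with ⟨i', j', l', rfl, rfl, rfl⟩ | h
    · rw [Hat.cf_smul, cf_resBι_val, cf_resBι_val, Hat.cf_smul]
    · rw [Hat.cf_smul, cf_resBι_neg o _ h, cf_resBι_neg o _ h, mul_zero]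
  · intro g
    change res o (resBι o g) = g
    apply Hat.ext_cf
    intro i j l
    rw [cf_res, cf_resBι_val]
  · intro n g hg
    change resBι o g ∈ Fil Q n
    intro i j l hl
    rcases resB_cases Q o i j l with ⟨i', j', l', rfl, rfl, rfl⟩ | h
    · rw [cf_resBι_val]
      exact hg i' j' l' (by rwa [List.length_map] at hl)
    · exact cf_resBι_neg o _ h
  · intro g h
    change resBι o (g * h) = resBι o g * resBι o h
    apply Hat.ext_cf
    intro i j l
    rcases resB_cases Q o i j l with ⟨i', j', l', rfl, rfl, rfl⟩ | hn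
    · rw [cf_resBι_val, Hat.cf_mul, Hat.cf_mul, resB_sum o]
      · refine Finset.sum_congr rfl fun k _ => ?_
        rw [List.length_map]
        refine Finset.sum_congr rfl fun n _ => ?_
        rw [← List.map_take, ← List.map_drop, cf_resBι_val, cf_resBι_val]
      · refine Finset.sum_eq_zero fun n _ => ?_
        rw [cf_resBι_neg o g (fun hc => hc.2.1 rfl), zero_mul]
    · rw [cf_resBι_neg o _ hn, Hat.cf_mul]
      symm
      refine Finset.sum_eq_zero fun k _ => Finset.sum_eq_zero fun n _ => ?_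
      rcases resB_cases Q o i k (l.take n) with ⟨i', k', l', rfl, rfl, h1⟩ | h1
      · rcases resB_cases Q o k'.1 j (l.drop n) with ⟨_, j', l'', _, rfl, h2⟩ | h2
        · exfalso
          apply hn
          refine ⟨i'.2, j'.2, fun a ha => ?_⟩
          rw [← List.take_append_drop n l, List.mem_append] at ha
          rcases ha with ha | ha
          · rw [h1] at ha
            exact resB_mem o l' a ha
          · rw [h2] at ha
            exact resB_mem o l'' a ha
        · rw [cf_resBι_neg o h h2, mul_zero]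
      · rw [cf_resBι_neg o g h1, zero_mul]

end Pool.Agent.Flop
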