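import Pool.Agent.Lib.FlA.ResB
import Pool.Agent.Lib.FlA.Bs1

/-!
# ResC: restriction of cyclic derivatives and of Jacobi ideals

`res_cyc`: coefficients: for i = tgt a, j = src a (as vertices <> o) and a word l of the subquiver: sum over v : V and k of W.cf v v (l'.drop k ++ a :: l'.take k), l' = l.map val; the term v = o vanishes (a nonempty path starting at o
has a first arrow with source o, but all arrows of the word avoid o); map commutes with drop, take, cons. `res_cyc_o`: cyc a W = e_{tgt a} * cyc a W * e_{src a} and res (e_o) = 0 (idem_mul_cyc, cyc_mul_idem, res_mul, res_idem_o).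
`res_jac`: the set {f | res o f in jac (res o W)} is closed and a two-sided ideal and contains cyc a W: jac_min. `exists_lift_jac`: linear compactness: `mem_of_closure` with B = Hat Q (lcF), C = Hat (Q.del o) (lcF; the arrow type is
finite), T = res o as a linear map, A = jac W (closed), target subspace ⊥ (closed by Fil_sep), z = g: for every n, g is mod Fil n a finite sum of p * cyc a (res o W) * q = res o (ι p * cyc a.1 W * ι q)
(exists_section, res_cyc, res_mul), and ι p * cyc a.1 W * ι q is in jac W. So there is f in jac W with g - res o f in ⊥.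
-/

set_option autoImplicit false

namespace Pool.Agent.Flop

open Finset

variable {V E : Type} [Fintype V] [DecidableEq V] [DecidableEq E] {Q : Qv V E}

/-- The restriction as a linear map. -/
private noncomputable def resL (o : V) : Hat Q →ₗ[ℂ] Hat (Q.del o) where
  toFun := res o
  map_add' := res_add o
  map_smul' := res_smul o

private theorem resL_apply (o : V) (f : Hat Q) : resL o f = res o f := rfl

private theorem resc_zero (W : Hat Q) (o j : V) (m : List E) (hm : m ≠ [])
    (h : ∀ x ∈ m, Q.src x ≠ o) : W.cf o j m = 0 := by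
  by_contra hc
  have hp := W.cf_path hc
  cases m with
  | nil => exact hm rfl
  | cons x m => exact h x (by simp) hp.1

private theorem resc_sum (o : V) (F : V → ℂ) (hF : F o = 0) :
    ∑ v, F v = ∑ v : {v : V // v ≠ o}, F v.1 := by
  rw [← Finset.sum_subtype (Finset.univ.filter fun v => v ≠ o) (by simp) F, Finset.sum_filter]
  refine Finset.sum_congr rfl fun v _ => ?_
  by_cases h : v = o
  · rw [h, hF, if_neg (by simp)]
  · rw [if_pos h]

theorem res_cyc (o : V) (a : {a : E // Q.src a ≠ o ∧ Q.tgt a ≠ o}) (W : Hat Q) :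
    res o (cyc a.1 W) = cyc a (res o W) := by
  refine Hat.ext_cf fun i j l => ?_
  rw [cf_res]
  change (if i.1 = Q.tgt a.1 ∧ j.1 = Q.src a.1 then
      ∑ v, ∑ k ∈ range ((l.map Subtype.val).length + 1),
        W.cf v v ((l.map Subtype.val).drop k ++ a.1 :: (l.map Subtype.val).take k) else 0) =
    (if i = (Q.del o).tgt a ∧ j = (Q.del o).src a then
      ∑ v, ∑ k ∈ range (l.length + 1), (res o W).cf v v (l.drop k ++ a :: l.take k) else 0)
  have h1 : (i.1 = Q.tgt a.1 ∧ j.1 = Q.src a.1) ↔ (i = (Q.del o).tgt a ∧ j = (Q.del o).src a) :=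
    and_congr ⟨fun h => Subtype.ext h, fun h => congrArg Subtype.val h⟩
      ⟨fun h => Subtype.ext h, fun h => congrArg Subtype.val h⟩
  by_cases h : i = (Q.del o).tgt a ∧ j = (Q.del o).src a
  · rw [if_pos h, if_pos (h1.2 h)]
    rw [resc_sum o (fun v => ∑ k ∈ range ((l.map Subtype.val).length + 1),
        W.cf v v ((l.map Subtype.val).drop k ++ a.1 :: (l.map Subtype.val).take k))]
    · refine Finset.sum_congr rfl fun v _ => ?_
      rw [List.length_map]
      refine Finset.sum_congr rfl fun k _ => ?_
      rw [cf_res, List.map_append, List.map_cons, List.map_drop, List.map_take]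
    · refine Finset.sum_eq_zero fun k _ => resc_zero W o o _ (by simp) ?_
      intro x hx
      rw [List.mem_append, List.mem_cons] at hx
      have h2 : ∀ y ∈ l.map Subtype.val, Q.src y ≠ o := by
        intro y hy
        obtain ⟨z, _, rfl⟩ := List.mem_map.1 hy
        exact z.2.1
      rcases hx with hx | rfl | hx
      · exact h2 x (List.mem_of_mem_drop hx)
      · exact a.2.1
      · exact h2 x (List.mem_of_mem_take hx)
  · rw [if_neg h, if_neg (fun h' => h (h1.1 h'))]

theorem res_cyc_o (o : V) {a : E} (h : Q.src a = o ∨ Q.tgt a = o) (W : Hat Q) :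
    res o (cyc a W) = 0 := by
  refine Hat.ext_cf fun i j l => ?_
  rw [cf_res, Hat.cf_zero]
  change (if i.1 = Q.tgt a ∧ j.1 = Q.src a then
      ∑ v, ∑ k ∈ range ((l.map Subtype.val).length + 1),
        W.cf v v ((l.map Subtype.val).drop k ++ a :: (l.map Subtype.val).take k) else 0) = 0
  rw [if_neg]
  rintro ⟨h1, h2⟩
  rcases h with h | h
  · exact j.2 (h2.trans h)
  · exact i.2 (h1.trans h)

theorem res_jac (o : V) {W f : Hat Q} (h : f ∈ jac W) : res o f ∈ jac (res o W) := by
  have h1 : jac W ≤ (jac (res o W)).comap (resL o) := by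
    refine jac_min ?_ ?_ ?_ ?_
    · intro g hg
      change res o g ∈ jac (res o W)
      refine isCl_jac _ _ fun n => ?_
      obtain ⟨s, hs, h2⟩ := hg n
      refine ⟨res o s, hs, ?_⟩
      have h3 := res_Fil o h2
      rwa [← resL_apply, map_sub] at h3
    · intro z g hg
      change res o (z * g) ∈ jac (res o W)
      rw [res_mul]
      exact jac_ml _ hg
    · intro z g hg
      change res o (g * z) ∈ jac (res o W)
      rw [res_mul]
      exact jac_mr _ hg
    · intro a
      change res o (cyc a W) ∈ jac (res o W)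
      by_cases ha : Q.src a ≠ o ∧ Q.tgt a ≠ o
      · rw [res_cyc o ⟨a, ha⟩]
        exact cyc_jac _ _
      · rw [res_cyc_o o (by tauto)]
        exact Submodule.zero_mem _
  exact h1 h

theorem exists_lift_jac [Fintype E] (o : V) {W : Hat Q} {g : Hat (Q.del o)}
    (h : g ∈ jac (res o W)) : ∃ f ∈ jac W, res o f = g := by
  obtain ⟨ι, hι, -, -⟩ := exists_section (Q := Q) o
  have key : ∀ s ∈ Submodule.span ℂ {x | ∃ (a : {a : E // Q.src a ≠ o ∧ Q.tgt a ≠ o})
      (p q : Hat (Q.del o)), x = p * cyc a (res o W) * q}, ∃ f ∈ jac W, res o f = s := by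
    intro s hs
    induction hs using Submodule.span_induction with
    | mem x hx =>
      obtain ⟨a, p, q, rfl⟩ := hx
      refine ⟨ι p * cyc a.1 W * ι q, jac_mr _ (jac_ml _ (cyc_jac W _)), ?_⟩
      rw [res_mul, res_mul, hι, hι, res_cyc]
    | zero => exact ⟨0, Submodule.zero_mem _, by rw [← resL_apply, map_zero]⟩
    | add x y _ _ hx hy =>
      obtain ⟨f, hf, rfl⟩ := hx
      obtain ⟨g, hg, rfl⟩ := hy
      exact ⟨f + g, Submodule.add_mem _ hf hg, res_add o f g⟩
    | smul c x _ hx =>
      obtain ⟨f, hf, rfl⟩ := hx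
      exact ⟨c • f, Submodule.smul_mem _ c hf, res_smul o c f⟩
  obtain ⟨f, hf, h1⟩ := mem_of_closure (lcF (Q := Q)) (lcF (Q := Q.del o)) (resL o)
    (fun n x hx => res_Fil o hx) (jac W) (fun x hx => isCl_jac W x hx) ⊥
    (fun x hx => by
      rw [Submodule.mem_bot]
      refine Fil_sep fun n => ?_
      obtain ⟨y, hy, h2⟩ := hx n
      rw [Submodule.mem_bot] at hy
      rwa [hy, sub_zero] at h2) g
    (fun n => by
      have h2 := h
      unfold jac at h2
      rw [mem_cl] at h2
      obtain ⟨s, hs, h3⟩ := h2 n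
      obtain ⟨f, hf, rfl⟩ := key s hs
      refine ⟨f, hf, 0, Submodule.zero_mem _, ?_⟩
      rw [sub_zero]
      exact h3)
  refine ⟨f, hf, ?_⟩
  rw [Submodule.mem_bot, sub_eq_zero] at h1
  exact h1.symm

end Pool.Agent.Flop
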