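import Pool.Agent.Lib.FlA.ResC

/-!
# ResI: the contraction algebra is the Jacobi algebra of the restricted potential

(=>) π f in the two-sided ideal: the set of x in A such that x = π f' with res o f' in jac (res o W) for SOME f' is the same as for all f' (if π f' = π f'' then f' - f'' in jac W, res_jac); it is a two-sided ideal (TwoSidedIdeal.span_le or
span induction `TwoSidedIdeal.mem_span_iff`; define the ideal by `TwoSidedIdeal.mk'` or use the ring homomorphism A -> Hat (Q.del o) / jac... ; easiest: `TwoSidedIdeal.span_induction`-like lemma, or `TwoSidedIdeal.mem_span_iff_mem_addSubgroup_closure`: elements are finite sums of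
a * π(e_o) * b), and π (e_o) is in it since res o (e_o) = 0 in jac. For a sum of a_k π(e_o) b_k with a_k = π a'_k, b_k = π b'_k: f - sum a'_k e_o b'_k in jac W and res kills a'_k e_o b'_k.
(<=) res o f in jac (res o W): exists_lift_jac: j in jac W with res o (f - j) = 0. For every n, mod Fil n, f - j is a finite combination of words which pass through o (see ResK (1)): each such word is u * e_o * v,
so f - j in span {u e_o v} + Fil n, and π (f - j) = π f is in the ideal + π (Fil n) for every n: hypothesis hcl.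
-/

set_option autoImplicit false

namespace Pool.Agent.Flop

open Finset

variable {V E : Type} [Fintype V] [DecidableEq V] [DecidableEq E] {Q : Qv V E}

omit [Fintype V] [DecidableEq V] [DecidableEq E] in
private theorem resi_uniq {i j j' : V} {l : List E} (h : Q.IsPath i l j)
    (h' : Q.IsPath i l j') : j = j' := by
  induction l generalizing i with
  | nil => exact Eq.trans (Eq.symm h) h'
  | cons a l ih => exact ih h.2 h'.2

omit [Fintype V] [DecidableEq V] [DecidableEq E] in
private theorem resi_split (o : V) {j : V} (l : List E) : ∀ {i : V}, Q.IsPath i l j →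
    ¬ (i ≠ o ∧ j ≠ o ∧ ∀ a ∈ l, Q.src a ≠ o ∧ Q.tgt a ≠ o) →
    ∃ l₁ l₂, l = l₁ ++ l₂ ∧ Q.IsPath i l₁ o ∧ Q.IsPath o l₂ j := by
  induction l with
  | nil =>
    intro i h hne
    have hij : i = j := h
    subst hij
    by_cases hi : i = o
    · subst hi
      exact ⟨[], [], rfl, rfl, rfl⟩
    · exact absurd ⟨hi, hi, fun a ha => absurd ha (List.not_mem_nil)⟩ hne
  | cons a l ih =>
    intro i h hne
    obtain ⟨h1, h2⟩ := h
    by_cases hi : i = o
    · subst hi
      exact ⟨[], a :: l, rfl, rfl, ⟨h1, h2⟩⟩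
    · obtain ⟨l₁, l₂, h3, h4, h5⟩ := ih h2 (by
        rintro ⟨h3, h4, h5⟩
        refine hne ⟨hi, h4, fun b hb => ?_⟩
        rcases List.mem_cons.1 hb with rfl | hb
        · exact ⟨by rw [h1]; exact hi, h3⟩
        · exact h5 b hb)
      exact ⟨a :: l₁, l₂, by rw [h3, List.cons_append], ⟨h1, h4⟩, h5⟩

private theorem resi_word_idem {i j : V} {l : List E} (h : Q.IsPath i l j) :
    word Q i l * idem Q j = word Q i l := by
  refine Hat.ext_cf fun p q l' => ?_
  rw [cf_mul_idem, cf_word]
  by_cases hq : q = j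
  · rw [if_pos hq]
  · rw [if_neg hq, if_neg]
    rintro ⟨_, _, h3⟩
    exact hq (resi_uniq h3 h)

private theorem resi_word_append {i j : V} {l₁ l₂ : List E} (h : Q.IsPath i l₁ j) :
    word Q i (l₁ ++ l₂) = word Q i l₁ * word Q j l₂ := by
  have h1 := resi_word_idem h
  unfold word at h1 ⊢
  rw [← mul_assoc, h1, List.map_append, List.prod_append, ← mul_assoc]

private theorem resi_avoid {o : V} {f : Hat Q} (h : res o f = 0) {i j : V} {l : List E}
    (hf : f.cf i j l ≠ 0) : ¬ (i ≠ o ∧ j ≠ o ∧ ∀ a ∈ l, Q.src a ≠ o ∧ Q.tgt a ≠ o) := by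
  rintro ⟨hi, hj, hl⟩
  apply hf
  have h1 := cf_res o f ⟨i, hi⟩ ⟨j, hj⟩ (l.attachWith _ hl)
  rw [h, List.attachWith_map_subtype_val, Hat.cf_zero] at h1
  exact h1.symm

private theorem resi_sub (o : V) (f g : Hat Q) : res o (f - g) = res o f - res o g := by
  have h2 : f - g = f + (-1 : ℂ) • g := by
    rw [neg_one_smul, sub_eq_add_neg]
  rw [h2, res_add, res_smul, neg_one_smul, sub_eq_add_neg]

/-- The two-sided ideal of the images of the series whose restriction is in the Jacobi ideal. -/
private def resiK {A : Type} [Ring A] [Algebra ℂ A] (o : V) (W : Hat Q)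
    (π : Hat Q →ₐ[ℂ] A) (hs : Function.Surjective π) : TwoSidedIdeal A :=
  TwoSidedIdeal.mk' {x | ∃ f, π f = x ∧ res o f ∈ jac (res o W)}
    ⟨0, map_zero π, by
      have h2 := res_smul (Q := Q) o 0 0
      rw [zero_smul, zero_smul] at h2
      rw [h2]
      exact Submodule.zero_mem _⟩
    (by
      rintro x y ⟨f, rfl, hf⟩ ⟨g, rfl, hg⟩
      exact ⟨f + g, map_add π f g, by rw [res_add]; exact Submodule.add_mem _ hf hg⟩)
    (by
      rintro x ⟨f, rfl, hf⟩
      refine ⟨-f, map_neg π f, ?_⟩
      have h1 := resi_sub o 0 f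
      have h2 := res_smul (Q := Q) o 0 0
      rw [zero_smul, zero_smul] at h2
      rw [zero_sub, h2, zero_sub] at h1
      rw [h1]
      exact Submodule.neg_mem _ hf)
    (by
      rintro x y ⟨f, rfl, hf⟩
      obtain ⟨g, rfl⟩ := hs x
      exact ⟨g * f, map_mul π g f, by rw [res_mul]; exact jac_ml _ hf⟩)
    (by
      rintro x y ⟨f, rfl, hf⟩
      obtain ⟨g, rfl⟩ := hs y
      exact ⟨f * g, map_mul π f g, by rw [res_mul]; exact jac_mr _ hf⟩)

theorem contr_iff [Fintype E] {A : Type} [Ring A] [Algebra ℂ A] (o : V) {W : Hat Q}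
    (π : Hat Q →ₐ[ℂ] A) (hs : Function.Surjective π) (hk : ∀ f, π f = 0 ↔ f ∈ jac W)
    (hcl : ∀ x : A, (∀ n, ∃ y ∈ TwoSidedIdeal.span {π (idem Q o)}, ∃ f ∈ Fil Q n, x - y = π f) →
      x ∈ TwoSidedIdeal.span {π (idem Q o)}) (f : Hat Q) :
    π f ∈ TwoSidedIdeal.span {π (idem Q o)} ↔ res o f ∈ jac (res o W) := by
  constructor
  · intro h
    have h1 : TwoSidedIdeal.span {π (idem Q o)} ≤ resiK o W π hs := by
      rw [TwoSidedIdeal.span_le]
      rintro x hx
      rw [Set.mem_singleton_iff] at hx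
      subst hx
      rw [SetLike.mem_coe, resiK, TwoSidedIdeal.mem_mk']
      exact ⟨idem Q o, rfl, by rw [res_idem_o]; exact Submodule.zero_mem _⟩
    have h2 := h1 h
    rw [resiK, TwoSidedIdeal.mem_mk'] at h2
    obtain ⟨g, hg1, hg2⟩ := h2
    have h3 : f - g ∈ jac W := by
      rw [← hk, map_sub, hg1, sub_self]
    have h4 := res_jac o h3
    rw [resi_sub] at h4
    have h5 := Submodule.add_mem _ h4 hg2
    rwa [sub_add_cancel] at h5
  · intro h
    obtain ⟨j, hj, hj2⟩ := exists_lift_jac o h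
    have h1 : res o (f - j) = 0 := by rw [resi_sub, hj2, sub_self]
    apply hcl
    intro n
    obtain ⟨s, hs, hf⟩ := exists_words (f - j) n
    refine ⟨π (∑ t ∈ s, (f - j).cf t.1 t.2.1 t.2.2 • word Q t.1 t.2.2), ?_, _, hf, ?_⟩
    · rw [map_sum]
      refine sum_mem fun t ht => ?_
      obtain ⟨l₁, l₂, h3, h4, h5⟩ := resi_split o t.2.2 (Hat.cf_path _ (hs t ht).1)
        (resi_avoid h1 (hs t ht).1)
      have h6 : (f - j).cf t.1 t.2.1 t.2.2 • word Q t.1 t.2.2 =
          ((f - j).cf t.1 t.2.1 t.2.2 • word Q t.1 l₁) * idem Q o * word Q o l₂ := by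
        rw [smul_mul_assoc, smul_mul_assoc, resi_word_idem h4]
        conv_lhs => rw [h3, resi_word_append h4]
        rw [← h3]
      rw [h6, map_mul, map_mul]
      exact TwoSidedIdeal.mul_mem_right _ _ _ (TwoSidedIdeal.mul_mem_left _ _ _
        (TwoSidedIdeal.subset_span rfl))
    · rw [map_sub, map_sub π f j, (hk j).2 hj, sub_zero]

end Pool.Agent.Flop
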