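import Pool.Agent.Lib.FlA.ResC

/-!
# ResK: lifting the vanishing of the class to the big quiver

Put S = jac W + Comm Q + C, C = {r | e_o r e_o = r}. (1) res o f = 0 implies f in cl (Comm Q + C): mod Fil n, f is a finite combination of words word Q i l with f.cf i j l <> 0 (exists_words; i -> j a path); such a word has i = o or
j = o or an arrow with source or target o (otherwise it comes from a word of the subquiver, and its coefficient is (res o f).cf = 0). If i <> j the word is the commutator e_i w - w e_i. If i = j: it passes through o: w = u v, u path from i to o, v path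
from o to i (list split), and u v = v u + commutator, v u in C. (2) Φ = res o W in cl (jac Φ + Comm): given n: Φ = j + c + t, j in jac Φ, c in Comm, t in Fil n; lift: j = res j' with j' in jac W (exists_lift_jac), c = res c' with c' in Comm Q
(c is a finite sum of commutators p q - q p = res of ι p ι q - ι q ι p), t = res (ι t), ι t in Fil n. So res (W - j' - c' - ι t) = 0, and by (1) W is in cl S (n arbitrary). (3) Linear compactness `mem_of_closure` (B = Hat Q, T = id,
A = C closed, target cl (jac W + Comm) closed): r in C with W - r in cl (jac W + Comm). (4) r in Fil 1: its only possibly non-zero constant coefficient is r.cf o o [] (r = e_o r e_o), and the functional f -> f.cf o o [] is zero on W (Fil 3), on jac W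
(jac_Fil) and on Comm (comm_nil), hence on cl (jac W + Comm) (mod Fil 1).
-/

set_option autoImplicit false

namespace Pool.Agent.Flop

open Finset

variable {V E : Type} [Fintype V] [DecidableEq V] [DecidableEq E] {Q : Qv V E}

omit [Fintype V] [DecidableEq V] [DecidableEq E] in
private theorem resk_uniq {i j j' : V} {l : List E} (h : Q.IsPath i l j)
    (h' : Q.IsPath i l j') : j = j' := by
  induction l generalizing i with
  | nil => exact Eq.trans (Eq.symm h) h'
  | cons a l ih => exact ih h.2 h'.2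

omit [Fintype V] [DecidableEq V] [DecidableEq E] in
private theorem resk_split (o : V) {j : V} (l : List E) : ∀ {i : V}, Q.IsPath i l j →
    ¬ (i ≠ o ∧ j ≠ o ∧ ∀ a ∈ l, Q.src a ≠ o ∧ Q.tgt a ≠ o) →
    ∃ l₁ l₂, l = l₁ ++ l₂ ∧ Q.IsPath i l₁ o ∧ Q.IsPath o l₂ j := by
  induction l with
  | nil =>
    intro i h hne
    have hij : i = j := h
    subst hij
    by_cases hi : i = o
    · subst hi
      exact ⟨[], [], rfl, rfl, rfl⟩
    · exact absurd ⟨hi, hi, fun a ha => absurd ha (List.not_mem_nil)⟩ hne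
  | cons a l ih =>
    intro i h hne
    obtain ⟨h1, h2⟩ := h
    by_cases hi : i = o
    · subst hi
      exact ⟨[], a :: l, rfl, rfl, ⟨h1, h2⟩⟩
    · obtain ⟨l₁, l₂, h3, h4, h5⟩ := ih h2 (by
        rintro ⟨h3, h4, h5⟩
        refine hne ⟨hi, h4, fun b hb => ?_⟩
        rcases List.mem_cons.1 hb with rfl | hb
        · exact ⟨by rw [h1]; exact hi, h3⟩
        · exact h5 b hb)
      exact ⟨a :: l₁, l₂, by rw [h3, List.cons_append], ⟨h1, h4⟩, h5⟩

private theorem resk_word_idem {i j : V} {l : List E} (h : Q.IsPath i l j) :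
    word Q i l * idem Q j = word Q i l := by
  refine Hat.ext_cf fun p q l' => ?_
  rw [cf_mul_idem, cf_word]
  by_cases hq : q = j
  · rw [if_pos hq]
  · rw [if_neg hq, if_neg]
    rintro ⟨_, _, h3⟩
    exact hq (resk_uniq h3 h)

private theorem resk_word_append {i j : V} {l₁ l₂ : List E} (h : Q.IsPath i l₁ j) :
    word Q i (l₁ ++ l₂) = word Q i l₁ * word Q j l₂ := by
  have h1 := resk_word_idem h
  unfold word at h1 ⊢
  rw [← mul_assoc, h1, List.map_append, List.prod_append, ← mul_assoc]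

private theorem resk_avoid {o : V} {f : Hat Q} (h : res o f = 0) {i j : V} {l : List E}
    (hf : f.cf i j l ≠ 0) : ¬ (i ≠ o ∧ j ≠ o ∧ ∀ a ∈ l, Q.src a ≠ o ∧ Q.tgt a ≠ o) := by
  rintro ⟨hi, hj, hl⟩
  apply hf
  have h1 := cf_res o f ⟨i, hi⟩ ⟨j, hj⟩ (l.attachWith _ hl)
  rw [h, List.attachWith_map_subtype_val, Hat.cf_zero] at h1
  exact h1.symm

/-- The corner `e_o Hat e_o`. -/
private noncomputable def reskC (Q : Qv V E) (o : V) : Submodule ℂ (Hat Q) where
  carrier := {r | idem Q o * r * idem Q o = r}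
  add_mem' := by
    intro a b ha hb
    change idem Q o * (a + b) * idem Q o = a + b
    rw [mul_add, add_mul, ha, hb]
  zero_mem' := by
    change idem Q o * 0 * idem Q o = 0
    rw [mul_zero, zero_mul]
  smul_mem' := by
    intro c a ha
    change idem Q o * (c • a) * idem Q o = c • a
    rw [mul_smul_comm, smul_mul_assoc, ha]

private theorem resk_memC {o : V} {r : Hat Q} :
    r ∈ reskC Q o ↔ idem Q o * r * idem Q o = r := Iff.rfl

private theorem resk_one [Fintype E] {o : V} {f : Hat Q} (h : res o f = 0) (n : ℕ) :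
    ∃ c ∈ Comm Q, ∃ r ∈ reskC Q o, f - c - r ∈ Fil Q n := by
  obtain ⟨s, hs, hf⟩ := exists_words f n
  have h1 : ∑ t ∈ s, f.cf t.1 t.2.1 t.2.2 • word Q t.1 t.2.2 ∈ Comm Q ⊔ reskC Q o := by
    refine Submodule.sum_mem _ fun t ht => Submodule.smul_mem _ _ ?_
    obtain ⟨l₁, l₂, h3, h4, h5⟩ := resk_split o t.2.2 (Hat.cf_path f (hs t ht).1)
      (resk_avoid h (hs t ht).1)
    rw [h3, resk_word_append h4]
    have h6 : word Q t.1 l₁ * word Q o l₂ = (word Q t.1 l₁ * word Q o l₂ -
        word Q o l₂ * word Q t.1 l₁) + word Q o l₂ * word Q t.1 l₁ := by abel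
    rw [h6]
    refine Submodule.add_mem_sup (comm_mem _ _) ?_
    rw [resk_memC]
    have h7 : idem Q o * word Q o l₂ = word Q o l₂ := by
      unfold word
      rw [← mul_assoc, idem_mul_idem, if_pos rfl]
    rw [← mul_assoc, h7, mul_assoc, resk_word_idem h4]
  obtain ⟨c, hc, r, hr, h2⟩ := Submodule.mem_sup.1 h1
  refine ⟨c, hc, r, hr, ?_⟩
  rw [sub_sub, h2]
  exact hf

private theorem resk_comm (o : V) {c : Hat (Q.del o)} (h : c ∈ Comm (Q.del o)) :
    ∃ c' ∈ Comm Q, res o c' = c := by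
  obtain ⟨ι, h1, -, -⟩ := exists_section (Q := Q) o
  unfold Comm at h
  induction h using Submodule.span_induction with
  | mem x h =>
    obtain ⟨p, q, rfl⟩ := h
    refine ⟨ι p * ι q - ι q * ι p, comm_mem _ _, ?_⟩
    have h2 : ι p * ι q - ι q * ι p = ι p * ι q + (-1 : ℂ) • (ι q * ι p) := by
      rw [neg_one_smul, sub_eq_add_neg]
    rw [h2, res_add, res_smul, res_mul, res_mul, h1, h1, neg_one_smul, sub_eq_add_neg]
  | zero =>
    refine ⟨0, Submodule.zero_mem _, ?_⟩
    have h2 := res_smul (Q := Q) o 0 0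
    rwa [zero_smul, zero_smul] at h2
  | add x y _ _ hx hy =>
    obtain ⟨x', hx1, hx2⟩ := hx
    obtain ⟨y', hy1, hy2⟩ := hy
    exact ⟨x' + y', Submodule.add_mem _ hx1 hy1, by rw [res_add, hx2, hy2]⟩
  | smul c x _ hx =>
    obtain ⟨x', hx1, hx2⟩ := hx
    exact ⟨c • x', Submodule.smul_mem _ _ hx1, by rw [res_smul, hx2]⟩

private theorem resk_sub (o : V) (f g : Hat Q) : res o (f - g) = res o f - res o g := by
  have h2 : f - g = f + (-1 : ℂ) • g := by
    rw [neg_one_smul, sub_eq_add_neg]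
  rw [h2, res_add, res_smul, neg_one_smul, sub_eq_add_neg]

theorem exists_corner_of_classZero [Fintype E] (o : V) {W : Hat Q} (hW : W ∈ Fil Q 3)
    (h : ClassZero (res o W)) : ∃ r : Hat Q, idem Q o * r * idem Q o = r ∧ r ∈ Fil Q 1 ∧
      W - r ∈ cl (jac W ⊔ Comm Q) := by
  obtain ⟨ι, hι1, hι2, -⟩ := exists_section (Q := Q) o
  have hz : ∀ n, ∃ x ∈ reskC Q o, ∃ y ∈ cl (jac W ⊔ Comm Q),
      W - (LinearMap.id : Hat Q →ₗ[ℂ] Hat Q) x - y ∈ Fil Q n := by
    intro n
    obtain ⟨s, hs, ht⟩ := mem_cl.1 h n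
    obtain ⟨j, hj, c, hc, rfl⟩ := Submodule.mem_sup.1 hs
    obtain ⟨j', hj1, hj2⟩ := exists_lift_jac o hj
    obtain ⟨c', hc1, hc2⟩ := resk_comm o hc
    have h1 := hι2 n _ ht
    have h2 : res o (W - j' - c' - ι (res o W - (j + c))) = 0 := by
      rw [resk_sub, resk_sub, resk_sub, hι1, hj2, hc2]
      abel
    obtain ⟨c₂, hc₂, r, hr, h3⟩ := resk_one h2 n
    refine ⟨r, hr, j' + (c' + c₂), le_cl _ (Submodule.add_mem_sup hj1
      (Submodule.add_mem _ hc1 hc₂)), ?_⟩
    have h4 : W - (LinearMap.id : Hat Q →ₗ[ℂ] Hat Q) r - (j' + (c' + c₂)) =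
        (W - j' - c' - ι (res o W - (j + c)) - c₂ - r) + ι (res o W - (j + c)) := by
      rw [LinearMap.id_apply]
      abel
    rw [h4]
    exact Submodule.add_mem _ h3 h1
  have hC : ∀ x, (∀ n, ∃ y ∈ reskC Q o, x - y ∈ Fil Q n) → x ∈ reskC Q o := by
    intro x hx
    rw [resk_memC, ← sub_eq_zero]
    refine Fil_sep fun n => ?_
    obtain ⟨y, hy, h1⟩ := hx n
    rw [resk_memC] at hy
    have h2 : idem Q o * x * idem Q o - x = idem Q o * (x - y) * idem Q o - (x - y) := by
      rw [mul_sub, sub_mul, hy]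
      abel
    rw [h2]
    exact Submodule.sub_mem _ (mul_mem_Fil_right _ (mul_mem_Fil_left _ h1)) h1
  obtain ⟨r, hr, h1⟩ := mem_of_closure lcF lcF (LinearMap.id : Hat Q →ₗ[ℂ] Hat Q)
    (fun n x hx => hx) (reskC Q o) hC (cl (jac W ⊔ Comm Q)) (isCl_cl _) W hz
  rw [LinearMap.id_apply] at h1
  rw [resk_memC] at hr
  refine ⟨r, hr, ?_, h1⟩
  rw [mem_Fil]
  intro i j l hl
  have hl0 : l = [] := List.length_eq_zero_iff.1 (Nat.lt_one_iff.1 hl)
  subst hl0
  by_cases hij : i = j
  · subst hij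
    by_cases hio : i = o
    · subst hio
      obtain ⟨s, hs, h2⟩ := mem_cl.1 h1 1
      obtain ⟨a, ha, c, hc, rfl⟩ := Submodule.mem_sup.1 hs
      have h3 := mem_Fil.1 h2 i i [] Nat.zero_lt_one
      have h4 := mem_Fil.1 hW i i [] (by simp)
      have h5 := mem_Fil.1 (jac_Fil (n := 2) hW ha) i i [] (by simp)
      have h6 := comm_nil (le_cl _ hc) i
      rw [Hat.cf_sub, Hat.cf_sub, Hat.cf_add, h4, h5, h6, add_zero, sub_zero, zero_sub,
        neg_eq_zero] at h3
      exact h3
    · rw [← hr, cf_mul_idem, if_neg hio]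
  · exact Hat.cf_nil r hij

end Pool.Agent.Flop
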