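import Pool.Agent.Lib.FlA.Yl

/-!
# S61: minimality: the cyclic derivatives are independent modulo MM

f := the sum (in e_k T e_i: idem_mul_cyc, cyc_mul_idem). y_lemma_mm (j = i): f = sum_b p b * cyc b W + sum_c' z c' * arr c'. Multiply by e_k on the left. Put y b := (if src b = i and tgt b = k then c b • e_k else 0) - e_k * p b (p b = 0 for src b <> i). Then y b e_{tgt b} = y b, y b = 0 for src b <> i,
sum_b y b * cyc b W = sum_c' (e_k z c') * arr c'. (e_k * cyc b W = cyc b W if tgt b = k.) Syz at j = i: x with y b - x * arr b in jac W <= Fil 1 (jac_Fil, W in Fil 2), x * arr b in Fil 1, so y b in Fil 1; constant coefficient at (k, k) for b with src b = i, tgt b = k: c b - (e_k p b).cf k k [] = c b (p b in Fil 1).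
-/

set_option autoImplicit false

namespace Pool.Agent.Flop

open Finset

variable {V E : Type} [Fintype V] [DecidableEq V] [DecidableEq E] [Fintype E] {Q : Qv V E}

theorem cyc_minimal {W : Hat Q} (hW : W ∈ Fil Q 2) (hs : Syz W) (i k : V) (c : E → ℂ)
    (h : ∑ a, (if Q.src a = i ∧ Q.tgt a = k then c a • cyc a W else 0) ∈ MM W) :
    ∀ a, Q.src a = i → Q.tgt a = k → c a = 0 := by
  have hfi : (∑ a, (if Q.src a = i ∧ Q.tgt a = k then c a • cyc a W else 0)) * idem Q i =
      ∑ a, (if Q.src a = i ∧ Q.tgt a = k then c a • cyc a W else 0) := by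
    rw [Finset.sum_mul]
    refine Finset.sum_congr rfl fun a _ => ?_
    split_ifs with ha
    · rw [smul_mul_assoc, ← ha.1, cyc_mul_idem]
    · rw [zero_mul]
  have hfk : idem Q k * (∑ a, (if Q.src a = i ∧ Q.tgt a = k then c a • cyc a W else 0)) =
      ∑ a, (if Q.src a = i ∧ Q.tgt a = k then c a • cyc a W else 0) := by
    rw [Finset.mul_sum]
    refine Finset.sum_congr rfl fun a _ => ?_
    split_ifs with ha
    · rw [mul_smul_comm, ← ha.2, idem_mul_cyc]
    · rw [mul_zero]
  obtain ⟨p, z, hp1, hp2, hp3, hz1, hz2, hz3, e⟩ := y_lemma_mm h hfi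
  rw [← hfk] at e
  have e2 : ∑ a, (if Q.src a = i ∧ Q.tgt a = k then c a • cyc a W else 0) =
      ∑ b, idem Q k * p b * cyc b W + ∑ b, idem Q k * z b * arr Q b := by
    have e3 : idem Q k * (idem Q k *
        (∑ a, (if Q.src a = i ∧ Q.tgt a = k then c a • cyc a W else 0))) =
        idem Q k * (∑ b, p b * cyc b W + ∑ c, z c * arr Q c) := by rw [e]
    rw [hfk, hfk, mul_add, Finset.mul_sum, Finset.mul_sum] at e3
    rw [e3]
    simp only [mul_assoc]
  have hkk : idem Q k * idem Q k = idem Q k := by rw [idem_mul_idem, if_pos rfl]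
  obtain ⟨x, hx⟩ := hs i (fun b => (if Q.src b = i ∧ Q.tgt b = k then c b • idem Q k else 0) -
      idem Q k * p b) (fun b => idem Q k * z b) (by
    intro b
    rw [sub_mul, mul_assoc, hp2 b]
    congr 1
    split_ifs with hb
    · rw [smul_mul_assoc, hb.2, hkk]
    · rw [zero_mul]) (by
    intro b hb
    rw [if_neg (fun h' => hb h'.1), hp3 b hb, mul_zero, sub_zero]) (fun b => jac_ml _ (hz1 b)) (by
    have e4 : ∀ b, ((if Q.src b = i ∧ Q.tgt b = k then c b • idem Q k else 0) -
        idem Q k * p b) * cyc b W =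
        (if Q.src b = i ∧ Q.tgt b = k then c b • cyc b W else 0) -
        idem Q k * p b * cyc b W := by
      intro b
      rw [sub_mul]
      congr 1
      split_ifs with hb
      · rw [smul_mul_assoc, ← hb.2, idem_mul_cyc]
      · rw [zero_mul]
    rw [Finset.sum_congr rfl (fun b _ => e4 b), Finset.sum_sub_distrib, e2]
    abel)
  intro a ha hak
  have h1 := hx a ha
  beta_reduce at h1
  rw [if_pos ⟨ha, hak⟩] at h1
  have h2 : c a • idem Q k - idem Q k * p a - x * arr Q a ∈ Fil Q 1 := jac_Fil hW h1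
  have h3 : x * arr Q a ∈ Fil Q 1 := mul_mem_Fil_left x (arr_mem_Fil a)
  have h4 : idem Q k * p a ∈ Fil Q 1 := mul_mem_Fil_left _ (hp1 a)
  have h5 : c a • idem Q k ∈ Fil Q 1 := by
    have h6 := Submodule.add_mem _ (Submodule.add_mem _ h2 h3) h4
    have e5 : c a • idem Q k - idem Q k * p a - x * arr Q a + x * arr Q a + idem Q k * p a =
        c a • idem Q k := by abel
    rwa [e5] at h6
  have h7 := h5 k k [] (by simp)
  rw [Hat.cf_smul, cf_idem, if_pos ⟨rfl, rfl, rfl⟩, mul_one] at h7
  exact h7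

theorem cyc_not_mem {W : Hat Q} (hW : W ∈ Fil Q 2) (hs : Syz W) (a : E) : cyc a W ∉ MM W := by
  intro h
  have h1 : ∑ b, (if Q.src b = Q.src a ∧ Q.tgt b = Q.tgt a then
      (if b = a then (1 : ℂ) else 0) • cyc b W else 0) ∈ MM W := by
    rw [Finset.sum_eq_single a]
    · rw [if_pos ⟨rfl, rfl⟩, if_pos rfl, one_smul]
      exact h
    · intro b _ hb
      rw [if_neg hb, zero_smul, ite_self]
    · intro ha
      exact absurd (Finset.mem_univ a) ha
  have h2 := cyc_minimal hW hs (Q.src a) (Q.tgt a) (fun b => if b = a then (1 : ℂ) else 0) h1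
    a rfl rfl
  beta_reduce at h2
  rw [if_pos rfl] at h2
  exact one_ne_zero h2

end Pool.Agent.Flop
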