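import Pool.Agent.Lib.FlA.S61
import Pool.Agent.Lib.FlA.S62
import Pool.Agent.Lib.FlA.PartB

/-!
# S63: the weight of a vertex

(A) MM W is homogeneous: f in MM W implies part μ f in MM W. Closedness (isCl_MM) and: f in MM W mod Fil n is a finite sum of p * cyc a W * q with p in Fil 1 or q in Fil 1; p and q are mod Fil n finite sums of words (exists_words; for p in Fil 1 the words have length >= 1), and part μ (word * x * word') = word * part (μ - ..) x * word'
(part_mul_left, part_mul_right) with x = cyc a W in jac W, part _ x in jac W (hJ): in MM W (mm_of_left, mm_of_right, mm_left, mm_right). (B) For every μ: cyc a (part μ W) = part (μ - lam a) (cyc a W) in jac W (part_cyc, hJ), so exists_const gives k μ : V -> ℂ with cyc a (part μ W) - k μ (src a) • cyc a W in MM W.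
(C) For every arrow a: cyc a W not in MM W (cyc_not_mem), so not all cyc a (part μ W) are in MM W (mem_of_parts applied to X = MM W, f = cyc a W: the parts of cyc a W are part ν (cyc a W) = cyc a (part (ν + lam a) W)). So some μ has cyc a (part μ W) not in MM W, hence k μ (src a) <> 0. (D) take the part of weight μ' - lam a of
cyc a (part μ W) - k • cyc a W (A): for μ' <> μ: - k • cyc a (part μ' W) in MM W, so cyc a (part μ' W) in MM W; for μ' = μ: (1 - k) • cyc a (part μ W) in MM W, so k = 1. So for the vertex i = src a: w i := μ where k μ i = 1. Define w i: choose an arrow a0 i with source i (hout) and its μ: k (w i) i = 1. For another arrow a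
with source i: cyc a (part (w i) W) - cyc a W in MM W as k (w i) i = 1; for μ <> w i: (D) for a (cyc a (part (w i) W) is not in MM W since its difference to cyc a W is) gives cyc a (part μ W) in MM W.
-/

set_option autoImplicit false

namespace Pool.Agent.Flop

open Finset

variable {V E : Type} [Fintype V] [DecidableEq V] [DecidableEq E] [Fintype E] {Q : Qv V E}

private theorem mm_part_left {W : Hat Q} {lam : E → ℚ}
    (hJ : ∀ f ∈ jac W, ∀ μ, part lam μ f ∈ jac W) {p g : Hat Q} (hp : p ∈ Fil Q 1)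
    (hg : g ∈ jac W) (μ : ℚ) : part lam μ (p * g) ∈ MM W := by
  refine isCl_MM W _ fun n => ?_
  obtain ⟨T, hT, -⟩ := part_conv lam p n
  refine ⟨∑ ν ∈ T, part lam ν p * part lam (μ - ν) g,
    Submodule.sum_mem _ fun ν _ => mm_of_left (part_Fil hp) (hJ g hg _), ?_⟩
  have h1 : part lam μ ((∑ ν ∈ T, part lam ν p) * g) =
      ∑ ν ∈ T, part lam ν p * part lam (μ - ν) g := by
    rw [Finset.sum_mul, map_sum]
    refine Finset.sum_congr rfl fun ν _ => part_mul_left ?_ _ _
    rw [part_part, if_pos rfl]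
  rw [← h1, ← map_sub, ← sub_mul]
  exact part_Fil (mul_mem_Fil_right g hT)

private theorem mm_part_right {W : Hat Q} {lam : E → ℚ}
    (hJ : ∀ f ∈ jac W, ∀ μ, part lam μ f ∈ jac W) {q g : Hat Q} (hq : q ∈ Fil Q 1)
    (hg : g ∈ jac W) (μ : ℚ) : part lam μ (g * q) ∈ MM W := by
  refine isCl_MM W _ fun n => ?_
  obtain ⟨T, hT, -⟩ := part_conv lam q n
  refine ⟨∑ ν ∈ T, part lam (μ - ν) g * part lam ν q,
    Submodule.sum_mem _ fun ν _ => mm_of_right (part_Fil hq) (hJ g hg _), ?_⟩
  have h1 : part lam μ (g * ∑ ν ∈ T, part lam ν q) =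
      ∑ ν ∈ T, part lam (μ - ν) g * part lam ν q := by
    rw [Finset.mul_sum, map_sum]
    refine Finset.sum_congr rfl fun ν _ => part_mul_right ?_ _ _
    rw [part_part, if_pos rfl]
  rw [← h1, ← map_sub, ← mul_sub]
  exact part_Fil (mul_mem_Fil_left g hT)

private theorem mm_part {W : Hat Q} {lam : E → ℚ}
    (hJ : ∀ f ∈ jac W, ∀ μ, part lam μ f ∈ jac W) {f : Hat Q} (hf : f ∈ MM W) (μ : ℚ) :
    part lam μ f ∈ MM W := by
  unfold MM at hf
  unfold MM
  refine map_cl (part lam μ) (fun n f hf => part_Fil hf) ?_ hf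
  intro g hg
  change part lam μ g ∈ MM W
  induction hg using Submodule.span_induction with
  | mem x h =>
    obtain ⟨a, p, q, rfl, hpq⟩ := h
    rcases hpq with hp | hq
    · rw [mul_assoc]
      exact mm_part_left hJ hp (jac_mr q (cyc_jac W a)) μ
    · exact mm_part_right hJ hq (jac_ml p (cyc_jac W a)) μ
  | zero => rw [map_zero]; exact Submodule.zero_mem _
  | add x y _ _ h1 h2 => rw [map_add]; exact Submodule.add_mem _ h1 h2
  | smul c x _ h => rw [map_smul]; exact Submodule.smul_mem _ _ h

theorem exists_weight {W : Hat Q} (hW : W ∈ Fil Q 3) (hs : Syz W) (lam : E → ℚ)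
    (hJ : ∀ f ∈ jac W, ∀ μ, part lam μ f ∈ jac W) (hout : ∀ i, ∃ a, Q.src a = i) :
    ∃ w : V → ℚ, ∀ a, cyc a (part lam (w (Q.src a)) W) - cyc a W ∈ MM W ∧
      ∀ μ, μ ≠ w (Q.src a) → cyc a (part lam μ W) ∈ MM W := by
  have hB : ∀ μ : ℚ, ∃ k : V → ℂ, ∀ a, cyc a (part lam μ W) - k (Q.src a) • cyc a W ∈ MM W := by
    intro μ
    refine exists_const hW hs fun a => ?_
    rw [part_cyc]
    exact hJ _ (cyc_jac W a) _
  choose k hk using hB
  have hC : ∀ a : E, ∃ μ, cyc a (part lam μ W) ∉ MM W := by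
    intro a
    by_contra hcon
    simp only [not_exists, not_not] at hcon
    refine cyc_not_mem (Fil_anti (by norm_num) hW) hs a
      (mem_of_parts (lam := lam) (isCl_MM W) fun ν => ?_)
    have h1 := hcon (ν + lam a)
    rwa [part_cyc, add_sub_cancel_right] at h1
  -- the parts of the difference
  have hD : ∀ (a : E) (μ μ' : ℚ), (if μ' = μ then cyc a (part lam μ W) else 0) -
      k μ (Q.src a) • cyc a (part lam μ' W) ∈ MM W := by
    intro a μ μ'
    have h1 := mm_part hJ (hk μ a) (μ' - lam a)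
    rw [map_sub, map_smul, ← part_cyc, ← part_cyc, part_part] at h1
    by_cases h : μ' = μ
    · rw [if_pos h]
      rwa [if_pos h] at h1
    · have h0 : cyc a (0 : Hat Q) = 0 := by rw [← cycL_apply, map_zero]
      rw [if_neg h]
      rwa [if_neg h, h0] at h1
  have hD1 : ∀ (a : E) (μ μ' : ℚ), k μ (Q.src a) ≠ 0 → μ' ≠ μ →
      cyc a (part lam μ' W) ∈ MM W := by
    intro a μ μ' hk0 hne
    have h1 := hD a μ μ'
    rw [if_neg hne, zero_sub] at h1
    exact (Submodule.smul_mem_iff _ hk0).1 ((Submodule.neg_mem_iff _).1 h1)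
  have hD2 : ∀ (a : E) (μ : ℚ), cyc a (part lam μ W) ∉ MM W → k μ (Q.src a) = 1 := by
    intro a μ hn
    by_contra hne
    have h1 := hD a μ μ
    rw [if_pos rfl] at h1
    have e : cyc a (part lam μ W) - k μ (Q.src a) • cyc a (part lam μ W) =
        (1 - k μ (Q.src a)) • cyc a (part lam μ W) := by
      rw [sub_smul, one_smul]
    rw [e] at h1
    exact hn ((Submodule.smul_mem_iff _ (sub_ne_zero.2 (Ne.symm hne))).1 h1)
  choose a0 ha0 using hout
  choose m hm using hC
  refine ⟨fun i => m (a0 i), fun a => ?_⟩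
  have h1 : k (m (a0 (Q.src a))) (Q.src a) = 1 := by
    have h2 := hD2 _ _ (hm (a0 (Q.src a)))
    rwa [ha0] at h2
  refine ⟨?_, fun μ hμ => ?_⟩
  · have h2 := hk (m (a0 (Q.src a))) a
    rwa [h1, one_smul] at h2
  · exact hD1 a _ μ (by rw [h1]; exact one_ne_zero) hμ

end Pool.Agent.Flop
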