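import Pool.Agent.Lib.FlA.Def5
import Pool.Agent.Lib.FlA.Bs1

/-!
# Str: every family of arrows containing a cycle meets a relation

Suppose not. Then (A) (cyc c Φ).cf i' j' p = 0 for all c, i', j' and all words p with letters in S: otherwise i' = tgt c, j' = src c and IsPath (tgt c) p (src c) (Hat.cf_path, idem_mul_cyc/definition of cyc), cyc c Φ in Fil 2 (cyc_mem_Fil) gives 2 <= p.length, and by the definition of cyc some Φ.cf v v (p.drop k ++ c :: p.take k) <> 0, whose weight is
lam c + weight p = w (hom; List.map_append, sum). (B) I := {f | f.cf i' j' p = 0 for all i' j' and all p with letters in S} is a closed two-sided ideal (coefficients of products: `Hat.cf_mul`, take and drop of p have letters in S), so jac Φ <= I (jac_min). (C) Fil K <= jac Φ <= I; the word u := l repeated K times (`(List.replicate K l).flatten`) is a closed path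
at i of length >= K with letters in S; word Q i u in Fil K has coefficient 1 at u (cf_word): contradiction.
-/

set_option autoImplicit false

namespace Pool.Agent.Flop

open Finset

variable {V E : Type} [Fintype V] [DecidableEq V] [DecidableEq E] [Fintype E] {Q : Qv V E}
variable {Φ : Hat Q} {lam : E → ℚ} {w : ℚ}

/-- The series without coefficients at the words with letters in `S`. -/
private def strI (Q : Qv V E) (S : Set E) : Submodule ℂ (Hat Q) where
  carrier := {f | ∀ i j p, (∀ a ∈ p, a ∈ S) → f.cf i j p = 0}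
  add_mem' := by
    intro f g hf hg i j p hp
    rw [Hat.cf_add, hf i j p hp, hg i j p hp, add_zero]
  zero_mem' := by
    intro i j p _
    exact Hat.cf_zero i j p
  smul_mem' := by
    intro c f hf i j p hp
    rw [Hat.cf_smul, hf i j p hp, mul_zero]

omit [Fintype E] in
private theorem str_mem {S : Set E} {f : Hat Q} :
    f ∈ strI Q S ↔ ∀ i j p, (∀ a ∈ p, a ∈ S) → f.cf i j p = 0 := Iff.rfl

omit [Fintype E] in
private theorem str_left {S : Set E} (z : Hat Q) {f : Hat Q} (hf : f ∈ strI Q S) :
    z * f ∈ strI Q S := by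
  rw [str_mem] at hf ⊢
  intro i j p hp
  rw [Hat.cf_mul]
  refine Finset.sum_eq_zero fun v _ => Finset.sum_eq_zero fun k _ => ?_
  rw [hf v j (p.drop k) fun a ha => hp a (List.mem_of_mem_drop ha), mul_zero]

omit [Fintype E] in
private theorem str_right {S : Set E} (z : Hat Q) {f : Hat Q} (hf : f ∈ strI Q S) :
    f * z ∈ strI Q S := by
  rw [str_mem] at hf ⊢
  intro i j p hp
  rw [Hat.cf_mul]
  refine Finset.sum_eq_zero fun v _ => Finset.sum_eq_zero fun k _ => ?_
  rw [hf i v (p.take k) fun a ha => hp a (List.mem_of_mem_take ha), zero_mul]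

omit [Fintype E] in
private theorem str_cl {S : Set E} : IsCl (strI Q S) := by
  intro f hf
  rw [str_mem]
  intro i j p hp
  obtain ⟨s, hs, h⟩ := hf (p.length + 1)
  have h1 := h i j p (Nat.lt_succ_self _)
  rw [Hat.cf_sub, str_mem.1 hs i j p hp, sub_zero] at h1
  exact h1

omit [Fintype V] [DecidableEq V] [DecidableEq E] [Fintype E] in
private theorem str_rep {S : Set E} {i : V} {l : List E} (hl : l ≠ [])
    (hp : Q.IsPath i l i) (hS : ∀ a ∈ l, a ∈ S) (K : ℕ) :
    ∃ u : List E, K ≤ u.length ∧ Q.IsPath i u i ∧ ∀ a ∈ u, a ∈ S := by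
  induction K with
  | zero => exact ⟨[], Nat.zero_le _, rfl, fun a ha => absurd ha List.not_mem_nil⟩
  | succ K ih =>
    obtain ⟨u, h1, h2, h3⟩ := ih
    refine ⟨l ++ u, ?_, hp.append h2, fun a ha => ?_⟩
    · rw [List.length_append]
      have := List.length_pos_iff.2 hl
      omega
    · rcases List.mem_append.1 ha with h | h
      · exact hS a h
      · exact h3 a h

theorem exists_word_of (three : Φ ∈ Fil Q 3) (fin : ∃ K, Fil Q K ≤ jac Φ)
    (hom : ∀ i l, Φ.cf i i l ≠ 0 → (l.map lam).sum = w) (S : Set E) {i : V} {l : List E}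
    (hl : l ≠ []) (hp : Q.IsPath i l i) (hS : ∀ a ∈ l, a ∈ S) :
    ∃ (c : E) (p : List E), (∀ a ∈ p, a ∈ S) ∧ 2 ≤ p.length ∧
      Q.IsPath (Q.tgt c) p (Q.src c) ∧ lam c + (p.map lam).sum = w := by
  by_contra hc
  have hA : ∀ c : E, cyc c Φ ∈ strI Q S := by
    intro c
    rw [str_mem]
    intro i' j' p hpS
    by_contra hne
    refine hc ⟨c, p, hpS, ?_, ?_, ?_⟩
    · by_contra h2
      exact hne (cyc_mem_Fil c three i' j' p (not_le.1 h2))
    · have h1 := Hat.cf_path _ hne
      change (if i' = Q.tgt c ∧ j' = Q.src c then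
        ∑ v, ∑ k ∈ range (p.length + 1), Φ.cf v v (p.drop k ++ c :: p.take k) else 0) ≠ 0 at hne
      split_ifs at hne with h3
      · rw [h3.1, h3.2] at h1
        exact h1
      · exact absurd rfl hne
    · change (if i' = Q.tgt c ∧ j' = Q.src c then
        ∑ v, ∑ k ∈ range (p.length + 1), Φ.cf v v (p.drop k ++ c :: p.take k) else 0) ≠ 0 at hne
      split_ifs at hne with h3
      · obtain ⟨v, _, hv⟩ := Finset.exists_ne_zero_of_sum_ne_zero hne
        obtain ⟨k, _, hk⟩ := Finset.exists_ne_zero_of_sum_ne_zero hv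
        have h4 := hom v _ hk
        rw [List.map_append, List.map_cons, List.sum_append, List.sum_cons] at h4
        have h5 : (p.map lam).sum = ((p.take k).map lam).sum + ((p.drop k).map lam).sum := by
          rw [← List.sum_append, ← List.map_append, List.take_append_drop]
        rw [h5, ← h4]
        ring
      · exact absurd rfl hne
  obtain ⟨K, hK⟩ := fin
  obtain ⟨u, h1, h2, h3⟩ := str_rep hl hp hS K
  have h4 : jac Φ ≤ strI Q S := jac_min str_cl (fun z _ hf => str_left z hf)
    (fun z _ hf => str_right z hf) hA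
  have h5 : word Q i u ∈ Fil Q K := by
    intro p q l' hl'
    rw [cf_word]
    refine if_neg fun h6 => ?_
    obtain ⟨_, h7, _⟩ := h6
    subst h7
    omega
  have h6 := str_mem.1 (h4 (hK h5)) i i u h3
  rw [cf_word, if_pos ⟨rfl, rfl, h2⟩] at h6
  exact one_ne_zero h6

theorem PHyp.exists_word (h : PHyp Φ lam w) (S : Set E) {i : V} {l : List E} (hl : l ≠ [])
    (hp : Q.IsPath i l i) (hS : ∀ a ∈ l, a ∈ S) :
    ∃ (c : E) (p : List E), (∀ a ∈ p, a ∈ S) ∧ 2 ≤ p.length ∧
      Q.IsPath (Q.tgt c) p (Q.src c) ∧ lam c + (p.map lam).sum = w :=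
  exists_word_of h.three h.fin h.hom S hl hp hS

end Pool.Agent.Flop
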