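import Pool.Agent.Lib.FlA.Def2

/-!
# ThB: double derivatives: first properties

ALL by coefficients (`cf_Th`, `Hat.ext_cf`, `cf_idem`, `cf_arr`, `cf_word`). `Th_one`: (1).cf p q l' is 1 if p = q and l' = [], else 0 (`cf_one`): only k2 = 0, q = p survive
and the sum over k1 is the definition of cyc. `Th_arr`: (arr b).cf q p (l.drop (k1+k2) ++ a :: l.take k1) <> 0 only if a = b, q = src b, p = tgt b, l.drop (k1+k2) = [] and
l.take k1 = [], that is k1 = 0 or l = [], k2 = l.length: then x.cf (tgt b) (src b) l. (careful with l = []: then k1 = k2 = 0 is the only term.)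
`Th_Fil`: a non-zero term has |l.drop (k1+k2)| + 1 + |l.take k1| >= m + 1 and |(l.drop k1).take k2| >= n, sum of the lengths = |l| + 1. `Th_word`: word Q i l has coefficient 1 at
the word l from i to j (given IsPath) and 0 elsewhere (`cf_word`): the terms of Th are the (k1, k2) with l'.drop (k1+k2) ++ a :: l'.take k1 = l: put n = |l'.drop (k1+k2)| (position of a);
l.take n = l'.drop (k1 + k2), l.drop (n+1) = l'.take k1. On the right side use cf_mul twice and cf_word. (Here l' is the word where the coefficient is taken.)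
-/

set_option autoImplicit false

namespace Pool.Agent.Flop

open Finset

variable {V E : Type} [Fintype V] [DecidableEq V] [DecidableEq E] {Q : Qv V E}

theorem Th_add_left (a : E) (s t x : Hat Q) : Th a (s + t) x = Th a s x + Th a t x := by
  refine Hat.ext_cf fun i j l => ?_
  rw [Hat.cf_add, cf_Th, cf_Th, cf_Th]
  by_cases h : i = Q.tgt a ∧ j = Q.src a
  · rw [if_pos h, if_pos h, if_pos h]
    simp only [Hat.cf_add, add_mul, Finset.sum_add_distrib]
  · rw [if_neg h, if_neg h, if_neg h, add_zero]

theorem Th_add_right (a : E) (s x y : Hat Q) : Th a s (x + y) = Th a s x + Th a s y := by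
  refine Hat.ext_cf fun i j l => ?_
  rw [Hat.cf_add, cf_Th, cf_Th, cf_Th]
  by_cases h : i = Q.tgt a ∧ j = Q.src a
  · rw [if_pos h, if_pos h, if_pos h]
    simp only [Hat.cf_add, mul_add, Finset.sum_add_distrib]
  · rw [if_neg h, if_neg h, if_neg h, add_zero]

theorem Th_smul_left (a : E) (c : ℂ) (s x : Hat Q) : Th a (c • s) x = c • Th a s x := by
  refine Hat.ext_cf fun i j l => ?_
  rw [Hat.cf_smul, cf_Th, cf_Th]
  by_cases h : i = Q.tgt a ∧ j = Q.src a
  · rw [if_pos h, if_pos h]
    simp only [Hat.cf_smul, mul_assoc, ← Finset.mul_sum]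
  · rw [if_neg h, if_neg h, mul_zero]

theorem Th_smul_right (a : E) (c : ℂ) (s x : Hat Q) : Th a s (c • x) = c • Th a s x := by
  refine Hat.ext_cf fun i j l => ?_
  rw [Hat.cf_smul, cf_Th, cf_Th]
  by_cases h : i = Q.tgt a ∧ j = Q.src a
  · rw [if_pos h, if_pos h]
    simp only [Hat.cf_smul, mul_left_comm _ c, ← Finset.mul_sum]
  · rw [if_neg h, if_neg h, mul_zero]

theorem Th_one (a : E) (s : Hat Q) : Th a s 1 = cyc a s := by
  refine Hat.ext_cf fun i j l => ?_
  have hc : (cyc a s).cf i j l = if i = Q.tgt a ∧ j = Q.src a then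
      ∑ v, ∑ k ∈ range (l.length + 1), s.cf v v (l.drop k ++ a :: l.take k) else 0 := rfl
  rw [hc, cf_Th]
  by_cases h : i = Q.tgt a ∧ j = Q.src a
  · rw [if_pos h, if_pos h]
    refine Finset.sum_congr rfl fun p _ => ?_
    rw [Finset.sum_eq_single p]
    · refine Finset.sum_congr rfl fun k₁ hk₁ => ?_
      have hk₁' := Finset.mem_range.1 hk₁
      rw [Finset.sum_eq_single 0]
      · rw [Hat.cf_one, List.take_zero, if_pos ⟨rfl, rfl⟩, mul_one, add_zero]
      · intro k₂ hk₂ hk₂0
        have hk₂' := Finset.mem_range.1 hk₂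
        rw [Hat.cf_one, if_neg, mul_zero]
        rintro ⟨-, h2⟩
        have h3 := congrArg List.length h2
        rw [List.length_take, List.length_drop, List.length_nil] at h3
        omega
      · intro h0
        exact absurd (Finset.mem_range.2 (Nat.succ_pos _)) h0
    · intro q _ hq
      refine Finset.sum_eq_zero fun k₁ _ => Finset.sum_eq_zero fun k₂ _ => ?_
      rw [Hat.cf_one, if_neg (fun h' => hq h'.1.symm), mul_zero]
    · intro h0
      exact absurd (Finset.mem_univ p) h0
  · rw [if_neg h, if_neg h]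

theorem Th_idem (a : E) (v : V) (x : Hat Q) : Th a (idem Q v) x = 0 := by
  refine Hat.ext_cf fun i j l => ?_
  rw [Hat.cf_zero, cf_Th]
  by_cases h : i = Q.tgt a ∧ j = Q.src a
  · rw [if_pos h]
    refine Finset.sum_eq_zero fun p _ => Finset.sum_eq_zero fun q _ =>
      Finset.sum_eq_zero fun k₁ _ => Finset.sum_eq_zero fun k₂ _ => ?_
    rw [cf_idem, if_neg, zero_mul]
    rintro ⟨-, -, h3⟩
    simp at h3
  · rw [if_neg h]

private theorem thB_single {a b : E} {A B : List E} :
    B ++ a :: A = [b] ↔ B = [] ∧ a = b ∧ A = [] := by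
  constructor
  · intro h
    cases B with
    | nil =>
      rw [List.nil_append, List.cons.injEq] at h
      exact ⟨rfl, h.1, h.2⟩
    | cons c B =>
      have h1 := congrArg List.length h
      rw [List.length_append, List.length_cons, List.length_cons, List.length_singleton] at h1
      omega
  · rintro ⟨rfl, rfl, rfl⟩
    rfl

theorem Th_arr (a b : E) (x : Hat Q) : Th a (arr Q b) x =
    if a = b then idem Q (Q.tgt a) * x * idem Q (Q.src a) else 0 := by
  refine Hat.ext_cf fun i j l => ?_
  rw [cf_Th]
  by_cases hab : a = b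
  · subst hab
    rw [if_pos rfl, cf_mul_idem, cf_idem_mul]
    by_cases h : i = Q.tgt a ∧ j = Q.src a
    · rw [if_pos h, if_pos h.2, if_pos h.1, Finset.sum_eq_single (Q.tgt a),
        Finset.sum_eq_single (Q.src a), Finset.sum_eq_single 0, Finset.sum_eq_single l.length]
      · rw [cf_arr, if_pos, one_mul, List.drop_zero, List.take_length, h.1, h.2]
        refine ⟨rfl, rfl, thB_single.2 ⟨?_, rfl, List.take_zero⟩⟩
        rw [zero_add, List.drop_length]
      · intro k₂ hk₂ hne
        have hk₂' := Finset.mem_range.1 hk₂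
        rw [cf_arr, if_neg, zero_mul]
        rintro ⟨-, -, h3⟩
        have h4 := (thB_single.1 h3).1
        rw [List.drop_eq_nil_iff] at h4
        omega
      · intro h0
        exact absurd (Finset.mem_range.2 (by omega)) h0
      · intro k₁ hk₁ hne
        have hk₁' := Finset.mem_range.1 hk₁
        refine Finset.sum_eq_zero fun k₂ _ => ?_
        rw [cf_arr, if_neg, zero_mul]
        rintro ⟨-, -, h3⟩
        have h4 := congrArg List.length (thB_single.1 h3).2.2
        rw [List.length_take, List.length_nil] at h4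
        omega
      · intro h0
        exact absurd (Finset.mem_range.2 (Nat.succ_pos _)) h0
      · intro q _ hq
        refine Finset.sum_eq_zero fun k₁ _ => Finset.sum_eq_zero fun k₂ _ => ?_
        rw [cf_arr, if_neg (fun h' => hq h'.1), zero_mul]
      · intro h0
        exact absurd (Finset.mem_univ _) h0
      · intro p _ hp
        refine Finset.sum_eq_zero fun q _ => Finset.sum_eq_zero fun k₁ _ =>
          Finset.sum_eq_zero fun k₂ _ => ?_
        rw [cf_arr, if_neg (fun h' => hp h'.2.1), zero_mul]
      · intro h0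
        exact absurd (Finset.mem_univ _) h0
    · rw [if_neg h]
      by_cases h1 : j = Q.src a
      · rw [if_pos h1, if_neg (fun h2 => h ⟨h2, h1⟩)]
      · rw [if_neg h1]
  · rw [if_neg hab, Hat.cf_zero]
    by_cases h : i = Q.tgt a ∧ j = Q.src a
    · rw [if_pos h]
      refine Finset.sum_eq_zero fun p _ => Finset.sum_eq_zero fun q _ =>
        Finset.sum_eq_zero fun k₁ _ => Finset.sum_eq_zero fun k₂ _ => ?_
      rw [cf_arr, if_neg (fun h' => hab (thB_single.1 h'.2.2).2.1), zero_mul]
    · rw [if_neg h]

theorem Th_Fil {m n : ℕ} {s x : Hat Q} (a : E) (hs : s ∈ Fil Q (m + 1)) (hx : x ∈ Fil Q n) :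
    Th a s x ∈ Fil Q (m + n) := by
  rw [mem_Fil] at hs hx ⊢
  intro i j l hl
  rw [cf_Th]
  by_cases h : i = Q.tgt a ∧ j = Q.src a
  · rw [if_pos h]
    refine Finset.sum_eq_zero fun p _ => Finset.sum_eq_zero fun q _ =>
      Finset.sum_eq_zero fun k₁ hk₁ => Finset.sum_eq_zero fun k₂ hk₂ => ?_
    have hk₁' := Finset.mem_range.1 hk₁
    have hk₂' := Finset.mem_range.1 hk₂
    by_cases h1 : k₂ < n
    · rw [hx p q _ (by rw [List.length_take]; omega), mul_zero]
    · rw [hs q p _ (by
        rw [List.length_append, List.length_cons, List.length_drop, List.length_take]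
        omega), zero_mul]
  · rw [if_neg h]

private theorem thB_unique {i j j' : V} {l : List E} (h : Q.IsPath i l j)
    (h' : Q.IsPath i l j') : j = j' := by
  induction l generalizing i with
  | nil => exact Eq.trans (Eq.symm h) h'
  | cons a l ih => exact ih h.2 h'.2

private theorem thB_split {i j : V} {l : List E} (h : Q.IsPath i l j) {n : ℕ} {a : E}
    (hn : l[n]? = some a) : Q.IsPath i (l.take n) (Q.src a) ∧
      Q.IsPath (Q.tgt a) (l.drop (n + 1)) j := by
  induction l generalizing i n with
  | nil => simp at hn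
  | cons b l ih =>
    cases n with
    | zero =>
      rw [List.getElem?_cons_zero, Option.some.injEq] at hn
      subst hn
      exact ⟨h.1.symm, h.2⟩
    | succ n =>
      rw [List.getElem?_cons_succ] at hn
      have h1 := ih h.2 hn
      exact ⟨⟨h.1, h1.1⟩, h1.2⟩

private theorem thB_list (l A B : List E) (a : E) (c : ℂ) :
    ∑ n ∈ range l.length, (if A = l.drop (n + 1) ∧ B = l.take n ∧ l[n]? = some a then c else 0) =
      if B ++ a :: A = l then c else 0 := by
  by_cases h : B ++ a :: A = l
  · subst h
    rw [if_pos rfl, Finset.sum_eq_single B.length]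
    · rw [if_pos]
      refine ⟨?_, ?_, ?_⟩
      · rw [List.drop_append, List.drop_eq_nil_of_le (by omega), List.nil_append]
        have h1 : B.length + 1 - B.length = 1 := by omega
        rw [h1]
        rfl
      · rw [List.take_left]
      · rw [List.getElem?_append_right (le_refl _), Nat.sub_self, List.getElem?_cons_zero]
    · intro n hn hne
      have hn' := Finset.mem_range.1 hn
      rw [if_neg]
      rintro ⟨-, h2, -⟩
      have h3 := congrArg List.length h2
      rw [List.length_take] at h3
      omega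
    · intro h0
      exact absurd (Finset.mem_range.2 (by
        rw [List.length_append, List.length_cons]; omega)) h0
  · rw [if_neg h]
    refine Finset.sum_eq_zero fun n hn => ?_
    rw [if_neg]
    rintro ⟨h1, h2, h3⟩
    apply h
    rw [h1, h2]
    obtain ⟨h4, h5⟩ := List.getElem?_eq_some_iff.1 h3
    rw [← h5, List.cons_getElem_drop_succ, List.take_append_drop]

private theorem thB_prod {i j u w : V} {A B : List E} (hA : Q.IsPath u A j)
    (hB : Q.IsPath i B w) (x : Hat Q) (p q : V) (l' : List E) :
    (word Q u A * x * word Q i B).cf p q l' = if p = u ∧ q = w then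
      ∑ k₁ ∈ range (l'.length + 1), ∑ k₂ ∈ range (l'.length - k₁ + 1),
        (if l'.take k₁ = A ∧ l'.drop (k₁ + k₂) = B then x.cf j i ((l'.drop k₁).take k₂) else 0)
      else 0 := by
  classical
  rw [mul_assoc, Hat.cf_mul, Finset.sum_eq_single j]
  · by_cases h : p = u ∧ q = w
    · rw [if_pos h]
      refine Finset.sum_congr rfl fun k₁ hk₁ => ?_
      rw [cf_word]
      by_cases h1 : l'.take k₁ = A
      · rw [if_pos ⟨h.1, h1, hA⟩, one_mul, Hat.cf_mul, Finset.sum_eq_single i]
        · rw [List.length_drop]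
          refine Finset.sum_congr rfl fun k₂ hk₂ => ?_
          rw [cf_word, List.drop_drop]
          by_cases h2 : l'.drop (k₁ + k₂) = B
          · rw [if_pos ⟨rfl, h2, h.2 ▸ hB⟩, mul_one, if_pos ⟨h1, h2⟩]
          · rw [if_neg (fun h' => h2 h'.2.1), mul_zero, if_neg (fun h' => h2 h'.2)]
        · intro k _ hk
          refine Finset.sum_eq_zero fun n _ => ?_
          rw [cf_word, if_neg (fun h' => hk h'.1), mul_zero]
        · intro h0
          exact absurd (Finset.mem_univ _) h0
      · rw [if_neg (fun h' => h1 h'.2.1), zero_mul]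
        refine (Finset.sum_eq_zero fun k₂ _ => ?_).symm
        rw [if_neg (fun h' => h1 h'.1)]
    · rw [if_neg h]
      refine Finset.sum_eq_zero fun k₁ _ => ?_
      rw [cf_word]
      by_cases h1 : p = u
      · have h2 : q ≠ w := fun h2 => h ⟨h1, h2⟩
        rw [Hat.cf_mul]
        have h3 : ∑ k, ∑ n ∈ range ((l'.drop k₁).length + 1),
            x.cf j k ((l'.drop k₁).take n) * (word Q i B).cf k q ((l'.drop k₁).drop n) = 0 := by
          refine Finset.sum_eq_zero fun k _ => Finset.sum_eq_zero fun n _ => ?_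
          rw [cf_word, if_neg, mul_zero]
          rintro ⟨-, -, h4⟩
          exact h2 (thB_unique h4 hB)
        rw [h3, mul_zero]
      · rw [if_neg (fun h' => h1 h'.1), zero_mul]
  · intro k _ hk
    refine Finset.sum_eq_zero fun n _ => ?_
    rw [cf_word, if_neg, zero_mul]
    rintro ⟨-, -, h4⟩
    exact hk (thB_unique h4 hA)
  · intro h0
    exact absurd (Finset.mem_univ _) h0

theorem Th_word {i j : V} {l : List E} (h : Q.IsPath i l j) (a : E) (x : Hat Q) :
    Th a (word Q i l) x = ∑ n ∈ range l.length, if l[n]? = some a then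
      word Q (Q.tgt a) (l.drop (n + 1)) * x * word Q i (l.take n) else 0 := by
  classical
  refine Hat.ext_cf fun p' q' l' => ?_
  rw [cf_Th, Hat.cf_sum]
  have hR : ∀ n ∈ range l.length, (if l[n]? = some a then
      word Q (Q.tgt a) (l.drop (n + 1)) * x * word Q i (l.take n) else 0 : Hat Q).cf p' q' l' =
      if p' = Q.tgt a ∧ q' = Q.src a then
      ∑ k₁ ∈ range (l'.length + 1), ∑ k₂ ∈ range (l'.length - k₁ + 1),
        (if l'.take k₁ = l.drop (n + 1) ∧ l'.drop (k₁ + k₂) = l.take n ∧ l[n]? = some a then
          x.cf j i ((l'.drop k₁).take k₂) else 0) else 0 := by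
    intro n _
    by_cases hn : l[n]? = some a
    · obtain ⟨h1, h2⟩ := thB_split h hn
      rw [if_pos hn, thB_prod h2 h1]
      refine if_congr Iff.rfl ?_ rfl
      refine Finset.sum_congr rfl fun k₁ _ => Finset.sum_congr rfl fun k₂ _ => ?_
      refine if_congr ?_ rfl rfl
      constructor
      · rintro ⟨h3, h4⟩
        exact ⟨h3, h4, hn⟩
      · rintro ⟨h3, h4, -⟩
        exact ⟨h3, h4⟩
    · rw [if_neg hn, Hat.cf_zero]
      by_cases hpq : p' = Q.tgt a ∧ q' = Q.src a
      · rw [if_pos hpq]
        refine (Finset.sum_eq_zero fun k₁ _ => Finset.sum_eq_zero fun k₂ _ => ?_).symm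
        rw [if_neg (fun h' => hn h'.2.2)]
      · rw [if_neg hpq]
  rw [Finset.sum_congr rfl hR]
  by_cases hpq : p' = Q.tgt a ∧ q' = Q.src a
  · simp only [if_pos hpq]
    conv_rhs => rw [Finset.sum_comm]
    rw [Finset.sum_eq_single j, Finset.sum_eq_single i]
    · refine Finset.sum_congr rfl fun k₁ _ => ?_
      conv_rhs => rw [Finset.sum_comm]
      refine Finset.sum_congr rfl fun k₂ _ => ?_
      rw [thB_list, cf_word]
      by_cases h1 : l'.drop (k₁ + k₂) ++ a :: l'.take k₁ = l
      · rw [if_pos ⟨rfl, h1, h⟩, if_pos h1, one_mul]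
      · rw [if_neg (fun h' => h1 h'.2.1), if_neg h1, zero_mul]
    · intro q _ hq
      refine Finset.sum_eq_zero fun k₁ _ => Finset.sum_eq_zero fun k₂ _ => ?_
      rw [cf_word, if_neg (fun h' => hq h'.1), zero_mul]
    · intro h0
      exact absurd (Finset.mem_univ _) h0
    · intro p _ hp
      refine Finset.sum_eq_zero fun q _ => Finset.sum_eq_zero fun k₁ _ =>
        Finset.sum_eq_zero fun k₂ _ => ?_
      rw [cf_word, if_neg (fun h' => hp (thB_unique h'.2.2 h)), zero_mul]
    · intro h0
      exact absurd (Finset.mem_univ _) h0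
  · simp only [if_neg hpq]
    rw [Finset.sum_const_zero]

end Pool.Agent.Flop
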