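import Pool.Agent.Lib.FlA.Def2

/-!
# ThG: induction principle for double derivatives, general target

As in ThI (th_ind): L (word Q i l) x = 0 for all words (induction on the word: word Q i (a :: l) = arr Q a * word Q (Q.tgt a) l if Q.src a = i, else 0; word Q i [] = idem Q i) and all x; finite combinations: hsm, hadd (L 0 x = 0: hadd with s = t = 0). For general s, n: m from hcont, exists_words s m: s = combination + s', L s x = L s' x in G n. hG.
-/

set_option autoImplicit false

namespace Pool.Agent.Flop

open Finset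

variable {V E : Type} [Fintype V] [DecidableEq V] [DecidableEq E] {Q : Qv V E}

theorem th_ind' [Finite E] {Y : Type} [AddCommGroup Y] (G : ℕ → Set Y)
    (hG : ∀ y, (∀ n, y ∈ G n) → y = 0) (L : Hat Q → Hat Q → Y)
    (hadd : ∀ s t x, L (s + t) x = L s x + L t x)
    (hsm : ∀ (c : ℂ) s x, L s x = 0 → L (c • s) x = 0)
    (hmul : ∀ s t x, L (s * t) x = L s (t * x) + L t (x * s))
    (hidem : ∀ v x, L (idem Q v) x = 0) (harr : ∀ a x, L (arr Q a) x = 0)
    (hcont : ∀ n x, ∃ m, ∀ s ∈ Fil Q m, L s x ∈ G n) (s x : Hat Q) : L s x = 0 := by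
  have h0 : ∀ x, L 0 x = 0 := by
    intro x
    have h := hadd 0 0 x
    rw [add_zero] at h
    exact left_eq_add.mp h
  have hsum : ∀ {ι : Type} (S : Finset ι) (f : ι → Hat Q) (x : Hat Q),
      (∀ k ∈ S, L (f k) x = 0) → L (∑ k ∈ S, f k) x = 0 := by
    classical
    intro ι S f x
    induction S using Finset.induction_on with
    | empty => intro _; rw [Finset.sum_empty, h0]
    | insert k S hk ih =>
      intro h
      rw [Finset.sum_insert hk, hadd, h k (Finset.mem_insert_self k S),
        ih fun j hj => h j (Finset.mem_insert_of_mem hj), add_zero]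
  have h1 : ∀ x, L 1 x = 0 := by
    intro x
    rw [← sum_idem]
    exact hsum _ _ _ fun i _ => hidem i x
  have hp : ∀ (l : List E) (x : Hat Q), L (l.map (arr Q)).prod x = 0 := by
    intro l
    induction l with
    | nil => intro x; rw [List.map_nil, List.prod_nil, h1]
    | cons a l ih => intro x; rw [List.map_cons, List.prod_cons, hmul, harr, ih, add_zero]
  have hw : ∀ (i : V) (l : List E) (x : Hat Q), L (word Q i l) x = 0 := by
    intro i l x
    unfold word
    rw [hmul, hidem, hp, add_zero]
  refine hG _ fun n => ?_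
  obtain ⟨m, hm⟩ := hcont n x
  obtain ⟨S, -, hS⟩ := exists_words s m
  set w := ∑ t ∈ S, s.cf t.1 t.2.1 t.2.2 • word Q t.1 t.2.2 with hw'
  have h2 : L w x = 0 := hsum _ _ _ fun t _ => hsm _ _ _ (hw _ _ _)
  have h3 : L s x = L (s - w) x := by
    have h4 := hadd (s - w) w x
    rw [sub_add_cancel, h2, add_zero] at h4
    exact h4
  rw [h3]
  exact hm _ hS

end Pool.Agent.Flop
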