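import Pool.Agent.Lib.FlA.ThM
import Pool.Agent.Lib.FlA.ThI

/-!
# ThH: the chain rule for automorphisms

`aut_Fil` (NLoc) gives that σ and σ.symm preserve Fil. `th_chain`: th_ind with S = 0 (IsCl by Fil_sep) for L s x = Th a (σ s) (σ x) - sum_b Th a (σ (arr b)) (σ (Th b s x)):
hmul by Th_mul (for σ s, σ t and inside for Th b (s t) x), Th_add_right, map_mul, map_add; hidem: σ (idem v) = idem v, Th_idem; harr: Th b (arr c) x = e x e for b = c (Th_arr) and
Th a (σ (arr c)) (σ (e_{tgt c} x e_{src c})) = Th a (σ (arr c)) (e_{tgt c} (σ x) e_{src c}) = Th a (σ (arr c)) (σ x) by Th_ends (σ (arr c) = e_{src c} σ(arr c) e_{tgt c}, apply σ to idem_mul_arr, arr_mul_idem).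
hcont: m = n + 1 (Th_Fil with the second argument in Fil 0 = top). `cyc_chain`: x = 1, Th_one.
-/

/-!
# ThH: the chain rule for automorphisms

`aut_Fil` (NLoc) gives that σ and σ.symm preserve Fil. `th_chain`: th_ind with S = 0 (IsCl by Fil_sep) for L s x = Th a (σ s) (σ x) - sum_b Th a (σ (arr b)) (σ (Th b s x)):
hmul by Th_mul (for σ s, σ t and inside for Th b (s t) x), Th_add_right, map_mul, map_add; hidem: σ (idem v) = idem v, Th_idem; harr: Th b (arr c) x = e x e for b = c (Th_arr) and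
Th a (σ (arr c)) (σ (e_{tgt c} x e_{src c})) = Th a (σ (arr c)) (e_{tgt c} (σ x) e_{src c}) = Th a (σ (arr c)) (σ x) by Th_ends (σ (arr c) = e_{src c} σ(arr c) e_{tgt c}, apply σ to idem_mul_arr, arr_mul_idem).
hcont: m = n + 1 (Th_Fil with the second argument in Fil 0 = top). `cyc_chain`: x = 1, Th_one.
-/

set_option autoImplicit false

namespace Pool.Agent.Flop

open Finset

variable {V E : Type} [Fintype V] [DecidableEq V] [DecidableEq E] {Q : Qv V E}

private theorem thh_cl : IsCl (⊥ : Submodule ℂ (Hat Q)) := by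
  intro f hf
  rw [Submodule.mem_bot]
  refine Fil_sep fun n => ?_
  obtain ⟨s, hs, h⟩ := hf n
  rw [Submodule.mem_bot] at hs
  rwa [hs, sub_zero] at h

private theorem thh_zero (a : E) (s : Hat Q) : Th a s 0 = 0 := by
  have h := Th_smul_right a 0 s (0 : Hat Q)
  rwa [zero_smul, zero_smul] at h

theorem th_chain [Fintype E] (σ : Hat Q ≃ₐ[ℂ] Hat Q) (hσ : ∀ v, σ (idem Q v) = idem Q v) (a : E)
    (s x : Hat Q) : Th a (σ s) (σ x) = ∑ b, Th a (σ (arr Q b)) (σ (Th b s x)) := by
  have htop : ∀ y : Hat Q, y ∈ Fil Q 0 := fun y => by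
    rw [Fil_zero]
    exact Submodule.mem_top
  have h := th_ind thh_cl
    (fun s x => Th a (σ s) (σ x) - ∑ b, Th a (σ (arr Q b)) (σ (Th b s x))) ?_ ?_ ?_ ?_ ?_ ?_ s x
  · exact sub_eq_zero.1 ((Submodule.mem_bot ℂ).1 h)
  · intro s t x
    simp only [map_add, Th_add_left, Th_add_right, Finset.sum_add_distrib]
    abel
  · intro c s x
    simp only [map_smul, Th_smul_left, Th_smul_right, smul_sub, Finset.smul_sum]
  · intro s t x
    rw [Submodule.mem_bot]
    simp only [map_mul, Th_mul, map_add, Th_add_right, Finset.sum_add_distrib]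
    abel
  · intro v x
    rw [Submodule.mem_bot]
    simp only [hσ, Th_idem, map_zero, thh_zero, Finset.sum_const_zero, sub_zero]
  · intro c x
    rw [Submodule.mem_bot]
    have h1 : ∑ b, Th a (σ (arr Q b)) (σ (Th b (arr Q c) x)) =
        Th a (σ (arr Q c)) (σ (idem Q (Q.tgt c) * x * idem Q (Q.src c))) := by
      rw [Finset.sum_eq_single c]
      · rw [Th_arr, if_pos rfl]
      · intro b _ hb
        rw [Th_arr, if_neg hb, map_zero, thh_zero]
      · intro h
        exact absurd (Finset.mem_univ c) h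
    have hi : idem Q (Q.src c) * σ (arr Q c) = σ (arr Q c) := by
      have h2 := congrArg σ (idem_mul_arr (Q := Q) c)
      rwa [map_mul, hσ] at h2
    have hj : σ (arr Q c) * idem Q (Q.tgt c) = σ (arr Q c) := by
      have h2 := congrArg σ (arr_mul_idem (Q := Q) c)
      rwa [map_mul, hσ] at h2
    rw [h1, map_mul, map_mul, hσ, hσ, Th_ends a hi hj, sub_self]
  · intro n
    refine ⟨n + 1, fun s hs x => Submodule.sub_mem _ ?_ (Submodule.sum_mem _ fun b _ => ?_)⟩
    · exact Th_Fil a (aut_Fil σ hσ (n + 1) s hs) (htop _)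
    · have h1 : Th b s x ∈ Fil Q n := Th_Fil b hs (htop x)
      have h2 : σ (Th b s x) ∈ Fil Q n := aut_Fil σ hσ n _ h1
      have h3 : σ (arr Q b) ∈ Fil Q (0 + 1) := aut_Fil σ hσ 1 _ (arr_mem_Fil b)
      have h4 := Th_Fil a h3 h2
      rwa [zero_add] at h4

theorem cyc_chain [Fintype E] (σ : Hat Q ≃ₐ[ℂ] Hat Q) (hσ : ∀ v, σ (idem Q v) = idem Q v) (a : E)
    (F : Hat Q) : cyc a (σ F) = ∑ b, Th a (σ (arr Q b)) (σ (cyc b F)) := by
  have h := th_chain σ hσ a F 1
  rw [map_one, Th_one] at h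
  rw [h]
  exact Finset.sum_congr rfl fun b _ => by rw [Th_one]

end Pool.Agent.Flop
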