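import Pool.Agent.Lib.FlA.ThB

/-!
# ThM: the Leibniz rule for double derivatives

`Th_mul`: both sides are additive and homogeneous in s and t (Th_add_left, Th_smul_left, Th_add_right, Th_smul_right), and continuous: for s in Fil (n+1) or t in Fil (n+1) both sides are in
Fil n (Th_Fil; Th a s (t x): s in Fil (n+1); for t in Fil (n+1), s arbitrary: t * x in Fil (n+1), and Th a s' y with y in Fil (n+1), s' arbitrary: s' = c + s'' with s'' in Fil 1: use that s is mod Fil 1 a
combination of idempotents (exists_words s 1 or Th_Fil with Th_idem), so Th a s y in Fil (n+1)). So with exists_words for s and t it is enough to treat words s = word i l (path from i to j), t = word j' l' (path from j' to k),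
then `Fil_sep`. Product of words: word Q i l * word Q j' l' = if j = j' then word Q i (l ++ l') else 0 (see ncyc_word_mul in Pool/Agent/Lib/MP_03045c_ag/NCyc.lean: private, copy). By Th_word:
Th a (word (l ++ l')) x = sum over the positions n of a in l ++ l' of word(drop (n+1)) * x * word (take n): positions n < |l|: drop (n+1) = l.drop (n+1) ++ l': = word(l.drop (n+1)) * word j l' * x * word (l.take n):
the term of Th a s (t * x); positions |l| + n': word(l'.drop (n'+1)) * x * word i l * word j (l'.take n'): the term of Th a t (x * s). If j <> j': word(l.drop (n+1)) (ends at j) * word j' l' = 0, and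
word i l * word j' (l'.take n') = 0.
`Th_ends`: for s = e_i s e_j: Th a s x = Th a s (e_j x e_i): Th_mul with s = e_i * s and s * e_j, Th_idem.
-/

set_option autoImplicit false

namespace Pool.Agent.Flop

open Finset

variable {V E : Type} [Fintype V] [DecidableEq V] [DecidableEq E] {Q : Qv V E}

omit [Fintype V] [DecidableEq V] [DecidableEq E] in
private theorem thm_end {i j j' : V} {l : List E} (h : Q.IsPath i l j) (h' : Q.IsPath i l j') :
    j = j' := by
  induction l generalizing i with
  | nil => exact (show i = j from h).symm.trans h'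
  | cons a l ih => exact ih h.2 h'.2

private theorem thm_idem_word (i : V) (l : List E) : idem Q i * word Q i l = word Q i l := by
  rw [word, ← mul_assoc, idem_mul_idem, if_pos rfl]

private theorem thm_word_idem {i j : V} {l : List E} (h : Q.IsPath i l j) :
    word Q i l * idem Q j = word Q i l := by
  apply Hat.ext_cf
  intro p q l'
  rw [cf_mul_idem, cf_word]
  by_cases hq : q = j
  · rw [if_pos hq]
  · rw [if_neg hq, if_neg]
    rintro ⟨-, -, h'⟩
    exact hq (thm_end h' h)

private theorem thm_word_mul {i j : V} {l : List E} (h : Q.IsPath i l j) (l' : List E) :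
    word Q i l * word Q j l' = word Q i (l ++ l') := by
  rw [word.eq_def Q j l', ← mul_assoc, thm_word_idem h, word, word, List.map_append,
    List.prod_append, mul_assoc]

private theorem thm_word_mul_ne {i j j' : V} {l : List E} (h : Q.IsPath i l j) (hne : j ≠ j')
    (l' : List E) : word Q i l * word Q j' l' = 0 := by
  rw [← thm_word_idem h, ← thm_idem_word j' l', mul_assoc, ← mul_assoc (idem Q j),
    idem_mul_idem, if_neg hne, zero_mul, mul_zero]

omit [Fintype V] [DecidableEq V] [DecidableEq E] in
private theorem thm_split {i j : V} {l : List E} (h : Q.IsPath i l j) {n : ℕ} {a : E}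
    (hn : l[n]? = some a) : Q.IsPath (Q.tgt a) (l.drop (n + 1)) j := by
  induction l generalizing i n with
  | nil => simp at hn
  | cons b l ih =>
    cases n with
    | zero =>
      rw [List.getElem?_cons_zero] at hn
      obtain rfl := Option.some.inj hn
      exact h.2
    | succ n =>
      rw [List.getElem?_cons_succ] at hn
      exact ih h.2 hn

private theorem thm_density [Finite E] (G : Hat Q →ₗ[ℂ] Hat Q)
    (hfil : ∀ n, ∀ f ∈ Fil Q (n + 1), G f ∈ Fil Q n)
    (hw : ∀ i j l, Q.IsPath i l j → G (word Q i l) = 0) (f : Hat Q) : G f = 0 := by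
  apply Fil_sep
  intro n
  obtain ⟨s, hs, hf⟩ := exists_words f (n + 1)
  have h1 := hfil n _ hf
  rw [map_sub, map_sum] at h1
  have h2 : ∑ t ∈ s, G (f.cf t.1 t.2.1 t.2.2 • word Q t.1 t.2.2) = 0 := by
    refine Finset.sum_eq_zero fun t ht => ?_
    rw [map_smul, hw t.1 t.2.1 t.2.2 (Hat.cf_path f (hs t ht).1), smul_zero]
  rwa [h2, sub_zero] at h1

private theorem thm_Fil {n : ℕ} (a : E) (s : Hat Q) {x : Hat Q} (hx : x ∈ Fil Q n) :
    Th a s x ∈ Fil Q n := by
  rw [mem_Fil] at hx ⊢
  intro i j l hl
  rw [cf_Th]
  split_ifs with h
  · refine Finset.sum_eq_zero fun p _ => Finset.sum_eq_zero fun q _ =>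
      Finset.sum_eq_zero fun k₁ _ => Finset.sum_eq_zero fun k₂ _ => ?_
    rw [hx, mul_zero]
    rw [List.length_take, List.length_drop]
    omega
  · rfl

private theorem thm_zero (a : E) (s : Hat Q) : Th a s 0 = 0 := by
  have h := Th_smul_right a 0 s (0 : Hat Q)
  rwa [zero_smul, zero_smul] at h

private theorem thm_zero' (a : E) (x : Hat Q) : Th a (0 : Hat Q) x = 0 := by
  have h := Th_smul_left a 0 (0 : Hat Q) x
  rwa [zero_smul, zero_smul] at h

private theorem thm_words {i j j' k : V} {l l' : List E} (h : Q.IsPath i l j)
    (h' : Q.IsPath j' l' k) (a : E) (x : Hat Q) :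
    Th a (word Q i l * word Q j' l') x =
      Th a (word Q i l) (word Q j' l' * x) + Th a (word Q j' l') (x * word Q i l) := by
  rw [Th_word h, Th_word h']
  by_cases hj : j = j'
  · subst hj
    rw [thm_word_mul h, Th_word (h.append h'), List.length_append, Finset.sum_range_add]
    congr 1
    · refine Finset.sum_congr rfl fun n hn => ?_
      rw [Finset.mem_range] at hn
      rw [List.getElem?_append_left hn]
      split_ifs with hna
      · rw [List.drop_append_of_le_length (by omega), List.take_append_of_le_length (by omega),
          ← thm_word_mul (thm_split h hna)]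
        simp only [mul_assoc]
      · rfl
    · refine Finset.sum_congr rfl fun n hn => ?_
      rw [List.getElem?_append_right (by omega), Nat.add_sub_cancel_left]
      split_ifs with hna
      · have e1 : (l ++ l').drop (l.length + n + 1) = l'.drop (n + 1) := by
          rw [Nat.add_assoc, List.drop_append, List.drop_of_length_le (by omega),
            List.nil_append, Nat.add_sub_cancel_left]
        have e2 : (l ++ l').take (l.length + n) = l ++ l'.take n := by
          rw [List.take_append, List.take_of_length_le (by omega), Nat.add_sub_cancel_left]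
        rw [e1, e2, ← thm_word_mul h]
        simp only [mul_assoc]
      · rfl
  · rw [thm_word_mul_ne h hj, thm_zero', Finset.sum_eq_zero, Finset.sum_eq_zero, add_zero]
    · intro n _
      split_ifs with hna
      · have e : x * word Q i l * word Q j' (l'.take n) = 0 := by
          rw [mul_assoc, thm_word_mul_ne h hj, mul_zero]
        rw [mul_assoc, e, mul_zero]
      · rfl
    · intro n _
      split_ifs with hna
      · rw [← mul_assoc, thm_word_mul_ne (thm_split h hna) hj, zero_mul, zero_mul]
      · rfl

/-- The defect of the Leibniz rule as a linear map of the first argument. -/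
private noncomputable def thmGL (a : E) (t x : Hat Q) : Hat Q →ₗ[ℂ] Hat Q where
  toFun s := Th a (s * t) x - (Th a s (t * x) + Th a t (x * s))
  map_add' s s' := by
    rw [add_mul, Th_add_left, Th_add_left, mul_add, Th_add_right]
    abel
  map_smul' c s := by
    rw [RingHom.id_apply, smul_mul_assoc, Th_smul_left, Th_smul_left, mul_smul_comm,
      Th_smul_right, smul_sub, smul_add]

/-- The defect of the Leibniz rule as a linear map of the second argument. -/
private noncomputable def thmGR (a : E) (s x : Hat Q) : Hat Q →ₗ[ℂ] Hat Q where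
  toFun t := Th a (s * t) x - (Th a s (t * x) + Th a t (x * s))
  map_add' t t' := by
    rw [mul_add, Th_add_left, Th_add_left, add_mul, Th_add_right]
    abel
  map_smul' c t := by
    rw [RingHom.id_apply, mul_smul_comm, Th_smul_left, Th_smul_left, smul_mul_assoc,
      Th_smul_right, smul_sub, smul_add]

private theorem thm_mem0 (x : Hat Q) : x ∈ Fil Q 0 := by
  rw [Fil_zero]
  exact Submodule.mem_top

private theorem thm_defect_left {n : ℕ} (a : E) (s t x : Hat Q) (hs : s ∈ Fil Q (n + 1)) :
    Th a (s * t) x - (Th a s (t * x) + Th a t (x * s)) ∈ Fil Q n := by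
  have h1 := Th_Fil a (mul_mem_Fil_right t hs) (thm_mem0 x)
  have h2 := Th_Fil a hs (thm_mem0 (t * x))
  have h3 := thm_Fil a t (mul_mem_Fil_left x hs)
  exact sub_mem h1 (add_mem h2 (Fil_anti (Nat.le_succ n) h3))

private theorem thm_defect_right {n : ℕ} (a : E) (s t x : Hat Q) (ht : t ∈ Fil Q (n + 1)) :
    Th a (s * t) x - (Th a s (t * x) + Th a t (x * s)) ∈ Fil Q n := by
  have h1 := Th_Fil a (mul_mem_Fil_left s ht) (thm_mem0 x)
  have h2 := Th_Fil a ht (thm_mem0 (x * s))
  have h3 := thm_Fil a s (mul_mem_Fil_right x ht)
  exact sub_mem h1 (add_mem (Fil_anti (Nat.le_succ n) h3) h2)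

theorem Th_mul [Finite E] (a : E) (s t x : Hat Q) :
    Th a (s * t) x = Th a s (t * x) + Th a t (x * s) := by
  have h1 : ∀ (j' k : V) (l' : List E), Q.IsPath j' l' k → ∀ s : Hat Q,
      thmGL a (word Q j' l') x s = 0 := by
    intro j' k l' h' s
    refine thm_density _ (fun n f hf => thm_defect_left a f _ x hf) (fun i j l h => ?_) s
    exact sub_eq_zero.2 (thm_words h h' a x)
  have h2 : thmGR a s x t = 0 := by
    refine thm_density _ (fun n f hf => thm_defect_right a s f x hf) (fun j' k l' h' => ?_) t
    exact h1 j' k l' h' s
  exact sub_eq_zero.1 h2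

theorem Th_ends [Finite E] (a : E) {s : Hat Q} {i j : V} (hi : idem Q i * s = s)
    (hj : s * idem Q j = s) (x : Hat Q) : Th a s (idem Q j * x * idem Q i) = Th a s x := by
  have h1 : ∀ y : Hat Q, Th a s y = Th a s (y * idem Q i) := by
    intro y
    have := Th_mul a (idem Q i) s y
    rwa [hi, Th_idem, zero_add] at this
  have h2 : ∀ y : Hat Q, Th a s y = Th a s (idem Q j * y) := by
    intro y
    have := Th_mul a s (idem Q j) y
    rwa [hj, Th_idem, add_zero] at this
  rw [← h1, ← h2]

end Pool.Agent.Flop
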