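import Pool.Agent.Lib.FlA.Krl
import Pool.Agent.Lib.FlA.ThG
import Pool.Agent.Lib.FlA.ThM

/-!
# TrF: derivatives of traces
-/

set_option autoImplicit false

namespace Pool.Agent.Flop

open Finset

section

variable {R K : Type} [CommRing R] [IsLocalRing R] [Field K] [Algebra R K]

/-- The elements `y` of `K` such that `s₀ ^ k * y` lies in the image of the `n`-th power of the
maximal ideal. -/
private def trG (K : Type) [Field K] [Algebra R K] (s₀ : R) (k n : ℕ) : AddSubgroup K where
  carrier := {y | ∃ z ∈ IsLocalRing.maximalIdeal R ^ n,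
    algebraMap R K s₀ ^ k * y = algebraMap R K z}
  add_mem' := by
    rintro a b ⟨z, hz, h⟩ ⟨z', hz', h'⟩
    exact ⟨z + z', add_mem hz hz', by rw [mul_add, h, h', map_add]⟩
  zero_mem' := ⟨0, zero_mem _, by rw [mul_zero, map_zero]⟩
  neg_mem' := by
    rintro a ⟨z, hz, h⟩
    exact ⟨-z, neg_mem hz, by rw [mul_neg, h, map_neg]⟩

private theorem trG_mul {s₀ : R} {k k' n n' : ℕ} {y y' : K} (h : y ∈ trG K s₀ k n)
    (h' : y' ∈ trG K s₀ k' n') : y * y' ∈ trG K s₀ (k + k') (n + n') := by
  obtain ⟨z, hz, e⟩ := h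
  obtain ⟨z', hz', e'⟩ := h'
  refine ⟨z * z', ?_, ?_⟩
  · rw [pow_add]
    exact Ideal.mul_mem_mul hz hz'
  · rw [map_mul, ← e, ← e', pow_add]
    ring

private theorem trG_anti {s₀ : R} {k n n' : ℕ} (hn : n ≤ n') {y : K} (h : y ∈ trG K s₀ k n') :
    y ∈ trG K s₀ k n := by
  obtain ⟨z, hz, e⟩ := h
  exact ⟨z, Ideal.pow_le_pow_right hn hz, e⟩

private theorem trG_zero [IsDomain R] [IsNoetherianRing R] [IsFractionRing R K] {s₀ : R}
    (hs : s₀ ≠ 0) {k : ℕ} {y : K} (h : ∀ n, y ∈ trG K s₀ k n) : y = 0 := by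
  obtain ⟨z, -, e⟩ := h 0
  have hinj : Function.Injective (algebraMap R K) := IsFractionRing.injective R K
  have hz : z ∈ ⨅ n : ℕ, IsLocalRing.maximalIdeal R ^ n := by
    rw [Submodule.mem_iInf]
    intro n
    obtain ⟨z', hz', e'⟩ := h n
    have : z = z' := hinj (e.symm.trans e')
    rw [this]
    exact hz'
  rw [Ideal.iInf_pow_eq_bot_of_isLocalRing _ (Ideal.IsPrime.ne_top inferInstance)] at hz
  have hz0 : z = 0 := hz
  rw [hz0, map_zero] at e
  rcases mul_eq_zero.1 e with h' | h'
  · exfalso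
    have h4 : algebraMap R K s₀ = 0 := by
      by_contra hne
      exact pow_ne_zero k hne h'
    exact hs (hinj (by rw [h4, map_zero]))
  · exact h'

omit [IsLocalRing R] in
private theorem der_pow [Algebra ℂ R] (δ : Derivation ℂ R R) (I : Ideal R) (n : ℕ) {z : R}
    (hz : z ∈ I ^ (n + 1)) : δ z ∈ I ^ n := by
  induction n generalizing z with
  | zero => rw [pow_zero, Ideal.one_eq_top]; exact Submodule.mem_top
  | succ n ih =>
    rw [pow_succ] at hz
    induction hz using Submodule.mul_induction_on' with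
    | mem_mul_mem a ha b hb =>
      rw [Derivation.leibniz, smul_eq_mul, smul_eq_mul]
      refine add_mem (Ideal.mul_mem_right _ _ ha) ?_
      rw [pow_succ']
      exact Ideal.mul_mem_mul hb (ih ha)
    | add a _ b _ ha hb =>
      rw [map_add]
      exact add_mem ha hb

private theorem trG_der [Algebra ℂ R] {s₀ : R} (δ : Derivation ℂ R R) (δ' : K →+ K)
    (h1 : ∀ x y, δ' (x * y) = δ' x * y + x * δ' y)
    (h2 : ∀ r : R, δ' (algebraMap R K r) = algebraMap R K (δ r)) {n : ℕ} {y : K}
    (h : y ∈ trG K s₀ 1 n) : δ' y ∈ trG K s₀ 2 (n - 1) := by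
  obtain ⟨z, hz, e⟩ := h
  rw [pow_one] at e
  refine ⟨s₀ * δ z - δ s₀ * z, ?_, ?_⟩
  · refine sub_mem (Ideal.mul_mem_left _ _ ?_) (Ideal.mul_mem_left _ _ ?_)
    · cases n with
      | zero => rw [Nat.zero_sub, pow_zero, Ideal.one_eq_top]; exact Submodule.mem_top
      | succ n => exact der_pow δ _ n hz
    · exact Ideal.pow_le_pow_right (Nat.sub_le n 1) hz
  · have e1 : δ' (algebraMap R K s₀ * y) = algebraMap R K (δ z) := by rw [e, h2]
    rw [h1, h2] at e1
    rw [map_sub, map_mul, map_mul, ← e1, ← e]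
    ring

end

variable {V E : Type} [Fintype V] [DecidableEq V] [DecidableEq E] [Fintype E] {Q : Qv V E}
variable {R A : Type} [CommRing R] [IsDomain R] [IsLocalRing R] [IsNoetherianRing R] [Algebra ℂ R]
  [Ring A] [Algebra ℂ A] [Algebra R A] [IsScalarTower ℂ R A] {o : V} {W : Hat Q}
  {π : Hat Q →ₐ[ℂ] A} {K : Type} [Field K] [Algebra R K] [IsFractionRing R K]

omit [IsDomain R] [IsNoetherianRing R] [Algebra ℂ R] [IsFractionRing R K] [Algebra ℂ A]
  [IsScalarTower ℂ R A] in
private theorem MA_entry {d : ℕ} (M : A →ₐ[R] Matrix (Fin d) (Fin d) K) {s₀ : R}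
    (hs0 : ∀ a i j, ∃ x : R, algebraMap R K s₀ * M a i j = algebraMap R K x) {n : ℕ} {y : A}
    (hy : y ∈ MA R A n) (i j : Fin d) : M y i j ∈ trG K s₀ 1 n := by
  rw [MA] at hy
  induction hy using Submodule.smul_induction_on' with
  | smul r hr x hx =>
    obtain ⟨z, hz⟩ := hs0 x i j
    refine ⟨r * z, Ideal.mul_mem_right _ _ hr, ?_⟩
    rw [map_smul, Matrix.smul_apply, Algebra.smul_def, pow_one, map_mul, ← hz]
    ring
  | add x _ y _ hx hy =>
    rw [map_add, Matrix.add_apply]
    exact add_mem hx hy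

omit [IsDomain R] [IsNoetherianRing R] [IsFractionRing R K] [IsLocalRing R] [DecidableEq E]
  [Fintype E] in
private theorem M_smul {d : ℕ} (M : A →ₐ[R] Matrix (Fin d) (Fin d) K) (c : ℂ) (f : Hat Q) :
    M (π (c • f)) = algebraMap R K (algebraMap ℂ R c) • M (π f) := by
  rw [map_smul, ← algebraMap_smul R c (π f), map_smul]
  ext i j
  rw [Matrix.smul_apply, Matrix.smul_apply, Algebra.smul_def, smul_eq_mul]

private theorem map_mul' {d : ℕ} (δ' : K →+ K) (h1 : ∀ x y, δ' (x * y) = δ' x * y + x * δ' y)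
    (X Y : Matrix (Fin d) (Fin d) K) : (X * Y).map δ' = X.map δ' * Y + X * Y.map δ' := by
  ext i j
  rw [Matrix.map_apply, Matrix.mul_apply, map_sum, Matrix.add_apply, Matrix.mul_apply,
    Matrix.mul_apply, ← Finset.sum_add_distrib]
  exact Finset.sum_congr rfl fun k _ => h1 _ _

private theorem map_add' {d : ℕ} (δ' : K →+ K) (X Y : Matrix (Fin d) (Fin d) K) :
    (X + Y).map δ' = X.map δ' + Y.map δ' := by
  ext i j
  rw [Matrix.map_apply, Matrix.add_apply, map_add]
  rfl

theorem Mdl.trace_der (h : Mdl R o W π) {d : ℕ} (M : A →ₐ[R] Matrix (Fin d) (Fin d) K) {s₀ : R}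
    (hs : s₀ ≠ 0) (hs0 : ∀ a i j, ∃ x : R, algebraMap R K s₀ * M a i j = algebraMap R K x)
    (δ : Derivation ℂ R R) (δ' : K →+ K) (h1 : ∀ x y, δ' (x * y) = δ' x * y + x * δ' y)
    (h2 : ∀ r : R, δ' (algebraMap R K r) = algebraMap R K (δ r))
    (hE : ∀ i, (M (π (idem Q i))).map δ' = 0) (f : Hat Q) :
    δ' (M (π f)).trace = ∑ a, ((M (π (arr Q a))).map δ' * M (π (cyc a f))).trace := by
  classical
  have hc0 : ∀ c : ℂ, δ' (algebraMap R K (algebraMap ℂ R c)) = 0 := by
    intro c
    rw [h2, Derivation.map_algebraMap, map_zero]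
  have hdc : ∀ (c : ℂ) (X : Matrix (Fin d) (Fin d) K),
      (algebraMap R K (algebraMap ℂ R c) • X).map δ' =
        algebraMap R K (algebraMap ℂ R c) • X.map δ' := by
    intro c X
    ext i j
    rw [Matrix.map_apply, Matrix.smul_apply, Matrix.smul_apply, Matrix.map_apply, smul_eq_mul,
      smul_eq_mul, h1, hc0, zero_mul, zero_add]
  have key := th_ind' (Q := Q) (Y := K) (fun n => (trG K s₀ 3 n : Set K))
    (fun y hy => trG_zero hs hy)
    (fun s x => ((M (π s)).map δ' * M (π x)).trace -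
      ∑ a, ((M (π (arr Q a))).map δ' * M (π (Th a s x))).trace)
    ?_ ?_ ?_ ?_ ?_ ?_ f 1
  · have e := sub_eq_zero.1 key
    simp only [map_one, mul_one, Th_one] at e
    rw [← e, Matrix.trace, Matrix.trace, map_sum]
    rfl
  · intro s t x
    simp only [map_add, map_add', Th_add_left, add_mul, mul_add, Matrix.trace_add,
      Finset.sum_add_distrib]
    ring
  · intro c s x hx
    have e : (∑ a, ((M (π (arr Q a))).map δ' * M (π (Th a (c • s) x))).trace) =
        algebraMap R K (algebraMap ℂ R c) *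
          ∑ a, ((M (π (arr Q a))).map δ' * M (π (Th a s x))).trace := by
      rw [Finset.mul_sum]
      refine Finset.sum_congr rfl fun a _ => ?_
      rw [Th_smul_left, M_smul, Matrix.mul_smul, Matrix.trace_smul, smul_eq_mul]
    change ((M (π (c • s))).map δ' * M (π x)).trace - _ = 0
    rw [e, M_smul, hdc, Matrix.smul_mul, Matrix.trace_smul, smul_eq_mul, ← mul_sub]
    have hx' : ((M (π s)).map δ' * M (π x)).trace -
      ∑ a, ((M (π (arr Q a))).map δ' * M (π (Th a s x))).trace = 0 := hx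
    rw [hx', mul_zero]
  · intro s t x
    have e1 : ((M (π (s * t))).map δ' * M (π x)).trace =
        ((M (π s)).map δ' * M (π (t * x))).trace + ((M (π t)).map δ' * M (π (x * s))).trace := by
      rw [map_mul, map_mul, map_mul' δ' h1, add_mul, Matrix.trace_add, map_mul, map_mul, map_mul,
        map_mul, mul_assoc]
      congr 1
      rw [mul_assoc, Matrix.trace_mul_comm, mul_assoc]
    have e2 : ∀ a, ((M (π (arr Q a))).map δ' * M (π (Th a (s * t) x))).trace =
        ((M (π (arr Q a))).map δ' * M (π (Th a s (t * x)))).trace +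
        ((M (π (arr Q a))).map δ' * M (π (Th a t (x * s)))).trace := by
      intro a
      rw [Th_mul, map_add, map_add, mul_add, Matrix.trace_add]
    simp only [e1, e2, Finset.sum_add_distrib]
    ring
  · intro v x
    simp only [hE, Th_idem, map_zero, mul_zero, zero_mul, Matrix.trace_zero,
      Finset.sum_const_zero, sub_zero]
  · intro b x
    have e1 : (M (π (arr Q b))).map δ' = M (π (idem Q (Q.src b))) * (M (π (arr Q b))).map δ' *
        M (π (idem Q (Q.tgt b))) := by
      have e : M (π (arr Q b)) = M (π (idem Q (Q.src b))) * M (π (arr Q b)) *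
          M (π (idem Q (Q.tgt b))) := by
        rw [← map_mul, ← map_mul, ← map_mul, ← map_mul, idem_mul_arr, arr_mul_idem]
      conv_lhs => rw [e]
      rw [map_mul' δ' h1, map_mul' δ' h1, hE, hE, zero_mul, zero_add, mul_zero, add_zero]
    have e2 : (∑ a, ((M (π (arr Q a))).map δ' * M (π (Th a (arr Q b) x))).trace) =
        ((M (π (arr Q b))).map δ' * M (π (idem Q (Q.tgt b) * x * idem Q (Q.src b)))).trace := by
      rw [Finset.sum_eq_single b]
      · rw [Th_arr, if_pos rfl]
      · intro a _ ha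
        rw [Th_arr, if_neg ha, map_zero, map_zero, mul_zero, Matrix.trace_zero]
      · intro hb
        exact absurd (Finset.mem_univ b) hb
    change ((M (π (arr Q b))).map δ' * M (π x)).trace - _ = 0
    rw [e2, sub_eq_zero]
    conv_lhs => rw [e1]
    rw [map_mul, map_mul, map_mul, map_mul]
    generalize (M (π (arr Q b))).map δ' = D
    generalize M (π (idem Q (Q.src b))) = S
    generalize M (π (idem Q (Q.tgt b))) = T
    generalize M (π x) = X
    calc (S * D * T * X).trace = (S * (D * T * X)).trace := by simp only [mul_assoc]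
      _ = (D * T * X * S).trace := Matrix.trace_mul_comm _ _
      _ = (D * (T * X * S)).trace := by simp only [mul_assoc]
  · intro n x
    obtain ⟨k, hk⟩ := h.MA_of_fil (n + 1)
    refine ⟨k + 1, fun s hsf => ?_⟩
    have hx : ∀ (y : A) i j, M y i j ∈ trG K s₀ 1 0 := by
      intro y i j
      obtain ⟨z, hz⟩ := hs0 y i j
      exact ⟨z, by rw [pow_zero, Ideal.one_eq_top]; exact Submodule.mem_top, by rw [pow_one, hz]⟩
    refine sub_mem (H := trG K s₀ 3 n) ?_ (sum_mem fun a _ => ?_)
    · rw [Matrix.trace]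
      refine sum_mem fun i _ => ?_
      rw [Matrix.diag_apply, Matrix.mul_apply]
      refine sum_mem fun j _ => ?_
      rw [Matrix.map_apply]
      have := trG_mul (trG_der δ δ' h1 h2
        (MA_entry M hs0 (hk s (Fil_anti (Nat.le_succ k) hsf)) i j)) (hx (π x) j i)
      simpa using this
    · rw [Matrix.trace]
      refine sum_mem fun i _ => ?_
      rw [Matrix.diag_apply, Matrix.mul_apply]
      refine sum_mem fun j _ => ?_
      rw [Matrix.map_apply]
      have h3 : Th a s x ∈ Fil Q (k + 0) := Th_Fil a hsf (by rw [Fil_zero]; exact Submodule.mem_top)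
      have := trG_mul (trG_der δ δ' h1 h2 (hx (π (arr Q a)) i j))
        (MA_entry M hs0 (hk _ h3) j i)
      refine trG_anti (Nat.le_succ n) ?_
      simpa using this

theorem Mdl.trace_cl (h : Mdl R o W π) {d : ℕ} (M : A →ₐ[R] Matrix (Fin d) (Fin d) K) {s₀ : R}
    (hs : s₀ ≠ 0) (hs0 : ∀ a i j, ∃ x : R, algebraMap R K s₀ * M a i j = algebraMap R K x)
    {f : Hat Q} (hf : f ∈ cl (jac W ⊔ Comm Q)) : (M (π f)).trace = 0 := by
  have hcomm : ∀ c ∈ Comm Q, (M (π c)).trace = 0 := by
    intro c hc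
    rw [Comm] at hc
    induction hc using Submodule.span_induction with
    | mem x hx =>
      obtain ⟨p, q, rfl⟩ := hx
      rw [map_sub, map_sub, map_mul, map_mul, map_mul, map_mul, Matrix.trace_sub,
        Matrix.trace_mul_comm, sub_self]
    | zero => rw [map_zero, map_zero, Matrix.trace_zero]
    | add x y _ _ hx hy => rw [map_add, map_add, Matrix.trace_add, hx, hy, add_zero]
    | smul c x _ hx => rw [M_smul, Matrix.trace_smul, hx, smul_zero]
  refine trG_zero (k := 1) hs fun n => ?_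
  obtain ⟨k, hk⟩ := h.MA_of_fil n
  obtain ⟨g, hg, hfg⟩ := mem_cl.1 hf k
  obtain ⟨j, hj, c, hc, rfl⟩ := Submodule.mem_sup.1 hg
  have hc0 : (M (π c)).trace = 0 := hcomm c hc
  have e : (M (π f)).trace = (M (π (f - (j + c)))).trace := by
    rw [map_sub, map_add, (h.ker j).2 hj, zero_add, map_sub, Matrix.trace_sub, hc0, sub_zero]
  rw [e, Matrix.trace]
  exact sum_mem fun i _ => MA_entry M hs0 (hk _ hfg) i i

end Pool.Agent.Flop
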