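import Pool.Agent.Lib.FlA.ResK
import Pool.Agent.Lib.FlA.TrF
import Pool.Agent.Lib.FlA.Rep
import Pool.Agent.Lib.FlA.DerK
import Pool.Agent.Lib.FlA.Itg
import Pool.Agent.Lib.FlA.Dvs
import Pool.Agent.Lib.FlA.PrsB

/-!
# TrM: the trace argument: the class of the potential vanishes on the big quiver

exists_corner_of_classZero: t in e_o T e_o, t in Fil 1, W - t in cl (jac W + Comm). π t = r • e (corner, e = π(e_o)). K = FractionRing R, M, s from exists_rep. (1) trace_cl: tr M π W = tr M π t = tr M (r • e) = r. (2) For δ in Der_ℂ(R), δ' from exists_ext_der: hE: entries 0 or 1, δ' 0 = 0, δ' 1 = 0 (δ'(1) = 2 δ'(1)). trace_der for f = W: δ' (tr M π W) =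
sum_a tr (δ'(M π a) * M (π (cyc a W))) = 0 (π (cyc a W) = 0: cyc_jac, h.ker). So δ r = 0 for ALL derivations δ of R. (3) r = 0: r in m: t in Fil 1, otherwise r unit, e = r⁻¹ • π t in π(Fil 1): idem_not. So r = θ p with constantCoeff p = 0 (mem_max). exists_ham: θ (∂_i g ∂_j p - ∂_j g ∂_i p) = 0, i.e. g divides it. dvd_of_ham: need hdiv: if g | w i ∂_j g - w j ∂_i g
then in R, with b i = θ (∂_i g), (θ w i) b j = (θ w j) b i; exists_mul_of_minors with f1, f2 from h.dep: IsWeaklyRegular A [f1, f2, f3] gives (unfold isWeaklyRegular_cons_iff): f1 • x = 0 → x = 0 on A, and f2 • x = f1 • y → x = f1 • z on A (QuotSMulTop); transfer to R with r ↦ r • e and corner: f1 * x = 0 → (f1 x) • e = 0 → x • e = 0 → x = 0; f2 * x = f1 * y →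
x • e = f1 • z → multiply by e on both sides: x • e = f1 • (t' • e) → x = f1 t'. f1^N, f2^N in span b: iso_R (m^N). So θ (w i) = u' * b i, u' = θ u: g | w i - u ∂_i g. Hence g | p, r = θ p = 0. (4) So π t = 0, t in jac W, and W = (W - t) + t in cl (jac W + Comm).
-/

set_option autoImplicit false

namespace Pool.Agent.Flop

open Finset

variable {V E : Type} [Fintype V] [DecidableEq V] [DecidableEq E] [Fintype E] {Q : Qv V E}
variable {R A : Type} [CommRing R] [IsDomain R] [IsLocalRing R] [IsNoetherianRing R] [Algebra ℂ R]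
  [Ring A] [Algebra ℂ A] [Algebra R A] [IsScalarTower ℂ R A] {o : V} {W : Hat Q}
  {π : Hat Q →ₐ[ℂ] A}

private theorem trm_e_ne (h : Mdl R o W π) : π (idem Q o) ≠ 0 := by
  have h1 := h.idem_not (Submodule.zero_mem (Fil Q 1)) o
  rw [map_zero] at h1
  exact h1.symm

private theorem trm_inj (h : Mdl R o W π) {r s : R}
    (hrs : r • π (idem Q o) = s • π (idem Q o)) : r = s := by
  have h1 : (r - s) • π (idem Q o) = 0 := by rw [sub_smul, hrs, sub_self]
  rcases h.tf _ _ h1 with h2 | h2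
  · exact sub_eq_zero.1 h2
  · exact absurd h2 (trm_e_ne h)

private theorem trm_ee : π (idem Q o) * π (idem Q o) = π (idem Q o) := by
  rw [← map_mul, idem_mul_idem, if_pos rfl]

private theorem trm_reg1 (h : Mdl R o W π) {f : R} (hf : IsSMulRegular A f) (x : R)
    (hx : f * x = 0) : x = 0 := by
  refine trm_inj h ?_
  rw [zero_smul]
  refine hf ?_
  change f • x • π (idem Q o) = f • (0 : A)
  rw [← mul_smul, hx, zero_smul, smul_zero]

private theorem trm_reg2 (h : Mdl R o W π) {f f' : R} (hf : IsSMulRegular (QuotSMulTop f A) f')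
    (x y : R) (hx : f' * x = f * y) : ∃ z, x = f * z := by
  have h1 : (Submodule.Quotient.mk (x • π (idem Q o)) : QuotSMulTop f A) = 0 := by
    refine hf ?_
    change f' • (Submodule.Quotient.mk (x • π (idem Q o)) : QuotSMulTop f A) =
      f' • (0 : QuotSMulTop f A)
    rw [← Submodule.Quotient.mk_smul, ← mul_smul, hx, mul_smul, smul_zero]
    exact (Submodule.Quotient.mk_eq_zero _).2
      (Submodule.smul_mem_pointwise_smul _ _ _ Submodule.mem_top)
  obtain ⟨a, _, ha⟩ := (Submodule.mem_smul_pointwise_iff_exists _ _ _).1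
    ((Submodule.Quotient.mk_eq_zero _).1 h1)
  obtain ⟨z, hz⟩ := h.corner a
  refine ⟨z, trm_inj h ?_⟩
  rw [mul_smul, ← hz, ← smul_mul_assoc, ← mul_smul_comm, ha, mul_smul_comm, smul_mul_assoc,
    trm_ee, trm_ee]

private theorem trm_dvd (h : Mdl R o W π) {g : MvPowerSeries (Fin 4) ℂ}
    {θ : MvPowerSeries (Fin 4) ℂ →ₐ[ℂ] R} (hp : Prs g θ) {r : MvPowerSeries (Fin 4) ℂ}
    (hr0 : MvPowerSeries.constantCoeff r = 0)
    (hr : ∀ δ : Derivation ℂ R R, δ (θ r) = 0) : g ∣ r := by
  have hg0 : MvPowerSeries.constantCoeff g = 0 := by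
    rw [← MvPowerSeries.coeff_zero_eq_constantCoeff_apply]
    exact mem_Od.1 hp.two 0 (by simp)
  refine dvd_of_ham hp.ne_zero hg0 ?_ hr0 ?_
  · intro w hw
    obtain ⟨f1, f2, f3, hf1, hf2, _, hreg⟩ := h.dep
    rw [RingTheory.Sequence.isWeaklyRegular_cons_iff,
      RingTheory.Sequence.isWeaklyRegular_cons_iff] at hreg
    obtain ⟨hreg1, hreg2, _⟩ := hreg
    obtain ⟨N, hN⟩ := hp.iso_R
    obtain ⟨u', hu'⟩ := exists_mul_of_minors (fun i => θ (MvPowerSeries.pderiv ℂ i g))
      (fun i => θ (w i)) f1 f2 N (trm_reg1 h hreg1) (trm_reg2 h hreg2)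
      (hN (Ideal.pow_mem_pow hf1 N)) (hN (Ideal.pow_mem_pow hf2 N)) (by
        intro i j
        have h1 := (hp.ker _).2 (hw i j)
        rw [map_sub, map_mul, map_mul, sub_eq_zero] at h1
        exact h1)
    obtain ⟨u, hu⟩ := hp.surj u'
    refine ⟨u, fun i => ?_⟩
    rw [← hp.ker, map_sub, map_mul, hu, sub_eq_zero]
    exact hu' i
  · intro i j
    obtain ⟨δ, hδ⟩ := hp.exists_ham i j
    rw [← hp.ker, ← hδ]
    exact hr δ

theorem Mdl.classZero (h : Mdl R o W π) {g : MvPowerSeries (Fin 4) ℂ}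
    {θ : MvPowerSeries (Fin 4) ℂ →ₐ[ℂ] R} (hp : Prs g θ) (hc : ClassZero (res o W)) :
    ClassZero W := by
  obtain ⟨t, ht1, ht2, ht3⟩ := exists_corner_of_classZero o h.pot hc
  obtain ⟨r, hr⟩ := h.corner (π t)
  have hπt : π t = r • π (idem Q o) := by
    rw [← hr, ← map_mul, ← map_mul, ht1]
  obtain ⟨d, M, s, hs, hs0, hidm, htr⟩ := h.exists_rep (FractionRing R)
  have htrace : (M (π W)).trace = algebraMap R (FractionRing R) r := by
    have h1 := h.trace_cl M hs hs0 ht3
    rw [map_sub, map_sub, Matrix.trace_sub, sub_eq_zero, hπt, htr] at h1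
    exact h1
  have hder : ∀ δ : Derivation ℂ R R, δ r = 0 := by
    intro δ
    obtain ⟨δ', h1, h2⟩ := exists_ext_der (K := FractionRing R) δ
    have h3 : δ' 1 = 0 := by
      have h4 := h1 1 1
      rw [mul_one, mul_one, one_mul] at h4
      exact left_eq_add.1 h4
    have h5 := h.trace_der M hs hs0 δ δ' h1 h2 (by
      intro i
      ext k l
      rw [Matrix.map_apply, Matrix.zero_apply]
      rcases hidm i k l with h6 | h6
      · rw [h6, map_zero]
      · rw [h6, h3]) W
    rw [Finset.sum_eq_zero (fun a _ => by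
      rw [(h.ker _).2 (cyc_jac W a), map_zero, mul_zero, Matrix.trace_zero]), htrace, h2] at h5
    exact (IsFractionRing.injective R (FractionRing R)) (by rw [h5, map_zero])
  have hrm : r ∈ IsLocalRing.maximalIdeal R := by
    by_contra hc'
    rw [IsLocalRing.mem_maximalIdeal, mem_nonunits_iff, not_not] at hc'
    obtain ⟨u, rfl⟩ := hc'
    obtain ⟨ρ, _, hρ⟩ := h.exists_lift_smul ((u⁻¹ : Rˣ) : R)
    refine h.idem_not (mul_mem_Fil_left ρ ht2) o ?_
    rw [hρ, hπt, ← mul_smul, Units.inv_mul, one_smul]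
  obtain ⟨p, rfl⟩ := hp.surj r
  have h0 : θ p = 0 := (hp.ker p).2 (trm_dvd h hp ((hp.mem_max p).1 hrm) hder)
  rw [h0, zero_smul, h.ker] at hπt
  have e : W = (W - t) + t := by abel
  change W ∈ cl (jac W ⊔ Comm Q)
  have h7 := Submodule.add_mem _ ht3 (le_cl _ (Submodule.mem_sup_left hπt))
  rwa [← e] at h7

end Pool.Agent.Flop
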